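import Mathlib

/-!
# The Poisson inequality for `log ‖F‖` at an arbitrary point of a strip

The strip is `|Re z| < h`; the point is `2 h φ / π - h` with `0 < φ < π`.
The exit density at the right edge (`σ = 1`) and at the left edge (`σ = -1`) is
`sin φ / (4 h (cosh (π y / (2 h)) + σ cos φ))`.
-/

set_option autoImplicit false

open MeasureTheory Filter Topology Set Real

namespace Pool.Agent.R402.Strip

/-- submean property of `log⁺ |f|` on a disc -/
lemma posLog_submean {f : ℂ → ℂ} {c : ℂ} {R : ℝ} (hR : 0 < R)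
    (hf : AnalyticOnNhd ℂ f (Metric.closedBall c R)) :
    log⁺ ‖f c‖ ≤ circleAverage (fun z => log⁺ ‖f z‖) c R := by
  have hR' : |R| = R := abs_of_pos hR
  have hm : MeromorphicOn f (Metric.sphere c |R|) := by
    rw [hR']
    exact (hf.mono Metric.sphere_subset_closedBall).meromorphicOn
  rw [posLog_apply, max_le_iff]
  constructor
  · exact circleAverage_nonneg_of_nonneg (fun x _ => posLog_nonneg)
  · by_cases h0 : f c = 0
    · rw [h0, norm_zero, log_zero]
      exact circleAverage_nonneg_of_nonneg (fun x _ => posLog_nonneg)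
    · have h1 := AnalyticOnNhd.circleAverage_log_norm hR.ne' (by rw [hR']; exact hf) h0
      have h2 : 0 ≤ ∑ᶠ u, (MeromorphicOn.divisor f (Metric.closedBall c |R|) u : ℝ) *
          Real.log (R * ‖c - u‖⁻¹) := by
        refine finsum_nonneg fun u => ?_
        by_cases hu : u ∈ Metric.closedBall c |R|
        · refine mul_nonneg ?_ ?_
          · have := MeromorphicOn.AnalyticOnNhd.divisor_nonneg (by rw [hR']; exact hf :
              AnalyticOnNhd ℂ f (Metric.closedBall c |R|)) u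
            exact_mod_cast this
          · by_cases huc : u = c
            · simp [huc]
            · have hpos : 0 < ‖c - u‖ := by
                rw [norm_pos_iff, sub_ne_zero]
                exact fun h => huc h.symm
              refine Real.log_nonneg ?_
              rw [hR', Metric.mem_closedBall, dist_comm, dist_eq_norm] at hu
              rw [← div_eq_mul_inv, le_div_iff₀ hpos, one_mul]
              exact hu
        · rw [Function.locallyFinsuppWithin.apply_eq_zero_of_notMem _ hu]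
          simp
      have h3 : circleAverage (fun z => Real.log ‖f z‖) c R ≤
          circleAverage (fun z => log⁺ ‖f z‖) c R :=
        circleAverage_mono hm.circleIntegrable_log_norm hm.circleIntegrable_posLog_norm
          (fun x _ => le_max_right _ _)
      linarith

/-- exit density on the side `σ` -/
noncomputable def K (h φ σ y : ℝ) : ℝ :=
  Real.sin φ / (4 * h * (Real.cosh (π * y / (2 * h)) + σ * Real.cos φ))

/-- the boundary angle -/
noncomputable def ang (h φ σ y : ℝ) : ℝ :=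
  π - 2 * Real.arctan ((Real.cos φ + σ * Real.exp (-(π * y / (2 * h)))) / Real.sin φ)

section
variable {h φ σ : ℝ}

lemma sin_pos' (hφ : φ ∈ Ioo 0 π) : 0 < Real.sin φ := Real.sin_pos_of_pos_of_lt_pi hφ.1 hφ.2

lemma cos_abs_lt (hφ : φ ∈ Ioo 0 π) : |Real.cos φ| < 1 := by
  have h1 := sin_pos' hφ
  have h2 := Real.sin_sq_add_cos_sq φ
  rw [abs_lt]
  constructor <;> nlinarith

lemma den_pos (hφ : φ ∈ Ioo 0 π) (hσ : σ = 1 ∨ σ = -1) (x : ℝ) :
    0 < Real.cosh x + σ * Real.cos φ := by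
  have h1 := Real.one_le_cosh x
  have h2 := abs_lt.1 (cos_abs_lt hφ)
  rcases hσ with rfl | rfl <;> linarith [h2.1, h2.2]

lemma K_pos (hh : 0 < h) (hφ : φ ∈ Ioo 0 π) (hσ : σ = 1 ∨ σ = -1) (y : ℝ) : 0 < K h φ σ y := by
  unfold K
  have h1 := den_pos hφ hσ (π * y / (2 * h))
  have h2 := sin_pos' hφ
  positivity

lemma K_neg (h φ σ y : ℝ) : K h φ σ (-y) = K h φ σ y := by
  unfold K
  rw [mul_neg, neg_div, Real.cosh_neg]

lemma K_continuous (hh : 0 < h) (hφ : φ ∈ Ioo 0 π) (hσ : σ = 1 ∨ σ = -1) :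
    Continuous (K h φ σ) := by
  unfold K
  refine Continuous.div continuous_const (by fun_prop) ?_
  intro y
  have := den_pos hφ hσ (π * y / (2 * h))
  positivity

lemma ang_hasDerivAt (hh : 0 < h) (hφ : φ ∈ Ioo 0 π) (hσ : σ = 1 ∨ σ = -1) (y : ℝ) :
    HasDerivAt (ang h φ σ) (σ * (2 * π * K h φ σ y)) y := by
  have h1 : HasDerivAt (fun y : ℝ => -(π * y / (2 * h))) (-(π / (2 * h))) y := by
    have := (((hasDerivAt_id' y).const_mul π).div_const (2 * h)).fun_neg
    simpa using this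
  have h2 := ((((h1.exp.const_mul σ).const_add (Real.cos φ)).div_const
    (Real.sin φ)).arctan.const_mul 2).const_sub π
  refine HasDerivAt.congr_deriv h2 ?_
  have hs := sin_pos' hφ
  have hd := den_pos hφ hσ (π * y / (2 * h))
  have hcs := Real.sin_sq_add_cos_sq φ
  have hσ2 : σ ^ 2 = 1 := by rcases hσ with rfl | rfl <;> norm_num
  unfold K
  rw [Real.cosh_eq] at hd ⊢
  set u := π * y / (2 * h)
  have e2 : Real.exp u = (Real.exp (-u))⁻¹ := by rw [Real.exp_neg, inv_inv]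
  rw [e2] at hd ⊢
  have e3 : (0:ℝ) < Real.exp (-u) := Real.exp_pos _
  set E := Real.exp (-u)
  set s := Real.sin φ
  set c := Real.cos φ
  have hd' : 0 < 1 + E ^ 2 + 2 * σ * c * E := by
    have : 1 + E ^ 2 + 2 * σ * c * E = 2 * E * ((E⁻¹ + E) / 2 + σ * c) := by
      field_simp
    rw [this]; positivity
  have e4 : 1 + ((c + σ * E) / s) ^ 2 = (1 + E ^ 2 + 2 * σ * c * E) / s ^ 2 := by
    field_simp
    linear_combination E ^ 2 * hσ2 + hcs
  have e5 : 4 * h * ((E⁻¹ + E) / 2 + σ * c) = 2 * h * (1 + E ^ 2 + 2 * σ * c * E) / E := by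
    field_simp
    ring
  rw [e4, e5]
  field_simp

lemma ang_injective (hh : 0 < h) (hφ : φ ∈ Ioo 0 π) (hσ : σ = 1 ∨ σ = -1) :
    Function.Injective (ang h φ σ) := by
  intro x y hxy
  unfold ang at hxy
  have h1 : Real.arctan ((Real.cos φ + σ * Real.exp (-(π * x / (2 * h)))) / Real.sin φ) =
      Real.arctan ((Real.cos φ + σ * Real.exp (-(π * y / (2 * h)))) / Real.sin φ) := by linarith
  have h2 := Real.arctan_injective h1
  have hs := (sin_pos' hφ).ne'
  have h3 : Real.cos φ + σ * Real.exp (-(π * x / (2 * h))) =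
      Real.cos φ + σ * Real.exp (-(π * y / (2 * h))) := by
    field_simp at h2
    exact h2
  have h4 : Real.exp (-(π * x / (2 * h))) = Real.exp (-(π * y / (2 * h))) := by
    rcases hσ with rfl | rfl <;> linarith
  have h5 := Real.exp_injective h4
  have hpi := Real.pi_pos
  field_simp at h5
  linarith

lemma cot_eq_tan (φ : ℝ) : Real.cos φ / Real.sin φ = Real.tan (π / 2 - φ) := by
  rw [Real.tan_eq_sin_div_cos, Real.sin_pi_div_two_sub, Real.cos_pi_div_two_sub]

lemma arctan_cot (hφ : φ ∈ Ioo 0 π) : Real.arctan (Real.cos φ / Real.sin φ) = π / 2 - φ := by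
  rw [cot_eq_tan, Real.arctan_tan (by linarith [hφ.2]) (by linarith [hφ.1])]

/-- the two arcs -/
def arc (φ σ : ℝ) : Set ℝ := if σ = 1 then Ioo 0 (2 * φ) else Ioo (2 * φ) (2 * π)

lemma ang_mem (hφ : φ ∈ Ioo 0 π) (hσ : σ = 1 ∨ σ = -1) (y : ℝ) :
    ang h φ σ y ∈ arc φ σ := by
  have hs := sin_pos' hφ
  have hE := Real.exp_pos (-(π * y / (2 * h)))
  have ha := arctan_cot hφ
  unfold ang
  rcases hσ with rfl | rfl
  · simp only [arc, if_true]
    have h1 : Real.cos φ / Real.sin φ <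
        (Real.cos φ + 1 * Real.exp (-(π * y / (2 * h)))) / Real.sin φ := by
      gcongr; linarith
    have h2 := Real.arctan_strictMono h1
    have h3 := Real.arctan_lt_pi_div_two
      ((Real.cos φ + 1 * Real.exp (-(π * y / (2 * h)))) / Real.sin φ)
    constructor <;> linarith
  · have : ¬ ((-1 : ℝ) = 1) := by norm_num
    simp only [arc, if_neg this]
    have h1 : (Real.cos φ + -1 * Real.exp (-(π * y / (2 * h)))) / Real.sin φ <
        Real.cos φ / Real.sin φ := by
      gcongr; linarith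
    have h2 := Real.arctan_strictMono h1
    have h3 := Real.neg_pi_div_two_lt_arctan
      ((Real.cos φ + -1 * Real.exp (-(π * y / (2 * h)))) / Real.sin φ)
    constructor <;> linarith

lemma arc_sub (hφ : φ ∈ Ioo 0 π) {θ : ℝ} (hθ : θ ∈ arc φ σ) : θ / 2 ∈ Ioo 0 π := by
  unfold arc at hθ
  split_ifs at hθ with h1
  · exact ⟨by linarith [hθ.1], by linarith [hθ.2, hφ.2]⟩
  · exact ⟨by linarith [hθ.1, hφ.1], by linarith [hθ.2, hφ.2]⟩

lemma arc_sin (hφ : φ ∈ Ioo 0 π) (hσ : σ = 1 ∨ σ = -1) {θ : ℝ} (hθ : θ ∈ arc φ σ) :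
    0 < σ * Real.sin (φ - θ / 2) := by
  rcases hσ with rfl | rfl
  · simp only [arc, if_true] at hθ
    rw [one_mul]
    exact Real.sin_pos_of_pos_of_lt_pi (by linarith [hθ.2]) (by linarith [hθ.1, hφ.2])
  · have : ¬ ((-1 : ℝ) = 1) := by norm_num
    simp only [arc, if_neg this] at hθ
    have h2 := Real.sin_pos_of_pos_of_lt_pi (x := θ / 2 - φ) (by linarith [hθ.1])
      (by linarith [hθ.2, hφ.1])
    have h3 : φ - θ / 2 = -(θ / 2 - φ) := by ring
    rw [h3, Real.sin_neg]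
    linarith

lemma ang_image (hh : 0 < h) (hφ : φ ∈ Ioo 0 π) (hσ : σ = 1 ∨ σ = -1) :
    ang h φ σ '' univ = arc φ σ := by
  apply Subset.antisymm
  · rintro _ ⟨y, -, rfl⟩
    exact ang_mem hφ hσ y
  · intro θ hθ
    have h1 := arc_sub hφ hθ
    have h2 := arc_sin hφ hσ hθ
    have h3 := sin_pos' h1
    have hs := sin_pos' hφ
    have hσ2 : σ * σ = 1 := by rcases hσ with rfl | rfl <;> norm_num
    set E : ℝ := σ * Real.sin (φ - θ / 2) / Real.sin (θ / 2) with hE
    have hE0 : 0 < E := by positivity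
    refine ⟨-(2 * h / π) * Real.log E, mem_univ _, ?_⟩
    unfold ang
    have h4 : -(π * (-(2 * h / π) * Real.log E) / (2 * h)) = Real.log E := by
      have := Real.pi_pos
      field_simp
    rw [h4, Real.exp_log hE0]
    have h5 : (Real.cos φ + σ * E) / Real.sin φ = Real.cos (θ / 2) / Real.sin (θ / 2) := by
      have e1 : σ * E = Real.sin (φ - θ / 2) / Real.sin (θ / 2) := by
        rw [hE, ← mul_div_assoc, ← mul_assoc, hσ2, one_mul]
      rw [e1, Real.sin_sub]
      field_simp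
      ring
    rw [h5, arctan_cot h1]
    ring

/-- change of variables -/
lemma integral_ang (hh : 0 < h) (hφ : φ ∈ Ioo 0 π) (hσ : σ = 1 ∨ σ = -1) (g : ℝ → ℝ) :
    ∫ θ in arc φ σ, g θ = ∫ y, 2 * π * K h φ σ y * g (ang h φ σ y) := by
  rw [← ang_image hh hφ hσ, integral_image_eq_integral_abs_deriv_smul MeasurableSet.univ
    (fun y _ => (ang_hasDerivAt hh hφ hσ y).hasDerivWithinAt)
    (ang_injective hh hφ hσ).injOn]
  rw [Measure.restrict_univ]
  refine integral_congr_ae (Eventually.of_forall fun y => ?_)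
  have := K_pos hh hφ hσ y
  have h1 : |σ| = 1 := by rcases hσ with rfl | rfl <;> simp
  simp only [smul_eq_mul, abs_mul]
  rw [h1, abs_of_pos this, abs_of_pos Real.pi_pos, abs_of_pos (two_pos : (0:ℝ) < 2)]
  ring

lemma K_mass_one (hh : 0 < h) (hφ : φ ∈ Ioo 0 π) : ∫ y, K h φ 1 y = φ / π := by
  have h1 := integral_ang hh hφ (Or.inl rfl) (fun _ => 1)
  simp only [mul_one] at h1
  rw [integral_const_mul, setIntegral_const] at h1
  simp only [smul_eq_mul, mul_one, arc, if_true] at h1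
  rw [Measure.real, Real.volume_Ioo, ENNReal.toReal_ofReal (by linarith [hφ.1])] at h1
  have := Real.pi_pos
  rw [eq_div_iff this.ne']
  linarith

lemma K_mass_neg_one (hh : 0 < h) (hφ : φ ∈ Ioo 0 π) : ∫ y, K h φ (-1) y = 1 - φ / π := by
  have h1 := integral_ang hh hφ (Or.inr rfl : (-1:ℝ) = 1 ∨ (-1:ℝ) = -1) (fun _ => 1)
  simp only [mul_one] at h1
  have h2 : ¬ ((-1 : ℝ) = 1) := by norm_num
  rw [integral_const_mul, setIntegral_const] at h1
  simp only [smul_eq_mul, mul_one, arc, if_neg h2] at h1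
  rw [Measure.real, Real.volume_Ioo, ENNReal.toReal_ofReal (by linarith [hφ.2])] at h1
  have := Real.pi_pos
  rw [eq_sub_iff_add_eq, ← eq_sub_iff_add_eq']
  field_simp
  linarith

end

/-- the disc is mapped to the strip `|Re z| < h` -/
noncomputable def M (h φ : ℝ) (w : ℂ) : ℂ :=
  -(Complex.I * (2 * h / π : ℝ)) *
    Complex.log ((Real.sin φ : ℂ) * ((1 + w) / (1 - w)) - (Real.cos φ : ℂ) * Complex.I)

lemma one_sub_ne {w : ℂ} (hw : ‖w‖ < 1) : 1 - w ≠ 0 := by
  intro h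
  have : w = 1 := (sub_eq_zero.1 h).symm
  rw [this] at hw
  simp at hw

lemma re_cayley {w : ℂ} (hw : ‖w‖ < 1) : 0 < ((1 + w) / (1 - w)).re := by
  have h1 := one_sub_ne hw
  have h2 : 0 < Complex.normSq (1 - w) := Complex.normSq_pos.2 h1
  rw [Complex.div_re, ← add_div]
  refine div_pos ?_ h2
  simp only [Complex.add_re, Complex.one_re, Complex.sub_re, Complex.add_im, Complex.one_im,
    Complex.sub_im, zero_add, zero_sub]
  have h3 : Complex.normSq w < 1 := by
    rw [Complex.normSq_eq_norm_sq]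
    have := norm_nonneg w
    nlinarith
  rw [Complex.normSq_apply] at h3
  nlinarith

section
variable {h φ σ : ℝ}

/-- the argument of the logarithm -/
noncomputable def Z (φ : ℝ) (w : ℂ) : ℂ :=
  (Real.sin φ : ℂ) * ((1 + w) / (1 - w)) - (Real.cos φ : ℂ) * Complex.I

lemma Z_re (hφ : φ ∈ Ioo 0 π) {w : ℂ} (hw : ‖w‖ < 1) : 0 < (Z φ w).re := by
  unfold Z
  rw [Complex.sub_re, Complex.re_ofReal_mul, Complex.re_ofReal_mul, Complex.I_re, mul_zero,
    sub_zero]
  exact mul_pos (sin_pos' hφ) (re_cayley hw)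

lemma M_eq (h φ : ℝ) (w : ℂ) :
    M h φ w = -(Complex.I * (2 * h / π : ℝ)) * Complex.log (Z φ w) := rfl

lemma M_re (h φ : ℝ) (w : ℂ) : (M h φ w).re = 2 * h / π * (Z φ w).arg := by
  rw [M_eq, neg_mul, mul_assoc, Complex.neg_re, Complex.I_mul_re, Complex.im_ofReal_mul,
    Complex.log_im]
  ring

lemma M_im (h φ : ℝ) (w : ℂ) : (M h φ w).im = -(2 * h / π * Real.log ‖Z φ w‖) := by
  rw [M_eq, neg_mul, mul_assoc, Complex.neg_im, Complex.I_mul_im, Complex.re_ofReal_mul,
    Complex.log_re]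

lemma M_mem (hh : 0 < h) (hφ : φ ∈ Ioo 0 π) {w : ℂ} (hw : ‖w‖ < 1) :
    |(M h φ w).re| < h := by
  have h1 := Z_re hφ hw
  have h2 : |(Z φ w).arg| < π / 2 := by
    rw [Complex.abs_arg_lt_pi_div_two_iff]
    left; exact h1
  rw [M_re]
  have hpi := Real.pi_pos
  rw [abs_mul, abs_of_pos (by positivity : 0 < 2 * h / π)]
  calc 2 * h / π * |(Z φ w).arg| < 2 * h / π * (π / 2) := by
        apply mul_lt_mul_of_pos_left h2 (by positivity)
    _ = h := by field_simp

lemma Z_continuousAt {w : ℂ} (h1 : 1 - w ≠ 0) : ContinuousAt (Z φ) w := by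
  unfold Z
  refine ContinuousAt.sub (ContinuousAt.mul continuousAt_const ?_) continuousAt_const
  exact ContinuousAt.div (by fun_prop) (by fun_prop) h1

lemma M_continuousAt {w : ℂ} (h1 : 1 - w ≠ 0) (h2 : Z φ w ∈ Complex.slitPlane) :
    ContinuousAt (M h φ) w := by
  have : M h φ = fun w => -(Complex.I * (2 * h / π : ℝ)) * Complex.log (Z φ w) := by
    funext w; exact M_eq h φ w
  rw [this]
  exact ContinuousAt.mul continuousAt_const (ContinuousAt.clog (Z_continuousAt h1) h2)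

lemma M_analyticAt (hφ : φ ∈ Ioo 0 π) {w : ℂ} (hw : ‖w‖ < 1) : AnalyticAt ℂ (M h φ) w := by
  unfold M
  refine AnalyticAt.mul analyticAt_const (AnalyticAt.clog ?_ ?_)
  · exact AnalyticAt.sub (AnalyticAt.mul analyticAt_const
      (AnalyticAt.div (by fun_prop) (by fun_prop) (one_sub_ne hw))) analyticAt_const
  · left; exact Z_re hφ hw

lemma M_zero (hφ : φ ∈ Ioo 0 π) : M h φ 0 = ((2 * h * φ / π - h : ℝ) : ℂ) := by
  rw [M_eq]
  have h1 : Z φ 0 = Complex.exp ((φ - π / 2 : ℝ) * Complex.I) := by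
    unfold Z
    rw [Complex.exp_mul_I, ← Complex.ofReal_cos, ← Complex.ofReal_sin, Real.cos_sub_pi_div_two,
      Real.sin_sub_pi_div_two]
    push_cast
    ring
  rw [h1, Complex.log_exp (by simp; linarith [hφ.1, Real.pi_pos])
    (by simp; linarith [hφ.2, Real.pi_pos])]
  push_cast
  have hpi : (π : ℂ) ≠ 0 := by exact_mod_cast Real.pi_ne_zero
  field_simp
  linear_combination (-(h : ℂ)) * (φ * 2 - π) * Complex.I_sq

lemma cayley_circle {c s : ℝ} (hcs : c ^ 2 + s ^ 2 = 1) (hs : s ≠ 0) :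
    (1 + ((c : ℂ) + s * Complex.I) ^ 2) / (1 - ((c : ℂ) + s * Complex.I) ^ 2) =
      ((c / s : ℝ) : ℂ) * Complex.I := by
  have hs' : (s : ℂ) ≠ 0 := by exact_mod_cast hs
  have e0 : (c : ℂ) ^ 2 + (s : ℂ) ^ 2 = 1 := by exact_mod_cast hcs
  have hI := Complex.I_sq
  have h1 : (1 : ℂ) + ((c : ℂ) + s * Complex.I) ^ 2 = 2 * c * (c + s * Complex.I) := by
    linear_combination (-1 : ℂ) * e0 + (-(s:ℂ) ^ 2) * hI + ((s : ℂ)^2) * hI * 2
  have h2 : (1 : ℂ) - ((c : ℂ) + s * Complex.I) ^ 2 = -(2 * s * Complex.I) * (c + s * Complex.I) := by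
    linear_combination (-1 : ℂ) * e0 + ((s:ℂ) ^ 2) * hI
  have h3 : (c : ℂ) + s * Complex.I ≠ 0 := by
    intro h
    have h4 := congrArg Complex.im h
    simp at h4
    exact hs h4
  rw [h1, h2]
  push_cast
  have hI0 := Complex.I_ne_zero
  field_simp
  linear_combination (-(c : ℂ)) * hI

lemma circleMap_half (r θ : ℝ) : circleMap 0 r θ =
    r * ((Real.cos (θ / 2) : ℂ) + (Real.sin (θ / 2) : ℂ) * Complex.I) ^ 2 := by
  rw [circleMap, zero_add]
  congr 1
  have : (θ : ℂ) * Complex.I = ((2 : ℕ) : ℂ) * ((θ / 2 : ℝ) * Complex.I) := by push_cast; ring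
  rw [this, Complex.exp_nat_mul, Complex.exp_mul_I, ← Complex.ofReal_cos, ← Complex.ofReal_sin]

/-- the boundary value of the Cayley map -/
lemma cayley_bdry {θ : ℝ} (hs : Real.sin (θ / 2) ≠ 0) :
    (1 + circleMap 0 1 θ) / (1 - circleMap 0 1 θ) =
      ((Real.cos (θ / 2) / Real.sin (θ / 2) : ℝ) : ℂ) * Complex.I := by
  rw [circleMap_half, Complex.ofReal_one, one_mul]
  exact cayley_circle (Real.cos_sq_add_sin_sq _) hs

lemma one_sub_circle_ne {θ : ℝ} (hs : Real.sin (θ / 2) ≠ 0) : 1 - circleMap 0 1 θ ≠ 0 := by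
  intro h0
  have h1 := congrArg Complex.re h0
  rw [circleMap_half, Complex.ofReal_one, one_mul, sq, Complex.sub_re, Complex.mul_re] at h1
  simp only [Complex.one_re, Complex.add_re, Complex.add_im, Complex.ofReal_re,
    Complex.ofReal_im, Complex.re_ofReal_mul, Complex.im_ofReal_mul, Complex.I_re, Complex.I_im,
    Complex.zero_re, mul_zero, mul_one, add_zero, zero_add] at h1
  have h2 := Real.sin_sq_add_cos_sq (θ / 2)
  have h3 : 0 < Real.sin (θ / 2) ^ 2 := by positivity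
  nlinarith

/-- lower bounds for the distance to `1` from the disc -/
lemma one_sub_circle_ge {r : ℝ} (θ : ℝ) (hr : 0 ≤ r) (hr1 : r ≤ 1) :
    |Real.sin (θ / 2)| ≤ ‖1 - circleMap 0 r θ‖ ∧ ‖1 - circleMap 0 r θ‖ ≤ 2 := by
  have h0 : ‖circleMap 0 r θ‖ ≤ 1 := by rw [norm_circleMap_zero, abs_of_nonneg hr]; exact hr1
  have h1 : ‖1 - circleMap 0 r θ‖ ≤ 2 := by
    refine (norm_sub_le _ _).trans ?_
    rw [norm_one]; linarith
  refine ⟨?_, h1⟩
  have hre : (circleMap 0 r θ).re = r * Real.cos θ := by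
    rw [circleMap, zero_add, Complex.re_ofReal_mul, Complex.exp_ofReal_mul_I_re]
  have him : (circleMap 0 r θ).im = r * Real.sin θ := by
    rw [circleMap, zero_add, Complex.im_ofReal_mul, Complex.exp_ofReal_mul_I_im]
  have hcs := Real.sin_sq_add_cos_sq θ
  have hcs2 := Real.sin_sq_add_cos_sq (θ / 2)
  have hc2 : Real.cos θ = 1 - 2 * Real.sin (θ / 2) ^ 2 := by
    have := Real.cos_two_mul (θ / 2)
    rw [show 2 * (θ / 2) = θ by ring] at this
    linarith
  rw [← Real.sqrt_sq_eq_abs, ← Real.sqrt_sq (norm_nonneg (1 - circleMap 0 r θ))]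
  apply Real.sqrt_le_sqrt
  rw [← Complex.normSq_eq_norm_sq, Complex.normSq_apply]
  simp only [Complex.sub_re, Complex.sub_im, Complex.one_re, Complex.one_im, hre, him]
  have e1 : (1 - r * Real.cos θ) * (1 - r * Real.cos θ) + (0 - r * Real.sin θ) * (0 - r * Real.sin θ)
      = 1 - 2 * r * Real.cos θ + r ^ 2 := by
    linear_combination r ^ 2 * hcs
  rw [e1, hc2]
  have h5 : Real.sin (θ / 2) ^ 2 ≤ 1 := by nlinarith [sq_nonneg (Real.cos (θ / 2))]
  have h6 : 0 ≤ Real.sin (θ / 2) ^ 2 := sq_nonneg _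
  nlinarith [mul_nonneg (sub_nonneg.2 h5) (sq_nonneg (1 - r)), mul_nonneg h6 hr,
    mul_nonneg h6 (sq_nonneg r)]

lemma Z_norm {r θ : ℝ} (h1 : 1 - circleMap 0 r θ ≠ 0) :
    ‖Z φ (circleMap 0 r θ)‖ = ‖1 - circleMap 0 r (θ - 2 * φ)‖ / ‖1 - circleMap 0 r θ‖ := by
  have hp : 0 < ‖1 - circleMap 0 r θ‖ := norm_pos_iff.2 h1
  rw [eq_div_iff hp.ne', ← norm_mul]
  have hu : Complex.exp (φ * Complex.I) = (Real.cos φ : ℂ) + (Real.sin φ : ℂ) * Complex.I := by
    rw [Complex.exp_mul_I, ← Complex.ofReal_cos, ← Complex.ofReal_sin]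
  have hcs : (Real.cos φ : ℂ) ^ 2 + (Real.sin φ : ℂ) ^ 2 = 1 := by
    exact_mod_cast Real.cos_sq_add_sin_sq φ
  have hv : Complex.exp (-(φ * Complex.I)) = (Real.cos φ : ℂ) - (Real.sin φ : ℂ) * Complex.I := by
    have h3 : Complex.exp (-(φ * Complex.I)) * Complex.exp (φ * Complex.I) = 1 := by
      rw [← Complex.exp_add]; simp
    rw [hu] at h3
    have h4 : ((Real.cos φ : ℂ) - (Real.sin φ : ℂ) * Complex.I) *
        ((Real.cos φ : ℂ) + (Real.sin φ : ℂ) * Complex.I) = 1 := by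
      linear_combination hcs - (Real.sin φ : ℂ) ^ 2 * Complex.I_sq
    have h5 : ((Real.cos φ : ℂ) + (Real.sin φ : ℂ) * Complex.I) ≠ 0 := by
      intro h6
      rw [h6, mul_zero] at h4
      exact zero_ne_one h4
    exact mul_right_cancel₀ h5 (h3.trans h4.symm)
  have hw : circleMap 0 r (θ - 2 * φ) =
      circleMap 0 r θ * (Complex.exp (-(φ * Complex.I)) * Complex.exp (-(φ * Complex.I))) := by
    rw [circleMap, circleMap, zero_add, zero_add, mul_assoc, ← Complex.exp_add, ← Complex.exp_add]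
    congr 2
    push_cast
    ring
  have key : Z φ (circleMap 0 r θ) * (1 - circleMap 0 r θ) =
      -Complex.I * Complex.exp (φ * Complex.I) * (1 - circleMap 0 r (θ - 2 * φ)) := by
    rw [hw, hv, hu]
    unfold Z
    have e1 : ((Real.sin φ : ℂ) * ((1 + circleMap 0 r θ) / (1 - circleMap 0 r θ)) -
        (Real.cos φ : ℂ) * Complex.I) * (1 - circleMap 0 r θ) =
        (Real.sin φ : ℂ) * (1 + circleMap 0 r θ) -
          (Real.cos φ : ℂ) * Complex.I * (1 - circleMap 0 r θ) := by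
      field_simp
    rw [e1]
    set w := circleMap 0 r θ
    set s := (Real.sin φ : ℂ)
    set c := (Real.cos φ : ℂ)
    have hI := Complex.I_sq
    have e2 : (c + s * Complex.I) * (c - s * Complex.I) = 1 := by
      linear_combination hcs - s ^ 2 * hI
    have e3 : -Complex.I * (c + s * Complex.I) * (1 - w * ((c - s * Complex.I) * (c - s * Complex.I)))
        = -Complex.I * (c + s * Complex.I) + Complex.I * w * ((c + s * Complex.I) *
          (c - s * Complex.I)) * (c - s * Complex.I) := by ring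
    rw [e3, e2]
    linear_combination (s + s * w) * hI
  rw [key, norm_mul, norm_mul, norm_neg, Complex.norm_I, Complex.norm_exp_ofReal_mul_I]
  ring

lemma log_Z_bound {r θ : ℝ} (hr : 0 ≤ r) (hr1 : r ≤ 1) (hs : Real.sin (θ / 2) ≠ 0)
    (hs2 : Real.sin (θ / 2 - φ) ≠ 0) :
    |Real.log ‖Z φ (circleMap 0 r θ)‖| ≤
      Real.log 2 - Real.log |Real.sin (θ / 2)| - Real.log |Real.sin (θ / 2 - φ)| := by
  obtain ⟨a1, a2⟩ := one_sub_circle_ge θ hr hr1
  obtain ⟨b1, b2⟩ := one_sub_circle_ge (θ - 2 * φ) hr hr1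
  have e : (θ - 2 * φ) / 2 = θ / 2 - φ := by ring
  rw [e] at b1
  have ha : 0 < |Real.sin (θ / 2)| := abs_pos.2 hs
  have hb : 0 < |Real.sin (θ / 2 - φ)| := abs_pos.2 hs2
  have pa : 0 < ‖1 - circleMap 0 r θ‖ := lt_of_lt_of_le ha a1
  have pb : 0 < ‖1 - circleMap 0 r (θ - 2 * φ)‖ := lt_of_lt_of_le hb b1
  rw [Z_norm (norm_pos_iff.1 pa), Real.log_div pb.ne' pa.ne']
  have l1 := Real.log_le_log ha a1
  have l2 := Real.log_le_log pa a2
  have l3 := Real.log_le_log hb b1
  have l4 := Real.log_le_log pb b2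
  have l5 : Real.log |Real.sin (θ / 2)| ≤ 0 :=
    Real.log_nonpos ha.le (Real.abs_sin_le_one _)
  have l6 : Real.log |Real.sin (θ / 2 - φ)| ≤ 0 :=
    Real.log_nonpos hb.le (Real.abs_sin_le_one _)
  rw [abs_le]
  constructor <;> linarith

lemma sin_ang (hσ : σ = 1 ∨ σ = -1) (hφ : φ ∈ Ioo 0 π) (y : ℝ) :
    Real.sin (ang h φ σ y / 2) = 1 / √(1 + ((Real.cos φ + σ * Real.exp (-(π * y / (2 * h)))) /
      Real.sin φ) ^ 2) ∧
    |Real.sin (ang h φ σ y / 2 - φ)| = Real.exp (-(π * y / (2 * h))) /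
      √(1 + ((Real.cos φ + σ * Real.exp (-(π * y / (2 * h)))) / Real.sin φ) ^ 2) := by
  set x := (Real.cos φ + σ * Real.exp (-(π * y / (2 * h)))) / Real.sin φ with hx
  have h1 : ang h φ σ y / 2 = π / 2 - Real.arctan x := by
    unfold ang
    rw [hx]
    ring
  have hs := sin_pos' hφ
  constructor
  · rw [h1, Real.sin_pi_div_two_sub, Real.cos_arctan]
  · rw [h1, show π / 2 - Real.arctan x - φ = π / 2 - (φ + Real.arctan x) by ring,
      Real.sin_pi_div_two_sub, Real.cos_add, Real.cos_arctan, Real.sin_arctan]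
    have h2 : Real.sin φ * x = Real.cos φ + σ * Real.exp (-(π * y / (2 * h))) := by
      rw [hx]; field_simp
    have h3 : Real.cos φ * (1 / √(1 + x ^ 2)) - Real.sin φ * (x / √(1 + x ^ 2)) =
        -(σ * Real.exp (-(π * y / (2 * h)))) / √(1 + x ^ 2) := by
      rw [show Real.cos φ * (1 / √(1 + x ^ 2)) - Real.sin φ * (x / √(1 + x ^ 2)) =
        (Real.cos φ - Real.sin φ * x) / √(1 + x ^ 2) by ring, h2]
      congr 1
      ring
    rw [h3, abs_div, abs_neg, abs_mul, abs_of_pos (Real.exp_pos _), abs_of_nonneg (Real.sqrt_nonneg _)]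
    have : |σ| = 1 := by rcases hσ with rfl | rfl <;> simp
    rw [this, one_mul]

lemma sqrt_bound (hσ : σ = 1 ∨ σ = -1) (hφ : φ ∈ Ioo 0 π) (y : ℝ) :
    Real.log (√(1 + ((Real.cos φ + σ * Real.exp (-(π * y / (2 * h)))) / Real.sin φ) ^ 2)) ≤
      Real.log 3 - Real.log (Real.sin φ) + |π * y / (2 * h)| := by
  have hs := sin_pos' hφ
  have hs1 : Real.sin φ ≤ 1 := Real.sin_le_one φ
  have hc := abs_lt.1 (cos_abs_lt hφ)
  set u := π * y / (2 * h)
  have hE : Real.exp (-u) ≤ Real.exp |u| := Real.exp_le_exp.2 (neg_le_abs _)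
  have hE1 : 1 ≤ Real.exp |u| := Real.one_le_exp (abs_nonneg _)
  have hE0 := Real.exp_pos (-u)
  have hσ1 : |σ| = 1 := by rcases hσ with rfl | rfl <;> simp
  have h1 : |(Real.cos φ + σ * Real.exp (-u))| ≤ 1 + Real.exp |u| := by
    refine (abs_add_le _ _).trans ?_
    rw [abs_mul, hσ1, one_mul, abs_of_pos hE0]
    have := (cos_abs_lt hφ).le
    linarith
  have h2 : √(1 + ((Real.cos φ + σ * Real.exp (-u)) / Real.sin φ) ^ 2) ≤
      3 / Real.sin φ * Real.exp |u| := by
    rw [Real.sqrt_le_left (by positivity)]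
    have h3 : |(Real.cos φ + σ * Real.exp (-u)) / Real.sin φ| ≤ (1 + Real.exp |u|) / Real.sin φ := by
      rw [abs_div, abs_of_pos hs]
      gcongr
    have h4 : ((Real.cos φ + σ * Real.exp (-u)) / Real.sin φ) ^ 2 ≤
        ((1 + Real.exp |u|) / Real.sin φ) ^ 2 := by
      rw [← sq_abs]
      gcongr
    have h5 : 1 + ((1 + Real.exp |u|) / Real.sin φ) ^ 2 ≤ (3 / Real.sin φ * Real.exp |u|) ^ 2 := by
      have e1 : (1 + ((1 + Real.exp |u|) / Real.sin φ) ^ 2) * Real.sin φ ^ 2 =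
          Real.sin φ ^ 2 + (1 + Real.exp |u|) ^ 2 := by field_simp
      have e2 : (3 / Real.sin φ * Real.exp |u|) ^ 2 * Real.sin φ ^ 2 = 9 * Real.exp |u| ^ 2 := by
        field_simp
        ring
      have hs2 : 0 < Real.sin φ ^ 2 := by positivity
      refine le_of_mul_le_mul_right ?_ hs2
      rw [e1, e2]
      nlinarith
    linarith
  have h6 : 0 < √(1 + ((Real.cos φ + σ * Real.exp (-u)) / Real.sin φ) ^ 2) :=
    Real.sqrt_pos.2 (by positivity)
  have h7 := Real.log_le_log h6 h2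
  rw [Real.log_mul (by positivity) (by positivity), Real.log_div (by norm_num) hs.ne',
    Real.log_exp] at h7
  exact h7

lemma log_Z_ang (hσ : σ = 1 ∨ σ = -1) (hφ : φ ∈ Ioo 0 π) {r : ℝ} (hr : 0 ≤ r) (hr1 : r ≤ 1)
    (y : ℝ) : |Real.log ‖Z φ (circleMap 0 r (ang h φ σ y))‖| ≤
      Real.log 18 - 2 * Real.log (Real.sin φ) + 3 * |π * y / (2 * h)| := by
  obtain ⟨e1, e2⟩ := sin_ang (h := h) hσ hφ y
  have h6 : 0 < √(1 + ((Real.cos φ + σ * Real.exp (-(π * y / (2 * h)))) / Real.sin φ) ^ 2) :=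
    Real.sqrt_pos.2 (by positivity)
  have hE0 := Real.exp_pos (-(π * y / (2 * h)))
  have p1 : Real.sin (ang h φ σ y / 2) ≠ 0 := by rw [e1]; positivity
  have p2 : Real.sin (ang h φ σ y / 2 - φ) ≠ 0 := by
    rw [← abs_pos, e2]; positivity
  have h1 := log_Z_bound hr hr1 p1 p2
  have h2 := sqrt_bound (h := h) hσ hφ y
  rw [e2, e1, abs_of_pos (by positivity : 0 < 1 / √(1 + ((Real.cos φ + σ *
    Real.exp (-(π * y / (2 * h)))) / Real.sin φ) ^ 2)), Real.log_div (by norm_num) h6.ne',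
    Real.log_div hE0.ne' h6.ne', Real.log_one, Real.log_exp] at h1
  have h3 := neg_abs_le (π * y / (2 * h))
  have h4 := le_abs_self (π * y / (2 * h))
  have h5 : Real.log 18 = Real.log 2 + 2 * Real.log 3 := by
    rw [show (18:ℝ) = 2 * 3 ^ 2 by norm_num, Real.log_mul (by norm_num) (by norm_num), Real.log_pow]
    push_cast; ring
  linarith

lemma Z_ang (hσ : σ = 1 ∨ σ = -1) (hφ : φ ∈ Ioo 0 π) (y : ℝ) :
    Z φ (circleMap 0 1 (ang h φ σ y)) =
      ((Real.exp (-(π * y / (2 * h))) : ℝ) : ℂ) * (σ * Complex.I) := by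
  obtain ⟨e1, -⟩ := sin_ang (h := h) hσ hφ y
  have h6 : 0 < √(1 + ((Real.cos φ + σ * Real.exp (-(π * y / (2 * h)))) / Real.sin φ) ^ 2) :=
    Real.sqrt_pos.2 (by positivity)
  have p1 : Real.sin (ang h φ σ y / 2) ≠ 0 := by rw [e1]; positivity
  have hs := sin_pos' hφ
  unfold Z
  rw [cayley_bdry p1]
  have h1 : Real.cos (ang h φ σ y / 2) / Real.sin (ang h φ σ y / 2) =
      (Real.cos φ + σ * Real.exp (-(π * y / (2 * h)))) / Real.sin φ := by
    rw [cot_eq_tan]
    unfold ang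
    rw [show π / 2 - (π - 2 * Real.arctan ((Real.cos φ + σ * Real.exp (-(π * y / (2 * h)))) /
      Real.sin φ)) / 2 = Real.arctan ((Real.cos φ + σ * Real.exp (-(π * y / (2 * h)))) /
      Real.sin φ) by ring, Real.tan_arctan]
  rw [h1]
  have hs' : (Real.sin φ : ℂ) ≠ 0 := by exact_mod_cast hs.ne'
  push_cast at hs' ⊢
  field_simp
  ring

lemma M_ang (hh : 0 < h) (hσ : σ = 1 ∨ σ = -1) (hφ : φ ∈ Ioo 0 π) (y : ℝ) :
    M h φ (circleMap 0 1 (ang h φ σ y)) = ((σ * h : ℝ) : ℂ) + y * Complex.I := by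
  rw [M_eq, Z_ang hσ hφ]
  have hpi : (π : ℂ) ≠ 0 := by exact_mod_cast Real.pi_ne_zero
  have hh' : (h : ℂ) ≠ 0 := by exact_mod_cast hh.ne'
  rcases hσ with rfl | rfl
  · rw [Complex.ofReal_one, one_mul, Complex.log_ofReal_mul (Real.exp_pos _) Complex.I_ne_zero,
      Real.log_exp, Complex.log_I]
    push_cast
    field_simp
    linear_combination (-(h : ℂ)) * Complex.I_sq
  · rw [Complex.ofReal_neg, Complex.ofReal_one, neg_one_mul,
      Complex.log_ofReal_mul (Real.exp_pos _) (neg_ne_zero.2 Complex.I_ne_zero),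
      Real.log_exp, Complex.log_neg_I]
    push_cast
    field_simp
    linear_combination (h : ℂ) * Complex.I_sq

lemma continuousAt_M_ang (hσ : σ = 1 ∨ σ = -1) (hφ : φ ∈ Ioo 0 π) (y : ℝ) :
    ContinuousAt (M h φ) (circleMap 0 1 (ang h φ σ y)) := by
  obtain ⟨e1, -⟩ := sin_ang (h := h) hσ hφ y
  have h6 : 0 < √(1 + ((Real.cos φ + σ * Real.exp (-(π * y / (2 * h)))) / Real.sin φ) ^ 2) :=
    Real.sqrt_pos.2 (by positivity)
  have p1 : Real.sin (ang h φ σ y / 2) ≠ 0 := by rw [e1]; positivity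
  refine M_continuousAt (one_sub_circle_ne p1) ?_
  rw [Z_ang hσ hφ, Complex.mem_slitPlane_iff]
  right
  have := Real.exp_pos (-(π * y / (2 * h)))
  rw [Complex.im_ofReal_mul, Complex.im_ofReal_mul, Complex.I_im, mul_one]
  rcases hσ with rfl | rfl <;> simp

end

section
variable {F : ℂ → ℂ} {h φ σ A B : ℝ}

/-- the pulled back function -/
noncomputable def u (F : ℂ → ℂ) (h φ r θ : ℝ) : ℝ := log⁺ ‖F (M h φ (circleMap 0 r θ))‖

lemma norm_circle_lt {r : ℝ} (hr : 0 ≤ r) (hr1 : r < 1) (θ : ℝ) : ‖circleMap 0 r θ‖ < 1 := by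
  rw [norm_circleMap_zero, abs_of_nonneg hr]; exact hr1

lemma u_continuous (hh : 0 < h) (hφ : φ ∈ Ioo 0 π) (hF : ∀ z : ℂ, |z.re| ≤ h → AnalyticAt ℂ F z)
    {r : ℝ} (hr : 0 ≤ r) (hr1 : r < 1) : Continuous (u F h φ r) := by
  unfold u
  refine Real.continuous_posLog.comp (Continuous.norm ?_)
  rw [continuous_iff_continuousAt]
  intro θ
  have h1 := norm_circle_lt hr hr1 θ
  have h2 : ContinuousAt F (M h φ (circleMap 0 r θ)) := (hF _ (M_mem hh hφ h1).le).continuousAt
  have h3 : ContinuousAt (M h φ) (circleMap 0 r θ) := (M_analyticAt hφ h1).continuousAt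
  have h4 : ContinuousAt (circleMap 0 r) θ := (continuous_circleMap 0 r).continuousAt
  have h5 : ContinuousAt (fun θ => M h φ (circleMap 0 r θ)) θ :=
    ContinuousAt.comp (g := M h φ) h3 h4
  exact ContinuousAt.comp (g := F) (f := fun θ => M h φ (circleMap 0 r θ)) h2 h5

/-- step 1 : the disc inequality, rewritten with the kernels -/
lemma step1 (hh : 0 < h) (hφ : φ ∈ Ioo 0 π) (hF : ∀ z : ℂ, |z.re| ≤ h → AnalyticAt ℂ F z)
    {r : ℝ} (hr : 0 < r) (hr1 : r < 1) :
    log⁺ ‖F ((2 * h * φ / π - h : ℝ) : ℂ)‖ ≤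
      (∫ y, K h φ 1 y * u F h φ r (ang h φ 1 y)) +
        ∫ y, K h φ (-1) y * u F h φ r (ang h φ (-1) y) := by
  have h1 : AnalyticOnNhd ℂ (F ∘ M h φ) (Metric.closedBall 0 r) := by
    intro w hw
    have hw' : ‖w‖ < 1 := by
      rw [mem_closedBall_zero_iff] at hw
      exact lt_of_le_of_lt hw hr1
    exact AnalyticAt.comp (hF _ (M_mem hh hφ hw').le) (M_analyticAt hφ hw')
  have h2 := posLog_submean hr h1
  rw [Function.comp_apply, M_zero hφ] at h2
  refine h2.trans (le_of_eq ?_)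
  rw [Real.circleAverage]
  have hc : Continuous (u F h φ r) := u_continuous hh hφ hF hr.le hr1
  have e1 : (∫ θ in (0:ℝ)..2 * π, log⁺ ‖(F ∘ M h φ) (circleMap 0 r θ)‖) =
    ∫ θ in (0:ℝ)..2 * π, u F h φ r θ := rfl
  rw [e1]
  have e2 : ∫ θ in (0:ℝ)..2 * π, u F h φ r θ = (∫ θ in (0:ℝ)..2 * φ, u F h φ r θ) +
      ∫ θ in 2 * φ..2 * π, u F h φ r θ :=
    (intervalIntegral.integral_add_adjacent_intervals (hc.intervalIntegrable _ _)
      (hc.intervalIntegrable _ _)).symm
  have e3 : ∫ θ in (0:ℝ)..2 * φ, u F h φ r θ = ∫ θ in arc φ 1, u F h φ r θ := by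
    rw [intervalIntegral.integral_of_le (by linarith [hφ.1]), integral_Ioc_eq_integral_Ioo]
    simp only [arc, if_true]
  have e4 : ∫ θ in 2 * φ..2 * π, u F h φ r θ = ∫ θ in arc φ (-1), u F h φ r θ := by
    rw [intervalIntegral.integral_of_le (by linarith [hφ.2]), integral_Ioc_eq_integral_Ioo]
    have : ¬ ((-1 : ℝ) = 1) := by norm_num
    simp only [arc, if_neg this]
  rw [e2, e3, e4, integral_ang hh hφ (Or.inl rfl), integral_ang hh hφ (Or.inr rfl), smul_eq_mul,
    mul_add, ← integral_const_mul, ← integral_const_mul]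
  have := Real.pi_pos
  congr 1
  · refine integral_congr_ae (Eventually.of_forall fun y => ?_)
    simp only
    field_simp
  · refine integral_congr_ae (Eventually.of_forall fun y => ?_)
    simp only
    field_simp

lemma u_bound (hh : 0 < h) (hφ : φ ∈ Ioo 0 π) (hσ : σ = 1 ∨ σ = -1) (hB : 0 ≤ B)
    (hbd : ∀ z : ℂ, |z.re| ≤ h → log⁺ ‖F z‖ ≤ A + B * |z.im|)
    {r : ℝ} (hr : 0 ≤ r) (hr1 : r < 1) (y : ℝ) :
    u F h φ r (ang h φ σ y) ≤
      A + B * (2 * h / π * (Real.log 18 - 2 * Real.log (Real.sin φ) + 3 * |π * y / (2 * h)|)) := by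
  have h1 := norm_circle_lt hr hr1 (ang h φ σ y)
  refine (hbd _ (M_mem hh hφ h1).le).trans ?_
  have hpi := Real.pi_pos
  have h2 : |(M h φ (circleMap 0 r (ang h φ σ y))).im| ≤
      2 * h / π * (Real.log 18 - 2 * Real.log (Real.sin φ) + 3 * |π * y / (2 * h)|) := by
    rw [M_im, abs_neg, abs_mul, abs_of_pos (by positivity : 0 < 2 * h / π)]
    exact mul_le_mul_of_nonneg_left (log_Z_ang hσ hφ hr hr1.le y) (by positivity)
  gcongr

lemma tendsto_u (hh : 0 < h) (hφ : φ ∈ Ioo 0 π) (hσ : σ = 1 ∨ σ = -1)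
    (hF : ∀ z : ℂ, |z.re| ≤ h → AnalyticAt ℂ F z) (y : ℝ) :
    Tendsto (fun r => u F h φ r (ang h φ σ y)) (𝓝[<] 1)
      (𝓝 (log⁺ ‖F (((σ * h : ℝ) : ℂ) + y * Complex.I)‖)) := by
  have hr : ∀ θ, ContinuousAt (fun r => circleMap 0 r θ) 1 := by
    intro θ
    simp only [circleMap]
    fun_prop
  have ha : ContinuousAt F (M h φ (circleMap 0 1 (ang h φ σ y))) := by
    rw [M_ang hh hσ hφ]
    refine (hF _ ?_).continuousAt
    simp only [Complex.add_re, Complex.ofReal_re, Complex.re_ofReal_mul,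
      Complex.I_re, mul_zero, add_zero]
    rcases hσ with rfl | rfl
    · rw [one_mul, abs_of_pos hh]
    · rw [neg_one_mul, abs_neg, abs_of_pos hh]
  have hc : ContinuousAt (fun r => u F h φ r (ang h φ σ y)) 1 := by
    unfold u
    refine Real.continuous_posLog.continuousAt.comp (ContinuousAt.norm ?_)
    have h5 : ContinuousAt (fun r => M h φ (circleMap 0 r (ang h φ σ y))) 1 :=
      ContinuousAt.comp (g := M h φ) (continuousAt_M_ang hσ hφ y) (hr (ang h φ σ y))
    exact ContinuousAt.comp (g := F) (f := fun r => M h φ (circleMap 0 r (ang h φ σ y))) ha h5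
  have h1 := hc.tendsto
  have e : u F h φ 1 (ang h φ σ y) = log⁺ ‖F (((σ * h : ℝ) : ℂ) + y * Complex.I)‖ := by
    unfold u
    rw [M_ang hh hσ hφ]
  rw [e] at h1
  exact h1.mono_left nhdsWithin_le_nhds

end

section
variable {h φ σ : ℝ}

lemma integrable_sq_exp {a : ℝ} (ha : 0 < a) :
    Integrable (fun y : ℝ => (1 + y ^ 2) * Real.exp (-a * |y|)) := by
  have h1 : IntegrableOn (fun y : ℝ => (1 + y ^ 2) * Real.exp (-a * |y|)) (Ioi 0) := by
    have h2 : IntegrableOn (fun y : ℝ => y ^ (0 : ℝ) * Real.exp (-a * y ^ (1 : ℝ))) (Ioi 0) :=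
      integrableOn_rpow_mul_exp_neg_mul_rpow (by norm_num) (by norm_num) ha
    have h3 : IntegrableOn (fun y : ℝ => y ^ (2 : ℝ) * Real.exp (-a * y ^ (1 : ℝ))) (Ioi 0) :=
      integrableOn_rpow_mul_exp_neg_mul_rpow (by norm_num) (by norm_num) ha
    refine (h2.add h3).congr_fun (fun y hy => ?_) measurableSet_Ioi
    have hy' : (0 : ℝ) < y := hy
    simp only [Real.rpow_zero, Real.rpow_one, Pi.add_apply]
    rw [abs_of_pos hy', show (2 : ℝ) = ((2 : ℕ) : ℝ) by norm_num, Real.rpow_natCast]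
    ring
  have h4 : IntegrableOn (fun y : ℝ => (1 + y ^ 2) * Real.exp (-a * |y|)) (Ici 0) :=
    (integrableOn_Ici_iff_integrableOn_Ioi (by finiteness)).2 h1
  have h5 : IntegrableOn (fun y : ℝ => (1 + y ^ 2) * Real.exp (-a * |y|)) (Iic 0) := by
    have h7 : IntegrableOn (fun y : ℝ => (1 + y ^ 2) * Real.exp (-a * |y|)) (Ici (-0)) := by
      rwa [neg_zero]
    have := h7.comp_neg_Iic
    simpa using this
  have h6 := h5.union h1
  rw [Iic_union_Ioi, integrableOn_univ] at h6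
  exact h6

/-- exponential decay of the kernels -/
lemma K_le_exp (hh : 0 < h) (hφ : φ ∈ Ioo 0 π) (hσ : σ = 1 ∨ σ = -1) (y : ℝ) :
    K h φ σ y ≤ 1 / (2 * h * (1 - |Real.cos φ|)) * Real.exp (-(π / (2 * h)) * |y|) := by
  unfold K
  have hc := cos_abs_lt hφ
  have hpi := Real.pi_pos
  have e : π * y / (2 * h) = π / (2 * h) * y := by ring
  have h1 : Real.exp (π / (2 * h) * |y|) / 2 ≤ Real.cosh (π * y / (2 * h)) := by
    have e : Real.cosh (π * y / (2 * h)) = Real.cosh (π / (2 * h) * |y|) := by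
      rw [← Real.cosh_abs (π * y / (2 * h))]
      congr 1
      rw [abs_div, abs_mul, abs_of_pos Real.pi_pos, abs_of_pos (by linarith : 0 < 2 * h)]
      ring
    rw [e, Real.cosh_eq]
    have := Real.exp_pos (-(π / (2 * h) * |y|))
    linarith
  have h2 := Real.exp_pos (π / (2 * h) * |y|)
  have h3 := Real.one_le_cosh (π * y / (2 * h))
  have h4 : (1 - |Real.cos φ|) * Real.cosh (π * y / (2 * h)) ≤
      Real.cosh (π * y / (2 * h)) + σ * Real.cos φ := by
    have h5 : -|Real.cos φ| ≤ σ * Real.cos φ := by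
      rcases hσ with rfl | rfl
      · rw [one_mul]; exact neg_abs_le _
      · rw [neg_one_mul]; linarith [le_abs_self (Real.cos φ)]
    nlinarith [abs_nonneg (Real.cos φ)]
  have h6 : 0 < 1 - |Real.cos φ| := by linarith
  have h7 : (1 - |Real.cos φ|) * (Real.exp (π / (2 * h) * |y|) / 2) ≤
      Real.cosh (π * y / (2 * h)) + σ * Real.cos φ :=
    (mul_le_mul_of_nonneg_left h1 h6.le).trans h4
  have h8 := Real.sin_le_one φ
  have h9 := sin_pos' hφ
  rw [show -(π / (2 * h)) * |y| = -(π / (2 * h) * |y|) by ring, Real.exp_neg]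
  calc Real.sin φ / (4 * h * (Real.cosh (π * y / (2 * h)) + σ * Real.cos φ)) ≤
      1 / (4 * h * ((1 - |Real.cos φ|) * (Real.exp (π / (2 * h) * |y|) / 2))) := by
        gcongr
    _ = 1 / (2 * h * (1 - |Real.cos φ|)) * (Real.exp (π / (2 * h) * |y|))⁻¹ := by
        field_simp
        norm_num

lemma K_sq_integrable (hh : 0 < h) (hφ : φ ∈ Ioo 0 π) (hσ : σ = 1 ∨ σ = -1) :
    Integrable (fun y : ℝ => (1 + y ^ 2) * K h φ σ y) := by
  refine ((integrable_sq_exp (a := π / (2 * h)) (by positivity)).const_mul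
    (1 / (2 * h * (1 - |Real.cos φ|)))).mono'
    (by have := K_continuous hh hφ hσ; fun_prop) (Eventually.of_forall fun y => ?_)
  have h1 := K_pos hh hφ hσ y
  rw [Real.norm_of_nonneg (by positivity)]
  have h2 := K_le_exp hh hφ hσ y
  have h3 : 0 ≤ 1 + y ^ 2 := by positivity
  calc (1 + y ^ 2) * K h φ σ y ≤ (1 + y ^ 2) * (1 / (2 * h * (1 - |Real.cos φ|)) *
        Real.exp (-(π / (2 * h)) * |y|)) := mul_le_mul_of_nonneg_left h2 h3
    _ = _ := by ring

/-- integrability against the kernel -/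
lemma K_integrable_of_le (hh : 0 < h) (hφ : φ ∈ Ioo 0 π) (hσ : σ = 1 ∨ σ = -1) {f : ℝ → ℝ}
    (hf : AEStronglyMeasurable f volume) {A : ℝ} (hA : ∀ y, |f y| ≤ A * (1 + y ^ 2)) :
    Integrable (fun y => K h φ σ y * f y) := by
  refine ((K_sq_integrable hh hφ hσ).const_mul A).mono'
    ((K_continuous hh hφ hσ).aestronglyMeasurable.mul hf) (Eventually.of_forall fun y => ?_)
  have h1 := K_pos hh hφ hσ y
  rw [norm_mul, Real.norm_eq_abs (f y), Real.norm_of_nonneg h1.le]
  calc K h φ σ y * |f y| ≤ K h φ σ y * (A * (1 + y ^ 2)) := mul_le_mul_of_nonneg_left (hA y) h1.le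
    _ = _ := by ring

lemma K_integrable (hh : 0 < h) (hφ : φ ∈ Ioo 0 π) (hσ : σ = 1 ∨ σ = -1) :
    Integrable (K h φ σ) := by
  have := K_integrable_of_le hh hφ hσ (f := fun _ => (1 : ℝ)) (by fun_prop) (A := 1)
    (fun y => by rw [abs_one]; nlinarith [sq_nonneg y])
  simpa using this

lemma abs_le_sq (y : ℝ) : |y| ≤ 1 + y ^ 2 := by
  rcases abs_cases y with h | h <;> nlinarith [sq_nonneg (y - 1), sq_nonneg (y + 1)]

end

section
variable {F : ℂ → ℂ} {h φ σ A B : ℝ}

/-- the Poisson inequality for `log⁺ ‖F‖` -/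
theorem strip_posLog (hh : 0 < h) (hφ : φ ∈ Ioo 0 π)
    (hF : ∀ z : ℂ, |z.re| ≤ h → AnalyticAt ℂ F z) (hB : 0 ≤ B)
    (hbd : ∀ z : ℂ, |z.re| ≤ h → log⁺ ‖F z‖ ≤ A + B * |z.im|) :
    log⁺ ‖F ((2 * h * φ / π - h : ℝ) : ℂ)‖ ≤
      (∫ y : ℝ, K h φ 1 y * log⁺ ‖F ((h : ℂ) + y * Complex.I)‖) +
        ∫ y : ℝ, K h φ (-1) y * log⁺ ‖F (-(h : ℂ) + y * Complex.I)‖ := by
  have key : ∀ σ : ℝ, (σ = 1 ∨ σ = -1) →
      Tendsto (fun r => ∫ y, K h φ σ y * u F h φ r (ang h φ σ y)) (𝓝[<] 1)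
        (𝓝 (∫ y : ℝ, K h φ σ y * log⁺ ‖F (((σ * h : ℝ) : ℂ) + y * Complex.I)‖)) := by
    intro σ hσ
    set D : ℝ := Real.log 18 - 2 * Real.log (Real.sin φ) with hD
    have hlim := tendsto_integral_filter_of_dominated_convergence
      (μ := volume) (l := 𝓝[<] (1:ℝ))
      (F := fun r y => K h φ σ y * u F h φ r (ang h φ σ y))
      (f := fun y : ℝ => K h φ σ y * log⁺ ‖F (((σ * h : ℝ) : ℂ) + y * Complex.I)‖)
      (fun y => K h φ σ y * (A + B * (2 * h / π * (D + 3 * |π * y / (2 * h)|))))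
      ?_ ?_ ?_ ?_
    · exact hlim
    · filter_upwards [Ioo_mem_nhdsLT (show (0:ℝ) < 1 by norm_num)] with r hr
      refine (Continuous.mul (K_continuous hh hφ hσ) ?_).aestronglyMeasurable
      refine (u_continuous hh hφ hF hr.1.le hr.2).comp ?_
      rw [continuous_iff_continuousAt]
      intro y
      exact (ang_hasDerivAt hh hφ hσ y).continuousAt
    · filter_upwards [Ioo_mem_nhdsLT (show (0:ℝ) < 1 by norm_num)] with r hr
      refine Eventually.of_forall fun y => ?_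
      have h1 := K_pos hh hφ hσ y
      have h2 := u_bound hh hφ hσ hB hbd hr.1.le hr.2 y
      have h3 : 0 ≤ u F h φ r (ang h φ σ y) := posLog_nonneg
      rw [Real.norm_of_nonneg (by positivity)]
      exact mul_le_mul_of_nonneg_left h2 h1.le
    · have hpi := Real.pi_pos
      have e : (fun y => K h φ σ y * (A + B * (2 * h / π * (D + 3 * |π * y / (2 * h)|)))) =
          fun y => K h φ σ y * ((A + B * (2 * h / π * D)) + 3 * B * |y|) := by
        funext y
        rw [abs_div, abs_mul, abs_of_pos hpi, abs_of_pos (by linarith : 0 < 2 * h)]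
        field_simp
        ring
      rw [e]
      refine K_integrable_of_le hh hφ hσ (by fun_prop) (A := |A + B * (2 * h / π * D)| + 3 * B)
        (fun y => ?_)
      refine (abs_add_le _ _).trans ?_
      have h1 := abs_le_sq y
      rw [abs_mul, abs_of_nonneg (by positivity : 0 ≤ 3 * B), abs_abs]
      nlinarith [abs_nonneg (A + B * (2 * h / π * D)), sq_nonneg y,
        mul_nonneg (abs_nonneg (A + B * (2 * h / π * D))) (sq_nonneg y),
        mul_le_mul_of_nonneg_left h1 (by positivity : 0 ≤ 3 * B)]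
    · exact Eventually.of_forall fun y => (tendsto_u hh hφ hσ hF y).const_mul _
  have h1 := (key 1 (Or.inl rfl)).add (key (-1) (Or.inr rfl))
  refine ge_of_tendsto (f := fun r => (∫ y, K h φ 1 y * u F h φ r (ang h φ 1 y)) +
    ∫ y, K h φ (-1) y * u F h φ r (ang h φ (-1) y)) (x := 𝓝[<] (1:ℝ)) ?_ ?_
  · convert h1 using 3
    · simp only [one_mul]
    · simp only [neg_one_mul, Complex.ofReal_neg]
  · filter_upwards [Ioo_mem_nhdsLT (show (0:ℝ) < 1 by norm_num)] with r hr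
    exact step1 hh hφ hF hr.1 hr.2

/-- **The Poisson inequality in exponential form** -/
theorem strip_point (hh : 0 < h) (hφ : φ ∈ Ioo 0 π)
    (hF : ∀ z : ℂ, |z.re| ≤ h → AnalyticAt ℂ F z) (hB : 0 ≤ B)
    (hbd : ∀ z : ℂ, |z.re| ≤ h → log⁺ ‖F z‖ ≤ A + B * |z.im|)
    {up um : ℝ → ℝ} {N : ℝ} (hup : Integrable (fun y => K h φ 1 y * up y))
    (hum : Integrable (fun y => K h φ (-1) y * um y))
    (hNp : ∀ y, -N ≤ up y) (hNm : ∀ y, -N ≤ um y)
    (hFp : ∀ y : ℝ, ‖F ((h : ℂ) + y * Complex.I)‖ ≤ Real.exp (up y))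
    (hFm : ∀ y : ℝ, ‖F (-(h : ℂ) + y * Complex.I)‖ ≤ Real.exp (um y)) :
    ‖F ((2 * h * φ / π - h : ℝ) : ℂ)‖ ≤
      Real.exp ((∫ y : ℝ, K h φ 1 y * up y) + ∫ y : ℝ, K h φ (-1) y * um y) := by
  have hN0 : (0:ℝ) < Real.exp N := Real.exp_pos N
  have hns : ∀ z : ℂ, ‖(Real.exp N : ℂ) * z‖ = Real.exp N * ‖z‖ := by
    intro z
    rw [norm_mul, Complex.norm_real, Real.norm_of_nonneg hN0.le]
  have h1 := strip_posLog (F := fun z => (Real.exp N : ℂ) * F z) hh hφ
    (fun z hz => AnalyticAt.mul analyticAt_const (hF z hz)) hB (A := |N| + A)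
    (fun z hz => by
      rw [hns]
      refine posLog_mul.trans ?_
      have h2 := hbd z hz
      have h3 : log⁺ (Real.exp N) ≤ |N| := by
        rw [posLog_apply, Real.log_exp]
        exact max_le (abs_nonneg _) (le_abs_self _)
      linarith)
  have hsum : (∫ y, K h φ 1 y * N) + ∫ y, K h φ (-1) y * N = N := by
    rw [integral_mul_const, integral_mul_const, K_mass_one hh hφ, K_mass_neg_one hh hφ]
    ring
  have hside : ∀ (σ : ℝ) (v : ℝ → ℝ) (z : ℝ → ℂ), (σ = 1 ∨ σ = -1) → (∀ y, -N ≤ v y) →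
      Integrable (fun y => K h φ σ y * v y) → (∀ y, ‖F (z y)‖ ≤ Real.exp (v y)) →
      ∫ y : ℝ, K h φ σ y * log⁺ ‖(Real.exp N : ℂ) * F (z y)‖ ≤
        (∫ y, K h φ σ y * v y) + ∫ y, K h φ σ y * N := by
    intro σ v z hσ hv hi hz
    rw [← integral_add hi ((K_integrable hh hφ hσ).mul_const N)]
    refine integral_mono_of_nonneg (Eventually.of_forall fun y => ?_)
      (hi.add ((K_integrable hh hφ hσ).mul_const N)) (Eventually.of_forall fun y => ?_)
    · exact mul_nonneg (K_pos hh hφ hσ y).le posLog_nonneg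
    · simp only
      rw [← mul_add]
      refine mul_le_mul_of_nonneg_left ?_ (K_pos hh hφ hσ y).le
      have h3 : ‖(Real.exp N : ℂ) * F (z y)‖ ≤ Real.exp (v y + N) := by
        rw [hns, Real.exp_add, mul_comm]
        exact mul_le_mul_of_nonneg_right (hz y) hN0.le
      refine (posLog_le_posLog (norm_nonneg _) h3).trans ?_
      rw [posLog_apply, Real.log_exp]
      exact max_le (by linarith [hv y]) le_rfl
  have h2 := hside 1 up (fun y => (h : ℂ) + y * Complex.I) (Or.inl rfl) hNp hup hFp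
  have h3 := hside (-1) um (fun y => -(h : ℂ) + y * Complex.I) (Or.inr rfl) hNm hum hFm
  set p := ‖F ((2 * h * φ / π - h : ℝ) : ℂ)‖ with hp
  have h4 : log⁺ (Real.exp N * p) ≤ (∫ y : ℝ, K h φ 1 y * up y) + (∫ y : ℝ, K h φ (-1) y * um y) +
      N := by
    rw [hns] at h1
    linarith
  by_cases h0 : p = 0
  · rw [h0]; exact (Real.exp_pos _).le
  · have hp0 : 0 < p := lt_of_le_of_ne (norm_nonneg _) (Ne.symm h0)
    have h5 : Real.log (Real.exp N * p) ≤ log⁺ (Real.exp N * p) := by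
      rw [posLog_apply]; exact le_max_right _ _
    rw [Real.log_mul hN0.ne' hp0.ne', Real.log_exp] at h5
    rw [← Real.log_le_iff_le_exp hp0]
    linarith

end

end Pool.Agent.R402.Strip
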