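import Mathlib
import Pool.Agent.R402.Strip

/-!
# Moments of the exit kernel near the right edge of a strip
-/

set_option autoImplicit false

open MeasureTheory Filter Topology Set Real

namespace Pool.Agent.R402.Kern

open Pool.Agent.R402.Strip

/-- `sinh u ≥ u e^u / (1 + 2u)` squared, in terms of `cosh` -/
lemma cosh_sub_one_ge (x : ℝ) :
    x ^ 2 * Real.exp |x| / (2 * (1 + |x|) ^ 2) ≤ Real.cosh x - 1 := by
  rw [← Real.cosh_abs x, ← sq_abs x]
  set v := |x| with hv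
  have hv0 : 0 ≤ v := abs_nonneg x
  have h1 : Real.cosh v - 1 = 2 * Real.sinh (v / 2) ^ 2 := by
    have := Real.cosh_two_mul (v / 2)
    have h2 := Real.cosh_sq (v / 2)
    rw [show 2 * (v / 2) = v by ring] at this
    rw [this, h2]; ring
  rw [h1]
  have h2 : v / 2 * Real.exp (v / 2) / (1 + v) ≤ Real.sinh (v / 2) := by
    rw [Real.sinh_eq, div_le_iff₀ (by positivity)]
    have h3 : Real.exp (-(v / 2)) = Real.exp (v / 2) * Real.exp (-v) := by
      rw [← Real.exp_add]; congr 1; ring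
    rw [h3]
    have h4 : Real.exp (-v) ≤ 1 / (1 + v) := by
      rw [Real.exp_neg, ← one_div]
      apply one_div_le_one_div_of_le (by positivity)
      have := Real.add_one_le_exp v
      linarith
    have h5 := Real.exp_pos (v / 2)
    have h6 : Real.exp (v / 2) * Real.exp (-v) ≤ Real.exp (v / 2) * (1 / (1 + v)) :=
      mul_le_mul_of_nonneg_left h4 h5.le
    have h7 : Real.exp (v / 2) * (1 / (1 + v)) * (1 + v) = Real.exp (v / 2) := by
      field_simp
    nlinarith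
  have h3 : 0 ≤ v / 2 * Real.exp (v / 2) / (1 + v) := by positivity
  have h4 := pow_le_pow_left₀ h3 h2 2
  have h5 : (v / 2 * Real.exp (v / 2) / (1 + v)) ^ 2 * 2 =
      v ^ 2 * Real.exp v / (2 * (1 + v) ^ 2) := by
    have : Real.exp v = Real.exp (v / 2) ^ 2 := by
      rw [← Real.exp_nat_mul]; congr 1; push_cast; ring
    rw [this]
    field_simp
  rw [← h5]
  linarith

lemma one_sub_cos_ge {b : ℝ} (hb : 0 ≤ b) (hb1 : b ≤ π / 2) : b ^ 2 / 5 ≤ 1 - Real.cos b := by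
  have hpi := Real.pi_pos
  have h1 := Real.cos_le_one_sub_mul_cos_sq (x := b) (by rw [abs_of_nonneg hb]; linarith)
  have h2 : 2 / π ^ 2 ≥ 1 / 5 := by
    rw [ge_iff_le, div_le_div_iff₀ (by norm_num) (by positivity)]
    have := Real.pi_lt_d2
    nlinarith
  nlinarith [sq_nonneg b]

lemma cosh_sub_cos_ge {x b : ℝ} (hb : 0 ≤ b) (hb1 : b ≤ π / 2) :
    (x ^ 2 + b ^ 2) * Real.exp (3 * |x| / 4) / 3200 ≤ Real.cosh x - Real.cos b := by
  have h1 := cosh_sub_one_ge x
  have h2 := one_sub_cos_ge hb hb1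
  have hx := abs_nonneg x
  have h3 : (1 + |x|) ^ 2 ≤ 64 * Real.exp (|x| / 4) := by
    have h4 := Real.add_one_le_exp (|x| / 8)
    have h5 : Real.exp (|x| / 4) = Real.exp (|x| / 8) ^ 2 := by
      rw [← Real.exp_nat_mul]; congr 1; push_cast; ring
    rw [h5]
    nlinarith
  have h4 : Real.exp |x| = Real.exp (3 * |x| / 4) * Real.exp (|x| / 4) := by
    rw [← Real.exp_add]; congr 1; ring
  rcases le_or_gt b |x| with h | h
  · -- the large case
    have h5 : x ^ 2 + b ^ 2 ≤ 2 * x ^ 2 := by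
      have : b ^ 2 ≤ |x| ^ 2 := by gcongr
      rw [sq_abs] at this
      linarith
    have h6 : x ^ 2 * Real.exp (3 * |x| / 4) / 128 ≤ x ^ 2 * Real.exp |x| / (2 * (1 + |x|) ^ 2) := by
      rw [h4, div_le_div_iff₀ (by norm_num) (by positivity)]
      have h7 : 0 ≤ x ^ 2 * Real.exp (3 * |x| / 4) := by positivity
      nlinarith [mul_le_mul_of_nonneg_left h3 h7]
    have h8 := Real.exp_pos (3 * |x| / 4)
    have h9 := mul_le_mul_of_nonneg_right h5 h8.le
    have h10 : 0 ≤ x ^ 2 * Real.exp (3 * |x| / 4) := by positivity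
    nlinarith [Real.cos_le_one b]
  · have h5 : x ^ 2 + b ^ 2 ≤ 2 * b ^ 2 := by
      have : |x| ^ 2 ≤ b ^ 2 := by gcongr
      rw [sq_abs] at this
      linarith
    have hpi := Real.pi_lt_d2
    have h6 : Real.exp (3 * |x| / 4) ≤ 9 := by
      have h7 : Real.exp (3 * |x| / 4) ≤ Real.exp 2 := by
        apply Real.exp_le_exp.2
        nlinarith
      have h8 : Real.exp 2 = Real.exp 1 ^ 2 := by
        rw [← Real.exp_nat_mul]; norm_num
      have h9 := Real.exp_one_lt_d9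
      have h10 := Real.exp_pos 1
      nlinarith
    have h11 := Real.one_le_cosh x
    have h12 : (x ^ 2 + b ^ 2) * Real.exp (3 * |x| / 4) ≤ 2 * b ^ 2 * 9 := by
      gcongr
    nlinarith [sq_nonneg b]

/-- the sum of the two kernels -/
noncomputable def KK (h φ r : ℝ) : ℝ := K h φ 1 r + K h φ (-1) r

lemma KK_bound {h a : ℝ} (hh : 1 / 2 ≤ h) (hh1 : h ≤ 3 / 4) (ha : 0 < a) (ha1 : a ≤ 1 / 2)
    (r : ℝ) : KK h (π - π * a / (2 * h)) r ≤
      8000 * a / (r ^ 2 + a ^ 2) * Real.exp (-(3 / 2 * |r|)) := by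
  have hpi := Real.pi_pos
  have hpi2 := Real.pi_gt_d2
  have hpi3 := Real.pi_lt_d2
  have hh0 : 0 < h := by linarith
  set b := π * a / (2 * h) with hb
  have hb0 : 0 < b := by positivity
  have hb2 : 2 * a ≤ b := by
    rw [hb, le_div_iff₀ (by positivity)]
    nlinarith
  have hb3 : b ≤ 4 * a := by
    rw [hb, div_le_iff₀ (by positivity)]
    nlinarith
  have hb1 : b ≤ π / 2 := by
    rw [hb, div_le_iff₀ (by positivity)]
    nlinarith
  have hcosb : 0 ≤ Real.cos b := Real.cos_nonneg_of_neg_pi_div_two_le_of_le (by linarith) hb1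
  set x := π * r / (2 * h) with hx
  have hxr : 2 * |r| ≤ |x| := by
    rw [hx, abs_div, abs_mul, abs_of_pos hpi, abs_of_pos (by positivity : 0 < 2 * h),
      le_div_iff₀ (by positivity)]
    nlinarith [abs_nonneg r]
  have h1 := cosh_sub_cos_ge (x := x) hb0.le hb1
  have h2 : (r ^ 2 + a ^ 2) * Real.exp (3 / 2 * |r|) / 800 ≤ Real.cosh x - Real.cos b := by
    refine le_trans ?_ h1
    have h3 : 4 * (r ^ 2 + a ^ 2) ≤ x ^ 2 + b ^ 2 := by
      have e1 : (2 * |r|) ^ 2 ≤ |x| ^ 2 := by gcongr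
      have e2 : (2 * a) ^ 2 ≤ b ^ 2 := by gcongr
      rw [mul_pow, sq_abs, sq_abs] at e1
      nlinarith
    have h4 : Real.exp (3 / 2 * |r|) ≤ Real.exp (3 * |x| / 4) := by
      apply Real.exp_le_exp.2; linarith
    have h5 : 4 * (r ^ 2 + a ^ 2) * Real.exp (3 / 2 * |r|) ≤
        (x ^ 2 + b ^ 2) * Real.exp (3 * |x| / 4) := by gcongr
    linarith
  have hr0 : 0 < r ^ 2 + a ^ 2 := by positivity
  have hE := Real.exp_pos (3 / 2 * |r|)
  have hd : 0 < Real.cosh x - Real.cos b := lt_of_lt_of_le (by positivity) h2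
  have hsb : Real.sin b ≤ 4 * a := (Real.sin_le hb0.le).trans hb3
  have hsb0 : 0 ≤ Real.sin b := Real.sin_nonneg_of_nonneg_of_le_pi hb0.le (by linarith)
  unfold KK K
  rw [Real.sin_pi_sub, Real.cos_pi_sub]
  have e1 : Real.sin b / (4 * h * (Real.cosh x + 1 * -Real.cos b)) ≤
      4 * a / (2 * ((r ^ 2 + a ^ 2) * Real.exp (3 / 2 * |r|) / 800)) := by
    have : Real.cosh x + 1 * -Real.cos b = Real.cosh x - Real.cos b := by ring
    rw [this]
    apply div_le_div₀ (by positivity) hsb (by positivity)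
    apply mul_le_mul (by linarith) h2 (by positivity) (by positivity)
  have e2 : Real.sin b / (4 * h * (Real.cosh x + -1 * -Real.cos b)) ≤
      Real.sin b / (4 * h * (Real.cosh x + 1 * -Real.cos b)) := by
    apply div_le_div_of_nonneg_left hsb0
    · have : Real.cosh x + 1 * -Real.cos b = Real.cosh x - Real.cos b := by ring
      rw [this]; positivity
    · apply mul_le_mul_of_nonneg_left _ (by positivity)
      linarith
  have e3 : 4 * a / (2 * ((r ^ 2 + a ^ 2) * Real.exp (3 / 2 * |r|) / 800)) =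
      1600 * a / (r ^ 2 + a ^ 2) * Real.exp (-(3 / 2 * |r|)) := by
    rw [Real.exp_neg]
    field_simp
    norm_num
  have e4 : 0 ≤ a / (r ^ 2 + a ^ 2) * Real.exp (-(3 / 2 * |r|)) := by positivity
  have e5 : 8000 * a / (r ^ 2 + a ^ 2) * Real.exp (-(3 / 2 * |r|)) =
    8000 * (a / (r ^ 2 + a ^ 2) * Real.exp (-(3 / 2 * |r|))) := by ring
  have e6 : 1600 * a / (r ^ 2 + a ^ 2) * Real.exp (-(3 / 2 * |r|)) =
    1600 * (a / (r ^ 2 + a ^ 2) * Real.exp (-(3 / 2 * |r|))) := by ring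
  rw [e3, e6] at e1
  rw [e5]
  linarith

lemma rpow_split {x b η : ℝ} (hx : 0 < x) (hb : 0 < b) (hη : 0 ≤ η) (hη1 : η ≤ 1) :
    x / (x ^ 2 + b ^ 2) ≤ x ^ (η - 1) * b ^ (-η) := by
  rw [div_le_iff₀ (by positivity)]
  have h1 : x ^ (2 - η) * b ^ η ≤ x ^ 2 + b ^ 2 := by
    rcases le_total x b with h | h
    · have e : b ^ (2:ℝ) = b ^ (2 - η) * b ^ η := by
        rw [← Real.rpow_add hb]; congr 1; ring
      have e2 : x ^ (2 - η) ≤ b ^ (2 - η) := Real.rpow_le_rpow hx.le h (by linarith)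
      have e3 : 0 < b ^ η := Real.rpow_pos_of_pos hb _
      rw [Real.rpow_two] at e
      have e4 := mul_le_mul_of_nonneg_right e2 e3.le
      nlinarith [sq_nonneg x]
    · have e : x ^ (2:ℝ) = x ^ (2 - η) * x ^ η := by
        rw [← Real.rpow_add hx]; congr 1; ring
      have e2 : b ^ η ≤ x ^ η := Real.rpow_le_rpow hb.le h hη
      have e3 : 0 < x ^ (2 - η) := Real.rpow_pos_of_pos hx _
      rw [Real.rpow_two] at e
      have e4 := mul_le_mul_of_nonneg_left e2 e3.le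
      nlinarith [sq_nonneg b]
  have h2 : x ^ (η - 1) * b ^ (-η) * (x ^ (2 - η) * b ^ η) = x := by
    have e1 : x ^ (η - 1) * x ^ (2 - η) = x := by
      rw [← Real.rpow_add hx, show η - 1 + (2 - η) = 1 by ring, Real.rpow_one]
    have e2 : b ^ (-η) * b ^ η = 1 := by
      rw [← Real.rpow_add hb, neg_add_cancel, Real.rpow_zero]
    calc x ^ (η - 1) * b ^ (-η) * (x ^ (2 - η) * b ^ η) =
        (x ^ (η - 1) * x ^ (2 - η)) * (b ^ (-η) * b ^ η) := by ring
      _ = x := by rw [e1, e2, mul_one]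
  have h3 : 0 < x ^ (η - 1) * b ^ (-η) := by positivity
  calc x = x ^ (η - 1) * b ^ (-η) * (x ^ (2 - η) * b ^ η) := h2.symm
    _ ≤ x ^ (η - 1) * b ^ (-η) * (x ^ 2 + b ^ 2) := mul_le_mul_of_nonneg_left h1 h3.le

/-- the weight function used for the moments -/
lemma KK_weight {h a η : ℝ} (hh : 1 / 2 ≤ h) (hh1 : h ≤ 3 / 4) (ha : 0 < a) (ha1 : a ≤ 1 / 2)
    (hη : 0 < η) (hη1 : η ≤ 1) (r : ℝ) :
    KK h (π - π * a / (2 * h)) r * (|r| * Real.exp |r|) ≤
      8000 * (a * a ^ (-η)) * (|r| ^ (η - 1) * Real.exp (-(1 / 2 * |r|))) := by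
  rcases eq_or_ne r 0 with rfl | hr
  · rw [abs_zero, zero_mul, mul_zero]
    have := Real.rpow_nonneg (le_refl (0:ℝ)) (η - 1)
    positivity
  have hr' : 0 < |r| := abs_pos.2 hr
  have h1 := KK_bound hh hh1 ha ha1 r
  have h2 := rpow_split hr' ha hη.le hη1
  rw [sq_abs] at h2
  have h3 : Real.exp (-(3 / 2 * |r|)) * Real.exp |r| = Real.exp (-(1 / 2 * |r|)) := by
    rw [← Real.exp_add]; congr 1; ring
  calc KK h (π - π * a / (2 * h)) r * (|r| * Real.exp |r|) ≤
      8000 * a / (r ^ 2 + a ^ 2) * Real.exp (-(3 / 2 * |r|)) * (|r| * Real.exp |r|) := by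
        gcongr
    _ = 8000 * a * (|r| / (r ^ 2 + a ^ 2)) * (Real.exp (-(3 / 2 * |r|)) * Real.exp |r|) := by ring
    _ ≤ 8000 * a * (|r| ^ (η - 1) * a ^ (-η)) * (Real.exp (-(3 / 2 * |r|)) * Real.exp |r|) := by
        gcongr
    _ = _ := by rw [h3]; ring

lemma integral_weight {η : ℝ} (hη : 0 < η) (hη1 : η ≤ 1) :
    Integrable (fun r : ℝ => |r| ^ (η - 1) * Real.exp (-(1 / 2 * |r|))) ∧
    ∫ r : ℝ, |r| ^ (η - 1) * Real.exp (-(1 / 2 * |r|)) ≤ 4 / η := by
  have h1 : IntegrableOn (fun r : ℝ => r ^ (η - 1) * Real.exp (-(1 / 2) * r)) (Ioi 0) := by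
    have := integrableOn_rpow_mul_exp_neg_mul_rpow (p := 1) (s := η - 1) (b := 1 / 2)
      (by linarith) (by norm_num) (by norm_num)
    simpa using this
  have h2 : ∫ r in Ioi (0:ℝ), r ^ (η - 1) * Real.exp (-(1 / 2 * r)) =
      (1 / (1 / 2)) ^ η * Real.Gamma η := Real.integral_rpow_mul_exp_neg_mul_Ioi hη (by norm_num)
  have h3 : Real.Gamma η ≤ 1 / η := by
    have e1 := Real.Gamma_add_one hη.ne'
    have e2 : Real.Gamma (η + 1) ≤ 1 := by
      have hc := Real.convexOn_Gamma.2 (by simp : (1:ℝ) ∈ Ioi 0) (by simp : (2:ℝ) ∈ Ioi 0)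
        (by linarith : 0 ≤ 1 - η) hη.le (by ring)
      simp only [smul_eq_mul, Real.Gamma_one, Real.Gamma_two, mul_one] at hc
      rw [show (1 - η) + η * 2 = η + 1 by ring] at hc
      linarith
    rw [le_div_iff₀ hη]
    linarith
  have h4 : ((1:ℝ) / (1 / 2)) ^ η ≤ 2 := by
    calc ((1:ℝ) / (1 / 2)) ^ η ≤ (1 / (1 / 2)) ^ (1:ℝ) :=
          Real.rpow_le_rpow_of_exponent_le (by norm_num) hη1
      _ = 2 := by norm_num
  have h5 : ∫ r in Ioi (0:ℝ), r ^ (η - 1) * Real.exp (-(1 / 2 * r)) ≤ 2 / η := by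
    rw [h2]
    have : 0 < Real.Gamma η := Real.Gamma_pos_of_pos hη
    calc ((1:ℝ) / (1 / 2)) ^ η * Real.Gamma η ≤ 2 * (1 / η) := by gcongr
      _ = 2 / η := by ring
  have h6 : IntegrableOn (fun r : ℝ => |r| ^ (η - 1) * Real.exp (-(1 / 2 * |r|))) (Ioi 0) := by
    refine h1.congr_fun (fun r hr => ?_) measurableSet_Ioi
    have hr' : (0:ℝ) < r := hr
    simp only
    rw [abs_of_pos hr', neg_mul]
  have h7 : Integrable (fun r : ℝ => |r| ^ (η - 1) * Real.exp (-(1 / 2 * |r|))) := by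
    have h8 : IntegrableOn (fun r : ℝ => |r| ^ (η - 1) * Real.exp (-(1 / 2 * |r|))) (Ici 0) :=
      (integrableOn_Ici_iff_integrableOn_Ioi (by finiteness)).2 h6
    have h9 : IntegrableOn (fun r : ℝ => |r| ^ (η - 1) * Real.exp (-(1 / 2 * |r|))) (Iic 0) := by
      have h10 : IntegrableOn (fun r : ℝ => |r| ^ (η - 1) * Real.exp (-(1 / 2 * |r|))) (Ici (-0)) := by
        rwa [neg_zero]
      have := h10.comp_neg_Iic
      simpa using this
    have h11 := h9.union h6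
    rw [Iic_union_Ioi, integrableOn_univ] at h11
    exact h11
  refine ⟨h7, ?_⟩
  have h8 := integral_comp_abs (f := fun r : ℝ => r ^ (η - 1) * Real.exp (-(1 / 2 * r)))
  rw [h8]
  have : 4 / η = 2 * (2 / η) := by ring
  rw [this]
  linarith

lemma KK_nonneg {h φ : ℝ} (hh : 0 < h) (hφ : φ ∈ Ioo 0 π) (r : ℝ) : 0 ≤ KK h φ r :=
  add_nonneg (K_pos hh hφ (Or.inl rfl) r).le (K_pos hh hφ (Or.inr rfl) r).le

lemma KK_continuous {h φ : ℝ} (hh : 0 < h) (hφ : φ ∈ Ioo 0 π) : Continuous (KK h φ) :=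
  (K_continuous hh hφ (Or.inl rfl)).add (K_continuous hh hφ (Or.inr rfl))

/-- the weighted first moment -/
theorem KK_moment {h a η : ℝ} (hh : 1 / 2 ≤ h) (hh1 : h ≤ 3 / 4) (ha : 0 < a) (ha1 : a ≤ 1 / 2)
    (hη : 0 < η) (hη1 : η ≤ 1) :
    Integrable (fun r : ℝ => KK h (π - π * a / (2 * h)) r * (|r| * Real.exp |r|)) ∧
    ∫ r : ℝ, KK h (π - π * a / (2 * h)) r * (|r| * Real.exp |r|) ≤
      32000 * (a * a ^ (-η)) / η := by
  obtain ⟨h1, h2⟩ := integral_weight hη hη1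
  have hpi := Real.pi_pos
  have hh0 : 0 < h := by linarith
  have hφ : π - π * a / (2 * h) ∈ Ioo 0 π := by
    have e1 : 0 < π * a / (2 * h) := by positivity
    have e2 : π * a / (2 * h) < π := by
      rw [div_lt_iff₀ (by positivity)]
      nlinarith
    constructor <;> linarith
  have h3 : Integrable (fun r : ℝ => KK h (π - π * a / (2 * h)) r * (|r| * Real.exp |r|)) := by
    refine (h1.const_mul (8000 * (a * a ^ (-η)))).mono' ?_ (Eventually.of_forall fun r => ?_)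
    · exact ((KK_continuous hh0 hφ).mul (by fun_prop)).aestronglyMeasurable
    · have := KK_nonneg hh0 hφ r
      rw [Real.norm_of_nonneg (by positivity)]
      exact KK_weight hh hh1 ha ha1 hη hη1 r
  refine ⟨h3, ?_⟩
  calc ∫ r : ℝ, KK h (π - π * a / (2 * h)) r * (|r| * Real.exp |r|) ≤
      ∫ r : ℝ, 8000 * (a * a ^ (-η)) * (|r| ^ (η - 1) * Real.exp (-(1 / 2 * |r|))) :=
        integral_mono h3 (h1.const_mul _) (fun r => KK_weight hh hh1 ha ha1 hη hη1 r)
    _ = 8000 * (a * a ^ (-η)) * ∫ r : ℝ, |r| ^ (η - 1) * Real.exp (-(1 / 2 * |r|)) :=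
        integral_const_mul _ _
    _ ≤ 8000 * (a * a ^ (-η)) * (4 / η) := by
        have : 0 ≤ a ^ (-η) := Real.rpow_nonneg ha.le _
        gcongr
    _ = _ := by ring

end Pool.Agent.R402.Kern
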