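import Mathlib
import Pool.Agent.R402.Kern

/-!
# Extending a bound from the line `Re s = 1 + κ` to the line `Re s = 1 + κ - a`
-/

set_option autoImplicit false

open MeasureTheory Filter Topology Set Real

namespace Pool.Agent.R402.Edge

open Pool.Agent.R402.Strip Pool.Agent.R402.Kern

lemma exp_sub_one_le {δ : ℂ} {V lam : ℝ} (hlam : 0 < lam) (h : ‖δ‖ ≤ V) :
    ‖Complex.exp δ - 1‖ ≤ Real.exp (Real.log lam - 1 + (1 / lam + 1) * V) := by
  have h1 := Complex.norm_exp_sub_sum_le_norm_mul_exp δ 1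
  simp only [Finset.range_one, Finset.sum_singleton, pow_zero, Nat.factorial_zero, Nat.cast_one,
    div_one, pow_one] at h1
  have hV : 0 ≤ V := (norm_nonneg δ).trans h
  have h2 : ‖δ‖ * Real.exp ‖δ‖ ≤ V * Real.exp V := by gcongr
  have h3 : V ≤ lam * Real.exp (V / lam - 1) := by
    have := Real.add_one_le_exp (V / lam - 1)
    have h4 : V / lam ≤ Real.exp (V / lam - 1) := by linarith
    rw [div_le_iff₀ hlam] at h4
    linarith
  have h4 : Real.exp (Real.log lam - 1 + (1 / lam + 1) * V) =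
      lam * Real.exp (V / lam - 1) * Real.exp V := by
    rw [show Real.log lam - 1 + (1 / lam + 1) * V = Real.log lam + (V / lam - 1) + V by ring,
      Real.exp_add, Real.exp_add, Real.exp_log hlam]
  rw [h4]
  have h5 := Real.exp_pos V
  calc ‖Complex.exp δ - 1‖ ≤ V * Real.exp V := h1.trans h2
    _ ≤ _ := mul_le_mul_of_nonneg_right h3 h5.le

theorem edge_point {F : ℂ → ℂ} {κ a lam L0 L1 A B M : ℝ} {V : ℝ → ℝ}
    (hκ : 0 < κ) (hκ1 : κ ≤ 1 / 4) (ha : 0 < a) (ha1 : a ≤ 1 / 2) (hlam : 0 < lam)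
    (hlam1 : lam ≤ 1) (hF : Differentiable ℂ F) (hB : 0 ≤ B)
    (hbd : ∀ z : ℂ, -κ ≤ z.re → z.re ≤ 1 + κ → log⁺ ‖F z‖ ≤ A + B * |z.im|)
    (hV : Continuous V) (hV0 : ∀ r, 0 ≤ V r) (hV1 : ∀ r, V r ≤ M * (1 + r ^ 2))
    (hF0 : F (1 + κ) ≠ 0)
    (hright : ∀ r : ℝ, ∃ δ : ℂ, ‖δ‖ ≤ V r ∧
      F (1 + κ + r * Complex.I) = F (1 + κ) * Complex.exp δ)
    (hL0 : 0 ≤ L0) (hL1 : 0 ≤ L1)
    (hleft : ∀ r : ℝ, ‖F (-κ + r * Complex.I)‖ ≤
      Real.exp (L0 + L1 * Real.log (1 + |r|)) * ‖F (1 + κ + r * Complex.I)‖) :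
    ‖F (1 + κ - a)‖ ≤ ‖F (1 + κ)‖ * Real.exp (Real.log 2 +
      max 0 ((1 - a / (1 + 2 * κ)) * (Real.log lam - 1) + a / (1 + 2 * κ) * (Real.log 2 + L0)) +
      L1 * (∫ r : ℝ, KK (1 / 2 + κ) (π - π * a / (2 * (1 / 2 + κ))) r * (|r| * Real.exp |r|)) +
      (1 / lam + 1) * ∫ r : ℝ, KK (1 / 2 + κ) (π - π * a / (2 * (1 / 2 + κ))) r * V r) := by
  have hpi := Real.pi_pos
  set h : ℝ := 1 / 2 + κ with hh
  have hh0 : 0 < h := by linarith
  set φ : ℝ := π - π * a / (2 * h) with hφdef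
  have hφ : φ ∈ Ioo 0 π := by
    have e1 : 0 < π * a / (2 * h) := by positivity
    have e2 : π * a / (2 * h) < π := by
      rw [div_lt_iff₀ (by positivity)]
      nlinarith
    rw [hφdef]
    constructor <;> linarith
  have hφπ : φ / π = 1 - a / (1 + 2 * κ) := by
    rw [hφdef, hh]
    field_simp
  have hpt : 2 * h * φ / π - h = 1 / 2 + κ - a := by
    rw [hφdef, ← hh]
    field_simp
    ring
  have hnF : 0 < ‖F (1 + κ)‖ := norm_pos_iff.2 hF0
  set H : ℂ → ℂ := fun z => F (z + 1 / 2) / F (1 + κ) - 1 with hH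
  have hHan : ∀ z : ℂ, |z.re| ≤ h → AnalyticAt ℂ H z := by
    intro z _
    have hd : Differentiable ℂ H := by
      have : Differentiable ℂ (fun z : ℂ => F (z + 1 / 2)) := hF.comp (by fun_prop)
      exact (this.div_const _).sub_const _
    exact hd.analyticAt z
  have hHbd : ∀ z : ℂ, |z.re| ≤ h → log⁺ ‖H z‖ ≤
      (Real.log 2 + (A + log⁺ (‖F (1 + κ)‖⁻¹))) + B * |z.im| := by
    intro z hz
    obtain ⟨z1, z2⟩ := abs_le.1 hz
    have h1 : ‖H z‖ ≤ ‖F (z + 1 / 2)‖ * ‖F (1 + κ)‖⁻¹ + 1 := by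
      simp only [hH]
      refine (norm_sub_le _ _).trans ?_
      rw [norm_div, norm_one, div_eq_mul_inv]
    refine (posLog_le_posLog (norm_nonneg _) h1).trans ?_
    refine posLog_add.trans ?_
    have h2 : log⁺ (‖F (z + 1 / 2)‖ * ‖F (1 + κ)‖⁻¹) ≤ log⁺ ‖F (z + 1 / 2)‖ +
      log⁺ (‖F (1 + κ)‖⁻¹) := posLog_mul
    have h3 := hbd (z + 1 / 2) (by simp; linarith) (by simp; linarith)
    have h4 : (z + 1 / 2).im = z.im := by simp
    rw [h4] at h3
    have h5 : log⁺ (1:ℝ) = 0 := by simp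
    rw [h5]
    linarith
  set up : ℝ → ℝ := fun r => Real.log lam - 1 + (1 / lam + 1) * V r with hup
  set um : ℝ → ℝ := fun r => Real.log 2 + L0 + L1 * Real.log (1 + |r|) + V r with hum
  have hloglam : Real.log lam ≤ 0 := Real.log_nonpos hlam.le hlam1
  have hlog2 : 0 < Real.log 2 := Real.log_pos (by norm_num)
  have hKp := K_integrable hh0 hφ (Or.inl rfl : (1:ℝ) = 1 ∨ (1:ℝ) = -1)
  have hKm := K_integrable hh0 hφ (Or.inr rfl : (-1:ℝ) = 1 ∨ (-1:ℝ) = -1)
  have hVabs : ∀ y, |V y| ≤ M * (1 + y ^ 2) := fun y => by rw [abs_of_nonneg (hV0 y)]; exact hV1 y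
  have hKVp := K_integrable_of_le hh0 hφ (Or.inl rfl : (1:ℝ) = 1 ∨ (1:ℝ) = -1)
    hV.aestronglyMeasurable hVabs
  have hKVm := K_integrable_of_le hh0 hφ (Or.inr rfl : (-1:ℝ) = 1 ∨ (-1:ℝ) = -1)
    hV.aestronglyMeasurable hVabs
  have hlogc : Continuous (fun r : ℝ => Real.log (1 + |r|)) := by
    refine Continuous.log (by fun_prop) ?_
    intro r
    positivity
  have hlogle : ∀ r : ℝ, Real.log (1 + |r|) ≤ |r| := by
    intro r
    have := Real.log_le_sub_one_of_pos (by positivity : 0 < 1 + |r|)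
    linarith
  have hlog0 : ∀ r : ℝ, 0 ≤ Real.log (1 + |r|) := by
    intro r
    exact Real.log_nonneg (by linarith [abs_nonneg r])
  have hKLm := K_integrable_of_le hh0 hφ (Or.inr rfl : (-1:ℝ) = 1 ∨ (-1:ℝ) = -1)
    hlogc.aestronglyMeasurable (A := 1) (fun y => by
      rw [abs_of_nonneg (hlog0 y), one_mul]
      exact (hlogle y).trans (abs_le_sq y))
  have hupi : Integrable (fun y => K h φ 1 y * up y) := by
    have := (hKp.mul_const (Real.log lam - 1)).add (hKVp.const_mul (1 / lam + 1))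
    refine this.congr (Eventually.of_forall fun y => ?_)
    simp only [hup, Pi.add_apply]
    ring
  have humi : Integrable (fun y => K h φ (-1) y * um y) := by
    have := ((hKm.mul_const (Real.log 2 + L0)).add (hKLm.const_mul L1)).add hKVm
    refine this.congr (Eventually.of_forall fun y => ?_)
    simp only [hum, Pi.add_apply]
    ring
  have hlam2 : 0 ≤ 1 / lam + 1 := by positivity
  have key := strip_point (F := H) (N := 1 - Real.log lam) hh0 hφ hHan hB hHbd hupi humi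
    (fun y => by
      simp only [hup]
      have := mul_nonneg hlam2 (hV0 y)
      linarith)
    (fun y => by
      simp only [hum]
      have := mul_nonneg hL1 (hlog0 y)
      linarith [hV0 y])
    (fun y => by
      obtain ⟨δ, h1, h2⟩ := hright y
      have h3 : H ((h : ℂ) + y * Complex.I) = Complex.exp δ - 1 := by
        simp only [hH]
        have : ((h : ℂ) + y * Complex.I) + 1 / 2 = 1 + κ + y * Complex.I := by
          rw [hh]; push_cast; ring
        rw [this, h2, mul_div_cancel_left₀ _ hF0]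
      rw [h3]
      exact exp_sub_one_le hlam h1)
    (fun y => by
      obtain ⟨δ, h1, h2⟩ := hright y
      have h4 := hleft y
      have h3 : ‖H (-(h : ℂ) + y * Complex.I)‖ ≤ ‖F (-κ + y * Complex.I)‖ / ‖F (1 + κ)‖ + 1 := by
        simp only [hH]
        have : (-(h : ℂ) + y * Complex.I) + 1 / 2 = -κ + y * Complex.I := by
          rw [hh]; push_cast; ring
        rw [this]
        refine (norm_sub_le _ _).trans ?_
        rw [norm_div, norm_one]
      refine h3.trans ?_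
      have h5 : ‖F (1 + κ + y * Complex.I)‖ ≤ ‖F (1 + κ)‖ * Real.exp (V y) := by
        rw [h2, norm_mul]
        refine mul_le_mul_of_nonneg_left ?_ hnF.le
        rw [Complex.norm_exp]
        exact Real.exp_le_exp.2 ((Complex.re_le_norm δ).trans h1)
      have h6 : ‖F (-κ + y * Complex.I)‖ / ‖F (1 + κ)‖ ≤
          Real.exp (L0 + L1 * Real.log (1 + |y|)) * Real.exp (V y) := by
        rw [div_le_iff₀ hnF]
        have h7 := Real.exp_pos (L0 + L1 * Real.log (1 + |y|))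
        calc ‖F (-κ + y * Complex.I)‖ ≤ Real.exp (L0 + L1 * Real.log (1 + |y|)) *
              ‖F (1 + κ + y * Complex.I)‖ := h4
          _ ≤ Real.exp (L0 + L1 * Real.log (1 + |y|)) * (‖F (1 + κ)‖ * Real.exp (V y)) :=
              mul_le_mul_of_nonneg_left h5 h7.le
          _ = _ := by ring
      rw [← Real.exp_add] at h6
      have h8 : 1 ≤ Real.exp (L0 + L1 * Real.log (1 + |y|) + V y) := by
        apply Real.one_le_exp
        have := mul_nonneg hL1 (hlog0 y)
        linarith [hV0 y]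
      have h9 : Real.exp (um y) = 2 * Real.exp (L0 + L1 * Real.log (1 + |y|) + V y) := by
        simp only [hum]
        rw [show Real.log 2 + L0 + L1 * Real.log (1 + |y|) + V y =
          Real.log 2 + (L0 + L1 * Real.log (1 + |y|) + V y) by ring, Real.exp_add,
          Real.exp_log (by norm_num)]
      rw [h9]
      linarith)
  have hI1 : ∫ y : ℝ, K h φ 1 y * up y = (1 - a / (1 + 2 * κ)) * (Real.log lam - 1) +
      (1 / lam + 1) * ∫ y : ℝ, K h φ 1 y * V y := by
    have e : (fun y => K h φ 1 y * up y) = fun y => K h φ 1 y * (Real.log lam - 1) +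
        (1 / lam + 1) * (K h φ 1 y * V y) := by
      funext y; simp only [hup]; ring
    rw [e, integral_add (hKp.mul_const _) (hKVp.const_mul _), integral_mul_const,
      integral_const_mul, K_mass_one hh0 hφ, hφπ]
  have hI2 : ∫ y : ℝ, K h φ (-1) y * um y = a / (1 + 2 * κ) * (Real.log 2 + L0) +
      L1 * (∫ y : ℝ, K h φ (-1) y * Real.log (1 + |y|)) + ∫ y : ℝ, K h φ (-1) y * V y := by
    have e : (fun y => K h φ (-1) y * um y) = fun y => (K h φ (-1) y * (Real.log 2 + L0) +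
        L1 * (K h φ (-1) y * Real.log (1 + |y|))) + K h φ (-1) y * V y := by
      funext y; simp only [hum]; ring
    have i1 : Integrable (fun y => K h φ (-1) y * (Real.log 2 + L0) +
        L1 * (K h φ (-1) y * Real.log (1 + |y|))) := (hKm.mul_const _).add (hKLm.const_mul _)
    rw [e, integral_add i1 hKVm,
      integral_add (hKm.mul_const _) (hKLm.const_mul _), integral_mul_const,
      integral_const_mul, K_mass_neg_one hh0 hφ, hφπ]
    ring
  obtain ⟨hJ1, -⟩ := KK_moment (h := h) (a := a) (η := 1) (by linarith) (by linarith) ha ha1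
    one_pos le_rfl
  rw [← hφdef] at hJ1
  have hI3 : ∫ y : ℝ, K h φ (-1) y * Real.log (1 + |y|) ≤
      ∫ r : ℝ, KK h φ r * (|r| * Real.exp |r|) := by
    refine integral_mono hKLm hJ1 fun y => ?_
    have k1 := (K_pos hh0 hφ (Or.inl rfl : (1:ℝ) = 1 ∨ (1:ℝ) = -1) y).le
    have k2 := (K_pos hh0 hφ (Or.inr rfl : (-1:ℝ) = 1 ∨ (-1:ℝ) = -1) y).le
    have e1 : K h φ (-1) y ≤ KK h φ y := by unfold KK; linarith
    have e2 : Real.log (1 + |y|) ≤ |y| * Real.exp |y| := by
      refine (hlogle y).trans ?_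
      have := Real.one_le_exp (abs_nonneg y)
      nlinarith [abs_nonneg y]
    exact mul_le_mul e1 e2 (hlog0 y) (k2.trans e1)
  have hI4 : ∫ y : ℝ, KK h φ y * V y = (∫ y : ℝ, K h φ 1 y * V y) + ∫ y : ℝ, K h φ (-1) y * V y := by
    rw [← integral_add hKVp hKVm]
    refine integral_congr_ae (Eventually.of_forall fun y => ?_)
    simp only [KK]
    ring
  have hI5 : 0 ≤ ∫ y : ℝ, K h φ (-1) y * V y := integral_nonneg fun y =>
    mul_nonneg (K_pos hh0 hφ (Or.inr rfl : (-1:ℝ) = 1 ∨ (-1:ℝ) = -1) y).le (hV0 y)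
  have hI6 : 0 ≤ ∫ y : ℝ, K h φ 1 y * V y := integral_nonneg fun y =>
    mul_nonneg (K_pos hh0 hφ (Or.inl rfl : (1:ℝ) = 1 ∨ (1:ℝ) = -1) y).le (hV0 y)
  have hI7 : 0 ≤ ∫ r : ℝ, KK h φ r * (|r| * Real.exp |r|) := integral_nonneg fun y =>
    mul_nonneg (KK_nonneg hh0 hφ y) (by positivity)
  set T : ℝ := max 0 ((1 - a / (1 + 2 * κ)) * (Real.log lam - 1) +
    a / (1 + 2 * κ) * (Real.log 2 + L0)) + L1 * (∫ r : ℝ, KK h φ r * (|r| * Real.exp |r|)) +
    (1 / lam + 1) * ∫ r : ℝ, KK h φ r * V r with hT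
  have hT0 : 0 ≤ T := by
    have := le_max_left 0 ((1 - a / (1 + 2 * κ)) * (Real.log lam - 1) +
      a / (1 + 2 * κ) * (Real.log 2 + L0))
    rw [hT, hI4]
    positivity
  have hsum : (∫ y : ℝ, K h φ 1 y * up y) + ∫ y : ℝ, K h φ (-1) y * um y ≤ T := by
    rw [hI1, hI2, hT, hI4]
    have m1 := le_max_right 0 ((1 - a / (1 + 2 * κ)) * (Real.log lam - 1) +
      a / (1 + 2 * κ) * (Real.log 2 + L0))
    have m2 := mul_le_mul_of_nonneg_left hI3 hL1
    have m3 : ∫ y : ℝ, K h φ (-1) y * V y ≤ (1 / lam + 1) * ∫ y : ℝ, K h φ (-1) y * V y := by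
      have : 0 ≤ 1 / lam := by positivity
      nlinarith
    have m4 := mul_add (1 / lam + 1) (∫ y : ℝ, K h φ 1 y * V y) (∫ y : ℝ, K h φ (-1) y * V y)
    linarith
  have hHpt : ‖H ((2 * h * φ / π - h : ℝ) : ℂ)‖ ≤ Real.exp T := key.trans (Real.exp_le_exp.2 hsum)
  rw [hpt] at hHpt
  have e1 : F (1 + κ - a) = F (1 + κ) * (1 + H ((1 / 2 + κ - a : ℝ) : ℂ)) := by
    simp only [hH]
    have : (((1 / 2 + κ - a : ℝ) : ℂ) + 1 / 2) = 1 + κ - a := by push_cast; ring
    rw [this]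
    field_simp
    ring
  rw [e1, norm_mul]
  refine mul_le_mul_of_nonneg_left ?_ hnF.le
  have e2 : ‖1 + H ((1 / 2 + κ - a : ℝ) : ℂ)‖ ≤ 1 + Real.exp T := by
    refine (norm_add_le _ _).trans ?_
    rw [norm_one]
    linarith
  refine e2.trans ?_
  have e3 : Real.log 2 + max 0 ((1 - a / (1 + 2 * κ)) * (Real.log lam - 1) +
      a / (1 + 2 * κ) * (Real.log 2 + L0)) + L1 * (∫ r : ℝ, KK h φ r * (|r| * Real.exp |r|)) +
      (1 / lam + 1) * ∫ r : ℝ, KK h φ r * V r = Real.log 2 + T := by rw [hT]; ring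
  rw [e3]
  clear_value T
  rw [Real.exp_add, Real.exp_log (by norm_num)]
  have := Real.one_le_exp hT0
  linarith

end Pool.Agent.R402.Edge
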