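import Mathlib

/-!
# A mean square bound for Dirichlet series supported on prime powers, in bounded windows
-/

set_option autoImplicit false

open MeasureTheory Filter Topology Set Real
open scoped ArithmeticFunction.vonMangoldt

namespace Pool.Agent.R402.MeanSq

/-- `C₁ = log 4 + 4` -/
noncomputable def C1 : ℝ := Real.log 4 + 4

lemma C1_pos : 0 < C1 := by
  unfold C1
  have := Real.log_pos (by norm_num : (1:ℝ) < 4)
  linarith

/-- one block -/
lemma block (u : ℝ) (S : Finset ℕ) (hS : ∀ n ∈ S, 0 < n ∧ u ≤ Real.log n ∧ Real.log n ≤ u + 1) :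
    ∑ n ∈ S, Λ n * (n : ℝ)⁻¹ ≤ C1 * Real.exp 1 := by
  have h1 : ∀ n ∈ S, Λ n * (n : ℝ)⁻¹ ≤ Real.exp (-u) * Λ n := by
    intro n hn
    obtain ⟨h1, h2, -⟩ := hS n hn
    have hn0 : (0:ℝ) < n := by exact_mod_cast h1
    have h3 : (n:ℝ)⁻¹ ≤ Real.exp (-u) := by
      rw [Real.exp_neg]
      apply inv_anti₀ (Real.exp_pos u)
      rwa [Real.le_log_iff_exp_le hn0] at h2
    have h4 : 0 ≤ Λ n := ArithmeticFunction.vonMangoldt_nonneg
    nlinarith
  have h2 : S ⊆ Finset.Ioc 0 ⌊Real.exp (u + 1)⌋₊ := by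
    intro n hn
    obtain ⟨h1, -, h3⟩ := hS n hn
    have hn0 : (0:ℝ) < n := by exact_mod_cast h1
    rw [Finset.mem_Ioc]
    refine ⟨h1, ?_⟩
    rw [Nat.le_floor_iff (Real.exp_pos _).le]
    rwa [Real.log_le_iff_le_exp hn0] at h3
  have h3 : ∑ n ∈ S, Λ n ≤ Chebyshev.psi (Real.exp (u + 1)) := by
    unfold Chebyshev.psi
    exact Finset.sum_le_sum_of_subset_of_nonneg h2
      (fun _ _ _ => ArithmeticFunction.vonMangoldt_nonneg)
  have h4 := Chebyshev.psi_le_const_mul_self (Real.exp_pos (u + 1)).le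
  calc ∑ n ∈ S, Λ n * (n : ℝ)⁻¹ ≤ ∑ n ∈ S, Real.exp (-u) * Λ n := Finset.sum_le_sum h1
    _ = Real.exp (-u) * ∑ n ∈ S, Λ n := (Finset.mul_sum _ _ _).symm
    _ ≤ Real.exp (-u) * (C1 * Real.exp (u + 1)) := by
        have := Real.exp_pos (-u)
        unfold C1
        gcongr
        linarith
    _ = C1 * Real.exp 1 := by
        have : Real.exp (-u) * Real.exp (u + 1) = Real.exp 1 := by
          rw [← Real.exp_add]; congr 1; ring
        calc Real.exp (-u) * (C1 * Real.exp (u + 1)) =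
            C1 * (Real.exp (-u) * Real.exp (u + 1)) := by ring
          _ = _ := by rw [this]

lemma summable_int : Summable (fun k : ℤ => 1 / (1 + (k:ℝ) ^ 2)) := by
  have h1 : Summable (fun k : ℤ => 1 / (k:ℝ) ^ 2) := Real.summable_one_div_int_pow.2 (by norm_num)
  have h2 : Summable (fun k : ℤ => if k = 0 then (1:ℝ) else 0) :=
    (hasSum_ite_eq (0:ℤ) (1:ℝ)).summable
  refine Summable.of_nonneg_of_le (fun k => by positivity) (fun k => ?_) (h1.add h2)
  by_cases hk : k = 0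
  · subst hk; simp
  · simp only [if_neg hk, add_zero]
    have : (0:ℝ) < (k:ℝ) ^ 2 := by
      have : (k:ℝ) ≠ 0 := by exact_mod_cast hk
      positivity
    apply one_div_le_one_div_of_le this
    linarith

/-- the absolute constant of the inner sum -/
noncomputable def C2 : ℝ := 6 * (C1 * Real.exp 1) * ∑' k : ℤ, 1 / (1 + (k:ℝ) ^ 2)

lemma C2_nonneg : 0 ≤ C2 := by
  unfold C2
  have h1 := C1_pos
  have h2 : 0 ≤ ∑' k : ℤ, 1 / (1 + (k:ℝ) ^ 2) := tsum_nonneg fun k => by positivity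
  positivity

lemma inner (u : ℝ) (S : Finset ℕ) (hS : ∀ n ∈ S, 0 < n) :
    ∑ n ∈ S, Λ n * (n : ℝ)⁻¹ * (2 / (1 + (u - Real.log n) ^ 2)) ≤ C2 := by
  classical
  set k : ℕ → ℤ := fun n => ⌊Real.log n - u⌋ with hk
  have h1 : ∀ n ∈ S, Λ n * (n : ℝ)⁻¹ * (2 / (1 + (u - Real.log n) ^ 2)) ≤
      Λ n * (n : ℝ)⁻¹ * (6 / (1 + (k n : ℝ) ^ 2)) := by
    intro n hn
    have h2 : 0 ≤ Λ n * (n : ℝ)⁻¹ :=
      mul_nonneg ArithmeticFunction.vonMangoldt_nonneg (by positivity)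
    refine mul_le_mul_of_nonneg_left ?_ h2
    rw [div_le_div_iff₀ (by positivity) (by positivity)]
    have h3 := Int.floor_le (Real.log n - u)
    have h4 := Int.lt_floor_add_one (Real.log n - u)
    simp only [hk]
    set v := Real.log n - u
    have h5 : u - Real.log n = -v := by simp only [v]; ring
    rw [h5]
    set m : ℝ := (⌊v⌋ : ℝ)
    have h6 : 0 ≤ v - m := by linarith
    have h7 : v - m ≤ 1 := by linarith
    nlinarith [sq_nonneg (v + (v - m)), sq_nonneg (v - m), mul_nonneg h6 (sub_nonneg.2 h7)]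
  have h2 : ∑ n ∈ S, Λ n * (n : ℝ)⁻¹ * (6 / (1 + (k n : ℝ) ^ 2)) =
      ∑ j ∈ S.image k, ∑ n ∈ S with k n = j, Λ n * (n : ℝ)⁻¹ * (6 / (1 + (k n : ℝ) ^ 2)) :=
    (Finset.sum_fiberwise_of_maps_to (fun n hn => Finset.mem_image_of_mem k hn) _).symm
  have h3 : ∀ j ∈ S.image k, ∑ n ∈ S with k n = j, Λ n * (n : ℝ)⁻¹ * (6 / (1 + (k n : ℝ) ^ 2)) ≤
      6 * (C1 * Real.exp 1) * (1 / (1 + (j:ℝ) ^ 2)) := by
    intro j _
    have e1 : ∑ n ∈ S with k n = j, Λ n * (n : ℝ)⁻¹ * (6 / (1 + (k n : ℝ) ^ 2)) =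
        (∑ n ∈ S with k n = j, Λ n * (n : ℝ)⁻¹) * (6 / (1 + (j:ℝ) ^ 2)) := by
      rw [Finset.sum_mul]
      refine Finset.sum_congr rfl fun n hn => ?_
      rw [(Finset.mem_filter.1 hn).2]
    have e2 := block (u + j) (S.filter (fun n => k n = j)) (by
      intro n hn
      obtain ⟨h4, h5⟩ := Finset.mem_filter.1 hn
      have h6 := Int.floor_le (Real.log n - u)
      have h7 := Int.lt_floor_add_one (Real.log n - u)
      have h8 : (⌊Real.log n - u⌋ : ℝ) = (j : ℝ) := by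
        have : ⌊Real.log n - u⌋ = j := h5
        exact_mod_cast this
      rw [h8] at h6 h7
      exact ⟨hS n h4, by linarith, by linarith⟩)
    rw [e1]
    have h9 : 0 ≤ 6 / (1 + (j:ℝ) ^ 2) := by positivity
    calc (∑ n ∈ S with k n = j, Λ n * (n : ℝ)⁻¹) * (6 / (1 + (j:ℝ) ^ 2)) ≤
        C1 * Real.exp 1 * (6 / (1 + (j:ℝ) ^ 2)) := mul_le_mul_of_nonneg_right e2 h9
      _ = _ := by ring
  have h4 : ∑ j ∈ S.image k, 1 / (1 + (j:ℝ) ^ 2) ≤ ∑' k : ℤ, 1 / (1 + (k:ℝ) ^ 2) :=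
    summable_int.sum_le_tsum _ (fun _ _ => by positivity)
  calc ∑ n ∈ S, Λ n * (n : ℝ)⁻¹ * (2 / (1 + (u - Real.log n) ^ 2)) ≤
      ∑ n ∈ S, Λ n * (n : ℝ)⁻¹ * (6 / (1 + (k n : ℝ) ^ 2)) := Finset.sum_le_sum h1
    _ = ∑ j ∈ S.image k, ∑ n ∈ S with k n = j, Λ n * (n : ℝ)⁻¹ * (6 / (1 + (k n : ℝ) ^ 2)) := h2
    _ ≤ ∑ j ∈ S.image k, 6 * (C1 * Real.exp 1) * (1 / (1 + (j:ℝ) ^ 2)) := Finset.sum_le_sum h3
    _ = 6 * (C1 * Real.exp 1) * ∑ j ∈ S.image k, 1 / (1 + (j:ℝ) ^ 2) :=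
        (Finset.mul_sum _ _ _).symm
    _ ≤ C2 := by
        unfold C2
        have := C1_pos
        gcongr

/-- the kernel `2/(1+(log m - log n)^2)` -/
noncomputable def w (m n : ℕ) : ℝ := 2 / (1 + (Real.log m - Real.log n) ^ 2)

lemma w_pos (m n : ℕ) : 0 < w m n := by unfold w; positivity

lemma w_comm (m n : ℕ) : w m n = w n m := by
  unfold w
  congr 2
  ring

lemma w_le (m n : ℕ) : w m n ≤ 2 := by
  unfold w
  rw [div_le_iff₀ (by positivity)]
  nlinarith [sq_nonneg (Real.log m - Real.log n)]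

/-- `Λ(n) n^{-σ}` -/
noncomputable def v (σ : ℝ) (n : ℕ) : ℝ := Λ n * (n : ℝ) ^ (-σ)

lemma v_nonneg (σ : ℝ) (n : ℕ) : 0 ≤ v σ n :=
  mul_nonneg ArithmeticFunction.vonMangoldt_nonneg (Real.rpow_nonneg (by positivity) _)

lemma v_zero (σ : ℝ) : v σ 0 = 0 := by unfold v; simp

lemma v_le {σ : ℝ} (hσ : 1 ≤ σ) (n : ℕ) : v σ n ≤ Λ n * (n : ℝ)⁻¹ := by
  unfold v
  refine mul_le_mul_of_nonneg_left ?_ ArithmeticFunction.vonMangoldt_nonneg
  rcases Nat.eq_zero_or_pos n with rfl | hn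
  · simp
    rw [Real.zero_rpow (by linarith)]
  · have hn1 : (1:ℝ) ≤ n := by exact_mod_cast hn
    rw [← Real.rpow_neg_one]
    exact Real.rpow_le_rpow_of_exponent_le hn1 (by linarith)

lemma v_inner {σ : ℝ} (hσ : 1 ≤ σ) (m : ℕ) :
    Summable (fun n => v σ n * w m n) ∧ ∑' n, v σ n * w m n ≤ C2 := by
  have h1 : ∀ S : Finset ℕ, ∑ n ∈ S, v σ n * w m n ≤ C2 := by
    intro S
    have e1 : ∑ n ∈ S, v σ n * w m n = ∑ n ∈ S with 0 < n, v σ n * w m n := by
      rw [Finset.sum_filter]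
      refine Finset.sum_congr rfl fun n _ => ?_
      rcases Nat.eq_zero_or_pos n with rfl | hn
      · simp [v_zero]
      · rw [if_pos hn]
    rw [e1]
    refine le_trans (Finset.sum_le_sum fun n _ => ?_) (inner (Real.log m)
      (S.filter (fun n => 0 < n)) (fun n hn => (Finset.mem_filter.1 hn).2))
    exact mul_le_mul_of_nonneg_right (v_le hσ n) (w_pos m n).le
  have h0 : ∀ n, 0 ≤ v σ n * w m n := fun n => mul_nonneg (v_nonneg σ n) (w_pos m n).le
  have h2 : Summable (fun n => v σ n * w m n) := summable_of_sum_le h0 h1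
  exact ⟨h2, h2.tsum_le_of_sum_le h1⟩

section double
variable {c : ℕ → ℂ} {σ : ℝ}

/-- the second moment summand -/
noncomputable def P (c : ℕ → ℂ) (σ : ℝ) (n : ℕ) : ℝ := v σ n * ‖c n‖ ^ 2

/-- the absolute value of the coefficient -/
noncomputable def x (c : ℕ → ℂ) (σ : ℝ) (n : ℕ) : ℝ := v σ n * ‖c n‖

lemma P_nonneg (c : ℕ → ℂ) (σ : ℝ) (n : ℕ) : 0 ≤ P c σ n :=
  mul_nonneg (v_nonneg σ n) (by positivity)

lemma x_nonneg (c : ℕ → ℂ) (σ : ℝ) (n : ℕ) : 0 ≤ x c σ n :=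
  mul_nonneg (v_nonneg σ n) (by positivity)

lemma summable_v (hσ : 1 < σ) : Summable (v σ) := by
  have h1 := (ArithmeticFunction.LSeriesSummable_vonMangoldt (s := (σ : ℂ)) (by simpa using hσ)).norm
  refine h1.congr fun n => ?_
  rcases Nat.eq_zero_or_pos n with rfl | hn
  · simp [v_zero]
  · rw [LSeries.term_of_ne_zero hn.ne', norm_div, Complex.norm_natCast_cpow_of_pos hn,
      Complex.norm_real, Real.norm_of_nonneg ArithmeticFunction.vonMangoldt_nonneg]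
    unfold v
    rw [Complex.ofReal_re, Real.rpow_neg (by positivity), div_eq_mul_inv]

lemma summable_x (hσ : 1 < σ) (hP : Summable (P c σ)) : Summable (x c σ) := by
  refine Summable.of_nonneg_of_le (x_nonneg c σ) (fun n => ?_) ((summable_v hσ).add hP)
  unfold x P
  have h1 := v_nonneg σ n
  nlinarith [mul_nonneg h1 (sq_nonneg (‖c n‖ - 1)), mul_nonneg h1 (norm_nonneg (c n)),
    mul_nonneg h1 (sq_nonneg ‖c n‖)]

lemma summable_prod (hσ : 1 < σ) (hP : Summable (P c σ)) :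
    Summable (fun p : ℕ × ℕ => P c σ p.1 * (v σ p.2 * w p.1 p.2)) ∧
      ∑' p : ℕ × ℕ, P c σ p.1 * (v σ p.2 * w p.1 p.2) ≤ C2 * ∑' n, P c σ n := by
  have h0 : ∀ p : ℕ × ℕ, 0 ≤ P c σ p.1 * (v σ p.2 * w p.1 p.2) := fun p =>
    mul_nonneg (P_nonneg c σ _) (mul_nonneg (v_nonneg σ _) (w_pos _ _).le)
  have hrow : ∀ m : ℕ, Summable (fun n : ℕ => P c σ m * (v σ n * w m n)) := fun m =>
    (v_inner hσ.le m).1.mul_left (P c σ m)
  have hcol : Summable (fun m : ℕ => ∑' n : ℕ, P c σ m * (v σ n * w m n)) := by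
    refine Summable.of_nonneg_of_le (fun m => tsum_nonneg fun n => h0 (m, n)) (fun m => ?_)
      (hP.mul_right C2)
    rw [tsum_mul_left]
    exact mul_le_mul_of_nonneg_left (v_inner hσ.le m).2 (P_nonneg c σ m)
  have h1 : Summable (fun p : ℕ × ℕ => P c σ p.1 * (v σ p.2 * w p.1 p.2)) :=
    (summable_prod_of_nonneg h0).2 ⟨hrow, hcol⟩
  refine ⟨h1, ?_⟩
  rw [h1.tsum_prod]
  calc ∑' m, ∑' n, P c σ m * (v σ n * w m n) ≤ ∑' m, P c σ m * C2 := by
        refine hcol.tsum_le_tsum (fun m => ?_) (hP.mul_right C2)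
        rw [tsum_mul_left]
        exact mul_le_mul_of_nonneg_left (v_inner hσ.le m).2 (P_nonneg c σ m)
    _ = C2 * ∑' n, P c σ n := by rw [tsum_mul_right, mul_comm]

lemma double_le (hσ : 1 < σ) (hP : Summable (P c σ)) :
    Summable (fun p : ℕ × ℕ => x c σ p.1 * x c σ p.2 * w p.1 p.2) ∧
      ∑' p : ℕ × ℕ, x c σ p.1 * x c σ p.2 * w p.1 p.2 ≤ C2 * ∑' n, P c σ n := by
  obtain ⟨h1, h2⟩ := summable_prod hσ hP
  have h3 : Summable (fun p : ℕ × ℕ => P c σ p.2 * (v σ p.1 * w p.2 p.1)) := by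
    have := (Equiv.prodComm ℕ ℕ).summable_iff.2 h1
    exact this
  have h4 : ∑' p : ℕ × ℕ, P c σ p.2 * (v σ p.1 * w p.2 p.1) =
      ∑' p : ℕ × ℕ, P c σ p.1 * (v σ p.2 * w p.1 p.2) :=
    (Equiv.prodComm ℕ ℕ).tsum_eq (fun p : ℕ × ℕ => P c σ p.1 * (v σ p.2 * w p.1 p.2))
  have h5 : ∀ p : ℕ × ℕ, x c σ p.1 * x c σ p.2 * w p.1 p.2 ≤
      1 / 2 * (P c σ p.1 * (v σ p.2 * w p.1 p.2) + P c σ p.2 * (v σ p.1 * w p.2 p.1)) := by
    intro p
    rw [w_comm p.2 p.1]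
    unfold x P
    have a1 := v_nonneg σ p.1
    have a2 := v_nonneg σ p.2
    have a3 := (w_pos p.1 p.2).le
    have a4 : 0 ≤ v σ p.1 * v σ p.2 * w p.1 p.2 := by positivity
    nlinarith [mul_nonneg a4 (sq_nonneg (‖c p.1‖ - ‖c p.2‖))]
  have h6 : ∀ p : ℕ × ℕ, 0 ≤ x c σ p.1 * x c σ p.2 * w p.1 p.2 := fun p =>
    mul_nonneg (mul_nonneg (x_nonneg c σ _) (x_nonneg c σ _)) (w_pos _ _).le
  have h7 : Summable (fun p : ℕ × ℕ => 1 / 2 * (P c σ p.1 * (v σ p.2 * w p.1 p.2) +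
      P c σ p.2 * (v σ p.1 * w p.2 p.1))) := (h1.add h3).mul_left _
  have h8 := Summable.of_nonneg_of_le h6 h5 h7
  refine ⟨h8, ?_⟩
  calc ∑' p : ℕ × ℕ, x c σ p.1 * x c σ p.2 * w p.1 p.2 ≤
      ∑' p : ℕ × ℕ, 1 / 2 * (P c σ p.1 * (v σ p.2 * w p.1 p.2) +
        P c σ p.2 * (v σ p.1 * w p.2 p.1)) := h8.tsum_le_tsum h5 h7
    _ = ∑' p : ℕ × ℕ, P c σ p.1 * (v σ p.2 * w p.1 p.2) := by
        rw [tsum_mul_left, h1.tsum_add h3, h4]; ring
    _ ≤ _ := h2

end double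

/-- the Fourier transform of `e^{-|t|}` -/
lemma ft (u : ℝ) : Integrable (fun t : ℝ => ((Real.exp (-|t|) : ℝ) : ℂ) *
      Complex.exp (-(u * t : ℝ) * Complex.I)) ∧
    ∫ t : ℝ, ((Real.exp (-|t|) : ℝ) : ℂ) * Complex.exp (-(u * t : ℝ) * Complex.I) =
      ((2 / (1 + u ^ 2) : ℝ) : ℂ) := by
  set f : ℝ → ℂ := fun t => ((Real.exp (-|t|) : ℝ) : ℂ) * Complex.exp (-(u * t : ℝ) * Complex.I)
    with hf
  set a : ℂ := -1 - u * Complex.I with ha
  set b : ℂ := 1 - u * Complex.I with hb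
  have hare : a.re < 0 := by simp [ha]
  have hbre : 0 < b.re := by simp [hb]
  have e1 : ∀ t ∈ Ioi (0:ℝ), Complex.exp (a * t) = f t := by
    intro t ht
    have ht' : (0:ℝ) < t := ht
    simp only [hf, ha]
    rw [abs_of_pos ht', Complex.ofReal_exp, ← Complex.exp_add]
    congr 1
    push_cast
    ring
  have e2 : ∀ t ∈ Iic (0:ℝ), Complex.exp (b * t) = f t := by
    intro t ht
    have ht' : t ≤ 0 := ht
    simp only [hf, hb]
    rw [abs_of_nonpos ht', Complex.ofReal_exp, ← Complex.exp_add]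
    congr 1
    push_cast
    ring
  have i1 : IntegrableOn f (Ioi 0) :=
    (integrableOn_exp_mul_complex_Ioi hare 0).congr_fun e1 measurableSet_Ioi
  have i2 : IntegrableOn f (Iic 0) :=
    (integrableOn_exp_mul_complex_Iic hbre 0).congr_fun e2 measurableSet_Iic
  have i3 : Integrable f := by
    have := i2.union i1
    rwa [Iic_union_Ioi, integrableOn_univ] at this
  refine ⟨i3, ?_⟩
  have h1 : ∫ t in Ioi (0:ℝ), f t = -Complex.exp (a * (0:ℝ)) / a := by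
    rw [← integral_exp_mul_complex_Ioi hare 0]
    exact (setIntegral_congr_fun measurableSet_Ioi e1).symm
  have h2 : ∫ t in Iic (0:ℝ), f t = Complex.exp (b * (0:ℝ)) / b := by
    rw [← integral_exp_mul_complex_Iic hbre 0]
    exact (setIntegral_congr_fun measurableSet_Iic e2).symm
  have h3 := intervalIntegral.integral_Iic_add_Ioi i2 i1
  rw [← h3, h1, h2]
  simp only [Complex.ofReal_zero, mul_zero, Complex.exp_zero]
  have ha0 : a ≠ 0 := by
    intro h; rw [h] at hare; simp at hare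
  have hb0 : b ≠ 0 := by
    intro h; rw [h] at hbre; simp at hbre
  have hab : -a * b = ((1 + u ^ 2 : ℝ) : ℂ) := by
    rw [ha, hb]
    push_cast
    linear_combination (-(u:ℂ) ^ 2) * Complex.I_sq
  have hab0 : ((1 + u ^ 2 : ℝ) : ℂ) ≠ 0 := by
    have : (0:ℝ) < 1 + u ^ 2 := by positivity
    exact_mod_cast this.ne'
  have hsum : b - a = 2 := by rw [ha, hb]; ring
  rw [Complex.ofReal_div, ← hab]
  have hna : -a ≠ 0 := neg_ne_zero.2 ha0
  rw [div_add_div _ _ hb0 ha0, div_eq_div_iff (mul_ne_zero hb0 ha0) (mul_ne_zero hna hb0)]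
  push_cast
  linear_combination (-(a * b)) * hsum

/-- the Dirichlet series `∑ Λ(n) c(n) n^{-σ-it}` -/
noncomputable def D (c : ℕ → ℂ) (σ t : ℝ) : ℂ :=
  ∑' n : ℕ, ((v σ n : ℝ) : ℂ) * c n * Complex.exp (-(Real.log n * t : ℝ) * Complex.I)

section main
variable {c : ℕ → ℂ} {σ : ℝ}

/-- the summand -/
noncomputable def g (c : ℕ → ℂ) (σ t : ℝ) (n : ℕ) : ℂ :=
  ((v σ n : ℝ) : ℂ) * c n * Complex.exp (-(Real.log n * t : ℝ) * Complex.I)

lemma norm_g (t : ℝ) (n : ℕ) : ‖g c σ t n‖ = x c σ n := by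
  unfold g x
  have : Complex.exp (-(Real.log n * t : ℝ) * Complex.I) =
    Complex.exp ((-(Real.log n * t) : ℝ) * Complex.I) := by push_cast; rfl
  rw [this, norm_mul, norm_mul, Complex.norm_exp_ofReal_mul_I, mul_one, Complex.norm_real,
    Real.norm_of_nonneg (v_nonneg σ n)]

lemma D_norm_le (hσ : 1 < σ) (hP : Summable (P c σ)) (t : ℝ) : ‖D c σ t‖ ≤ ∑' n, x c σ n := by
  unfold D
  exact tsum_of_norm_bounded (summable_x hσ hP).hasSum (fun n => (norm_g t n).le)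

lemma D_continuous (hσ : 1 < σ) (hP : Summable (P c σ)) : Continuous (D c σ) := by
  unfold D
  refine continuous_tsum (fun n => by fun_prop) (summable_x hσ hP) (fun n t => ?_)
  exact (norm_g t n).le

lemma sq_eq (hσ : 1 < σ) (hP : Summable (P c σ)) (t : ℝ) :
    ((‖D c σ t‖ ^ 2 : ℝ) : ℂ) = ∑' p : ℕ × ℕ, g c σ t p.1 * (starRingEnd ℂ) (g c σ t p.2) := by
  have hs : Summable (fun n => ‖g c σ t n‖) := by
    simp only [norm_g]; exact summable_x hσ hP
  have hs' : Summable (fun n => ‖(starRingEnd ℂ) (g c σ t n)‖) := by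
    simp only [Complex.norm_conj]; exact hs
  rw [← tsum_mul_tsum_of_summable_norm hs hs']
  have h1 : ∑' n, (starRingEnd ℂ) (g c σ t n) = (starRingEnd ℂ) (∑' n, g c σ t n) :=
    (Complex.conj_tsum _).symm
  rw [h1, Complex.mul_conj, Complex.normSq_eq_norm_sq]
  rfl

theorem mean_square (hσ : 1 < σ) (hP : Summable (P c σ)) :
    Integrable (fun t : ℝ => Real.exp (-|t|) * ‖D c σ t‖ ^ 2) ∧
    ∫ t : ℝ, Real.exp (-|t|) * ‖D c σ t‖ ^ 2 ≤ C2 * ∑' n, P c σ n := by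
  have hexp : Integrable (fun t : ℝ => Real.exp (-|t|)) := by
    have := (ft 0).1.norm
    refine this.congr (Eventually.of_forall fun t => ?_)
    simp only [zero_mul, Complex.ofReal_zero, neg_zero, Complex.exp_zero, mul_one]
    rw [Complex.norm_real, Real.norm_of_nonneg (Real.exp_pos _).le]
  have hint : Integrable (fun t : ℝ => Real.exp (-|t|) * ‖D c σ t‖ ^ 2) := by
    refine (hexp.mul_const ((∑' n, x c σ n) ^ 2)).mono'
      ((by fun_prop : Continuous fun t : ℝ => Real.exp (-|t|)).mul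
        ((D_continuous hσ hP).norm.pow 2)).aestronglyMeasurable
      (Eventually.of_forall fun t => ?_)
    rw [Real.norm_of_nonneg (by positivity)]
    have h1 := D_norm_le hσ hP t
    gcongr
  refine ⟨hint, ?_⟩
  set F : ℕ × ℕ → ℝ → ℂ := fun p t => ((Real.exp (-|t|) : ℝ) : ℂ) *
    (g c σ t p.1 * (starRingEnd ℂ) (g c σ t p.2)) with hF
  have hFeq : ∀ (p : ℕ × ℕ) (t : ℝ), F p t =
      (((v σ p.1 : ℝ) : ℂ) * c p.1 * (starRingEnd ℂ) (((v σ p.2 : ℝ) : ℂ) * c p.2)) *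
      (((Real.exp (-|t|) : ℝ) : ℂ) *
        Complex.exp (-((Real.log p.1 - Real.log p.2) * t : ℝ) * Complex.I)) := by
    intro p t
    simp only [hF, g, map_mul]
    have h1 : (starRingEnd ℂ) (Complex.exp (-(Real.log p.2 * t : ℝ) * Complex.I)) =
        Complex.exp ((Real.log p.2 * t : ℝ) * Complex.I) := by
      rw [← Complex.exp_conj, map_mul, map_neg, Complex.conj_ofReal, Complex.conj_I]
      congr 1
      ring
    rw [h1]
    have h2 : Complex.exp (-((Real.log p.1 - Real.log p.2) * t : ℝ) * Complex.I) =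
        Complex.exp (-(Real.log p.1 * t : ℝ) * Complex.I) *
          Complex.exp ((Real.log p.2 * t : ℝ) * Complex.I) := by
      rw [← Complex.exp_add]
      congr 1
      push_cast
      ring
    rw [h2]
    ring
  have hFint : ∀ p, Integrable (F p) := by
    intro p
    have := ((ft (Real.log p.1 - Real.log p.2)).1.const_mul
      (((v σ p.1 : ℝ) : ℂ) * c p.1 * (starRingEnd ℂ) (((v σ p.2 : ℝ) : ℂ) * c p.2)))
    exact this.congr (Eventually.of_forall fun t => (hFeq p t).symm)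
  have hFnorm : ∀ p, ∫ t, ‖F p t‖ = x c σ p.1 * x c σ p.2 * ∫ t : ℝ, Real.exp (-|t|) := by
    intro p
    rw [← integral_const_mul]
    refine integral_congr_ae (Eventually.of_forall fun t => ?_)
    simp only [hF]
    rw [norm_mul, norm_mul, Complex.norm_conj, norm_g, norm_g, Complex.norm_real,
      Real.norm_of_nonneg (Real.exp_pos _).le]
    ring
  have hxs := summable_x hσ hP
  have hFsum : Summable (fun p => ∫ t, ‖F p t‖) := by
    simp only [hFnorm]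
    exact (hxs.mul_of_nonneg hxs (x_nonneg c σ) (x_nonneg c σ)).mul_right _
  have hhs := hasSum_integral_of_summable_integral_norm hFint hFsum
  have hI : ∀ p, ∫ t, F p t = (((v σ p.1 : ℝ) : ℂ) * c p.1 * (starRingEnd ℂ)
      (((v σ p.2 : ℝ) : ℂ) * c p.2)) * ((w p.1 p.2 : ℝ) : ℂ) := by
    intro p
    have h1 := (ft (Real.log p.1 - Real.log p.2)).2
    unfold w
    rw [← h1, ← integral_const_mul]
    exact integral_congr_ae (Eventually.of_forall fun t => hFeq p t)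
  have hleft : ∫ t, ∑' p, F p t = ((∫ t : ℝ, Real.exp (-|t|) * ‖D c σ t‖ ^ 2 : ℝ) : ℂ) := by
    rw [← integral_complex_ofReal]
    refine integral_congr_ae (Eventually.of_forall fun t => ?_)
    simp only [hF]
    rw [tsum_mul_left, ← sq_eq hσ hP t]
    push_cast
    rfl
  rw [hleft] at hhs
  have hnn : ∀ p, ‖∫ t, F p t‖ ≤ x c σ p.1 * x c σ p.2 * w p.1 p.2 := by
    intro p
    rw [hI p, norm_mul, norm_mul, Complex.norm_conj, norm_mul, norm_mul, Complex.norm_real,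
      Complex.norm_real, Complex.norm_real, Real.norm_of_nonneg (v_nonneg σ _),
      Real.norm_of_nonneg (v_nonneg σ _), Real.norm_of_nonneg (w_pos _ _).le]
    unfold x
    exact le_rfl
  obtain ⟨d1, d2⟩ := double_le hσ hP
  have h2 : ‖((∫ t : ℝ, Real.exp (-|t|) * ‖D c σ t‖ ^ 2 : ℝ) : ℂ)‖ ≤
      ∑' p : ℕ × ℕ, x c σ p.1 * x c σ p.2 * w p.1 p.2 := by
    rw [← hhs.tsum_eq]
    exact tsum_of_norm_bounded d1.hasSum hnn
  rw [Complex.norm_real] at h2
  exact (le_abs_self _).trans (h2.trans d2)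

end main

end Pool.Agent.R402.MeanSq
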