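import Mathlib
import Pool.Agent.R402.MeanSq
import Pool.Agent.R402.Kern

/-!
# The logarithm of the Dirichlet series and its variation on a vertical line
-/

set_option autoImplicit false

open MeasureTheory Filter Topology Set Real
open scoped ArithmeticFunction.vonMangoldt

namespace Pool.Agent.R402.Ser

open Pool.Agent.R402.MeanSq

/-- `∑ Λ(n) c(n) / log n · n^{-σ-it}` -/
noncomputable def G (c : ℕ → ℂ) (σ t : ℝ) : ℂ :=
  ∑' n : ℕ, ((v σ n / Real.log n : ℝ) : ℂ) * c n * Complex.exp (-(Real.log n * t : ℝ) * Complex.I)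

section
variable {c : ℕ → ℂ} {σ : ℝ}

/-- the summand -/
noncomputable def gg (c : ℕ → ℂ) (σ t : ℝ) (n : ℕ) : ℂ :=
  ((v σ n / Real.log n : ℝ) : ℂ) * c n * Complex.exp (-(Real.log n * t : ℝ) * Complex.I)

lemma v_eq_zero {n : ℕ} (hn : n ≤ 1) : v σ n = 0 := by
  unfold v
  interval_cases n <;> simp

lemma norm_gg (t : ℝ) (n : ℕ) : ‖gg c σ t n‖ = v σ n / Real.log n * ‖c n‖ := by
  unfold gg
  have : Complex.exp (-(Real.log n * t : ℝ) * Complex.I) =
    Complex.exp ((-(Real.log n * t) : ℝ) * Complex.I) := by push_cast; rfl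
  rw [this, norm_mul, norm_mul, Complex.norm_exp_ofReal_mul_I, mul_one, Complex.norm_real,
    Real.norm_of_nonneg (div_nonneg (v_nonneg σ n) (Real.log_natCast_nonneg n))]

lemma norm_gg_le (t : ℝ) (n : ℕ) : ‖gg c σ t n‖ ≤ 2 * x c σ n := by
  rw [norm_gg]
  unfold x
  have hv := v_nonneg σ n
  rcases Nat.lt_or_ge 1 n with hn | hn
  · have h2 : (2:ℝ) ≤ n := by exact_mod_cast hn
    have h3 : Real.log 2 ≤ Real.log n := Real.log_le_log (by norm_num) h2
    have h4 := Real.log_two_gt_d9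
    have h5 : v σ n / Real.log n ≤ 2 * v σ n := by
      rw [div_le_iff₀ (by linarith)]
      nlinarith
    nlinarith [norm_nonneg (c n)]
  · rw [v_eq_zero hn]; simp

lemma summable_gg (hσ : 1 < σ) (hP : Summable (P c σ)) (t : ℝ) : Summable (gg c σ t) :=
  Summable.of_norm_bounded ((summable_x hσ hP).mul_left 2) (norm_gg_le t)

lemma G_norm_le (hσ : 1 < σ) (hP : Summable (P c σ)) (t : ℝ) :
    ‖G c σ t‖ ≤ 2 * ∑' n, x c σ n := by
  unfold G
  rw [← tsum_mul_left]
  exact tsum_of_norm_bounded ((summable_x hσ hP).mul_left 2).hasSum (fun n => norm_gg_le t n)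

lemma G_hasDerivAt (hσ : 1 < σ) (hP : Summable (P c σ)) (t : ℝ) :
    HasDerivAt (G c σ) (-Complex.I * D c σ t) t := by
  have h1 : ∀ (n : ℕ) (y : ℝ), HasDerivAt (fun t => gg c σ t n) (-Complex.I * g c σ y n) y := by
    intro n y
    unfold gg g
    have e1 : HasDerivAt (fun t : ℝ => (-(Real.log n * t : ℝ) : ℂ) * Complex.I)
        (-(Real.log n : ℂ) * Complex.I) y := by
      have h2 : HasDerivAt (fun t : ℝ => ((Real.log n * t : ℝ) : ℂ)) ((Real.log n : ℝ) : ℂ) y := by
        have := ((hasDerivAt_id' y).const_mul (Real.log n)).ofReal_comp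
        simpa using this
      exact h2.neg.mul_const _
    have e2 := (e1.cexp).const_mul (((v σ n / Real.log n : ℝ) : ℂ) * c n)
    refine HasDerivAt.congr_deriv e2 ?_
    rcases Nat.lt_or_ge 1 n with hn | hn
    · have h2 : (1:ℝ) < n := by exact_mod_cast hn
      have h3 : (Real.log n : ℂ) ≠ 0 := by exact_mod_cast (Real.log_pos h2).ne'
      rw [Complex.ofReal_div]
      field_simp
    · rw [v_eq_zero hn]; simp
  have h2 := hasDerivAt_tsum (summable_x hσ hP) h1
    (fun n y => by rw [norm_mul, norm_neg, Complex.norm_I, one_mul, norm_g])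
    (summable_gg hσ hP 0) t
  refine HasDerivAt.congr_deriv h2 ?_
  rw [tsum_mul_left]
  rfl

lemma G_sub (hσ : 1 < σ) (hP : Summable (P c σ)) (t r : ℝ) :
    ‖G c σ (t + r) - G c σ t‖ ≤ |r| * ∫ s in (0:ℝ)..1, ‖D c σ (t + r * s)‖ := by
  have h1 : ∀ s ∈ uIcc (0:ℝ) 1, HasDerivAt (fun s => G c σ (t + r * s))
      (r • (-Complex.I * D c σ (t + r * s))) s := by
    intro s _
    have h2 : HasDerivAt (fun s : ℝ => t + r * s) r s := by
      simpa using ((hasDerivAt_id' s).const_mul r).const_add t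
    exact HasDerivAt.scomp s (G_hasDerivAt hσ hP (t + r * s)) h2
  have hc : Continuous (fun s : ℝ => r • (-Complex.I * D c σ (t + r * s))) := by
    have := D_continuous hσ hP
    fun_prop
  have h2 := intervalIntegral.integral_eq_sub_of_hasDerivAt h1 (hc.intervalIntegrable _ _)
  simp only [mul_one, mul_zero, add_zero] at h2
  rw [← h2, intervalIntegral.integral_smul, norm_smul, Real.norm_eq_abs]
  refine mul_le_mul_of_nonneg_left ?_ (abs_nonneg r)
  refine (intervalIntegral.norm_integral_le_integral_norm (by norm_num)).trans (le_of_eq ?_)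
  refine intervalIntegral.integral_congr fun s _ => ?_
  simp only [norm_mul, norm_neg, Complex.norm_I, one_mul]

/-- the average of `‖D‖²` over the segment from `t` to `t + r` -/
noncomputable def Y (c : ℕ → ℂ) (σ t r : ℝ) : ℝ := ∫ s in (0:ℝ)..1, ‖D c σ (t + r * s)‖ ^ 2

lemma Y_continuous (hσ : 1 < σ) (hP : Summable (P c σ)) :
    Continuous (fun p : ℝ × ℝ => Y c σ p.1 p.2) := by
  unfold Y
  have hD := D_continuous hσ hP
  apply intervalIntegral.continuous_parametric_intervalIntegral_of_continuous'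
  fun_prop

lemma Y_nonneg (t r : ℝ) : 0 ≤ Y c σ t r :=
  intervalIntegral.integral_nonneg (by norm_num) fun _ _ => by positivity

lemma Y_le (hσ : 1 < σ) (hP : Summable (P c σ)) (t r : ℝ) :
    Y c σ t r ≤ (∑' n, x c σ n) ^ 2 := by
  unfold Y
  have hD := D_continuous hσ hP
  have h1 : ∫ s in (0:ℝ)..1, ‖D c σ (t + r * s)‖ ^ 2 ≤ ∫ s in (0:ℝ)..1, (∑' n, x c σ n) ^ 2 := by
    refine intervalIntegral.integral_mono_on (by norm_num)
      (Continuous.intervalIntegrable (by fun_prop) _ _)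
      (Continuous.intervalIntegrable (by fun_prop) _ _) fun s _ => ?_
    have := D_norm_le hσ hP (t + r * s)
    gcongr
  simpa using h1

/-- the majorant of the variation -/
noncomputable def V (c : ℕ → ℂ) (σ q t r : ℝ) : ℝ := 1 / 2 * |r| * (q + q⁻¹ * Y c σ t r)

lemma G_sub_le {q : ℝ} (hq : 0 < q) (hσ : 1 < σ) (hP : Summable (P c σ)) (t r : ℝ) :
    ‖G c σ (t + r) - G c σ t‖ ≤ V c σ q t r := by
  refine (G_sub hσ hP t r).trans ?_
  unfold V Y
  have hD := D_continuous hσ hP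
  have h1 : ∫ s in (0:ℝ)..1, ‖D c σ (t + r * s)‖ ≤
      ∫ s in (0:ℝ)..1, (1 / 2 * q + 1 / 2 * q⁻¹ * ‖D c σ (t + r * s)‖ ^ 2) := by
    refine intervalIntegral.integral_mono_on (by norm_num)
      (Continuous.intervalIntegrable (by fun_prop) _ _)
      (Continuous.intervalIntegrable (by fun_prop) _ _) fun s _ => ?_
    set z := ‖D c σ (t + r * s)‖
    have h2 : 0 ≤ q⁻¹ * (q - z) ^ 2 := by positivity
    have h3 : q⁻¹ * (q - z) ^ 2 = q - 2 * z + q⁻¹ * z ^ 2 := by
      field_simp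
      ring
    linarith
  have e2 : ∫ s in (0:ℝ)..1, 1 / 2 * q⁻¹ * ‖D c σ (t + r * s)‖ ^ 2 =
      1 / 2 * q⁻¹ * ∫ s in (0:ℝ)..1, ‖D c σ (t + r * s)‖ ^ 2 :=
    intervalIntegral.integral_const_mul _ _
  rw [intervalIntegral.integral_add (Continuous.intervalIntegrable (by fun_prop) _ _)
    (Continuous.intervalIntegrable (by fun_prop) _ _), e2] at h1
  simp only [intervalIntegral.integral_const, sub_zero, one_smul] at h1
  calc |r| * ∫ s in (0:ℝ)..1, ‖D c σ (t + r * s)‖ ≤
      |r| * (1 / 2 * q + 1 / 2 * q⁻¹ * ∫ s in (0:ℝ)..1, ‖D c σ (t + r * s)‖ ^ 2) :=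
        mul_le_mul_of_nonneg_left h1 (abs_nonneg r)
    _ = _ := by ring

lemma V_nonneg {q : ℝ} (hq : 0 < q) (t r : ℝ) : 0 ≤ V c σ q t r := by
  unfold V
  have := Y_nonneg (c := c) (σ := σ) t r
  positivity

lemma V_continuous (hσ : 1 < σ) (hP : Summable (P c σ)) (q : ℝ) :
    Continuous (fun p : ℝ × ℝ => V c σ q p.1 p.2) := by
  unfold V
  have := Y_continuous hσ hP
  fun_prop

lemma V_le {q : ℝ} (hq : 0 < q) (hσ : 1 < σ) (hP : Summable (P c σ)) (t r : ℝ) :
    V c σ q t r ≤ 1 / 2 * (q + q⁻¹ * (∑' n, x c σ n) ^ 2) * |r| := by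
  unfold V
  have h1 := Y_le hσ hP t r
  have h2 : 0 < q⁻¹ := by positivity
  have h3 : q + q⁻¹ * Y c σ t r ≤ q + q⁻¹ * (∑' n, x c σ n) ^ 2 := by
    have := mul_le_mul_of_nonneg_left h1 h2.le
    linarith
  have := abs_nonneg r
  nlinarith

end

section mean
variable {c : ℕ → ℂ} {σ : ℝ} {k : ℝ → ℝ}

lemma exp_shift (t ρ : ℝ) : Real.exp (-|t|) ≤ Real.exp |ρ| * Real.exp (-|t + ρ|) := by
  rw [← Real.exp_add]
  apply Real.exp_le_exp.2
  have := abs_add_le t ρ
  linarith

lemma mean_shift (hσ : 1 < σ) (hP : Summable (P c σ)) (hk : Continuous k) (hk0 : ∀ t, 0 ≤ k t)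
    (hk1 : ∀ t, k t ≤ 4 * Real.exp (-|t|)) (ρ : ℝ) :
    Integrable (fun t => k t * ‖D c σ (t + ρ)‖ ^ 2) ∧
    ∫ t, k t * ‖D c σ (t + ρ)‖ ^ 2 ≤ 4 * Real.exp |ρ| * (C2 * ∑' n, P c σ n) := by
  obtain ⟨h1, h2⟩ := mean_square hσ hP
  have hD := D_continuous hσ hP
  have h3 : Integrable (fun t : ℝ => Real.exp (-|t + ρ|) * ‖D c σ (t + ρ)‖ ^ 2) :=
    h1.comp_add_right ρ
  have h4 : ∀ t, k t * ‖D c σ (t + ρ)‖ ^ 2 ≤
      4 * Real.exp |ρ| * (Real.exp (-|t + ρ|) * ‖D c σ (t + ρ)‖ ^ 2) := by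
    intro t
    have := exp_shift t ρ
    have h5 := hk1 t
    have h6 : k t ≤ 4 * Real.exp |ρ| * Real.exp (-|t + ρ|) := by linarith
    have h7 : 0 ≤ ‖D c σ (t + ρ)‖ ^ 2 := by positivity
    nlinarith
  have h5 : Integrable (fun t => k t * ‖D c σ (t + ρ)‖ ^ 2) := by
    refine (h3.const_mul (4 * Real.exp |ρ|)).mono'
      (Continuous.aestronglyMeasurable (by fun_prop)) (Eventually.of_forall fun t => ?_)
    have := hk0 t
    rw [Real.norm_of_nonneg (by positivity)]
    exact h4 t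
  refine ⟨h5, ?_⟩
  calc ∫ t, k t * ‖D c σ (t + ρ)‖ ^ 2 ≤
      ∫ t, 4 * Real.exp |ρ| * (Real.exp (-|t + ρ|) * ‖D c σ (t + ρ)‖ ^ 2) :=
        integral_mono h5 (h3.const_mul _) h4
    _ = 4 * Real.exp |ρ| * ∫ t, Real.exp (-|t + ρ|) * ‖D c σ (t + ρ)‖ ^ 2 :=
        integral_const_mul _ _
    _ = 4 * Real.exp |ρ| * ∫ t : ℝ, Real.exp (-|t|) * ‖D c σ t‖ ^ 2 := by
        rw [integral_add_right_eq_self (fun t : ℝ => Real.exp (-|t|) * ‖D c σ t‖ ^ 2) ρ]
    _ ≤ _ := by
        have := Real.exp_pos |ρ|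
        gcongr

lemma k_integrable (hk : Continuous k) (hk0 : ∀ t, 0 ≤ k t)
    (hk1 : ∀ t, k t ≤ 4 * Real.exp (-|t|)) : Integrable k := by
  have hexp : Integrable (fun t : ℝ => Real.exp (-|t|)) := by
    have := (ft 0).1.norm
    refine this.congr (Eventually.of_forall fun t => ?_)
    simp only [zero_mul, Complex.ofReal_zero, neg_zero, Complex.exp_zero, mul_one]
    rw [Complex.norm_real, Real.norm_of_nonneg (Real.exp_pos _).le]
  refine (hexp.const_mul 4).mono' hk.aestronglyMeasurable (Eventually.of_forall fun t => ?_)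
  rw [Real.norm_of_nonneg (hk0 t)]
  exact hk1 t

lemma mean_Y (hσ : 1 < σ) (hP : Summable (P c σ)) (hk : Continuous k) (hk0 : ∀ t, 0 ≤ k t)
    (hk1 : ∀ t, k t ≤ 4 * Real.exp (-|t|)) (r : ℝ) :
    ∫ t, k t * Y c σ t r ≤ 4 * Real.exp |r| * (C2 * ∑' n, P c σ n) := by
  have hD := D_continuous hσ hP
  have hki := k_integrable hk hk0 hk1
  have hR0 : 0 ≤ C2 * ∑' n, P c σ n :=
    mul_nonneg C2_nonneg (tsum_nonneg fun n => P_nonneg c σ n)
  set μ : Measure ℝ := volume.restrict (Ioc (0:ℝ) 1) with hμ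
  have h1 : ∀ t, k t * Y c σ t r = ∫ s, k t * ‖D c σ (t + r * s)‖ ^ 2 ∂μ := by
    intro t
    unfold Y
    rw [intervalIntegral.integral_of_le (by norm_num), integral_const_mul]
  have hint : Integrable (Function.uncurry fun t s => k t * ‖D c σ (t + r * s)‖ ^ 2)
      (volume.prod μ) := by
    have h2 : Integrable (fun p : ℝ × ℝ => k p.1 * (∑' n, x c σ n) ^ 2) (volume.prod μ) := by
      have h3 : Integrable (fun _ : ℝ => (1:ℝ)) μ := integrable_const _
      have := (hki.mul_prod h3).mul_const ((∑' n, x c σ n) ^ 2)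
      simpa using this
    refine h2.mono' (Continuous.aestronglyMeasurable ?_) (Eventually.of_forall fun p => ?_)
    · simp only [Function.uncurry_def]
      fun_prop
    · obtain ⟨t, s⟩ := p
      simp only [Function.uncurry_apply_pair]
      have := hk0 t
      rw [Real.norm_of_nonneg (by positivity)]
      have := D_norm_le hσ hP (t + r * s)
      gcongr
  have h2 : ∫ t, k t * Y c σ t r = ∫ s, (∫ t, k t * ‖D c σ (t + r * s)‖ ^ 2) ∂μ := by
    simp only [h1]
    exact integral_integral_swap hint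
  rw [h2]
  have h3 : ∫ s, (∫ t, k t * ‖D c σ (t + r * s)‖ ^ 2) ∂μ ≤
      ∫ _s, 4 * Real.exp |r| * (C2 * ∑' n, P c σ n) ∂μ := by
    refine setIntegral_mono_on ?_ (integrable_const _) measurableSet_Ioc fun s hs => ?_
    · exact hint.integral_prod_right
    · refine (mean_shift hσ hP hk hk0 hk1 (r * s)).2.trans ?_
      have h4 : |r * s| ≤ |r| := by
        rw [abs_mul, abs_of_pos hs.1]
        nlinarith [abs_nonneg r, hs.2]
      have := Real.exp_le_exp.2 h4
      gcongr
  refine h3.trans (le_of_eq ?_)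
  rw [integral_const, hμ]
  simp

lemma Y_continuous_left (hσ : 1 < σ) (hP : Summable (P c σ)) (r : ℝ) :
    Continuous (fun t => Y c σ t r) := by
  unfold Y
  have hD := D_continuous hσ hP
  apply intervalIntegral.continuous_parametric_intervalIntegral_of_continuous'
  fun_prop

lemma kY_integrable (hσ : 1 < σ) (hP : Summable (P c σ)) (hk : Continuous k)
    (hk0 : ∀ t, 0 ≤ k t) (hk1 : ∀ t, k t ≤ 4 * Real.exp (-|t|)) (r : ℝ) :
    Integrable (fun t => k t * Y c σ t r) := by
  have hki := k_integrable hk hk0 hk1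
  have h1 : Continuous (fun t => k t * Y c σ t r) := hk.mul (Y_continuous_left hσ hP r)
  refine (hki.mul_const ((∑' n, x c σ n) ^ 2)).mono' h1.aestronglyMeasurable
    (Eventually.of_forall fun t => ?_)
  have a1 := hk0 t
  have a3 := Y_nonneg (c := c) (σ := σ) t r
  rw [Real.norm_of_nonneg (by positivity)]
  exact mul_le_mul_of_nonneg_left (Y_le hσ hP t r) a1

/-- the average of the majorant of the variation -/
theorem mean_V (hσ : 1 < σ) (hP : Summable (P c σ)) (hk : Continuous k) (hk0 : ∀ t, 0 ≤ k t)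
    (hk1 : ∀ t, k t ≤ 4 * Real.exp (-|t|)) (hk2 : ∫ t, k t = 1) {q : ℝ} (hq : 0 < q)
    {w : ℝ → ℝ} (hw : Continuous w) (hw0 : ∀ r, 0 ≤ w r)
    (hwi : Integrable (fun r => w r * (|r| * Real.exp |r|))) :
    Integrable (fun t => k t * ∫ r, w r * V c σ q t r) ∧
    ∫ t, k t * ∫ r, w r * V c σ q t r ≤
      (1 / 2 * q + 2 * q⁻¹ * (C2 * ∑' n, P c σ n)) * ∫ r, w r * (|r| * Real.exp |r|) := by
  have hki := k_integrable hk hk0 hk1
  have hVc := V_continuous (c := c) hσ hP q
  have hwr : Integrable (fun r => w r * |r|) := by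
    refine hwi.mono' (Continuous.aestronglyMeasurable (by fun_prop))
      (Eventually.of_forall fun r => ?_)
    have h1 := hw0 r
    rw [Real.norm_of_nonneg (by positivity)]
    have h2 := Real.one_le_exp (abs_nonneg r)
    refine mul_le_mul_of_nonneg_left ?_ h1
    nlinarith [abs_nonneg r]
  set M : ℝ := 1 / 2 * (q + q⁻¹ * (∑' n, x c σ n) ^ 2) with hM
  have hM0 : 0 ≤ M := by positivity
  have hint : Integrable (Function.uncurry fun t r => k t * (w r * V c σ q t r))
      (volume.prod volume) := by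
    have h2 : Integrable (fun p : ℝ × ℝ => M * (k p.1 * (w p.2 * |p.2|))) (volume.prod volume) :=
      (hki.mul_prod hwr).const_mul M
    refine h2.mono' (Continuous.aestronglyMeasurable ?_) (Eventually.of_forall fun p => ?_)
    · exact (hk.comp continuous_fst).mul ((hw.comp continuous_snd).mul hVc)
    · obtain ⟨t, r⟩ := p
      simp only [Function.uncurry_apply_pair]
      have a1 := hk0 t
      have a2 := hw0 r
      have a3 := V_nonneg (c := c) (σ := σ) hq t r
      have a4 := V_le hq hσ hP t r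
      rw [Real.norm_of_nonneg (by positivity)]
      calc k t * (w r * V c σ q t r) ≤ k t * (w r * (M * |r|)) := by gcongr
        _ = _ := by ring
  have h1 : ∀ t, k t * ∫ r, w r * V c σ q t r = ∫ r, k t * (w r * V c σ q t r) := fun t =>
    (integral_const_mul _ _).symm
  have h2 : Integrable (fun t => k t * ∫ r, w r * V c σ q t r) := by
    simp only [h1]
    exact hint.integral_prod_left
  refine ⟨h2, ?_⟩
  have h3 : ∫ t, k t * ∫ r, w r * V c σ q t r = ∫ r, ∫ t, k t * (w r * V c σ q t r) := by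
    simp only [h1]
    exact integral_integral_swap hint
  rw [h3, ← integral_const_mul]
  refine integral_mono hint.integral_prod_right (hwi.const_mul _) fun r => ?_
  simp only
  have hYi : Integrable (fun t => k t * Y c σ t r) := kY_integrable hσ hP hk hk0 hk1 r
  have e1 : (fun t => k t * (w r * V c σ q t r)) =
      fun t => w r * (1 / 2 * |r|) * (q * k t + q⁻¹ * (k t * Y c σ t r)) := by
    funext t
    unfold V
    ring
  rw [e1, integral_const_mul, integral_add (hki.const_mul _) (hYi.const_mul _),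
    integral_const_mul, integral_const_mul, hk2]
  have h4 := mean_Y hσ hP hk hk0 hk1 r
  have h5 := hw0 r
  have h6 := abs_nonneg r
  have h7 := Real.one_le_exp h6
  have hq' : 0 < q⁻¹ := by positivity
  have hR0 : 0 ≤ C2 * ∑' n, P c σ n :=
    mul_nonneg C2_nonneg (tsum_nonneg fun n => P_nonneg c σ n)
  have h8 : q * 1 + q⁻¹ * ∫ t, k t * Y c σ t r ≤
      (q + 4 * q⁻¹ * (C2 * ∑' n, P c σ n)) * Real.exp |r| := by
    have h9 := mul_le_mul_of_nonneg_left h4 hq'.le
    nlinarith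
  calc w r * (1 / 2 * |r|) * (q * 1 + q⁻¹ * ∫ t, k t * Y c σ t r) ≤
      w r * (1 / 2 * |r|) * ((q + 4 * q⁻¹ * (C2 * ∑' n, P c σ n)) * Real.exp |r|) :=
        mul_le_mul_of_nonneg_left h8 (by positivity)
    _ = _ := by ring

end mean

end Pool.Agent.R402.Ser
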