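import Mathlib
import Pool.Agent.R402.Edge
import Pool.Agent.R402.Ser

/-!
# The core estimate
-/

set_option autoImplicit false

open MeasureTheory Filter Topology Set Real
open scoped ArithmeticFunction.vonMangoldt

namespace Pool.Agent.R402.Core

open Pool.Agent.R402.Strip Pool.Agent.R402.Kern Pool.Agent.R402.Edge
open Pool.Agent.R402.MeanSq Pool.Agent.R402.Ser

/-- the hypotheses on the function, at the point `1/2` -/
structure Hyp (d Cn θ A Q0 : ℝ) (c : ℕ → ℂ) (F : ℂ → ℂ) : Prop where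
  diff : Differentiable ℂ F
  one_le : 1 ≤ Q0
  growth : ∃ A1 B1 : ℝ, 0 ≤ B1 ∧ ∀ z : ℂ, -(1 / 4) ≤ z.re → z.re ≤ 5 / 4 →
    log⁺ ‖F z‖ ≤ A1 + B1 * |z.im|
  exp_eq : ∀ σ t : ℝ, 1 < σ → F (σ + t * Complex.I) = Complex.exp (G c σ t)
  summ : ∀ σ : ℝ, 1 < σ → Summable (P c σ)
  rankin : ∀ σ : ℝ, 1 < σ → σ ≤ 2 → ∑' n, P c σ n ≤ A * (1 / (σ - 1) + Real.log Q0)
  coef : ∀ n : ℕ, Λ n ≠ 0 → ‖c n‖ ≤ d * (n : ℝ) ^ θ
  refl : ∀ x t : ℝ, 0 ≤ x → x ≤ 3 / 4 → ‖F ((1 / 2 - x : ℝ) + t * Complex.I)‖ ≤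
    Cn * (Q0 * (1 + |t|) ^ d) ^ x * ‖F ((1 / 2 + x : ℝ) + t * Complex.I)‖

/-- the central kernel of a strip of half width `h` -/
noncomputable def kc (h t : ℝ) : ℝ := 2 * K h (π / 2) 1 t

lemma half_mem : π / 2 ∈ Ioo 0 π := by
  have := Real.pi_pos
  constructor <;> linarith

lemma K_half (h t : ℝ) : K h (π / 2) (-1) t = K h (π / 2) 1 t := by
  unfold K
  rw [Real.cos_pi_div_two]
  simp

section kc
variable {h : ℝ}

lemma kc_nonneg (hh : 0 < h) (t : ℝ) : 0 ≤ kc h t := by
  unfold kc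
  have := K_pos hh half_mem (Or.inl rfl : (1:ℝ) = 1 ∨ (1:ℝ) = -1) t
  linarith

lemma kc_continuous (hh : 0 < h) : Continuous (kc h) := by
  unfold kc
  exact (K_continuous hh half_mem (Or.inl rfl)).const_mul 2 |> fun h => by simpa using h

lemma kc_le (hh : 1 / 4 ≤ h) (hh1 : h ≤ 1 / 2) (t : ℝ) : kc h t ≤ 4 * Real.exp (-|t|) := by
  have hh0 : 0 < h := by linarith
  have h1 := K_le_exp hh0 half_mem (Or.inl rfl : (1:ℝ) = 1 ∨ (1:ℝ) = -1) t
  rw [Real.cos_pi_div_two, abs_zero, sub_zero, mul_one] at h1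
  have h2 : 1 / (2 * h) ≤ 2 := by
    rw [div_le_iff₀ (by positivity)]; linarith
  have h3 : Real.exp (-(π / (2 * h)) * |t|) ≤ Real.exp (-|t|) := by
    apply Real.exp_le_exp.2
    have h4 : 1 ≤ π / (2 * h) := by
      rw [le_div_iff₀ (by positivity)]
      have := Real.pi_gt_three
      nlinarith
    nlinarith [abs_nonneg t]
  unfold kc
  have h5 := Real.exp_pos (-(π / (2 * h)) * |t|)
  have h6 : 1 / (2 * h) * Real.exp (-(π / (2 * h)) * |t|) ≤ 2 * Real.exp (-|t|) := by
    apply mul_le_mul h2 h3 h5.le (by norm_num)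
  linarith

lemma kc_mass (hh : 0 < h) : ∫ t, kc h t = 1 := by
  unfold kc
  rw [integral_const_mul, K_mass_one hh half_mem]
  have := Real.pi_pos
  field_simp

lemma kc_integrable (hh : 0 < h) : Integrable (kc h) := by
  unfold kc
  exact (K_integrable hh half_mem (Or.inl rfl)).const_mul 2

end kc

/-- a bound for `∫ kc log (1 + |t|)` -/
noncomputable def C6 : ℝ := 4 * ∫ t : ℝ, (1 + t ^ 2) * Real.exp (-1 * |t|)

lemma C6_nonneg : 0 ≤ C6 := by
  unfold C6
  have : 0 ≤ ∫ t : ℝ, (1 + t ^ 2) * Real.exp (-1 * |t|) := integral_nonneg fun t => by positivity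
  positivity

lemma log_one_add_le (t : ℝ) : Real.log (1 + |t|) ≤ 1 + t ^ 2 := by
  have := Real.log_le_sub_one_of_pos (by positivity : 0 < 1 + |t|)
  have h2 := abs_le_sq t
  linarith

lemma log_one_add_nonneg (t : ℝ) : 0 ≤ Real.log (1 + |t|) :=
  Real.log_nonneg (by linarith [abs_nonneg t])

lemma log_one_add_continuous : Continuous (fun t : ℝ => Real.log (1 + |t|)) := by
  refine Continuous.log (by fun_prop) ?_
  intro r
  positivity

lemma kc_log {h : ℝ} (hh : 1 / 4 ≤ h) (hh1 : h ≤ 1 / 2) :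
    Integrable (fun t => kc h t * Real.log (1 + |t|)) ∧
      ∫ t, kc h t * Real.log (1 + |t|) ≤ C6 := by
  have hh0 : 0 < h := by linarith
  have h1 := integrable_sq_exp one_pos
  have h2 : ∀ t, kc h t * Real.log (1 + |t|) ≤ 4 * ((1 + t ^ 2) * Real.exp (-1 * |t|)) := by
    intro t
    have e1 := kc_le hh hh1 t
    have e2 := log_one_add_le t
    have e3 := log_one_add_nonneg t
    rw [neg_one_mul]
    calc kc h t * Real.log (1 + |t|) ≤ 4 * Real.exp (-|t|) * (1 + t ^ 2) := by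
          apply mul_le_mul e1 e2 e3 (by positivity)
      _ = _ := by ring
  have h3 : Integrable (fun t => kc h t * Real.log (1 + |t|)) := by
    refine (h1.const_mul 4).mono'
      ((kc_continuous hh0).mul log_one_add_continuous).aestronglyMeasurable
      (Eventually.of_forall fun t => ?_)
    rw [Real.norm_of_nonneg (mul_nonneg (kc_nonneg hh0 t) (log_one_add_nonneg t))]
    exact h2 t
  refine ⟨h3, ?_⟩
  unfold C6
  rw [← integral_const_mul]
  exact integral_mono h3 (h1.const_mul 4) h2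

section
variable {d Cn θ A Q0 : ℝ} {c : ℕ → ℂ} {F : ℂ → ℂ}

/-- the bound for the logarithm far to the right -/
noncomputable def BG (d δ : ℝ) : ℝ := d * ∑' n : ℕ, (n : ℝ) ^ (-(1 + δ))

lemma BG_nonneg {d δ : ℝ} (hd : 0 ≤ d) : 0 ≤ BG d δ := by
  unfold BG
  have : 0 ≤ ∑' n : ℕ, (n : ℝ) ^ (-(1 + δ)) := tsum_nonneg fun n => Real.rpow_nonneg (by positivity) _
  positivity

lemma G_far (H : Hyp d Cn θ A Q0 c F) {σ δ : ℝ} (hd : 0 ≤ d) (hδ : 0 < δ)
    (hσδ : 1 + δ + θ ≤ σ) (t : ℝ) : ‖G c σ t‖ ≤ BG d δ := by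
  unfold G BG
  have hs : Summable (fun n : ℕ => (n : ℝ) ^ (-(1 + δ))) := by
    rw [Real.summable_nat_rpow]; linarith
  rw [← tsum_mul_left]
  refine tsum_of_norm_bounded (hs.mul_left d).hasSum fun n => ?_
  have h1 := norm_gg (c := c) (σ := σ) t n
  unfold gg at h1
  rw [h1]
  rcases Nat.lt_or_ge 1 n with hn | hn
  · have h2 : (1:ℝ) < n := by exact_mod_cast hn
    have h3 := Real.log_pos h2
    have hn0 : (0:ℝ) < n := by linarith
    by_cases h0 : Λ n = 0
    · unfold v
      rw [h0, zero_mul, zero_div, zero_mul]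
      have := Real.rpow_nonneg hn0.le (-(1 + δ))
      positivity
    · have h4 := H.coef n h0
      have h5 : v σ n / Real.log n ≤ (n:ℝ) ^ (-σ) := by
        unfold v
        rw [div_le_iff₀ h3, mul_comm]
        refine mul_le_mul_of_nonneg_left ArithmeticFunction.vonMangoldt_le_log ?_
        exact Real.rpow_nonneg hn0.le _
      calc v σ n / Real.log n * ‖c n‖ ≤ (n:ℝ) ^ (-σ) * (d * (n:ℝ) ^ θ) := by
            apply mul_le_mul h5 h4 (norm_nonneg _) (Real.rpow_nonneg hn0.le _)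
        _ = d * ((n:ℝ) ^ (-σ) * (n:ℝ) ^ θ) := by ring
        _ = d * (n:ℝ) ^ (-σ + θ) := by rw [Real.rpow_add hn0]
        _ ≤ d * (n:ℝ) ^ (-(1 + δ)) := by
            refine mul_le_mul_of_nonneg_left ?_ hd
            exact Real.rpow_le_rpow_of_exponent_le h2.le (by linarith)
  · rw [v_eq_zero hn, zero_div, zero_mul]
    have := Real.rpow_nonneg (Nat.cast_nonneg n : (0:ℝ) ≤ n) (-(1 + δ))
    positivity

/-- Step 5: the average of `log ‖F‖` over the line `Re s = σ` -/
lemma mean_g (H : Hyp d Cn θ A Q0 c F) {σ δ h : ℝ} (hd : 0 ≤ d) (hδ : 0 < δ) (hσ : 1 < σ)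
    (hh : 0 < h) (hσδ : 1 + δ + θ ≤ σ + h) :
    Integrable (fun t => kc h t * (G c σ t).re) ∧
      ∫ t, kc h t * (G c σ t).re ≤ 3 * BG d δ := by
  have hP := H.summ σ hσ
  have hGc : Continuous (G c σ) := by
    rw [continuous_iff_continuousAt]
    intro t
    exact (G_hasDerivAt hσ hP t).continuousAt
  have hGb := fun t => G_norm_le hσ hP t
  set M : ℝ := 2 * ∑' n, x c σ n with hM
  have hM0 : 0 ≤ M := (norm_nonneg _).trans (hGb 0)
  have hre : ∀ t, |(G c σ t).re| ≤ M := fun t => (Complex.abs_re_le_norm _).trans (hGb t)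
  have hKi := fun (σ' : ℝ) (hσ' : σ' = 1 ∨ σ' = -1) => K_integrable_of_le hh half_mem hσ'
    (f := fun t => -(G c σ t).re) (Continuous.aestronglyMeasurable (by fun_prop)) (A := M)
    (fun t => by rw [abs_neg]; nlinarith [hre t, mul_nonneg hM0 (sq_nonneg t)])
  have hint : Integrable (fun t => kc h t * (G c σ t).re) := by
    refine ((hKi 1 (Or.inl rfl)).const_mul (-2)).congr (Eventually.of_forall fun t => ?_)
    simp only [kc]
    ring
  refine ⟨hint, ?_⟩
  have hne : ∀ s : ℂ, 1 < s.re → F s ≠ 0 := by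
    intro s hs
    have := H.exp_eq s.re s.im hs
    rw [Complex.re_add_im] at this
    rw [this]
    exact Complex.exp_ne_zero _
  have hmono : ∀ (σ' t : ℝ), σ ≤ σ' → ‖G c σ' t‖ ≤ M := by
    intro σ' t hσ'
    have hσ'1 : 1 < σ' := lt_of_lt_of_le hσ hσ'
    refine (G_norm_le hσ'1 (H.summ σ' hσ'1) t).trans ?_
    rw [hM]
    refine mul_le_mul_of_nonneg_left ?_ (by norm_num)
    refine (summable_x hσ'1 (H.summ σ' hσ'1)).tsum_le_tsum (fun n => ?_) (summable_x hσ hP)
    unfold x v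
    rcases Nat.eq_zero_or_pos n with rfl | hn
    · simp
    · have hn1 : (1:ℝ) ≤ n := by exact_mod_cast hn
      have h1 : (n:ℝ) ^ (-σ') ≤ (n:ℝ) ^ (-σ) :=
        Real.rpow_le_rpow_of_exponent_le hn1 (by linarith)
      have h2 : 0 ≤ Λ n := ArithmeticFunction.vonMangoldt_nonneg
      gcongr
  set Φ : ℂ → ℂ := fun z => (F (z + ((σ + h : ℝ) : ℂ)))⁻¹ with hΦ
  have hΦeq : ∀ z : ℂ, |z.re| ≤ h → Φ z = Complex.exp (-(G c (z.re + (σ + h)) z.im)) := by
    intro z hz
    have h1 := abs_le.1 hz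
    have h2 : z + ((σ + h : ℝ) : ℂ) = ((z.re + (σ + h) : ℝ) : ℂ) + z.im * Complex.I := by
      apply Complex.ext <;> simp
    simp only [hΦ]
    rw [h2, H.exp_eq _ _ (by linarith), Complex.exp_neg]
  have key := strip_point (F := Φ) (A := M) (B := 0) (φ := π / 2)
    (up := fun _ => BG d δ) (um := fun t => -(G c σ t).re) (N := M) hh half_mem
    (fun z hz => by
      have h1 := abs_le.1 hz
      refine AnalyticAt.inv ?_ ?_
      · exact AnalyticAt.comp (g := F) (H.diff.analyticAt _) (by fun_prop)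
      · apply hne
        simp
        linarith)
    le_rfl
    (fun z hz => by
      have h1 := abs_le.1 hz
      rw [hΦeq z hz, Complex.norm_exp, zero_mul, add_zero, posLog_apply, Real.log_exp]
      refine max_le hM0 ?_
      rw [Complex.neg_re]
      have h2 := hmono (z.re + (σ + h)) z.im (by linarith)
      have h3 := Complex.abs_re_le_norm (G c (z.re + (σ + h)) z.im)
      linarith [neg_abs_le (G c (z.re + (σ + h)) z.im).re])
    ((K_integrable hh half_mem (Or.inl rfl)).mul_const _)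
    (hKi (-1) (Or.inr rfl))
    (fun _ => by have := BG_nonneg (δ := δ) hd; linarith)
    (fun t => by
      have := hre t
      linarith [le_abs_self (G c σ t).re])
    (fun y => by
      have h1 : Φ ((h : ℂ) + y * Complex.I) = Complex.exp (-(G c (h + (σ + h)) y)) := by
        rw [hΦeq]
        · simp
        · simp [abs_of_pos hh]
      rw [h1, Complex.norm_exp, Complex.neg_re]
      apply Real.exp_le_exp.2
      have h2 := G_far H hd hδ (σ := h + (σ + h)) (by linarith) y
      have h3 := Complex.abs_re_le_norm (G c (h + (σ + h)) y)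
      linarith [neg_abs_le (G c (h + (σ + h)) y).re])
    (fun y => by
      have h1 : Φ (-(h : ℂ) + y * Complex.I) = Complex.exp (-(G c (-h + (σ + h)) y)) := by
        rw [hΦeq]
        · simp
        · simp [abs_of_pos hh]
      rw [h1, Complex.norm_exp, Complex.neg_re, show -h + (σ + h) = σ by ring])
  have hpt : ((2 * h * (π / 2) / π - h : ℝ) : ℂ) = 0 := by
    have := Real.pi_pos
    have : 2 * h * (π / 2) / π - h = 0 := by field_simp; ring
    rw [this]; simp
  rw [hpt, hΦeq 0 (by simp [hh.le]), Complex.norm_exp, Complex.neg_re] at key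
  have h1 := Real.exp_le_exp.1 key
  simp only [Complex.zero_re, Complex.zero_im, zero_add] at h1
  have h2 := G_far H hd hδ (σ := σ + h) hσδ 0
  have h3 := Complex.abs_re_le_norm (G c (σ + h) 0)
  have h4 := le_abs_self (G c (σ + h) 0).re
  have h5 : ∫ y : ℝ, K h (π / 2) 1 y * BG d δ = 1 / 2 * BG d δ := by
    rw [integral_mul_const, K_mass_one hh half_mem]
    have := Real.pi_pos
    field_simp
  have h6 : ∫ y : ℝ, K h (π / 2) (-1) y * -(G c σ y).re =
      -(1 / 2) * ∫ t, kc h t * (G c σ t).re := by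
    rw [← integral_const_mul]
    refine integral_congr_ae (Eventually.of_forall fun t => ?_)
    simp only [kc, K_half]
    ring
  rw [h5, h6] at h1
  linarith

end

end Pool.Agent.R402.Core
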