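import Mathlib
import Pool.Agent.R402.Core

/-!
# The Poisson inequality in a strip for a function with prescribed zeros
-/

set_option autoImplicit false

open MeasureTheory Filter Topology Set Real

namespace Pool.Agent.R402.Bla

open Pool.Agent.R402.Strip Pool.Agent.R402.Core

/-- the reflection in the line `Re z = -h` -/
noncomputable def rf (h : ℝ) (ρ : ℂ) : ℂ := ((-2 * h - ρ.re : ℝ) : ℂ) + ρ.im * Complex.I

lemma norm_sub_rf_sq (h : ℝ) (z ρ : ℂ) :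
    ‖z - rf h ρ‖ ^ 2 = ‖z - ρ‖ ^ 2 + 4 * (z.re + h) * (h + ρ.re) := by
  rw [← Complex.normSq_eq_norm_sq, ← Complex.normSq_eq_norm_sq, Complex.normSq_apply,
    Complex.normSq_apply]
  simp only [rf, Complex.sub_re, Complex.sub_im, Complex.add_re, Complex.add_im,
    Complex.ofReal_re, Complex.ofReal_im, Complex.re_ofReal_mul, Complex.im_ofReal_mul,
    Complex.I_re, Complex.I_im, mul_zero, mul_one, add_zero, zero_add]
  ring

lemma norm_left {h : ℝ} {z : ℂ} (hz : z.re = -h) (ρ : ℂ) : ‖z - rf h ρ‖ = ‖z - ρ‖ := by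
  have h1 := norm_sub_rf_sq h z ρ
  rw [hz, neg_add_cancel, mul_zero, zero_mul, add_zero] at h1
  exact (pow_left_inj₀ (norm_nonneg _) (norm_nonneg _) two_ne_zero).1 h1

/-- the gain at the centre -/
noncomputable def gain (h : ℝ) (ρ : ℂ) : ℝ := 1 / 2 * Real.log (1 + 4 * h * (h + ρ.re) / ‖ρ‖ ^ 2)

/-- the loss at the right edge -/
noncomputable def loss (h : ℝ) (ρ : ℂ) : ℝ := 4 * h * (h + ρ.re) / (h - ρ.re) ^ 2

lemma norm_right {h : ℝ} {z ρ : ℂ} (hz : z.re = h) (hh : 0 < h) (h1 : |ρ.re| < h) :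
    ‖z - rf h ρ‖ ≤ ‖z - ρ‖ * Real.exp (loss h ρ) := by
  obtain ⟨h2, h3⟩ := abs_lt.1 h1
  have e1 := norm_sub_rf_sq h z ρ
  rw [hz] at e1
  have e2 : (h - ρ.re) ^ 2 ≤ ‖z - ρ‖ ^ 2 := by
    rw [← Complex.normSq_eq_norm_sq, Complex.normSq_apply, Complex.sub_re, hz]
    nlinarith [sq_nonneg (z - ρ).im]
  have e3 : 0 < (h - ρ.re) ^ 2 := by
    have : 0 < h - ρ.re := by linarith
    positivity
  have e4 : 0 < h + ρ.re := by linarith
  have e5 : 2 * loss h ρ + 1 ≤ Real.exp (2 * loss h ρ) := Real.add_one_le_exp _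
  have e6 : ‖z - rf h ρ‖ ^ 2 ≤ ‖z - ρ‖ ^ 2 * (2 * loss h ρ + 1) := by
    rw [e1]
    have : ‖z - ρ‖ ^ 2 * (2 * loss h ρ + 1) = ‖z - ρ‖ ^ 2 +
        (‖z - ρ‖ ^ 2 / (h - ρ.re) ^ 2) * (8 * h * (h + ρ.re)) := by
      unfold loss
      field_simp
      ring
    rw [this]
    have e7 : 1 ≤ ‖z - ρ‖ ^ 2 / (h - ρ.re) ^ 2 := by
      rw [le_div_iff₀ e3]; linarith
    have e8 : 0 ≤ 8 * h * (h + ρ.re) := by positivity
    nlinarith
  have e7 : ‖z - rf h ρ‖ ^ 2 ≤ (‖z - ρ‖ * Real.exp (loss h ρ)) ^ 2 := by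
    rw [mul_pow, ← Real.exp_nat_mul]
    push_cast
    refine e6.trans (mul_le_mul_of_nonneg_left e5 (by positivity))
  exact (pow_le_pow_iff_left₀ (norm_nonneg _) (by positivity) two_ne_zero).1 e7

lemma norm_zero_eq {h : ℝ} {ρ : ℂ} (hh : 0 < h) (h1 : |ρ.re| < h) (h0 : ρ ≠ 0) :
    ‖0 - rf h ρ‖ = ‖0 - ρ‖ * Real.exp (gain h ρ) := by
  obtain ⟨h2, h3⟩ := abs_lt.1 h1
  have hp : 0 < ‖ρ‖ := norm_pos_iff.2 h0
  have e1 := norm_sub_rf_sq h 0 ρ
  have e4 : 0 < h + ρ.re := by linarith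
  have e5 : 0 < 1 + 4 * h * (h + ρ.re) / ‖ρ‖ ^ 2 := by positivity
  have e7 : ‖0 - rf h ρ‖ ^ 2 = (‖0 - ρ‖ * Real.exp (gain h ρ)) ^ 2 := by
    rw [mul_pow, ← Real.exp_nat_mul, e1]
    unfold gain
    have : ((2:ℕ) : ℝ) * (1 / 2 * Real.log (1 + 4 * h * (h + ρ.re) / ‖ρ‖ ^ 2)) =
        Real.log (1 + 4 * h * (h + ρ.re) / ‖ρ‖ ^ 2) := by push_cast; ring
    rw [this, Real.exp_log e5, zero_sub, norm_neg]
    simp only [Complex.zero_re]
    field_simp
    ring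
  exact (pow_left_inj₀ (norm_nonneg _) (by positivity) two_ne_zero).1 e7

theorem strip_zeros {T g : ℂ → ℂ} {h A B : ℝ} {S : Finset ℂ} {m : ℂ → ℕ} {p : ℂ → ℂ}
    (hh : 0 < h) (hg : ∀ z : ℂ, |z.re| ≤ h → AnalyticAt ℂ g z)
    (hT : ∀ z : ℂ, |z.re| ≤ h → T z = (∏ ρ ∈ S, (z - p ρ) ^ m ρ) * g z)
    (hS : ∀ ρ ∈ S, |(p ρ).re| < h) (hB : 0 ≤ B)
    (hbd : ∀ z : ℂ, |z.re| ≤ h → log⁺ ‖T z‖ ≤ A + B * |z.im|)
    {up um : ℝ → ℝ} {N : ℝ} (hup : Integrable (fun y => K h (π / 2) 1 y * up y))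
    (hum : Integrable (fun y => K h (π / 2) (-1) y * um y))
    (hNp : ∀ y, -N ≤ up y) (hNm : ∀ y, -N ≤ um y)
    (hFp : ∀ y : ℝ, ‖T ((h : ℂ) + y * Complex.I)‖ ≤ Real.exp (up y))
    (hFm : ∀ y : ℝ, ‖T (-(h : ℂ) + y * Complex.I)‖ ≤ Real.exp (um y))
    (h0 : T 0 ≠ 0) :
    Real.log ‖T 0‖ + ∑ ρ ∈ S, (m ρ : ℝ) * gain h (p ρ) ≤
      (∫ y : ℝ, K h (π / 2) 1 y * up y) + (∫ y : ℝ, K h (π / 2) (-1) y * um y) +
        1 / 2 * ∑ ρ ∈ S, (m ρ : ℝ) * loss h (p ρ) := by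
  set W : ℂ → ℂ := fun z => (∏ ρ ∈ S, (z - rf h (p ρ)) ^ m ρ) * g z with hW
  have hz0 : |(0:ℂ).re| ≤ h := by simp [hh.le]
  -- analyticity
  have hWan : ∀ z : ℂ, |z.re| ≤ h → AnalyticAt ℂ W z := by
    intro z hz
    refine AnalyticAt.mul ?_ (hg z hz)
    exact Finset.analyticAt_fun_prod S (fun ρ _ => by fun_prop)
  -- growth
  obtain ⟨A', hA'⟩ : ∃ A', ∀ z : ℂ, |z.re| ≤ h → log⁺ ‖W z‖ ≤ A' + B * |z.im| := by
    set R0 : ℝ := ∑ ρ ∈ S, ‖p ρ‖ + 1 with hR0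
    have hcomp : IsCompact (Icc (-h) h ×ℂ Icc (-R0) R0) := isCompact_Icc.reProdIm isCompact_Icc
    have hcont : ContinuousOn W (Icc (-h) h ×ℂ Icc (-R0) R0) := by
      intro z hz
      refine (hWan z ?_).continuousAt.continuousWithinAt
      rw [Complex.mem_reProdIm] at hz
      exact abs_le.2 ⟨hz.1.1, hz.1.2⟩
    obtain ⟨C', hC'⟩ := hcomp.exists_bound_of_continuousOn hcont
    set C : ℝ := ∏ ρ ∈ S, (1 + ‖p ρ - rf h (p ρ)‖) ^ m ρ with hC
    refine ⟨|A| + log⁺ C + log⁺ C', fun z hz => ?_⟩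
    have hBz : 0 ≤ B * |z.im| := by positivity
    rcases le_or_gt |z.im| R0 with hcase | hcase
    · have h1 : z ∈ Icc (-h) h ×ℂ Icc (-R0) R0 := by
        rw [Complex.mem_reProdIm]
        exact ⟨abs_le.1 hz, abs_le.1 hcase⟩
      have h2 := posLog_le_posLog (norm_nonneg _) (hC' z h1)
      have h3 : 0 ≤ log⁺ C := posLog_nonneg
      linarith [abs_nonneg A]
    · have h1 : ∀ ρ ∈ S, ‖(z - rf h (p ρ)) ^ m ρ‖ ≤ ‖(z - p ρ) ^ m ρ‖ * (1 + ‖p ρ - rf h (p ρ)‖) ^ m ρ := by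
        intro ρ hρ
        rw [norm_pow, norm_pow, ← mul_pow]
        refine pow_le_pow_left₀ (norm_nonneg _) ?_ _
        have h2 : ‖p ρ‖ ≤ ∑ ρ ∈ S, ‖p ρ‖ :=
          Finset.single_le_sum (f := fun ρ : ℂ => ‖p ρ‖) (fun _ _ => norm_nonneg _) hρ
        have h3 : 1 ≤ ‖z - p ρ‖ := by
          have h4 := Complex.abs_im_le_norm (z - p ρ)
          have h5 := Complex.abs_im_le_norm (p ρ)
          have h6 : |z.im| ≤ |(z - p ρ).im| + |(p ρ).im| := by
            have : z.im = (z - p ρ).im + (p ρ).im := by simp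
            calc |z.im| = |(z - p ρ).im + (p ρ).im| := by rw [← this]
              _ ≤ _ := abs_add_le _ _
          linarith
        have h4 : ‖z - rf h (p ρ)‖ ≤ ‖z - p ρ‖ + ‖p ρ - rf h (p ρ)‖ := by
          have : z - rf h (p ρ) = (z - p ρ) + (p ρ - rf h (p ρ)) := by ring
          rw [this]; exact norm_add_le _ _
        nlinarith [norm_nonneg (p ρ - rf h (p ρ))]
      have h2 : ‖W z‖ ≤ ‖T z‖ * C := by
        simp only [hW]
        rw [hT z hz, norm_mul, norm_mul, norm_prod, norm_prod, hC]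
        calc (∏ ρ ∈ S, ‖(z - rf h (p ρ)) ^ m ρ‖) * ‖g z‖ ≤
            (∏ ρ ∈ S, ‖(z - p ρ) ^ m ρ‖ * (1 + ‖p ρ - rf h (p ρ)‖) ^ m ρ) * ‖g z‖ := by
              refine mul_le_mul_of_nonneg_right ?_ (norm_nonneg _)
              exact Finset.prod_le_prod (fun _ _ => norm_nonneg _) h1
          _ = _ := by rw [Finset.prod_mul_distrib]; ring
      have h3 := posLog_le_posLog (norm_nonneg _) h2
      have h4 : log⁺ (‖T z‖ * C) ≤ log⁺ ‖T z‖ + log⁺ C := posLog_mul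
      have h5 := hbd z hz
      have h6 : 0 ≤ log⁺ C' := posLog_nonneg
      linarith [le_abs_self A]
  -- the values
  set Zs : ℝ := ∑ ρ ∈ S, (m ρ : ℝ) * loss h (p ρ) with hZs
  have hloss0 : ∀ ρ ∈ S, 0 ≤ loss h (p ρ) := by
    intro ρ hρ
    have := abs_lt.1 (hS ρ hρ)
    unfold loss
    have e4 : 0 < h + (p ρ).re := by linarith [this.1]
    positivity
  have hZ0 : 0 ≤ Zs := Finset.sum_nonneg fun ρ hρ => mul_nonneg (Nat.cast_nonneg _) (hloss0 ρ hρ)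
  have hright : ∀ y : ℝ, ‖W ((h : ℂ) + y * Complex.I)‖ ≤ Real.exp (up y + Zs) := by
    intro y
    have hz : |((h : ℂ) + y * Complex.I).re| ≤ h := by simp [abs_of_pos hh]
    have hz' : ((h : ℂ) + y * Complex.I).re = h := by simp
    rw [Real.exp_add, hZs, Real.exp_sum]
    have h1 := hFp y
    refine le_trans ?_ (mul_le_mul_of_nonneg_right h1 (by positivity))
    simp only [hW]
    rw [hT _ hz, norm_mul, norm_mul, norm_prod, norm_prod]
    calc (∏ ρ ∈ S, ‖((h : ℂ) + y * Complex.I - rf h (p ρ)) ^ m ρ‖) * ‖g (h + y * Complex.I)‖ ≤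
        (∏ ρ ∈ S, ‖((h : ℂ) + y * Complex.I - p ρ) ^ m ρ‖ * Real.exp (m ρ * loss h (p ρ))) *
          ‖g (h + y * Complex.I)‖ := by
          refine mul_le_mul_of_nonneg_right ?_ (norm_nonneg _)
          refine Finset.prod_le_prod (fun _ _ => norm_nonneg _) fun ρ hρ => ?_
          rw [norm_pow, norm_pow, Real.exp_nat_mul, ← mul_pow]
          exact pow_le_pow_left₀ (norm_nonneg _) (norm_right hz' hh (hS ρ hρ)) _
      _ = _ := by rw [Finset.prod_mul_distrib]; ring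
  have hleft : ∀ y : ℝ, ‖W (-(h : ℂ) + y * Complex.I)‖ ≤ Real.exp (um y) := by
    intro y
    have hz : |(-(h : ℂ) + y * Complex.I).re| ≤ h := by simp [abs_of_pos hh]
    have hz' : (-(h : ℂ) + y * Complex.I).re = -h := by simp
    refine le_trans (le_of_eq ?_) (hFm y)
    simp only [hW]
    rw [hT _ hz, norm_mul, norm_mul, norm_prod, norm_prod]
    congr 1
    refine Finset.prod_congr rfl fun ρ hρ => ?_
    rw [norm_pow, norm_pow, norm_left hz']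
  have hcenter : ‖W 0‖ = ‖T 0‖ * Real.exp (∑ ρ ∈ S, (m ρ : ℝ) * gain h (p ρ)) := by
    have hne := h0
    rw [hT 0 hz0] at hne
    have hne2 : ∀ ρ ∈ S, (0 - p ρ) ^ m ρ ≠ 0 := fun ρ hρ =>
      Finset.prod_ne_zero_iff.1 (left_ne_zero_of_mul hne) ρ hρ
    simp only [hW]
    rw [hT 0 hz0, norm_mul, norm_mul, norm_prod, norm_prod, Real.exp_sum]
    have : ∀ ρ ∈ S, ‖(0 - rf h (p ρ)) ^ m ρ‖ = ‖(0 - p ρ) ^ m ρ‖ * Real.exp (m ρ * gain h (p ρ)) := by
      intro ρ hρ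
      rw [norm_pow, norm_pow, Real.exp_nat_mul, ← mul_pow]
      rcases Nat.eq_zero_or_pos (m ρ) with hm | hm
      · rw [hm, pow_zero, pow_zero]
      · have hρ0 : p ρ ≠ 0 := by
          intro h1
          apply hne2 ρ hρ
          rw [h1, sub_zero]
          exact zero_pow hm.ne'
        rw [norm_zero_eq hh (hS ρ hρ) hρ0]
    rw [Finset.prod_congr rfl this, Finset.prod_mul_distrib]
    ring
  have hK1 := K_integrable hh half_mem (Or.inl rfl : (1:ℝ) = 1 ∨ (1:ℝ) = -1)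
  have hupZ : Integrable (fun y => K h (π / 2) 1 y * (up y + Zs)) := by
    refine (hup.add (hK1.mul_const Zs)).congr (Eventually.of_forall fun y => ?_)
    simp only [Pi.add_apply]
    ring
  have key := strip_point (F := W) (A := A') (B := B) (φ := π / 2)
    (up := fun y => up y + Zs) (um := um) (N := N) hh half_mem hWan hB hA' hupZ hum
    (fun y => by linarith [hNp y]) hNm hright hleft
  have hpt : ((2 * h * (π / 2) / π - h : ℝ) : ℂ) = 0 := by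
    have := Real.pi_pos
    have : 2 * h * (π / 2) / π - h = 0 := by field_simp; ring
    rw [this]; simp
  rw [hpt, hcenter] at key
  have hT0 : 0 < ‖T 0‖ := norm_pos_iff.2 h0
  have h1 := Real.log_le_log (by positivity) key
  rw [Real.log_mul hT0.ne' (Real.exp_pos _).ne', Real.log_exp, Real.log_exp] at h1
  refine h1.trans (le_of_eq ?_)
  have e1 : (fun y => K h (π / 2) 1 y * (up y + Zs)) = fun y => K h (π / 2) 1 y * up y +
      K h (π / 2) 1 y * Zs := by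
    funext y; ring
  rw [e1, integral_add hup (hK1.mul_const Zs), integral_mul_const, K_mass_one hh half_mem]
  have := Real.pi_pos
  field_simp
  ring

end Pool.Agent.R402.Bla
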