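import Mathlib
set_option autoImplicit false
open MeasureTheory Filter Topology Set Complex Metric
open scoped ENNReal NNReal Real

/-! Herglotz integrals and the Harnack inequality along radii. -/

namespace Pool.Agent.R402.Cy

noncomputable def ker (z : ℂ) (θ : ℝ) : ℂ := (exp (θ * I) + z) / (exp (θ * I) - z)
noncomputable def ker' (z : ℂ) (θ : ℝ) : ℂ := 2 * exp (θ * I) / (exp (θ * I) - z) ^ 2
noncomputable def nu : Measure ℝ := volume.restrict (Ioc 0 (2 * π))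
noncomputable def Hg (φ : ℝ → ℝ) (z : ℂ) : ℂ :=
  ((1 / (2 * π) : ℝ) : ℂ) * ∫ θ, ker z θ * (φ θ : ℂ) ∂nu
noncomputable def Pk (z : ℂ) (θ : ℝ) : ℝ := (1 - ‖z‖ ^ 2) / ‖exp (θ * I) - z‖ ^ 2

instance : IsFiniteMeasure nu := by unfold nu; infer_instance

theorem norm_e (θ : ℝ) : ‖exp (θ * I)‖ = 1 := norm_exp_ofReal_mul_I θ

theorem den_ge (z : ℂ) (θ : ℝ) : 1 - ‖z‖ ≤ ‖exp (θ * I) - z‖ := by
  have := norm_sub_norm_le (exp (θ * I)) z
  rwa [norm_e] at this

theorem den_ne {z : ℂ} (hz : ‖z‖ < 1) (θ : ℝ) : exp (θ * I) - z ≠ 0 := by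
  intro h
  have := den_ge z θ
  rw [h, norm_zero] at this
  linarith

theorem ker_norm_le {z : ℂ} (hz : ‖z‖ < 1) (θ : ℝ) : ‖ker z θ‖ ≤ 2 / (1 - ‖z‖) := by
  unfold ker
  rw [norm_div]
  apply div_le_div₀ (by norm_num) _ (by linarith) (den_ge z θ)
  calc ‖exp (θ * I) + z‖ ≤ ‖exp (θ * I)‖ + ‖z‖ := norm_add_le _ _
    _ ≤ 2 := by rw [norm_e]; linarith

theorem ker'_norm_le {z : ℂ} {ρ : ℝ} (hρ : ρ < 1) (hz : ‖z‖ ≤ ρ) (θ : ℝ) :
    ‖ker' z θ‖ ≤ 2 / (1 - ρ) ^ 2 := by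
  unfold ker'
  rw [norm_div, norm_mul, norm_e, norm_pow]
  have h1 := den_ge z θ
  apply div_le_div₀ (by norm_num) (by simp) (pow_pos (by linarith) 2)
  exact pow_le_pow_left₀ (by linarith) (by linarith) 2

theorem ker_deriv {z : ℂ} (hz : ‖z‖ < 1) (θ : ℝ) :
    HasDerivAt (fun z => ker z θ) (ker' z θ) z := by
  unfold ker ker'
  have h1 : HasDerivAt (fun z : ℂ => exp (θ * I) + z) 1 z := (hasDerivAt_id z).const_add _
  have h2 : HasDerivAt (fun z : ℂ => exp (θ * I) - z) (-1) z := (hasDerivAt_id z).const_sub _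
  refine (h1.div h2 (den_ne hz θ)).congr_deriv ?_
  congr 1
  ring

theorem ker_meas (z : ℂ) : Measurable (fun θ => ker z θ) := by
  unfold ker
  have h : Measurable (fun θ : ℝ => exp (θ * I)) := by fun_prop
  exact (h.add measurable_const).div (h.sub measurable_const)

theorem ker'_meas (z : ℂ) : Measurable (fun θ => ker' z θ) := by
  unfold ker'
  have h : Measurable (fun θ : ℝ => exp (θ * I)) := by fun_prop
  exact (measurable_const.mul h).div ((h.sub measurable_const).pow_const 2)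

theorem ker_int {φ : ℝ → ℝ} (hφ : Integrable φ nu) {z : ℂ} (hz : ‖z‖ < 1) :
    Integrable (fun θ => ker z θ * (φ θ : ℂ)) nu := by
  have h1 : Integrable (fun θ => (φ θ : ℂ)) nu := hφ.ofReal
  have h2 := h1.mul_bdd (g := fun θ => ker z θ) (c := 2 / (1 - ‖z‖))
    (ker_meas z).aestronglyMeasurable
    (Eventually.of_forall fun θ => ker_norm_le hz θ)
  refine h2.congr (Eventually.of_forall fun θ => ?_)
  simp only
  ring

theorem Hg_diff {φ : ℝ → ℝ} (hφ : Integrable φ nu) :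
    DifferentiableOn ℂ (Hg φ) (ball 0 1) := by
  intro x₀ hx₀
  rw [mem_ball_zero_iff] at hx₀
  set ρ := (‖x₀‖ + 1) / 2 with hρ
  have hρ1 : ρ < 1 := by rw [hρ]; linarith
  have hρ2 : ‖x₀‖ < ρ := by rw [hρ]; linarith
  have hopen : IsOpen {z : ℂ | ‖z‖ < ρ} := isOpen_lt continuous_norm continuous_const
  have hs : {z : ℂ | ‖z‖ < ρ} ∈ 𝓝 x₀ := hopen.mem_nhds hρ2
  have hφc : AEStronglyMeasurable (fun θ => (φ θ : ℂ)) nu := hφ.ofReal.aestronglyMeasurable
  have key := hasDerivAt_integral_of_dominated_loc_of_deriv_le (μ := nu)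
    (F := fun z θ => ker z θ * (φ θ : ℂ)) (F' := fun z θ => ker' z θ * (φ θ : ℂ))
    (bound := fun θ => 2 / (1 - ρ) ^ 2 * |φ θ|) hs
    (Eventually.of_forall fun z => (ker_meas z).aestronglyMeasurable.mul hφc)
    (ker_int hφ hx₀) ((ker'_meas x₀).aestronglyMeasurable.mul hφc)
    (Eventually.of_forall fun θ z hz => ?_) (hφ.abs.const_mul _)
    (Eventually.of_forall fun θ z hz => ?_)
  · exact ((key.2.const_mul _).differentiableAt).differentiableWithinAt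
  · have hz' : ‖z‖ < ρ := hz
    rw [norm_mul, Complex.norm_real, Real.norm_eq_abs]
    exact mul_le_mul_of_nonneg_right (ker'_norm_le hρ1 hz'.le θ) (abs_nonneg _)
  · have hz' : ‖z‖ < ρ := hz
    exact (ker_deriv (hz'.trans hρ1) θ).mul_const _

theorem ker_re {z : ℂ} (hz : ‖z‖ < 1) (θ : ℝ) : (ker z θ).re = Pk z θ := by
  have hd := den_ne hz θ
  unfold ker Pk
  set e := exp (θ * I) with he
  have he1 : normSq e = 1 := by rw [normSq_eq_norm_sq, he, norm_e]; norm_num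
  rw [← normSq_eq_norm_sq, ← normSq_eq_norm_sq, div_re, ← add_div]
  congr 1
  simp only [normSq_apply, add_re, sub_re, add_im, sub_im] at he1 ⊢
  nlinarith

theorem Pk_nonneg {z : ℂ} (hz : ‖z‖ < 1) (θ : ℝ) : 0 ≤ Pk z θ := by
  unfold Pk
  have : ‖z‖ ^ 2 ≤ 1 := by nlinarith [norm_nonneg z]
  exact div_nonneg (by linarith) (by positivity)

theorem Hg_re {φ : ℝ → ℝ} (hφ : Integrable φ nu) {z : ℂ} (hz : ‖z‖ < 1) :
    (Hg φ z).re = 1 / (2 * π) * ∫ θ, Pk z θ * φ θ ∂nu := by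
  unfold Hg
  rw [re_ofReal_mul]
  congr 1
  have h4 : (∫ θ, ker z θ * (φ θ : ℂ) ∂nu).re = ∫ θ, (ker z θ * (φ θ : ℂ)).re ∂nu :=
    (Complex.reCLM.integral_comp_comm (ker_int hφ hz)).symm
  rw [h4]
  apply integral_congr_ae
  refine Eventually.of_forall fun θ => ?_
  simp only
  rw [re_mul_ofReal, ker_re hz]

theorem Pk_int {φ : ℝ → ℝ} (hφ : Integrable φ nu) {z : ℂ} (hz : ‖z‖ < 1) :
    Integrable (fun θ => Pk z θ * φ θ) nu := by
  have h := (ker_int hφ hz).re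
  refine h.congr (Eventually.of_forall fun θ => ?_)
  simp only [RCLike.re_eq_complex_re]
  rw [re_mul_ofReal, ker_re hz]

theorem Hg_re_mono {φ ψ : ℝ → ℝ} (hφ : Integrable φ nu) (hψ : Integrable ψ nu)
    (h : ∀ θ, φ θ ≤ ψ θ) {z : ℂ} (hz : ‖z‖ < 1) : (Hg φ z).re ≤ (Hg ψ z).re := by
  rw [Hg_re hφ hz, Hg_re hψ hz]
  apply mul_le_mul_of_nonneg_left _ (by positivity)
  apply integral_mono (Pk_int hφ hz) (Pk_int hψ hz)
  intro θ
  exact mul_le_mul_of_nonneg_left (h θ) (Pk_nonneg hz θ)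

theorem Hg_zero' (z : ℂ) : Hg (fun _ => 0) z = 0 := by
  unfold Hg; simp

theorem Hg_re_nonneg {φ : ℝ → ℝ} (hφ : Integrable φ nu) (h : ∀ θ, 0 ≤ φ θ) {z : ℂ}
    (hz : ‖z‖ < 1) : 0 ≤ (Hg φ z).re := by
  have := Hg_re_mono (integrable_zero _ _ _) hφ h hz
  rwa [show Hg (0 : ℝ → ℝ) z = 0 from Hg_zero' z, zero_re] at this

theorem Hg_add {φ ψ : ℝ → ℝ} (hφ : Integrable φ nu) (hψ : Integrable ψ nu) {z : ℂ}
    (hz : ‖z‖ < 1) : Hg (fun θ => φ θ + ψ θ) z = Hg φ z + Hg ψ z := by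
  unfold Hg
  rw [← mul_add, ← integral_add (ker_int hφ hz) (ker_int hψ hz)]
  congr 1
  apply integral_congr_ae
  refine Eventually.of_forall fun θ => ?_
  simp only
  push_cast
  ring

theorem Hg_smul (c : ℝ) (φ : ℝ → ℝ) (z : ℂ) : Hg (fun θ => c * φ θ) z = c * Hg φ z := by
  unfold Hg
  have h : ∫ θ, ker z θ * ((c * φ θ : ℝ) : ℂ) ∂nu = (c : ℂ) * ∫ θ, ker z θ * (φ θ : ℂ) ∂nu := by
    rw [← integral_const_mul]
    apply integral_congr_ae
    refine Eventually.of_forall fun θ => ?_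
    simp only
    push_cast
    ring
  rw [h]
  ring

theorem Hg_sub {φ ψ : ℝ → ℝ} (hφ : Integrable φ nu) (hψ : Integrable ψ nu) {z : ℂ}
    (hz : ‖z‖ < 1) : Hg (fun θ => φ θ - ψ θ) z = Hg φ z - Hg ψ z := by
  have h1 := Hg_add hφ (hψ.const_mul (-1)) hz
  have h2 := Hg_smul (-1) ψ z
  rw [h2] at h1
  have e : (fun θ => φ θ - ψ θ) = fun θ => φ θ + -1 * ψ θ := by ext θ; ring
  rw [e, h1]
  push_cast
  ring

theorem Hg_one {z : ℂ} (hz : ‖z‖ < 1) : Hg (fun _ => 1) z = 1 := by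
  have hz' : z ∈ ball (0:ℂ) 1 := mem_ball_zero_iff.2 hz
  have h1 := circleIntegral.integral_sub_inv_of_mem_ball hz'
  have h2 := circleIntegral.integral_sub_inv_of_mem_ball (mem_ball_self (x := (0:ℂ)) one_pos)
  have e1 : ∫ θ, ker z θ * (((1:ℝ)) : ℂ) ∂nu = ∫ θ in (0:ℝ)..2 * π, ker z θ := by
    rw [intervalIntegral.integral_of_le (by positivity)]
    unfold nu
    simp
  unfold Hg
  rw [e1]
  rw [circleIntegral] at h1 h2
  have hc1 : IntervalIntegrable (fun θ : ℝ => deriv (circleMap 0 1) θ • (circleMap 0 1 θ - z)⁻¹)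
      volume 0 (2 * π) := by
    apply ContinuousOn.intervalIntegrable
    apply Continuous.continuousOn
    have hne : ∀ θ : ℝ, circleMap 0 1 θ - z ≠ 0 := by
      intro θ
      have := den_ne hz θ
      simpa [circleMap] using this
    have hc : Continuous (fun θ : ℝ => (circleMap 0 1 θ - z)⁻¹) :=
      Continuous.inv₀ (by fun_prop) hne
    have hd : Continuous (fun θ : ℝ => deriv (circleMap 0 1) θ) := by
      have : deriv (circleMap 0 1) = fun θ => circleMap 0 1 θ * I := by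
        ext θ; rw [deriv_circleMap]
      rw [this]; fun_prop
    exact hd.smul hc
  have hc2 : IntervalIntegrable (fun θ : ℝ => deriv (circleMap 0 1) θ • (circleMap 0 1 θ - 0)⁻¹)
      volume 0 (2 * π) := by
    apply ContinuousOn.intervalIntegrable
    apply Continuous.continuousOn
    have hne : ∀ θ : ℝ, circleMap 0 1 θ - 0 ≠ 0 := by
      intro θ
      simp [circleMap]
    have hc : Continuous (fun θ : ℝ => (circleMap 0 1 θ - 0)⁻¹) :=
      Continuous.inv₀ (by fun_prop) hne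
    have hd : Continuous (fun θ : ℝ => deriv (circleMap 0 1) θ) := by
      have : deriv (circleMap 0 1) = fun θ => circleMap 0 1 θ * I := by
        ext θ; rw [deriv_circleMap]
      rw [this]; fun_prop
    exact hd.smul hc
  have h3 : ∫ θ in (0:ℝ)..2 * π, ker z θ * I = 2 * π * I := by
    have h4 := intervalIntegral.integral_sub (hc1.const_mul 2) hc2
    rw [intervalIntegral.integral_const_mul, h1, h2] at h4
    have h5 : (fun θ : ℝ => ker z θ * I) = fun θ : ℝ =>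
        2 * (deriv (circleMap 0 1) θ • (circleMap 0 1 θ - z)⁻¹)
        - deriv (circleMap 0 1) θ • (circleMap 0 1 θ - 0)⁻¹ := by
      ext θ
      rw [deriv_circleMap]
      have hd := den_ne hz θ
      have e2 : circleMap 0 1 θ = exp (θ * I) := by simp [circleMap]
      rw [e2, smul_eq_mul, smul_eq_mul, sub_zero]
      unfold ker
      have he : exp (θ * I) ≠ 0 := exp_ne_zero _
      field_simp
      ring
    rw [h5, h4]
    ring
  rw [intervalIntegral.integral_mul_const] at h3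
  have h6 : ∫ θ in (0:ℝ)..2 * π, ker z θ = 2 * π := mul_right_cancel₀ I_ne_zero h3
  rw [h6]
  have : (π : ℂ) ≠ 0 := by exact_mod_cast Real.pi_ne_zero
  push_cast
  field_simp

theorem Hg_re_le {φ : ℝ → ℝ} (hφ : Integrable φ nu) {M : ℝ} (h : ∀ θ, φ θ ≤ M) {z : ℂ}
    (hz : ‖z‖ < 1) : (Hg φ z).re ≤ M := by
  have h1 := Hg_re_mono hφ (integrable_const M) h hz
  have h2 := Hg_smul M (fun _ => 1) z
  rw [Hg_one hz] at h2
  simp only [mul_one] at h2
  rw [h2, ofReal_re] at h1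
  exact h1

theorem Pk_harnack {z : ℂ} (hz : ‖z‖ < 1) {r : ℝ} (hr1 : r ≤ 1) (hr : ‖z‖ ≤ r) (θ : ℝ) :
    Pk z θ ≤ 4 * Pk (r * z) θ := by
  have hr0 : 0 ≤ r := (norm_nonneg z).trans hr
  have hn : ‖(r : ℂ) * z‖ = r * ‖z‖ := by
    rw [norm_mul, Complex.norm_real, Real.norm_of_nonneg hr0]
  have hz0 := norm_nonneg z
  have hrz : ‖(r : ℂ) * z‖ ≤ ‖z‖ := by rw [hn]; nlinarith
  have hrz1 : ‖(r : ℂ) * z‖ < 1 := lt_of_le_of_lt hrz hz
  unfold Pk
  have h1 := den_ge z θ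
  have hd : 0 < ‖exp (θ * I) - z‖ := norm_pos_iff.2 (den_ne hz θ)
  have hd2 : 0 < ‖exp (θ * I) - r * z‖ := norm_pos_iff.2 (den_ne hrz1 θ)
  have h2 : ‖exp (θ * I) - r * z‖ ≤ 2 * ‖exp (θ * I) - z‖ := by
    have e : exp (θ * I) - r * z = (exp (θ * I) - z) + (((1 - r : ℝ) : ℂ) * z) := by
      push_cast; ring
    rw [e]
    refine (norm_add_le _ _).trans ?_
    rw [norm_mul, Complex.norm_real, Real.norm_of_nonneg (by linarith)]
    have : (1 - r) * ‖z‖ ≤ 1 - ‖z‖ := by nlinarith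
    linarith
  rw [mul_div_assoc', div_le_div_iff₀ (by positivity) (by positivity)]
  have h3 : ‖exp (θ * I) - r * z‖ ^ 2 ≤ 4 * ‖exp (θ * I) - z‖ ^ 2 := by nlinarith
  have h4 : 1 - ‖z‖ ^ 2 ≤ 1 - ‖(r : ℂ) * z‖ ^ 2 := by
    have := pow_le_pow_left₀ (norm_nonneg _) hrz 2
    linarith
  have h5 : 0 ≤ 1 - ‖z‖ ^ 2 := by nlinarith
  nlinarith [mul_le_mul h4 h3 (by positivity) (by linarith)]

theorem Hg_harnack {φ : ℝ → ℝ} (hφ : Integrable φ nu) (h : ∀ θ, 0 ≤ φ θ) {z : ℂ} (hz : ‖z‖ < 1)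
    {r : ℝ} (hr1 : r ≤ 1) (hr : ‖z‖ ≤ r) : (Hg φ z).re ≤ 4 * (Hg φ (r * z)).re := by
  have hr0 : 0 ≤ r := (norm_nonneg z).trans hr
  have hn : ‖(r : ℂ) * z‖ = r * ‖z‖ := by
    rw [norm_mul, Complex.norm_real, Real.norm_of_nonneg hr0]
  have hz0 := norm_nonneg z
  have hrz1 : ‖(r : ℂ) * z‖ < 1 := by rw [hn]; nlinarith
  rw [Hg_re hφ hz, Hg_re hφ hrz1]
  have h1 : ∫ θ, Pk z θ * φ θ ∂nu ≤ ∫ θ, 4 * (Pk (r * z) θ * φ θ) ∂nu := by
    apply integral_mono (Pk_int hφ hz) ((Pk_int hφ hrz1).const_mul 4)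
    intro θ
    simp only
    rw [← mul_assoc]
    exact mul_le_mul_of_nonneg_right (Pk_harnack hz hr1 hr θ) (h θ)
  rw [integral_const_mul] at h1
  have h2 : 0 ≤ 1 / (2 * π) := by positivity
  nlinarith [mul_le_mul_of_nonneg_left h1 h2]

end Pool.Agent.R402.Cy
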