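import Mathlib
import Pool.Agent.Helper156.Ess.LP
import Pool.Agent.Helper156.Ess.Jensen
import Pool.Agent.R402.CyA
set_option autoImplicit false
open MeasureTheory Filter Topology Set Complex Metric
open scoped ENNReal NNReal Real

/-! The weighted integral, Littlewood-Paley for bounded functions, tails. -/

namespace Pool.Agent.R402.Cy
open Pool.Agent.Helper156.Ess (mT H2 ev exists_ev lp_identity circle_lint polar_sm norm_sq' shift_sum)

/-- weighted `p`-integral over the disc -/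
noncomputable def Iw (p : ℝ) (g : ℂ → ℂ) : ℝ≥0∞ :=
  ∫⁻ z in ball (0 : ℂ) 1, ENNReal.ofReal ((1 - ‖z‖) ^ (p - 1)) * ‖g z‖ₑ ^ p

noncomputable def An (ρ : ℝ) : Set ℂ := ball 0 1 ∩ {z | ρ < ‖z‖}

noncomputable def rr (n : ℕ) : ℝ := 1 - (1 / 2) ^ n

theorem rr_lt (n : ℕ) : rr n < 1 := by unfold rr; have : (0:ℝ) < (1/2)^n := by positivity
                                       linarith
theorem rr_nonneg (n : ℕ) : 0 ≤ rr n := by
  unfold rr
  have : ((1:ℝ)/2)^n ≤ 1 := pow_le_one₀ (by norm_num) (by norm_num)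
  linarith
theorem rr_tendsto : Tendsto rr atTop (𝓝 1) := by
  unfold rr
  have h : Tendsto (fun n : ℕ => ((1:ℝ) / 2) ^ n) atTop (𝓝 0) :=
    tendsto_pow_atTop_nhds_zero_of_lt_one (by norm_num) (by norm_num)
  simpa using h.const_sub 1
theorem rr_mono : Monotone rr := by
  intro m n h
  unfold rr
  have : ((1:ℝ)/2)^n ≤ (1/2)^m := pow_le_pow_of_le_one (by norm_num) (by norm_num) h
  linarith

theorem An_meas (ρ : ℝ) : MeasurableSet (An ρ) :=
  measurableSet_ball.inter (measurableSet_lt measurable_const measurable_norm)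

theorem tail_tendsto {g : ℂ → ℝ≥0∞} (hg : ∫⁻ z in ball (0 : ℂ) 1, g z ≠ ∞) :
    Tendsto (fun n => ∫⁻ z in An (rr n), g z) atTop (𝓝 0) := by
  have h1 : ∀ n, ∫⁻ z in An (rr n), g z =
      ∫⁻ z in {z | rr n < ‖z‖}, g z ∂(volume.restrict (ball (0:ℂ) 1)) := by
    intro n
    rw [Measure.restrict_restrict (measurableSet_lt measurable_const measurable_norm)]
    unfold An
    rw [inter_comm]
  simp only [h1]
  apply tendsto_setLIntegral_zero hg
  have h2 : (⋂ n, {z : ℂ | rr n < ‖z‖}) ∩ ball 0 1 = ∅ := by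
    ext z
    simp only [mem_inter_iff, mem_iInter, mem_ball_zero_iff, mem_empty_iff_false, iff_false,
      not_and, not_lt]
    intro h
    exact le_of_tendsto rr_tendsto (Eventually.of_forall fun n => (h n).le)
  have h3 := tendsto_measure_iInter_atTop (μ := volume.restrict (ball (0:ℂ) 1))
    (s := fun n => {z : ℂ | rr n < ‖z‖})
    (fun n => (measurableSet_lt measurable_const measurable_norm).nullMeasurableSet)
    (fun m n h z hz => lt_of_le_of_lt (rr_mono h) hz)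
    ⟨0, by
      rw [Measure.restrict_apply' measurableSet_ball]
      exact (lt_of_le_of_lt (measure_mono inter_subset_right) measure_ball_lt_top).ne⟩
  have h4 : (volume.restrict (ball (0:ℂ) 1)) (⋂ n, {z : ℂ | rr n < ‖z‖}) = 0 := by
    rw [Measure.restrict_apply' measurableSet_ball, h2, measure_empty]
  rw [h4] at h3
  exact h3

/-- bounded analytic functions are in `H²` -/
theorem bdd_ev {B : ℂ → ℂ} (hB : DifferentiableOn ℂ B (ball 0 1)) {C : ℝ}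
    (hC : ∀ z ∈ ball (0:ℂ) 1, ‖B z‖ ≤ C) :
    ∃ F : H2, (∀ z ∈ ball (0 : ℂ) 1, ev F z = B z) ∧ ‖F‖ ^ 2 ≤ C ^ 2 := by
  have hC0 : 0 ≤ C := (norm_nonneg _).trans (hC 0 (mem_ball_self one_pos))
  apply exists_ev hB (by positivity)
  intro r h0 h1
  have hz : ∀ θ, circleMap 0 r θ ∈ ball (0:ℂ) 1 := by
    intro θ
    rw [mem_ball_zero_iff, norm_circleMap_zero, abs_of_nonneg h0]; exact h1
  calc ∫ θ : ℝ, ‖B (circleMap 0 r θ)‖ ^ 2 ∂mT ≤ ∫ θ : ℝ, C ^ 2 ∂mT := by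
        apply integral_mono_of_nonneg (Eventually.of_forall fun θ => by positivity)
          (integrable_const _)
        exact Eventually.of_forall fun θ =>
          pow_le_pow_left₀ (norm_nonneg _) (hC _ (hz θ)) 2
    _ = C ^ 2 := by simp

theorem deriv_ev_eq {B : ℂ → ℂ} {F : H2} (h : ∀ z ∈ ball (0 : ℂ) 1, ev F z = B z) {z : ℂ}
    (hz : z ∈ ball (0:ℂ) 1) : deriv (ev F) z = deriv B z := by
  apply Filter.EventuallyEq.deriv_eq
  filter_upwards [isOpen_ball.mem_nhds hz] with w hw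
  exact h w hw

theorem ev_zero (F : H2) : ev F 0 = F 0 := by
  unfold ev
  rw [tsum_eq_single 0]
  · simp
  · intro n hn; simp [hn]

/-- Littlewood-Paley for bounded functions. -/
theorem lp_bdd {B : ℂ → ℂ} (hB : DifferentiableOn ℂ B (ball 0 1)) {C : ℝ}
    (hC : ∀ z ∈ ball (0:ℂ) 1, ‖B z‖ ≤ C) :
    ∫⁻ z in ball (0 : ℂ) 1, ENNReal.ofReal (‖deriv B z‖ ^ 2 * (1 - ‖z‖)) ≤
      ENNReal.ofReal (π * (C ^ 2 - ‖B 0‖ ^ 2)) := by
  obtain ⟨F, h1, h2⟩ := bdd_ev hB hC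
  have h3 : ∫⁻ z in ball (0 : ℂ) 1, ENNReal.ofReal (‖deriv B z‖ ^ 2 * (1 - ‖z‖)) ≤
      ∫⁻ z in ball (0 : ℂ) 1, ENNReal.ofReal (‖deriv (ev F) z‖ ^ 2 * (1 - ‖z‖ ^ 2)) := by
    apply setLIntegral_mono' measurableSet_ball
    intro z hz
    rw [deriv_ev_eq h1 hz]
    apply ENNReal.ofReal_le_ofReal
    apply mul_le_mul_of_nonneg_left _ (by positivity)
    rw [mem_ball_zero_iff] at hz
    nlinarith [norm_nonneg z]
  refine h3.trans ?_
  rw [lp_identity]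
  calc ∑' k : ℕ, ENNReal.ofReal (π * ‖F (k + 1)‖ ^ 2 * (((k : ℝ) + 1) / ((k : ℝ) + 2)))
      ≤ ∑' k : ℕ, ENNReal.ofReal (π * ‖F (k + 1)‖ ^ 2) := by
        apply ENNReal.tsum_le_tsum
        intro k
        apply ENNReal.ofReal_le_ofReal
        apply mul_le_of_le_one_right (by positivity)
        rw [div_le_one (by positivity)]
        linarith
    _ = ENNReal.ofReal (π * ∑' n, ‖F (n + 1)‖ ^ 2) := by
        rw [← tsum_mul_left, ENNReal.ofReal_tsum_of_nonneg (fun k => by positivity)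
          ((shift_sum F).mul_left π)]
    _ ≤ ENNReal.ofReal (π * (C ^ 2 - ‖B 0‖ ^ 2)) := by
        apply ENNReal.ofReal_le_ofReal
        have h4 := norm_sq' F
        have h5 : B 0 = F 0 := by rw [← h1 0 (mem_ball_self one_pos), ev_zero]
        rw [h5]
        have := Real.pi_pos
        apply mul_le_mul_of_nonneg_left _ this.le
        linarith

theorem circle_mono {B : ℂ → ℂ} (hB : DifferentiableOn ℂ B (ball 0 1)) {C : ℝ}
    (hC : ∀ z ∈ ball (0:ℂ) 1, ‖B z‖ ≤ C) {s r : ℝ} (hs0 : 0 ≤ s) (hs1 : s < 1)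
    (hr0 : 0 ≤ r) (hr1 : r ≤ 1) :
    ∫⁻ θ in Ioo (-π) π, ENNReal.ofReal (‖deriv B (r * circleMap 0 s θ)‖ ^ 2) ≤
      ∫⁻ θ in Ioo (-π) π, ENNReal.ofReal (‖deriv B (circleMap 0 s θ)‖ ^ 2) := by
  obtain ⟨F, h1, h2⟩ := bdd_ev hB hC
  have hrs0 : 0 ≤ r * s := mul_nonneg hr0 hs0
  have hrs1 : r * s < 1 := by nlinarith
  have hz : ∀ t : ℝ, 0 ≤ t → t < 1 → ∀ θ, circleMap 0 t θ ∈ ball (0:ℂ) 1 := by
    intro t h0 h1 θ
    rw [mem_ball_zero_iff, norm_circleMap_zero, abs_of_nonneg h0]; exact h1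
  have e : ∀ θ, (r : ℂ) * circleMap 0 s θ = circleMap 0 (r * s) θ := by
    intro θ; simp [circleMap]; ring
  simp only [e]
  have e1 : ∀ t : ℝ, 0 ≤ t → t < 1 →
      ∫⁻ θ in Ioo (-π) π, ENNReal.ofReal (‖deriv B (circleMap 0 t θ)‖ ^ 2) =
      ENNReal.ofReal (2 * π * ∑' k : ℕ, ((k : ℝ) + 1) ^ 2 * ‖F (k + 1)‖ ^ 2 * t ^ (2 * k)) := by
    intro t h0 ht
    rw [← circle_lint F h0 ht]
    congr 1
    funext θ
    rw [deriv_ev_eq h1 (hz t h0 ht θ)]
  rw [e1 _ hrs0 hrs1, e1 _ hs0 hs1]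
  apply ENNReal.ofReal_le_ofReal
  apply mul_le_mul_of_nonneg_left _ (by positivity)
  apply Summable.tsum_le_tsum _ (Pool.Agent.Helper156.Ess.sq_coef_summable F hrs0 hrs1)
    (Pool.Agent.Helper156.Ess.sq_coef_summable F hs0 hs1)
  intro k
  apply mul_le_mul_of_nonneg_left _ (by positivity)
  apply pow_le_pow_left₀ hrs0
  nlinarith

theorem tail_scaled {B : ℂ → ℂ} (hB : DifferentiableOn ℂ B (ball 0 1)) {C : ℝ}
    (hC : ∀ z ∈ ball (0:ℂ) 1, ‖B z‖ ≤ C) {r : ℝ} (hr0 : 0 ≤ r) (hr1 : r ≤ 1) (ρ : ℝ) :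
    ∫⁻ z in An ρ, ENNReal.ofReal (‖deriv B (r * z)‖ ^ 2 * (1 - ‖z‖)) ≤
      ∫⁻ z in An ρ, ENNReal.ofReal (‖deriv B z‖ ^ 2 * (1 - ‖z‖)) := by
  have hmd := measurable_deriv B
  have hm1 : Measurable fun z : ℂ => ENNReal.ofReal (‖deriv B (r * z)‖ ^ 2 * (1 - ‖z‖)) := by
    have : Measurable fun z : ℂ => deriv B (r * z) := hmd.comp (measurable_const.mul measurable_id)
    fun_prop
  have hm2 : Measurable fun z : ℂ => ENNReal.ofReal (‖deriv B z‖ ^ 2 * (1 - ‖z‖)) := by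
    fun_prop
  have hset : MeasurableSet {z : ℂ | ρ < ‖z‖} := measurableSet_lt measurable_const measurable_norm
  have hrw : ∀ g : ℂ → ℝ≥0∞, ∫⁻ z in An ρ, g z =
      ∫⁻ z in ball (0:ℂ) 1, {z : ℂ | ρ < ‖z‖}.indicator g z := by
    intro g
    rw [lintegral_indicator hset, Measure.restrict_restrict hset]
    unfold An
    rw [inter_comm]
  rw [hrw, hrw, polar_sm _ (hm1.indicator hset), polar_sm _ (hm2.indicator hset)]
  apply setLIntegral_mono' measurableSet_Ioo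
  intro s hs
  gcongr ENNReal.ofReal s * ?_
  have hn : ∀ φ, ‖circleMap 0 s φ‖ = s := by
    intro φ; rw [norm_circleMap_zero, abs_of_pos hs.1]
  by_cases hρ : ρ < s
  · have e1 : ∀ φ, {z : ℂ | ρ < ‖z‖}.indicator (fun z : ℂ =>
        ENNReal.ofReal (‖deriv B (r * z)‖ ^ 2 * (1 - ‖z‖))) (circleMap 0 s φ) =
        ENNReal.ofReal (1 - s) * ENNReal.ofReal (‖deriv B (r * circleMap 0 s φ)‖ ^ 2) := by
      intro φ
      rw [indicator_of_mem (by rw [mem_ofPred_eq, hn]; exact hρ), hn, mul_comm,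
        ENNReal.ofReal_mul (by linarith [hs.2])]
    have e2 : ∀ φ, {z : ℂ | ρ < ‖z‖}.indicator (fun z : ℂ =>
        ENNReal.ofReal (‖deriv B z‖ ^ 2 * (1 - ‖z‖))) (circleMap 0 s φ) =
        ENNReal.ofReal (1 - s) * ENNReal.ofReal (‖deriv B (circleMap 0 s φ)‖ ^ 2) := by
      intro φ
      rw [indicator_of_mem (by rw [mem_ofPred_eq, hn]; exact hρ), hn, mul_comm,
        ENNReal.ofReal_mul (by linarith [hs.2])]
    simp only [e1, e2]
    rw [lintegral_const_mul' _ _ ENNReal.ofReal_ne_top, lintegral_const_mul' _ _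
      ENNReal.ofReal_ne_top]
    gcongr ENNReal.ofReal (1 - s) * ?_
    exact circle_mono hB hC hs.1.le hs.2 hr0 hr1
  · have e1 : ∀ φ, {z : ℂ | ρ < ‖z‖}.indicator (fun z : ℂ =>
        ENNReal.ofReal (‖deriv B (r * z)‖ ^ 2 * (1 - ‖z‖))) (circleMap 0 s φ) = 0 := by
      intro φ
      rw [indicator_of_notMem]
      rw [mem_ofPred_eq, hn]; exact hρ
    simp only [e1, lintegral_zero]
    exact zero_le

theorem cauchy_est {B : ℂ → ℂ} (hB : DifferentiableOn ℂ B (ball 0 1)) {C : ℝ}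
    (hC : ∀ z ∈ ball (0:ℂ) 1, ‖B z‖ ≤ C) {w : ℂ} (hw : ‖w‖ < 1) :
    ‖deriv B w‖ * (1 - ‖w‖) ≤ C := by
  have h : ∀ R : ℝ, 0 < R → R < 1 - ‖w‖ → ‖deriv B w‖ * R ≤ C := by
    intro R h0 h1
    have hsub : closedBall w R ⊆ ball (0:ℂ) 1 := by
      intro x hx
      rw [mem_closedBall, dist_eq_norm] at hx
      rw [mem_ball_zero_iff]
      calc ‖x‖ = ‖(x - w) + w‖ := by ring_nf
        _ ≤ ‖x - w‖ + ‖w‖ := norm_add_le _ _
        _ < 1 := by linarith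
    have hd : DiffContOnCl ℂ B (ball w R) := by
      apply DifferentiableOn.diffContOnCl
      rw [closure_ball w h0.ne']
      exact hB.mono hsub
    have := Complex.norm_deriv_le_of_forall_mem_sphere_norm_le h0 hd
      (fun z hz => hC z (hsub (sphere_subset_closedBall hz)))
    rwa [le_div_iff₀ h0] at this
  have hlim : Tendsto (fun R : ℝ => ‖deriv B w‖ * R) (𝓝[<] (1 - ‖w‖))
      (𝓝 (‖deriv B w‖ * (1 - ‖w‖))) :=
    (tendsto_id.const_mul _).mono_left nhdsWithin_le_nhds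
  refine le_of_tendsto hlim ?_
  have : Ioo 0 (1 - ‖w‖) ∈ 𝓝[<] (1 - ‖w‖) := Ioo_mem_nhdsLT (by linarith)
  filter_upwards [this] with R hR
  exact h R hR.1 hR.2

theorem p_bound {B : ℂ → ℂ} (hB : DifferentiableOn ℂ B (ball 0 1)) {C : ℝ}
    (hC : ∀ z ∈ ball (0:ℂ) 1, ‖B z‖ ≤ C) {p : ℝ} (hp : 2 ≤ p) {r : ℝ} (hr0 : 0 ≤ r)
    (hr1 : r ≤ 1) {z : ℂ} (hz : ‖z‖ < 1) :
    ENNReal.ofReal ((1 - ‖z‖) ^ (p - 1)) * ‖deriv B (r * z)‖ₑ ^ p ≤
      ENNReal.ofReal (C ^ (p - 2)) * ENNReal.ofReal (‖deriv B (r * z)‖ ^ 2 * (1 - ‖z‖)) := by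
  have hC0 : 0 ≤ C := (norm_nonneg _).trans (hC 0 (mem_ball_self one_pos))
  have hn : ‖(r : ℂ) * z‖ = r * ‖z‖ := by
    rw [norm_mul, Complex.norm_real, Real.norm_of_nonneg hr0]
  have hz0 := norm_nonneg z
  have hrz : ‖(r : ℂ) * z‖ ≤ ‖z‖ := by rw [hn]; nlinarith
  have h1 := cauchy_est hB hC (lt_of_le_of_lt hrz hz)
  set d := ‖deriv B (r * z)‖ with hd
  have hd0 : 0 ≤ d := norm_nonneg _
  set t := 1 - ‖z‖ with ht
  have ht0 : 0 < t := by rw [ht]; linarith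
  have h2 : d * t ≤ C := by
    refine le_trans ?_ h1
    apply mul_le_mul_of_nonneg_left _ hd0
    rw [ht]; linarith
  have e1 : ‖deriv B (r * z)‖ₑ ^ p = ENNReal.ofReal (d ^ p) := by
    rw [← ofReal_norm, ENNReal.ofReal_rpow_of_nonneg hd0 (by linarith)]
  rw [e1, ← ENNReal.ofReal_mul (by positivity), ← ENNReal.ofReal_mul (by positivity)]
  apply ENNReal.ofReal_le_ofReal
  have e2 : t ^ (p - 1) = t ^ (p - 2) * t := by
    rw [← Real.rpow_add_one ht0.ne']; congr 1; ring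
  have e3 : d ^ p = d ^ (p - 2) * d ^ 2 := by
    rcases hd0.eq_or_lt with h | h
    · rw [← h, Real.zero_rpow (by linarith)]; simp
    · rw [← Real.rpow_natCast d 2, ← Real.rpow_add h]; congr 1; push_cast; ring
  rw [e2, e3]
  have h3 : (d * t) ^ (p - 2) ≤ C ^ (p - 2) :=
    Real.rpow_le_rpow (by positivity) h2 (by linarith)
  rw [Real.mul_rpow hd0 ht0.le] at h3
  calc t ^ (p - 2) * t * (d ^ (p - 2) * d ^ 2) = (d ^ (p - 2) * t ^ (p - 2)) * (d ^ 2 * t) := by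
        ring
    _ ≤ C ^ (p - 2) * (d ^ 2 * t) := mul_le_mul_of_nonneg_right h3 (by positivity)

/-- weighted integral of the derivative of a bounded function -/
theorem Iw_bdd {B : ℂ → ℂ} (hB : DifferentiableOn ℂ B (ball 0 1)) {C : ℝ}
    (hC : ∀ z ∈ ball (0:ℂ) 1, ‖B z‖ ≤ C) {p : ℝ} (hp : 2 ≤ p) :
    Iw p (deriv B) ≤ ENNReal.ofReal (C ^ (p - 2)) * ENNReal.ofReal (π * (C ^ 2 - ‖B 0‖ ^ 2)) := by
  unfold Iw
  refine le_trans ?_ (mul_le_mul_right (lp_bdd hB hC) _)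
  rw [← lintegral_const_mul' _ _ ENNReal.ofReal_ne_top]
  apply setLIntegral_mono' measurableSet_ball
  intro z hz
  rw [mem_ball_zero_iff] at hz
  have := p_bound hB hC hp zero_le_one le_rfl hz
  simpa using this

/-- uniform tails -/
theorem tail_unif {B : ℂ → ℂ} (hB : DifferentiableOn ℂ B (ball 0 1)) {C : ℝ}
    (hC : ∀ z ∈ ball (0:ℂ) 1, ‖B z‖ ≤ C) {p : ℝ} (hp : 2 ≤ p) :
    Tendsto (fun n => ENNReal.ofReal (C ^ (p - 2)) *
      ∫⁻ z in An (rr n), ENNReal.ofReal (‖deriv B z‖ ^ 2 * (1 - ‖z‖))) atTop (𝓝 0) ∧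
    ∀ n, ∀ r : ℝ, 0 ≤ r → r ≤ 1 → ∫⁻ z in An (rr n),
      ENNReal.ofReal ((1 - ‖z‖) ^ (p - 1)) * ‖deriv B (r * z)‖ₑ ^ p ≤
      ENNReal.ofReal (C ^ (p - 2)) *
      ∫⁻ z in An (rr n), ENNReal.ofReal (‖deriv B z‖ ^ 2 * (1 - ‖z‖)) := by
  constructor
  · have h1 := tail_tendsto (g := fun z => ENNReal.ofReal (‖deriv B z‖ ^ 2 * (1 - ‖z‖)))
      (lt_of_le_of_lt (lp_bdd hB hC) ENNReal.ofReal_lt_top).ne
    have h2 := ENNReal.Tendsto.const_mul (a := ENNReal.ofReal (C ^ (p - 2))) h1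
      (Or.inr ENNReal.ofReal_ne_top)
    rwa [mul_zero] at h2
  · intro n r hr0 hr1
    refine le_trans ?_ (mul_le_mul_right (tail_scaled hB hC hr0 hr1 (rr n)) _)
    rw [← lintegral_const_mul' _ _ ENNReal.ofReal_ne_top]
    apply setLIntegral_mono' (An_meas _)
    intro z hz
    have hz1 : z ∈ ball (0:ℂ) 1 := hz.1
    rw [mem_ball_zero_iff] at hz1
    exact p_bound hB hC hp hr0 hr1 hz1

end Pool.Agent.R402.Cy
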