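import Mathlib
import Pool.Agent.R402.CyB
set_option autoImplicit false
open MeasureTheory Filter Topology Set Complex Metric
open scoped ENNReal NNReal Real

/-! Radial growth estimates. -/

namespace Pool.Agent.R402.Cy
open Pool.Agent.Helper156.Ess (polar_sm)

theorem circ_mem {s : ℝ} (h0 : 0 ≤ s) (h1 : s < 1) (θ : ℝ) : circleMap 0 s θ ∈ ball (0:ℂ) 1 := by
  rw [mem_ball_zero_iff, norm_circleMap_zero, abs_of_nonneg h0]; exact h1

theorem radial_ftc {f : ℂ → ℂ} (hf : DifferentiableOn ℂ f (ball 0 1)) {a b : ℝ} (ha : 0 ≤ a)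
    (hab : a ≤ b) (hb : b < 1) (θ : ℝ) :
    ‖f (circleMap 0 b θ)‖ₑ ≤ ‖f (circleMap 0 a θ)‖ₑ +
      ∫⁻ s in Ioc a b, ‖deriv f (circleMap 0 s θ)‖ₑ := by
  have hd : DifferentiableOn ℂ (deriv f) (ball 0 1) := hf.deriv isOpen_ball
  have hc : ContinuousOn (fun s : ℝ => exp (θ * I) * deriv f (circleMap 0 s θ)) (uIcc a b) := by
    apply ContinuousOn.mul continuousOn_const
    apply hd.continuousOn.comp
    · apply Continuous.continuousOn
      unfold circleMap
      fun_prop
    · intro s hs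
      rw [uIcc_of_le hab] at hs
      exact circ_mem (ha.trans hs.1) (lt_of_le_of_lt hs.2 hb) θ
  have hder : ∀ s ∈ uIcc a b, HasDerivAt (fun s : ℝ => f (circleMap 0 s θ))
      (exp (θ * I) * deriv f (circleMap 0 s θ)) s := by
    intro s hs
    rw [uIcc_of_le hab] at hs
    have h1 : HasDerivAt f (deriv f (circleMap 0 s θ)) (circleMap 0 s θ) :=
      (hf.differentiableAt (isOpen_ball.mem_nhds
        (circ_mem (ha.trans hs.1) (lt_of_le_of_lt hs.2 hb) θ))).hasDerivAt
    have h2 : HasDerivAt (fun s : ℝ => circleMap 0 s θ) (exp (θ * I)) s := by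
      unfold circleMap
      have h3 : HasDerivAt (fun s : ℝ => (s : ℂ)) 1 s := Complex.ofRealCLM.hasDerivAt
      have h4 := (h3.mul_const (exp (θ * I))).const_add (0:ℂ)
      simpa using h4
    have h5 := h1.comp s h2
    refine h5.congr_deriv ?_
    ring
  have h6 := intervalIntegral.integral_eq_sub_of_hasDerivAt hder hc.intervalIntegrable
  have h7 : f (circleMap 0 b θ) = f (circleMap 0 a θ) +
      ∫ s in a..b, exp (θ * I) * deriv f (circleMap 0 s θ) := by rw [h6]; ring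
  rw [h7]
  refine (enorm_add_le _ _).trans ?_
  gcongr
  rw [intervalIntegral.integral_of_le hab]
  refine (enorm_integral_le_lintegral_enorm _).trans ?_
  apply lintegral_mono
  intro s
  simp only
  rw [enorm_mul]
  have : ‖exp (θ * I)‖ₑ = 1 := by
    rw [← ofReal_norm, norm_exp_ofReal_mul_I, ENNReal.ofReal_one]
  rw [this, one_mul]

theorem inv_int {a b : ℝ} (ha : 0 ≤ a) (hab : a ≤ b) (hb : b < 1) :
    ∫⁻ s in Ioc a b, ENNReal.ofReal ((1 - s)⁻¹) ≤ ENNReal.ofReal (-Real.log (1 - b)) := by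
  have hder : ∀ s ∈ uIcc a b, HasDerivAt (fun s : ℝ => -Real.log (1 - s)) ((1 - s)⁻¹) s := by
    intro s hs
    rw [uIcc_of_le hab] at hs
    have h1 : (1 - s) ≠ 0 := by linarith [hs.2]
    have h2 : HasDerivAt (fun s : ℝ => 1 - s) (-1) s := (hasDerivAt_id s).const_sub 1
    refine (h2.log h1).neg.congr_deriv ?_
    rw [neg_div, neg_neg, one_div]
  have hc : ContinuousOn (fun s : ℝ => (1 - s)⁻¹) (uIcc a b) := by
    apply ContinuousOn.inv₀ (by fun_prop)
    intro s hs
    rw [uIcc_of_le hab] at hs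
    linarith [hs.2]
  have h6 := intervalIntegral.integral_eq_sub_of_hasDerivAt hder hc.intervalIntegrable
  rw [← ofReal_integral_eq_lintegral_ofReal]
  · rw [← intervalIntegral.integral_of_le hab, h6]
    apply ENNReal.ofReal_le_ofReal
    have : Real.log (1 - a) ≤ 0 := Real.log_nonpos (by linarith) (by linarith)
    linarith
  · exact (hc.intervalIntegrable).1
  · filter_upwards [ae_restrict_mem measurableSet_Ioc] with s hs
    have : 0 < 1 - s := by linarith [hs.2]
    simpa using this.le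

theorem radial_holder {f : ℂ → ℂ} {p : ℝ} (hp : 1 < p)
    {a b : ℝ} (ha : 0 ≤ a) (hab : a ≤ b) (hb : b < 1) (θ : ℝ) :
    (∫⁻ s in Ioc a b, ‖deriv f (circleMap 0 s θ)‖ₑ) ^ p ≤
      (∫⁻ s in Ioo a 1, ENNReal.ofReal ((1 - s) ^ (p - 1)) * ‖deriv f (circleMap 0 s θ)‖ₑ ^ p) *
      ENNReal.ofReal (-Real.log (1 - b)) ^ (p - 1) := by
  have hp0 : 0 < p := by linarith
  have hp1 : 0 < p - 1 := by linarith
  set q := p / (p - 1) with hq
  have hpq : p.HolderConjugate q := Real.HolderConjugate.conjExponent hp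
  have hm : Measurable fun s : ℝ => ‖deriv f (circleMap 0 s θ)‖ₑ := by
    apply Measurable.enorm
    apply (measurable_deriv f).comp
    unfold circleMap
    fun_prop
  set F : ℝ → ℝ≥0∞ := fun s => ENNReal.ofReal ((1 - s) ^ ((p - 1) / p)) *
    ‖deriv f (circleMap 0 s θ)‖ₑ with hF
  set G : ℝ → ℝ≥0∞ := fun s => ENNReal.ofReal ((1 - s) ^ (-((p - 1) / p))) with hG
  have hFm : Measurable F := by rw [hF]; fun_prop
  have hGm : Measurable G := by rw [hG]; fun_prop
  have h1 : ∫⁻ s in Ioc a b, ‖deriv f (circleMap 0 s θ)‖ₑ = ∫⁻ s in Ioc a b, (F * G) s := by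
    apply setLIntegral_congr_fun measurableSet_Ioc
    intro s hs
    have ht : 0 < 1 - s := by linarith [hs.2]
    simp only [Pi.mul_apply, hF, hG]
    rw [mul_right_comm, ← ENNReal.ofReal_mul (by positivity), ← Real.rpow_add ht,
      add_neg_cancel, Real.rpow_zero, ENNReal.ofReal_one, one_mul]
  have h2 := ENNReal.lintegral_mul_le_Lp_mul_Lq (volume.restrict (Ioc a b)) hpq
    hFm.aemeasurable hGm.aemeasurable
  rw [h1]
  refine (ENNReal.rpow_le_rpow h2 hp0.le).trans ?_
  rw [ENNReal.mul_rpow_of_nonneg _ _ hp0.le, ← ENNReal.rpow_mul, ← ENNReal.rpow_mul,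
    one_div_mul_cancel hp0.ne', ENNReal.rpow_one]
  have e1 : 1 / q * p = p - 1 := by rw [hq]; field_simp
  rw [e1]
  apply mul_le_mul'
  · refine (lintegral_mono_set (Ioc_subset_Ioo_right hb)).trans ?_
    apply le_of_eq
    apply setLIntegral_congr_fun measurableSet_Ioo
    intro s hs
    have ht : 0 < 1 - s := by linarith [hs.2]
    simp only [hF]
    rw [ENNReal.mul_rpow_of_nonneg _ _ hp0.le, ENNReal.ofReal_rpow_of_nonneg (by positivity) hp0.le,
      ← Real.rpow_mul ht.le, div_mul_cancel₀ _ hp0.ne']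
  · apply ENNReal.rpow_le_rpow _ hp1.le
    refine le_trans (le_of_eq ?_) (inv_int ha hab hb)
    apply setLIntegral_congr_fun measurableSet_Ioc
    intro s hs
    have ht : 0 < 1 - s := by linarith [hs.2]
    simp only [hG]
    rw [ENNReal.ofReal_rpow_of_nonneg (by positivity) (by positivity), ← Real.rpow_mul ht.le]
    have : -((p - 1) / p) * q = -1 := by rw [hq]; field_simp
    rw [this, Real.rpow_neg_one]

noncomputable def Aθ (p : ℝ) (f : ℂ → ℂ) (a θ : ℝ) : ℝ≥0∞ :=
  ∫⁻ s in Ioo a 1, ENNReal.ofReal ((1 - s) ^ (p - 1)) * ‖deriv f (circleMap 0 s θ)‖ₑ ^ p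

theorem radial_p {f : ℂ → ℂ} (hf : DifferentiableOn ℂ f (ball 0 1)) {p : ℝ} (hp : 1 < p)
    {a b : ℝ} (ha : 0 ≤ a) (hab : a ≤ b) (hb : b < 1) (θ : ℝ) :
    ‖f (circleMap 0 b θ)‖ₑ ^ p ≤ 2 ^ (p - 1) * (‖f (circleMap 0 a θ)‖ₑ ^ p +
      Aθ p f a θ * ENNReal.ofReal (-Real.log (1 - b)) ^ (p - 1)) := by
  refine (ENNReal.rpow_le_rpow (radial_ftc hf ha hab hb θ) (by linarith)).trans ?_
  refine (ENNReal.rpow_add_le_mul_rpow_add_rpow _ _ hp.le).trans ?_
  gcongr
  exact radial_holder hp ha hab hb θ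

theorem Aθ_int {f : ℂ → ℂ} {p : ℝ} {a : ℝ} (ha : 1 / 2 ≤ a) :
    ∫⁻ θ in Ioo (-π) π, Aθ p f a θ ≤
      2 * ∫⁻ z in An a, ENNReal.ofReal ((1 - ‖z‖) ^ (p - 1)) * ‖deriv f z‖ₑ ^ p := by
  have hmd := measurable_deriv f
  have hG : Measurable fun z : ℂ => ENNReal.ofReal ((1 - ‖z‖) ^ (p - 1)) * ‖deriv f z‖ₑ ^ p := by
    fun_prop
  have hset : MeasurableSet {z : ℂ | a < ‖z‖} := measurableSet_lt measurable_const measurable_norm
  have hrw : ∀ g : ℂ → ℝ≥0∞, ∫⁻ z in An a, g z =
      ∫⁻ z in ball (0:ℂ) 1, {z : ℂ | a < ‖z‖}.indicator g z := by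
    intro g
    rw [lintegral_indicator hset, Measure.restrict_restrict hset]
    unfold An
    rw [inter_comm]
  rw [hrw, polar_sm _ (hG.indicator hset)]
  unfold Aθ
  rw [lintegral_lintegral_swap]
  · have h1 : ∀ s ∈ Ioo (0:ℝ) 1, (Ioo a 1).indicator (fun s => ∫⁻ θ in Ioo (-π) π,
        ENNReal.ofReal ((1 - s) ^ (p - 1)) * ‖deriv f (circleMap 0 s θ)‖ₑ ^ p) s ≤
        2 * (ENNReal.ofReal s * ∫⁻ φ in Ioo (-π) π, {z : ℂ | a < ‖z‖}.indicator
          (fun z : ℂ => ENNReal.ofReal ((1 - ‖z‖) ^ (p - 1)) * ‖deriv f z‖ₑ ^ p)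
          (circleMap 0 s φ)) := by
      intro s hs
      have hn : ∀ φ, ‖circleMap 0 s φ‖ = s := by
        intro φ; rw [norm_circleMap_zero, abs_of_pos hs.1]
      by_cases hsa : a < s
      · rw [indicator_of_mem (show s ∈ Ioo a 1 from ⟨hsa, hs.2⟩)]
        have e1 : ∀ φ, {z : ℂ | a < ‖z‖}.indicator
          (fun z : ℂ => ENNReal.ofReal ((1 - ‖z‖) ^ (p - 1)) * ‖deriv f z‖ₑ ^ p)
          (circleMap 0 s φ) = ENNReal.ofReal ((1 - s) ^ (p - 1)) *
            ‖deriv f (circleMap 0 s φ)‖ₑ ^ p := by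
          intro φ
          rw [indicator_of_mem (by rw [mem_ofPred_eq, hn]; exact hsa), hn]
        simp only [e1]
        rw [← mul_assoc]
        refine le_mul_of_one_le_left zero_le ?_
        rw [show (2:ℝ≥0∞) = ENNReal.ofReal 2 by simp, ← ENNReal.ofReal_mul (by norm_num),
          ENNReal.one_le_ofReal]
        linarith
      · rw [indicator_of_notMem (fun h => hsa h.1)]
        exact zero_le
    have h2 : ∫⁻ s in Ioo a 1, ∫⁻ θ in Ioo (-π) π,
        ENNReal.ofReal ((1 - s) ^ (p - 1)) * ‖deriv f (circleMap 0 s θ)‖ₑ ^ p =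
        ∫⁻ s in Ioo (0:ℝ) 1, (Ioo a 1).indicator (fun s => ∫⁻ θ in Ioo (-π) π,
        ENNReal.ofReal ((1 - s) ^ (p - 1)) * ‖deriv f (circleMap 0 s θ)‖ₑ ^ p) s := by
      rw [setLIntegral_indicator measurableSet_Ioo, inter_eq_left.2]
      exact Ioo_subset_Ioo_left (by linarith)
    rw [h2, ← lintegral_const_mul' _ _ (by simp)]
    exact setLIntegral_mono' measurableSet_Ioo h1
  · apply Measurable.aemeasurable
    have hc : Measurable (fun x : ℝ × ℝ => circleMap 0 x.2 x.1) := by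
      unfold circleMap
      fun_prop
    have h3 : Measurable (fun x : ℝ × ℝ => deriv f (circleMap 0 x.2 x.1)) := hmd.comp hc
    unfold Function.uncurry
    fun_prop

theorem ind_meas {f : ℂ → ℂ} (hf : DifferentiableOn ℂ f (ball 0 1)) :
    Measurable ((ball (0:ℂ) 1).indicator f) := by
  classical
  rw [← Set.piecewise_eq_indicator]
  exact ContinuousOn.measurable_piecewise hf.continuousOn continuousOn_const measurableSet_ball

/-- weighted integral of `f` against a radial weight supported near the circle -/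
theorem weighted {f : ℂ → ℂ} (hf : DifferentiableOn ℂ f (ball 0 1)) {p : ℝ} (hp : 1 < p)
    {a : ℝ} (ha : 0 ≤ a) {K : ℝ≥0∞}
    (hK : ∀ θ, ‖f (circleMap 0 a θ)‖ₑ ≤ K) {w : ℝ → ℝ≥0∞} (hw : Measurable w)
    (hw0 : ∀ s, s ≤ a → w s = 0) :
    ∫⁻ z in ball (0:ℂ) 1, w ‖z‖ * ‖f z‖ₑ ^ p ≤
      2 ^ (p - 1) * (K ^ p * ENNReal.ofReal (2 * π) * ∫⁻ s in Ioo (0:ℝ) 1, w s) +
      2 ^ (p - 1) * ((∫⁻ θ in Ioo (-π) π, Aθ p f a θ) *
        ∫⁻ s in Ioo (0:ℝ) 1, w s * ENNReal.ofReal (-Real.log (1 - s)) ^ (p - 1)) := by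
  have hmf := ind_meas hf
  have e0 : ∫⁻ z in ball (0:ℂ) 1, w ‖z‖ * ‖f z‖ₑ ^ p =
      ∫⁻ z in ball (0:ℂ) 1, w ‖z‖ * ‖(ball (0:ℂ) 1).indicator f z‖ₑ ^ p := by
    apply setLIntegral_congr_fun measurableSet_ball
    intro z hz
    simp only
    rw [indicator_of_mem hz]
  have hG : Measurable fun z : ℂ => w ‖z‖ * ‖(ball (0:ℂ) 1).indicator f z‖ₑ ^ p := by
    have : Measurable fun z : ℂ => w ‖z‖ := hw.comp measurable_norm
    fun_prop
  have h2ne : (2:ℝ≥0∞) ^ (p - 1) ≠ ∞ := ENNReal.rpow_ne_top_of_nonneg (by linarith) (by simp)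
  rw [e0, polar_sm _ hG]
  have hL : Measurable fun s : ℝ => w s * ENNReal.ofReal (-Real.log (1 - s)) ^ (p - 1) := by
    fun_prop
  have hpt : ∀ s ∈ Ioo (0:ℝ) 1, ENNReal.ofReal s * ∫⁻ φ in Ioo (-π) π,
      w ‖circleMap 0 s φ‖ * ‖(ball (0:ℂ) 1).indicator f (circleMap 0 s φ)‖ₑ ^ p ≤
      2 ^ (p - 1) * (K ^ p * ENNReal.ofReal (2 * π) * w s) +
      2 ^ (p - 1) * ((∫⁻ θ in Ioo (-π) π, Aθ p f a θ) *
        (w s * ENNReal.ofReal (-Real.log (1 - s)) ^ (p - 1))) := by
    intro s hs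
    have hn : ∀ φ, ‖circleMap 0 s φ‖ = s := by
      intro φ; rw [norm_circleMap_zero, abs_of_pos hs.1]
    simp only [hn]
    by_cases hsa : s ≤ a
    · rw [hw0 s hsa]
      simp
    · rw [not_le] at hsa
      have h1 : ∀ φ, ‖(ball (0:ℂ) 1).indicator f (circleMap 0 s φ)‖ₑ ^ p ≤
          2 ^ (p - 1) * (K ^ p + Aθ p f a φ * ENNReal.ofReal (-Real.log (1 - s)) ^ (p - 1)) := by
        intro φ
        rw [indicator_of_mem (circ_mem hs.1.le hs.2 φ)]
        refine (radial_p hf hp ha hsa.le hs.2 φ).trans ?_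
        gcongr
        exact hK φ
      have hLne : ENNReal.ofReal (-Real.log (1 - s)) ^ (p - 1) ≠ ∞ :=
        ENNReal.rpow_ne_top_of_nonneg (by linarith) ENNReal.ofReal_ne_top
      calc ENNReal.ofReal s * ∫⁻ φ in Ioo (-π) π,
            w s * ‖(ball (0:ℂ) 1).indicator f (circleMap 0 s φ)‖ₑ ^ p
          ≤ 1 * ∫⁻ φ in Ioo (-π) π, w s * (2 ^ (p - 1) * (K ^ p + Aθ p f a φ *
              ENNReal.ofReal (-Real.log (1 - s)) ^ (p - 1))) := by
            apply mul_le_mul'
            · rw [show (1:ℝ≥0∞) = ENNReal.ofReal 1 by simp]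
              exact ENNReal.ofReal_le_ofReal hs.2.le
            · apply lintegral_mono
              intro φ
              exact mul_le_mul_right (h1 φ) _
        _ ≤ ∫⁻ φ in Ioo (-π) π, (w s * 2 ^ (p - 1)) * K ^ p + (w s * 2 ^ (p - 1)) *
              (ENNReal.ofReal (-Real.log (1 - s)) ^ (p - 1) * Aθ p f a φ) := by
            rw [one_mul]
            apply lintegral_mono
            intro φ
            apply le_of_eq
            ring
        _ = (w s * 2 ^ (p - 1)) * (K ^ p * ENNReal.ofReal (2 * π)) + (w s * 2 ^ (p - 1)) *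
              (ENNReal.ofReal (-Real.log (1 - s)) ^ (p - 1) *
                ∫⁻ φ in Ioo (-π) π, Aθ p f a φ) := by
            have hAm : Measurable fun φ => Aθ p f a φ := by
              unfold Aθ
              apply Measurable.lintegral_prod_right'
                (f := fun x : ℝ × ℝ => ENNReal.ofReal ((1 - x.2) ^ (p - 1)) *
                  ‖deriv f (circleMap 0 x.2 x.1)‖ₑ ^ p)
              have hc : Measurable (fun x : ℝ × ℝ => circleMap 0 x.2 x.1) := by
                unfold circleMap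
                fun_prop
              have h3 : Measurable (fun x : ℝ × ℝ => deriv f (circleMap 0 x.2 x.1)) :=
                (measurable_deriv f).comp hc
              fun_prop
            rw [lintegral_add_left measurable_const, lintegral_const_mul _ (hAm.const_mul _),
              lintegral_const_mul _ hAm, lintegral_const, Measure.restrict_apply_univ,
              Real.volume_Ioo, mul_assoc]
            congr 4
            ring
        _ = _ := by ring
  refine (setLIntegral_mono' measurableSet_Ioo hpt).trans ?_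
  rw [lintegral_add_left (by fun_prop), lintegral_const_mul _ (by fun_prop),
    lintegral_const_mul _ hw, lintegral_const_mul _ (by fun_prop), lintegral_const_mul _ hL]

end Pool.Agent.R402.Cy
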