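import Mathlib
import Pool.Agent.R402.CyC
set_option autoImplicit false
open MeasureTheory Filter Topology Set Complex Metric
open scoped ENNReal NNReal Real

/-! The outer region. -/

namespace Pool.Agent.R402.Cy

noncomputable def Tn (N : ℕ) (t : ℝ) : ℝ :=
  ∑ k ∈ Finset.range N, if 2 ^ k * t < 1 then (2:ℝ) ^ k else 0

noncomputable def Sn (n : ℕ) (s : ℝ) : ℝ :=
  ∑ k ∈ Finset.Ioc n (2 * n), if rr k < s then (2:ℝ) ^ k else 0

theorem Tn_bd {t : ℝ} (ht : 0 ≤ t) (N : ℕ) : Tn N t ≤ 2 ^ N ∧ Tn N t * t ≤ 2 := by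
  induction N with
  | zero => simp [Tn]
  | succ N ih =>
    unfold Tn at ih ⊢
    rw [Finset.sum_range_succ]
    by_cases h : 2 ^ N * t < 1
    · rw [if_pos h]
      constructor
      · rw [pow_succ]; linarith [ih.1]
      · nlinarith [ih.1]
    · rw [if_neg h, add_zero]
      exact ⟨ih.1.trans (pow_le_pow_right₀ (by norm_num) (by omega)), ih.2⟩

theorem cond_iff (k : ℕ) (s : ℝ) : rr k < s ↔ 2 ^ k * (1 - s) < 1 := by
  unfold rr
  have h : (0:ℝ) < 2 ^ k := by positivity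
  have e : ((1:ℝ) / 2) ^ k = 1 / 2 ^ k := by rw [div_pow, one_pow]
  rw [e]
  constructor
  · intro h1
    have h2 : 1 - s < 1 / 2 ^ k := by linarith
    rw [lt_div_iff₀ h] at h2
    linarith
  · intro h1
    have h2 : 1 - s < 1 / 2 ^ k := by
      rw [lt_div_iff₀ h]; linarith
    linarith

theorem Sn_nonneg (n : ℕ) (s : ℝ) : 0 ≤ Sn n s := by
  unfold Sn
  apply Finset.sum_nonneg
  intro k _
  split_ifs
  · positivity
  · exact le_rfl

theorem Sn_le_Tn (n : ℕ) (s : ℝ) : Sn n s ≤ Tn (2 * n + 1) (1 - s) := by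
  unfold Sn Tn
  simp only [cond_iff]
  apply Finset.sum_le_sum_of_subset_of_nonneg
  · intro k hk
    rw [Finset.mem_Ioc] at hk
    rw [Finset.mem_range]
    omega
  · intro k _ _
    split_ifs
    · positivity
    · exact le_rfl

theorem Sn_zero {n m : ℕ} (h : m ≤ n) {s : ℝ} (hs : s ≤ rr m) : Sn n s = 0 := by
  unfold Sn
  apply Finset.sum_eq_zero
  intro k hk
  rw [Finset.mem_Ioc] at hk
  rw [if_neg]
  rw [not_lt]
  exact hs.trans (rr_mono (by omega))

theorem Sn_meas (n : ℕ) : Measurable (Sn n) := by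
  unfold Sn
  apply Finset.measurable_sum
  intro k _
  exact Measurable.ite measurableSet_Ioi measurable_const measurable_const

theorem Sn_t {n : ℕ} {s : ℝ} (hs : s < 1) : Sn n s * (1 - s) ≤ 2 := by
  have h := (Tn_bd (t := 1 - s) (by linarith) (2 * n + 1)).2
  refine le_trans ?_ h
  exact mul_le_mul_of_nonneg_right (Sn_le_Tn n s) (by linarith)

theorem Sn_tL {n : ℕ} (hn : 1 ≤ n) {s : ℝ} (h0 : 0 ≤ s) (hs : s < 1) :
    Sn n s * (1 - s) * (-Real.log (1 - s)) ≤ 6 * n := by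
  set t := 1 - s with ht
  have ht0 : 0 < t := by rw [ht]; linarith
  have ht1 : t ≤ 1 := by rw [ht]; linarith
  set N := 2 * n + 1 with hN
  have h1 := Tn_bd ht0.le N
  have h2 := Sn_le_Tn n s
  have hS0 := Sn_nonneg n s
  have hL0 : 0 ≤ -Real.log t := by
    have := Real.log_nonpos ht0.le ht1
    linarith
  have hNr : (N : ℝ) = 2 * n + 1 := by rw [hN]; push_cast; ring
  have hn1 : (1:ℝ) ≤ n := by exact_mod_cast hn
  have hlog2 : Real.log 2 ≤ 1 := by
    have := Real.log_two_lt_d9; linarith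
  have hlog20 : 0 ≤ Real.log 2 := Real.log_nonneg (by norm_num)
  have hlog : Real.log (2 ^ N * t) = N * Real.log 2 + Real.log t := by
    rw [Real.log_mul (by positivity) ht0.ne', Real.log_pow]
  by_cases hc : 1 ≤ 2 ^ N * t
  · have h3 : 0 ≤ Real.log (2 ^ N * t) := Real.log_nonneg hc
    have h4 : -Real.log t ≤ N := by nlinarith
    have h5 : Sn n s * t ≤ 2 := Sn_t hs
    calc Sn n s * t * (-Real.log t) ≤ 2 * N := by
          apply mul_le_mul h5 h4 hL0 (by norm_num)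
      _ ≤ 6 * n := by rw [hNr]; linarith
  · rw [not_le] at hc
    have hu0 : 0 < 2 ^ N * t := by positivity
    set u := 2 ^ N * t with hu
    have h3 : u * (-Real.log u) ≤ 1 := by
      have := Real.one_sub_inv_le_log_of_pos hu0
      have h4 : -Real.log u ≤ u⁻¹ - 1 := by linarith
      have h5 : u * (-Real.log u) ≤ u * (u⁻¹ - 1) := mul_le_mul_of_nonneg_left h4 hu0.le
      have h6 : u * (u⁻¹ - 1) = 1 - u := by field_simp
      linarith
    have h7 : Sn n s * t ≤ u := by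
      rw [hu]
      apply mul_le_mul_of_nonneg_right (h2.trans h1.1) ht0.le
    calc Sn n s * t * (-Real.log t) ≤ u * (-Real.log t) := mul_le_mul_of_nonneg_right h7 hL0
      _ = u * (-Real.log u) + u * (N * Real.log 2) := by rw [hlog]; ring
      _ ≤ 1 + 1 * (N * 1) := by
          apply add_le_add h3
          apply mul_le_mul hc.le _ (by positivity) (by norm_num)
          exact mul_le_mul_of_nonneg_left hlog2 (by positivity)
      _ ≤ 6 * n := by rw [hNr]; linarith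

theorem Sn_int (n : ℕ) : ∫⁻ s in Ioo (0:ℝ) 1, ENNReal.ofReal (Sn n s) ≤ n := by
  have h1 : ∀ s, ENNReal.ofReal (Sn n s) =
      ∑ k ∈ Finset.Ioc n (2 * n), (Ioi (rr k)).indicator (fun _ => ENNReal.ofReal (2 ^ k)) s := by
    intro s
    unfold Sn
    rw [ENNReal.ofReal_sum_of_nonneg]
    · apply Finset.sum_congr rfl
      intro k _
      by_cases h : rr k < s
      · rw [if_pos h, indicator_of_mem (mem_Ioi.2 h)]
      · rw [if_neg h, indicator_of_notMem (fun h' => h (mem_Ioi.1 h')), ENNReal.ofReal_zero]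
    · intro k _
      split_ifs
      · positivity
      · exact le_rfl
  simp only [h1]
  rw [lintegral_finsetSum _ (fun k _ => measurable_const.indicator measurableSet_Ioi)]
  have h2 : ∀ k ∈ Finset.Ioc n (2 * n), ∫⁻ s in Ioo (0:ℝ) 1,
      (Ioi (rr k)).indicator (fun _ => ENNReal.ofReal (2 ^ k)) s ≤ 1 := by
    intro k _
    rw [lintegral_indicator_const measurableSet_Ioi, Measure.restrict_apply measurableSet_Ioi]
    have h3 : Ioi (rr k) ∩ Ioo 0 1 ⊆ Ioo (rr k) 1 := fun x hx => ⟨hx.1, hx.2.2⟩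
    calc ENNReal.ofReal (2 ^ k) * volume (Ioi (rr k) ∩ Ioo 0 1)
        ≤ ENNReal.ofReal (2 ^ k) * volume (Ioo (rr k) 1) := by
          gcongr
      _ = 1 := by
          rw [Real.volume_Ioo, ← ENNReal.ofReal_mul (by positivity)]
          have : (2:ℝ) ^ k * (1 - rr k) = 1 := by
            unfold rr
            rw [sub_sub_cancel, ← mul_pow]
            norm_num
          rw [this, ENNReal.ofReal_one]
  refine (Finset.sum_le_sum h2).trans ?_
  rw [Finset.sum_const, Nat.card_Ioc, nsmul_eq_mul, mul_one]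
  have : 2 * n - n = n := by omega
  rw [this]

/-- the radial weight -/
noncomputable def wt (p : ℝ) (n : ℕ) (s : ℝ) : ℝ≥0∞ :=
  ENNReal.ofReal ((1 - s) ^ (p - 1)) * ENNReal.ofReal (Sn n s / n) ^ p

theorem wt_meas (p : ℝ) (n : ℕ) : Measurable (wt p n) := by
  unfold wt
  have := Sn_meas n
  fun_prop

theorem wt_le {p : ℝ} (hp : 1 < p) {n : ℕ} (hn : 1 ≤ n) {s : ℝ} (hs : s < 1)
    {X : ℝ} (hX0 : 0 ≤ X) {Y : ℝ} (h : Sn n s * (1 - s) * X ≤ Y) :
    wt p n s * ENNReal.ofReal X ^ (p - 1) ≤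
      ENNReal.ofReal ((n:ℝ) ^ (-p) * Y ^ (p - 1)) * ENNReal.ofReal (Sn n s) := by
  have hS0 := Sn_nonneg n s
  have ht : 0 < 1 - s := by linarith
  have hn0 : (0:ℝ) < n := by exact_mod_cast hn
  have hY : 0 ≤ Y := le_trans (by positivity) h
  unfold wt
  rw [ENNReal.ofReal_rpow_of_nonneg (by positivity) (by linarith),
    ENNReal.ofReal_rpow_of_nonneg hX0 (by linarith), ← ENNReal.ofReal_mul (by positivity),
    ← ENNReal.ofReal_mul (by positivity), ← ENNReal.ofReal_mul (by positivity)]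
  apply ENNReal.ofReal_le_ofReal
  rcases hS0.eq_or_lt with h0 | h0
  · rw [← h0, zero_div, Real.zero_rpow (by linarith)]
    simp
  · have e1 : (Sn n s / n) ^ p = (n:ℝ) ^ (-p) * (Sn n s * Sn n s ^ (p - 1)) := by
      rw [Real.div_rpow h0.le hn0.le, Real.rpow_neg hn0.le]
      have : Sn n s * Sn n s ^ (p - 1) = Sn n s ^ p := by
        rw [mul_comm, ← Real.rpow_add_one h0.ne']; congr 1; ring
      rw [this, div_eq_inv_mul]
    rw [e1]
    have h3 : (Sn n s * (1 - s) * X) ^ (p - 1) ≤ Y ^ (p - 1) :=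
      Real.rpow_le_rpow (by positivity) h (by linarith)
    rw [Real.mul_rpow (by positivity) hX0, Real.mul_rpow h0.le ht.le] at h3
    calc (1 - s) ^ (p - 1) * ((n:ℝ) ^ (-p) * (Sn n s * Sn n s ^ (p - 1))) * X ^ (p - 1)
        = (n:ℝ) ^ (-p) * (Sn n s ^ (p - 1) * (1 - s) ^ (p - 1) * X ^ (p - 1)) * Sn n s := by ring
      _ ≤ (n:ℝ) ^ (-p) * Y ^ (p - 1) * Sn n s := by gcongr

theorem wt_int {p : ℝ} (hp : 1 < p) {n : ℕ} (hn : 1 ≤ n) :
    ∫⁻ s in Ioo (0:ℝ) 1, wt p n s ≤ ENNReal.ofReal (2 ^ (p - 1)) *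
      ENNReal.ofReal ((n:ℝ) ^ (-(p - 1))) := by
  have hn0 : (0:ℝ) < n := by exact_mod_cast hn
  calc ∫⁻ s in Ioo (0:ℝ) 1, wt p n s
      ≤ ∫⁻ s in Ioo (0:ℝ) 1, ENNReal.ofReal ((n:ℝ) ^ (-p) * 2 ^ (p - 1)) *
          ENNReal.ofReal (Sn n s) := by
        apply setLIntegral_mono' measurableSet_Ioo
        intro s hs
        have := wt_le hp hn hs.2 (X := 1) zero_le_one (Y := 2) (by
          rw [mul_one]; exact Sn_t hs.2)
        simpa using this
    _ = ENNReal.ofReal ((n:ℝ) ^ (-p) * 2 ^ (p - 1)) *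
          ∫⁻ s in Ioo (0:ℝ) 1, ENNReal.ofReal (Sn n s) :=
        lintegral_const_mul' _ _ ENNReal.ofReal_ne_top
    _ ≤ ENNReal.ofReal ((n:ℝ) ^ (-p) * 2 ^ (p - 1)) * n := by
        gcongr
        exact Sn_int n
    _ = _ := by
        rw [← ENNReal.ofReal_natCast, ← ENNReal.ofReal_mul (by positivity),
          ← ENNReal.ofReal_mul (by positivity)]
        congr 1
        have : (n:ℝ) ^ (-(p - 1)) = (n:ℝ) ^ (-p) * n := by
          rw [← Real.rpow_add_one hn0.ne']; congr 1; ring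
        rw [this]
        ring

theorem wt_int_L {p : ℝ} (hp : 1 < p) {n : ℕ} (hn : 1 ≤ n) :
    ∫⁻ s in Ioo (0:ℝ) 1, wt p n s * ENNReal.ofReal (-Real.log (1 - s)) ^ (p - 1) ≤
      ENNReal.ofReal (6 ^ (p - 1)) := by
  have hn0 : (0:ℝ) < n := by exact_mod_cast hn
  calc ∫⁻ s in Ioo (0:ℝ) 1, wt p n s * ENNReal.ofReal (-Real.log (1 - s)) ^ (p - 1)
      ≤ ∫⁻ s in Ioo (0:ℝ) 1, ENNReal.ofReal ((n:ℝ) ^ (-p) * (6 * n) ^ (p - 1)) *
          ENNReal.ofReal (Sn n s) := by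
        apply setLIntegral_mono' measurableSet_Ioo
        intro s hs
        apply wt_le hp hn hs.2 _ (Sn_tL hn hs.1.le hs.2)
        have := Real.log_nonpos (x := 1 - s) (by linarith [hs.2]) (by linarith [hs.1])
        linarith
    _ = ENNReal.ofReal ((n:ℝ) ^ (-p) * (6 * n) ^ (p - 1)) *
          ∫⁻ s in Ioo (0:ℝ) 1, ENNReal.ofReal (Sn n s) :=
        lintegral_const_mul' _ _ ENNReal.ofReal_ne_top
    _ ≤ ENNReal.ofReal ((n:ℝ) ^ (-p) * (6 * n) ^ (p - 1)) * n := by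
        gcongr
        exact Sn_int n
    _ = _ := by
        rw [← ENNReal.ofReal_natCast, ← ENNReal.ofReal_mul (by positivity)]
        congr 1
        rw [Real.mul_rpow (by norm_num) hn0.le]
        have : (n:ℝ) ^ (-p) * (n:ℝ) ^ (p - 1) * n = 1 := by
          rw [← Real.rpow_add hn0, ← Real.rpow_add_one hn0.ne']
          have : -p + (p - 1) + 1 = 0 := by ring
          rw [this, Real.rpow_zero]
        calc (n:ℝ) ^ (-p) * (6 ^ (p - 1) * (n:ℝ) ^ (p - 1)) * n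
            = 6 ^ (p - 1) * ((n:ℝ) ^ (-p) * (n:ℝ) ^ (p - 1) * n) := by ring
          _ = _ := by rw [this, mul_one]

theorem circ_bdd {f : ℂ → ℂ} (hf : ContinuousOn f (ball 0 1)) {a : ℝ} (h1 : a < 1) :
    ∃ K : ℝ≥0∞, K ≠ ∞ ∧ ∀ z, ‖z‖ ≤ a → ‖f z‖ₑ ≤ K := by
  have hsub : closedBall (0:ℂ) a ⊆ ball 0 1 := closedBall_subset_ball h1
  obtain ⟨C, hC⟩ := (isCompact_closedBall (0:ℂ) a).exists_bound_of_continuousOn (hf.mono hsub)
  refine ⟨ENNReal.ofReal C, ENNReal.ofReal_ne_top, fun z hz => ?_⟩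
  rw [← ofReal_norm]
  exact ENNReal.ofReal_le_ofReal (hC z (mem_closedBall_zero_iff.2 hz))

/-- the outer region does not contribute -/
theorem outer {f : ℂ → ℂ} (hf : DifferentiableOn ℂ f (ball 0 1)) {p : ℝ} (hp : 1 < p)
    (hI : Iw p (deriv f) ≠ ∞) :
    Tendsto (fun n => ∫⁻ z in ball (0:ℂ) 1, wt p n ‖z‖ * ‖f z‖ₑ ^ p) atTop (𝓝 0) := by
  have htail := tail_tendsto (g := fun z => ENNReal.ofReal ((1 - ‖z‖) ^ (p - 1)) *
    ‖deriv f z‖ₑ ^ p) hI
  have h2ne : (2:ℝ≥0∞) ^ (p - 1) ≠ ∞ := ENNReal.rpow_ne_top_of_nonneg (by linarith) (by simp)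
  set c1 : ℝ≥0∞ := 2 ^ (p - 1) * (2 * ENNReal.ofReal (6 ^ (p - 1))) with hc1
  have hc1' : c1 ≠ ∞ :=
    ENNReal.mul_ne_top h2ne (ENNReal.mul_ne_top (by simp) ENNReal.ofReal_ne_top)
  have h1 := ENNReal.Tendsto.const_mul (a := c1) htail (Or.inr hc1')
  rw [mul_zero] at h1
  rw [ENNReal.tendsto_nhds_zero] at h1 ⊢
  intro ε hε
  have hε2 : 0 < ε / 2 := ENNReal.half_pos hε.ne'
  obtain ⟨m, hm1, hm2⟩ := ((h1 (ε / 2) hε2).and (eventually_ge_atTop 1)).exists
  obtain ⟨K, hK, hKb⟩ := circ_bdd hf.continuousOn (rr_lt m)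
  have hrr : 1 / 2 ≤ rr m := by
    refine le_trans ?_ (rr_mono hm2)
    unfold rr; norm_num
  set c2 : ℝ≥0∞ := 2 ^ (p - 1) * (K ^ p * ENNReal.ofReal (2 * π) * ENNReal.ofReal (2 ^ (p - 1)))
    with hc2
  have hc2' : c2 ≠ ∞ := by
    apply ENNReal.mul_ne_top h2ne
    apply ENNReal.mul_ne_top _ ENNReal.ofReal_ne_top
    apply ENNReal.mul_ne_top _ ENNReal.ofReal_ne_top
    exact ENNReal.rpow_ne_top_of_nonneg (by linarith) hK
  have h3 : Tendsto (fun n : ℕ => c2 * ENNReal.ofReal ((n:ℝ) ^ (-(p - 1)))) atTop (𝓝 0) := by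
    have h4 : Tendsto (fun n : ℕ => ENNReal.ofReal ((n:ℝ) ^ (-(p - 1)))) atTop (𝓝 0) := by
      have h5 := (tendsto_rpow_neg_atTop (y := p - 1) (by linarith)).comp
        (tendsto_natCast_atTop_atTop (R := ℝ))
      have h6 := ENNReal.tendsto_ofReal h5
      rw [ENNReal.ofReal_zero] at h6
      exact h6
    have h7 := ENNReal.Tendsto.const_mul (a := c2) h4 (Or.inr hc2')
    rwa [mul_zero] at h7
  rw [ENNReal.tendsto_nhds_zero] at h3
  filter_upwards [h3 (ε / 2) hε2, eventually_ge_atTop m, eventually_ge_atTop 1] with n hn1 hn2 hn3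
  have h8 := weighted hf hp (rr_nonneg m) (K := K) (fun θ => hKb _ (by
    rw [norm_circleMap_zero, abs_of_nonneg (rr_nonneg m)])) (wt_meas p n)
    (fun s hs => by
      unfold wt
      rw [Sn_zero hn2 hs, zero_div, ENNReal.ofReal_zero, ENNReal.zero_rpow_of_pos (by linarith),
        mul_zero])
  refine h8.trans ?_
  have h9 : (2:ℝ≥0∞) ^ (p - 1) * (K ^ p * ENNReal.ofReal (2 * π) * ∫⁻ s in Ioo (0:ℝ) 1, wt p n s)
      ≤ ε / 2 := by
    refine le_trans ?_ hn1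
    calc (2:ℝ≥0∞) ^ (p - 1) * (K ^ p * ENNReal.ofReal (2 * π) * ∫⁻ s in Ioo (0:ℝ) 1, wt p n s)
        ≤ 2 ^ (p - 1) * (K ^ p * ENNReal.ofReal (2 * π) * (ENNReal.ofReal (2 ^ (p - 1)) *
            ENNReal.ofReal ((n:ℝ) ^ (-(p - 1))))) := by
          gcongr
          exact wt_int hp hn3
      _ = c2 * ENNReal.ofReal ((n:ℝ) ^ (-(p - 1))) := by rw [hc2]; ring
  have h10 : (2:ℝ≥0∞) ^ (p - 1) * ((∫⁻ θ in Ioo (-π) π, Aθ p f (rr m) θ) *
        ∫⁻ s in Ioo (0:ℝ) 1, wt p n s * ENNReal.ofReal (-Real.log (1 - s)) ^ (p - 1)) ≤ ε / 2 := by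
    refine le_trans ?_ hm1
    calc (2:ℝ≥0∞) ^ (p - 1) * ((∫⁻ θ in Ioo (-π) π, Aθ p f (rr m) θ) *
        ∫⁻ s in Ioo (0:ℝ) 1, wt p n s * ENNReal.ofReal (-Real.log (1 - s)) ^ (p - 1))
        ≤ 2 ^ (p - 1) * ((2 * ∫⁻ z in An (rr m), ENNReal.ofReal ((1 - ‖z‖) ^ (p - 1)) *
            ‖deriv f z‖ₑ ^ p) * ENNReal.ofReal (6 ^ (p - 1))) := by
          gcongr
          · exact Aθ_int hrr
          · exact wt_int_L hp hn3
      _ = _ := by rw [hc1]; ring
  calc _ ≤ ε / 2 + ε / 2 := add_le_add h9 h10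
    _ = ε := ENNReal.add_halves ε

/-- the function itself is in the weighted space -/
theorem Iw_self {f : ℂ → ℂ} (hf : DifferentiableOn ℂ f (ball 0 1)) {p : ℝ} (hp : 1 < p)
    (hI : Iw p (deriv f) ≠ ∞) : Iw p f ≠ ∞ := by
  have h2ne : (2:ℝ≥0∞) ^ (p - 1) ≠ ∞ := ENNReal.rpow_ne_top_of_nonneg (by linarith) (by simp)
  obtain ⟨K, hK, hKb⟩ := circ_bdd hf.continuousOn (show (1:ℝ)/2 < 1 by norm_num)
  set w : ℝ → ℝ≥0∞ := (Ioi (1/2:ℝ)).indicator (fun s => ENNReal.ofReal ((1 - s) ^ (p - 1))) with hw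
  have hwm : Measurable w := by
    rw [hw]
    apply Measurable.indicator _ measurableSet_Ioi
    fun_prop
  have h8 := weighted hf hp (show (0:ℝ) ≤ 1/2 by norm_num) (K := K) (fun θ => hKb _ (by
    rw [norm_circleMap_zero, abs_of_nonneg (by norm_num)])) hwm
    (fun s hs => by
      rw [hw, indicator_of_notMem]
      rw [mem_Ioi, not_lt]; exact hs)
  have hvol : (volume (ball (0:ℂ) 1)) ≠ ∞ := measure_ball_lt_top.ne
  have hKp : K ^ p ≠ ∞ := ENNReal.rpow_ne_top_of_nonneg (by linarith) hK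
  have hwle : ∀ s ∈ Ioo (0:ℝ) 1, w s ≤ 1 := by
    intro s hs
    rw [hw]
    apply indicator_le_self' (fun _ _ => zero_le) s |>.trans
    rw [show (1:ℝ≥0∞) = ENNReal.ofReal 1 by simp]
    apply ENNReal.ofReal_le_ofReal
    exact Real.rpow_le_one (by linarith [hs.2]) (by linarith [hs.1]) (by linarith)
  have hwL : ∀ s ∈ Ioo (0:ℝ) 1, w s * ENNReal.ofReal (-Real.log (1 - s)) ^ (p - 1) ≤ 1 := by
    intro s hs
    have ht : 0 < 1 - s := by linarith [hs.2]
    have hL0 : 0 ≤ -Real.log (1 - s) := by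
      have := Real.log_nonpos ht.le (by linarith [hs.1])
      linarith
    have h1 : w s ≤ ENNReal.ofReal ((1 - s) ^ (p - 1)) := by
      rw [hw]
      exact indicator_le_self' (fun _ _ => zero_le) s
    refine (mul_le_mul_left h1 _).trans ?_
    rw [ENNReal.ofReal_rpow_of_nonneg hL0 (by linarith), ← ENNReal.ofReal_mul (by positivity),
      ← Real.mul_rpow ht.le hL0, show (1:ℝ≥0∞) = ENNReal.ofReal 1 by simp]
    apply ENNReal.ofReal_le_ofReal
    apply Real.rpow_le_one (by positivity) _ (by linarith)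
    have := Real.one_sub_inv_le_log_of_pos ht
    have h4 : -Real.log (1 - s) ≤ (1 - s)⁻¹ - 1 := by linarith
    have h5 := mul_le_mul_of_nonneg_left h4 ht.le
    have h6 : (1 - s) * ((1 - s)⁻¹ - 1) = 1 - (1 - s) := by field_simp
    linarith [hs.2]
  have hA : ∫⁻ θ in Ioo (-π) π, Aθ p f (1/2) θ ≠ ∞ := by
    refine (lt_of_le_of_lt (Aθ_int le_rfl) ?_).ne
    apply ENNReal.mul_lt_top (by simp)
    refine lt_of_le_of_lt (lintegral_mono_set ?_) (lt_top_iff_ne_top.2 hI)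
    exact inter_subset_left
  have hint1 : ∫⁻ s in Ioo (0:ℝ) 1, w s ≠ ∞ := by
    refine (lt_of_le_of_lt (setLIntegral_mono' measurableSet_Ioo hwle) ?_).ne
    simp
  have hint2 : ∫⁻ s in Ioo (0:ℝ) 1, w s * ENNReal.ofReal (-Real.log (1 - s)) ^ (p - 1) ≠ ∞ := by
    refine (lt_of_le_of_lt (setLIntegral_mono' measurableSet_Ioo hwL) ?_).ne
    simp
  have h9 : ∫⁻ z in ball (0:ℂ) 1, w ‖z‖ * ‖f z‖ₑ ^ p ≠ ∞ := by
    refine (lt_of_le_of_lt h8 ?_).ne
    apply ENNReal.add_lt_top.2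
    constructor
    · exact ENNReal.mul_lt_top h2ne.lt_top (ENNReal.mul_lt_top (ENNReal.mul_lt_top hKp.lt_top
        ENNReal.ofReal_lt_top) hint1.lt_top)
    · exact ENNReal.mul_lt_top h2ne.lt_top (ENNReal.mul_lt_top hA.lt_top hint2.lt_top)
  unfold Iw
  have h10 : ∫⁻ z in ball (0 : ℂ) 1, ENNReal.ofReal ((1 - ‖z‖) ^ (p - 1)) * ‖f z‖ₑ ^ p ≤
      ∫⁻ z in ball (0:ℂ) 1, (K ^ p + w ‖z‖ * ‖f z‖ₑ ^ p) := by
    apply setLIntegral_mono' measurableSet_ball
    intro z hz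
    rw [mem_ball_zero_iff] at hz
    by_cases h : ‖z‖ ≤ 1/2
    · refine le_trans ?_ le_self_add
      calc ENNReal.ofReal ((1 - ‖z‖) ^ (p - 1)) * ‖f z‖ₑ ^ p ≤ 1 * K ^ p := by
            apply mul_le_mul'
            · rw [show (1:ℝ≥0∞) = ENNReal.ofReal 1 by simp]
              apply ENNReal.ofReal_le_ofReal
              exact Real.rpow_le_one (by linarith) (by linarith [norm_nonneg z]) (by linarith)
            · exact ENNReal.rpow_le_rpow (hKb z h) (by linarith)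
        _ = K ^ p := one_mul _
    · rw [not_le] at h
      refine le_trans (le_of_eq ?_) le_add_self
      rw [hw, indicator_of_mem (mem_Ioi.2 h)]
  refine (lt_of_le_of_lt h10 ?_).ne
  rw [lintegral_add_left measurable_const, lintegral_const, Measure.restrict_apply_univ]
  exact ENNReal.add_lt_top.2 ⟨ENNReal.mul_lt_top hKp.lt_top hvol.lt_top, h9.lt_top⟩

end Pool.Agent.R402.Cy
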