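import Mathlib
import Pool.Agent.R402.CyD
set_option autoImplicit false
open MeasureTheory Filter Topology Set Complex Metric
open scoped ENNReal NNReal Real

/-! The main step: dilates of the multiplier. -/

namespace Pool.Agent.R402.Cy

noncomputable def mb : Measure ℂ := volume.restrict (ball (0:ℂ) 1)

theorem Iw_congr {p : ℝ} {g h : ℂ → ℂ} (hgh : ∀ z ∈ ball (0:ℂ) 1, g z = h z) :
    Iw p g = Iw p h := by
  unfold Iw
  apply setLIntegral_congr_fun measurableSet_ball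
  intro z hz
  simp only
  rw [hgh z hz]

theorem Iw_mono {p : ℝ} (hp : 0 ≤ p) {g h : ℂ → ℂ} (hgh : ∀ z ∈ ball (0:ℂ) 1, ‖g z‖ ≤ ‖h z‖) :
    Iw p g ≤ Iw p h := by
  unfold Iw
  apply setLIntegral_mono' measurableSet_ball
  intro z hz
  gcongr
  rw [← ofReal_norm, ← ofReal_norm]
  exact ENNReal.ofReal_le_ofReal (hgh z hz)

theorem Iw_const_mul {p : ℝ} (hp : 0 ≤ p) (c : ℂ) (g : ℂ → ℂ) :
    Iw p (fun z => c * g z) = ‖c‖ₑ ^ p * Iw p g := by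
  unfold Iw
  rw [← lintegral_const_mul' _ _ (ENNReal.rpow_ne_top_of_nonneg hp (by simp))]
  congr 1
  funext z
  rw [enorm_mul, ENNReal.mul_rpow_of_nonneg _ _ hp]
  ring

theorem Iw_add {p : ℝ} (hp : 1 ≤ p) {g h : ℂ → ℂ} (hg : AEMeasurable g mb) :
    Iw p (fun z => g z + h z) ≤ 2 ^ (p - 1) * (Iw p g + Iw p h) := by
  have h2ne : (2:ℝ≥0∞) ^ (p - 1) ≠ ∞ := ENNReal.rpow_ne_top_of_nonneg (by linarith) (by simp)
  unfold Iw
  rw [← lintegral_add_left', ← lintegral_const_mul' _ _ h2ne]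
  · apply lintegral_mono
    intro z
    simp only
    calc ENNReal.ofReal ((1 - ‖z‖) ^ (p - 1)) * ‖g z + h z‖ₑ ^ p
        ≤ ENNReal.ofReal ((1 - ‖z‖) ^ (p - 1)) * (2 ^ (p - 1) * (‖g z‖ₑ ^ p + ‖h z‖ₑ ^ p)) := by
          gcongr
          exact (ENNReal.rpow_le_rpow (enorm_add_le _ _) (by linarith)).trans
            (ENNReal.rpow_add_le_mul_rpow_add_rpow _ _ hp)
      _ = _ := by ring
  · have hg' : AEMeasurable g (volume.restrict (ball (0:ℂ) 1)) := hg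
    have : AEMeasurable (fun z : ℂ => ENNReal.ofReal ((1 - ‖z‖) ^ (p - 1)))
      (volume.restrict (ball (0:ℂ) 1)) := by fun_prop
    exact this.mul (hg'.enorm.pow_const p)

theorem Iw_avg {p : ℝ} (hp : 1 ≤ p) {n : ℕ} (hn : 1 ≤ n) {s : Finset ℕ} (hs : s.card = n)
    {g : ℕ → ℂ → ℂ} (hg : ∀ k ∈ s, AEMeasurable (g k) mb) {ε : ℝ≥0∞}
    (hε : ∀ k ∈ s, Iw p (g k) ≤ ε) :
    Iw p (fun z => (1 / (n:ℂ)) * ∑ k ∈ s, g k z) ≤ ε := by
  have hn0 : (n : ℝ≥0∞) ≠ 0 := by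
    have : n ≠ 0 := by omega
    exact_mod_cast this
  have hnt : (n : ℝ≥0∞) ≠ ∞ := by simp
  have hpt : ∀ z : ℂ, ‖(1 / (n:ℂ)) * ∑ k ∈ s, g k z‖ₑ ^ p ≤ ∑ k ∈ s, (n:ℝ≥0∞)⁻¹ * ‖g k z‖ₑ ^ p := by
    intro z
    have h1 : ‖(1 / (n:ℂ)) * ∑ k ∈ s, g k z‖ₑ ≤ ∑ k ∈ s, (n:ℝ≥0∞)⁻¹ * ‖g k z‖ₑ := by
      rw [enorm_mul, ← Finset.mul_sum]
      apply mul_le_mul'
      · rw [one_div, enorm_inv (by
          have : n ≠ 0 := by omega
          exact_mod_cast this)]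
        apply le_of_eq
        congr 1
        rw [← ofReal_norm, Complex.norm_natCast, ENNReal.ofReal_natCast]
      · exact enorm_sum_le _ _
    refine (ENNReal.rpow_le_rpow h1 (by linarith)).trans ?_
    apply ENNReal.rpow_arith_mean_le_arith_mean_rpow s (fun _ => (n:ℝ≥0∞)⁻¹) _ _ hp
    rw [Finset.sum_const, hs, nsmul_eq_mul, ENNReal.mul_inv_cancel hn0 hnt]
  unfold Iw at hε ⊢
  calc ∫⁻ z in ball (0 : ℂ) 1, ENNReal.ofReal ((1 - ‖z‖) ^ (p - 1)) *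
        ‖(1 / (n:ℂ)) * ∑ k ∈ s, g k z‖ₑ ^ p
      ≤ ∫⁻ z in ball (0 : ℂ) 1, ∑ k ∈ s, (n:ℝ≥0∞)⁻¹ *
          (ENNReal.ofReal ((1 - ‖z‖) ^ (p - 1)) * ‖g k z‖ₑ ^ p) := by
        apply lintegral_mono
        intro z
        simp only
        refine (mul_le_mul_right (hpt z) _).trans (le_of_eq ?_)
        rw [Finset.mul_sum]
        apply Finset.sum_congr rfl
        intro k _
        ring
    _ = ∑ k ∈ s, (n:ℝ≥0∞)⁻¹ * ∫⁻ z in ball (0 : ℂ) 1,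
          (ENNReal.ofReal ((1 - ‖z‖) ^ (p - 1)) * ‖g k z‖ₑ ^ p) := by
        rw [lintegral_finsetSum']
        · apply Finset.sum_congr rfl
          intro k _
          rw [lintegral_const_mul' _ _ (ENNReal.inv_ne_top.2 hn0)]
        · intro k hk
          have hg' : AEMeasurable (g k) (volume.restrict (ball (0:ℂ) 1)) := hg k hk
          have : AEMeasurable (fun z : ℂ => ENNReal.ofReal ((1 - ‖z‖) ^ (p - 1)))
            (volume.restrict (ball (0:ℂ) 1)) := by fun_prop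
          exact (this.mul (hg'.enorm.pow_const p)).const_mul _
    _ ≤ ∑ k ∈ s, (n:ℝ≥0∞)⁻¹ * ε := by
        apply Finset.sum_le_sum
        intro k hk
        exact mul_le_mul_right (hε k hk) _
    _ = ε := by
        rw [Finset.sum_const, hs, nsmul_eq_mul, ← mul_assoc, ENNReal.mul_inv_cancel hn0 hnt, one_mul]

/-- the data of the main step -/
structure Dat (p : ℝ) (f f2 b : ℂ → ℂ) (C : ℝ) : Prop where
  hp : 2 ≤ p
  hf : DifferentiableOn ℂ f (ball 0 1)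
  hf2 : DifferentiableOn ℂ f2 (ball 0 1)
  hb : DifferentiableOn ℂ b (ball 0 1)
  f2le : ∀ z ∈ ball (0:ℂ) 1, ‖f2 z‖ ≤ 1
  ble : ∀ z ∈ ball (0:ℂ) 1, ‖b z‖ ≤ C
  har : ∀ z ∈ ball (0:ℂ) 1, ∀ r : ℝ, ‖z‖ ≤ r → r ≤ 1 → ‖f z‖ * ‖f2 (r * z)‖ ^ 4 ≤ 1
  fin : Iw p (deriv f) ≠ ∞

noncomputable def HH (f2 b : ℂ → ℂ) (z : ℂ) : ℂ := f2 z ^ 5 * b z

variable {p : ℝ} {f f2 b : ℂ → ℂ} {C : ℝ}

theorem Dat.C0 (D : Dat p f f2 b C) : 0 ≤ C :=
  (norm_nonneg _).trans (D.ble 0 (mem_ball_self one_pos))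

theorem Dat.hH (D : Dat p f f2 b C) : DifferentiableOn ℂ (HH f2 b) (ball 0 1) :=
  (D.hf2.pow 5).mul D.hb

theorem Dat.Hle (D : Dat p f f2 b C) : ∀ z ∈ ball (0:ℂ) 1, ‖HH f2 b z‖ ≤ C := by
  intro z hz
  unfold HH
  rw [norm_mul, norm_pow]
  calc ‖f2 z‖ ^ 5 * ‖b z‖ ≤ 1 * C := by
        apply mul_le_mul _ (D.ble z hz) (norm_nonneg _) (by norm_num)
        exact pow_le_one₀ (norm_nonneg _) (D.f2le z hz)
    _ = C := one_mul _

theorem Dat.derivH (D : Dat p f f2 b C) {z : ℂ} (hz : z ∈ ball (0:ℂ) 1) :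
    deriv (HH f2 b) z = 5 * f2 z ^ 4 * deriv f2 z * b z + f2 z ^ 5 * deriv b z := by
  have h1 := (D.hf2.differentiableAt (isOpen_ball.mem_nhds hz)).hasDerivAt
  have h2 := (D.hb.differentiableAt (isOpen_ball.mem_nhds hz)).hasDerivAt
  have h3 := (h1.pow 5).mul h2
  have h4 : HasDerivAt (HH f2 b) (5 * f2 z ^ 4 * deriv f2 z * b z + f2 z ^ 5 * deriv b z) z := by
    refine h3.congr_deriv ?_
    simp
  exact h4.deriv

theorem scale_mem {z : ℂ} (hz : z ∈ ball (0:ℂ) 1) {r : ℝ} (hr0 : 0 ≤ r) (hr1 : r ≤ 1) :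
    (r:ℂ) * z ∈ ball (0:ℂ) 1 := by
  rw [mem_ball_zero_iff] at hz ⊢
  rw [norm_mul, Complex.norm_real, Real.norm_of_nonneg hr0]
  nlinarith [norm_nonneg z]

theorem Dat.mism (D : Dat p f f2 b C) {z : ℂ} (hz : z ∈ ball (0:ℂ) 1) {r : ℝ} (hr : ‖z‖ ≤ r)
    (hr1 : r ≤ 1) : ‖deriv (HH f2 b) (r * z) * f z‖ ≤
      5 * C * ‖deriv f2 (r * z)‖ + ‖deriv b (r * z)‖ := by
  have hr0 : 0 ≤ r := (norm_nonneg z).trans hr
  have hw := scale_mem hz hr0 hr1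
  rw [D.derivH hw]
  set w := (r:ℂ) * z with hw'
  have h1 := D.har z hz r hr hr1
  rw [← hw'] at h1
  have h2 := D.f2le w hw
  have h3 := D.ble w hw
  have hC0 := D.C0
  rw [norm_mul]
  calc ‖5 * f2 w ^ 4 * deriv f2 w * b w + f2 w ^ 5 * deriv b w‖ * ‖f z‖
      ≤ (‖5 * f2 w ^ 4 * deriv f2 w * b w‖ + ‖f2 w ^ 5 * deriv b w‖) * ‖f z‖ := by
        gcongr
        exact norm_add_le _ _
    _ = 5 * (‖f z‖ * ‖f2 w‖ ^ 4) * ‖deriv f2 w‖ * ‖b w‖ +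
        (‖f z‖ * ‖f2 w‖ ^ 4) * ‖f2 w‖ * ‖deriv b w‖ := by
        simp only [norm_mul, norm_pow, Complex.norm_ofNat]
        ring
    _ ≤ 5 * 1 * ‖deriv f2 w‖ * C + 1 * 1 * ‖deriv b w‖ := by
        gcongr
    _ = _ := by ring

theorem Dat.mism_p (D : Dat p f f2 b C) {z : ℂ} (hz : z ∈ ball (0:ℂ) 1) {r : ℝ} (hr : ‖z‖ ≤ r)
    (hr1 : r ≤ 1) : ‖deriv (HH f2 b) (r * z) * f z‖ₑ ^ p ≤
      2 ^ (p - 1) * (ENNReal.ofReal (5 * C) ^ p * ‖deriv f2 (r * z)‖ₑ ^ p +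
        ‖deriv b (r * z)‖ₑ ^ p) := by
  have hC0 := D.C0
  have hp := D.hp
  have h1 : ‖deriv (HH f2 b) (r * z) * f z‖ₑ ≤
      ENNReal.ofReal (5 * C) * ‖deriv f2 (r * z)‖ₑ + ‖deriv b (r * z)‖ₑ := by
    rw [← ofReal_norm, ← ofReal_norm, ← ofReal_norm, ← ENNReal.ofReal_mul (by positivity),
      ← ENNReal.ofReal_add (by positivity) (by positivity)]
    exact ENNReal.ofReal_le_ofReal (D.mism hz hr hr1)
  refine (ENNReal.rpow_le_rpow h1 (by linarith)).trans ?_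
  refine (ENNReal.rpow_add_le_mul_rpow_add_rpow _ _ (by linarith)).trans ?_
  rw [ENNReal.mul_rpow_of_nonneg _ _ (by linarith)]

/-- tails of the mismatched products, uniformly in the dilation -/
theorem Dat.tail (D : Dat p f f2 b C) : ∃ Θ : ℕ → ℝ≥0∞, Tendsto Θ atTop (𝓝 0) ∧
    ∀ m, ∀ r : ℝ, 0 ≤ r → r ≤ 1 → ∫⁻ z in An (rr m) ∩ {z | ‖z‖ ≤ r},
      ENNReal.ofReal ((1 - ‖z‖) ^ (p - 1)) * ‖deriv (HH f2 b) (r * z) * f z‖ₑ ^ p ≤ Θ m := by
  have hp := D.hp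
  obtain ⟨t1, t2⟩ := tail_unif D.hf2 D.f2le hp
  obtain ⟨t3, t4⟩ := tail_unif D.hb D.ble hp
  have h2ne : (2:ℝ≥0∞) ^ (p - 1) ≠ ∞ := ENNReal.rpow_ne_top_of_nonneg (by linarith) (by simp)
  have h5ne : ENNReal.ofReal (5 * C) ^ p ≠ ∞ :=
    ENNReal.rpow_ne_top_of_nonneg (by linarith) ENNReal.ofReal_ne_top
  set T1 : ℕ → ℝ≥0∞ := fun n => ENNReal.ofReal (1 ^ (p - 2)) *
      ∫⁻ z in An (rr n), ENNReal.ofReal (‖deriv f2 z‖ ^ 2 * (1 - ‖z‖)) with hT1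
  set T2 : ℕ → ℝ≥0∞ := fun n => ENNReal.ofReal (C ^ (p - 2)) *
      ∫⁻ z in An (rr n), ENNReal.ofReal (‖deriv b z‖ ^ 2 * (1 - ‖z‖)) with hT2
  refine ⟨fun m => 2 ^ (p - 1) * (ENNReal.ofReal (5 * C) ^ p * T1 m + T2 m), ?_, ?_⟩
  · have h1 := ENNReal.Tendsto.const_mul (a := ENNReal.ofReal (5 * C) ^ p) t1 (Or.inr h5ne)
    have h2 := ENNReal.Tendsto.const_mul (a := (2:ℝ≥0∞) ^ (p - 1)) (h1.add t3) (Or.inr h2ne)
    simpa using h2
  · intro m r hr0 hr1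
    have hset : MeasurableSet (An (rr m) ∩ {z : ℂ | ‖z‖ ≤ r}) :=
      (An_meas _).inter (measurableSet_le measurable_norm measurable_const)
    have hmd : Measurable fun z : ℂ => deriv f2 (r * z) :=
      (measurable_deriv f2).comp (measurable_const.mul measurable_id)
    have hmb : Measurable fun z : ℂ => deriv b (r * z) :=
      (measurable_deriv b).comp (measurable_const.mul measurable_id)
    calc ∫⁻ z in An (rr m) ∩ {z | ‖z‖ ≤ r},
        ENNReal.ofReal ((1 - ‖z‖) ^ (p - 1)) * ‖deriv (HH f2 b) (r * z) * f z‖ₑ ^ p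
        ≤ ∫⁻ z in An (rr m) ∩ {z | ‖z‖ ≤ r}, 2 ^ (p - 1) * (ENNReal.ofReal (5 * C) ^ p *
            (ENNReal.ofReal ((1 - ‖z‖) ^ (p - 1)) * ‖deriv f2 (r * z)‖ₑ ^ p) +
            ENNReal.ofReal ((1 - ‖z‖) ^ (p - 1)) * ‖deriv b (r * z)‖ₑ ^ p) := by
          apply setLIntegral_mono' hset
          intro z hz
          refine (mul_le_mul_right (D.mism_p hz.1.1 hz.2 hr1) _).trans (le_of_eq ?_)
          ring
      _ ≤ ∫⁻ z in An (rr m), 2 ^ (p - 1) * (ENNReal.ofReal (5 * C) ^ p *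
            (ENNReal.ofReal ((1 - ‖z‖) ^ (p - 1)) * ‖deriv f2 (r * z)‖ₑ ^ p) +
            ENNReal.ofReal ((1 - ‖z‖) ^ (p - 1)) * ‖deriv b (r * z)‖ₑ ^ p) :=
          lintegral_mono_set inter_subset_left
      _ = 2 ^ (p - 1) * (ENNReal.ofReal (5 * C) ^ p * (∫⁻ z in An (rr m),
            ENNReal.ofReal ((1 - ‖z‖) ^ (p - 1)) * ‖deriv f2 (r * z)‖ₑ ^ p) +
            ∫⁻ z in An (rr m), ENNReal.ofReal ((1 - ‖z‖) ^ (p - 1)) *
              ‖deriv b (r * z)‖ₑ ^ p) := by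
          rw [lintegral_const_mul' _ _ h2ne, lintegral_add_left (by fun_prop),
            lintegral_const_mul' _ _ h5ne]
      _ ≤ _ := mul_le_mul_right (add_le_add (mul_le_mul_right (t2 m r hr0 hr1) _)
          (t4 m r hr0 hr1)) _

theorem scale_cont {g : ℂ → ℂ} (hg : ContinuousOn g (ball 0 1)) {r : ℝ} (hr0 : 0 ≤ r)
    (hr1 : r ≤ 1) : ContinuousOn (fun z => g (r * z)) (ball 0 1) := by
  apply hg.comp (by fun_prop)
  intro z hz
  exact scale_mem hz hr0 hr1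

theorem scale_tendsto {g : ℂ → ℂ} (hg : ContinuousOn g (ball 0 1)) {z : ℂ}
    (hz : z ∈ ball (0:ℂ) 1) : Tendsto (fun k => g ((rr k : ℂ) * z)) atTop (𝓝 (g z)) := by
  have h1 : Tendsto (fun k => (rr k : ℂ) * z) atTop (𝓝 z) := by
    have h2 : Tendsto (fun k => (rr k : ℂ)) atTop (𝓝 ((1:ℝ) : ℂ)) :=
      (Complex.continuous_ofReal.tendsto 1).comp rr_tendsto
    have h3 := h2.mul_const z
    simpa using h3
  exact ((hg.continuousAt (isOpen_ball.mem_nhds hz)).tendsto).comp h1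

/-- part (a) -/
theorem Dat.part_a (D : Dat p f f2 b C) :
    Tendsto (fun k => Iw p (fun z => (HH f2 b ((rr k : ℂ) * z) - HH f2 b z) * deriv f z))
      atTop (𝓝 0) := by
  have hp := D.hp
  have hC0 := D.C0
  have hHc := D.hH.continuousOn
  have h0 : ∫⁻ z in ball (0:ℂ) 1, (0:ℝ≥0∞) = 0 := by simp
  rw [← h0]
  unfold Iw
  apply tendsto_lintegral_of_dominated_convergence' (fun z => ENNReal.ofReal (2 * C) ^ p *
    (ENNReal.ofReal ((1 - ‖z‖) ^ (p - 1)) * ‖deriv f z‖ₑ ^ p))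
  · intro k
    have h1 : AEMeasurable (fun z => HH f2 b ((rr k : ℂ) * z)) (volume.restrict (ball (0:ℂ) 1)) :=
      (scale_cont hHc (rr_nonneg k) (rr_lt k).le).aemeasurable measurableSet_ball
    have h2 : AEMeasurable (fun z => HH f2 b z) (volume.restrict (ball (0:ℂ) 1)) :=
      hHc.aemeasurable measurableSet_ball
    have h3 := measurable_deriv f
    fun_prop
  · intro k
    filter_upwards [ae_restrict_mem measurableSet_ball] with z hz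
    rw [enorm_mul, ENNReal.mul_rpow_of_nonneg _ _ (by linarith)]
    have h1 : ‖HH f2 b ((rr k : ℂ) * z) - HH f2 b z‖ₑ ≤ ENNReal.ofReal (2 * C) := by
      rw [← ofReal_norm]
      apply ENNReal.ofReal_le_ofReal
      refine (norm_sub_le _ _).trans ?_
      have := D.Hle _ (scale_mem hz (rr_nonneg k) (rr_lt k).le)
      have := D.Hle z hz
      linarith
    calc ENNReal.ofReal ((1 - ‖z‖) ^ (p - 1)) * (‖HH f2 b ((rr k : ℂ) * z) - HH f2 b z‖ₑ ^ p *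
          ‖deriv f z‖ₑ ^ p)
        ≤ ENNReal.ofReal ((1 - ‖z‖) ^ (p - 1)) * (ENNReal.ofReal (2 * C) ^ p *
          ‖deriv f z‖ₑ ^ p) := by
          gcongr
      _ = _ := by ring
  · rw [lintegral_const_mul' _ _ (ENNReal.rpow_ne_top_of_nonneg (by linarith)
      ENNReal.ofReal_ne_top)]
    exact ENNReal.mul_ne_top (ENNReal.rpow_ne_top_of_nonneg (by linarith)
      ENNReal.ofReal_ne_top) D.fin
  · filter_upwards [ae_restrict_mem measurableSet_ball] with z hz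
    have h1 := scale_tendsto hHc hz
    have h2 : Tendsto (fun k => (HH f2 b ((rr k : ℂ) * z) - HH f2 b z) * deriv f z) atTop
        (𝓝 0) := by
      have h3 := (h1.sub_const (HH f2 b z)).mul_const (deriv f z)
      simpa using h3
    have h4 := (ENNReal.continuous_rpow_const (y := p)).tendsto ‖(0:ℂ)‖ₑ |>.comp
      ((continuous_enorm.tendsto (0:ℂ)).comp h2)
    rw [enorm_zero, ENNReal.zero_rpow_of_pos (by linarith)] at h4
    have h5 := ENNReal.Tendsto.const_mul (a := ENNReal.ofReal ((1 - ‖z‖) ^ (p - 1))) h4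
      (Or.inr ENNReal.ofReal_ne_top)
    rw [mul_zero] at h5
    exact h5

end Pool.Agent.R402.Cy
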