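import Mathlib
import Pool.Agent.R402.CyE
set_option autoImplicit false
open MeasureTheory Filter Topology Set Complex Metric
open scoped ENNReal NNReal Real

/-! The main step, concluded. -/

namespace Pool.Agent.R402.Cy

variable {p : ℝ} {f f2 b : ℂ → ℂ} {C : ℝ}

noncomputable def g1 (f f2 b : ℂ → ℂ) (k : ℕ) (z : ℂ) : ℂ :=
  if ‖z‖ ≤ rr k then (rr k : ℂ) * deriv (HH f2 b) (rr k * z) * f z else 0

noncomputable def dd (f f2 b : ℂ → ℂ) (k : ℕ) (z : ℂ) : ℂ :=
  if ‖z‖ ≤ rr k then 0 else (rr k : ℂ) * deriv (HH f2 b) (rr k * z) * f z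

noncomputable def uu (f f2 b : ℂ → ℂ) (k : ℕ) (z : ℂ) : ℂ :=
  g1 f f2 b k z - deriv (HH f2 b) z * f z

theorem Dat.f_meas (D : Dat p f f2 b C) : AEMeasurable f mb :=
  D.hf.continuousOn.aemeasurable measurableSet_ball

theorem dH_meas (k : ℕ) : Measurable fun z : ℂ => deriv (HH f2 b) (rr k * z) :=
  (measurable_deriv (HH f2 b)).comp (measurable_const.mul measurable_id)

theorem set_meas (k : ℕ) : MeasurableSet {z : ℂ | ‖z‖ ≤ rr k} :=
  measurableSet_le measurable_norm measurable_const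

theorem Dat.g1_meas (D : Dat p f f2 b C) (k : ℕ) : AEMeasurable (g1 f f2 b k) mb := by
  have h1 := ind_meas D.hf
  have h2 : Measurable fun z : ℂ => if ‖z‖ ≤ rr k then
      (rr k : ℂ) * deriv (HH f2 b) (rr k * z) * (ball (0:ℂ) 1).indicator f z else 0 := by
    apply Measurable.ite (set_meas k) _ measurable_const
    exact (measurable_const.mul (dH_meas k)).mul h1
  refine ⟨_, h2, ?_⟩
  unfold mb
  filter_upwards [ae_restrict_mem measurableSet_ball] with z hz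
  unfold g1
  rw [indicator_of_mem hz]

theorem Dat.dd_meas (D : Dat p f f2 b C) (k : ℕ) : AEMeasurable (dd f f2 b k) mb := by
  have h1 := ind_meas D.hf
  have h2 : Measurable fun z : ℂ => if ‖z‖ ≤ rr k then 0 else
      (rr k : ℂ) * deriv (HH f2 b) (rr k * z) * (ball (0:ℂ) 1).indicator f z := by
    apply Measurable.ite (set_meas k) measurable_const
    exact (measurable_const.mul (dH_meas k)).mul h1
  refine ⟨_, h2, ?_⟩
  unfold mb
  filter_upwards [ae_restrict_mem measurableSet_ball] with z hz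
  unfold dd
  rw [indicator_of_mem hz]

theorem Dat.uu_meas (D : Dat p f f2 b C) (k : ℕ) : AEMeasurable (uu f f2 b k) mb := by
  unfold uu
  exact (D.g1_meas k).sub ((measurable_deriv _).aemeasurable.mul D.f_meas)

theorem Dat.derivH_cont (D : Dat p f f2 b C) : ContinuousOn (deriv (HH f2 b)) (ball 0 1) :=
  (D.hH.deriv isOpen_ball).continuousOn

theorem Dat.inner (D : Dat p f f2 b C) (m : ℕ) :
    Tendsto (fun k => ∫⁻ z in closedBall (0:ℂ) (rr m),
      ENNReal.ofReal ((1 - ‖z‖) ^ (p - 1)) * ‖uu f f2 b k z‖ₑ ^ p) atTop (𝓝 0) := by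
  have hp := D.hp
  obtain ⟨K1, hK1, hK1b⟩ := circ_bdd D.derivH_cont (rr_lt m)
  obtain ⟨K2, hK2, hK2b⟩ := circ_bdd D.hf.continuousOn (rr_lt m)
  have hsub : closedBall (0:ℂ) (rr m) ⊆ ball 0 1 := closedBall_subset_ball (rr_lt m)
  have h0 : ∫⁻ z in closedBall (0:ℂ) (rr m), (0:ℝ≥0∞) = 0 := by simp
  rw [← h0]
  apply tendsto_lintegral_of_dominated_convergence' (fun z => (K1 * K2 + K1 * K2) ^ p)
  · intro k
    have h1 : AEMeasurable (uu f f2 b k) (volume.restrict (ball (0:ℂ) 1)) := D.uu_meas k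
    have h2 : AEMeasurable (uu f f2 b k) (volume.restrict (closedBall (0:ℂ) (rr m))) :=
      h1.mono_set hsub
    have h3 : AEMeasurable (fun z : ℂ => ENNReal.ofReal ((1 - ‖z‖) ^ (p - 1)))
      (volume.restrict (closedBall (0:ℂ) (rr m))) := by fun_prop
    exact h3.mul (h2.enorm.pow_const p)
  · intro k
    filter_upwards [ae_restrict_mem measurableSet_closedBall] with z hz
    have hzb := hsub hz
    rw [mem_closedBall_zero_iff] at hz
    have hz1 : ‖z‖ < 1 := mem_ball_zero_iff.1 hzb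
    have h1 : ENNReal.ofReal ((1 - ‖z‖) ^ (p - 1)) ≤ 1 := by
      rw [show (1:ℝ≥0∞) = ENNReal.ofReal 1 by simp]
      apply ENNReal.ofReal_le_ofReal
      exact Real.rpow_le_one (by linarith) (by linarith [norm_nonneg z]) (by linarith)
    have h2 : ‖uu f f2 b k z‖ₑ ≤ K1 * K2 + K1 * K2 := by
      unfold uu
      refine (enorm_sub_le).trans ?_
      apply add_le_add
      · unfold g1
        split_ifs with hc
        · rw [enorm_mul, enorm_mul]
          have h3 : ‖(rr k : ℂ)‖ₑ ≤ 1 := by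
            rw [← ofReal_norm, Complex.norm_real, Real.norm_of_nonneg (rr_nonneg k),
              show (1:ℝ≥0∞) = ENNReal.ofReal 1 by simp]
            exact ENNReal.ofReal_le_ofReal (rr_lt k).le
          have h4 : ‖(rr k : ℂ) * z‖ ≤ rr m := by
            rw [norm_mul, Complex.norm_real, Real.norm_of_nonneg (rr_nonneg k)]
            nlinarith [rr_lt k, norm_nonneg z]
          calc ‖(rr k : ℂ)‖ₑ * ‖deriv (HH f2 b) (rr k * z)‖ₑ * ‖f z‖ₑ ≤ 1 * K1 * K2 := by
                gcongr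
                · exact hK1b _ h4
                · exact hK2b _ hz
            _ = K1 * K2 := by rw [one_mul]
        · simp
      · rw [enorm_mul]
        gcongr
        · exact hK1b _ hz
        · exact hK2b _ hz
    calc ENNReal.ofReal ((1 - ‖z‖) ^ (p - 1)) * ‖uu f f2 b k z‖ₑ ^ p
        ≤ 1 * (K1 * K2 + K1 * K2) ^ p := by gcongr
      _ = _ := one_mul _
  · rw [lintegral_const, Measure.restrict_apply_univ]
    apply ENNReal.mul_ne_top
    · apply ENNReal.rpow_ne_top_of_nonneg (by linarith)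
      exact ENNReal.add_ne_top.2 ⟨ENNReal.mul_ne_top hK1 hK2, ENNReal.mul_ne_top hK1 hK2⟩
    · exact measure_closedBall_lt_top.ne
  · filter_upwards [ae_restrict_mem measurableSet_closedBall] with z hz
    have hzb := hsub hz
    rw [mem_closedBall_zero_iff] at hz
    have h2 : Tendsto (fun k => uu f f2 b k z) atTop (𝓝 0) := by
      have h3 := scale_tendsto D.derivH_cont hzb
      have h4 : Tendsto (fun k => (rr k : ℂ)) atTop (𝓝 ((1:ℝ) : ℂ)) :=
        (Complex.continuous_ofReal.tendsto 1).comp rr_tendsto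
      have h5 := ((h4.mul h3).mul_const (f z)).sub_const (deriv (HH f2 b) z * f z)
      rw [Complex.ofReal_one, one_mul, sub_self] at h5
      apply h5.congr'
      filter_upwards [eventually_ge_atTop m] with k hk
      unfold uu g1
      rw [if_pos (hz.trans (rr_mono hk))]
    have h4 := (ENNReal.continuous_rpow_const (y := p)).tendsto ‖(0:ℂ)‖ₑ |>.comp
      ((continuous_enorm.tendsto (0:ℂ)).comp h2)
    rw [enorm_zero, ENNReal.zero_rpow_of_pos (by linarith)] at h4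
    have h5 := ENNReal.Tendsto.const_mul (a := ENNReal.ofReal ((1 - ‖z‖) ^ (p - 1))) h4
      (Or.inr ENNReal.ofReal_ne_top)
    rw [mul_zero] at h5
    exact h5

theorem Dat.part_b (D : Dat p f f2 b C) :
    Tendsto (fun k => Iw p (uu f f2 b k)) atTop (𝓝 0) := by
  have hp := D.hp
  have h2ne : (2:ℝ≥0∞) ^ (p - 1) ≠ ∞ := ENNReal.rpow_ne_top_of_nonneg (by linarith) (by simp)
  obtain ⟨Θ, hΘ, hΘb⟩ := D.tail
  have h1 := ENNReal.Tendsto.const_mul (a := (2:ℝ≥0∞) ^ (p - 1)) (hΘ.add hΘ) (Or.inr h2ne)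
  rw [add_zero, mul_zero] at h1
  rw [ENNReal.tendsto_nhds_zero] at h1 ⊢
  intro ε hε
  have hε2 : 0 < ε / 2 := ENNReal.half_pos hε.ne'
  obtain ⟨m, hm⟩ := (h1 (ε / 2) hε2).exists
  have h2 := D.inner m
  rw [ENNReal.tendsto_nhds_zero] at h2
  filter_upwards [h2 (ε / 2) hε2] with k hk
  have hcover : ball (0:ℂ) 1 ⊆ closedBall 0 (rr m) ∪ An (rr m) := by
    intro z hz
    by_cases h : ‖z‖ ≤ rr m
    · exact Or.inl (mem_closedBall_zero_iff.2 h)
    · exact Or.inr ⟨hz, not_le.1 h⟩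
  have h3 : ∫⁻ z in An (rr m), ENNReal.ofReal ((1 - ‖z‖) ^ (p - 1)) * ‖g1 f f2 b k z‖ₑ ^ p ≤
      Θ m := by
    refine le_trans ?_ (hΘb m (rr k) (rr_nonneg k) (rr_lt k).le)
    rw [inter_comm, ← setLIntegral_indicator (set_meas k)]
    apply setLIntegral_mono' (An_meas _)
    intro z hz
    by_cases hc : ‖z‖ ≤ rr k
    · rw [indicator_of_mem (show z ∈ {z : ℂ | ‖z‖ ≤ rr k} from hc)]
      unfold g1
      rw [if_pos hc]
      gcongr
      rw [mul_assoc, enorm_mul]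
      apply mul_le_of_le_one_left zero_le
      rw [← ofReal_norm, Complex.norm_real, Real.norm_of_nonneg (rr_nonneg k),
        show (1:ℝ≥0∞) = ENNReal.ofReal 1 by simp]
      exact ENNReal.ofReal_le_ofReal (rr_lt k).le
    · unfold g1
      rw [if_neg hc, enorm_zero, ENNReal.zero_rpow_of_pos (by linarith), mul_zero]
      exact zero_le
  have h4 : ∫⁻ z in An (rr m), ENNReal.ofReal ((1 - ‖z‖) ^ (p - 1)) *
      ‖deriv (HH f2 b) z * f z‖ₑ ^ p ≤ Θ m := by
    have h5 := hΘb m 1 zero_le_one le_rfl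
    have h6 : An (rr m) ∩ {z : ℂ | ‖z‖ ≤ 1} = An (rr m) := by
      apply inter_eq_left.2
      intro z hz
      exact (mem_ball_zero_iff.1 hz.1).le
    rw [h6] at h5
    simpa using h5
  have h5 : ∫⁻ z in An (rr m), ENNReal.ofReal ((1 - ‖z‖) ^ (p - 1)) * ‖uu f f2 b k z‖ₑ ^ p ≤
      2 ^ (p - 1) * (Θ m + Θ m) := by
    calc ∫⁻ z in An (rr m), ENNReal.ofReal ((1 - ‖z‖) ^ (p - 1)) * ‖uu f f2 b k z‖ₑ ^ p
        ≤ ∫⁻ z in An (rr m), 2 ^ (p - 1) *
            (ENNReal.ofReal ((1 - ‖z‖) ^ (p - 1)) * ‖g1 f f2 b k z‖ₑ ^ p +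
            ENNReal.ofReal ((1 - ‖z‖) ^ (p - 1)) * ‖deriv (HH f2 b) z * f z‖ₑ ^ p) := by
          apply lintegral_mono
          intro z
          simp only
          unfold uu
          calc ENNReal.ofReal ((1 - ‖z‖) ^ (p - 1)) *
                ‖g1 f f2 b k z - deriv (HH f2 b) z * f z‖ₑ ^ p
              ≤ ENNReal.ofReal ((1 - ‖z‖) ^ (p - 1)) * (2 ^ (p - 1) * (‖g1 f f2 b k z‖ₑ ^ p +
                  ‖deriv (HH f2 b) z * f z‖ₑ ^ p)) := by
                gcongr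
                exact (ENNReal.rpow_le_rpow enorm_sub_le (by linarith)).trans
                  (ENNReal.rpow_add_le_mul_rpow_add_rpow _ _ (by linarith))
            _ = _ := by ring
      _ = 2 ^ (p - 1) * ((∫⁻ z in An (rr m), ENNReal.ofReal ((1 - ‖z‖) ^ (p - 1)) *
            ‖g1 f f2 b k z‖ₑ ^ p) + ∫⁻ z in An (rr m), ENNReal.ofReal ((1 - ‖z‖) ^ (p - 1)) *
            ‖deriv (HH f2 b) z * f z‖ₑ ^ p) := by
          rw [lintegral_const_mul' _ _ h2ne, lintegral_add_left']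
          have h6 : AEMeasurable (g1 f f2 b k) (volume.restrict (ball (0:ℂ) 1)) := D.g1_meas k
          have h7 : AEMeasurable (g1 f f2 b k) (volume.restrict (An (rr m))) :=
            h6.mono_set inter_subset_left
          have h8 : AEMeasurable (fun z : ℂ => ENNReal.ofReal ((1 - ‖z‖) ^ (p - 1)))
            (volume.restrict (An (rr m))) := by fun_prop
          exact h8.mul (h7.enorm.pow_const p)
      _ ≤ _ := mul_le_mul_right (add_le_add h3 h4) _
  unfold Iw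
  calc ∫⁻ z in ball (0:ℂ) 1, ENNReal.ofReal ((1 - ‖z‖) ^ (p - 1)) * ‖uu f f2 b k z‖ₑ ^ p
      ≤ ∫⁻ z in closedBall 0 (rr m) ∪ An (rr m), ENNReal.ofReal ((1 - ‖z‖) ^ (p - 1)) *
          ‖uu f f2 b k z‖ₑ ^ p := lintegral_mono_set hcover
    _ ≤ (∫⁻ z in closedBall 0 (rr m), ENNReal.ofReal ((1 - ‖z‖) ^ (p - 1)) *
          ‖uu f f2 b k z‖ₑ ^ p) + ∫⁻ z in An (rr m), ENNReal.ofReal ((1 - ‖z‖) ^ (p - 1)) *
          ‖uu f f2 b k z‖ₑ ^ p := lintegral_union_le _ _ _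
    _ ≤ ε / 2 + ε / 2 := add_le_add hk (h5.trans hm)
    _ = ε := ENNReal.add_halves ε

theorem Dat.dd_bound (D : Dat p f f2 b C) {n : ℕ} {z : ℂ} (hz : z ∈ ball (0:ℂ) 1) :
    ‖(1 / (n:ℂ)) * ∑ k ∈ Finset.Ioc n (2 * n), dd f f2 b k z‖ ≤ C * (Sn n ‖z‖ / n) * ‖f z‖ := by
  have hC0 := D.C0
  have h1 : ∀ k, ‖dd f f2 b k z‖ ≤ (if rr k < ‖z‖ then (2:ℝ) ^ k else 0) * (C * ‖f z‖) := by
    intro k
    unfold dd
    by_cases hc : ‖z‖ ≤ rr k
    · rw [if_pos hc, if_neg (not_lt.2 hc)]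
      simp
    · rw [if_neg hc, if_pos (not_le.1 hc)]
      have hw := scale_mem hz (rr_nonneg k) (rr_lt k).le
      have h2 := cauchy_est D.hH D.Hle (mem_ball_zero_iff.1 hw)
      have h3 : (1 / 2 : ℝ) ^ k ≤ 1 - ‖(rr k : ℂ) * z‖ := by
        rw [norm_mul, Complex.norm_real, Real.norm_of_nonneg (rr_nonneg k)]
        have : (1 / 2 : ℝ) ^ k = 1 - rr k := by unfold rr; ring
        rw [this]
        nlinarith [mem_ball_zero_iff.1 hz, rr_nonneg k]
      have h4 : ‖deriv (HH f2 b) (rr k * z)‖ * (1 / 2) ^ k ≤ C :=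
        (mul_le_mul_of_nonneg_left h3 (norm_nonneg _)).trans h2
      have h5 : ‖deriv (HH f2 b) (rr k * z)‖ ≤ 2 ^ k * C := by
        have h6 : (2:ℝ) ^ k * (1 / 2) ^ k = 1 := by rw [← mul_pow]; norm_num
        calc ‖deriv (HH f2 b) (rr k * z)‖ = 2 ^ k * (‖deriv (HH f2 b) (rr k * z)‖ * (1 / 2) ^ k) := by
              rw [mul_comm (‖deriv (HH f2 b) (rr k * z)‖), ← mul_assoc, h6, one_mul]
          _ ≤ 2 ^ k * C := mul_le_mul_of_nonneg_left h4 (by positivity)
      rw [norm_mul, norm_mul, Complex.norm_real, Real.norm_of_nonneg (rr_nonneg k)]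
      calc rr k * ‖deriv (HH f2 b) (rr k * z)‖ * ‖f z‖ ≤ 1 * (2 ^ k * C) * ‖f z‖ := by
            gcongr
            exact (rr_lt k).le
        _ = _ := by ring
  rw [norm_mul]
  have h2 : ‖∑ k ∈ Finset.Ioc n (2 * n), dd f f2 b k z‖ ≤ Sn n ‖z‖ * (C * ‖f z‖) := by
    refine (norm_sum_le _ _).trans ?_
    unfold Sn
    rw [Finset.sum_mul]
    exact Finset.sum_le_sum fun k _ => h1 k
  have h3 : ‖(1 / (n:ℂ))‖ = 1 / n := by
    rw [norm_div, norm_one, Complex.norm_natCast]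
  rw [h3]
  calc 1 / (n:ℝ) * ‖∑ k ∈ Finset.Ioc n (2 * n), dd f f2 b k z‖
      ≤ 1 / n * (Sn n ‖z‖ * (C * ‖f z‖)) := mul_le_mul_of_nonneg_left h2 (by positivity)
    _ = _ := by ring

theorem Dat.part_d (D : Dat p f f2 b C) (n : ℕ) :
    Iw p (fun z => (1 / (n:ℂ)) * ∑ k ∈ Finset.Ioc n (2 * n), dd f f2 b k z) ≤
      ENNReal.ofReal C ^ p * ∫⁻ z in ball (0:ℂ) 1, wt p n ‖z‖ * ‖f z‖ₑ ^ p := by
  have hp := D.hp
  have hC0 := D.C0
  unfold Iw
  rw [← lintegral_const_mul' _ _ (ENNReal.rpow_ne_top_of_nonneg (by linarith)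
    ENNReal.ofReal_ne_top)]
  apply setLIntegral_mono' measurableSet_ball
  intro z hz
  have h1 := D.dd_bound (n := n) hz
  have hS := Sn_nonneg n ‖z‖
  have h2 : ‖(1 / (n:ℂ)) * ∑ k ∈ Finset.Ioc n (2 * n), dd f f2 b k z‖ₑ ≤
      ENNReal.ofReal C * ENNReal.ofReal (Sn n ‖z‖ / n) * ‖f z‖ₑ := by
    rw [← ofReal_norm, ← ofReal_norm, ← ENNReal.ofReal_mul hC0,
      ← ENNReal.ofReal_mul (by positivity)]
    exact ENNReal.ofReal_le_ofReal h1
  calc ENNReal.ofReal ((1 - ‖z‖) ^ (p - 1)) *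
        ‖(1 / (n:ℂ)) * ∑ k ∈ Finset.Ioc n (2 * n), dd f f2 b k z‖ₑ ^ p
      ≤ ENNReal.ofReal ((1 - ‖z‖) ^ (p - 1)) *
        (ENNReal.ofReal C * ENNReal.ofReal (Sn n ‖z‖ / n) * ‖f z‖ₑ) ^ p := by
        gcongr
    _ = _ := by
        rw [ENNReal.mul_rpow_of_nonneg _ _ (by linarith), ENNReal.mul_rpow_of_nonneg _ _
          (by linarith)]
        unfold wt
        ring

/-- the main step -/
theorem Dat.main (D : Dat p f f2 b C) {ε : ℝ≥0∞} (hε : 0 < ε) :
    ∃ n : ℕ, 1 ≤ n ∧ Iw p (fun z => (1 / (n:ℂ)) * ∑ k ∈ Finset.Ioc n (2 * n),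
      ((rr k : ℂ) * deriv (HH f2 b) (rr k * z) * f z + HH f2 b (rr k * z) * deriv f z) -
      (deriv (HH f2 b) z * f z + HH f2 b z * deriv f z)) ≤ ε := by
  have hp := D.hp
  have hC0 := D.C0
  have h2ne : (2:ℝ≥0∞) ^ (p - 1) ≠ ∞ := ENNReal.rpow_ne_top_of_nonneg (by linarith) (by simp)
  have hCne : ENNReal.ofReal C ^ p ≠ ∞ :=
    ENNReal.rpow_ne_top_of_nonneg (by linarith) ENNReal.ofReal_ne_top
  set vv : ℕ → ℂ → ℂ := fun k z => (HH f2 b ((rr k : ℂ) * z) - HH f2 b z) * deriv f z with hvv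
  have hvvm : ∀ k, AEMeasurable (vv k) mb := by
    intro k
    have hHc := D.hH.continuousOn
    have h1 : AEMeasurable (fun z => HH f2 b ((rr k : ℂ) * z)) mb :=
      (scale_cont hHc (rr_nonneg k) (rr_lt k).le).aemeasurable measurableSet_ball
    have h2 : AEMeasurable (fun z => HH f2 b z) mb :=
      hHc.aemeasurable measurableSet_ball
    exact (h1.sub h2).mul (measurable_deriv f).aemeasurable
  have hE : Tendsto (fun k => 2 ^ (p - 1) * (2 ^ (p - 1) * (Iw p (uu f f2 b k) + Iw p (vv k))))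
      atTop (𝓝 0) := by
    have h1 := ENNReal.Tendsto.const_mul (a := (2:ℝ≥0∞) ^ (p - 1)) (D.part_b.add D.part_a)
      (Or.inr h2ne)
    have h2 := ENNReal.Tendsto.const_mul (a := (2:ℝ≥0∞) ^ (p - 1)) h1 (Or.inr h2ne)
    simpa using h2
  have hO : Tendsto (fun n => 2 ^ (p - 1) * (ENNReal.ofReal C ^ p *
      ∫⁻ z in ball (0:ℂ) 1, wt p n ‖z‖ * ‖f z‖ₑ ^ p)) atTop (𝓝 0) := by
    have h1 := ENNReal.Tendsto.const_mul (a := ENNReal.ofReal C ^ p)
      (outer D.hf (by linarith) D.fin) (Or.inr hCne)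
    have h2 := ENNReal.Tendsto.const_mul (a := (2:ℝ≥0∞) ^ (p - 1)) h1 (Or.inr h2ne)
    simpa using h2
  rw [ENNReal.tendsto_nhds_zero] at hE hO
  have hε2 : 0 < ε / 2 := ENNReal.half_pos hε.ne'
  obtain ⟨N, hN⟩ := eventually_atTop.1 (hE (ε / 2) hε2)
  obtain ⟨n, hn1, hn2, hn3⟩ := ((hO (ε / 2) hε2).and
    ((eventually_ge_atTop N).and (eventually_ge_atTop 1))).exists
  refine ⟨n, hn3, ?_⟩
  have hn0 : (n:ℂ) ≠ 0 := by
    have : n ≠ 0 := by omega
    exact_mod_cast this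
  have hcard : (Finset.Ioc n (2 * n)).card = n := by
    rw [Nat.card_Ioc]; omega
  set E : ℂ → ℂ := fun z => (1 / (n:ℂ)) * ∑ k ∈ Finset.Ioc n (2 * n),
    (uu f f2 b k z + vv k z) with hEdef
  have hsplit : ∀ z ∈ ball (0:ℂ) 1, (1 / (n:ℂ)) * ∑ k ∈ Finset.Ioc n (2 * n),
      ((rr k : ℂ) * deriv (HH f2 b) (rr k * z) * f z + HH f2 b (rr k * z) * deriv f z) -
      (deriv (HH f2 b) z * f z + HH f2 b z * deriv f z) =
      E z + (1 / (n:ℂ)) * ∑ k ∈ Finset.Ioc n (2 * n), dd f f2 b k z := by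
    intro z _
    rw [hEdef]
    simp only
    rw [← mul_add, ← Finset.sum_add_distrib]
    have h1 : ∀ k ∈ Finset.Ioc n (2 * n), uu f f2 b k z + vv k z + dd f f2 b k z =
        ((rr k : ℂ) * deriv (HH f2 b) (rr k * z) * f z + HH f2 b (rr k * z) * deriv f z) -
        (deriv (HH f2 b) z * f z + HH f2 b z * deriv f z) := by
      intro k _
      unfold uu g1 dd
      rw [hvv]
      simp only
      split_ifs <;> ring
    rw [Finset.sum_congr rfl h1, Finset.sum_sub_distrib, Finset.sum_const, hcard, nsmul_eq_mul,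
      mul_sub, ← mul_assoc (1 / (n:ℂ)) (n:ℂ), one_div_mul_cancel hn0, one_mul]
  rw [Iw_congr hsplit]
  have hEm : AEMeasurable E mb := by
    rw [hEdef]
    apply AEMeasurable.const_mul
    apply Finset.aemeasurable_fun_sum
    intro k _
    exact (D.uu_meas k).add (hvvm k)
  refine (Iw_add (by linarith) hEm).trans ?_
  rw [mul_add]
  have hA : 2 ^ (p - 1) * Iw p E ≤ ε / 2 := by
    by_cases hfin : (2:ℝ≥0∞) ^ (p - 1) = 0
    · rw [hfin, zero_mul]; exact zero_le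
    · have h1 : Iw p E ≤ (ε / 2) / 2 ^ (p - 1) := by
        rw [hEdef]
        apply Iw_avg (by linarith) hn3 hcard
        · intro k _
          exact (D.uu_meas k).add (hvvm k)
        · intro k hk
          rw [Finset.mem_Ioc] at hk
          rw [ENNReal.le_div_iff_mul_le (Or.inl hfin) (Or.inl h2ne), mul_comm]
          refine le_trans ?_ (hN k (by omega))
          exact mul_le_mul_right (Iw_add (by linarith) (D.uu_meas k)) _
      rw [ENNReal.le_div_iff_mul_le (Or.inl hfin) (Or.inl h2ne), mul_comm] at h1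
      exact h1
  have hB : 2 ^ (p - 1) * Iw p (fun z => (1 / (n:ℂ)) * ∑ k ∈ Finset.Ioc n (2 * n),
      dd f f2 b k z) ≤ ε / 2 :=
    (mul_le_mul_right (D.part_d n) _).trans hn1
  calc _ ≤ ε / 2 + ε / 2 := add_le_add hA hB
    _ = ε := ENNReal.add_halves ε

end Pool.Agent.R402.Cy
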