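import Mathlib
import Pool.Agent.R402.CyF
set_option autoImplicit false
open MeasureTheory Filter Topology Set Complex Metric
open scoped ENNReal NNReal Real

/-! Polynomial approximation and assembly. -/

namespace Pool.Agent.R402.Cy
open Polynomial (C X)

theorem poly_approx0 {H : ℂ → ℂ} (hH : DifferentiableOn ℂ H (ball 0 1)) {r : ℝ}
    (hr1 : r < 1) {δ : ℝ} (hδ : 0 < δ) :
    ∃ P : Polynomial ℂ, ∀ w : ℂ, ‖w‖ ≤ r → ‖P.eval w - H w‖ ≤ δ ∧
      ‖P.derivative.eval w - deriv H w‖ ≤ δ := by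
  obtain ⟨s, hs1, hs2⟩ := exists_between (max_lt hr1 one_pos)
  have hrs : r < s := (le_max_left _ _).trans_lt hs1
  have hs0 : 0 < s := (le_max_right _ _).trans_lt hs1
  set s' : ℝ≥0 := ⟨s, hs0.le⟩ with hs'
  have hd : DifferentiableOn ℂ H (closedBall 0 s') :=
    hH.mono (closedBall_subset_ball hs2)
  have hps := hd.hasFPowerSeriesOnBall (by exact_mod_cast hs0 : 0 < s')
  set a := cauchyPowerSeries H 0 s' with ha
  have h1 := hps.tendstoLocallyUniformlyOn
  have hball : Metric.eball (0:ℂ) (s' : ℝ≥0∞) = ball (0:ℂ) s := by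
    rw [Metric.eball_coe]
    rfl
  rw [hball] at h1
  set P : ℕ → Polynomial ℂ := fun N => ∑ k ∈ Finset.range N, C (a.coeff k) * X ^ k with hP
  simp only [zero_add] at h1
  have hF : (fun n (y : ℂ) => a.partialSum n y) = fun n y => (P n).eval y := by
    funext n y
    rw [hP]
    simp only [FormalMultilinearSeries.partialSum, Polynomial.eval_finsetSum,
      Polynomial.eval_mul, Polynomial.eval_C, Polynomial.eval_pow, Polynomial.eval_X]
    apply Finset.sum_congr rfl
    intro k _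
    rw [FormalMultilinearSeries.apply_eq_pow_smul_coeff, smul_eq_mul, mul_comm]
  rw [hF] at h1
  have h2 := h1.deriv (Eventually.of_forall fun n => (P n).differentiable.differentiableOn)
    isOpen_ball
  rw [tendstoLocallyUniformlyOn_iff_forall_isCompact isOpen_ball] at h1 h2
  have hK : closedBall (0:ℂ) r ⊆ ball 0 s := closedBall_subset_ball hrs
  have h3 := h1 _ hK (isCompact_closedBall 0 r)
  have h4 := h2 _ hK (isCompact_closedBall 0 r)
  rw [Metric.tendstoUniformlyOn_iff] at h3 h4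
  obtain ⟨N, hN1, hN2⟩ := ((h3 δ hδ).and (h4 δ hδ)).exists
  refine ⟨P N, fun w hw => ⟨?_, ?_⟩⟩
  · have := hN1 w (mem_closedBall_zero_iff.2 hw)
    rw [dist_comm, dist_eq_norm] at this
    exact this.le
  · have := hN2 w (mem_closedBall_zero_iff.2 hw)
    rw [dist_comm, dist_eq_norm] at this
    simp only [Function.comp, Polynomial.deriv] at this
    exact this.le

theorem poly_approx {H : ℂ → ℂ} (hH : DifferentiableOn ℂ H (ball 0 1)) {r : ℝ} (hr0 : 0 ≤ r)
    (hr1 : r < 1) {δ : ℝ} (hδ : 0 < δ) :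
    ∃ P : Polynomial ℂ, ∀ z ∈ ball (0:ℂ) 1, ‖P.eval z - H (r * z)‖ ≤ δ ∧
      ‖P.derivative.eval z - r * deriv H (r * z)‖ ≤ δ := by
  obtain ⟨P, hP⟩ := poly_approx0 hH hr1 hδ
  refine ⟨P.comp (C (r : ℂ) * X), fun z hz => ?_⟩
  have hw : ‖(r : ℂ) * z‖ ≤ r := by
    rw [norm_mul, Complex.norm_real, Real.norm_of_nonneg hr0]
    rw [mem_ball_zero_iff] at hz
    nlinarith
  obtain ⟨h1, h2⟩ := hP _ hw
  constructor
  · simpa [Polynomial.eval_comp] using h1
  · have e : (P.comp (C (r : ℂ) * X)).derivative.eval z = r * P.derivative.eval (r * z) := by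
      rw [Polynomial.derivative_comp]
      simp [Polynomial.eval_comp]
    rw [e, ← mul_sub, norm_mul, Complex.norm_real, Real.norm_of_nonneg hr0]
    calc r * ‖P.derivative.eval (r * z) - deriv H (r * z)‖ ≤ 1 * δ :=
          mul_le_mul hr1.le h2 (norm_nonneg _) zero_le_one
      _ = δ := one_mul _

theorem small_pow {p : ℝ} (hp : 0 < p) {X ε : ℝ≥0∞} (hX : X ≠ ∞) (hε : 0 < ε) {e : ℝ}
    (he : 0 < e) : ∃ δ : ℝ, 0 < δ ∧ δ ≤ e ∧ ENNReal.ofReal δ ^ p * X ≤ ε := by
  have h1 : Tendsto (fun n : ℕ => ((1:ℝ) / 2) ^ n) atTop (𝓝 0) :=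
    tendsto_pow_atTop_nhds_zero_of_lt_one (by norm_num) (by norm_num)
  have h2 : Tendsto (fun n : ℕ => ENNReal.ofReal (((1:ℝ) / 2) ^ n)) atTop (𝓝 0) := by
    have := ENNReal.tendsto_ofReal h1
    rwa [ENNReal.ofReal_zero] at this
  have h3 : Tendsto (fun n : ℕ => ENNReal.ofReal (((1:ℝ) / 2) ^ n) ^ p * X) atTop (𝓝 0) := by
    have h4 := ((ENNReal.continuous_rpow_const (y := p)).tendsto 0).comp h2
    rw [ENNReal.zero_rpow_of_pos hp] at h4
    have h5 := ENNReal.Tendsto.mul_const (b := X) h4 (Or.inr hX)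
    rwa [zero_mul] at h5
  rw [ENNReal.tendsto_nhds_zero] at h3
  obtain ⟨n, hn1, hn2⟩ := ((h3 ε hε).and (h1.eventually_le_const he)).exists
  exact ⟨((1:ℝ) / 2) ^ n, by positivity, hn2, hn1⟩

theorem dil_approx {p : ℝ} (hp : 1 < p) {f H : ℂ → ℂ} (hf : DifferentiableOn ℂ f (ball 0 1))
    (hI : Iw p (deriv f) ≠ ∞) (hH : DifferentiableOn ℂ H (ball 0 1)) {r : ℝ} (hr0 : 0 ≤ r)
    (hr1 : r < 1) {e : ℝ} (he : 0 < e) {ε : ℝ≥0∞} (hε : 0 < ε) :
    ∃ Q : Polynomial ℂ, ‖Q.eval 0 - H 0‖ ≤ e ∧ Iw p (fun z => (Q.derivative.eval z * f z +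
      Q.eval z * deriv f z) - (r * deriv H (r * z) * f z + H (r * z) * deriv f z)) ≤ ε := by
  have hIf := Iw_self hf hp hI
  have h2ne : (2:ℝ≥0∞) ^ (p - 1) ≠ ∞ := ENNReal.rpow_ne_top_of_nonneg (by linarith) (by simp)
  obtain ⟨δ, hδ0, hδe, hδ⟩ := small_pow (p := p) (by linarith)
    (X := 2 ^ (p - 1) * (Iw p f + Iw p (deriv f)))
    (ENNReal.mul_ne_top h2ne (ENNReal.add_ne_top.2 ⟨hIf, hI⟩)) hε he
  obtain ⟨P, hP⟩ := poly_approx hH hr0 hr1 hδ0
  refine ⟨P, ?_, ?_⟩
  · have := (hP 0 (mem_ball_self one_pos)).1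
    rw [mul_zero] at this
    exact this.trans hδe
  · refine le_trans ?_ hδ
    have e1 : ∀ z ∈ ball (0:ℂ) 1, (P.derivative.eval z * f z +
      P.eval z * deriv f z) - (r * deriv H (r * z) * f z + H (r * z) * deriv f z) =
      (P.derivative.eval z - r * deriv H (r * z)) * f z +
      (P.eval z - H (r * z)) * deriv f z := by
      intro z _; ring
    rw [Iw_congr e1]
    have hm : AEMeasurable (fun z => (P.derivative.eval z - r * deriv H (r * z)) * f z) mb := by
      have h1 : AEMeasurable f mb := hf.continuousOn.aemeasurable measurableSet_ball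
      have h2 : Measurable fun z : ℂ => deriv H (r * z) :=
        (measurable_deriv H).comp (measurable_const.mul measurable_id)
      have h3 : Measurable fun z : ℂ => P.derivative.eval z := P.derivative.continuous.measurable
      exact ((h3.sub (measurable_const.mul h2)).aemeasurable).mul h1
    refine (Iw_add hp.le hm).trans ?_
    rw [mul_left_comm]
    apply mul_le_mul_right
    rw [mul_add]
    apply add_le_add
    · refine (Iw_mono (h := fun z => (δ : ℂ) * f z) (by linarith) ?_).trans (le_of_eq ?_)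
      · intro z hz
        rw [norm_mul, norm_mul, Complex.norm_real, Real.norm_of_nonneg hδ0.le]
        exact mul_le_mul_of_nonneg_right (hP z hz).2 (norm_nonneg _)
      · rw [Iw_const_mul (by linarith)]
        congr 2
        rw [← ofReal_norm, Complex.norm_real, Real.norm_of_nonneg hδ0.le]
    · refine (Iw_mono (h := fun z => (δ : ℂ) * deriv f z) (by linarith) ?_).trans (le_of_eq ?_)
      · intro z hz
        rw [norm_mul, norm_mul, Complex.norm_real, Real.norm_of_nonneg hδ0.le]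
        exact mul_le_mul_of_nonneg_right (hP z hz).1 (norm_nonneg _)
      · rw [Iw_const_mul (by linarith)]
        congr 2
        rw [← ofReal_norm, Complex.norm_real, Real.norm_of_nonneg hδ0.le]

/-- `H f` is in the closure of the polynomial multiples of `f` -/
theorem Dat.approx {p : ℝ} {f f2 b : ℂ → ℂ} {K : ℝ} (D : Dat p f f2 b K) {e : ℝ} (he : 0 < e)
    {ε : ℝ≥0∞} (hε : 0 < ε) :
    ∃ Q : Polynomial ℂ, ‖Q.eval 0 - HH f2 b 0‖ ≤ e ∧ Iw p (fun z => (Q.derivative.eval z * f z +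
      Q.eval z * deriv f z) - (deriv (HH f2 b) z * f z + HH f2 b z * deriv f z)) ≤ ε := by
  have hp := D.hp
  have h2ne : (2:ℝ≥0∞) ^ (p - 1) ≠ ∞ := ENNReal.rpow_ne_top_of_nonneg (by linarith) (by simp)
  have h2pos : (2:ℝ≥0∞) ^ (p - 1) ≠ 0 := (ENNReal.rpow_pos (by simp) (by simp)).ne'
  set ε' : ℝ≥0∞ := ε / 2 / 2 ^ (p - 1) with hε'
  have hε'0 : 0 < ε' := ENNReal.div_pos (ENNReal.half_pos hε.ne').ne' h2ne
  obtain ⟨n, hn1, hn⟩ := D.main hε'0
  choose Q hQ1 hQ2 using fun k : ℕ => dil_approx (p := p) (by linarith) D.hf D.fin D.hH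
    (rr_nonneg k) (rr_lt k) he hε'0
  have hn0 : (n:ℂ) ≠ 0 := by
    have : n ≠ 0 := by omega
    exact_mod_cast this
  have hcard : (Finset.Ioc n (2 * n)).card = n := by
    rw [Nat.card_Ioc]; omega
  refine ⟨C (1 / (n:ℂ)) * ∑ k ∈ Finset.Ioc n (2 * n), Q k, ?_, ?_⟩
  · rw [Polynomial.eval_mul, Polynomial.eval_C, Polynomial.eval_finsetSum]
    have h1 : (1 / (n:ℂ)) * ∑ k ∈ Finset.Ioc n (2 * n), (Q k).eval 0 - HH f2 b 0 =
        (1 / (n:ℂ)) * ∑ k ∈ Finset.Ioc n (2 * n), ((Q k).eval 0 - HH f2 b 0) := by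
      rw [Finset.sum_sub_distrib, Finset.sum_const, hcard, nsmul_eq_mul, mul_sub,
        ← mul_assoc (1 / (n:ℂ)) (n:ℂ), one_div_mul_cancel hn0, one_mul]
    rw [h1, norm_mul]
    have h3 : ‖(1 / (n:ℂ))‖ = 1 / n := by
      rw [norm_div, norm_one, Complex.norm_natCast]
    rw [h3]
    have h4 : ‖∑ k ∈ Finset.Ioc n (2 * n), ((Q k).eval 0 - HH f2 b 0)‖ ≤ n * e := by
      refine (norm_sum_le _ _).trans ?_
      refine (Finset.sum_le_sum fun k _ => hQ1 k).trans ?_
      rw [Finset.sum_const, hcard, nsmul_eq_mul]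
    have hnr : (0:ℝ) < n := by exact_mod_cast (by omega : 0 < n)
    calc 1 / (n:ℝ) * ‖∑ k ∈ Finset.Ioc n (2 * n), ((Q k).eval 0 - HH f2 b 0)‖
        ≤ 1 / n * (n * e) := mul_le_mul_of_nonneg_left h4 (by positivity)
      _ = e := by field_simp
  · set A : ℂ → ℂ := fun z => (1 / (n:ℂ)) * ∑ k ∈ Finset.Ioc n (2 * n),
      (((Q k).derivative.eval z * f z + (Q k).eval z * deriv f z) -
      ((rr k : ℂ) * deriv (HH f2 b) (rr k * z) * f z + HH f2 b (rr k * z) * deriv f z)) with hA
    have hm : ∀ k, AEMeasurable (fun z => ((Q k).derivative.eval z * f z +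
      (Q k).eval z * deriv f z) -
      ((rr k : ℂ) * deriv (HH f2 b) (rr k * z) * f z + HH f2 b (rr k * z) * deriv f z)) mb := by
      intro k
      have h1 := D.f_meas
      have h2 := dH_meas (f2 := f2) (b := b) k
      have h3 : Measurable fun z : ℂ => (Q k).derivative.eval z :=
        (Q k).derivative.continuous.measurable
      have h4 : Measurable fun z : ℂ => (Q k).eval z := (Q k).continuous.measurable
      have h5 : AEMeasurable (fun z => HH f2 b ((rr k : ℂ) * z)) mb :=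
        (scale_cont D.hH.continuousOn (rr_nonneg k) (rr_lt k).le).aemeasurable measurableSet_ball
      have h6 := measurable_deriv f
      exact ((h3.aemeasurable.mul h1).add (h4.aemeasurable.mul h6.aemeasurable)).sub
        (((measurable_const.mul h2).aemeasurable.mul h1).add (h5.mul h6.aemeasurable))
    have e1 : ∀ z ∈ ball (0:ℂ) 1,
        ((C (1 / (n:ℂ)) * ∑ k ∈ Finset.Ioc n (2 * n), Q k).derivative.eval z * f z +
        (C (1 / (n:ℂ)) * ∑ k ∈ Finset.Ioc n (2 * n), Q k).eval z * deriv f z) -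
        (deriv (HH f2 b) z * f z + HH f2 b z * deriv f z) =
        A z + ((1 / (n:ℂ)) * ∑ k ∈ Finset.Ioc n (2 * n),
          ((rr k : ℂ) * deriv (HH f2 b) (rr k * z) * f z + HH f2 b (rr k * z) * deriv f z) -
          (deriv (HH f2 b) z * f z + HH f2 b z * deriv f z)) := by
      intro z _
      rw [hA]
      simp only [Polynomial.derivative_mul, Polynomial.derivative_C, zero_mul, zero_add,
        Polynomial.derivative_sum, Polynomial.eval_mul, Polynomial.eval_C,
        Polynomial.eval_finsetSum]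
      rw [Finset.sum_sub_distrib, Finset.sum_add_distrib, ← Finset.sum_mul, ← Finset.sum_mul]
      ring
    rw [Iw_congr e1]
    have hAm : AEMeasurable A mb := by
      rw [hA]
      apply AEMeasurable.const_mul
      apply Finset.aemeasurable_fun_sum
      intro k _
      exact hm k
    refine (Iw_add (by linarith) hAm).trans ?_
    have hAle : Iw p A ≤ ε' := by
      rw [hA]
      exact Iw_avg (by linarith) hn1 hcard (fun k _ => hm k) (fun k _ => hQ2 k)
    calc _ ≤ 2 ^ (p - 1) * (ε' + ε') := mul_le_mul_right (add_le_add hAle hn) _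
      _ = ε := by
        rw [hε', ← two_mul, ← mul_assoc, mul_comm ((2:ℝ≥0∞) ^ (p - 1)) 2, mul_assoc,
          ENNReal.mul_div_cancel h2pos h2ne, ENNReal.mul_div_cancel (by simp) (by simp)]

end Pool.Agent.R402.Cy
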