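import Mathlib
import Pool.Agent.R402.CyG
set_option autoImplicit false
open MeasureTheory Filter Topology Set Complex Metric
open scoped ENNReal NNReal Real

/-! Assembly. -/

namespace Pool.Agent.R402.Cy

noncomputable def pp (φ : ℝ → ℝ) (θ : ℝ) : ℝ := max (φ θ) 0
noncomputable def pm (φ : ℝ → ℝ) (θ : ℝ) : ℝ := max (-φ θ) 0
noncomputable def ps (φ : ℝ → ℝ) (θ : ℝ) : ℝ := pm φ θ + 4 * pp φ θ
noncomputable def pM (φ : ℝ → ℝ) (M : ℕ) (θ : ℝ) : ℝ := min (ps φ θ) M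
noncomputable def pR (φ : ℝ → ℝ) (M : ℕ) (θ : ℝ) : ℝ := ps φ θ - pM φ M θ

section
variable {φ : ℝ → ℝ} (hφ : Integrable φ nu)
include hφ

theorem pp_int : Integrable (pp φ) nu := hφ.pos_part
theorem pm_int : Integrable (pm φ) nu := hφ.neg_part
theorem ps_int : Integrable (ps φ) nu := (pm_int hφ).add ((pp_int hφ).const_mul 4)
theorem pM_int (M : ℕ) : Integrable (pM φ M) nu := (ps_int hφ).inf (integrable_const (M:ℝ))
theorem pR_int (M : ℕ) : Integrable (pR φ M) nu := (ps_int hφ).sub (pM_int hφ M)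
end

theorem pp_nonneg (φ : ℝ → ℝ) (θ : ℝ) : 0 ≤ pp φ θ := le_max_right _ _
theorem pm_nonneg (φ : ℝ → ℝ) (θ : ℝ) : 0 ≤ pm φ θ := le_max_right _ _
theorem ps_nonneg (φ : ℝ → ℝ) (θ : ℝ) : 0 ≤ ps φ θ :=
  add_nonneg (pm_nonneg φ θ) (mul_nonneg (by norm_num) (pp_nonneg φ θ))
theorem pM_le (φ : ℝ → ℝ) (M : ℕ) (θ : ℝ) : pM φ M θ ≤ M := min_le_right _ _
theorem pR_nonneg (φ : ℝ → ℝ) (M : ℕ) (θ : ℝ) : 0 ≤ pR φ M θ := sub_nonneg.2 (min_le_left _ _)
theorem pR_le (φ : ℝ → ℝ) (M : ℕ) (θ : ℝ) : pR φ M θ ≤ ps φ θ := by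
  unfold pR pM
  have : 0 ≤ min (ps φ θ) (M:ℝ) := le_min (ps_nonneg φ θ) (Nat.cast_nonneg M)
  linarith

theorem pR_zero (φ : ℝ → ℝ) {M : ℕ} {θ : ℝ} (h : ps φ θ ≤ M) : pR φ M θ = 0 := by
  unfold pR pM
  rw [min_eq_left h, sub_self]

theorem phi_eq (φ : ℝ → ℝ) (θ : ℝ) : φ θ = pp φ θ - pm φ θ := by
  unfold pp pm
  rcases le_total (φ θ) 0 with h | h
  · rw [max_eq_right h, max_eq_left (by linarith)]; ring
  · rw [max_eq_left h, max_eq_right (by linarith)]; ring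

noncomputable def F2 (φ : ℝ → ℝ) (z : ℂ) : ℂ := exp (-Hg (pp φ) z)
noncomputable def Bb (φ : ℝ → ℝ) (M : ℕ) (z : ℂ) : ℂ := exp (Hg (pM φ M) z)
noncomputable def BM (φ : ℝ → ℝ) (M : ℕ) (z : ℂ) : ℂ := exp (-Hg (pR φ M) z)

theorem dat {p : ℝ} (hp : 2 ≤ p) {f : ℂ → ℂ} (hf : DifferentiableOn ℂ f (ball 0 1))
    (hI : Iw p (deriv f) ≠ ∞) {c : ℂ} (hc : ‖c‖ = 1) {φ : ℝ → ℝ} (hφ : Integrable φ nu)
    (hfo : ∀ z ∈ ball (0:ℂ) 1, f z = c * exp (Hg φ z)) (M : ℕ) :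
    Dat p f (F2 φ) (Bb φ M) (Real.exp M) where
  hp := hp
  hf := hf
  hf2 := ((Hg_diff (pp_int hφ)).neg).cexp
  hb := (Hg_diff (pM_int hφ M)).cexp
  f2le := by
    intro z hz
    rw [mem_ball_zero_iff] at hz
    unfold F2
    rw [Complex.norm_exp, neg_re, Real.exp_le_one_iff, neg_nonpos]
    exact Hg_re_nonneg (pp_int hφ) (pp_nonneg φ) hz
  ble := by
    intro z hz
    rw [mem_ball_zero_iff] at hz
    unfold Bb
    rw [Complex.norm_exp, Real.exp_le_exp]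
    exact Hg_re_le (pM_int hφ M) (pM_le φ M) hz
  har := by
    intro z hz r hr hr1
    have hz' := mem_ball_zero_iff.1 hz
    rw [hfo z hz, norm_mul, hc, one_mul, Complex.norm_exp]
    unfold F2
    rw [Complex.norm_exp, ← Real.exp_nat_mul, ← Real.exp_add, Real.exp_le_one_iff, neg_re]
    have h1 := Hg_harnack (pp_int hφ) (pp_nonneg φ) hz' hr1 hr
    have h2 : (Hg φ z).re ≤ (Hg (pp φ) z).re :=
      Hg_re_mono hφ (pp_int hφ) (fun θ => le_max_left _ _) hz'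
    push_cast
    linarith
  fin := hI

theorem HHf {f : ℂ → ℂ} {c : ℂ} {φ : ℝ → ℝ} (hφ : Integrable φ nu)
    (hfo : ∀ z ∈ ball (0:ℂ) 1, f z = c * exp (Hg φ z)) (M : ℕ) {z : ℂ} (hz : z ∈ ball (0:ℂ) 1) :
    HH (F2 φ) (Bb φ M) z * f z = c * BM φ M z := by
  have hz' := mem_ball_zero_iff.1 hz
  rw [hfo z hz]
  unfold HH F2 Bb BM
  have h1 : Hg φ z = Hg (pp φ) z - Hg (pm φ) z := by
    rw [← Hg_sub (pp_int hφ) (pm_int hφ) hz']
    congr 1
    funext θ
    exact phi_eq φ θ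
  have h2 : Hg (ps φ) z = Hg (pm φ) z + 4 * Hg (pp φ) z := by
    have h3 := Hg_add (pm_int hφ) ((pp_int hφ).const_mul 4) hz'
    have h4 := Hg_smul 4 (pp φ) z
    rw [h4] at h3
    push_cast at h3
    exact h3
  have h5 : Hg (pR φ M) z = Hg (ps φ) z - Hg (pM φ M) z :=
    Hg_sub (ps_int hφ) (pM_int hφ M) hz'
  rw [h5, h2, h1, ← Complex.exp_nat_mul]
  rw [show exp ((5:ℕ) * -Hg (pp φ) z) * exp (Hg (pM φ M) z) *
    (c * exp (Hg (pp φ) z - Hg (pm φ) z)) = c * (exp ((5:ℕ) * -Hg (pp φ) z) *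
      exp (Hg (pM φ M) z) * exp (Hg (pp φ) z - Hg (pm φ) z)) by ring,
    ← Complex.exp_add, ← Complex.exp_add]
  congr 2
  push_cast
  ring

theorem BM_diff {φ : ℝ → ℝ} (hφ : Integrable φ nu) (M : ℕ) :
    DifferentiableOn ℂ (BM φ M) (ball 0 1) := ((Hg_diff (pR_int hφ M)).neg).cexp

theorem BM_le {φ : ℝ → ℝ} (hφ : Integrable φ nu) (M : ℕ) :
    ∀ z ∈ ball (0:ℂ) 1, ‖BM φ M z‖ ≤ 1 := by
  intro z hz
  rw [mem_ball_zero_iff] at hz
  unfold BM
  rw [Complex.norm_exp, neg_re, Real.exp_le_one_iff, neg_nonpos]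
  exact Hg_re_nonneg (pR_int hφ M) (pR_nonneg φ M) hz

theorem BM_zero {φ : ℝ → ℝ} (hφ : Integrable φ nu) :
    Tendsto (fun M => BM φ M 0) atTop (𝓝 1) := by
  have h1 : Tendsto (fun M => ∫ θ, pR φ M θ ∂nu) atTop (𝓝 (∫ θ, (0:ℝ) ∂nu)) := by
    apply tendsto_integral_of_dominated_convergence (ps φ)
    · intro M; exact (pR_int hφ M).aestronglyMeasurable
    · exact ps_int hφ
    · intro M
      refine Eventually.of_forall fun θ => ?_
      rw [Real.norm_of_nonneg (pR_nonneg φ M θ)]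
      exact pR_le φ M θ
    · refine Eventually.of_forall fun θ => ?_
      obtain ⟨N, hN⟩ := exists_nat_ge (ps φ θ)
      apply tendsto_const_nhds.congr'
      filter_upwards [eventually_ge_atTop N] with M hM
      rw [pR_zero]
      exact hN.trans (by exact_mod_cast hM)
  rw [integral_zero] at h1
  have h2 : ∀ M, BM φ M 0 = exp (-(((1 / (2 * π) : ℝ) : ℂ) * ((∫ θ, pR φ M θ ∂nu : ℝ) : ℂ))) := by
    intro M
    unfold BM Hg
    congr 3
    rw [← integral_complex_ofReal]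
    congr 1
    funext θ
    have : ker 0 θ = 1 := by
      unfold ker
      rw [add_zero, sub_zero]
      exact div_self (exp_ne_zero _)
    rw [this, one_mul]
  simp only [h2]
  have h3 : Tendsto (fun M => -(((1 / (2 * π) : ℝ) : ℂ) * ((∫ θ, pR φ M θ ∂nu : ℝ) : ℂ))) atTop
      (𝓝 0) := by
    have h4 := ((Complex.continuous_ofReal.tendsto 0).comp h1).const_mul ((1 / (2 * π) : ℝ) : ℂ)
    have h5 := h4.neg
    simpa using h5
  have h6 := (Complex.continuous_exp.tendsto 0).comp h3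
  rwa [Complex.exp_zero] at h6

theorem BM_Iw {p : ℝ} (hp : 2 ≤ p) {φ : ℝ → ℝ} (hφ : Integrable φ nu) :
    Tendsto (fun M => Iw p (deriv (BM φ M))) atTop (𝓝 0) := by
  have h1 : ∀ M, Iw p (deriv (BM φ M)) ≤ ENNReal.ofReal (π * (1 - ‖BM φ M 0‖ ^ 2)) := by
    intro M
    have := Iw_bdd (BM_diff hφ M) (BM_le hφ M) hp
    simpa using this
  have h2 : Tendsto (fun M => ENNReal.ofReal (π * (1 - ‖BM φ M 0‖ ^ 2))) atTop (𝓝 0) := by
    have h3 : Tendsto (fun M => π * (1 - ‖BM φ M 0‖ ^ 2)) atTop (𝓝 (π * (1 - ‖(1:ℂ)‖ ^ 2))) :=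
      (((BM_zero hφ).norm.pow 2).const_sub 1).const_mul π
    rw [norm_one, one_pow, sub_self, mul_zero] at h3
    have h4 := ENNReal.tendsto_ofReal h3
    rwa [ENNReal.ofReal_zero] at h4
  exact tendsto_of_tendsto_of_tendsto_of_le_of_le tendsto_const_nhds h2 (fun _ => zero_le) h1

theorem final {p : ℝ} (hp : 2 ≤ p) {f : ℂ → ℂ} (hf : DifferentiableOn ℂ f (ball 0 1))
    (hI : Iw p (deriv f) ≠ ∞) {c : ℂ} (hc : ‖c‖ = 1) {φ : ℝ → ℝ} (hφ : Integrable φ nu)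
    (hfo : ∀ z ∈ ball (0:ℂ) 1, f z = c * exp (Hg φ z)) {e : ℝ} (he : 0 < e) {ε : ℝ≥0∞}
    (hε : 0 < ε) :
    ∃ q : Polynomial ℂ, ‖q.eval 0 * f 0 - 1‖ ≤ e ∧
      Iw p (deriv (fun z => q.eval z * f z - 1)) ≤ ε := by
  have h2ne : (2:ℝ≥0∞) ^ (p - 1) ≠ ∞ := ENNReal.rpow_ne_top_of_nonneg (by linarith) (by simp)
  have h2pos : (2:ℝ≥0∞) ^ (p - 1) ≠ 0 := (ENNReal.rpow_pos (by simp) (by simp)).ne'
  have hc0 : c ≠ 0 := by
    intro h; rw [h, norm_zero] at hc; norm_num at hc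
  set ε' : ℝ≥0∞ := ε / 2 / 2 ^ (p - 1) with hε'
  have hε'0 : 0 < ε' := ENNReal.div_pos (ENNReal.half_pos hε.ne').ne' h2ne
  have hB1 := BM_Iw hp hφ
  rw [ENNReal.tendsto_nhds_zero] at hB1
  have hB2 := BM_zero hφ
  rw [Metric.tendsto_atTop] at hB2
  obtain ⟨N, hN⟩ := hB2 (e / 2) (by positivity)
  obtain ⟨M, hM1, hM2⟩ := ((hB1 ε' hε'0).and (eventually_ge_atTop N)).exists
  have hM3 := hN M hM2
  rw [dist_eq_norm] at hM3
  have D := dat hp hf hI hc hφ hfo M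
  have he' : 0 < e / (2 * (‖f 0‖ + 1)) := by positivity
  obtain ⟨Q, hQ1, hQ2⟩ := D.approx he' hε'0
  refine ⟨Polynomial.C c⁻¹ * Q, ?_, ?_⟩
  · rw [Polynomial.eval_mul, Polynomial.eval_C]
    have h0 := HHf hφ hfo M (mem_ball_self (x := (0:ℂ)) one_pos)
    have h1 : c⁻¹ * Q.eval 0 * f 0 - 1 = c⁻¹ * ((Q.eval 0 - HH (F2 φ) (Bb φ M) 0) * f 0) +
        (BM φ M 0 - 1) := by
      have h2 : BM φ M 0 = c⁻¹ * (HH (F2 φ) (Bb φ M) 0 * f 0) := by
        rw [h0, ← mul_assoc, inv_mul_cancel₀ hc0, one_mul]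
      rw [h2]
      ring
    rw [h1]
    refine (norm_add_le _ _).trans ?_
    rw [norm_mul, norm_mul, norm_inv, hc, inv_one, one_mul]
    have h3 : ‖Q.eval 0 - HH (F2 φ) (Bb φ M) 0‖ * ‖f 0‖ ≤ e / 2 := by
      calc ‖Q.eval 0 - HH (F2 φ) (Bb φ M) 0‖ * ‖f 0‖
          ≤ e / (2 * (‖f 0‖ + 1)) * (‖f 0‖ + 1) := by
            apply mul_le_mul hQ1 (by linarith) (norm_nonneg _) he'.le
        _ = e / 2 := by
            have : ‖f 0‖ + 1 ≠ 0 := by positivity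
            field_simp
    linarith
  · have hder : ∀ z ∈ ball (0:ℂ) 1,
        deriv (fun z => (Polynomial.C c⁻¹ * Q).eval z * f z - 1) z =
        c⁻¹ * ((Q.derivative.eval z * f z + Q.eval z * deriv f z) -
        (deriv (HH (F2 φ) (Bb φ M)) z * f z + HH (F2 φ) (Bb φ M) z * deriv f z)) +
        deriv (BM φ M) z := by
      intro z hz
      have hnb := isOpen_ball.mem_nhds hz
      have hfz := (hf.differentiableAt hnb).hasDerivAt
      have hHz := (D.hH.differentiableAt hnb).hasDerivAt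
      have hBz := ((BM_diff hφ M).differentiableAt hnb).hasDerivAt
      have h1 : HasDerivAt (fun z => (Polynomial.C c⁻¹ * Q).eval z * f z - 1)
          ((Polynomial.C c⁻¹ * Q).derivative.eval z * f z +
            (Polynomial.C c⁻¹ * Q).eval z * deriv f z) z :=
        (((Polynomial.C c⁻¹ * Q).hasDerivAt z).mul hfz).sub_const 1
      have h2 := hHz.mul hfz
      have h3 : HasDerivAt (fun z => c * BM φ M z) (c * deriv (BM φ M) z) z := hBz.const_mul c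
      have h4 : (fun z => HH (F2 φ) (Bb φ M) z * f z) =ᶠ[𝓝 z] fun z => c * BM φ M z := by
        filter_upwards [hnb] with w hw
        exact HHf hφ hfo M hw
      have h5 := (h3.congr_of_eventuallyEq h4).unique h2
      rw [h1.deriv]
      have h6 : deriv (BM φ M) z = c⁻¹ * (c * deriv (BM φ M) z) := by
        rw [← mul_assoc, inv_mul_cancel₀ hc0, one_mul]
      rw [h6, h5, Polynomial.derivative_mul, Polynomial.derivative_C, zero_mul, zero_add,
        Polynomial.eval_mul, Polynomial.eval_mul, Polynomial.eval_C]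
      ring
    rw [Iw_congr hder]
    have hm : AEMeasurable (fun z => c⁻¹ * ((Q.derivative.eval z * f z + Q.eval z * deriv f z) -
        (deriv (HH (F2 φ) (Bb φ M)) z * f z + HH (F2 φ) (Bb φ M) z * deriv f z))) mb := by
      have h1 := D.f_meas
      have h3 : Measurable fun z : ℂ => Q.derivative.eval z := Q.derivative.continuous.measurable
      have h4 : Measurable fun z : ℂ => Q.eval z := Q.continuous.measurable
      have h5 : AEMeasurable (fun z => HH (F2 φ) (Bb φ M) z) mb :=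
        D.hH.continuousOn.aemeasurable measurableSet_ball
      have h6 := measurable_deriv f
      have h7 := measurable_deriv (HH (F2 φ) (Bb φ M))
      exact (((h3.aemeasurable.mul h1).add (h4.aemeasurable.mul h6.aemeasurable)).sub
        ((h7.aemeasurable.mul h1).add (h5.mul h6.aemeasurable))).const_mul _
    refine (Iw_add (by linarith) hm).trans ?_
    have h8 : Iw p (fun z => c⁻¹ * ((Q.derivative.eval z * f z + Q.eval z * deriv f z) -
        (deriv (HH (F2 φ) (Bb φ M)) z * f z + HH (F2 φ) (Bb φ M) z * deriv f z))) ≤ ε' := by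
      rw [Iw_const_mul (by linarith)]
      have : ‖c⁻¹‖ₑ = 1 := by
        rw [← ofReal_norm, norm_inv, hc, inv_one, ENNReal.ofReal_one]
      rw [this, ENNReal.one_rpow, one_mul]
      exact hQ2
    calc _ ≤ 2 ^ (p - 1) * (ε' + ε') := mul_le_mul_right (add_le_add h8 hM1) _
      _ = ε := by
        rw [hε', ← two_mul, ← mul_assoc, mul_comm ((2:ℝ≥0∞) ^ (p - 1)) 2, mul_assoc,
          ENNReal.mul_div_cancel h2pos h2ne, ENNReal.mul_div_cancel (by simp) (by simp)]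

end Pool.Agent.R402.Cy
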