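import Mathlib
set_option autoImplicit false
open MeasureTheory Filter Topology Set
open scoped ENNReal InnerProductSpace NNReal

/-! The Hilbert space, the kernel vectors and the basic integral estimates. -/

namespace Pool.Agent.R402.Eq

/-- the Hilbert space of square integrable functions on the line -/
abbrev H : Type := Lp ℂ 2 (volume : Measure ℝ)

noncomputable def v (y : ℝ) : ℝ := Real.exp (-(y ^ 2 / 2) - y)
noncomputable def w (x : ℝ) : ℝ := Real.exp ((max x 0) ^ 2 / 2 + max x 0)
noncomputable def kk (y : ℝ) : ℝ := √y * v y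
noncomputable def Gam (y : ℝ) : ℝ := 1 + ∫ t in (0:ℝ)..y, Real.exp (t ^ 2 + 2 * t)

theorem v_pos (y : ℝ) : 0 < v y := Real.exp_pos _
theorem w_pos (y : ℝ) : 0 < w y := Real.exp_pos _
theorem w_cont : Continuous w := by unfold w; fun_prop
theorem v_cont : Continuous v := by unfold v; fun_prop
theorem kk_cont : Continuous kk := by unfold kk; exact Real.continuous_sqrt.mul v_cont
theorem v_zero : v 0 = 1 := by simp [v]
theorem w_nonneg_eq {x : ℝ} (hx : 0 ≤ x) : w x = Real.exp (x ^ 2 / 2 + x) := by
  unfold w; rw [max_eq_left hx]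
theorem w_nonpos_eq {x : ℝ} (hx : x ≤ 0) : w x = 1 := by
  unfold w; rw [max_eq_right hx]; simp
theorem w_v {x : ℝ} (hx : 0 ≤ x) : w x * v x = 1 := by
  rw [w_nonneg_eq hx, v, ← Real.exp_add, ← Real.exp_zero]; congr 1; ring
theorem kk_nonpos {x : ℝ} (hx : x ≤ 0) : kk x = 0 := by
  unfold kk; rw [Real.sqrt_eq_zero_of_nonpos hx, zero_mul]
theorem kk_sq {x : ℝ} (hx : 0 ≤ x) : kk x ^ 2 = x * v x ^ 2 := by
  unfold kk; rw [mul_pow, Real.sq_sqrt hx]

theorem hasDerivAt_v (y : ℝ) : HasDerivAt v (-((y + 1) * v y)) y := by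
  have h : HasDerivAt (fun y : ℝ => -(y ^ 2 / 2) - y) (-(2 * y / 2) - 1) y := by
    have h1 := ((hasDerivAt_pow 2 y).div_const 2).neg.sub (hasDerivAt_id y)
    exact h1.congr_deriv (by simp)
  have h2 := h.exp
  unfold v
  convert h2 using 1
  ring

theorem hasDerivAt_Gam (y : ℝ) : HasDerivAt Gam (Real.exp (y ^ 2 + 2 * y)) y := by
  unfold Gam
  have h : Continuous (fun t : ℝ => Real.exp (t ^ 2 + 2 * t)) := by fun_prop
  exact (intervalIntegral.integral_hasDerivAt_right (h.intervalIntegrable _ _)
    (h.stronglyMeasurableAtFilter _ _) h.continuousAt).const_add 1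

theorem Gam_zero : Gam 0 = 1 := by simp [Gam]

/-- `Γ(y) ≤ e^{y²+2y}/(y+1)` for `y ≥ 0` -/
theorem Gam_le {y : ℝ} (hy : 0 ≤ y) : Gam y ≤ Real.exp (y ^ 2 + 2 * y) / (y + 1) := by
  have hd : ∀ t : ℝ, 0 ≤ t → HasDerivAt (fun t => Real.exp (t ^ 2 + 2 * t) / (t + 1) - Gam t)
      (Real.exp (t ^ 2 + 2 * t) * (1 - 1 / (t + 1) ^ 2)) t := by
    intro t ht
    have h1 : HasDerivAt (fun t : ℝ => t ^ 2 + 2 * t) (2 * t + 2) t := by
      have := (hasDerivAt_pow 2 t).add ((hasDerivAt_id t).const_mul 2)
      exact this.congr_deriv (by simp)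
    have h2 := (h1.exp.div ((hasDerivAt_id t).add_const 1)
      (show id t + 1 ≠ 0 by simp; linarith)).sub (hasDerivAt_Gam t)
    refine h2.congr_deriv ?_
    simp only [id]
    have : t + 1 ≠ 0 := by linarith
    field_simp
    ring
  have hmono : MonotoneOn (fun t => Real.exp (t ^ 2 + 2 * t) / (t + 1) - Gam t) (Ici 0) := by
    apply monotoneOn_of_deriv_nonneg (convex_Ici 0)
    · intro t ht
      exact (hd t ht).continuousAt.continuousWithinAt
    · intro t ht
      rw [interior_Ici] at ht
      exact (hd t ht.le).differentiableAt.differentiableWithinAt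
    · intro t ht
      rw [interior_Ici] at ht
      rw [(hd t ht.le).deriv]
      apply mul_nonneg (Real.exp_pos _).le
      have : (1:ℝ) ≤ (t + 1) ^ 2 := by
        have : 0 < t := ht
        nlinarith
      rw [sub_nonneg, div_le_one (by positivity)]
      exact this
  have := hmono (mem_Ici.2 le_rfl) (mem_Ici.2 hy) hy
  simp only [Gam_zero] at this
  simp at this
  linarith

theorem Gam_mono : Monotone Gam := by
  apply monotone_of_deriv_nonneg
  · intro t; exact (hasDerivAt_Gam t).differentiableAt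
  · intro t; rw [(hasDerivAt_Gam t).deriv]; positivity

theorem Gam_strictMono : StrictMono Gam := by
  apply strictMono_of_deriv_pos
  intro t; rw [(hasDerivAt_Gam t).deriv]; positivity

theorem Gam_ge_one {y : ℝ} (hy : 0 ≤ y) : 1 ≤ Gam y := by
  rw [← Gam_zero]; exact Gam_mono hy

/-! kernel vectors -/

noncomputable def rf (y : ℝ) : ℝ → ℂ := (Ioc (-1) y).indicator (fun x => (w x : ℂ))

theorem rf_memLp (y : ℝ) : MemLp (rf y) 2 volume := by
  unfold rf
  rw [memLp_indicator_iff_restrict measurableSet_Ioc]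
  have hc : Continuous (fun x => (w x : ℂ)) := Complex.continuous_ofReal.comp w_cont
  have h1 : MemLp (fun x => (w x : ℂ)) 2 (volume.restrict (Icc (-1) y)) := by
    apply MemLp.of_bound hc.aestronglyMeasurable (w (max y 0))
    · rw [ae_restrict_iff' measurableSet_Icc]
      refine ae_of_all _ fun x hx => ?_
      rw [Complex.norm_real, Real.norm_of_nonneg (w_pos x).le]
      unfold w
      apply Real.exp_le_exp.2
      have h2 : max x 0 ≤ max y 0 := max_le_max hx.2 le_rfl
      have h3 : 0 ≤ max x 0 := le_max_right _ _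
      rw [max_eq_left (le_max_right y 0)]
      nlinarith
  exact h1.mono_measure (Measure.restrict_mono Ioc_subset_Icc_self le_rfl)

noncomputable def r (y : ℝ) : H := (rf_memLp y).toLp (rf y)

theorem inner_r (y : ℝ) (P : H) : ⟪r y, P⟫_ℂ = ∫ x in Ioc (-1) y, (w x : ℂ) * P x := by
  rw [L2.inner_def, ← integral_indicator measurableSet_Ioc]
  apply integral_congr_ae
  filter_upwards [(rf_memLp y).coeFn_toLp] with x hx
  unfold r
  rw [hx]
  unfold rf
  by_cases h : x ∈ Ioc (-1) y
  · rw [indicator_of_mem h, indicator_of_mem h]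
    simp only [RCLike.inner_apply, Complex.conj_ofReal]
    ring
  · rw [indicator_of_notMem h, indicator_of_notMem h]
    simp

theorem integrableOn_wP (y : ℝ) (P : H) :
    IntegrableOn (fun x => (w x : ℂ) * P x) (Ioc (-1) y) := by
  have h := L2.integrable_inner (𝕜 := ℂ) (r y) P
  rw [← integrable_indicator_iff measurableSet_Ioc]
  refine h.congr ?_
  filter_upwards [(rf_memLp y).coeFn_toLp] with x hx
  unfold r
  rw [hx]
  unfold rf
  by_cases h : x ∈ Ioc (-1) y
  · rw [indicator_of_mem h, indicator_of_mem h]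
    simp only [RCLike.inner_apply, Complex.conj_ofReal]
    ring
  · rw [indicator_of_notMem h, indicator_of_notMem h]
    simp

theorem continuous_inner_r (P : H) : Continuous (fun y => ⟪r y, P⟫_ℂ) := by
  have h1 : (fun y => ⟪r y, P⟫_ℂ) = fun y => ∫ x in (-1:ℝ)..y,
      (Ioi (-1)).indicator (fun x => (w x : ℂ) * P x) x := by
    ext y
    rw [inner_r]
    rcases le_or_gt (-1) y with h | h
    · rw [intervalIntegral.integral_of_le h]
      apply setIntegral_congr_fun measurableSet_Ioc
      intro x hx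
      simp only
      rw [indicator_of_mem (show x ∈ Ioi (-1:ℝ) from hx.1)]
    · rw [Ioc_eq_empty (by linarith), intervalIntegral.integral_of_ge h.le]
      have : ∫ x in Ioc y (-1), (Ioi (-1)).indicator (fun x => (w x : ℂ) * P x) x
          = ∫ x in Ioc y (-1), 0 := by
        apply setIntegral_congr_fun measurableSet_Ioc
        intro x hx
        simp only
        rw [indicator_of_notMem]
        simpa using hx.2
      rw [this]
      simp
  rw [h1]
  apply intervalIntegral.continuous_primitive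
  intro a b
  rw [intervalIntegrable_iff, IntegrableOn, integrable_indicator_iff measurableSet_Ioi,
    IntegrableOn, Measure.restrict_restrict measurableSet_Ioi]
  apply (integrableOn_wP (max a b) P).mono_set
  intro x hx
  rw [uIoc] at hx
  exact ⟨hx.1, hx.2.2⟩

theorem integral_Ioc_w_sq {y : ℝ} (hy : 0 ≤ y) :
    ∫ x in Ioc (-1) y, w x * w x = Gam y := by
  have hc : Continuous (fun x => w x * w x) := w_cont.mul w_cont
  rw [← intervalIntegral.integral_of_le (by linarith),
    ← intervalIntegral.integral_add_adjacent_intervals (b := 0)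
      (hc.intervalIntegrable _ _) (hc.intervalIntegrable _ _)]
  unfold Gam
  congr 1
  · rw [intervalIntegral.integral_congr (g := fun _ => (1:ℝ))]
    · simp
    · intro x hx
      rw [uIcc_of_le (by norm_num)] at hx
      simp only
      rw [w_nonpos_eq hx.2, one_mul]
  · apply intervalIntegral.integral_congr
    intro x hx
    rw [uIcc_of_le hy] at hx
    simp only
    rw [w_nonneg_eq hx.1, ← Real.exp_add]
    congr 1
    ring

theorem inner_r_r {x y : ℝ} (hx : 0 ≤ x) (hy : 0 ≤ y) : ⟪r x, r y⟫_ℂ = (Gam (min x y) : ℂ) := by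
  rw [inner_r, ← integral_Ioc_w_sq (le_min hx hy)]
  have h1 : ∫ t in Ioc (-1) x, (w t : ℂ) * (r y) t
      = ∫ t in Ioc (-1) x, (Ioc (-1) y).indicator (fun t => ((w t * w t : ℝ) : ℂ)) t := by
    apply setIntegral_congr_ae measurableSet_Ioc
    filter_upwards [(rf_memLp y).coeFn_toLp] with t ht _
    unfold r
    rw [ht]
    unfold rf
    by_cases h : t ∈ Ioc (-1) y
    · rw [indicator_of_mem h, indicator_of_mem h]
      push_cast
      ring
    · rw [indicator_of_notMem h, indicator_of_notMem h]
      simp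
  rw [h1, setIntegral_indicator measurableSet_Ioc, integral_complex_ofReal, Ioc_inter_Ioc,
    max_self]

theorem norm_r_sq {y : ℝ} (hy : 0 ≤ y) : ‖r y‖ ^ 2 = Gam y := by
  have h := inner_r_r hy hy
  rw [inner_self_eq_norm_sq_to_K, min_self] at h
  have h2 : ((‖r y‖ ^ 2 : ℝ) : ℂ) = (Gam y : ℂ) := by
    rw [← h]; simp
  exact Complex.ofReal_injective h2

theorem norm_inner_r_sq_le {y : ℝ} (hy : 0 ≤ y) (P : H) :
    ‖⟪r y, P⟫_ℂ‖ ^ 2 ≤ Gam y * ‖P‖ ^ 2 := by
  rw [← norm_r_sq hy, ← mul_pow]
  exact pow_le_pow_left₀ (norm_nonneg _) (norm_inner_le_norm _ _) 2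

end Pool.Agent.R402.Eq
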