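import Pool.Agent.R402.EqA
set_option autoImplicit false
open MeasureTheory Filter Topology Set
open scoped ENNReal InnerProductSpace NNReal

/-! The weighted integral operator and its Schur bound. -/

namespace Pool.Agent.R402.Eq

noncomputable def sf (P : H) (y : ℝ) : ℂ := (kk y : ℂ) * ⟪r y, P⟫_ℂ

theorem sf_cont (P : H) : Continuous (sf P) :=
  (Complex.continuous_ofReal.comp kk_cont).mul (continuous_inner_r P)

theorem hasDerivAt_E (y : ℝ) :
    HasDerivAt (fun y : ℝ => Real.exp (y ^ 2 / 2 + y)) (Real.exp (y ^ 2 / 2 + y) * (y + 1)) y := by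
  have h : HasDerivAt (fun y : ℝ => y ^ 2 / 2 + y) (y + 1) y := by
    have h1 := ((hasDerivAt_pow 2 y).div_const 2).add (hasDerivAt_id y)
    exact h1.congr_deriv (by simp)
  exact h.exp

theorem tendsto_v : Tendsto v atTop (𝓝 0) := by
  have h1 : Tendsto (fun y : ℝ => Real.exp (-y)) atTop (𝓝 0) :=
    Real.tendsto_exp_neg_atTop_nhds_zero
  refine squeeze_zero (fun y => (v_pos y).le) (fun y => ?_) h1
  unfold v
  apply Real.exp_le_exp.2
  nlinarith [sq_nonneg y]

theorem lint_tail {a : ℝ} (ha : 0 ≤ a) :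
    ∫⁻ y in Ici a, ENNReal.ofReal ((y + 1) * v y) = ENNReal.ofReal (v a) := by
  rw [Measure.restrict_congr_set Ioi_ae_eq_Ici.symm]
  have hd : ∀ x ∈ Ici a, HasDerivAt (fun y => -v y) ((x + 1) * v x) x := by
    intro x _
    have := (hasDerivAt_v x).neg
    rw [neg_neg] at this
    exact this
  have hnn : ∀ x ∈ Ioi a, 0 ≤ (x + 1) * v x := by
    intro x hx
    have : a < x := hx
    exact mul_nonneg (by linarith) (v_pos x).le
  have ht : Tendsto (fun y => -v y) atTop (𝓝 0) := by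
    have := tendsto_v.neg
    rwa [neg_zero] at this
  have h1 := integral_Ioi_of_hasDerivAt_of_nonneg' hd hnn ht
  have h2 := integrableOn_Ioi_deriv_of_nonneg' hd hnn ht
  rw [← ofReal_integral_eq_lintegral_ofReal h2, h1]
  · congr 1; ring
  · rw [EventuallyLE, ae_restrict_iff' measurableSet_Ioi]
    exact ae_of_all _ hnn

theorem lint_wp {y : ℝ} (hy : 0 ≤ y) :
    ∫⁻ x in Ioc (-1) y, ENNReal.ofReal (w x * (max x 0 + 1)) = ENNReal.ofReal (1 / v y) := by
  have hc : Continuous (fun x => w x * (max x 0 + 1)) := w_cont.mul (by fun_prop)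
  rw [← ofReal_integral_eq_lintegral_ofReal]
  · congr 1
    rw [← intervalIntegral.integral_of_le (by linarith),
      ← intervalIntegral.integral_add_adjacent_intervals (b := 0)
      (hc.intervalIntegrable _ _) (hc.intervalIntegrable _ _)]
    have h1 : ∫ x in (-1:ℝ)..0, w x * (max x 0 + 1) = 1 := by
      rw [intervalIntegral.integral_congr (g := fun _ => (1:ℝ))]
      · simp
      · intro x hx
        rw [uIcc_of_le (by norm_num)] at hx
        simp only
        rw [w_nonpos_eq hx.2, max_eq_right hx.2]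
        ring
    have h2 : ∫ x in (0:ℝ)..y, w x * (max x 0 + 1)
        = Real.exp (y ^ 2 / 2 + y) - 1 := by
      rw [intervalIntegral.integral_congr (g := fun x => Real.exp (x ^ 2 / 2 + x) * (x + 1))]
      · rw [intervalIntegral.integral_eq_sub_of_hasDerivAt (fun x _ => hasDerivAt_E x)
          (Continuous.intervalIntegrable (by fun_prop) _ _)]
        simp
      · intro x hx
        rw [uIcc_of_le hy] at hx
        simp only
        rw [w_nonneg_eq hx.1, max_eq_left hx.1]
    rw [h1, h2, v, one_div, ← Real.exp_neg]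
    have : -(-(y ^ 2 / 2) - y) = y ^ 2 / 2 + y := by ring
    rw [this]
    ring
  · exact (hc.integrableOn_Icc).mono_set Ioc_subset_Icc_self
  · refine ae_of_all _ fun x => ?_
    exact mul_nonneg (w_pos x).le (by positivity)

theorem enorm_inner_sq_le {y : ℝ} (hy : 0 ≤ y) (P : H) :
    ‖⟪r y, P⟫_ℂ‖ₑ ^ 2 ≤ ENNReal.ofReal (1 / v y) *
      ∫⁻ x in Ioc (-1) y, ENNReal.ofReal (w x / (max x 0 + 1)) * ‖P x‖ₑ ^ 2 := by
  have hp : ∀ x : ℝ, 0 < max x 0 + 1 := fun x => by positivity
  have hPm : Measurable (fun x => P x) := (Lp.stronglyMeasurable P).measurable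
  have h1 : ‖⟪r y, P⟫_ℂ‖ₑ ≤ ∫⁻ x in Ioc (-1) y,
      ((fun x => ENNReal.ofReal √(w x * (max x 0 + 1))) *
      (fun x => ENNReal.ofReal √(w x / (max x 0 + 1)) * ‖P x‖ₑ)) x := by
    rw [inner_r]
    refine (enorm_integral_le_lintegral_enorm _).trans (le_of_eq ?_)
    apply lintegral_congr
    intro x
    simp only [Pi.mul_apply]
    rw [← mul_assoc, ← ENNReal.ofReal_mul (Real.sqrt_nonneg _), enorm_mul]
    congr 1
    rw [← Real.sqrt_mul (mul_nonneg (w_pos x).le (hp x).le)]
    have : w x * (max x 0 + 1) * (w x / (max x 0 + 1)) = (w x) ^ 2 := by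
      field_simp
    rw [this, Real.sqrt_sq (w_pos x).le, ← ofReal_norm, Complex.norm_real,
      Real.norm_of_nonneg (w_pos x).le]
  have hw : Measurable w := w_cont.measurable
  have h2 := ENNReal.lintegral_mul_le_Lp_mul_Lq (volume.restrict (Ioc (-1) y))
    Real.HolderConjugate.two_two
    (f := fun x => ENNReal.ofReal √(w x * (max x 0 + 1)))
    (g := fun x => ENNReal.ofReal √(w x / (max x 0 + 1)) * ‖P x‖ₑ)
    (by fun_prop) (by fun_prop)
  have h3 := h1.trans h2
  have e1 : ∫⁻ x in Ioc (-1) y, (ENNReal.ofReal √(w x * (max x 0 + 1))) ^ (2:ℝ)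
      = ENNReal.ofReal (1 / v y) := by
    rw [← lint_wp hy]
    apply lintegral_congr
    intro x
    rw [ENNReal.rpow_two, ← ENNReal.ofReal_pow (Real.sqrt_nonneg _),
      Real.sq_sqrt (mul_nonneg (w_pos x).le (hp x).le)]
  have e2 : ∫⁻ x in Ioc (-1) y, (ENNReal.ofReal √(w x / (max x 0 + 1)) * ‖P x‖ₑ) ^ (2:ℝ)
      = ∫⁻ x in Ioc (-1) y, ENNReal.ofReal (w x / (max x 0 + 1)) * ‖P x‖ₑ ^ 2 := by
    apply lintegral_congr
    intro x
    rw [ENNReal.rpow_two, mul_pow, ← ENNReal.ofReal_pow (Real.sqrt_nonneg _),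
      Real.sq_sqrt (div_nonneg (w_pos x).le (hp x).le)]
  rw [e1, e2] at h3
  calc ‖⟪r y, P⟫_ℂ‖ₑ ^ 2 ≤ _ := pow_le_pow_left' h3 2
    _ = _ := by
      rw [mul_pow, ← ENNReal.rpow_natCast, ← ENNReal.rpow_natCast, ← ENNReal.rpow_mul,
        ← ENNReal.rpow_mul]
      norm_num

theorem lint_norm_sq (P : H) : ∫⁻ x, ‖P x‖ₑ ^ 2 = ‖P‖ₑ ^ 2 := by
  rw [Lp.enorm_def, eLpNorm_eq_lintegral_rpow_enorm_toReal (by norm_num) (by norm_num)]
  simp only [ENNReal.toReal_ofNat, ENNReal.rpow_two]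
  rw [← ENNReal.rpow_natCast, ← ENNReal.rpow_mul]
  norm_num

theorem E_div_mono {t R : ℝ} (ht : 0 ≤ t) (hR : t ≤ R) :
    Real.exp (t ^ 2 / 2 + t) / (t + 1) ≤ Real.exp (R ^ 2 / 2 + R) / (R + 1) := by
  have h1 : Real.exp (R ^ 2 / 2 + R) = Real.exp (t ^ 2 / 2 + t)
      * Real.exp ((R - t) * (R + t) / 2 + (R - t)) := by
    rw [← Real.exp_add]; congr 1; ring
  have h2 := Real.add_one_le_exp ((R - t) * (R + t) / 2 + (R - t))
  have h3 : 0 ≤ (R - t) * (R + t) := mul_nonneg (by linarith) (by linarith)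
  have hE := Real.exp_pos (t ^ 2 / 2 + t)
  rw [h1, div_le_div_iff₀ (by linarith) (by linarith)]
  have h4 : R + 1 ≤ Real.exp ((R - t) * (R + t) / 2 + (R - t)) * (t + 1) := by
    have h5 : (R - t + 1) * (t + 1) ≤ Real.exp ((R - t) * (R + t) / 2 + (R - t)) * (t + 1) := by
      apply mul_le_mul_of_nonneg_right _ (by linarith)
      linarith
    nlinarith [mul_nonneg ht (sub_nonneg.2 hR)]
  nlinarith

theorem wv_le {x R : ℝ} (hR : 0 ≤ R) :
    v (max R x) * (w x / (max x 0 + 1)) ≤ 1 / (R + 1) := by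
  rcases le_or_gt R x with h | h
  · have hx : 0 ≤ x := hR.trans h
    rw [max_eq_right h, max_eq_left hx, mul_div_assoc', mul_comm (v x), w_v hx]
    exact one_div_le_one_div_of_le (by linarith) (by linarith)
  · rw [max_eq_left h.le]
    have h0 : 0 ≤ max x 0 := le_max_right _ _
    have h1 : max x 0 ≤ R := max_le h.le hR
    have h2 := E_div_mono h0 h1
    have h3 : v R * (w x / (max x 0 + 1)) ≤ v R * (Real.exp (R ^ 2 / 2 + R) / (R + 1)) := by
      apply mul_le_mul_of_nonneg_left _ (v_pos R).le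
      exact h2
    refine h3.trans (le_of_eq ?_)
    rw [mul_div_assoc', ← w_nonneg_eq hR, mul_comm, w_v hR]

theorem lint_sf_le (P : H) {R : ℝ} (hR : 0 ≤ R) :
    ∫⁻ y in Ioi R, ‖sf P y‖ₑ ^ 2 ≤ ENNReal.ofReal (1 / (R + 1)) * ‖P‖ₑ ^ 2 := by
  have hPm : Measurable (fun x => P x) := (Lp.stronglyMeasurable P).measurable
  have hw : Measurable w := w_cont.measurable
  have hv : Measurable v := v_cont.measurable
  set g : ℝ → ℝ≥0∞ := fun x => ENNReal.ofReal (w x / (max x 0 + 1)) * ‖P x‖ₑ ^ 2 with hg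
  have hgm : Measurable g := by rw [hg]; fun_prop
  have h1 : ∫⁻ y in Ioi R, ‖sf P y‖ₑ ^ 2 ≤ ∫⁻ y in Ioi R, ∫⁻ x,
      ENNReal.ofReal ((y + 1) * v y) * (Ioc (-1) y).indicator g x := by
    apply setLIntegral_mono' measurableSet_Ioi
    intro y hy
    have hy0 : 0 ≤ y := hR.trans (le_of_lt hy)
    rw [lintegral_const_mul' _ _ ENNReal.ofReal_ne_top, lintegral_indicator measurableSet_Ioc]
    unfold sf
    rw [enorm_mul, mul_pow]
    have h2 : ‖(kk y : ℂ)‖ₑ ^ 2 = ENNReal.ofReal (y * v y ^ 2) := by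
      rw [← ofReal_norm, Complex.norm_real, ← ENNReal.ofReal_pow (norm_nonneg _),
        Real.norm_eq_abs, sq_abs, kk_sq hy0]
    rw [h2]
    calc ENNReal.ofReal (y * v y ^ 2) * ‖⟪r y, P⟫_ℂ‖ₑ ^ 2
        ≤ ENNReal.ofReal (y * v y ^ 2) * (ENNReal.ofReal (1 / v y) *
      ∫⁻ x in Ioc (-1) y, g x) := mul_le_mul_right (enorm_inner_sq_le hy0 P) _
      _ = ENNReal.ofReal (y * v y) * ∫⁻ x in Ioc (-1) y, g x := by
        rw [← mul_assoc, ← ENNReal.ofReal_mul (by positivity)]
        congr 2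
        have := (v_pos y).ne'
        field_simp
      _ ≤ _ := by
        apply mul_le_mul_left
        apply ENNReal.ofReal_le_ofReal
        nlinarith [v_pos y]
  refine h1.trans ?_
  rw [lintegral_lintegral_swap]
  · rw [← lint_norm_sq P, ← lintegral_const_mul' _ _ ENNReal.ofReal_ne_top]
    apply lintegral_mono
    intro x
    have h3 : ∫⁻ y in Ioi R, ENNReal.ofReal ((y + 1) * v y) * (Ioc (-1) y).indicator g x
        ≤ ∫⁻ y in Ioi R, (Ici x).indicator (fun y => ENNReal.ofReal ((y + 1) * v y) * g x) y := by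
      apply lintegral_mono
      intro y
      beta_reduce
      by_cases h : x ∈ Ioc (-1) y
      · rw [indicator_of_mem h, indicator_of_mem (show y ∈ Ici x from h.2)]
      · rw [indicator_of_notMem h]
        simp
    refine h3.trans ?_
    rw [lintegral_indicator measurableSet_Ici, Measure.restrict_restrict measurableSet_Ici]
    have hsub : Ici x ∩ Ioi R ⊆ Ici (max R x) := by
      intro y hy
      exact mem_Ici.2 (max_le (le_of_lt (mem_Ioi.1 hy.2)) (mem_Ici.1 hy.1))
    refine (lintegral_mono_set hsub).trans ?_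
    rw [lintegral_mul_const _ (by fun_prop), lint_tail (hR.trans (le_max_left _ _)), hg]
    simp only
    rw [← mul_assoc, ← ENNReal.ofReal_mul (v_pos _).le]
    apply mul_le_mul_left
    exact ENNReal.ofReal_le_ofReal (wv_le hR)
  · apply Measurable.aemeasurable
    have h4 : Function.uncurry (fun y x : ℝ => ENNReal.ofReal ((y + 1) * v y) *
        (Ioc (-1) y).indicator g x) = fun q : ℝ × ℝ => ENNReal.ofReal ((q.1 + 1) * v q.1) *
        ({q : ℝ × ℝ | -1 < q.2 ∧ q.2 ≤ q.1}.indicator (fun q => g q.2) q) := by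
      ext q
      rfl
    rw [h4]
    apply Measurable.mul (by fun_prop)
    apply Measurable.indicator (hgm.comp measurable_snd)
    exact (measurableSet_lt measurable_const measurable_snd).inter
      (measurableSet_le measurable_snd measurable_fst)

theorem lint_sf_all (P : H) : ∫⁻ y, ‖sf P y‖ₑ ^ 2 = ∫⁻ y in Ioi 0, ‖sf P y‖ₑ ^ 2 := by
  rw [← lintegral_indicator measurableSet_Ioi]
  apply lintegral_congr
  intro y
  by_cases h : y ∈ Ioi (0:ℝ)
  · rw [indicator_of_mem h]
  · rw [indicator_of_notMem h]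
    unfold sf
    rw [kk_nonpos (by simpa using h)]
    simp

theorem lint_sf_le' (P : H) : ∫⁻ y, ‖sf P y‖ₑ ^ 2 ≤ ‖P‖ₑ ^ 2 := by
  rw [lint_sf_all]
  have := lint_sf_le P le_rfl
  simpa using this

theorem sf_memLp (P : H) : MemLp (sf P) 2 volume := by
  refine ⟨(sf_cont P).aestronglyMeasurable, ?_⟩
  rw [eLpNorm_eq_lintegral_rpow_enorm_toReal (by norm_num) (by norm_num)]
  simp only [ENNReal.toReal_ofNat, ENNReal.rpow_two]
  apply ENNReal.rpow_lt_top_of_nonneg (by norm_num)
  refine ne_of_lt (lt_of_le_of_lt (lint_sf_le' P) ?_)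
  exact ENNReal.pow_lt_top enorm_lt_top

noncomputable def Sf (P : H) : H := (sf_memLp P).toLp (sf P)

theorem Sf_ae (P : H) : (fun y => Sf P y) =ᵐ[volume] sf P := (sf_memLp P).coeFn_toLp

theorem enorm_Sf_sq (P : H) : ‖Sf P‖ₑ ^ 2 = ∫⁻ y, ‖sf P y‖ₑ ^ 2 := by
  rw [← lint_norm_sq]
  apply lintegral_congr_ae
  filter_upwards [Sf_ae P] with y hy
  rw [hy]

theorem norm_Sf_le (P : H) : ‖Sf P‖ ≤ ‖P‖ := by
  have h := lint_sf_le' P
  rw [← enorm_Sf_sq] at h
  have h2 : ‖Sf P‖ₑ ≤ ‖P‖ₑ := by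
    by_contra hc
    push Not at hc
    exact absurd h (not_le.2 (ENNReal.pow_lt_pow_left two_ne_zero hc))
  rw [← ofReal_norm, ← ofReal_norm] at h2
  exact (ENNReal.ofReal_le_ofReal_iff (norm_nonneg _)).1 h2

noncomputable def S : H →L[ℂ] H :=
  LinearMap.mkContinuous
    { toFun := Sf
      map_add' := by
        intro P Q
        apply Lp.ext
        filter_upwards [Sf_ae (P + Q), Sf_ae P, Sf_ae Q, Lp.coeFn_add (Sf P) (Sf Q)]
          with y h1 h2 h3 h4
        rw [h4, Pi.add_apply, h1, h2, h3]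
        unfold sf
        rw [inner_add_right, mul_add]
      map_smul' := by
        intro c P
        apply Lp.ext
        filter_upwards [Sf_ae (c • P), Sf_ae P, Lp.coeFn_smul c (Sf P)]
          with y h1 h2 h4
        rw [RingHom.id_apply, h4, Pi.smul_apply, h1, h2]
        unfold sf
        rw [inner_smul_right, smul_eq_mul]
        ring } 1 (fun P => by
      rw [one_mul]
      exact norm_Sf_le P)

theorem S_apply (P : H) : S P = Sf P := rfl

theorem inner_S_S (P Q : H) :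
    ⟪S P, S Q⟫_ℂ = ∫ y, (starRingEnd ℂ) (sf P y) * sf Q y := by
  rw [L2.inner_def]
  apply integral_congr_ae
  filter_upwards [Sf_ae P, Sf_ae Q] with y h1 h2
  rw [S_apply, S_apply, h1, h2, RCLike.inner_apply, mul_comm]

theorem integrable_S_S (P Q : H) :
    Integrable (fun y => (starRingEnd ℂ) (sf P y) * sf Q y) := by
  refine (L2.integrable_inner (𝕜 := ℂ) (S P) (S Q)).congr ?_
  filter_upwards [Sf_ae P, Sf_ae Q] with y h1 h2
  rw [S_apply, S_apply, h1, h2, RCLike.inner_apply, mul_comm]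

/-- if `S P = 0` then all the moments `⟪r y, P⟫` with `y > 0` vanish -/
theorem inner_r_eq_zero_of_S {P : H} (h : S P = 0) {y : ℝ} (hy : 0 ≤ y) : ⟪r y, P⟫_ℂ = 0 := by
  have h1 : sf P =ᵐ[volume] fun _ => (0:ℂ) := by
    filter_upwards [Sf_ae P, Lp.coeFn_zero (E := ℂ) (p := 2) (μ := (volume : Measure ℝ))]
      with t h2 h3
    rw [← h2, ← S_apply, h, h3]
    rfl
  have h2 : sf P = fun _ => (0:ℂ) :=
    Measure.eq_of_ae_eq h1 (sf_cont P) continuous_const
  have h3 : ∀ t : ℝ, 0 < t → ⟪r t, P⟫_ℂ = 0 := by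
    intro t ht
    have h4 := congrFun h2 t
    unfold sf at h4
    rcases mul_eq_zero.1 h4 with h5 | h5
    · exfalso
      have h6 : kk t = 0 := by exact_mod_cast h5
      have h7 := kk_sq ht.le
      rw [h6] at h7
      have := v_pos t
      have h8 : 0 < t * v t ^ 2 := by positivity
      rw [← h7] at h8
      simp at h8
    · exact h5
  rcases eq_or_lt_of_le hy with h0 | h0
  · have hc := (continuous_inner_r P).tendsto 0
    have h5 : Tendsto (fun y => ⟪r y, P⟫_ℂ) (𝓝[>] 0) (𝓝 0) := by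
      apply tendsto_const_nhds.congr'
      filter_upwards [self_mem_nhdsWithin] with t ht
      exact (h3 t ht).symm
    rw [← h0]
    exact tendsto_nhds_unique (hc.mono_left nhdsWithin_le_nhds) h5
  · exact h3 y h0

end Pool.Agent.R402.Eq
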