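import Pool.Agent.R402.EqB
import Pool.Agent.Helper965.CN.Cpt
import Pool.Agent.Helper872.Sch.Base
set_option autoImplicit false
open MeasureTheory Filter Topology Set ContinuousLinearMap
open scoped ENNReal InnerProductSpace NNReal

/-! Compactness of the operator and its eigenbasis. -/

namespace Pool.Agent.R402.Eq

theorem v_sq_mul (y : ℝ) : v y ^ 2 * Real.exp (y ^ 2 + 2 * y) = 1 := by
  unfold v
  rw [← Real.exp_nat_mul, ← Real.exp_add, ← Real.exp_zero]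
  congr 1
  push_cast
  ring

theorem v_sq_Gam {y : ℝ} (hy : 0 ≤ y) : v y ^ 2 * Gam y ≤ 1 / (y + 1) := by
  have h1 := mul_le_mul_of_nonneg_left (Gam_le hy) (sq_nonneg (v y))
  refine h1.trans (le_of_eq ?_)
  rw [mul_div_assoc', v_sq_mul]

/-- `v(y)|⟪r y, P⟫| ≤ ‖P‖ / √(y+1)` -/
theorem v_mul_inner_le {y : ℝ} (hy : 0 ≤ y) (P : H) :
    v y * ‖⟪r y, P⟫_ℂ‖ ≤ ‖P‖ / √(y + 1) := by
  have h1 : (v y * ‖⟪r y, P⟫_ℂ‖) ^ 2 ≤ (‖P‖ / √(y + 1)) ^ 2 := by
    rw [mul_pow, div_pow, Real.sq_sqrt (by linarith)]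
    calc v y ^ 2 * ‖⟪r y, P⟫_ℂ‖ ^ 2 ≤ v y ^ 2 * (Gam y * ‖P‖ ^ 2) :=
          mul_le_mul_of_nonneg_left (norm_inner_r_sq_le hy P) (sq_nonneg _)
      _ = (v y ^ 2 * Gam y) * ‖P‖ ^ 2 := by ring
      _ ≤ 1 / (y + 1) * ‖P‖ ^ 2 := mul_le_mul_of_nonneg_right (v_sq_Gam hy) (sq_nonneg _)
      _ = _ := by ring
  exact le_of_sq_le_sq h1 (by positivity)

theorem norm_sf_le (P : H) (y : ℝ) : ‖sf P y‖ ≤ ‖P‖ := by
  rcases le_or_gt y 0 with h | h
  · unfold sf
    rw [kk_nonpos h]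
    simp
  · unfold sf
    rw [norm_mul, Complex.norm_real, Real.norm_of_nonneg
      (show 0 ≤ kk y from mul_nonneg (Real.sqrt_nonneg _) (v_pos y).le), kk, mul_assoc]
    calc √y * (v y * ‖⟪r y, P⟫_ℂ‖) ≤ √y * (‖P‖ / √(y + 1)) :=
          mul_le_mul_of_nonneg_left (v_mul_inner_le h.le P) (Real.sqrt_nonneg _)
      _ = (√y / √(y + 1)) * ‖P‖ := by ring
      _ ≤ 1 * ‖P‖ := by
        apply mul_le_mul_of_nonneg_right _ (norm_nonneg _)
        rw [div_le_one (Real.sqrt_pos.2 (by linarith))]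
        exact Real.sqrt_le_sqrt (by linarith)
      _ = ‖P‖ := one_mul _

theorem tendsto_S {η : ℕ → H} (hη : ∀ n, ‖η n‖ ≤ 1)
    (hw : ∀ x : H, Tendsto (fun n => ⟪x, η n⟫_ℂ) atTop (𝓝 0)) :
    Tendsto (fun n => ‖S (η n)‖) atTop (𝓝 0) := by
  have hloc : ∀ R : ℝ, Tendsto (fun n => ∫⁻ y in Ioc 0 R, ‖sf (η n) y‖ₑ ^ 2) atTop (𝓝 0) := by
    intro R
    have h0 : (∫⁻ _ in Ioc (0:ℝ) R, (0:ℝ≥0∞)) = 0 := by simp
    rw [← h0]
    apply tendsto_lintegral_of_dominated_convergence (fun _ => 1)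
    · intro n
      have := (sf_cont (η n)).measurable
      fun_prop
    · intro n
      refine ae_of_all _ fun y => ?_
      have h1 := (norm_sf_le (η n) y).trans (hη n)
      have h2 : ‖sf (η n) y‖ₑ ≤ 1 := by
        rw [← ofReal_norm]
        exact ENNReal.ofReal_le_one.2 h1
      exact pow_le_one₀ zero_le h2
    · simp
    · refine ae_of_all _ fun y => ?_
      have h1 : Tendsto (fun n => sf (η n) y) atTop (𝓝 0) := by
        have := (hw (r y)).const_mul (kk y : ℂ)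
        rw [mul_zero] at this
        exact this
      have h2 := ENNReal.Tendsto.pow (n := 2) h1.enorm
      simpa using h2
  have hsq : Tendsto (fun n => ‖S (η n)‖ₑ ^ 2) atTop (𝓝 0) := by
    rw [ENNReal.tendsto_nhds_zero]
    intro ε hε
    obtain ⟨δ, hδ, hδε⟩ := ENNReal.lt_iff_exists_real_btwn.1 (ENNReal.half_pos hε.ne')
    have hδ0 : 0 < δ := by
      have := hδε.1
      rwa [ENNReal.ofReal_pos] at this
    have h1 : ENNReal.ofReal (1 / (1 / δ + 1)) ≤ ε / 2 := by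
      refine le_trans (ENNReal.ofReal_le_ofReal ?_) hδε.2.le
      rw [div_le_iff₀ (by positivity)]
      have : δ * (1 / δ + 1) = 1 + δ := by field_simp
      rw [this]; linarith
    filter_upwards [(ENNReal.tendsto_nhds_zero.1 (hloc (1 / δ))) (ε / 2)
      (ENNReal.half_pos hε.ne')] with n hn
    have hR : (0:ℝ) ≤ 1 / δ := by positivity
    rw [S_apply, enorm_Sf_sq, lint_sf_all, ← Ioc_union_Ioi_eq_Ioi hR]
    refine (lintegral_union_le _ _ _).trans ?_
    rw [← ENNReal.add_halves ε]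
    refine add_le_add hn ((lint_sf_le _ hR).trans ?_)
    calc ENNReal.ofReal (1 / (1 / δ + 1)) * ‖η n‖ₑ ^ 2
        ≤ ENNReal.ofReal (1 / (1 / δ + 1)) * 1 := by
          apply mul_le_mul_right
          apply pow_le_one₀ zero_le
          rw [← ofReal_norm]
          exact ENNReal.ofReal_le_one.2 (hη n)
      _ ≤ ε / 2 := by rw [mul_one]; exact h1
  have h3 : Tendsto (fun n => (‖S (η n)‖ₑ ^ 2).toReal) atTop (𝓝 0) := by
    have := (ENNReal.tendsto_toReal (ENNReal.zero_ne_top)).comp hsq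
    rw [ENNReal.toReal_zero] at this
    exact this
  have h4 : (fun n => (‖S (η n)‖ₑ ^ 2).toReal) = fun n => ‖S (η n)‖ ^ 2 := by
    ext n
    rw [ENNReal.toReal_pow, toReal_enorm]
  rw [h4] at h3
  have h5 := (Real.continuous_sqrt.tendsto 0).comp h3
  rw [Real.sqrt_zero] at h5
  refine h5.congr fun n => ?_
  simp [Real.sqrt_sq]

theorem compact_K : IsCompactOperator (adjoint S ∘L S) := by
  by_contra hcon
  obtain ⟨η, c, hc, h1, h2, h3⟩ := Pool.Agent.Helper965.CN.exists_weak_null hcon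
  have h4 := (tendsto_S h1 h3).const_mul ‖adjoint S‖
  rw [mul_zero] at h4
  obtain ⟨n, hn⟩ := ((tendsto_order.1 h4).2 c hc).exists
  have h5 : ‖(adjoint S ∘L S) (η n)‖ ≤ ‖adjoint S‖ * ‖S (η n)‖ := (adjoint S).le_opNorm _
  linarith [h2 n]

end Pool.Agent.R402.Eq
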