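import Pool.Agent.R402.EqC
set_option autoImplicit false
open MeasureTheory Filter Topology Set ContinuousLinearMap
open scoped ENNReal InnerProductSpace NNReal

/-! From the resolvent equation to the differential equation. -/

namespace Pool.Agent.R402.Eq

/-- `k(t)² ⟪r t, P⟫` -/
noncomputable def gg (P : H) (t : ℝ) : ℂ := ((kk t ^ 2 : ℝ) : ℂ) * ⟪r t, P⟫_ℂ

theorem gg_cont (P : H) : Continuous (gg P) :=
  (Complex.continuous_ofReal.comp (kk_cont.pow 2)).mul (continuous_inner_r P)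

theorem gg_nonpos (P : H) {t : ℝ} (ht : t ≤ 0) : gg P t = 0 := by
  unfold gg; rw [kk_nonpos ht]; simp

theorem sf_r {y t : ℝ} (hy : 0 ≤ y) (ht : 0 ≤ t) :
    sf (r y) t = ((kk t * Gam (min t y) : ℝ) : ℂ) := by
  unfold sf
  rw [inner_r_r ht hy]
  push_cast
  ring

theorem integrand_eq {y : ℝ} (hy : 0 ≤ y) (P : H) (t : ℝ) :
    (starRingEnd ℂ) (sf (r y) t) * sf P t = (Gam (min t y) : ℂ) * gg P t := by
  rcases le_or_gt t 0 with h | h
  · rw [gg_nonpos P h]
    unfold sf
    rw [kk_nonpos h]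
    simp
  · rw [sf_r hy h.le, Complex.conj_ofReal]
    unfold sf gg
    push_cast
    ring

theorem integrable_Gg {y : ℝ} (hy : 0 ≤ y) (P : H) :
    Integrable (fun t => (Gam (min t y) : ℂ) * gg P t) := by
  refine (integrable_S_S (r y) P).congr (ae_of_all _ fun t => ?_)
  exact integrand_eq hy P t

theorem integrable_gg (P : H) : Integrable (gg P) := by
  refine (integrable_Gg le_rfl P).congr (ae_of_all _ fun t => ?_)
  beta_reduce
  rcases le_or_gt t 0 with h | h
  · rw [gg_nonpos P h]; simp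
  · rw [min_eq_right h.le, Gam_zero]; simp

noncomputable def JJ (P : H) (y : ℝ) : ℂ := (∫ t in Ioi 0, gg P t) - ∫ t in (0:ℝ)..y, gg P t

noncomputable def HH (P : H) (y : ℝ) : ℂ :=
  (∫ t in (0:ℝ)..y, (Gam t : ℂ) * gg P t) + (Gam y : ℂ) * JJ P y

theorem Gam_cont : Continuous Gam :=
  continuous_iff_continuousAt.2 fun y => (hasDerivAt_Gam y).continuousAt

theorem inner_S_r {y : ℝ} (hy : 0 ≤ y) (P : H) : ⟪S (r y), S P⟫_ℂ = HH P y := by
  rw [inner_S_S]
  have h1 : ∫ t, (starRingEnd ℂ) (sf (r y) t) * sf P t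
      = ∫ t in Ioi 0, (Gam (min t y) : ℂ) * gg P t := by
    rw [← integral_indicator measurableSet_Ioi]
    apply integral_congr_ae
    refine ae_of_all _ fun t => ?_
    beta_reduce
    rw [integrand_eq hy P t]
    by_cases h : t ∈ Ioi (0:ℝ)
    · rw [indicator_of_mem h]
    · rw [indicator_of_notMem h, gg_nonpos P (by simpa using h)]
      simp
  have hint := (integrable_Gg hy P)
  rw [h1, ← Ioc_union_Ioi_eq_Ioi hy, setIntegral_union (Ioc_disjoint_Ioi le_rfl)
    measurableSet_Ioi hint.integrableOn hint.integrableOn]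
  have h2 : ∫ t in Ioc 0 y, (Gam (min t y) : ℂ) * gg P t
      = ∫ t in (0:ℝ)..y, (Gam t : ℂ) * gg P t := by
    rw [intervalIntegral.integral_of_le hy]
    apply setIntegral_congr_fun measurableSet_Ioc
    intro t ht
    beta_reduce
    rw [min_eq_left ht.2]
  have h3 : ∫ t in Ioi y, (Gam (min t y) : ℂ) * gg P t = (Gam y : ℂ) * JJ P y := by
    have h4 : ∫ t in Ioi y, (Gam (min t y) : ℂ) * gg P t
        = ∫ t in Ioi y, (Gam y : ℂ) * gg P t := by
      apply setIntegral_congr_fun measurableSet_Ioi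
      intro t ht
      beta_reduce
      rw [min_eq_right (le_of_lt ht)]
    rw [h4, integral_const_mul]
    congr 1
    unfold JJ
    rw [intervalIntegral.integral_of_le hy]
    rw [← Ioc_union_Ioi_eq_Ioi hy, setIntegral_union (Ioc_disjoint_Ioi le_rfl)
      measurableSet_Ioi (integrable_gg P).integrableOn (integrable_gg P).integrableOn]
    ring
  rw [h2, h3]
  rfl

theorem hasDerivAt_JJ (P : H) (y : ℝ) : HasDerivAt (JJ P) (-gg P y) y := by
  have h := intervalIntegral.integral_hasDerivAt_right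
    ((gg_cont P).intervalIntegrable 0 y) ((gg_cont P).stronglyMeasurableAtFilter _ _)
    (gg_cont P).continuousAt
  exact h.const_sub _

theorem hasDerivAt_HH (P : H) (y : ℝ) :
    HasDerivAt (HH P) ((Real.exp (y ^ 2 + 2 * y) : ℝ) * JJ P y) y := by
  have hc : Continuous (fun t => (Gam t : ℂ) * gg P t) :=
    (Complex.continuous_ofReal.comp Gam_cont).mul (gg_cont P)
  have h := intervalIntegral.integral_hasDerivAt_right
    (hc.intervalIntegrable 0 y) (hc.stronglyMeasurableAtFilter _ _)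
    hc.continuousAt
  have h2 := h.add ((hasDerivAt_Gam y).ofReal_comp.mul (hasDerivAt_JJ P y))
  refine h2.congr_deriv ?_
  ring

theorem exists_ode (P : H) (τ η : ℂ) (h : P - τ • (adjoint S (S P)) = η • r 0) :
    ∃ φ φ' : ℝ → ℂ, (∀ y : ℝ, HasDerivAt φ (φ' y) y) ∧
      (∀ y : ℝ, 0 ≤ y → HasDerivAt φ' (((y:ℂ) ^ 2 - (τ - 2) * y) * φ y) y) ∧
      φ' 0 = -η ∧ (∀ y : ℝ, 0 ≤ y → φ y = (v y : ℂ) * ⟪r y, P⟫_ℂ) := by
  have hG : ∀ y, 0 ≤ y → ⟪r y, P⟫_ℂ = η + τ * HH P y := by
    intro y hy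
    have h1 : P = η • r 0 + τ • (adjoint S (S P)) := by
      rw [← h]; simp
    rw [← inner_S_r hy P, ← adjoint_inner_right]
    conv_lhs => rw [h1]
    rw [inner_add_right, inner_smul_right, inner_smul_right, inner_r_r hy le_rfl,
      min_eq_right hy, Gam_zero]
    simp
  let E : ℝ → ℝ := fun y => Real.exp (y ^ 2 / 2 + y)
  have hE : ∀ y, HasDerivAt E (E y * (y + 1)) y := hasDerivAt_E
  have hvE : ∀ y, v y * E y = 1 := by
    intro y
    simp only [v, E]
    rw [← Real.exp_add, ← Real.exp_zero]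
    congr 1
    ring
  have hvE2 : ∀ y : ℝ, v y * Real.exp (y ^ 2 + 2 * y) = E y := by
    intro y
    simp only [v, E]
    rw [← Real.exp_add]
    congr 1
    ring
  refine ⟨fun y => (v y : ℂ) * (η + τ * HH P y),
    fun y => -((y : ℂ) + 1) * ((v y : ℂ) * (η + τ * HH P y)) + τ * ((E y : ℝ) : ℂ) * JJ P y,
    ?_, ?_, ?_, ?_⟩
  · intro y
    have h1 := (hasDerivAt_v y).ofReal_comp.mul (((hasDerivAt_HH P y).const_mul τ).const_add η)
    refine h1.congr_deriv ?_
    have h2 : (v y : ℂ) * ((Real.exp (y ^ 2 + 2 * y) : ℝ) : ℂ) = (E y : ℂ) := by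
      rw [← Complex.ofReal_mul, hvE2]
    push_cast at h2 ⊢
    linear_combination (τ * JJ P y) * h2
  · intro y hy
    have hφ : HasDerivAt (fun y : ℝ => (v y : ℂ) * (η + τ * HH P y))
        (-((y : ℂ) + 1) * ((v y : ℂ) * (η + τ * HH P y)) + τ * ((E y : ℝ) : ℂ) * JJ P y) y := by
      have h1 := (hasDerivAt_v y).ofReal_comp.mul (((hasDerivAt_HH P y).const_mul τ).const_add η)
      refine h1.congr_deriv ?_
      have h2 : (v y : ℂ) * ((Real.exp (y ^ 2 + 2 * y) : ℝ) : ℂ) = (E y : ℂ) := by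
        rw [← Complex.ofReal_mul, hvE2]
      push_cast at h2 ⊢
      linear_combination (τ * JJ P y) * h2
    have hlin : HasDerivAt (fun y : ℝ => -((y : ℂ) + 1)) (-1) y := by
      have := ((hasDerivAt_id y).ofReal_comp.add_const (1:ℂ)).neg
      exact this.congr_deriv (by simp)
    have h3 := (hlin.mul hφ).add (((hE y).ofReal_comp.const_mul τ).mul (hasDerivAt_JJ P y))
    refine h3.congr_deriv ?_
    have h4 : ((E y : ℝ) : ℂ) * gg P y = (y : ℂ) * ((v y : ℂ) * (η + τ * HH P y)) := by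
      unfold gg
      rw [hG y hy, kk_sq hy]
      have h5 : ((E y : ℝ) : ℂ) * (v y : ℂ) = 1 := by
        rw [← Complex.ofReal_mul, mul_comm, hvE]; simp
      push_cast
      linear_combination ((y : ℂ) * (v y : ℂ) * (η + τ * HH P y)) * h5
    push_cast
    linear_combination (-τ) * h4
  · have h0 : E 0 = 1 := by simp [E]
    have h1 : HH P 0 = JJ P 0 := by
      unfold HH
      rw [Gam_zero]
      simp
    beta_reduce
    rw [h0, h1, v_zero]
    push_cast
    ring
  · intro y hy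
    beta_reduce
    rw [hG y hy]

end Pool.Agent.R402.Eq
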