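import Mathlib
set_option autoImplicit false
open Filter Topology Set
open scoped InnerProductSpace NNReal

/-! Second order linear equations on the half line: uniqueness, Gaussian decay of bounded
solutions, and absence of bounded Neumann solutions for nonnegative potentials. -/

namespace Pool.Agent.R402.Eq

theorem ode_unique {φ φ' q : ℝ → ℂ} (hq : Continuous q)
    (h1 : ∀ y : ℝ, 0 ≤ y → HasDerivAt φ (φ' y) y)
    (h2 : ∀ y : ℝ, 0 ≤ y → HasDerivAt φ' (q y * φ y) y) (h0 : φ 0 = 0) (h0' : φ' 0 = 0) :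
    ∀ y : ℝ, 0 ≤ y → φ y = 0 := by
  intro b hb
  obtain ⟨M, hM⟩ := (isCompact_Icc (a := (0:ℝ)) (b := b)).exists_bound_of_continuousOn
    hq.continuousOn
  have hc : ContinuousOn (fun y => (φ y, φ' y)) (Icc 0 b) := by
    intro y hy
    exact ((h1 y hy.1).continuousAt.prodMk (h2 y hy.1).continuousAt).continuousWithinAt
  have h3 := norm_le_gronwallBound_of_norm_deriv_right_le (f := fun y => (φ y, φ' y))
    (f' := fun y => (φ' y, q y * φ y)) (δ := 0) (K := max 1 M) (ε := 0) (a := 0) (b := b) hc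
    (fun y hy => ((h1 y hy.1).prodMk (h2 y hy.1)).hasDerivWithinAt) (by simp [h0, h0']) (by
      intro y hy
      rw [add_zero, Prod.norm_mk, Prod.norm_mk]
      have hM1 : ‖q y‖ ≤ M := hM y ⟨hy.1, hy.2.le⟩
      have a1 : (1:ℝ) ≤ max 1 M := le_max_left _ _
      have a2 : M ≤ max 1 M := le_max_right _ _
      have a3 : ‖φ y‖ ≤ max ‖φ y‖ ‖φ' y‖ := le_max_left _ _
      have a4 : ‖φ' y‖ ≤ max ‖φ y‖ ‖φ' y‖ := le_max_right _ _
      have a5 : 0 ≤ ‖φ y‖ := norm_nonneg _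
      apply max_le
      · nlinarith [norm_nonneg (φ' y)]
      · rw [norm_mul]
        calc ‖q y‖ * ‖φ y‖ ≤ max 1 M * ‖φ y‖ :=
              mul_le_mul_of_nonneg_right (hM1.trans a2) a5
          _ ≤ _ := mul_le_mul_of_nonneg_left a3 (by linarith)) b ⟨hb, le_rfl⟩
  rw [gronwallBound_ε0_δ0, Prod.norm_mk] at h3
  have h4 : ‖φ b‖ ≤ 0 := (le_max_left _ _).trans h3
  simpa using h4

section W
variable {φ φ' q : ℝ → ℂ} {y : ℝ}

theorem W_deriv (h1 : HasDerivAt φ (φ' y) y) :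
    HasDerivAt (fun y => ‖φ y‖ ^ 2) (2 * ⟪φ y, φ' y⟫_ℝ) y := h1.norm_sq

theorem W_deriv2 (h1 : HasDerivAt φ (φ' y) y) (h2 : HasDerivAt φ' (q y * φ y) y) :
    HasDerivAt (fun y => 2 * ⟪φ y, φ' y⟫_ℝ) (2 * ‖φ' y‖ ^ 2 + 2 * (q y).re * ‖φ y‖ ^ 2) y := by
  have h3 := (h1.inner ℝ h2).const_mul 2
  refine h3.congr_deriv ?_
  rw [real_inner_self_eq_norm_sq]
  have h4 : ⟪φ y, q y * φ y⟫_ℝ = (q y).re * ‖φ y‖ ^ 2 := by
    rw [Complex.inner, ← Complex.normSq_eq_norm_sq]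
    simp only [Complex.mul_re, Complex.conj_re, Complex.conj_im, Complex.mul_im,
      Complex.normSq_apply]
    ring
  rw [h4]
  ring
end W

theorem neumann_zero {φ φ' : ℝ → ℂ} {s : ℝ} (hs : s ≤ 0)
    (h1 : ∀ y : ℝ, 0 ≤ y → HasDerivAt φ (φ' y) y)
    (h2 : ∀ y : ℝ, 0 ≤ y → HasDerivAt φ' (((y:ℂ) ^ 2 - (s:ℂ) * y) * φ y) y) (h0' : φ' 0 = 0)
    (hlim : Tendsto (fun y => ‖φ y‖ ^ 2) atTop (𝓝 0)) :
    ∀ y : ℝ, 0 ≤ y → φ y = 0 := by
  have hW1 := fun y hy => W_deriv (h1 y hy)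
  have hW2 := fun y hy => W_deriv2 (q := fun y => ((y:ℂ) ^ 2 - (s:ℂ) * y)) (h1 y hy) (h2 y hy)
  have hre : ∀ y : ℝ, ((y:ℂ) ^ 2 - (s:ℂ) * y).re = y ^ 2 - s * y := by
    intro y
    rw [← Complex.ofReal_pow, ← Complex.ofReal_mul, ← Complex.ofReal_sub, Complex.ofReal_re]
  have hm1 : MonotoneOn (fun y => 2 * ⟪φ y, φ' y⟫_ℝ) (Ici 0) := by
    apply monotoneOn_of_deriv_nonneg (convex_Ici 0)
    · intro y hy
      exact (hW2 y hy).continuousAt.continuousWithinAt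
    · intro y hy
      rw [interior_Ici] at hy
      exact (hW2 y (le_of_lt hy)).differentiableAt.differentiableWithinAt
    · intro y hy
      rw [interior_Ici] at hy
      have hy' : 0 < y := hy
      rw [(hW2 y hy'.le).deriv, hre]
      have : 0 ≤ y ^ 2 - s * y := by nlinarith
      positivity
  have hpos : ∀ y : ℝ, 0 ≤ y → 0 ≤ 2 * ⟪φ y, φ' y⟫_ℝ := by
    intro y hy
    have := hm1 (mem_Ici.2 le_rfl) (mem_Ici.2 hy) hy
    simp only [h0', inner_zero_right, mul_zero] at this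
    exact this
  have hm2 : MonotoneOn (fun y => ‖φ y‖ ^ 2) (Ici 0) := by
    apply monotoneOn_of_deriv_nonneg (convex_Ici 0)
    · intro y hy
      exact (hW1 y hy).continuousAt.continuousWithinAt
    · intro y hy
      rw [interior_Ici] at hy
      exact (hW1 y (le_of_lt hy)).differentiableAt.differentiableWithinAt
    · intro y hy
      rw [interior_Ici] at hy
      rw [(hW1 y (le_of_lt hy)).deriv]
      exact hpos y (le_of_lt hy)
  intro y hy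
  have h3 : ‖φ y‖ ^ 2 ≤ 0 := by
    apply ge_of_tendsto hlim
    filter_upwards [eventually_ge_atTop y] with t ht
    exact hm2 (mem_Ici.2 hy) (mem_Ici.2 (hy.trans ht)) ht
  have h4 : ‖φ y‖ ^ 2 = 0 := le_antisymm h3 (by positivity)
  simpa using h4

theorem gaussian_decay {φ φ' : ℝ → ℂ} {s : ℂ} {C : ℝ}
    (h1 : ∀ y : ℝ, 0 ≤ y → HasDerivAt φ (φ' y) y)
    (h2 : ∀ y : ℝ, 0 ≤ y → HasDerivAt φ' (((y:ℂ) ^ 2 - s * y) * φ y) y)
    (hb : ∀ y : ℝ, 0 ≤ y → (y + 1) * ‖φ y‖ ^ 2 ≤ C) :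
    ∃ A : ℝ, 0 ≤ A ∧ ∀ y : ℝ, 0 ≤ y → ‖φ y‖ ≤ A * Real.exp (-(y ^ 2 / 4)) := by
  have hW1 := fun y hy => W_deriv (h1 y hy)
  have hW2 := fun y hy => W_deriv2 (q := fun y => ((y:ℂ) ^ 2 - s * y)) (h1 y hy) (h2 y hy)
  have hre : ∀ y : ℝ, ((y:ℂ) ^ 2 - s * y).re = y ^ 2 - s.re * y := by
    intro y
    rw [Complex.sub_re, ← Complex.ofReal_pow, Complex.ofReal_re, Complex.mul_re,
      Complex.ofReal_re, Complex.ofReal_im]
    ring
  set Y := 2 * ‖s‖ with hY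
  have hY0 : 0 ≤ Y := by positivity
  have hC0 : 0 ≤ C := le_trans (by positivity) (hb 0 le_rfl)
  have hWC : ∀ y : ℝ, 0 ≤ y → ‖φ y‖ ^ 2 ≤ C := by
    intro y hy
    have := hb y hy
    nlinarith [sq_nonneg ‖φ y‖]
  have hyWC : ∀ y : ℝ, 0 ≤ y → y * ‖φ y‖ ^ 2 ≤ C := by
    intro y hy
    have := hb y hy
    nlinarith [sq_nonneg ‖φ y‖]
  have hW2lb : ∀ y : ℝ, Y ≤ y →
      y ^ 2 * ‖φ y‖ ^ 2 ≤ 2 * ‖φ' y‖ ^ 2 + 2 * ((y:ℂ) ^ 2 - s * y).re * ‖φ y‖ ^ 2 := by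
    intro y hy
    rw [hre]
    have h3 : s.re ≤ ‖s‖ := Complex.re_le_norm s
    have h4 : y ^ 2 ≤ 2 * (y ^ 2 - s.re * y) := by
      have : 0 ≤ y := hY0.trans hy
      nlinarith
    nlinarith [sq_nonneg ‖φ' y‖, mul_le_mul_of_nonneg_right h4 (sq_nonneg ‖φ y‖)]
  -- X = W' + y W
  set X : ℝ → ℝ := fun y => 2 * ⟪φ y, φ' y⟫_ℝ + y * ‖φ y‖ ^ 2 with hX
  have hXd : ∀ y : ℝ, 0 ≤ y → HasDerivAt X ((2 * ‖φ' y‖ ^ 2 + 2 * ((y:ℂ) ^ 2 - s * y).re
      * ‖φ y‖ ^ 2) + (1 * ‖φ y‖ ^ 2 + y * (2 * ⟪φ y, φ' y⟫_ℝ))) y := by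
    intro y hy
    exact (hW2 y hy).add ((hasDerivAt_id y).mul (hW1 y hy))
  have hg1 : ∀ y : ℝ, HasDerivAt (fun y : ℝ => Real.exp (-(y ^ 2 / 2)))
      (Real.exp (-(y ^ 2 / 2)) * (-y)) y := by
    intro y
    have h : HasDerivAt (fun y : ℝ => -(y ^ 2 / 2)) (-y) y := by
      have := ((hasDerivAt_pow 2 y).div_const 2).neg
      exact this.congr_deriv (by simp)
    exact h.exp
  have hg2 : ∀ y : ℝ, HasDerivAt (fun y : ℝ => Real.exp (y ^ 2 / 2))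
      (Real.exp (y ^ 2 / 2) * y) y := by
    intro y
    have h : HasDerivAt (fun y : ℝ => (y ^ 2 / 2)) (y) y := by
      have := ((hasDerivAt_pow 2 y).div_const 2)
      exact this.congr_deriv (by simp)
    exact h.exp
  have hmono : MonotoneOn (fun y => Real.exp (-(y ^ 2 / 2)) * X y) (Ici Y) := by
    have hd : ∀ y : ℝ, Y ≤ y → HasDerivAt (fun y => Real.exp (-(y ^ 2 / 2)) * X y)
        (Real.exp (-(y ^ 2 / 2)) * (-y) * X y + Real.exp (-(y ^ 2 / 2)) *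
        ((2 * ‖φ' y‖ ^ 2 + 2 * ((y:ℂ) ^ 2 - s * y).re
      * ‖φ y‖ ^ 2) + (1 * ‖φ y‖ ^ 2 + y * (2 * ⟪φ y, φ' y⟫_ℝ)))) y := by
      intro y hy
      exact (hg1 y).mul (hXd y (hY0.trans hy))
    apply monotoneOn_of_deriv_nonneg (convex_Ici _)
    · intro y hy
      exact (hd y hy).continuousAt.continuousWithinAt
    · intro y hy
      rw [interior_Ici] at hy
      exact (hd y (le_of_lt hy)).differentiableAt.differentiableWithinAt
    · intro y hy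
      rw [interior_Ici] at hy
      rw [(hd y (le_of_lt hy)).deriv]
      have h3 := hW2lb y (le_of_lt hy)
      have h4 : 0 < Real.exp (-(y ^ 2 / 2)) := Real.exp_pos _
      have h5 : Real.exp (-(y ^ 2 / 2)) * (-y) * X y + Real.exp (-(y ^ 2 / 2)) *
        ((2 * ‖φ' y‖ ^ 2 + 2 * ((y:ℂ) ^ 2 - s * y).re
      * ‖φ y‖ ^ 2) + (1 * ‖φ y‖ ^ 2 + y * (2 * ⟪φ y, φ' y⟫_ℝ)))
        = Real.exp (-(y ^ 2 / 2)) * ((2 * ‖φ' y‖ ^ 2 + 2 * ((y:ℂ) ^ 2 - s * y).re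
      * ‖φ y‖ ^ 2) + ‖φ y‖ ^ 2 - y ^ 2 * ‖φ y‖ ^ 2) := by
        rw [hX]; ring
      rw [h5]
      apply mul_nonneg h4.le
      nlinarith [sq_nonneg ‖φ y‖]
  have hXneg : ∀ y : ℝ, Y ≤ y → X y ≤ 0 := by
    intro y1 hy1
    by_contra hcon
    push Not at hcon
    have hy10 : 0 ≤ y1 := hY0.trans hy1
    have hXlb : ∀ y : ℝ, y1 ≤ y → (1 + (y ^ 2 - y1 ^ 2) / 2) * X y1 ≤ X y := by
      intro y hy
      have h3 := hmono (mem_Ici.2 hy1) (mem_Ici.2 (hy1.trans hy)) hy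
      beta_reduce at h3
      have h4 : Real.exp ((y ^ 2 - y1 ^ 2) / 2) * X y1 ≤ X y := by
        have h5 := mul_le_mul_of_nonneg_left h3 (Real.exp_pos (y ^ 2 / 2)).le
        rw [← mul_assoc, ← mul_assoc, ← Real.exp_add, ← Real.exp_add] at h5
        have e1 : y ^ 2 / 2 + -(y1 ^ 2 / 2) = (y ^ 2 - y1 ^ 2) / 2 := by ring
        have e2 : y ^ 2 / 2 + -(y ^ 2 / 2) = 0 := by ring
        rw [e1, e2, Real.exp_zero, one_mul] at h5
        exact h5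
      refine le_trans (mul_le_mul_of_nonneg_right ?_ hcon.le) h4
      have := Real.add_one_le_exp ((y ^ 2 - y1 ^ 2) / 2)
      linarith
    -- choose y2 large
    set y2 := y1 + 1 + 2 * (C + 1) / X y1 with hy2
    have hy12 : y1 ≤ y2 := by
      have : 0 ≤ 2 * (C + 1) / X y1 := by positivity
      rw [hy2]; linarith
    have hW'1 : ∀ y : ℝ, y2 ≤ y → 1 ≤ 2 * ⟪φ y, φ' y⟫_ℝ := by
      intro y hy
      have h3 := hXlb y (hy12.trans hy)
      have h4 := hyWC y (hy10.trans (hy12.trans hy))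
      have h5 : C + 1 ≤ (1 + (y ^ 2 - y1 ^ 2) / 2) * X y1 := by
        have h6 : 2 * (C + 1) / X y1 ≤ y ^ 2 - y1 ^ 2 := by
          have h7 : 0 ≤ 2 * (C + 1) / X y1 := by positivity
          have h8 : 1 + 2 * (C + 1) / X y1 ≤ y - y1 := by rw [hy2] at hy; linarith
          nlinarith
        have h9 : 2 * (C + 1) / X y1 * X y1 = 2 * (C + 1) := by
          field_simp
        nlinarith
      have h10 : X y = 2 * ⟪φ y, φ' y⟫_ℝ + y * ‖φ y‖ ^ 2 := rfl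
      linarith
    have hm : MonotoneOn (fun y => ‖φ y‖ ^ 2 - y) (Ici y2) := by
      have hd : ∀ y : ℝ, y2 ≤ y → HasDerivAt (fun y => ‖φ y‖ ^ 2 - y)
          (2 * ⟪φ y, φ' y⟫_ℝ - 1) y := by
        intro y hy
        exact (hW1 y (hy10.trans (hy12.trans hy))).sub (hasDerivAt_id y)
      apply monotoneOn_of_deriv_nonneg (convex_Ici _)
      · intro y hy
        exact (hd y hy).continuousAt.continuousWithinAt
      · intro y hy
        rw [interior_Ici] at hy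
        exact (hd y (le_of_lt hy)).differentiableAt.differentiableWithinAt
      · intro y hy
        rw [interior_Ici] at hy
        rw [(hd y (le_of_lt hy)).deriv]
        linarith [hW'1 y (le_of_lt hy)]
    have h3 := hm (mem_Ici.2 le_rfl) (mem_Ici.2 (show y2 ≤ y2 + (C + 1) by linarith))
      (by linarith)
    beta_reduce at h3
    have h4 := hWC (y2 + (C + 1)) (by linarith)
    nlinarith [sq_nonneg ‖φ y2‖]
  have hanti : AntitoneOn (fun y => Real.exp (y ^ 2 / 2) * ‖φ y‖ ^ 2) (Ici Y) := by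
    have hd : ∀ y : ℝ, Y ≤ y → HasDerivAt (fun y => Real.exp (y ^ 2 / 2) * ‖φ y‖ ^ 2)
        (Real.exp (y ^ 2 / 2) * y * ‖φ y‖ ^ 2 + Real.exp (y ^ 2 / 2) *
        (2 * ⟪φ y, φ' y⟫_ℝ)) y := by
      intro y hy
      exact (hg2 y).mul (hW1 y (hY0.trans hy))
    apply antitoneOn_of_deriv_nonpos (convex_Ici _)
    · intro y hy
      exact (hd y hy).continuousAt.continuousWithinAt
    · intro y hy
      rw [interior_Ici] at hy
      exact (hd y (le_of_lt hy)).differentiableAt.differentiableWithinAt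
    · intro y hy
      rw [interior_Ici] at hy
      rw [(hd y (le_of_lt hy)).deriv]
      have h3 := hXneg y (le_of_lt hy)
      have h4 : 0 < Real.exp (y ^ 2 / 2) := Real.exp_pos _
      have h5 : Real.exp (y ^ 2 / 2) * y * ‖φ y‖ ^ 2 + Real.exp (y ^ 2 / 2) *
        (2 * ⟪φ y, φ' y⟫_ℝ) = Real.exp (y ^ 2 / 2) * X y := by
        rw [hX]; ring
      rw [h5]
      exact mul_nonpos_of_nonneg_of_nonpos h4.le h3
  have hall : ∀ y : ℝ, 0 ≤ y → Real.exp (y ^ 2 / 2) * ‖φ y‖ ^ 2 ≤ Real.exp (Y ^ 2 / 2) * C := by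
    intro y hy
    rcases le_or_gt Y y with h | h
    · refine (hanti (mem_Ici.2 le_rfl) (mem_Ici.2 h) h).trans ?_
      exact mul_le_mul_of_nonneg_left (hWC Y hY0) (Real.exp_pos _).le
    · apply mul_le_mul _ (hWC y hy) (by positivity) (by positivity)
      apply Real.exp_le_exp.2
      nlinarith
  refine ⟨√(Real.exp (Y ^ 2 / 2) * C), Real.sqrt_nonneg _, ?_⟩
  intro y hy
  have h3 := hall y hy
  have h4 : ‖φ y‖ ^ 2 ≤ (√(Real.exp (Y ^ 2 / 2) * C) * Real.exp (-(y ^ 2 / 4))) ^ 2 := by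
    rw [mul_pow, Real.sq_sqrt (by positivity), ← Real.exp_nat_mul]
    have h5 := mul_le_mul_of_nonneg_right h3 (Real.exp_pos (-(y ^ 2 / 2))).le
    have e1 : Real.exp (y ^ 2 / 2) * ‖φ y‖ ^ 2 * Real.exp (-(y ^ 2 / 2)) = ‖φ y‖ ^ 2 := by
      rw [mul_right_comm, ← Real.exp_add]
      have : y ^ 2 / 2 + -(y ^ 2 / 2) = 0 := by ring
      rw [this, Real.exp_zero, one_mul]
    rw [e1] at h5
    have e2 : ((2:ℕ):ℝ) * (-(y ^ 2 / 4)) = -(y ^ 2 / 2) := by push_cast; ring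
    rw [e2]
    exact h5
  exact le_of_sq_le_sq h4 (by positivity)

end Pool.Agent.R402.Eq
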