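import Mathlib
set_option autoImplicit false
open Filter Topology Set Complex Asymptotics Bornology

/-! A Phragmén–Lindelöf uniqueness statement in a quadrant. -/

namespace Pool.Agent.R402.Eq

/-- the primitive eighth root of unity -/
noncomputable def cc : ℂ := ((√2)⁻¹ : ℝ) * (1 + I)
noncomputable def cb : ℂ := ((√2)⁻¹ : ℝ) * (1 - I)

theorem sqrt2_inv_sq : (√2)⁻¹ * (√2)⁻¹ = (2:ℝ)⁻¹ := by
  rw [← mul_inv, Real.mul_self_sqrt (by norm_num)]

theorem cc_sq : cc ^ 2 = I := by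
  unfold cc
  have h : (((√2)⁻¹ : ℝ) : ℂ) * (((√2)⁻¹ : ℝ) : ℂ) = 2⁻¹ := by
    rw [← ofReal_mul, sqrt2_inv_sq]; simp
  calc ((((√2)⁻¹ : ℝ) : ℂ) * (1 + I)) ^ 2
      = ((((√2)⁻¹ : ℝ) : ℂ) * (((√2)⁻¹ : ℝ) : ℂ)) * (1 + I) ^ 2 := by ring
    _ = I := by
      rw [h]
      have : (1 + I) ^ 2 = 2 * I := by
        rw [add_sq, I_sq]; ring
      rw [this]; ring

theorem cb_sq : cb ^ 2 = -I := by
  unfold cb
  have h : (((√2)⁻¹ : ℝ) : ℂ) * (((√2)⁻¹ : ℝ) : ℂ) = 2⁻¹ := by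
    rw [← ofReal_mul, sqrt2_inv_sq]; simp
  calc ((((√2)⁻¹ : ℝ) : ℂ) * (1 - I)) ^ 2
      = ((((√2)⁻¹ : ℝ) : ℂ) * (((√2)⁻¹ : ℝ) : ℂ)) * (1 - I) ^ 2 := by ring
    _ = -I := by
      rw [h]
      have : (1 - I) ^ 2 = -(2 * I) := by
        rw [sub_sq, I_sq]; ring
      rw [this]; ring

theorem cc_mul_cb : cc * cb = 1 := by
  unfold cc cb
  have h : (((√2)⁻¹ : ℝ) : ℂ) * (((√2)⁻¹ : ℝ) : ℂ) = 2⁻¹ := by
    rw [← ofReal_mul, sqrt2_inv_sq]; simp
  calc ((((√2)⁻¹ : ℝ) : ℂ) * (1 + I)) * ((((√2)⁻¹ : ℝ) : ℂ) * (1 - I))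
      = ((((√2)⁻¹ : ℝ) : ℂ) * (((√2)⁻¹ : ℝ) : ℂ)) * (1 - I ^ 2) := by ring
    _ = 1 := by rw [h, I_sq]; ring

theorem cc_re_pos : 0 < cc.re := by
  unfold cc; rw [re_ofReal_mul]; simp
theorem cb_re_pos : 0 < cb.re := by
  unfold cb; rw [re_ofReal_mul]; simp

theorem cc_ne_zero : cc ≠ 0 := by
  intro h
  have h2 := cc_re_pos
  rw [h] at h2
  simp at h2

theorem sqrt_sq_C {x : ℝ} (hx : 0 ≤ x) : ((√x : ℝ) : ℂ) ^ 2 = (x : ℂ) := by
  rw [← ofReal_pow, Real.sq_sqrt hx]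

noncomputable def sq (w : ℂ) : ℂ := cc * w ^ (2⁻¹ : ℂ)

theorem sq_sq (w : ℂ) : sq w ^ 2 = I * w := by
  unfold sq
  have h := cpow_nat_inv_pow w (n := 2) two_ne_zero
  rw [mul_pow, cc_sq]
  congr 1

theorem norm_sq_sq (w : ℂ) : ‖sq w‖ ^ 2 = ‖w‖ := by
  rw [← norm_pow, sq_sq, norm_mul, norm_I, one_mul]

theorem sq_imag_pos {x : ℝ} (hx : 0 < x) : sq (x * I) = I * (√x : ℝ) := by
  unfold sq
  have h1 : (x : ℂ) * I = (((√x : ℝ) : ℂ) * cc) ^ 2 := by
    rw [mul_pow, sqrt_sq_C hx.le, cc_sq]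
  have h2 : 0 < (((√x : ℝ) : ℂ) * cc).re := by
    rw [re_ofReal_mul]; exact mul_pos (Real.sqrt_pos.2 hx) cc_re_pos
  rw [h1, sq_cpow_two_inv h2]
  have : cc * (((√x : ℝ) : ℂ) * cc) = cc ^ 2 * ((√x : ℝ) : ℂ) := by ring
  rw [this, cc_sq]

theorem sq_imag_neg {x : ℝ} (hx : 0 < x) : sq (((-x : ℝ) : ℂ) * I) = (√x : ℝ) := by
  unfold sq
  have h1 : ((-x : ℝ) : ℂ) * I = (((√x : ℝ) : ℂ) * cb) ^ 2 := by
    rw [mul_pow, sqrt_sq_C hx.le, cb_sq]; push_cast; ring
  have h2 : 0 < (((√x : ℝ) : ℂ) * cb).re := by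
    rw [re_ofReal_mul]; exact mul_pos (Real.sqrt_pos.2 hx) cb_re_pos
  rw [h1, sq_cpow_two_inv h2]
  have : cc * (((√x : ℝ) : ℂ) * cb) = (cc * cb) * ((√x : ℝ) : ℂ) := by ring
  rw [this, cc_mul_cb, one_mul]

theorem sq_zero' : sq 0 = 0 := by
  unfold sq; rw [zero_cpow (by norm_num)]; simp

theorem sq_cont {w : ℂ} (hw : 0 ≤ w.re) : ContinuousAt sq w := by
  unfold sq
  exact continuousAt_const.mul (continuousAt_cpow_const_of_re_pos (Or.inl hw) (by norm_num))

theorem sq_diff {w : ℂ} (hw : 0 < w.re) : DifferentiableAt ℂ sq w := by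
  unfold sq
  apply DifferentiableAt.const_mul
  exact (differentiableAt_id).cpow_const (Or.inl hw)

theorem pl_zero {Φ : ℂ → ℂ} (hd : Differentiable ℂ Φ) {A : ℝ} (hA : 0 ≤ A)
    (hgr : ∀ y, ‖Φ y‖ ≤ A * Real.exp (A * ‖y‖ ^ 2)) {B α : ℝ} (hα : 0 < α) (hB : 0 ≤ B)
    (h1 : ∀ x : ℝ, 0 ≤ x → ‖Φ x‖ ≤ B * Real.exp (-(α * x ^ 2)))
    (h2 : ∀ x : ℝ, 0 ≤ x → ‖Φ (I * x)‖ ≤ B * Real.exp (-(α * x ^ 2))) :
    ∀ t : ℝ, 0 < t → Φ (cc * t) = 0 := by
  set β : ℝ := α / 2 with hβ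
  have hβ0 : 0 < β := by positivity
  set h : ℂ → ℂ := fun w => Φ (sq w) * exp (-(β : ℂ) * ((w + 1) * log (w + 1))) with hh
  have hsl : ∀ w : ℂ, 0 ≤ w.re → w + 1 ∈ slitPlane := by
    intro w hw
    left
    simp only [add_re, one_re]
    linarith
  have hdc : DiffContOnCl ℂ h {z : ℂ | 0 < z.re} := by
    constructor
    · intro w hw
      have hw' : 0 < w.re := hw
      apply DifferentiableAt.differentiableWithinAt
      rw [hh]
      apply DifferentiableAt.mul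
      · exact (hd (sq w)).comp w (sq_diff hw')
      · apply DifferentiableAt.cexp
        apply DifferentiableAt.const_mul
        apply DifferentiableAt.mul (by fun_prop)
        exact DifferentiableAt.clog (by fun_prop) (hsl w hw'.le)
    · rw [closure_setOfPred_lt_re]
      intro w hw
      have hw' : 0 ≤ w.re := hw
      apply ContinuousAt.continuousWithinAt
      rw [hh]
      apply ContinuousAt.mul
      · exact (hd.continuous.continuousAt).comp (sq_cont hw')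
      · apply ContinuousAt.cexp
        apply ContinuousAt.mul continuousAt_const
        apply ContinuousAt.mul (by fun_prop)
        exact ContinuousAt.clog (by fun_prop) (hsl w hw')
  have hexpn : ∀ w : ℂ, ‖exp (-(β : ℂ) * ((w + 1) * log (w + 1)))‖
      = Real.exp (-β * ((w + 1) * log (w + 1)).re) := by
    intro w
    rw [norm_exp, ← ofReal_neg, re_ofReal_mul]
  have hg1 : ∀ w : ℂ, ‖Φ (sq w)‖ ≤ A * Real.exp (A * ‖w‖) := by
    intro w
    have := hgr (sq w)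
    rwa [norm_sq_sq] at this
  have hexp : ∃ c < (2 : ℝ), ∃ B,
      h =O[cobounded ℂ ⊓ 𝓟 {z : ℂ | 0 < z.re}] fun z => Real.exp (B * ‖z‖ ^ c) := by
    refine ⟨3 / 2, by norm_num, A + β * (6 * 2 ^ (3 / 2 : ℝ)), ?_⟩
    apply IsBigO.of_bound A
    rw [eventually_inf_principal]
    filter_upwards [(tendsto_norm_cobounded_atTop (E := ℂ)).eventually_ge_atTop 1] with w hw hwre
    have hwre' : 0 < w.re := hwre
    rw [hh]
    simp only
    rw [norm_mul, hexpn, Real.norm_of_nonneg (Real.exp_pos _).le]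
    have hn1 : 1 ≤ ‖w + 1‖ := by
      have := Complex.re_le_norm (w + 1)
      simp only [add_re, one_re] at this
      linarith
    have hn2 : ‖w + 1‖ ≤ 2 * ‖w‖ := by
      have := norm_add_le w 1
      rw [norm_one] at this
      linarith
    have hlog : ‖log (w + 1)‖ ≤ 6 * ‖w + 1‖ ^ (1 / 2 : ℝ) := by
      have e1 : ‖log (w + 1)‖ ≤ |(log (w + 1)).re| + |(log (w + 1)).im| :=
        Complex.norm_le_abs_re_add_abs_im _
      rw [log_re, log_im, abs_of_nonneg (Real.log_nonneg hn1)] at e1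
      have e2 := Real.log_le_rpow_div (norm_nonneg (w + 1)) (show (0:ℝ) < 1 / 2 by norm_num)
      have e3 : |arg (w + 1)| ≤ 4 := (abs_arg_le_pi _).trans Real.pi_le_four
      have e4 : 1 ≤ ‖w + 1‖ ^ (1 / 2 : ℝ) := Real.one_le_rpow hn1 (by norm_num)
      linarith
    have hmul : -β * ((w + 1) * log (w + 1)).re ≤ β * (6 * 2 ^ (3 / 2 : ℝ)) * ‖w‖ ^ (3 / 2 : ℝ) := by
      have e1 : -((w + 1) * log (w + 1)).re ≤ ‖(w + 1) * log (w + 1)‖ :=
        (neg_le_abs _).trans (Complex.abs_re_le_norm _)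
      have e2 : ‖(w + 1) * log (w + 1)‖ ≤ 6 * ‖w + 1‖ ^ (3 / 2 : ℝ) := by
        rw [norm_mul]
        calc ‖w + 1‖ * ‖log (w + 1)‖ ≤ ‖w + 1‖ * (6 * ‖w + 1‖ ^ (1 / 2 : ℝ)) :=
              mul_le_mul_of_nonneg_left hlog (norm_nonneg _)
          _ = 6 * (‖w + 1‖ ^ (1 : ℝ) * ‖w + 1‖ ^ (1 / 2 : ℝ)) := by rw [Real.rpow_one]; ring
          _ = _ := by
            rw [← Real.rpow_add (by linarith)]
            norm_num
      have e3 : ‖w + 1‖ ^ (3 / 2 : ℝ) ≤ 2 ^ (3 / 2 : ℝ) * ‖w‖ ^ (3 / 2 : ℝ) := by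
        rw [← Real.mul_rpow (by norm_num) (norm_nonneg _)]
        exact Real.rpow_le_rpow (norm_nonneg _) hn2 (by norm_num)
      have e4 : -((w + 1) * log (w + 1)).re ≤ 6 * (2 ^ (3 / 2 : ℝ) * ‖w‖ ^ (3 / 2 : ℝ)) := by
        linarith
      calc -β * ((w + 1) * log (w + 1)).re = β * (-((w + 1) * log (w + 1)).re) := by ring
        _ ≤ β * (6 * (2 ^ (3 / 2 : ℝ) * ‖w‖ ^ (3 / 2 : ℝ))) :=
          mul_le_mul_of_nonneg_left e4 hβ0.le
        _ = _ := by ring
    have hwp : ‖w‖ ≤ ‖w‖ ^ (3 / 2 : ℝ) := by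
      conv_lhs => rw [← Real.rpow_one ‖w‖]
      exact Real.rpow_le_rpow_of_exponent_le hw (by norm_num)
    calc ‖Φ (sq w)‖ * Real.exp (-β * ((w + 1) * log (w + 1)).re)
        ≤ (A * Real.exp (A * ‖w‖)) * Real.exp (β * (6 * 2 ^ (3 / 2 : ℝ)) * ‖w‖ ^ (3 / 2 : ℝ)) := by
          apply mul_le_mul (hg1 w) (Real.exp_le_exp.2 hmul) (Real.exp_pos _).le (by positivity)
      _ = A * Real.exp (A * ‖w‖ + β * (6 * 2 ^ (3 / 2 : ℝ)) * ‖w‖ ^ (3 / 2 : ℝ)) := by
          rw [Real.exp_add]; ring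
      _ ≤ A * Real.exp ((A + β * (6 * 2 ^ (3 / 2 : ℝ))) * ‖w‖ ^ (3 / 2 : ℝ)) := by
          apply mul_le_mul_of_nonneg_left _ hA
          apply Real.exp_le_exp.2
          rw [add_mul]
          have := mul_le_mul_of_nonneg_left hwp hA
          linarith
  have hre : SuperpolynomialDecay atTop Real.exp fun x : ℝ => ‖h x‖ := by
    intro n
    have hb : ∀ᶠ x : ℝ in atTop, Real.exp x ^ n * ‖h x‖ ≤ A * Real.exp (-x) := by
      filter_upwards [eventually_ge_atTop 0, eventually_ge_atTop (Real.exp ((n + A + 1) / β))]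
        with x hx0 hx1
      rw [hh]
      simp only
      rw [norm_mul, hexpn]
      have e1 : (((x : ℂ) + 1) * log ((x : ℂ) + 1)).re = (x + 1) * Real.log (x + 1) := by
        have : (x : ℂ) + 1 = ((x + 1 : ℝ) : ℂ) := by push_cast; ring
        rw [this, ← ofReal_log (by linarith), ← ofReal_mul, ofReal_re]
      rw [e1]
      have e2 := hg1 (x : ℂ)
      rw [norm_real, Real.norm_of_nonneg hx0] at e2
      have e3 : (n + A + 1) / β ≤ Real.log (x + 1) := by
        rw [Real.le_log_iff_exp_le (by linarith)]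
        linarith
      have e4 : n + A + 1 ≤ β * Real.log (x + 1) := by
        rwa [div_le_iff₀' hβ0] at e3
      rw [← Real.exp_nat_mul]
      calc Real.exp (n * x) * (‖Φ (sq x)‖ * Real.exp (-β * ((x + 1) * Real.log (x + 1))))
          ≤ Real.exp (n * x) * ((A * Real.exp (A * x))
            * Real.exp (-β * ((x + 1) * Real.log (x + 1)))) := by gcongr
        _ = A * Real.exp (n * x + A * x + -β * ((x + 1) * Real.log (x + 1))) := by
          rw [Real.exp_add, Real.exp_add]; ring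
        _ ≤ A * Real.exp (-x) := by
          apply mul_le_mul_of_nonneg_left _ hA
          apply Real.exp_le_exp.2
          have hn : (0:ℝ) ≤ n := Nat.cast_nonneg n
          nlinarith [mul_le_mul_of_nonneg_left e4 (show 0 ≤ x + 1 by linarith)]
    have hlim : Tendsto (fun x : ℝ => A * Real.exp (-x)) atTop (𝓝 0) := by
      have := Real.tendsto_exp_neg_atTop_nhds_zero.const_mul A
      rwa [mul_zero] at this
    exact squeeze_zero' (Eventually.of_forall fun x => by positivity) hb hlim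
  have him : ∃ C, ∀ x : ℝ, ‖h (x * I)‖ ≤ C := by
    refine ⟨B, fun x => ?_⟩
    have e1 : ‖Φ (sq (x * I))‖ ≤ B * Real.exp (-(α * |x|)) := by
      rcases lt_trichotomy x 0 with hx | hx | hx
      · have h3 := sq_imag_neg (neg_pos.2 hx)
        rw [neg_neg] at h3
        rw [h3, abs_of_neg hx]
        have h4 := h1 (√(-x)) (Real.sqrt_nonneg _)
        rwa [Real.sq_sqrt (by linarith)] at h4
      · rw [hx, ofReal_zero, zero_mul, sq_zero']
        have h4 := h1 0 le_rfl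
        simpa using h4
      · rw [sq_imag_pos hx, abs_of_pos hx]
        have h4 := h2 (√x) (Real.sqrt_nonneg _)
        rwa [Real.sq_sqrt hx.le] at h4
    rw [hh]
    simp only
    rw [norm_mul, hexpn]
    have hre1 : ((x : ℂ) * I + 1).re = 1 := by simp
    have him1 : ((x : ℂ) * I + 1).im = x := by simp
    have hn1 : 1 ≤ ‖(x : ℂ) * I + 1‖ := by
      have := Complex.re_le_norm ((x : ℂ) * I + 1)
      rwa [hre1] at this
    have e2 : -β * ((((x : ℂ) * I + 1)) * log ((x : ℂ) * I + 1)).re ≤ β * (|x| * (Real.pi / 2)) := by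
      rw [mul_re, hre1, him1, log_re, log_im]
      have e3 : |arg ((x : ℂ) * I + 1)| ≤ Real.pi / 2 := by
        rw [abs_arg_le_pi_div_two_iff, hre1]; norm_num
      have e4 : x * arg ((x : ℂ) * I + 1) ≤ |x| * (Real.pi / 2) := by
        calc x * arg ((x : ℂ) * I + 1) ≤ |x * arg ((x : ℂ) * I + 1)| := le_abs_self _
          _ = |x| * |arg ((x : ℂ) * I + 1)| := abs_mul _ _
          _ ≤ _ := mul_le_mul_of_nonneg_left e3 (abs_nonneg _)
      have e5 : 0 ≤ Real.log ‖(x : ℂ) * I + 1‖ := Real.log_nonneg hn1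
      nlinarith [mul_le_mul_of_nonneg_left e4 hβ0.le, mul_nonneg hβ0.le e5]
    calc ‖Φ (sq (x * I))‖ * Real.exp (-β * ((((x : ℂ) * I + 1)) * log ((x : ℂ) * I + 1)).re)
        ≤ (B * Real.exp (-(α * |x|))) * Real.exp (β * (|x| * (Real.pi / 2))) := by
          apply mul_le_mul e1 (Real.exp_le_exp.2 e2) (Real.exp_pos _).le (by positivity)
      _ = B * Real.exp (-(α * |x|) + β * (|x| * (Real.pi / 2))) := by
          rw [Real.exp_add]; ring
      _ ≤ B * 1 := by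
          apply mul_le_mul_of_nonneg_left _ hB
          apply Real.exp_le_one_iff.2
          have := Real.pi_le_four
          have h5 : β * (|x| * (Real.pi / 2)) ≤ β * (|x| * 2) := by
            apply mul_le_mul_of_nonneg_left _ hβ0.le
            apply mul_le_mul_of_nonneg_left _ (abs_nonneg _)
            linarith
          have h6 : β * (|x| * 2) = α * |x| := by rw [hβ]; ring
          linarith
      _ = B := mul_one B
  have hzero := PhragmenLindelof.eq_zero_on_right_half_plane_of_superexponential_decay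
    hdc hexp hre him
  intro t ht
  have h3 := hzero (show ((t : ℂ) ^ 2) ∈ {z : ℂ | 0 ≤ z.re} by
    simp only [mem_ofPred_eq]
    rw [← ofReal_pow, ofReal_re]; positivity)
  rw [hh] at h3
  simp only [Pi.zero_apply, mul_eq_zero, exp_ne_zero, or_false] at h3
  have h4 : sq ((t : ℂ) ^ 2) = cc * t := by
    unfold sq
    rw [sq_cpow_two_inv (by simpa using ht)]
  rwa [h4] at h3

end Pool.Agent.R402.Eq
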