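import Mathlib
set_option autoImplicit false
open Filter Topology Set

/-! The entire solution of `Φ'' = (y² - s y) Φ` with prescribed data at the origin. -/

namespace Pool.Agent.R402.Eq

theorem ps_summ {a : ℕ → ℂ} (ha : ∀ ρ : ℝ, 0 ≤ ρ → Summable (fun n => ‖a n‖ * ρ ^ n)) (y : ℂ) :
    Summable (fun n => a n * y ^ n) := by
  apply Summable.of_norm
  refine (ha ‖y‖ (norm_nonneg _)).congr fun n => ?_
  rw [norm_mul, norm_pow]

theorem nat_bound (n : ℕ) {ρ : ℝ} (hρ : 0 ≤ ρ) :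
    ((n : ℝ) + 1) * ρ ^ n ≤ (2 * max ρ 1) ^ (n + 1) := by
  have h1 : ((n : ℝ) + 1) ≤ 2 ^ (n + 1) := by
    have : n + 1 < 2 ^ (n + 1) := Nat.lt_two_pow_self
    exact_mod_cast this.le
  have h2 : ρ ^ n ≤ (max ρ 1) ^ (n + 1) := by
    calc ρ ^ n ≤ (max ρ 1) ^ n := pow_le_pow_left₀ hρ (le_max_left _ _) n
      _ ≤ (max ρ 1) ^ (n + 1) := pow_le_pow_right₀ (le_max_right _ _) (Nat.le_succ n)
  rw [mul_pow]
  exact mul_le_mul h1 h2 (by positivity) (by positivity)

theorem ps_summ' {a : ℕ → ℂ} (ha : ∀ ρ : ℝ, 0 ≤ ρ → Summable (fun n => ‖a n‖ * ρ ^ n)) :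
    ∀ ρ : ℝ, 0 ≤ ρ → Summable (fun n : ℕ => ‖((n : ℂ) + 1) * a (n + 1)‖ * ρ ^ n) := by
  intro ρ hρ
  have h1 := (summable_nat_add_iff 1).2 (ha (2 * max ρ 1) (by positivity))
  refine Summable.of_nonneg_of_le (fun n => by positivity) (fun n => ?_) h1
  rw [norm_mul]
  have h2 : ‖((n : ℂ) + 1)‖ = (n : ℝ) + 1 := by
    have : ((n : ℂ) + 1) = (((n : ℝ) + 1 : ℝ) : ℂ) := by push_cast; ring
    rw [this, Complex.norm_real, Real.norm_of_nonneg (by positivity)]
  rw [h2]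
  calc ((n : ℝ) + 1) * ‖a (n + 1)‖ * ρ ^ n = ‖a (n + 1)‖ * (((n : ℝ) + 1) * ρ ^ n) := by ring
    _ ≤ _ := mul_le_mul_of_nonneg_left (nat_bound n hρ) (norm_nonneg _)

theorem ps_deriv {a : ℕ → ℂ} (ha : ∀ ρ : ℝ, 0 ≤ ρ → Summable (fun n => ‖a n‖ * ρ ^ n)) (y : ℂ) :
    HasDerivAt (fun y => ∑' n, a n * y ^ n) (∑' n : ℕ, (((n : ℂ) + 1) * a (n + 1)) * y ^ n) y := by
  have hρ : 0 ≤ ‖y‖ + 1 := by positivity
  set g' : ℕ → ℂ → ℂ := fun n y => a n * (n * y ^ (n - 1)) with hg'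
  have hsum' := ps_summ' ha (‖y‖ + 1) hρ
  have hb : ∀ n : ℕ, ‖((n : ℂ) + 1) * a (n + 1)‖ * (‖y‖ + 1) ^ n
      = ‖a (n + 1)‖ * ((n + 1 : ℕ) * (‖y‖ + 1) ^ n) := by
    intro n
    rw [norm_mul]
    have h2 : ‖((n : ℂ) + 1)‖ = ((n + 1 : ℕ) : ℝ) := by
      have : ((n : ℂ) + 1) = (((n + 1 : ℕ) : ℝ) : ℂ) := by push_cast; ring
      rw [this, Complex.norm_real, Real.norm_of_nonneg (by positivity)]
    rw [h2]
    ring
  simp_rw [hb] at hsum'
  have hu : Summable (fun n : ℕ => ‖a n‖ * (n * (‖y‖ + 1) ^ (n - 1))) := by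
    rw [← summable_nat_add_iff 1]
    exact hsum'
  have h1 := hasDerivAt_tsum_of_isPreconnected (g := fun n y => a n * y ^ n) (g' := g')
    (t := Metric.ball (0:ℂ) (‖y‖ + 1)) (y₀ := y) (y := y) hu Metric.isOpen_ball
    (convex_ball _ _).isPreconnected (fun n z _ => (hasDerivAt_pow n z).const_mul (a n))
    (fun n z hz => by
      rw [hg']
      simp only
      rw [norm_mul, norm_mul, norm_pow, Complex.norm_natCast]
      have hz' : ‖z‖ ≤ ‖y‖ + 1 := by
        rw [Metric.mem_ball, dist_zero_right] at hz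
        exact hz.le
      gcongr) (by simp) (ps_summ ha y) (by simp)
  have h2 : ∑' n, g' n y = ∑' n : ℕ, (((n : ℂ) + 1) * a (n + 1)) * y ^ n := by
    have hs : Summable (fun n => g' n y) := by
      apply Summable.of_norm
      refine Summable.of_nonneg_of_le (fun n => norm_nonneg _) (fun n => ?_) hu
      rw [hg']
      simp only
      rw [norm_mul, norm_mul, norm_pow, Complex.norm_natCast]
      gcongr
      linarith
    rw [hs.tsum_eq_zero_add]
    rw [hg']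
    simp only [Nat.cast_zero, zero_mul, mul_zero, zero_add, Nat.add_sub_cancel]
    apply tsum_congr
    intro n
    push_cast
    ring
  rw [← h2]
  exact h1

/-- Taylor coefficients -/
noncomputable def co (s c0 c1 : ℂ) : ℕ → ℂ
  | 0 => c0
  | 1 => c1
  | 2 => 0
  | 3 => -(s * c0) / 6
  | (n + 4) => (co s c0 c1 n - s * co s c0 c1 (n + 1)) / (((n : ℂ) + 4) * ((n : ℂ) + 3))

theorem co_bound (s c0 c1 : ℂ) (n : ℕ) :
    ‖co s c0 c1 n‖ ≤ (‖c0‖ + ‖c1‖) * (1 + ‖s‖) ^ n / √(n.factorial) := by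
  set R := 1 + ‖s‖ with hR
  have hs0 : 0 ≤ ‖s‖ := norm_nonneg s
  have hR1 : 1 ≤ R := by rw [hR]; linarith
  have hc0 : 0 ≤ ‖c0‖ := norm_nonneg _
  have hc1 : 0 ≤ ‖c1‖ := norm_nonneg _
  induction n using Nat.strong_induction_on with
  | _ n ih =>
    match n, ih with
    | 0, _ => simp [co]
    | 1, _ => 
      simp only [co, pow_one, Nat.factorial_one, Nat.cast_one, Real.sqrt_one, div_one]
      nlinarith
    | 2, _ => 
      simp only [co, norm_zero]
      positivity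
    | 3, _ => 
      simp only [co]
      rw [norm_div, norm_neg, norm_mul]
      have h6 : ‖(6:ℂ)‖ = 6 := by norm_num
      rw [h6]
      have hsq : √((3:ℕ).factorial) ≤ 6 := by
        rw [show ((3:ℕ).factorial : ℝ) = 6 by norm_num [Nat.factorial]]
        rw [Real.sqrt_le_left (by norm_num)]
        norm_num
      have hsq0 : 0 < √((3:ℕ).factorial) := Real.sqrt_pos.2 (by positivity)
      apply div_le_div₀ (by positivity) _ hsq0 hsq
      have h1 : ‖s‖ ≤ R ^ 3 := by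
        have : R ^ 1 ≤ R ^ 3 := pow_le_pow_right₀ hR1 (by norm_num)
        rw [pow_one] at this
        linarith
      calc ‖s‖ * ‖c0‖ ≤ R ^ 3 * (‖c0‖ + ‖c1‖) := by gcongr; linarith
        _ = _ := by ring
    | (n + 4), ih =>
      have ih1 := ih n (by omega)
      have ih2 := ih (n + 1) (by omega)
      simp only [co]
      rw [norm_div, norm_mul]
      have e1 : ‖((n : ℂ) + 4)‖ = (n : ℝ) + 4 := by
        have : ((n : ℂ) + 4) = (((n : ℝ) + 4 : ℝ) : ℂ) := by push_cast; ring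
        rw [this, Complex.norm_real, Real.norm_of_nonneg (by positivity)]
      have e2 : ‖((n : ℂ) + 3)‖ = (n : ℝ) + 3 := by
        have : ((n : ℂ) + 3) = (((n : ℝ) + 3 : ℝ) : ℂ) := by push_cast; ring
        rw [this, Complex.norm_real, Real.norm_of_nonneg (by positivity)]
      rw [e1, e2]
      set K := ‖c0‖ + ‖c1‖ with hK
      have hK0 : 0 ≤ K := by positivity
      have hf0 : 0 < √(n.factorial) := Real.sqrt_pos.2 (by positivity)
      have hf4 : √((n + 4).factorial) ≤ ((n : ℝ) + 4) * ((n : ℝ) + 3) * √(n.factorial) := by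
        rw [← Real.sqrt_sq (show 0 ≤ ((n : ℝ) + 4) * ((n : ℝ) + 3) by positivity),
          ← Real.sqrt_mul (by positivity)]
        apply Real.sqrt_le_sqrt
        have : ((n + 4).factorial : ℝ) = ((n : ℝ) + 4) * ((n : ℝ) + 3) * ((n : ℝ) + 2)
            * ((n : ℝ) + 1) * n.factorial := by
          rw [show n + 4 = (n + 3) + 1 by ring, Nat.factorial_succ, show n + 3 = (n + 2) + 1 by ring,
            Nat.factorial_succ, show n + 2 = (n + 1) + 1 by ring, Nat.factorial_succ,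
            Nat.factorial_succ]
          push_cast
          ring
        rw [this]
        have hn : (0:ℝ) ≤ n := Nat.cast_nonneg n
        have hfa : (0:ℝ) ≤ n.factorial := by positivity
        have : ((n : ℝ) + 4) * ((n : ℝ) + 3) * ((n : ℝ) + 2) * ((n : ℝ) + 1)
            ≤ (((n : ℝ) + 4) * ((n : ℝ) + 3)) ^ 2 := by
          have h3 : ((n : ℝ) + 2) * ((n : ℝ) + 1) ≤ ((n : ℝ) + 4) * ((n : ℝ) + 3) := by nlinarith
          calc ((n : ℝ) + 4) * ((n : ℝ) + 3) * ((n : ℝ) + 2) * ((n : ℝ) + 1)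
              = (((n : ℝ) + 4) * ((n : ℝ) + 3)) * (((n : ℝ) + 2) * ((n : ℝ) + 1)) := by ring
            _ ≤ (((n : ℝ) + 4) * ((n : ℝ) + 3)) * (((n : ℝ) + 4) * ((n : ℝ) + 3)) := by gcongr
            _ = _ := by ring
        exact mul_le_mul_of_nonneg_right this hfa
      have hf1 : √(n.factorial) ≤ √((n + 1).factorial) := by
        apply Real.sqrt_le_sqrt
        exact_mod_cast Nat.factorial_le (Nat.le_succ n)
      have hnum : ‖co s c0 c1 n - s * co s c0 c1 (n + 1)‖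
          ≤ K * R ^ (n + 4) / √(n.factorial) := by
        calc ‖co s c0 c1 n - s * co s c0 c1 (n + 1)‖
            ≤ ‖co s c0 c1 n‖ + ‖s‖ * ‖co s c0 c1 (n + 1)‖ := by
              rw [← norm_mul]; exact norm_sub_le _ _
          _ ≤ K * R ^ n / √(n.factorial) + ‖s‖ * (K * R ^ (n + 1) / √(n.factorial)) := by
              apply add_le_add ih1
              apply mul_le_mul_of_nonneg_left _ hs0
              refine ih2.trans ?_
              exact div_le_div_of_nonneg_left (by positivity) hf0 hf1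
          _ = K * R ^ n * (1 + ‖s‖ * R) / √(n.factorial) := by ring
          _ ≤ K * R ^ n * R ^ 4 / √(n.factorial) := by
              gcongr
              have h3 : R ^ 2 ≤ R ^ 4 := pow_le_pow_right₀ hR1 (by norm_num)
              have h4 : 1 + ‖s‖ * R ≤ R ^ 2 := by
                rw [hR]; nlinarith
              linarith
          _ = _ := by ring
      calc ‖co s c0 c1 n - s * co s c0 c1 (n + 1)‖ / (((n : ℝ) + 4) * ((n : ℝ) + 3))
          ≤ (K * R ^ (n + 4) / √(n.factorial)) / (((n : ℝ) + 4) * ((n : ℝ) + 3)) := by gcongr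
        _ = K * R ^ (n + 4) / (((n : ℝ) + 4) * ((n : ℝ) + 3) * √(n.factorial)) := by
          rw [div_div]; congr 1; ring
        _ ≤ K * R ^ (n + 4) / √((n + 4).factorial) := by
          apply div_le_div_of_nonneg_left (by positivity) (Real.sqrt_pos.2 (by positivity)) hf4

theorem term_bound (x : ℝ) (n : ℕ) (hx : 0 ≤ x) :
    x ^ n / √(n.factorial) ≤ (1 / 2) * ((2 * x ^ 2) ^ n / n.factorial + (1 / 2) ^ n) := by
  have hf : (0:ℝ) < n.factorial := by positivity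
  have h1 : x ^ n / √(n.factorial) = √((2 * x ^ 2) ^ n / n.factorial) * √((1 / 2) ^ n) := by
    rw [← Real.sqrt_mul (by positivity)]
    have : (2 * x ^ 2) ^ n / n.factorial * (1 / 2) ^ n = (x ^ n) ^ 2 / n.factorial := by
      rw [mul_pow, ← pow_mul, ← pow_mul, mul_comm 2 n, one_div, inv_pow]
      field_simp
    rw [this, Real.sqrt_div (by positivity), Real.sqrt_sq (by positivity)]
  rw [h1]
  have h2 := two_mul_le_add_sq (√((2 * x ^ 2) ^ n / n.factorial)) (√((1 / 2) ^ n))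
  rw [Real.sq_sqrt (by positivity), Real.sq_sqrt (by positivity)] at h2
  linarith

theorem co_summ (s c0 c1 : ℂ) (ρ : ℝ) (hρ : 0 ≤ ρ) :
    Summable (fun n => ‖co s c0 c1 n‖ * ρ ^ n) ∧
    ∑' n, ‖co s c0 c1 n‖ * ρ ^ n ≤ (‖c0‖ + ‖c1‖) * (1 / 2 *
      (Real.exp (2 * ((1 + ‖s‖) * ρ) ^ 2) + 2)) := by
  set K := ‖c0‖ + ‖c1‖ with hK
  have hK0 : 0 ≤ K := by positivity
  set x := (1 + ‖s‖) * ρ with hx
  have hx0 : 0 ≤ x := by positivity
  have h1 : ∀ n, ‖co s c0 c1 n‖ * ρ ^ n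
      ≤ K * (1 / 2 * ((2 * x ^ 2) ^ n / n.factorial + (1 / 2) ^ n)) := by
    intro n
    calc ‖co s c0 c1 n‖ * ρ ^ n ≤ (K * (1 + ‖s‖) ^ n / √(n.factorial)) * ρ ^ n := by
          gcongr
          exact co_bound s c0 c1 n
      _ = K * (x ^ n / √(n.factorial)) := by
          rw [hx, mul_pow]; ring
      _ ≤ _ := mul_le_mul_of_nonneg_left (term_bound x n hx0) hK0
  have h2 : HasSum (fun n : ℕ => K * (1 / 2 * ((2 * x ^ 2) ^ n / n.factorial + (1 / 2) ^ n)))
      (K * (1 / 2 * (Real.exp (2 * x ^ 2) + 2))) := by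
    apply HasSum.mul_left
    apply HasSum.mul_left
    apply HasSum.add
    · rw [Real.exp_eq_exp_ℝ]
      exact NormedSpace.expSeries_div_hasSum_exp (2 * x ^ 2)
    · exact hasSum_geometric_two
  have h3 : Summable (fun n => ‖co s c0 c1 n‖ * ρ ^ n) :=
    Summable.of_nonneg_of_le (fun n => by positivity) h1 h2.summable
  refine ⟨h3, ?_⟩
  rw [← h2.tsum_eq]
  exact h3.tsum_le_tsum h1 h2.summable

theorem exists_entire (s c0 c1 : ℂ) : ∃ Φ Φ' : ℂ → ℂ, (∀ y, HasDerivAt Φ (Φ' y) y) ∧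
    (∀ y, HasDerivAt Φ' ((y ^ 2 - s * y) * Φ y) y) ∧ Φ 0 = c0 ∧ Φ' 0 = c1 ∧
    ∃ A : ℝ, 0 ≤ A ∧ ∀ y, ‖Φ y‖ ≤ A * Real.exp (A * ‖y‖ ^ 2) := by
  have ha : ∀ ρ : ℝ, 0 ≤ ρ → Summable (fun n => ‖co s c0 c1 n‖ * ρ ^ n) :=
    fun ρ hρ => (co_summ s c0 c1 ρ hρ).1
  have ha' := ps_summ' ha
  refine ⟨fun y => ∑' n, co s c0 c1 n * y ^ n,
    fun y => ∑' n : ℕ, (((n : ℂ) + 1) * co s c0 c1 (n + 1)) * y ^ n, fun y => ps_deriv ha y,
    fun y => ?_, ?_, ?_, ?_⟩
  · refine (ps_deriv ha' y).congr_deriv ?_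
    have hs2 := ps_summ (ps_summ' ha') y
    have hs0 := ps_summ ha y
    beta_reduce
    rw [hs2.tsum_eq_zero_add, ((summable_nat_add_iff 1).2 hs2).tsum_eq_zero_add]
    have hT := hs0.tsum_eq_zero_add
    have hs1 := (summable_nat_add_iff 1).2 hs0
    have e1 : ∑' n : ℕ, ((((n + 1 + 1 : ℕ) : ℂ) + 1) * ((((n + 1 + 1 + 1 : ℕ) : ℂ) + 1)
        * co s c0 c1 (n + 1 + 1 + 1 + 1))) * y ^ (n + 1 + 1)
        = ∑' n : ℕ, (y ^ 2 * (co s c0 c1 n * y ^ n) - s * y * (co s c0 c1 (n + 1) * y ^ (n + 1))) := by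
      apply tsum_congr
      intro n
      have h1 : co s c0 c1 (n + 1 + 1 + 1 + 1)
        = (co s c0 c1 n - s * co s c0 c1 (n + 1)) / (((n : ℂ) + 4) * ((n : ℂ) + 3)) := rfl
      rw [h1]
      have h4 : (n : ℂ) + 4 ≠ 0 := by
        have : ((n : ℂ) + 4) = ((n + 4 : ℕ) : ℂ) := by push_cast; ring
        rw [this]; exact Nat.cast_ne_zero.2 (by omega)
      have h3 : (n : ℂ) + 3 ≠ 0 := by
        have : ((n : ℂ) + 3) = ((n + 3 : ℕ) : ℂ) := by push_cast; ring
        rw [this]; exact Nat.cast_ne_zero.2 (by omega)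
      push_cast
      field_simp
      ring
    rw [e1, (hs0.mul_left _).tsum_sub (hs1.mul_left _), tsum_mul_left, tsum_mul_left]
    have c2 : co s c0 c1 (0 + 1 + 1) = 0 := rfl
    have c3 : co s c0 c1 (0 + 1 + 1 + 1) = -(s * c0) / 6 := rfl
    have c00 : co s c0 c1 0 = c0 := rfl
    rw [c2, c3]
    rw [c00] at hT
    push_cast
    linear_combination (s * y) * hT
  · beta_reduce
    rw [tsum_eq_single 0 (by intro n hn; rw [zero_pow hn, mul_zero])]
    simp [co]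
  · beta_reduce
    rw [tsum_eq_single 0 (by intro n hn; rw [zero_pow hn, mul_zero])]
    simp [co]
  · set R := 1 + ‖s‖ with hR
    set K := ‖c0‖ + ‖c1‖ with hK
    have hK0 : 0 ≤ K := by positivity
    have hR0 : 0 ≤ R := by positivity
    refine ⟨max (K * (3 / 2)) (2 * R ^ 2), by positivity, fun y => ?_⟩
    obtain ⟨h1, h2⟩ := co_summ s c0 c1 ‖y‖ (norm_nonneg _)
    have h3 : ‖∑' n, co s c0 c1 n * y ^ n‖ ≤ ∑' n, ‖co s c0 c1 n‖ * ‖y‖ ^ n := by
      have hs : Summable (fun n => ‖co s c0 c1 n * y ^ n‖) :=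
        h1.congr fun n => by rw [norm_mul, norm_pow]
      refine (norm_tsum_le_tsum_norm hs).trans (le_of_eq ?_)
      apply tsum_congr
      intro n
      rw [norm_mul, norm_pow]
    have h4 : 1 ≤ Real.exp (2 * (R * ‖y‖) ^ 2) := Real.one_le_exp (by positivity)
    calc ‖∑' n, co s c0 c1 n * y ^ n‖ ≤ _ := h3
      _ ≤ K * (1 / 2 * (Real.exp (2 * (R * ‖y‖) ^ 2) + 2)) := h2
      _ ≤ K * (3 / 2) * Real.exp (2 * (R * ‖y‖) ^ 2) := by
        rw [mul_assoc]
        apply mul_le_mul_of_nonneg_left _ hK0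
        linarith
      _ ≤ max (K * (3 / 2)) (2 * R ^ 2) * Real.exp (max (K * (3 / 2)) (2 * R ^ 2) * ‖y‖ ^ 2) := by
        apply mul_le_mul (le_max_left _ _) _ (Real.exp_pos _).le (by positivity)
        apply Real.exp_le_exp.2
        calc 2 * (R * ‖y‖) ^ 2 = 2 * R ^ 2 * ‖y‖ ^ 2 := by ring
          _ ≤ _ := mul_le_mul_of_nonneg_right (le_max_right _ _) (by positivity)

end Pool.Agent.R402.Eq
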