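import Pool.Agent.R402.EqE
import Pool.Agent.R402.EqF
import Pool.Agent.R402.EqG
set_option autoImplicit false
open Filter Topology Set Complex

/-! Decaying solutions on two adjacent rays never match. -/

namespace Pool.Agent.R402.Eq

theorem no_match {s : ℂ} {φ1 φ1' φ2 φ2' : ℝ → ℂ} {C1 C2 : ℝ}
    (a1 : ∀ y : ℝ, 0 ≤ y → HasDerivAt φ1 (φ1' y) y)
    (a2 : ∀ y : ℝ, 0 ≤ y → HasDerivAt φ1' (((y:ℂ) ^ 2 - s * y) * φ1 y) y)
    (a3 : φ1' 0 = -1) (a4 : ∀ y : ℝ, 0 ≤ y → (y + 1) * ‖φ1 y‖ ^ 2 ≤ C1)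
    (b1 : ∀ y : ℝ, 0 ≤ y → HasDerivAt φ2 (φ2' y) y)
    (b2 : ∀ y : ℝ, 0 ≤ y → HasDerivAt φ2' (((y:ℂ) ^ 2 - (-I * s) * y) * φ2 y) y)
    (b3 : φ2' 0 = -1) (b4 : ∀ y : ℝ, 0 ≤ y → (y + 1) * ‖φ2 y‖ ^ 2 ≤ C2) :
    φ1 0 ≠ I * φ2 0 := by
  intro h
  obtain ⟨Φ, Φ', d1, d2, h0, h0', A, hA, hgr⟩ := exists_entire s (φ1 0) (-1)
  have hu : ∀ y : ℝ, 0 ≤ y → φ1 y - Φ (y : ℂ) = 0 := by
    refine ode_unique (φ := fun y : ℝ => φ1 y - Φ (y : ℂ)) (φ' := fun y : ℝ => φ1' y - Φ' (y : ℂ))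
      (q := fun y : ℝ => (y:ℂ) ^ 2 - s * y) (by fun_prop) ?_ ?_ ?_ ?_
    · intro y hy
      exact (a1 y hy).sub (d1 (y : ℂ)).comp_ofReal
    · intro y hy
      refine ((a2 y hy).sub (d2 (y : ℂ)).comp_ofReal).congr_deriv ?_
      ring
    · simp [h0]
    · simp [h0', a3]
  have ht : ∀ y : ℝ, 0 ≤ y → I * φ2 y - Φ (I * (y : ℂ)) = 0 := by
    have e1 : ∀ z : ℂ, HasDerivAt (fun z => Φ (I * z)) (Φ' (I * z) * I) z := by
      intro z
      have h1 : HasDerivAt (fun z : ℂ => I * z) I z := by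
        have := (hasDerivAt_id z).const_mul I
        exact this.congr_deriv (mul_one I)
      exact (d1 (I * z)).comp z h1
    have e2 : ∀ z : ℂ, HasDerivAt (fun z => Φ' (I * z) * I)
        ((((I * z) ^ 2 - s * (I * z)) * Φ (I * z)) * I * I) z := by
      intro z
      have h1 : HasDerivAt (fun z : ℂ => I * z) I z := by
        have := (hasDerivAt_id z).const_mul I
        exact this.congr_deriv (mul_one I)
      exact ((d2 (I * z)).comp z h1).mul_const I
    refine ode_unique (φ := fun y : ℝ => I * φ2 y - Φ (I * (y : ℂ)))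
      (φ' := fun y : ℝ => I * φ2' y - Φ' (I * (y : ℂ)) * I)
      (q := fun y : ℝ => (y:ℂ) ^ 2 - (-I * s) * y) (by fun_prop) ?_ ?_ ?_ ?_
    · intro y hy
      exact ((b1 y hy).const_mul I).sub (e1 (y : ℂ)).comp_ofReal
    · intro y hy
      refine (((b2 y hy).const_mul I).sub (e2 (y : ℂ)).comp_ofReal).congr_deriv ?_
      have hI : I * I = -1 := I_mul_I
      linear_combination (-(((I * (y : ℂ)) ^ 2 - s * (I * (y : ℂ))) * Φ (I * (y : ℂ)))
        + (y : ℂ) ^ 2 * Φ (I * (y : ℂ))) * hI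
    · simp [h0, h]
    · simp [h0', b3]
  obtain ⟨A1, hA1, g1⟩ := gaussian_decay a1 a2 a4
  obtain ⟨A2, hA2, g2⟩ := gaussian_decay b1 b2 b4
  have hz := pl_zero (Φ := Φ) (fun y => (d1 y).differentiableAt) hA hgr (B := max A1 A2)
    (α := 1 / 4) (by norm_num) (le_max_of_le_left hA1) (by
      intro x hx
      have h1 := hu x hx
      rw [sub_eq_zero] at h1
      rw [← h1]
      refine (g1 x hx).trans ?_
      have e : -(x ^ 2 / 4) = -(1 / 4 * x ^ 2) := by ring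
      rw [e]
      exact mul_le_mul_of_nonneg_right (le_max_left _ _) (Real.exp_pos _).le) (by
      intro x hx
      have h1 := ht x hx
      rw [sub_eq_zero] at h1
      rw [← h1, norm_mul, norm_I, one_mul]
      refine (g2 x hx).trans ?_
      have e : -(x ^ 2 / 4) = -(1 / 4 * x ^ 2) := by ring
      rw [e]
      exact mul_le_mul_of_nonneg_right (le_max_right _ _) (Real.exp_pos _).le)
  have hcont : Continuous Φ := by
    apply Differentiable.continuous (𝕜 := ℂ)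
    exact fun y => (d1 y).differentiableAt
  have hz0 : Φ 0 = 0 := by
    have hc : Tendsto (fun t : ℝ => Φ (cc * t)) (𝓝[>] 0) (𝓝 (Φ (cc * (0:ℝ)))) := by
      apply Tendsto.mono_left _ nhdsWithin_le_nhds
      exact Continuous.tendsto (by fun_prop) 0
    have hc2 : Tendsto (fun t : ℝ => Φ (cc * t)) (𝓝[>] 0) (𝓝 0) := by
      apply tendsto_const_nhds.congr'
      filter_upwards [self_mem_nhdsWithin] with t ht
      exact (hz t ht).symm
    have := tendsto_nhds_unique hc hc2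
    simpa using this
  have hd : HasDerivWithinAt (fun t : ℝ => Φ (cc * t)) (Φ' 0 * cc) (Ici 0) 0 := by
    have h1 : HasDerivAt (fun z : ℂ => cc * z) cc ((0:ℝ):ℂ) := by
      have := (hasDerivAt_id (((0:ℝ)):ℂ)).const_mul cc
      exact this.congr_deriv (mul_one cc)
    have h2 : HasDerivAt Φ (Φ' 0) (cc * ((0:ℝ):ℂ)) := by
      rw [ofReal_zero, mul_zero]; exact d1 0
    exact ((h2.comp _ h1).comp_ofReal).hasDerivWithinAt
  have hd2 : HasDerivWithinAt (fun t : ℝ => Φ (cc * t)) 0 (Ici 0) 0 := by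
    apply (hasDerivWithinAt_const (0:ℝ) (Ici 0) (0:ℂ)).congr
    · intro t ht
      rcases eq_or_lt_of_le (mem_Ici.1 ht) with h3 | h3
      · rw [← h3]; simpa using hz0
      · exact hz t h3
    · simpa using hz0
  have h5 := (uniqueDiffWithinAt_Ici (0:ℝ)).eq_deriv _ hd hd2
  rw [h0'] at h5
  have : cc = 0 := by
    linear_combination (-1 : ℂ) * h5
  exact cc_ne_zero this

end Pool.Agent.R402.Eq
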