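import Pool.Agent.R402.EqD
import Pool.Agent.R402.EqH
set_option autoImplicit false
open MeasureTheory Filter Topology Set ContinuousLinearMap
open scoped ENNReal InnerProductSpace NNReal
open Pool.Agent.Helper872.Sch (SingBasis ext_basis exists_singBasis)

/-! Spectral analysis. -/

namespace Pool.Agent.R402.Eq

theorem S_eq_zero {P : H} (h : ∀ y : ℝ, 0 ≤ y → ⟪r y, P⟫_ℂ = 0) : S P = 0 := by
  rw [S_apply, Lp.eq_zero_iff_ae_eq_zero]
  filter_upwards [Sf_ae P] with y hy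
  rw [hy]
  unfold sf
  rcases le_or_gt y 0 with h1 | h1
  · rw [kk_nonpos h1]; simp
  · rw [h y h1.le]; simp

theorem phi_bound {P : H} {φ : ℝ → ℂ} (h : ∀ y : ℝ, 0 ≤ y → φ y = (v y : ℂ) * ⟪r y, P⟫_ℂ) :
    ∀ y : ℝ, 0 ≤ y → (y + 1) * ‖φ y‖ ^ 2 ≤ ‖P‖ ^ 2 := by
  intro y hy
  rw [h y hy, norm_mul, Complex.norm_real, Real.norm_of_nonneg (v_pos y).le]
  have h1 := v_mul_inner_le hy P
  have h2 : (v y * ‖⟪r y, P⟫_ℂ‖) ^ 2 ≤ (‖P‖ / √(y + 1)) ^ 2 :=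
    pow_le_pow_left₀ (mul_nonneg (v_pos y).le (norm_nonneg _)) h1 2
  rw [div_pow, Real.sq_sqrt (by linarith)] at h2
  calc (y + 1) * (v y * ‖⟪r y, P⟫_ℂ‖) ^ 2 ≤ (y + 1) * (‖P‖ ^ 2 / (y + 1)) :=
        mul_le_mul_of_nonneg_left h2 (by linarith)
    _ = ‖P‖ ^ 2 := by field_simp

theorem phi_lim {P : H} {φ : ℝ → ℂ} (h : ∀ y : ℝ, 0 ≤ y → φ y = (v y : ℂ) * ⟪r y, P⟫_ℂ) :
    Tendsto (fun y => ‖φ y‖ ^ 2) atTop (𝓝 0) := by
  have h1 : Tendsto (fun y : ℝ => ‖P‖ ^ 2 / (y + 1)) atTop (𝓝 0) := by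
    apply Tendsto.div_atTop tendsto_const_nhds
    exact tendsto_atTop_add_const_right _ _ tendsto_id
  apply squeeze_zero' (Eventually.of_forall fun y => by positivity) _ h1
  filter_upwards [eventually_ge_atTop 0] with y hy
  rw [le_div_iff₀ (by linarith), mul_comm]
  exact phi_bound h y hy

theorem eq_zero_of_phi {P : H} {κ : ℝ} (hκ : 0 < κ)
    (h : adjoint S (S P) = (κ : ℂ) • P) {φ : ℝ → ℂ}
    (h1 : ∀ y : ℝ, 0 ≤ y → φ y = (v y : ℂ) * ⟪r y, P⟫_ℂ) (h2 : ∀ y : ℝ, 0 ≤ y → φ y = 0) :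
    P = 0 := by
  have h3 : S P = 0 := by
    apply S_eq_zero
    intro y hy
    have h4 := h1 y hy
    rw [h2 y hy] at h4
    rcases mul_eq_zero.1 h4.symm with h5 | h5
    · exact absurd (by exact_mod_cast h5) (v_pos y).ne'
    · exact h5
  rw [h3, map_zero] at h
  have h4 : (κ : ℂ) ≠ 0 := by exact_mod_cast hκ.ne'
  exact (smul_eq_zero.1 h.symm).resolve_left h4

theorem eig_eq {P : H} {κ : ℝ} (hκ : 0 < κ) (h : adjoint S (S P) = (κ : ℂ) • P) :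
    P - ((1 / κ : ℝ) : ℂ) • (adjoint S (S P)) = (0 : ℂ) • r 0 := by
  rw [h, smul_smul, ← Complex.ofReal_mul, one_div, inv_mul_cancel₀ hκ.ne']
  simp

theorem eig_zero {P : H} {κ : ℝ} (hκ : 0 < κ) (h : adjoint S (S P) = (κ : ℂ) • P)
    (h0 : ⟪r 0, P⟫_ℂ = 0) : P = 0 := by
  obtain ⟨φ, φ', a1, a2, a3, a4⟩ := exists_ode P _ _ (eig_eq hκ h)
  apply eq_zero_of_phi hκ h a4
  apply ode_unique (φ := φ) (φ' := φ')
    (q := fun y : ℝ => (y:ℂ) ^ 2 - ((((1 / κ : ℝ) : ℂ)) - 2) * y) (by fun_prop)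
    (fun y _ => a1 y) a2
  · rw [a4 0 le_rfl, h0, mul_zero]
  · rw [a3, neg_zero]

theorem eig_lt {P : H} {κ : ℝ} (hκ : 0 < κ) (h : adjoint S (S P) = (κ : ℂ) • P)
    (hP : P ≠ 0) : κ < 1 / 2 := by
  by_contra hcon
  push Not at hcon
  obtain ⟨φ, φ', a1, a2, a3, a4⟩ := exists_ode P _ _ (eig_eq hκ h)
  apply hP
  apply eq_zero_of_phi hκ h a4
  have hs : 1 / κ - 2 ≤ 0 := by
    rw [sub_nonpos, div_le_iff₀ hκ]; linarith
  apply neumann_zero hs (fun y _ => a1 y) _ (by rw [a3, neg_zero]) (phi_lim a4)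
  intro y hy
  refine (a2 y hy).congr_deriv ?_
  push_cast
  ring

section basis
variable {ι : Type} (b : HilbertBasis ι ℂ H) (hb : SingBasis b S)
include hb

theorem kap_zero {i : ι} (h : ‖S (b i)‖ ^ 2 = 0) {y : ℝ} (hy : 0 ≤ y) : ⟪r y, b i⟫_ℂ = 0 := by
  have h1 : S (b i) = 0 := by simpa using h
  exact inner_r_eq_zero_of_S h1 hy

theorem kap_lt (i : ι) : ‖S (b i)‖ ^ 2 < 1 / 2 := by
  rcases eq_or_lt_of_le (sq_nonneg ‖S (b i)‖) with h | h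
  · rw [← h]; norm_num
  · apply eig_lt h (hb i)
    intro h0
    have := b.orthonormal.1 i
    rw [h0, norm_zero] at this
    norm_num at this

theorem coef_ne {i : ι} (h : 0 < ‖S (b i)‖ ^ 2) : ⟪r 0, b i⟫_ℂ ≠ 0 := by
  intro h0
  have h1 := eig_zero h (hb i) h0
  have := b.orthonormal.1 i
  rw [h1, norm_zero] at this
  norm_num at this

theorem kap_inj {i j : ι} (h : 0 < ‖S (b i)‖ ^ 2) (hij : ‖S (b i)‖ ^ 2 = ‖S (b j)‖ ^ 2) :
    i = j := by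
  by_contra hne
  have hi := hb i
  have hj := hb j
  rw [← hij] at hj
  have h1 : ⟪r 0, b j⟫_ℂ • b i - ⟪r 0, b i⟫_ℂ • b j = 0 := by
    apply eig_zero h
    · rw [map_sub, map_sub, map_smul, map_smul, map_smul, map_smul, hi, hj, smul_sub,
        smul_comm, smul_comm (⟪r 0, b i⟫_ℂ)]
    · rw [inner_sub_right, inner_smul_right, inner_smul_right]; ring
  have h2 : ⟪b i, ⟪r 0, b j⟫_ℂ • b i - ⟪r 0, b i⟫_ℂ • b j⟫_ℂ = 0 := by rw [h1, inner_zero_right]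
  rw [inner_sub_right, inner_smul_right, inner_smul_right, inner_self_eq_norm_sq_to_K,
    b.orthonormal.1 i, b.orthonormal.2 hne] at h2
  have h3 : ⟪r 0, b j⟫_ℂ = 0 := by simpa using h2
  exact coef_ne b hb (by rw [← hij]; exact h) h3

theorem kap_tendsto : Tendsto (fun i => ‖S (b i)‖ ^ 2) cofinite (𝓝 0) := by
  have h1 := Pool.Agent.Helper965.CN.compact_basis b compact_K
  refine h1.congr fun i => ?_
  have h2 : (adjoint S ∘L S) (b i) = ((‖S (b i)‖ ^ 2 : ℝ) : ℂ) • b i := hb i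
  rw [h2, norm_smul, b.orthonormal.1 i, Complex.norm_real, Real.norm_of_nonneg (by positivity),
    mul_one]

theorem kap_finite {ε : ℝ} (hε : 0 < ε) : {i | ε ≤ ‖S (b i)‖ ^ 2}.Finite := by
  have h1 := (tendsto_order.1 (kap_tendsto b hb)).2 ε hε
  rw [eventually_cofinite] at h1
  simpa using h1

theorem kap_infinite : {i | 0 < ‖S (b i)‖ ^ 2}.Infinite := by
  intro hfin
  have hfd : FiniteDimensional ℂ (Submodule.span ℂ (b '' {i | 0 < ‖S (b i)‖ ^ 2})) :=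
    FiniteDimensional.span_of_finite ℂ (hfin.image _)
  have hmem : ∀ y : ℝ, 0 ≤ y → r y ∈ Submodule.span ℂ (b '' {i | 0 < ‖S (b i)‖ ^ 2}) := by
    intro y hy
    have h1 := b.hasSum_repr (r y)
    have h2 : HasSum (fun i => b.repr (r y) i • b i)
        (∑ i ∈ hfin.toFinset, b.repr (r y) i • b i) := by
      apply hasSum_sum_of_ne_finset_zero
      intro i hi
      have h3 : ‖S (b i)‖ ^ 2 = 0 := by
        have h4 : ¬ (0 < ‖S (b i)‖ ^ 2) := by simpa using hi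
        exact le_antisymm (not_lt.1 h4) (by positivity)
      rw [b.repr_apply_apply, ← inner_conj_symm, kap_zero b hb h3 hy]
      simp
    rw [h1.unique h2]
    apply Submodule.sum_mem
    intro i hi
    apply Submodule.smul_mem
    apply Submodule.subset_span
    exact ⟨i, by simpa using hi, rfl⟩
  set V := Submodule.span ℂ (b '' {i | 0 < ‖S (b i)‖ ^ 2}) with hV
  have hin : ∀ k l : ℕ, k < l →
      ⟪r ((k + 1 : ℕ) : ℝ) - r (k : ℝ), r ((l + 1 : ℕ) : ℝ) - r (l : ℝ)⟫_ℂ = 0 := by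
    intro k l hkl
    have n1 : (0:ℝ) ≤ ((k + 1 : ℕ) : ℝ) := Nat.cast_nonneg _
    have n2 : (0:ℝ) ≤ (k : ℝ) := Nat.cast_nonneg _
    have n3 : (0:ℝ) ≤ ((l + 1 : ℕ) : ℝ) := Nat.cast_nonneg _
    have n4 : (0:ℝ) ≤ (l : ℝ) := Nat.cast_nonneg _
    have m1 : min ((k + 1 : ℕ) : ℝ) ((l + 1 : ℕ) : ℝ) = ((k + 1 : ℕ) : ℝ) :=
      min_eq_left (by exact_mod_cast (by omega))
    have m2 : min ((k + 1 : ℕ) : ℝ) (l : ℝ) = ((k + 1 : ℕ) : ℝ) :=
      min_eq_left (by exact_mod_cast (by omega))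
    have m3 : min (k : ℝ) ((l + 1 : ℕ) : ℝ) = (k : ℝ) :=
      min_eq_left (by exact_mod_cast (by omega))
    have m4 : min (k : ℝ) (l : ℝ) = (k : ℝ) := min_eq_left (by exact_mod_cast (by omega))
    rw [inner_sub_left, inner_sub_right, inner_sub_right, inner_r_r n1 n3, inner_r_r n1 n4,
      inner_r_r n2 n3, inner_r_r n2 n4, m1, m2, m3, m4]
    ring
  let u : ℕ → V := fun k => ⟨r ((k + 1 : ℕ) : ℝ) - r (k : ℝ),
    Submodule.sub_mem _ (hmem _ (Nat.cast_nonneg _)) (hmem _ (Nat.cast_nonneg _))⟩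
  have hli : LinearIndependent ℂ u := by
    apply LinearIndependent.of_comp V.subtype
    apply linearIndependent_of_ne_zero_of_inner_eq_zero
    · intro k h0
      have h1 : r ((k + 1 : ℕ) : ℝ) = r (k : ℝ) := sub_eq_zero.1 h0
      have h2 := norm_r_sq (y := ((k + 1 : ℕ) : ℝ)) (Nat.cast_nonneg _)
      rw [h1, norm_r_sq (Nat.cast_nonneg _)] at h2
      have h3 := Gam_strictMono (show (k : ℝ) < ((k + 1 : ℕ) : ℝ) by push_cast; linarith)
      linarith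
    · intro k l hkl
      rcases lt_or_gt_of_ne hkl with h | h
      · exact hin k l h
      · have h1 := hin l k h
        change ⟪r ((k + 1 : ℕ) : ℝ) - r (k : ℝ), r ((l + 1 : ℕ) : ℝ) - r (l : ℝ)⟫_ℂ = 0
        rw [← inner_conj_symm, h1, map_zero]
  have : Finite ℕ := hli.finite
  exact not_finite ℕ

theorem resolvent {τ : ℂ} (hτ : ∀ i, 1 - τ * ((‖S (b i)‖ ^ 2 : ℝ) : ℂ) ≠ 0) :
    ∃ x : H, x - τ • (adjoint S (S x)) = (1 : ℂ) • r 0 ∧
      HasSum (fun i => ((‖⟪r 0, b i⟫_ℂ‖ ^ 2 : ℝ) : ℂ) / (1 - τ * ((‖S (b i)‖ ^ 2 : ℝ) : ℂ)))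
        ⟪r 0, x⟫_ℂ := by
  have hlim : Tendsto (fun i => ‖(1 - τ * ((‖S (b i)‖ ^ 2 : ℝ) : ℂ))⁻¹‖) cofinite (𝓝 1) := by
    have h1 : Tendsto (fun i => 1 - τ * ((‖S (b i)‖ ^ 2 : ℝ) : ℂ)) cofinite (𝓝 1) := by
      have h2 := (Complex.continuous_ofReal.tendsto 0).comp (kap_tendsto b hb)
      have h3 := (h2.const_mul τ).const_sub 1
      simpa using h3
    have h4 := (h1.inv₀ one_ne_zero).norm
    simpa using h4
  obtain ⟨M, hM⟩ := hlim.bddAbove_range_of_cofinite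
  have hM' : ∀ i, ‖(1 - τ * ((‖S (b i)‖ ^ 2 : ℝ) : ℂ))⁻¹‖ ≤ M := fun i => hM ⟨i, rfl⟩
  let c : ι → ℂ := fun i => ⟪b i, r 0⟫_ℂ * (1 - τ * ((‖S (b i)‖ ^ 2 : ℝ) : ℂ))⁻¹
  have hsum0 := b.orthonormal.inner_products_summable (x := r 0)
  have hc : Memℓp c 2 := by
    rw [memℓp_gen_iff (by norm_num)]
    simp only [ENNReal.toReal_ofNat, Real.rpow_two]
    refine Summable.of_nonneg_of_le (fun i => by positivity) (fun i => ?_) (hsum0.mul_left (M ^ 2))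
    simp only [c]
    rw [norm_mul, mul_pow, mul_comm]
    gcongr
    exact hM' i
  let x : H := b.repr.symm ⟨c, hc⟩
  have hx : ∀ i, ⟪b i, x⟫_ℂ = c i := by
    intro i
    rw [← b.repr_apply_apply]
    simp [x]
  refine ⟨x, ?_, ?_⟩
  · apply ext_basis b
    intro i
    have h1 : ⟪b i, adjoint S (S x)⟫_ℂ = ((‖S (b i)‖ ^ 2 : ℝ) : ℂ) * ⟪b i, x⟫_ℂ := by
      rw [adjoint_inner_right, ← adjoint_inner_left, hb i, inner_smul_left, Complex.conj_ofReal]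
    rw [inner_sub_right, inner_smul_right, h1, hx, one_smul]
    have h2 := hτ i
    simp only [c]
    have h3 : (1 - τ * ((‖S (b i)‖ ^ 2 : ℝ) : ℂ))⁻¹ * (1 - τ * ((‖S (b i)‖ ^ 2 : ℝ) : ℂ)) = 1 :=
      inv_mul_cancel₀ h2
    linear_combination ⟪b i, r 0⟫_ℂ * h3
  · have h1 := b.hasSum_inner_mul_inner (r 0) x
    refine h1.congr_fun ?_ |> fun h => h
    intro i
    rw [hx]
    simp only [c]
    rw [← mul_assoc, ← inner_conj_symm (b i) (r 0), Complex.mul_conj', div_eq_mul_inv]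
    push_cast
    rfl

end basis

end Pool.Agent.R402.Eq
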