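import Pool.Agent.R402.EqI
set_option autoImplicit false
open MeasureTheory Filter Topology Set ContinuousLinearMap
open scoped ENNReal InnerProductSpace NNReal
open Pool.Agent.Helper872.Sch (SingBasis ext_basis exists_singBasis)

/-! The configuration in the plane. -/

namespace Pool.Agent.R402.Eq

section basis
variable {ι : Type} (b : HilbertBasis ι ℂ H)

/-- the positive eigenvalues -/
noncomputable def kap (i : ι) : ℝ := ‖S (b i)‖ ^ 2

/-- index set -/
def JJt : Set ι := {i | 0 < kap b i}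

noncomputable def sv (i : JJt b) : ℝ := 1 / kap b i - 2
noncomputable def av (i : JJt b) : ℝ := ‖⟪r 0, b i⟫_ℂ‖ ^ 2 / kap b i

variable (hb : SingBasis b S)
include hb

theorem sv_pos (i : JJt b) : 0 < sv b i := by
  have h1 : 0 < kap b i := i.2
  have h2 : kap b i < 1 / 2 := kap_lt b hb i
  unfold sv
  rw [sub_pos, lt_div_iff₀ h1]
  linarith

theorem av_pos (i : JJt b) : 0 < av b i := by
  have h1 : 0 < kap b i := i.2
  unfold av
  have h2 := coef_ne b hb (i := i) h1
  have h3 : 0 < ‖⟪r 0, b i⟫_ℂ‖ := norm_pos_iff.2 h2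
  positivity

theorem sv_inj {i j : JJt b} (h : sv b i = sv b j) : i = j := by
  have h1 : 0 < kap b i := i.2
  have h2 : 0 < kap b j := j.2
  unfold sv at h
  have h3 : 1 / kap b i = 1 / kap b j := by linarith
  have h4 : kap b i = kap b j := by
    rw [one_div, one_div] at h3
    exact inv_injective h3
  exact Subtype.ext (kap_inj b hb h1 h4)

theorem sv_finite (R : ℝ) : {i : JJt b | sv b i < R}.Finite := by
  have h1 := kap_finite b hb (ε := 1 / (|R| + 2)) (by positivity)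
  refine (h1.preimage (f := fun i : JJt b => (i : ι)) Subtype.val_injective.injOn).subset ?_
  intro i hi
  have hi' : sv b i < R := hi
  have h2 : 0 < kap b i := i.2
  change 1 / (|R| + 2) ≤ kap b i
  rw [div_le_iff₀ (by positivity)]
  unfold sv at hi'
  have h3 : 1 / kap b i < |R| + 2 := by
    have := le_abs_self R
    linarith
  rw [div_lt_iff₀ h2] at h3
  linarith

omit hb in
theorem summ_c : Summable (fun i => ‖⟪r 0, b i⟫_ℂ‖ ^ 2) := by
  refine (b.orthonormal.inner_products_summable (x := r 0)).congr fun i => ?_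
  rw [norm_inner_symm]

theorem summ_as : Summable (fun i : JJt b => av b i / sv b i) := by
  have h1 := ((summ_c b).subtype (JJt b)).mul_left 2
  apply Summable.of_norm_bounded_eventually h1
  rw [eventually_cofinite]
  refine (sv_finite b hb 2).subset ?_
  intro i hi
  by_contra hcon
  apply hi
  have h2 : 2 ≤ sv b i := by
    by_contra h3
    exact hcon (not_le.1 h3)
  have h3 := sv_pos b hb i
  have h4 := av_pos b hb i
  have h5 : 0 < kap b i := i.2
  rw [Real.norm_of_nonneg (by positivity)]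
  simp only [Function.comp]
  rw [div_le_iff₀ h3]
  unfold av
  rw [div_le_iff₀ h5]
  have h6 : sv b i * kap b i = 1 - 2 * kap b i := by
    unfold sv; field_simp
  have h7 : kap b i ≤ 1 / 4 := by
    unfold sv at h2
    have : 4 ≤ 1 / kap b i := by linarith
    rw [le_div_iff₀ h5] at this
    linarith
  have h8 : 2 * ‖⟪r 0, b i⟫_ℂ‖ ^ 2 * sv b i * kap b i
      = 2 * ‖⟪r 0, b i⟫_ℂ‖ ^ 2 * (1 - 2 * kap b i) := by
    rw [mul_assoc, h6]
  rw [h8]
  nlinarith [sq_nonneg ‖⟪r 0, b i⟫_ℂ‖]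

theorem countable_J : Countable (JJt b) := by
  have h1 := (summ_c b).countable_support
  have h2 : (JJt b).Countable := by
    apply h1.mono
    intro i hi
    rw [Function.mem_support]
    have := coef_ne b hb (i := i) hi
    simpa using this
  exact h2.to_subtype

theorem infinite_J : Infinite (JJt b) := by
  have h := kap_infinite b hb
  exact h.to_subtype

/-- the values `-M(s)` and the decaying solution -/
theorem m_sum {s : ℂ} (hs : ∀ i : JJt b, s ≠ ((sv b i : ℝ) : ℂ)) :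
    ∃ (φ φ' : ℝ → ℂ) (C : ℝ), (∀ y : ℝ, 0 ≤ y → HasDerivAt φ (φ' y) y) ∧
      (∀ y : ℝ, 0 ≤ y → HasDerivAt φ' (((y:ℂ) ^ 2 - s * y) * φ y) y) ∧ φ' 0 = -1 ∧
      (∀ y : ℝ, 0 ≤ y → (y + 1) * ‖φ y‖ ^ 2 ≤ C) ∧
      HasSum (fun i : JJt b => ((av b i : ℝ) : ℂ) / (((sv b i : ℝ) : ℂ) - s)) (φ 0) := by
  have hτ : ∀ i, 1 - (s + 2) * ((‖S (b i)‖ ^ 2 : ℝ) : ℂ) ≠ 0 := by
    intro i h0
    have h1 : 0 < kap b i := by
      rcases eq_or_lt_of_le (sq_nonneg ‖S (b i)‖) with h | h
      · rw [← h] at h0; simp at h0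
      · exact h
    have h2 := hs ⟨i, h1⟩
    apply h2
    have h3 : ((kap b i : ℝ) : ℂ) ≠ 0 := by exact_mod_cast h1.ne'
    change 1 - (s + 2) * ((kap b i : ℝ) : ℂ) = 0 at h0
    unfold sv
    push_cast
    field_simp
    linear_combination -h0
  obtain ⟨x, hx, hsum⟩ := resolvent b hb hτ
  obtain ⟨φ, φ', a1, a2, a3, a4⟩ := exists_ode x _ _ hx
  refine ⟨φ, φ', ‖x‖ ^ 2, fun y _ => a1 y, ?_, a3, phi_bound a4, ?_⟩
  · intro y hy
    refine (a2 y hy).congr_deriv ?_
    ring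
  · rw [a4 0 le_rfl, v_zero]
    have h1 : ((1:ℝ):ℂ) * ⟪r 0, x⟫_ℂ = ⟪r 0, x⟫_ℂ := by simp
    rw [h1]
    have h2 := (hasSum_subtype_iff_of_support_subset (s := JJt b) (f := fun i =>
      ((‖⟪r 0, b i⟫_ℂ‖ ^ 2 : ℝ) : ℂ) / (1 - (s + 2) * ((‖S (b i)‖ ^ 2 : ℝ) : ℂ)))
      (a := ⟪r 0, x⟫_ℂ) (by
        intro i hi
        by_contra hcon
        rw [Function.mem_support] at hi
        apply hi
        have h3 : ‖S (b i)‖ ^ 2 = 0 := by
          have h4 : ¬ (0 < kap b i) := hcon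
          exact le_antisymm (not_lt.1 h4) (by positivity)
        rw [kap_zero b hb h3 le_rfl]
        simp)).2 hsum
    convert h2 using 1
    ext i
    simp only [Function.comp]
    have h5 : 0 < kap b i := i.2
    have h6 : ((kap b i : ℝ) : ℂ) ≠ 0 := by exact_mod_cast h5.ne'
    change ((av b i : ℝ) : ℂ) / (((sv b i : ℝ) : ℂ) - s) = ((‖⟪r 0, b i⟫_ℂ‖ ^ 2 : ℝ) : ℂ) /
      (1 - (s + 2) * ((kap b i : ℝ) : ℂ))
    have h7 : 1 - (s + 2) * ((kap b i : ℝ) : ℂ) ≠ 0 := hτ i
    have h8 : ((sv b i : ℝ) : ℂ) - s ≠ 0 := sub_ne_zero.2 (hs i).symm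
    rw [div_eq_div_iff h8 h7]
    have h9 : ((sv b i : ℝ) : ℂ) * ((kap b i : ℝ) : ℂ) = 1 - 2 * ((kap b i : ℝ) : ℂ) := by
      unfold sv; push_cast; field_simp
    have h10 : ((av b i : ℝ) : ℂ) * ((kap b i : ℝ) : ℂ) = ((‖⟪r 0, b i⟫_ℂ‖ ^ 2 : ℝ) : ℂ) := by
      unfold av; push_cast; field_simp
    have h11 : 1 - (s + 2) * ((kap b i : ℝ) : ℂ) = (((sv b i : ℝ) : ℂ) - s) * ((kap b i : ℝ) : ℂ) := by
      linear_combination -h9
    rw [h11, ← h10]
    ring

/-- points -/
noncomputable def pt (q : JJt b × Bool) : ℂ := (if q.2 then -cc else -cb) * ((sv b q.1 : ℝ) : ℂ)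

end basis

theorem norm_cc : ‖cc‖ = 1 := by
  have h : ‖cc‖ ^ 2 = 1 := by rw [← norm_pow, cc_sq, Complex.norm_I]
  nlinarith [norm_nonneg cc]

theorem norm_cb : ‖cb‖ = 1 := by
  have h : ‖cb‖ ^ 2 = 1 := by rw [← norm_pow, cb_sq, norm_neg, Complex.norm_I]
  nlinarith [norm_nonneg cb]

theorem cc_im_pos : 0 < cc.im := by
  unfold cc; rw [Complex.im_ofReal_mul]; simp
theorem cb_im_neg : cb.im < 0 := by
  unfold cb; rw [Complex.im_ofReal_mul]; simp

section basis
variable {ι : Type} (b : HilbertBasis ι ℂ H) (hb : SingBasis b S)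
include hb

theorem norm_pt (q : JJt b × Bool) : ‖pt b q‖ = sv b q.1 := by
  unfold pt
  rw [norm_mul, Complex.norm_real, Real.norm_of_nonneg (sv_pos b hb q.1).le]
  split_ifs
  · rw [norm_neg, norm_cc, one_mul]
  · rw [norm_neg, norm_cb, one_mul]

theorem pt_inj : Function.Injective (pt b) := by
  intro p q h
  have h1 : sv b p.1 = sv b q.1 := by rw [← norm_pt b hb, ← norm_pt b hb, h]
  have h2 : p.1 = q.1 := sv_inj b hb h1
  have h3 := sv_pos b hb p.1
  have h4 := congrArg Complex.im h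
  unfold pt at h4
  rw [← h1] at h4
  have hc := cc_im_pos
  have hc' := cb_im_neg
  rcases p with ⟨i, _ | _⟩ <;> rcases q with ⟨j, _ | _⟩
  · simp only at h2; rw [h2]
  · simp only [Bool.false_eq_true, if_false, if_true, Complex.im_mul_ofReal, Complex.neg_im] at h4
    nlinarith
  · simp only [Bool.false_eq_true, if_false, if_true, Complex.im_mul_ofReal, Complex.neg_im] at h4
    nlinarith
  · simp only at h2; rw [h2]

theorem pt_tendsto : Tendsto (fun q => ‖pt b q‖) cofinite atTop := by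
  rw [tendsto_atTop]
  intro R
  rw [eventually_cofinite]
  refine (((sv_finite b hb R).prod (Set.finite_univ (α := Bool)))).subset ?_
  intro q hq
  have hq' : ¬ R ≤ ‖pt b q‖ := hq
  rw [norm_pt b hb] at hq'
  exact ⟨not_le.1 hq', mem_univ _⟩

theorem pt_summ : Summable (fun q : JJt b × Bool => av b q.1 / ‖pt b q‖) := by
  rw [summable_prod_of_nonneg (fun q => div_nonneg (av_pos b hb q.1).le (norm_nonneg _))]
  refine ⟨fun i => Summable.of_finite, ?_⟩
  have h1 := (summ_as b hb).mul_left 2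
  refine h1.congr fun i => ?_
  rw [tsum_fintype, Fintype.sum_bool, norm_pt b hb, norm_pt b hb]
  ring

theorem pt_summ' (z : ℂ) : Summable (fun q : JJt b × Bool => ((av b q.1 : ℝ) : ℂ) / (z - pt b q)) := by
  apply Summable.of_norm_bounded_eventually ((pt_summ b hb).mul_left 2)
  filter_upwards [(pt_tendsto b hb).eventually_ge_atTop (2 * ‖z‖),
    (pt_tendsto b hb).eventually_gt_atTop 0] with q hq hq0
  rw [norm_div, Complex.norm_real, Real.norm_of_nonneg (av_pos b hb q.1).le]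
  have h1 : ‖pt b q‖ / 2 ≤ ‖z - pt b q‖ := by
    have := norm_sub_norm_le (pt b q) z
    rw [norm_sub_rev] at this
    linarith
  calc av b q.1 / ‖z - pt b q‖ ≤ av b q.1 / (‖pt b q‖ / 2) :=
        div_le_div_of_nonneg_left (av_pos b hb q.1).le (by linarith) h1
    _ = 2 * (av b q.1 / ‖pt b q‖) := by field_simp

theorem pt_nonzero {z : ℂ} (hz : ∀ q, z ≠ pt b q) :
    ∑' q : JJt b × Bool, ((av b q.1 : ℝ) : ℂ) / (z - pt b q) ≠ 0 := by
  have hcc : cc * cb = 1 := cc_mul_cb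
  have hs1 : ∀ i : JJt b, -cc * z ≠ ((sv b i : ℝ) : ℂ) := by
    intro i h
    apply hz (i, false)
    unfold pt
    simp only [Bool.false_eq_true, if_false]
    rw [← h]
    linear_combination (-z) * hcc
  have hs2 : ∀ i : JJt b, -cb * z ≠ ((sv b i : ℝ) : ℂ) := by
    intro i h
    apply hz (i, true)
    unfold pt
    simp only [if_true]
    rw [← h]
    linear_combination (-z) * hcc
  obtain ⟨φ1, φ1', C1, a1, a2, a3, a4, a5⟩ := m_sum b hb hs1
  obtain ⟨φ2, φ2', C2, b1, b2, b3, b4, b5⟩ := m_sum b hb hs2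
  have hI : -cb = -Complex.I * (-cc) := by
    have h1 := cc_sq
    rw [← h1]
    have h2 : cc ^ 2 * cc ^ 2 = -1 := by rw [cc_sq, Complex.I_mul_I]
    linear_combination (-cb) * h2 + (cc ^ 3) * hcc
  have hne : φ1 0 ≠ Complex.I * φ2 0 := by
    apply no_match a1 a2 a3 a4 b1 _ b3 b4
    intro y hy
    refine (b2 y hy).congr_deriv ?_
    rw [hI]
    ring
  rw [(pt_summ' b hb z).tsum_prod]
  have h1 : HasSum (fun i : JJt b => cb * (((av b i : ℝ) : ℂ) / (((sv b i : ℝ) : ℂ) - -cb * z))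
      + cc * (((av b i : ℝ) : ℂ) / (((sv b i : ℝ) : ℂ) - -cc * z))) (cb * φ2 0 + cc * φ1 0) :=
    (b5.mul_left cb).add (a5.mul_left cc)
  have h2 : (fun i : JJt b => ∑' c : Bool, ((av b (i, c).1 : ℝ) : ℂ) / (z - pt b (i, c)))
      = fun i : JJt b => cb * (((av b i : ℝ) : ℂ) / (((sv b i : ℝ) : ℂ) - -cb * z))
      + cc * (((av b i : ℝ) : ℂ) / (((sv b i : ℝ) : ℂ) - -cc * z)) := by
    ext i
    rw [tsum_fintype, Fintype.sum_bool]
    have e1 : z - pt b (i, true) ≠ 0 := sub_ne_zero.2 (hz _)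
    have e2 : z - pt b (i, false) ≠ 0 := sub_ne_zero.2 (hz _)
    have e3 : ((sv b i : ℝ) : ℂ) - -cb * z ≠ 0 := sub_ne_zero.2 (hs2 i).symm
    have e4 : ((sv b i : ℝ) : ℂ) - -cc * z ≠ 0 := sub_ne_zero.2 (hs1 i).symm
    congr 1
    · rw [← mul_div_assoc, div_eq_div_iff e1 e3]
      unfold pt
      simp only [if_true]
      linear_combination (-((sv b i : ℝ) : ℂ) * ((av b i : ℝ) : ℂ)) * hcc
    · rw [← mul_div_assoc, div_eq_div_iff e2 e4]
      unfold pt
      simp only [Bool.false_eq_true, if_false]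
      linear_combination (-((sv b i : ℝ) : ℂ) * ((av b i : ℝ) : ℂ)) * hcc
  rw [h2, h1.tsum_eq]
  intro h0
  apply hne
  have hcb : cb ^ 2 = -Complex.I := cb_sq
  linear_combination cb * h0 - φ2 0 * hcb - φ1 0 * hcc

end basis

theorem exists_planar : ∃ (X : ℕ → ℂ) (A : ℕ → ℝ), Function.Injective X ∧
    Tendsto (fun n => ‖X n‖) atTop atTop ∧ (∀ n, X n ≠ 0) ∧ (∀ n, 0 < A n) ∧
    Summable (fun n => A n / ‖X n‖) ∧
    ∀ z, (∀ n, z ≠ X n) → Summable (fun n => (A n : ℂ) / (z - X n)) ∧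
      ∑' n, (A n : ℂ) / (z - X n) ≠ 0 := by
  obtain ⟨ι, b, hb⟩ := exists_singBasis S compact_K
  have := countable_J b hb
  have := infinite_J b hb
  obtain ⟨e⟩ : Nonempty (ℕ ≃ JJt b × Bool) := nonempty_equiv_of_countable
  refine ⟨fun n => pt b (e n), fun n => av b (e n).1, (pt_inj b hb).comp e.injective, ?_, ?_, ?_,
    ?_, ?_⟩
  · rw [← Nat.cofinite_eq_atTop]
    exact (pt_tendsto b hb).comp e.injective.tendsto_cofinite
  · intro n h0
    have h1 := norm_pt b hb (e n)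
    beta_reduce at h0
    rw [h0, norm_zero] at h1
    exact (sv_pos b hb (e n).1).ne h1
  · intro n; exact av_pos b hb _
  · exact (e.summable_iff (f := fun q : JJt b × Bool => av b q.1 / ‖pt b q‖)).2 (pt_summ b hb)
  · intro z hz
    have hz' : ∀ q, z ≠ pt b q := by
      intro q
      have := hz (e.symm q)
      simpa using this
    refine ⟨(e.summable_iff (f := fun q : JJt b × Bool => ((av b q.1 : ℝ) : ℂ) / (z - pt b q))).2
      (pt_summ' b hb z), ?_⟩
    rw [e.tsum_eq (fun q : JJt b × Bool => ((av b q.1 : ℝ) : ℂ) / (z - pt b q))]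
    exact pt_nonzero b hb hz'

end Pool.Agent.R402.Eq
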