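import Mathlib
import Pool.Agent.R402.Core
import Pool.Agent.H855R2.SF.Base
import Pool.Agent.H855R2.SF.Data

/-!
# From the Euler product and the functional equation to the hypotheses of the core estimate
-/

set_option autoImplicit false

open MeasureTheory Filter Topology Set
open scoped ArithmeticFunction.vonMangoldt

namespace Pool.Agent.R402.Eul

open Pool.Agent.R402.MeanSq Pool.Agent.R402.Ser Pool.Agent.R402.Core

/-- the power sum of the Satake parameters: at `p^k` it is `∑ j, α p j ^ k` -/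
noncomputable def cf {m : ℕ} (α : ℕ → Fin m → ℂ) (n : ℕ) : ℂ :=
  ∑ j, α n.minFac j ^ (n.factorization n.minFac)

lemma cf_pow {m : ℕ} (α : ℕ → Fin m → ℂ) {p : ℕ} (hp : p.Prime) (k : ℕ) :
    cf α (p ^ (k + 1)) = ∑ j, α p j ^ (k + 1) := by
  unfold cf
  have h1 : (p ^ (k + 1)).minFac = p := hp.pow_minFac (Nat.succ_ne_zero k)
  rw [h1, hp.factorization_pow, Finsupp.single_eq_same]

lemma natCast_cpow {n : ℕ} (hn : 0 < n) (σ t : ℝ) :
    (((n : ℝ) ^ (-σ) : ℝ) : ℂ) * Complex.exp (-(Real.log n * t : ℝ) * Complex.I) =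
      (n : ℂ) ^ (-((σ : ℂ) + t * Complex.I)) := by
  have hn0 : (0:ℝ) < n := by exact_mod_cast hn
  have hnc : (n : ℂ) ≠ 0 := by exact_mod_cast hn.ne'
  have hlog : Complex.log (n : ℂ) = ((Real.log n : ℝ) : ℂ) := by
    rw [← Complex.natCast_log]
  rw [Complex.cpow_def_of_ne_zero hnc, hlog, Real.rpow_def_of_pos hn0, Complex.ofReal_exp,
    ← Complex.exp_add]
  congr 1
  push_cast
  ring

/-- `L = exp(∑ ...)` from the Euler product -/
theorem euler_exp {m : ℕ} {α : ℕ → Fin m → ℂ} {θ : ℝ} (hθ : θ < 1 / 2)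
    (hα : ∀ p : ℕ, p.Prime → ∀ j, ‖α p j‖ ≤ (p : ℝ) ^ θ)
    (hP : ∀ σ : ℝ, 1 < σ → Summable (P (cf α) σ)) {σ t : ℝ} (hσ : 1 < σ) {F : ℂ}
    (hF : HasProd (fun p : Nat.Primes =>
      ∏ j, (1 - α p j * ((p : ℕ) : ℂ) ^ (-((σ : ℂ) + t * Complex.I)))⁻¹) F) :
    F = Complex.exp (G (cf α) σ t) := by
  set s : ℂ := (σ : ℂ) + t * Complex.I with hs
  have hsre : s.re = σ := by simp [hs]
  have hsum := summable_gg hσ (hP σ hσ) t
  set g := gg (cf α) σ t with hg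
  have hg0 : ∀ n, ¬ IsPrimePow n → g n = 0 := by
    intro n hn
    have h1 : Λ n = 0 := by
      rw [ArithmeticFunction.vonMangoldt_apply, if_neg hn]
    rw [hg]
    unfold gg v
    rw [h1]
    simp
  have hz1 : ∀ (p : Nat.Primes) (j : Fin m), ‖α p j * ((p : ℕ) : ℂ) ^ (-s)‖ < 1 := by
    intro p j
    have hp := p.2
    have hp0 : (0 : ℝ) < (p : ℕ) := by exact_mod_cast hp.pos
    have hp1 : (1 : ℝ) < (p : ℕ) := by exact_mod_cast hp.one_lt
    rw [norm_mul, Complex.norm_natCast_cpow_of_pos hp.pos, Complex.neg_re, hsre]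
    calc ‖α p j‖ * ((p : ℕ) : ℝ) ^ (-σ)
        ≤ ((p : ℕ) : ℝ) ^ θ * ((p : ℕ) : ℝ) ^ (-σ) := by
          gcongr
          exact hα p hp j
      _ = ((p : ℕ) : ℝ) ^ (θ + -σ) := (Real.rpow_add hp0 _ _).symm
      _ < 1 := Real.rpow_lt_one_of_one_lt_of_neg hp1 (by linarith)
  -- the local sums
  have hloc : ∀ p : Nat.Primes, HasSum (fun k : ℕ => g ((p : ℕ) ^ (k + 1)))
      (∑ j, -Complex.log (1 - α p j * ((p : ℕ) : ℂ) ^ (-s))) := by
    intro p
    have hp := p.2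
    have hp2 : (2 : ℝ) ≤ (p : ℕ) := by exact_mod_cast hp.two_le
    have h1 : HasSum (fun k : ℕ => ∑ j, (α p j * ((p : ℕ) : ℂ) ^ (-s)) ^ k / (k : ℂ))
        (∑ j, -Complex.log (1 - α p j * ((p : ℕ) : ℂ) ^ (-s))) :=
      hasSum_sum fun j _ => Complex.hasSum_taylorSeries_neg_log (hz1 p j)
    have h2 := (hasSum_nat_add_iff' 1).2 h1
    simp only [Finset.range_one, Finset.sum_singleton, Nat.cast_zero, div_zero,
      Finset.sum_const_zero, sub_zero] at h2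
    have h3 : ∀ k : ℕ, g ((p : ℕ) ^ (k + 1)) =
        ∑ j, (α p j * ((p : ℕ) : ℂ) ^ (-s)) ^ (k + 1) / ((k + 1 : ℕ) : ℂ) := by
      intro k
      have hpos : 0 < (p : ℕ) ^ (k + 1) := pow_pos hp.pos _
      have hlp : Real.log (p : ℕ) ≠ 0 := (Real.log_pos (by linarith)).ne'
      have hk0 : ((k : ℝ) + 1) ≠ 0 := by positivity
      have h4 : v σ ((p : ℕ) ^ (k + 1)) / Real.log (((p : ℕ) ^ (k + 1) : ℕ) : ℝ) =
          (((p : ℕ) ^ (k + 1) : ℕ) : ℝ) ^ (-σ) / ((k : ℝ) + 1) := by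
        unfold v
        rw [ArithmeticFunction.vonMangoldt_apply_pow (Nat.succ_ne_zero k),
          ArithmeticFunction.vonMangoldt_apply_prime hp, Nat.cast_pow, Real.log_pow]
        push_cast
        field_simp
      have h5 : ((((p : ℕ) ^ (k + 1) : ℕ) : ℂ)) ^ (-s) = (((p : ℕ) : ℂ) ^ (-s)) ^ (k + 1) := by
        rw [Nat.cast_pow, ← Complex.natCast_cpow_natCast_mul, Complex.cpow_nat_mul]
      rw [hg]
      unfold gg
      rw [h4, Complex.ofReal_div, div_mul_eq_mul_div, div_mul_eq_mul_div, mul_right_comm,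
        natCast_cpow hpos, ← hs, h5, cf_pow α hp, Finset.mul_sum, Finset.sum_div]
      refine Finset.sum_congr rfl fun j _ => ?_
      rw [mul_pow]
      push_cast
      ring
    exact h2.congr_fun fun k => h3 k
  -- the sum over the prime powers
  have hPP : HasSum (fun x : {n : ℕ // IsPrimePow n} => g x) (G (cf α) σ t) := by
    refine (hasSum_subtype_iff_of_support_subset (s := {n : ℕ | IsPrimePow n}) ?_).2 hsum.hasSum
    intro n hn
    by_contra h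
    exact hn (hg0 n h)
  have h3 : HasSum (fun x : Nat.Primes × ℕ => g ((x.1 : ℕ) ^ (x.2 + 1))) (G (cf α) σ t) := by
    have := (Nat.Primes.prodNatEquiv.hasSum_iff).2 hPP
    exact this
  have h4 := (h3.prod_fiberwise hloc).cexp
  refine hF.unique (h4.congr_fun fun p => ?_)
  rw [Function.comp_apply, Complex.exp_sum]
  refine Finset.prod_congr rfl fun j _ => ?_
  have hz := hz1 p j
  have hne : 1 - α p j * ((p : ℕ) : ℂ) ^ (-s) ≠ 0 := by
    intro h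
    rw [sub_eq_zero] at h
    rw [← h, norm_one] at hz
    exact lt_irrefl _ hz
  rw [Complex.exp_neg, Complex.exp_log hne]

/-- the size of the coefficients -/
lemma cf_norm_le {m : ℕ} {α : ℕ → Fin m → ℂ} {θ : ℝ}
    (hα : ∀ p : ℕ, p.Prime → ∀ j, ‖α p j‖ ≤ (p : ℝ) ^ θ) (n : ℕ) (hn : Λ n ≠ 0) :
    ‖cf α n‖ ≤ m * (n : ℝ) ^ θ := by
  rw [ArithmeticFunction.vonMangoldt_ne_zero_iff] at hn
  obtain ⟨p, k, hp, hk, rfl⟩ := hn
  have hp' : p.Prime := hp.nat_prime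
  obtain ⟨k, rfl⟩ : ∃ j, k = j + 1 := ⟨k - 1, by omega⟩
  rw [cf_pow α hp']
  refine (norm_sum_le _ _).trans ?_
  have h1 : ∀ j ∈ (Finset.univ : Finset (Fin m)), ‖α p j ^ (k + 1)‖ ≤
      (((p ^ (k + 1) : ℕ) : ℝ)) ^ θ := by
    intro j _
    rw [norm_pow, Nat.cast_pow, ← Real.rpow_natCast ((p : ℝ)) (k + 1),
      ← Real.rpow_mul (by positivity), mul_comm, Real.rpow_mul (by positivity), Real.rpow_natCast]
    exact pow_le_pow_left₀ (norm_nonneg _) (hα p hp' j) _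
  refine (Finset.sum_le_sum h1).trans (le_of_eq ?_)
  simp

/-- twisting by `n^{-it}` -/
noncomputable def tw (c : ℕ → ℂ) (t : ℝ) (n : ℕ) : ℂ :=
  c n * Complex.exp (-(Real.log n * t : ℝ) * Complex.I)

lemma norm_tw (c : ℕ → ℂ) (t : ℝ) (n : ℕ) : ‖tw c t n‖ = ‖c n‖ := by
  unfold tw
  have : Complex.exp (-(Real.log n * t : ℝ) * Complex.I) =
    Complex.exp ((-(Real.log n * t) : ℝ) * Complex.I) := by push_cast; rfl
  rw [this, norm_mul, Complex.norm_exp_ofReal_mul_I, mul_one]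

lemma P_tw (c : ℕ → ℂ) (σ t : ℝ) : P (tw c t) σ = P c σ := by
  funext n
  unfold P
  rw [norm_tw]

lemma G_tw (c : ℕ → ℂ) (σ t u : ℝ) : G (tw c t) σ u = G c σ (u + t) := by
  unfold G
  refine tsum_congr fun n => ?_
  unfold tw
  have : Complex.exp (-(Real.log n * (u + t) : ℝ) * Complex.I) =
      Complex.exp (-(Real.log n * t : ℝ) * Complex.I) *
        Complex.exp (-(Real.log n * u : ℝ) * Complex.I) := by
    rw [← Complex.exp_add]
    congr 1
    push_cast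
    ring
  rw [this]
  ring

/-- linear growth of `log⁺ ‖F‖` from the order, the reflection and the Euler product -/
theorem growth_of {d Cn Q0 : ℝ} {c : ℕ → ℂ} {F : ℂ → ℂ} (hd : 0 ≤ d) (hCn : 0 ≤ Cn)
    (hQ : 1 ≤ Q0) (hF : Differentiable ℂ F)
    (hord : ∃ A : ℝ, ∀ s : ℂ, -1 / 4 ≤ s.re → s.re ≤ 5 / 4 →
      ‖F s‖ ≤ Real.exp (A * (1 + |s.im|) ^ A))
    (hexp : ∀ σ t : ℝ, 1 < σ → F (σ + t * Complex.I) = Complex.exp (G c σ t))
    (hP : ∀ σ : ℝ, 1 < σ → Summable (P c σ))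
    (hrefl : ∀ x t : ℝ, 0 ≤ x → x ≤ 3 / 4 → ‖F ((1 / 2 - x : ℝ) + t * Complex.I)‖ ≤
      Cn * (Q0 * (1 + |t|) ^ d) ^ x * ‖F ((1 / 2 + x : ℝ) + t * Complex.I)‖) :
    ∃ A1 B1 : ℝ, 0 ≤ B1 ∧ ∀ z : ℂ, -(1 / 4) ≤ z.re → z.re ≤ 5 / 4 →
      Real.posLog ‖F z‖ ≤ A1 + B1 * |z.im| := by
  have hQt : ∀ t : ℝ, 1 ≤ Q0 * (1 + |t|) ^ d := by
    intro t
    have h1 : 1 ≤ (1 + |t|) ^ d := Real.one_le_rpow (by linarith [abs_nonneg t]) hd
    nlinarith
  have hmk : ∀ x t : ℝ, ((x : ℝ) : ℂ) + t * Complex.I = ⟨x, t⟩ := by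
    intro x t
    apply Complex.ext <;> simp
  have hbig : ∀ δ : ℝ, 0 < δ → ∀ s : ℂ, 1 + δ ≤ s.re →
      ‖F s‖ ≤ Real.exp (2 * ∑' n, x c (1 + δ) n) := by
    intro δ hδ s hs
    have h1 := hexp s.re s.im (by linarith)
    rw [Complex.re_add_im] at h1
    rw [h1, Complex.norm_exp]
    apply Real.exp_le_exp.2
    refine (Complex.re_le_norm _).trans ?_
    have hs1 : 1 < s.re := by linarith
    refine (G_norm_le hs1 (hP _ hs1) s.im).trans ?_
    refine mul_le_mul_of_nonneg_left ?_ (by norm_num)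
    refine (summable_x hs1 (hP _ hs1)).tsum_le_tsum (fun n => ?_)
      (summable_x (by linarith : (1:ℝ) < 1 + δ) (hP _ (by linarith)))
    unfold x v
    rcases Nat.eq_zero_or_pos n with rfl | hn
    · simp
    · have hn1 : (1:ℝ) ≤ n := by exact_mod_cast hn
      have h1 : (n:ℝ) ^ (-s.re) ≤ (n:ℝ) ^ (-(1 + δ)) :=
        Real.rpow_le_rpow_of_exponent_le hn1 (by linarith)
      have h2 : 0 ≤ Λ n := ArithmeticFunction.vonMangoldt_nonneg
      gcongr
  have H : H855R2.SF.AFam (ι := Unit) d (fun _ => F) (fun _ t => Q0 * (1 + |t|) ^ d) := by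
    refine ⟨hd, fun _ t => hQt t, fun _ t u => ?_, fun _ => hF, fun _ => hord, ?_, ?_⟩
    · have h2 : 1 + |t + u| ≤ (1 + |u|) * (1 + |t|) := by
        have := abs_add_le t u
        nlinarith [abs_nonneg t, abs_nonneg u, mul_nonneg (abs_nonneg t) (abs_nonneg u)]
      calc Q0 * (1 + |t + u|) ^ d ≤ Q0 * ((1 + |u|) * (1 + |t|)) ^ d := by
            gcongr
        _ = (1 + |u|) ^ d * (Q0 * (1 + |t|) ^ d) := by
            rw [Real.mul_rpow (by positivity) (by positivity)]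
            ring
    · intro δ hδ
      refine ⟨Real.exp (2 * ∑' n, x c (1 + δ) n), fun _ s hs => ?_⟩
      refine (hbig δ hδ s hs).trans ?_
      apply le_mul_of_one_le_right (Real.exp_pos _).le
      exact Real.one_le_rpow (hQt _) hδ.le
    · refine ⟨Cn, hCn, fun _ x t hx0 hx1 => ?_⟩
      have := hrefl x t hx0 hx1
      rwa [hmk, hmk] at this
  set M : ℝ := Real.exp (2 * ∑' n, x c (1 + 1 / 4) n) with hM
  have hM0 : 0 < M := Real.exp_pos _
  obtain ⟨C, hC, hpl⟩ := H855R2.SF.pl H (a := -1 / 4) (b := 5 / 4) (ea := 3 / 4) (eb := 0)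
    (Ca := Cn * M) (Cb := M) (by norm_num) le_rfl le_rfl (by norm_num) le_rfl (by positivity)
    hM0.le
  have h1 := hpl () (fun t => by
      have h2 := hrefl (3 / 4) t (by norm_num) le_rfl
      rw [hmk, hmk] at h2
      have h3 := hbig (1 / 4) (by norm_num) ⟨1 / 2 + 3 / 4, t⟩ (by norm_num)
      have e1 : ((1 / 2 - 3 / 4 : ℝ)) = -1 / 4 := by norm_num
      rw [e1] at h2
      have h4 : 0 ≤ (Q0 * (1 + |t|) ^ d) ^ (3 / 4 : ℝ) :=
        Real.rpow_nonneg (by linarith [hQt t]) _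
      calc ‖F ⟨-1 / 4, t⟩‖ ≤ Cn * (Q0 * (1 + |t|) ^ d) ^ (3 / 4 : ℝ) * ‖F ⟨1 / 2 + 3 / 4, t⟩‖ := h2
        _ ≤ Cn * (Q0 * (1 + |t|) ^ d) ^ (3 / 4 : ℝ) * M := by gcongr
        _ = _ := by ring)
    (fun t => by
      have h3 := hbig (1 / 4) (by norm_num) ⟨5 / 4, t⟩ (by norm_num)
      rw [Real.rpow_zero, mul_one]
      exact h3)
  refine ⟨Real.posLog C + 3 / 4 * Real.log Q0, 3 / 4 * d, by positivity, fun z hz1 hz2 => ?_⟩
  have h2 := h1 z (by linarith) hz2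
  have h3 : (Q0 * (1 + |z.im|) ^ d) ^ (3 / 4 + (0 - 3 / 4) / (5 / 4 - -1 / 4) * (z.re - -1 / 4)) ≤
      (Q0 * (1 + |z.im|) ^ d) ^ (3 / 4 : ℝ) := by
    apply Real.rpow_le_rpow_of_exponent_le (hQt _)
    linarith
  have h4 : ‖F z‖ ≤ C * (Q0 * (1 + |z.im|) ^ d) ^ (3 / 4 : ℝ) :=
    h2.trans (mul_le_mul_of_nonneg_left h3 hC)
  refine (Real.posLog_le_posLog (norm_nonneg _) h4).trans ?_
  refine Real.posLog_mul.trans ?_
  have h5 : 1 ≤ (Q0 * (1 + |z.im|) ^ d) ^ (3 / 4 : ℝ) := Real.one_le_rpow (hQt _) (by norm_num)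
  rw [Real.posLog_eq_log (x := (Q0 * (1 + |z.im|) ^ d) ^ (3 / 4 : ℝ))
    (by rw [abs_of_nonneg (by linarith)]; exact h5),
    Real.log_rpow (by linarith [hQt z.im]),
    Real.log_mul (by linarith) (by positivity), Real.log_rpow (by positivity)]
  have h6 : Real.log (1 + |z.im|) ≤ |z.im| := by
    have := Real.log_le_sub_one_of_pos (by positivity : 0 < 1 + |z.im|)
    linarith
  have h7 : d * Real.log (1 + |z.im|) ≤ d * |z.im| := mul_le_mul_of_nonneg_left h6 hd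
  linarith

/-- the reflection in terms of the conductor at the point -/
theorem refl_at {m N : ℕ} (hN : 0 < N) (μ : Fin m → ℂ) (hμ : ∀ j, -(1 / 2) < (μ j).re)
    {w : ℂ} (hw : ‖w‖ = 1) {f : ℂ → ℂ}
    (hfe : ∀ s : ℂ, f s * ∏ j, (Complex.Gammaℝ (1 - s + (starRingEnd ℂ) (μ j)))⁻¹ =
      w * (N : ℂ) ^ (1 / 2 - s) * (starRingEnd ℂ) (f (1 - (starRingEnd ℂ) s)) *
        ∏ j, (Complex.Gammaℝ (s + μ j))⁻¹)
    (T : ℝ) {x t : ℝ} (hx0 : 0 ≤ x) (hx1 : x ≤ 3 / 4) :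
    ‖f (((1 / 2 - x : ℝ) + t * Complex.I) + T * Complex.I)‖ ≤
      24 ^ m * ((N * ∏ j, (1 + ‖1 / 2 + T * Complex.I + μ j‖)) * (1 + |t|) ^ (m : ℝ)) ^ x *
        ‖f (((1 / 2 + x : ℝ) + t * Complex.I) + T * Complex.I)‖ := by
  have h1 := H855R2.SF.refl_of_fe hN (fun j => -μ j) (fun j => by
      simp only [Complex.neg_re]; linarith [hμ j]) hw (f := f)
    (fun s => by
      have := hfe s
      simp only [map_neg, sub_neg_eq_add]
      exact this) (t := t + T) hx0 hx1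
  have e1 : ∀ y : ℝ, ((y : ℝ) : ℂ) + t * Complex.I + T * Complex.I = ⟨y, t + T⟩ := by
    intro y
    apply Complex.ext <;> simp
  rw [e1, e1]
  refine h1.trans ?_
  refine mul_le_mul_of_nonneg_right ?_ (norm_nonneg _)
  have h2 : ∏ j, (1 + ‖-μ j - ((t + T : ℝ) : ℂ) * Complex.I‖) ≤
      (3 / 2) ^ m * ((1 + |t|) ^ (m : ℝ) * ∏ j, (1 + ‖1 / 2 + T * Complex.I + μ j‖)) := by
    have e2 : ((3:ℝ) / 2) ^ m = ∏ _j : Fin m, ((3:ℝ) / 2) := by
      rw [Finset.prod_const, Finset.card_univ, Fintype.card_fin]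
    have e3 : (1 + |t|) ^ (m : ℝ) = ∏ _j : Fin m, (1 + |t|) := by
      rw [Real.rpow_natCast]; simp
    rw [e2, e3, ← Finset.prod_mul_distrib, ← Finset.prod_mul_distrib]
    apply Finset.prod_le_prod (fun _ _ => by positivity)
    intro j _
    have h3 : ‖-μ j - ((t + T : ℝ) : ℂ) * Complex.I‖ ≤
        ‖1 / 2 + T * Complex.I + μ j‖ + (1 / 2 + |t|) := by
      have e4 : -μ j - ((t + T : ℝ) : ℂ) * Complex.I =
          -(1 / 2 + T * Complex.I + μ j) + (((1 / 2 : ℝ) : ℂ) - t * Complex.I) := by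
        push_cast; ring
      rw [e4]
      refine (norm_add_le _ _).trans ?_
      rw [norm_neg]
      have e5 : ‖(((1 / 2 : ℝ) : ℂ) - t * Complex.I)‖ ≤ 1 / 2 + |t| := by
        refine (norm_sub_le _ _).trans ?_
        rw [norm_mul, Complex.norm_real, Complex.norm_real, Complex.norm_I, mul_one,
          Real.norm_eq_abs, Real.norm_eq_abs, abs_of_pos (by norm_num : (0:ℝ) < 1 / 2)]
      linarith
    have h4 := norm_nonneg (1 / 2 + T * Complex.I + μ j)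
    have h5 := abs_nonneg t
    nlinarith [mul_nonneg h4 h5]
  have h0 : 0 ≤ ∏ j, (1 + ‖-μ j - ((t + T : ℝ) : ℂ) * Complex.I‖) :=
    Finset.prod_nonneg fun j _ => by positivity
  set R : ℝ := (N * ∏ j, (1 + ‖1 / 2 + T * Complex.I + μ j‖)) * (1 + |t|) ^ (m : ℝ) with hR
  have hR0 : 0 ≤ R := by
    have : 0 ≤ ∏ j, (1 + ‖1 / 2 + T * Complex.I + μ j‖) :=
      Finset.prod_nonneg fun j _ => by positivity
    positivity
  have h6 : (N:ℝ) * ∏ j, (1 + ‖-μ j - ((t + T : ℝ) : ℂ) * Complex.I‖) ≤ (3 / 2) ^ m * R := by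
    calc (N:ℝ) * ∏ j, (1 + ‖-μ j - ((t + T : ℝ) : ℂ) * Complex.I‖) ≤
        N * ((3 / 2) ^ m * ((1 + |t|) ^ (m : ℝ) * ∏ j, (1 + ‖1 / 2 + T * Complex.I + μ j‖))) :=
          mul_le_mul_of_nonneg_left h2 (Nat.cast_nonneg _)
      _ = _ := by rw [hR]; ring
  have h7 : ((3:ℝ) / 2) ^ m = ((3:ℝ) / 2) ^ (m : ℝ) := (Real.rpow_natCast _ _).symm
  calc 16 ^ m * ((N:ℝ) * ∏ j, (1 + ‖-μ j - ((t + T : ℝ) : ℂ) * Complex.I‖)) ^ x
      ≤ 16 ^ m * ((3 / 2) ^ m * R) ^ x := by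
        refine mul_le_mul_of_nonneg_left ?_ (by positivity)
        exact Real.rpow_le_rpow (by positivity) h6 hx0
    _ = 16 ^ m * (((3 / 2) ^ m) ^ x * R ^ x) := by rw [Real.mul_rpow (by positivity) hR0]
    _ ≤ 16 ^ m * ((3 / 2) ^ m * R ^ x) := by
        refine mul_le_mul_of_nonneg_left ?_ (by positivity)
        refine mul_le_mul_of_nonneg_right ?_ (Real.rpow_nonneg hR0 x)
        have h8 : (1:ℝ) ≤ (3 / 2) ^ m := one_le_pow₀ (by norm_num)
        calc (((3:ℝ) / 2) ^ m) ^ x ≤ (((3:ℝ) / 2) ^ m) ^ (1:ℝ) :=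
              Real.rpow_le_rpow_of_exponent_le h8 (by linarith)
          _ = _ := Real.rpow_one _
    _ = 24 ^ m * R ^ x := by
        rw [← mul_assoc, ← mul_pow]
        norm_num

end Pool.Agent.R402.Eul
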