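import Mathlib

/-!
# Splitting off finitely many zeros of an entire function
-/

set_option autoImplicit false

open Filter Topology Set

namespace Pool.Agent.R402.Fact

lemma factor_one {f : ℂ → ℂ} (hf : Differentiable ℂ f) (ρ : ℂ) (n : ℕ)
    (hn : (n : ℕ∞) ≤ analyticOrderAt f ρ) :
    ∃ g : ℂ → ℂ, Differentiable ℂ g ∧ ∀ z, f z = (z - ρ) ^ n * g z := by
  obtain ⟨g, hg, hfg⟩ := (natCast_le_analyticOrderAt (hf.analyticAt ρ)).1 hn
  have hgρ : f ρ = (ρ - ρ) ^ n * g ρ := by
    have := hfg.self_of_nhds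
    simpa using this
  set G : ℂ → ℂ := Function.update (fun z => f z / (z - ρ) ^ n) ρ (g ρ) with hG
  have hGg : G =ᶠ[𝓝 ρ] g := by
    filter_upwards [hfg] with z hz
    by_cases h : z = ρ
    · rw [h, hG, Function.update_self]
    · rw [hG, Function.update_of_ne h, hz, smul_eq_mul]
      have : (z - ρ) ^ n ≠ 0 := pow_ne_zero _ (sub_ne_zero.2 h)
      field_simp
  refine ⟨G, fun z => ?_, fun z => ?_⟩
  · by_cases h : z = ρ
    · rw [h]
      exact (hg.differentiableAt).congr_of_eventuallyEq hGg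
    · have h1 : DifferentiableAt ℂ (fun z => f z / (z - ρ) ^ n) z := by
        refine (hf z).div (by fun_prop) ?_
        exact pow_ne_zero _ (sub_ne_zero.2 h)
      refine h1.congr_of_eventuallyEq ?_
      filter_upwards [isOpen_ne.mem_nhds h] with w hw
      rw [hG, Function.update_of_ne hw]
  · by_cases h : z = ρ
    · rw [h, hG, Function.update_self]
      exact hgρ
    · rw [hG, Function.update_of_ne h]
      have : (z - ρ) ^ n ≠ 0 := pow_ne_zero _ (sub_ne_zero.2 h)
      field_simp

theorem factor_all {f : ℂ → ℂ} (hf : Differentiable ℂ f) (S : Finset ℂ) :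
    ∃ g : ℂ → ℂ, Differentiable ℂ g ∧
      ∀ z, f z = (∏ ρ ∈ S, (z - ρ) ^ analyticOrderNatAt f ρ) * g z := by
  classical
  induction S using Finset.induction_on with
  | empty => exact ⟨f, hf, fun z => by simp⟩
  | insert ρ S hρ ih =>
    obtain ⟨g, hg, hfg⟩ := ih
    set P : ℂ → ℂ := fun z => ∏ ρ ∈ S, (z - ρ) ^ analyticOrderNatAt f ρ with hP
    have hPan : AnalyticAt ℂ P ρ := Finset.analyticAt_fun_prod S (fun ρ _ => by fun_prop)
    have hPne : P ρ ≠ 0 := by
      rw [hP]
      refine Finset.prod_ne_zero_iff.2 fun w hw => pow_ne_zero _ (sub_ne_zero.2 ?_)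
      rintro rfl
      exact hρ hw
    have hfe : f = P * g := by
      funext z
      exact hfg z
    have h1 : analyticOrderAt f ρ = analyticOrderAt P ρ + analyticOrderAt g ρ := by
      conv_lhs => rw [hfe]
      exact analyticOrderAt_mul hPan (hg.analyticAt ρ)
    rw [hPan.analyticOrderAt_eq_zero.2 hPne, zero_add] at h1
    obtain ⟨g', hg', hgg'⟩ := factor_one hg ρ (analyticOrderNatAt f ρ) (by
      rw [← h1]
      exact ENat.natCast_toNat_le_self _)
    refine ⟨g', hg', fun z => ?_⟩
    rw [Finset.prod_insert hρ, hfg z, hgg' z]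
    ring

end Pool.Agent.R402.Fact
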