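import Mathlib
import Pool.Agent.R402.Core

/-!
# The bound at the central point, with explicit parameters
-/

set_option autoImplicit false

open MeasureTheory Filter Topology Set Real
open scoped ArithmeticFunction.vonMangoldt

namespace Pool.Agent.R402.Fin

open Pool.Agent.R402.Strip Pool.Agent.R402.Kern Pool.Agent.R402.Edge
open Pool.Agent.R402.MeanSq Pool.Agent.R402.Ser Pool.Agent.R402.Core

/-- the parameters -/
structure Par (l y δ : ℝ) : Prop where
  l4 : 4 ≤ l
  y0 : 0 ≤ y
  y1 : y + 1 ≤ 2 * Real.log l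
  y2 : y / l ≤ 1 / 4
  y3 : (y + 1) / l ≤ 1 / 2
  y4 : y / l ≤ δ
  y5 : (y + 1) / l * ((y + 1) / 2 + 1) ≤ 1
  ll : 1 ≤ Real.log l
  lq : Real.log l ^ 2 ≤ l
  ey : Real.exp (y / 2) = √l / Real.log l ^ 2

lemma V_cont_right {c : ℕ → ℂ} {σ : ℝ} (hσ : 1 < σ) (hP : Summable (P c σ)) (q t : ℝ) :
    Continuous (fun r => V c σ q t r) := by
  unfold V Y
  have hD := D_continuous hσ hP
  have h1 : Continuous (fun r : ℝ => ∫ s in (0:ℝ)..1, ‖D c σ (t + r * s)‖ ^ 2) := by
    apply intervalIntegral.continuous_parametric_intervalIntegral_of_continuous'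
    fun_prop
  fun_prop

section
variable {d Cn θ A Q0 : ℝ} {c : ℕ → ℂ} {F : ℂ → ℂ}

lemma log_add_le (t r : ℝ) :
    Real.log (1 + |t + r|) ≤ Real.log (1 + |t|) + Real.log (1 + |r|) := by
  rw [← Real.log_mul (by positivity) (by positivity)]
  apply Real.log_le_log (by positivity)
  have := abs_add_le t r
  nlinarith [abs_nonneg t, abs_nonneg r, mul_nonneg (abs_nonneg t) (abs_nonneg r)]

/-- the reflection factor -/
lemma refl_factor (hCn : 1 ≤ Cn) (hQ : 1 ≤ Q0) {x : ℝ} (t : ℝ) :
    Cn * (Q0 * (1 + |t|) ^ d) ^ x =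
      Real.exp (Real.log Cn + x * (Real.log Q0 + d * Real.log (1 + |t|))) := by
  have h1 : 0 < 1 + |t| := by positivity
  have h2 : 0 < (1 + |t|) ^ d := Real.rpow_pos_of_pos h1 d
  have h3 : 0 < Q0 * (1 + |t|) ^ d := by positivity
  rw [Real.exp_add, Real.exp_log (by linarith), Real.rpow_def_of_pos h3,
    Real.log_mul (by linarith) h2.ne', Real.log_rpow h1]
  congr 2
  ring

/-- the near edge bound on the line `Re s = 1 + κ - a` -/
lemma edge_all (H : Hyp d Cn θ A Q0 c F) (hd : 0 ≤ d) (hCn : 1 ≤ Cn) {κ a lam q : ℝ}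
    (hκ : 0 < κ) (hκ1 : κ ≤ 1 / 4) (ha : 0 < a) (ha1 : a ≤ 1 / 2) (hlam : 0 < lam)
    (hlam1 : lam ≤ 1) (hq : 0 < q) (t : ℝ) :
    ‖F ((1 + κ - a : ℝ) + t * Complex.I)‖ ≤ Real.exp ((G c (1 + κ) t).re + (Real.log 2 +
      max 0 ((1 - a / (1 + 2 * κ)) * (Real.log lam - 1) + a / (1 + 2 * κ) * (Real.log 2 +
        (Real.log Cn + (1 / 2 + κ) * (Real.log Q0 + d * Real.log (1 + |t|))))) +
      d * (∫ r : ℝ, KK (1 / 2 + κ) (π - π * a / (2 * (1 / 2 + κ))) r * (|r| * Real.exp |r|)) +
      (1 / lam + 1) * ∫ r : ℝ, KK (1 / 2 + κ) (π - π * a / (2 * (1 / 2 + κ))) r *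
        V c (1 + κ) q t r)) := by
  have hσ : 1 < 1 + κ := by linarith
  have hP := H.summ (1 + κ) hσ
  obtain ⟨A1, B1, hB1, hg⟩ := H.growth
  have hFline : ∀ r : ℝ, F (1 + κ + r * Complex.I) = Complex.exp (G c (1 + κ) r) := by
    intro r
    have := H.exp_eq (1 + κ) r hσ
    rw [← this]
    push_cast
    rfl
  have hQ := H.one_le
  have hlC : 0 ≤ Real.log Cn := Real.log_nonneg hCn
  have hlQ : 0 ≤ Real.log Q0 := Real.log_nonneg hQ
  have hlt := log_one_add_nonneg t
  have key := edge_point (F := fun z => F (z + t * Complex.I)) (κ := κ) (a := a) (lam := lam)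
    (L0 := Real.log Cn + (1 / 2 + κ) * (Real.log Q0 + d * Real.log (1 + |t|)))
    (L1 := d) (A := A1 + B1 * |t|) (B := B1)
    (M := 1 / 2 * (q + q⁻¹ * (∑' n, x c (1 + κ) n) ^ 2))
    (V := fun r => V c (1 + κ) q t r) hκ hκ1 ha ha1 hlam hlam1
    (H.diff.comp (by fun_prop)) hB1
    (fun z hz1 hz2 => by
      have h1 := hg (z + t * Complex.I) (by simp; linarith) (by simp; linarith)
      have h2 : (z + t * Complex.I).im = z.im + t := by simp
      rw [h2] at h1
      have h3 := abs_add_le z.im t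
      nlinarith)
    (V_cont_right hσ hP q t) (fun r => V_nonneg hq t r)
    (fun r => by
      refine (V_le hq hσ hP t r).trans ?_
      refine mul_le_mul_of_nonneg_left (abs_le_sq r) ?_
      positivity)
    (by
      have : (1 + κ + t * Complex.I : ℂ) = 1 + κ + t * Complex.I := rfl
      rw [hFline t]
      exact Complex.exp_ne_zero _)
    (fun r => by
      refine ⟨G c (1 + κ) (t + r) - G c (1 + κ) t, G_sub_le hq hσ hP t r, ?_⟩
      have e1 : (1 + κ + r * Complex.I + t * Complex.I : ℂ) =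
          1 + κ + ((t + r : ℝ) : ℂ) * Complex.I := by push_cast; ring
      rw [e1, hFline, hFline, ← Complex.exp_add]
      congr 1
      ring)
    (by positivity) hd
    (fun r => by
      have h1 := H.refl (1 / 2 + κ) (t + r) (by linarith) (by linarith)
      rw [refl_factor hCn hQ] at h1
      have e1 : (-κ + r * Complex.I + t * Complex.I : ℂ) =
          ((1 / 2 - (1 / 2 + κ) : ℝ) : ℂ) + ((t + r : ℝ) : ℂ) * Complex.I := by push_cast; ring
      have e2 : (1 + κ + r * Complex.I + t * Complex.I : ℂ) =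
          ((1 / 2 + (1 / 2 + κ) : ℝ) : ℂ) + ((t + r : ℝ) : ℂ) * Complex.I := by push_cast; ring
      rw [e1, e2]
      refine h1.trans ?_
      refine mul_le_mul_of_nonneg_right ?_ (norm_nonneg _)
      apply Real.exp_le_exp.2
      have h3 := log_add_le t r
      have h4 := log_one_add_nonneg r
      have h5 : (1 / 2 + κ) * (d * Real.log (1 + |t + r|)) ≤
          (1 / 2 + κ) * (d * (Real.log (1 + |t|) + Real.log (1 + |r|))) := by gcongr
      have h6 : (1 / 2 + κ) * (d * Real.log (1 + |r|)) ≤ 1 * (d * Real.log (1 + |r|)) := by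
        refine mul_le_mul_of_nonneg_right (by linarith) (by positivity)
      linarith)
  have e1 : ((1 + κ - a : ℝ) : ℂ) + t * Complex.I = 1 + κ - a + t * Complex.I := by push_cast; ring
  rw [e1]
  refine key.trans (le_of_eq ?_)
  rw [hFline t, Complex.norm_exp, ← Real.exp_add]

/-- the moment bound in terms of `l` -/
lemma J_bound {l y δ : ℝ} (p : Par l y δ) :
    Integrable (fun r : ℝ => KK (1 / 2 + 1 / l) (π - π * ((y + 1) / l) / (2 * (1 / 2 + 1 / l))) r *
      (|r| * Real.exp |r|)) ∧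
    ∫ r : ℝ, KK (1 / 2 + 1 / l) (π - π * ((y + 1) / l) / (2 * (1 / 2 + 1 / l))) r *
      (|r| * Real.exp |r|) ≤ 64000 * Real.exp 1 * (Real.log l ^ 2 / l) := by
  have hl := p.l4
  have hl0 : 0 < l := by linarith
  have hy0 := p.y0
  have hll := p.ll
  have hκ : 1 / l ≤ 1 / 4 := by
    rw [div_le_div_iff₀ hl0 (by norm_num)]; linarith
  have hκ0 : 0 < 1 / l := by positivity
  have ha : 0 < (y + 1) / l := by positivity
  obtain ⟨h1, h2⟩ := KK_moment (h := 1 / 2 + 1 / l) (a := (y + 1) / l) (η := 1 / Real.log l)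
    (by linarith) (by linarith) ha p.y3 (by positivity)
    (by rw [div_le_one (by linarith)]; exact hll)
  refine ⟨h1, h2.trans ?_⟩
  have h3 : ((y + 1) / l) ^ (-(1 / Real.log l)) ≤ Real.exp 1 := by
    have h4 : l⁻¹ ≤ (y + 1) / l := by
      rw [inv_eq_one_div]
      gcongr
      linarith
    have h5 : ((y + 1) / l) ^ (-(1 / Real.log l)) ≤ (l⁻¹) ^ (-(1 / Real.log l)) := by
      apply Real.rpow_le_rpow_of_nonpos (by positivity) h4
      have : 0 < 1 / Real.log l := by positivity
      linarith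
    refine h5.trans (le_of_eq ?_)
    rw [Real.inv_rpow hl0.le, Real.rpow_neg hl0.le, inv_inv, Real.rpow_def_of_pos hl0]
    congr 1
    field_simp
  have h6 : 32000 * ((y + 1) / l * ((y + 1) / l) ^ (-(1 / Real.log l))) / (1 / Real.log l) =
      32000 * ((y + 1) / l * ((y + 1) / l) ^ (-(1 / Real.log l))) * Real.log l := by
    field_simp
  rw [h6]
  have h7 := p.y1
  have h8 : (y + 1) / l ≤ 2 * Real.log l / l := by gcongr
  calc 32000 * ((y + 1) / l * ((y + 1) / l) ^ (-(1 / Real.log l))) * Real.log l ≤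
      32000 * (2 * Real.log l / l * Real.exp 1) * Real.log l := by
        have : 0 ≤ ((y + 1) / l) ^ (-(1 / Real.log l)) := Real.rpow_nonneg ha.le _
        gcongr
    _ = _ := by ring

/-- the constant of the final bound -/
noncomputable def K0 (d Cn δ A : ℝ) : ℝ :=
  3 * BG d δ + 2 * Real.log 2 + 2 * Real.log Cn + 2 * d * C6 + d * (64000 * Real.exp 1) +
    128000 * Real.exp 1 * Real.exp (1 / 2) * (1 / 2 + 4 * (C2 * |A|))

theorem core_bound (H : Hyp d Cn θ A Q0 c F) (hd : 0 ≤ d) (hCn : 1 ≤ Cn) {l y δ : ℝ}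
    (hδ : 0 < δ) (hδθ : θ + 2 * δ ≤ 1 / 2) (p : Par l y δ) (hQl : Real.log Q0 ≤ l) :
    ‖F (1 / 2)‖ ≤ Real.exp (K0 d Cn δ A + (1 / 2 - y / l) / 2 * Real.log Q0) := by
  have hl := p.l4
  have hl0 : 0 < l := by linarith
  have hy0 := p.y0
  have hy2 := p.y2
  have hy4 := p.y4
  have hll := p.ll
  set κ : ℝ := 1 / l with hκdef
  set a : ℝ := (y + 1) / l with hadef
  set α : ℝ := y / l with hαdef
  have hα0 : 0 ≤ α := by positivity
  have haκ : a = α + κ := by rw [hadef, hαdef, hκdef]; ring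
  have hκ : κ ≤ 1 / 4 := by
    rw [hκdef, div_le_div_iff₀ hl0 (by norm_num)]; linarith
  have hκ0 : 0 < κ := by positivity
  have ha0 : 0 < a := by linarith
  have hσ : 1 < 1 + κ := by linarith
  have hP := H.summ (1 + κ) hσ
  have hQ := H.one_le
  have hlC : 0 ≤ Real.log Cn := Real.log_nonneg hCn
  have hlQ : 0 ≤ Real.log Q0 := Real.log_nonneg hQ
  have hlog2 : 0 < Real.log 2 := Real.log_pos (by norm_num)
  set q : ℝ := √l with hqdef
  have hq : 0 < q := Real.sqrt_pos.2 hl0
  have hqq : q * q = l := Real.mul_self_sqrt hl0.le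
  set lam : ℝ := Real.exp (-((y + 1) / 2)) with hlamdef
  have hlam0 : 0 < lam := Real.exp_pos _
  have hlam1 : lam ≤ 1 := by
    rw [hlamdef]; apply Real.exp_le_one_iff.2; linarith
  have hloglam : Real.log lam = -((y + 1) / 2) := by rw [hlamdef, Real.log_exp]
  set h : ℝ := 1 / 2 - α with hh
  have hh0 : 1 / 4 ≤ h := by linarith
  have hhp : 0 < h := by linarith
  have hh1 : h ≤ 1 / 2 := by linarith
  obtain ⟨hJi, hJ⟩ := J_bound p
  rw [← hκdef, ← hadef] at hJi hJ
  have hφ : π - π * a / (2 * (1 / 2 + κ)) ∈ Ioo 0 π := by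
    have hpi := Real.pi_pos
    have ha1 : a ≤ 1 / 2 := p.y3
    have e1 : 0 < π * a / (2 * (1 / 2 + κ)) := by positivity
    have e2 : π * a / (2 * (1 / 2 + κ)) < π := by
      rw [div_lt_iff₀ (by positivity)]
      exact mul_lt_mul_of_pos_left (by linarith) hpi
    constructor <;> linarith
  set w : ℝ → ℝ := KK (1 / 2 + κ) (π - π * a / (2 * (1 / 2 + κ))) with hwdef
  have hw0 : ∀ r, 0 ≤ w r := KK_nonneg (by linarith) hφ
  have hwc : Continuous w := KK_continuous (by linarith) hφ
  set J : ℝ := ∫ r : ℝ, w r * (|r| * Real.exp |r|) with hJdef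
  have hJ0 : 0 ≤ J := integral_nonneg fun r => mul_nonneg (hw0 r) (by positivity)
  obtain ⟨hVi, hVm⟩ := mean_V (c := c) (k := kc h) hσ hP (kc_continuous hhp) (kc_nonneg hhp)
    (kc_le hh0 hh1) (kc_mass hhp) hq hwc hw0 hJi
  rw [← hJdef] at hVm
  -- the size of the mean of the majorant
  have hsumP : ∑' n, P c (1 + κ) n ≤ |A| * (2 * l) := by
    have h1 := H.rankin (1 + κ) hσ (by linarith)
    have e1 : 1 + κ - 1 = κ := by ring
    have e2 : 1 / κ = l := by rw [hκdef]; field_simp
    rw [e1, e2] at h1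
    calc ∑' n, P c (1 + κ) n ≤ A * (l + Real.log Q0) := h1
      _ ≤ |A| * (l + Real.log Q0) := by
          apply mul_le_mul_of_nonneg_right (le_abs_self A); linarith
      _ ≤ |A| * (2 * l) := by
          apply mul_le_mul_of_nonneg_left _ (abs_nonneg A); linarith
  have hlamq : (1 / lam + 1) * ((1 / 2 * q + 2 * q⁻¹ * (C2 * ∑' n, P c (1 + κ) n)) * J) ≤
      128000 * Real.exp 1 * Real.exp (1 / 2) * (1 / 2 + 4 * (C2 * |A|)) := by
    have hC2 := C2_nonneg
    have e1 : 1 / lam = Real.exp (1 / 2) * Real.exp (y / 2) := by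
      rw [hlamdef, Real.exp_neg, one_div, inv_inv, ← Real.exp_add]
      congr 1
      ring
    have e2 : 1 / lam + 1 ≤ 2 * (Real.exp (1 / 2) * Real.exp (y / 2)) := by
      have : 1 ≤ 1 / lam := by rw [le_div_iff₀ hlam0]; linarith
      rw [← e1]; linarith
    have e3 : 1 / 2 * q + 2 * q⁻¹ * (C2 * ∑' n, P c (1 + κ) n) ≤
        q * (1 / 2 + 4 * (C2 * |A|)) := by
      have e4 : C2 * ∑' n, P c (1 + κ) n ≤ C2 * (|A| * (2 * l)) :=
        mul_le_mul_of_nonneg_left hsumP hC2
      have e5 : 2 * q⁻¹ * (C2 * (|A| * (2 * l))) = q * (4 * (C2 * |A|)) := by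
        rw [← hqq]; field_simp; ring
      have e6 : 2 * q⁻¹ * (C2 * ∑' n, P c (1 + κ) n) ≤ 2 * q⁻¹ * (C2 * (|A| * (2 * l))) :=
        mul_le_mul_of_nonneg_left e4 (by positivity)
      linarith
    have e7 : 0 ≤ 1 / 2 * q + 2 * q⁻¹ * (C2 * ∑' n, P c (1 + κ) n) := by
      have : 0 ≤ ∑' n, P c (1 + κ) n := tsum_nonneg fun n => P_nonneg c _ n
      positivity
    have e8 : (1 / 2 * q + 2 * q⁻¹ * (C2 * ∑' n, P c (1 + κ) n)) * J ≤
        q * (1 / 2 + 4 * (C2 * |A|)) * (64000 * Real.exp 1 * (Real.log l ^ 2 / l)) :=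
      mul_le_mul e3 hJ hJ0 (by positivity)
    have e9 : (1 / lam + 1) * ((1 / 2 * q + 2 * q⁻¹ * (C2 * ∑' n, P c (1 + κ) n)) * J) ≤
        2 * (Real.exp (1 / 2) * Real.exp (y / 2)) * (q * (1 / 2 + 4 * (C2 * |A|)) *
          (64000 * Real.exp 1 * (Real.log l ^ 2 / l))) :=
      mul_le_mul e2 e8 (mul_nonneg e7 hJ0) (by positivity)
    refine e9.trans (le_of_eq ?_)
    rw [p.ey, ← hqdef]
    have hll0 : Real.log l ≠ 0 := by linarith
    rw [show 2 * (Real.exp (1 / 2) * (q / Real.log l ^ 2)) * (q * (1 / 2 + 4 * (C2 * |A|)) *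
      (64000 * Real.exp 1 * (Real.log l ^ 2 / l))) = 128000 * Real.exp 1 * Real.exp (1 / 2) *
      (1 / 2 + 4 * (C2 * |A|)) * ((q * q) / l) * (Real.log l ^ 2 / Real.log l ^ 2) by ring, hqq,
      div_self hl0.ne', div_self (pow_ne_zero 2 hll0)]
    ring
  have hJ1 : J ≤ 64000 * Real.exp 1 := by
    refine hJ.trans ?_
    have h2 : Real.log l ^ 2 / l ≤ 1 := by rw [div_le_one hl0]; exact p.lq
    exact mul_le_of_le_one_right (by positivity) h2
  -- the boundary majorants
  set Ψ : ℝ → ℝ := fun t => ∫ r : ℝ, w r * V c (1 + κ) q t r with hΨdef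
  have hΨ0 : ∀ t, 0 ≤ Ψ t := fun t => integral_nonneg fun r => mul_nonneg (hw0 r) (V_nonneg hq t r)
  set R : ℝ → ℝ := fun t => Real.log 2 + (Real.log 2 + Real.log Cn + d * Real.log (1 + |t|)) +
    d * J + (1 / lam + 1) * Ψ t with hRdef
  have hlam2 : 0 ≤ 1 / lam + 1 := by positivity
  have hR0 : ∀ t, 0 ≤ R t := by
    intro t
    have h1 := log_one_add_nonneg t
    have h2 := hΨ0 t
    simp only [hRdef]
    positivity
  have hedge : ∀ t : ℝ, ‖F ((1 - α : ℝ) + t * Complex.I)‖ ≤
      Real.exp ((G c (1 + κ) t).re + R t) := by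
    intro t
    have h1 := edge_all H hd hCn hκ0 hκ ha0 p.y3 hlam0 hlam1 hq t
    have e1 : 1 + κ - a = 1 - α := by rw [haκ]; ring
    rw [e1] at h1
    refine h1.trans (Real.exp_le_exp.2 ?_)
    have h2 := log_one_add_nonneg t
    have h3 : max 0 ((1 - a / (1 + 2 * κ)) * (Real.log lam - 1) + a / (1 + 2 * κ) * (Real.log 2 +
        (Real.log Cn + (1 / 2 + κ) * (Real.log Q0 + d * Real.log (1 + |t|))))) ≤
        Real.log 2 + Real.log Cn + d * Real.log (1 + |t|) := by
      refine max_le (by positivity) ?_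
      rw [hloglam]
      set b : ℝ := a / (1 + 2 * κ) with hb
      have hb0 : 0 ≤ b := by positivity
      have hba : b ≤ a := by
        rw [hb, div_le_iff₀ (by positivity)]
        exact le_mul_of_one_le_right ha0.le (by linarith)
      have hb1 : b ≤ 1 := hba.trans (p.y3.trans (by norm_num))
      have hbk : b * (1 / 2 + κ) = a / 2 := by
        rw [hb]; field_simp
      have hal : a / 2 * Real.log Q0 ≤ (y + 1) / 2 := by
        have e7 : a * l = y + 1 := by rw [hadef]; field_simp
        have e8 := mul_le_mul_of_nonneg_left hQl ha0.le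
        linarith
      have hy5 := p.y5
      rw [← hadef] at hy5
      have h4 : b * ((y + 1) / 2 + 1) ≤ 1 :=
        (mul_le_mul_of_nonneg_right hba (by positivity)).trans hy5
      have h5 : b * (Real.log 2 + Real.log Cn) ≤ 1 * (Real.log 2 + Real.log Cn) :=
        mul_le_mul_of_nonneg_right hb1 (by positivity)
      have h6 : a / 2 * (d * Real.log (1 + |t|)) ≤ 1 * (d * Real.log (1 + |t|)) := by
        refine mul_le_mul_of_nonneg_right ?_ (by positivity)
        have := p.y3
        rw [← hadef] at this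
        linarith
      have h7 : b * ((1 / 2 + κ) * (Real.log Q0 + d * Real.log (1 + |t|))) =
          a / 2 * Real.log Q0 + a / 2 * (d * Real.log (1 + |t|)) := by
        rw [← mul_assoc, hbk]; ring
      have h8 : (1 - b) * (-((y + 1) / 2) - 1) + b * (Real.log 2 +
          (Real.log Cn + (1 / 2 + κ) * (Real.log Q0 + d * Real.log (1 + |t|)))) =
          -((y + 1) / 2) - 1 + b * ((y + 1) / 2 + 1) + b * (Real.log 2 + Real.log Cn) +
            b * ((1 / 2 + κ) * (Real.log Q0 + d * Real.log (1 + |t|))) := by ring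
      rw [h8, h7]
      linarith
    simp only [hRdef]
    linarith
  -- integrability
  have hki := kc_integrable hhp
  obtain ⟨hli, hlb⟩ := kc_log hh0 hh1
  obtain ⟨hgi, hgb⟩ := mean_g H hd hδ hσ hhp (by linarith : 1 + δ + θ ≤ 1 + κ + h)
  have hRi : Integrable (fun t => kc h t * R t) := by
    have := (((hki.mul_const (Real.log 2 + (Real.log 2 + Real.log Cn) + d * J)).add
      (hli.const_mul d)).add (hVi.const_mul (1 / lam + 1)))
    refine this.congr (Eventually.of_forall fun t => ?_)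
    simp only [hRdef, hΨdef, Pi.add_apply]
    ring
  have hRm : ∫ t, kc h t * R t ≤ 2 * Real.log 2 + Real.log Cn + d * C6 + d * (64000 * Real.exp 1) +
      128000 * Real.exp 1 * Real.exp (1 / 2) * (1 / 2 + 4 * (C2 * |A|)) := by
    have e1 : (fun t => kc h t * R t) = fun t =>
        (kc h t * (Real.log 2 + (Real.log 2 + Real.log Cn) + d * J) +
        d * (kc h t * Real.log (1 + |t|))) +
        (1 / lam + 1) * (kc h t * ∫ r, w r * V c (1 + κ) q t r) := by
      funext t
      simp only [hRdef, hΨdef]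
      ring
    have i1 : Integrable (fun t => kc h t * (Real.log 2 + (Real.log 2 + Real.log Cn) + d * J) +
        d * (kc h t * Real.log (1 + |t|))) := (hki.mul_const _).add (hli.const_mul d)
    rw [e1, integral_add i1 (hVi.const_mul _), integral_add (hki.mul_const _) (hli.const_mul d),
      integral_mul_const, integral_const_mul, integral_const_mul, kc_mass hhp]
    have h1 := mul_le_mul_of_nonneg_left hVm hlam2
    have h2 := mul_le_mul_of_nonneg_left hlb hd
    have h3 := mul_le_mul_of_nonneg_left hJ1 hd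
    linarith
  have hKr : ∀ (σ' : ℝ), (σ' = 1 ∨ σ' = -1) → ∀ t, K h (π / 2) σ' t = 1 / 2 * kc h t := by
    intro σ' hσ' t
    rcases hσ' with rfl | rfl
    · simp only [kc]; ring
    · rw [K_half]; simp only [kc]; ring
  set up : ℝ → ℝ := fun t => (G c (1 + κ) t).re + R t with hup
  set um : ℝ → ℝ := fun t => (Real.log Cn + h * (Real.log Q0 + d * Real.log (1 + |t|))) +
    ((G c (1 + κ) t).re + R t) with hum
  have hupi : Integrable (fun t => K h (π / 2) 1 t * up t) := by
    refine ((hgi.add hRi).const_mul (1 / 2)).congr (Eventually.of_forall fun t => ?_)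
    simp only [hup, Pi.add_apply, hKr 1 (Or.inl rfl)]
    ring
  have humi : Integrable (fun t => K h (π / 2) (-1) t * um t) := by
    refine ((((hki.mul_const (Real.log Cn + h * Real.log Q0)).add (hli.const_mul (h * d))).add
      (hgi.add hRi)).const_mul (1 / 2)).congr (Eventually.of_forall fun t => ?_)
    simp only [hum, Pi.add_apply, hKr (-1) (Or.inr rfl)]
    ring
  have hGb := fun t => G_norm_le hσ hP t
  set M : ℝ := 2 * ∑' n, x c (1 + κ) n with hM
  have hre : ∀ t, -M ≤ (G c (1 + κ) t).re := fun t => by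
    have h1 := (Complex.abs_re_le_norm _).trans (hGb t)
    have h2 := neg_abs_le (G c (1 + κ) t).re
    linarith
  obtain ⟨A1, B1, hB1, hg⟩ := H.growth
  have key := strip_point (F := fun z => F (z + 1 / 2)) (A := A1) (B := B1) (φ := π / 2)
    (up := up) (um := um) (N := M) hhp half_mem
    (fun z _ => AnalyticAt.comp (g := F) (H.diff.analyticAt _) (by fun_prop)) hB1
    (fun z hz => by
      have h1 := abs_le.1 hz
      have h2 := hg (z + 1 / 2) (by simp; linarith) (by simp; linarith)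
      simpa using h2)
    hupi humi
    (fun t => by
      simp only [hup]
      linarith [hre t, hR0 t])
    (fun t => by
      simp only [hum]
      have h1 := log_one_add_nonneg t
      have h2 : 0 ≤ Real.log Cn + h * (Real.log Q0 + d * Real.log (1 + |t|)) := by positivity
      linarith [hre t, hR0 t])
    (fun t => by
      have e1 : (h : ℂ) + t * Complex.I + 1 / 2 = ((1 - α : ℝ) : ℂ) + t * Complex.I := by
        rw [hh]; push_cast; ring
      rw [e1]
      exact hedge t)
    (fun t => by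
      have e1 : -(h : ℂ) + t * Complex.I + 1 / 2 = ((1 / 2 - h : ℝ) : ℂ) + t * Complex.I := by
        push_cast; ring
      have e2 : ((1 / 2 + h : ℝ) : ℂ) + t * Complex.I = ((1 - α : ℝ) : ℂ) + t * Complex.I := by
        rw [hh]; push_cast; ring
      rw [e1]
      have h1 := H.refl h t hhp.le (by linarith)
      rw [refl_factor hCn hQ, e2] at h1
      refine h1.trans ?_
      simp only [hum]
      rw [Real.exp_add (Real.log Cn + h * (Real.log Q0 + d * Real.log (1 + |t|)))
        ((G c (1 + κ) t).re + R t)]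
      exact mul_le_mul_of_nonneg_left (hedge t) (Real.exp_pos _).le)
  have hpt : ((2 * h * (π / 2) / π - h : ℝ) : ℂ) + 1 / 2 = 1 / 2 := by
    have := Real.pi_pos
    have : 2 * h * (π / 2) / π - h = 0 := by field_simp; ring
    rw [this]; simp
  rw [hpt] at key
  refine key.trans (Real.exp_le_exp.2 ?_)
  have i1 : ∫ t, K h (π / 2) 1 t * up t =
      1 / 2 * ((∫ t, kc h t * (G c (1 + κ) t).re) + ∫ t, kc h t * R t) := by
    rw [← integral_add hgi hRi, ← integral_const_mul]
    refine integral_congr_ae (Eventually.of_forall fun t => ?_)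
    simp only [hup, hKr 1 (Or.inl rfl)]
    ring
  have i2 : ∫ t, K h (π / 2) (-1) t * um t =
      1 / 2 * ((Real.log Cn + h * Real.log Q0) + h * d * (∫ t, kc h t * Real.log (1 + |t|)) +
      ((∫ t, kc h t * (G c (1 + κ) t).re) + ∫ t, kc h t * R t)) := by
    have e1 : (fun t => K h (π / 2) (-1) t * um t) = fun t => 1 / 2 *
        ((kc h t * (Real.log Cn + h * Real.log Q0) + (h * d) * (kc h t * Real.log (1 + |t|))) +
        (kc h t * (G c (1 + κ) t).re + kc h t * R t)) := by
      funext t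
      simp only [hum, hKr (-1) (Or.inr rfl)]
      ring
    have j1 : Integrable (fun t => kc h t * (Real.log Cn + h * Real.log Q0) +
      (h * d) * (kc h t * Real.log (1 + |t|))) := (hki.mul_const _).add (hli.const_mul _)
    have j2 : Integrable (fun t => kc h t * (G c (1 + κ) t).re + kc h t * R t) := hgi.add hRi
    rw [e1, integral_const_mul, integral_add j1 j2,
      integral_add (hki.mul_const _) (hli.const_mul _), integral_mul_const, integral_const_mul,
      kc_mass hhp, integral_add hgi hRi]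
    ring
  rw [i1, i2]
  have hhd : h * d * (∫ t, kc h t * Real.log (1 + |t|)) ≤ 1 * d * C6 := by
    have : 0 ≤ ∫ t, kc h t * Real.log (1 + |t|) := integral_nonneg fun t =>
      mul_nonneg (kc_nonneg hhp t) (log_one_add_nonneg t)
    gcongr
    linarith
  have hdC6 : 0 ≤ d * C6 := mul_nonneg hd C6_nonneg
  unfold K0
  have : (1 / 2 - α) / 2 * Real.log Q0 = 1 / 2 * (h * Real.log Q0) := by rw [hh]; ring
  rw [this]
  linarith

end

end Pool.Agent.R402.Fin
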