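import Mathlib
import Pool.Agent.R402.Core

/-!
# The logarithm of the Dirichlet series varies slowly far to the right
-/

set_option autoImplicit false

open MeasureTheory Filter Topology Set Real
open scoped ArithmeticFunction.vonMangoldt

namespace Pool.Agent.R402.Lip

open Pool.Agent.R402.MeanSq Pool.Agent.R402.Ser Pool.Agent.R402.Core

variable {d Cn θ A Q0 : ℝ} {c : ℕ → ℂ} {F : ℂ → ℂ}

lemma G_lip (H : Hyp d Cn θ A Q0 c F) {σ δ a : ℝ} (hd : 0 ≤ d) (hδ : 0 < δ) (ha : 0 ≤ a)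
    (hσ : 1 < σ) (hσδ : 1 + 2 * δ + θ ≤ σ) (t : ℝ) :
    ‖G c (σ + a) t - G c σ t‖ ≤ a * (BG d δ / δ) := by
  have hσa : 1 < σ + a := by linarith
  have e0 : G c (σ + a) t - G c σ t = ∑' n, (gg c (σ + a) t n - gg c σ t n) :=
    ((summable_gg hσa (H.summ _ hσa) t).tsum_sub (summable_gg hσ (H.summ _ hσ) t)).symm
  rw [e0]
  unfold BG
  have hs : Summable (fun n : ℕ => (n : ℝ) ^ (-(1 + δ))) := by
    rw [Real.summable_nat_rpow]; linarith
  have e1 : a * (d * ∑' n : ℕ, (n : ℝ) ^ (-(1 + δ)) / δ) = ∑' n : ℕ,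
      a * (d / δ) * (n : ℝ) ^ (-(1 + δ)) := by
    rw [tsum_mul_left]
    rw [tsum_div_const]
    field_simp
  have e2 : a * (d * (∑' n : ℕ, (n : ℝ) ^ (-(1 + δ))) / δ) = ∑' n : ℕ,
      a * (d / δ) * (n : ℝ) ^ (-(1 + δ)) := by
    rw [tsum_mul_left]
    field_simp
  rw [e2]
  refine tsum_of_norm_bounded (hs.mul_left (a * (d / δ))).hasSum fun n => ?_
  have hz : gg c (σ + a) t n - gg c σ t n = (((v (σ + a) n - v σ n) / Real.log n : ℝ) : ℂ) * c n *
      Complex.exp (-(Real.log n * t : ℝ) * Complex.I) := by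
    unfold gg
    push_cast
    ring
  have hnz : ‖gg c (σ + a) t n - gg c σ t n‖ = |(v (σ + a) n - v σ n) / Real.log n| * ‖c n‖ := by
    rw [hz]
    have : Complex.exp (-(Real.log n * t : ℝ) * Complex.I) =
      Complex.exp ((-(Real.log n * t) : ℝ) * Complex.I) := by push_cast; rfl
    rw [this, norm_mul, norm_mul, Complex.norm_exp_ofReal_mul_I, mul_one, Complex.norm_real,
      Real.norm_eq_abs]
  rw [hnz]
  rcases Nat.lt_or_ge 1 n with hn | hn
  · have h2 : (1:ℝ) < n := by exact_mod_cast hn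
    have h3 := Real.log_pos h2
    have hn0 : (0:ℝ) < n := by linarith
    by_cases h0 : Λ n = 0
    · unfold v
      rw [h0, zero_mul, zero_mul, sub_zero, zero_div, abs_zero, zero_mul]
      have := Real.rpow_nonneg hn0.le (-(1 + δ))
      positivity
    · have h4 := H.coef n h0
      have hΛ : 0 ≤ Λ n := ArithmeticFunction.vonMangoldt_nonneg
      have hp := Real.rpow_pos_of_pos hn0 (-σ)
      have h5 : |(v (σ + a) n - v σ n) / Real.log n| ≤ a * (Real.log n * (n:ℝ) ^ (-σ)) := by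
        have e3 : v (σ + a) n = v σ n * (n:ℝ) ^ (-a) := by
          unfold v
          rw [show -(σ + a) = -σ + -a by ring, Real.rpow_add hn0]
          ring
        have e4 : 1 - a * Real.log n ≤ (n:ℝ) ^ (-a) := by
          rw [Real.rpow_def_of_pos hn0]
          have := Real.add_one_le_exp (Real.log n * -a)
          linarith
        have e5 : (n:ℝ) ^ (-a) ≤ 1 := Real.rpow_le_one_of_one_le_of_nonpos h2.le (by linarith)
        have e6 : v σ n ≤ Real.log n * (n:ℝ) ^ (-σ) := by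
          unfold v
          exact mul_le_mul_of_nonneg_right ArithmeticFunction.vonMangoldt_le_log hp.le
        have e7 := v_nonneg σ n
        rw [e3, abs_div, abs_of_pos h3, div_le_iff₀ h3,
          show v σ n * (n:ℝ) ^ (-a) - v σ n = -(v σ n * (1 - (n:ℝ) ^ (-a))) by ring, abs_neg,
          abs_of_nonneg (mul_nonneg e7 (by linarith))]
        calc v σ n * (1 - (n:ℝ) ^ (-a)) ≤ (Real.log n * (n:ℝ) ^ (-σ)) * (a * Real.log n) := by
              apply mul_le_mul e6 (by linarith) (by linarith) (by positivity)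
          _ = _ := by ring
      have h6 : Real.log n ≤ (n:ℝ) ^ δ / δ := Real.log_le_rpow_div hn0.le hδ
      calc |(v (σ + a) n - v σ n) / Real.log n| * ‖c n‖ ≤
          (a * (Real.log n * (n:ℝ) ^ (-σ))) * (d * (n:ℝ) ^ θ) := by
            apply mul_le_mul h5 h4 (norm_nonneg _) (by positivity)
        _ ≤ (a * ((n:ℝ) ^ δ / δ * (n:ℝ) ^ (-σ))) * (d * (n:ℝ) ^ θ) := by
            have := Real.rpow_pos_of_pos hn0 θ
            gcongr
        _ = a * (d / δ) * ((n:ℝ) ^ δ * (n:ℝ) ^ (-σ) * (n:ℝ) ^ θ) := by ring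
        _ = a * (d / δ) * (n:ℝ) ^ (δ + -σ + θ) := by
            rw [Real.rpow_add hn0, Real.rpow_add hn0]
        _ ≤ a * (d / δ) * (n:ℝ) ^ (-(1 + δ)) := by
            refine mul_le_mul_of_nonneg_left ?_ (by positivity)
            exact Real.rpow_le_rpow_of_exponent_le h2.le (by linarith)
  · rw [v_eq_zero hn, v_eq_zero hn, sub_zero, zero_div, abs_zero, zero_mul]
    have := Real.rpow_nonneg (Nat.cast_nonneg n : (0:ℝ) ≤ n) (-(1 + δ))
    positivity

/-- the quotient of two values far to the right is close to one -/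
lemma ratio_far (H : Hyp d Cn θ A Q0 c F) {σ δ a : ℝ} (hd : 0 ≤ d) (hδ : 0 < δ) (ha : 0 ≤ a)
    (hσ : 1 < σ) (hσδ : 1 + 2 * δ + θ ≤ σ) (ha1 : a * (BG d δ / δ) ≤ 1) (t : ℝ) :
    ‖F ((σ : ℂ) + t * Complex.I) / F (((σ + a : ℝ) : ℂ) + t * Complex.I) - 1‖ ≤
      2 * (a * (BG d δ / δ)) := by
  have hσa : 1 < σ + a := by linarith
  rw [H.exp_eq σ t hσ, H.exp_eq (σ + a) t hσa, ← Complex.exp_sub]
  have h1 := G_lip H hd hδ ha hσ hσδ t
  rw [norm_sub_rev] at h1
  refine (Complex.norm_exp_sub_one_le (h1.trans ha1)).trans ?_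
  linarith

end Pool.Agent.R402.Lip
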