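import Mathlib
import Pool.Agent.R402.EdgeH
import Pool.Agent.R402.Fin
import Pool.Agent.R402.Bla
import Pool.Agent.R402.Fact
import Pool.Agent.R402.Lip

/-!
# Zeros near the line `Re s = 1`
-/

set_option autoImplicit false

open MeasureTheory Filter Topology Set Real
open scoped ArithmeticFunction.vonMangoldt

namespace Pool.Agent.R402.Zed

open Pool.Agent.R402.Strip Pool.Agent.R402.Kern Pool.Agent.R402.Edge
open Pool.Agent.R402.MeanSq Pool.Agent.R402.Ser Pool.Agent.R402.Core Pool.Agent.R402.Fin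
open Pool.Agent.R402.Bla Pool.Agent.R402.Fact Pool.Agent.R402.Lip

/-- the constant in the moment bound -/
noncomputable def Cj : ℝ := 64000 * Real.exp 1

lemma Cj_ge : 1 ≤ Cj := by
  unfold Cj
  have := Real.add_one_le_exp (1:ℝ)
  linarith

/-- the bound for the moment -/
noncomputable def Jb (l : ℝ) : ℝ := Cj * Real.log l ^ 2 / l

/-- the parameters; `l` is the size of the logarithm of the conductor, `y` the depth -/
structure ParZ (d θ δ Cb l y : ℝ) : Prop where
  l4 : 4 ≤ l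
  y0 : 0 ≤ y
  y1 : y + 2 ≤ 2 * Real.log l
  a16 : (y + 2) / l ≤ 1 / 16
  aθ : θ + 2 * δ + (y + 2) / l ≤ 1 / 2
  ad : (y + 2) / l * d ≤ 1 / 2
  alog : (y + 2) / l * Real.log l ≤ 1
  aC : (y + 2) / l * Cb ≤ 1 / 4
  a2 : l * ((y + 2) / l * Cb) ^ 2 ≤ 1
  Jd : d * Jb l ≤ 1
  ll : 1 ≤ Real.log l

section
variable {d Cn θ A Q0 δ Cb l y : ℝ} {c : ℕ → ℂ} {F : ℂ → ℂ}

lemma J_boundZ (p : ParZ d θ δ Cb l y) :
    Integrable (fun r : ℝ => KK (1 / 2 + 1 / l) (π - π * ((y + 2) / l) / (2 * (1 / 2 + 1 / l))) r *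
      (|r| * Real.exp |r|)) ∧
    ∫ r : ℝ, KK (1 / 2 + 1 / l) (π - π * ((y + 2) / l) / (2 * (1 / 2 + 1 / l))) r *
      (|r| * Real.exp |r|) ≤ Jb l := by
  have hl := p.l4
  have hl0 : 0 < l := by linarith
  have hy0 := p.y0
  have hll := p.ll
  have hκ : 1 / l ≤ 1 / 4 := by
    rw [div_le_div_iff₀ hl0 (by norm_num)]; linarith
  have hκ0 : 0 < 1 / l := by positivity
  have ha : 0 < (y + 2) / l := by positivity
  obtain ⟨h1, h2⟩ := KK_moment (h := 1 / 2 + 1 / l) (a := (y + 2) / l) (η := 1 / Real.log l)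
    (by linarith) (by linarith) ha (by linarith [p.a16]) (by positivity)
    (by rw [div_le_one (by linarith)]; exact hll)
  refine ⟨h1, h2.trans ?_⟩
  have h3 : ((y + 2) / l) ^ (-(1 / Real.log l)) ≤ Real.exp 1 := by
    have h4 : l⁻¹ ≤ (y + 2) / l := by
      rw [inv_eq_one_div]
      gcongr
      linarith
    have h5 : ((y + 2) / l) ^ (-(1 / Real.log l)) ≤ (l⁻¹) ^ (-(1 / Real.log l)) := by
      apply Real.rpow_le_rpow_of_nonpos (by positivity) h4
      have : 0 < 1 / Real.log l := by positivity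
      linarith
    refine h5.trans (le_of_eq ?_)
    rw [Real.inv_rpow hl0.le, Real.rpow_neg hl0.le, inv_inv, Real.rpow_def_of_pos hl0]
    congr 1
    field_simp
  have h6 : 32000 * ((y + 2) / l * ((y + 2) / l) ^ (-(1 / Real.log l))) / (1 / Real.log l) =
      32000 * ((y + 2) / l * ((y + 2) / l) ^ (-(1 / Real.log l))) * Real.log l := by
    field_simp
  rw [h6]
  have h7 := p.y1
  have h8 : (y + 2) / l ≤ 2 * Real.log l / l := by gcongr
  unfold Jb Cj
  calc 32000 * ((y + 2) / l * ((y + 2) / l) ^ (-(1 / Real.log l))) * Real.log l ≤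
      32000 * (2 * Real.log l / l * Real.exp 1) * Real.log l := by
        have : 0 ≤ ((y + 2) / l) ^ (-(1 / Real.log l)) := Real.rpow_nonneg ha.le _
        gcongr
    _ = _ := by ring

/-- the deviation from one on the line `Re s = 1 + κ - a` -/
lemma edge_allH (H : Hyp d Cn θ A Q0 c F) (hd : 0 ≤ d) (hCn : 1 ≤ Cn) {κ a lam q : ℝ}
    (hκ : 0 < κ) (hκ1 : κ ≤ 1 / 4) (ha : 0 < a) (ha1 : a ≤ 1 / 2) (hlam : 0 < lam)
    (hlam1 : lam ≤ 1) (hq : 0 < q) (t : ℝ) :
    ‖F (((1 + κ - a : ℝ) : ℂ) + t * Complex.I) / F (((1 + κ : ℝ) : ℂ) + t * Complex.I) - 1‖ ≤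
      Real.exp (((1 - a / (1 + 2 * κ)) * (Real.log lam - 1) + a / (1 + 2 * κ) * (Real.log 2 +
        (Real.log Cn + (1 / 2 + κ) * (Real.log Q0 + d * Real.log (1 + |t|))))) +
      d * (∫ r : ℝ, KK (1 / 2 + κ) (π - π * a / (2 * (1 / 2 + κ))) r * (|r| * Real.exp |r|)) +
      (1 / lam + 1) * ∫ r : ℝ, KK (1 / 2 + κ) (π - π * a / (2 * (1 / 2 + κ))) r *
        V c (1 + κ) q t r) := by
  have hσ : 1 < 1 + κ := by linarith
  have hP := H.summ (1 + κ) hσ
  obtain ⟨A1, B1, hB1, hg⟩ := H.growth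
  have hFline : ∀ r : ℝ, F (1 + κ + r * Complex.I) = Complex.exp (G c (1 + κ) r) := by
    intro r
    have := H.exp_eq (1 + κ) r hσ
    rw [← this]
    push_cast
    rfl
  have hQ := H.one_le
  have hlC : 0 ≤ Real.log Cn := Real.log_nonneg hCn
  have hlQ : 0 ≤ Real.log Q0 := Real.log_nonneg hQ
  have hlt := log_one_add_nonneg t
  have key := edge_pointH (F := fun z => F (z + t * Complex.I)) (κ := κ) (a := a) (lam := lam)
    (L0 := Real.log Cn + (1 / 2 + κ) * (Real.log Q0 + d * Real.log (1 + |t|)))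
    (L1 := d) (A := A1 + B1 * |t|) (B := B1)
    (M := 1 / 2 * (q + q⁻¹ * (∑' n, x c (1 + κ) n) ^ 2))
    (V := fun r => V c (1 + κ) q t r) hκ hκ1 ha ha1 hlam hlam1
    (H.diff.comp (by fun_prop)) hB1
    (fun z hz1 hz2 => by
      have h1 := hg (z + t * Complex.I) (by simp; linarith) (by simp; linarith)
      have h2 : (z + t * Complex.I).im = z.im + t := by simp
      rw [h2] at h1
      have h3 := abs_add_le z.im t
      nlinarith)
    (V_cont_right hσ hP q t) (fun r => V_nonneg hq t r)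
    (fun r => by
      refine (V_le hq hσ hP t r).trans ?_
      refine mul_le_mul_of_nonneg_left (abs_le_sq r) ?_
      positivity)
    (by
      have : (1 + κ + t * Complex.I : ℂ) = 1 + κ + t * Complex.I := rfl
      rw [hFline t]
      exact Complex.exp_ne_zero _)
    (fun r => by
      refine ⟨G c (1 + κ) (t + r) - G c (1 + κ) t, G_sub_le hq hσ hP t r, ?_⟩
      have e1 : (1 + κ + r * Complex.I + t * Complex.I : ℂ) =
          1 + κ + ((t + r : ℝ) : ℂ) * Complex.I := by push_cast; ring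
      rw [e1, hFline, hFline, ← Complex.exp_add]
      congr 1
      ring)
    (by positivity) hd
    (fun r => by
      have h1 := H.refl (1 / 2 + κ) (t + r) (by linarith) (by linarith)
      rw [refl_factor hCn hQ] at h1
      have e1 : (-κ + r * Complex.I + t * Complex.I : ℂ) =
          ((1 / 2 - (1 / 2 + κ) : ℝ) : ℂ) + ((t + r : ℝ) : ℂ) * Complex.I := by push_cast; ring
      have e2 : (1 + κ + r * Complex.I + t * Complex.I : ℂ) =
          ((1 / 2 + (1 / 2 + κ) : ℝ) : ℂ) + ((t + r : ℝ) : ℂ) * Complex.I := by push_cast; ring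
      rw [e1, e2]
      refine h1.trans ?_
      refine mul_le_mul_of_nonneg_right ?_ (norm_nonneg _)
      apply Real.exp_le_exp.2
      have h3 := log_add_le t r
      have h4 := log_one_add_nonneg r
      have h5 : (1 / 2 + κ) * (d * Real.log (1 + |t + r|)) ≤
          (1 / 2 + κ) * (d * (Real.log (1 + |t|) + Real.log (1 + |r|))) := by gcongr
      have h6 : (1 / 2 + κ) * (d * Real.log (1 + |r|)) ≤ 1 * (d * Real.log (1 + |r|)) := by
        refine mul_le_mul_of_nonneg_right (by linarith) (by positivity)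
      linarith)
  have e1 : ((1 + κ - a : ℝ) : ℂ) + t * Complex.I = 1 + κ - a + t * Complex.I := by push_cast; ring
  have e2 : ((1 + κ : ℝ) : ℂ) + t * Complex.I = 1 + κ + t * Complex.I := by push_cast; ring
  rw [e1, e2]
  exact key

/-- the square mean of the variation at height `t` -/
noncomputable def U (c : ℕ → ℂ) (l y t : ℝ) : ℝ :=
  ∫ r : ℝ, KK (1 / 2 + 1 / l) (π - π * ((y + 2) / l) / (2 * (1 / 2 + 1 / l))) r *
    V c (1 + 1 / l) 1 t r

lemma phi_mem (p : ParZ d θ δ Cb l y) :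
    π - π * ((y + 2) / l) / (2 * (1 / 2 + 1 / l)) ∈ Ioo 0 π := by
  have hl := p.l4
  have hl0 : 0 < l := by linarith
  have hy0 := p.y0
  have hκ0 : 0 < 1 / l := by positivity
  have hpi := Real.pi_pos
  have ha1 := p.a16
  have ha : 0 < (y + 2) / l := by positivity
  have e1 : 0 < π * ((y + 2) / l) / (2 * (1 / 2 + 1 / l)) := by positivity
  have e2 : π * ((y + 2) / l) / (2 * (1 / 2 + 1 / l)) < π := by
    rw [div_lt_iff₀ (by positivity)]
    exact mul_lt_mul_of_pos_left (by linarith) hpi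
  constructor <;> linarith

lemma U_nonneg (p : ParZ d θ δ Cb l y) (t : ℝ) : 0 ≤ U c l y t := by
  have hl := p.l4
  have hl0 : 0 < l := by linarith
  exact integral_nonneg fun r => mul_nonneg
    (KK_nonneg (by positivity) (phi_mem p) r) (V_nonneg one_pos t r)

/-- the majorant for general `q` -/
lemma intV_le (H : Hyp d Cn θ A Q0 c F) (p : ParZ d θ δ Cb l y) {q : ℝ} (hq : 0 < q) (t : ℝ) :
    ∫ r : ℝ, KK (1 / 2 + 1 / l) (π - π * ((y + 2) / l) / (2 * (1 / 2 + 1 / l))) r *
        V c (1 + 1 / l) q t r ≤ 1 / 2 * q * Jb l + q⁻¹ * U c l y t := by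
  have hl := p.l4
  have hl0 : 0 < l := by linarith
  have hκ0 : 0 < 1 / l := by positivity
  have hσ : 1 < 1 + 1 / l := by linarith
  have hP := H.summ (1 + 1 / l) hσ
  have hφ := phi_mem p
  obtain ⟨hJi, hJ⟩ := J_boundZ p
  set h : ℝ := 1 / 2 + 1 / l with hh
  set φ : ℝ := π - π * ((y + 2) / l) / (2 * h) with hφdef
  have hh0 : 0 < h := by positivity
  have hwr : Integrable (fun r => KK h φ r * |r|) := by
    refine hJi.mono' (((KK_continuous hh0 hφ).mul continuous_abs).aestronglyMeasurable)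
      (Eventually.of_forall fun r => ?_)
    have h1 := KK_nonneg hh0 hφ r
    rw [Real.norm_of_nonneg (by positivity)]
    have h2 := Real.one_le_exp (abs_nonneg r)
    refine mul_le_mul_of_nonneg_left ?_ h1
    nlinarith [abs_nonneg r]
  have hVi : ∀ q' : ℝ, 0 < q' → Integrable (fun r => KK h φ r * V c (1 + 1 / l) q' t r) := by
    intro q' hq'
    set M : ℝ := 1 / 2 * (q' + q'⁻¹ * (∑' n, x c (1 + 1 / l) n) ^ 2) with hM
    refine (hwr.const_mul M).mono' (((KK_continuous hh0 hφ).mul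
      (V_cont_right hσ hP q' t)).aestronglyMeasurable) (Eventually.of_forall fun r => ?_)
    have h1 := KK_nonneg hh0 hφ r
    have h2 := V_nonneg (c := c) (σ := 1 + 1 / l) hq' t r
    rw [Real.norm_of_nonneg (by positivity)]
    have h3 := V_le hq' hσ hP t r
    calc KK h φ r * V c (1 + 1 / l) q' t r ≤ KK h φ r * (M * |r|) :=
          mul_le_mul_of_nonneg_left h3 h1
      _ = _ := by ring
  have h1 : ∫ r : ℝ, KK h φ r * V c (1 + 1 / l) q t r ≤
      ∫ r : ℝ, (1 / 2 * q * (KK h φ r * (|r| * Real.exp |r|)) +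
        q⁻¹ * (KK h φ r * V c (1 + 1 / l) 1 t r)) := by
    refine integral_mono (hVi q hq) ((hJi.const_mul _).add ((hVi 1 one_pos).const_mul _))
      fun r => ?_
    have h2 := KK_nonneg hh0 hφ r
    have h3 := Y_nonneg (c := c) (σ := 1 + 1 / l) t r
    have h4 := Real.one_le_exp (abs_nonneg r)
    have h5 : V c (1 + 1 / l) q t r ≤ 1 / 2 * q * (|r| * Real.exp |r|) +
        q⁻¹ * V c (1 + 1 / l) 1 t r := by
      unfold V
      have e1 : 1 / 2 * |r| * (q + q⁻¹ * Y c (1 + 1 / l) t r) = 1 / 2 * q * |r| +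
        q⁻¹ * (1 / 2 * |r| * Y c (1 + 1 / l) t r) := by ring
      rw [e1]
      have e2 : |r| ≤ |r| * Real.exp |r| := le_mul_of_one_le_right (abs_nonneg r) h4
      have e3 : 1 / 2 * |r| * Y c (1 + 1 / l) t r ≤
          1 / 2 * |r| * (1 + 1⁻¹ * Y c (1 + 1 / l) t r) := by
        rw [inv_one, one_mul]
        refine mul_le_mul_of_nonneg_left (by linarith) (by positivity)
      gcongr
    calc KK h φ r * V c (1 + 1 / l) q t r ≤ KK h φ r * (1 / 2 * q * (|r| * Real.exp |r|) +
        q⁻¹ * V c (1 + 1 / l) 1 t r) := mul_le_mul_of_nonneg_left h5 h2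
      _ = _ := by ring
  refine h1.trans ?_
  rw [integral_add (hJi.const_mul _) ((hVi 1 one_pos).const_mul _), integral_const_mul,
    integral_const_mul]
  have h2 : 1 / 2 * q * ∫ r : ℝ, KK h φ r * (|r| * Real.exp |r|) ≤ 1 / 2 * q * Jb l :=
    mul_le_mul_of_nonneg_left hJ (by positivity)
  have h3 : U c l y t = ∫ r : ℝ, KK h φ r * V c (1 + 1 / l) 1 t r := rfl
  rw [h3]
  linarith

/-- the constant in the deviation bound -/
noncomputable def C1z (Cn : ℝ) : ℝ := Real.log 2 + Real.log Cn + 4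

/-- the deviation bound in the form used below -/
lemma H_bound (H : Hyp d Cn θ A Q0 c F) (hd : 0 ≤ d) (hCn : 1 ≤ Cn) (p : ParZ d θ δ Cb l y)
    (hQl : Real.log Q0 ≤ l) (t : ℝ) :
    1 + ‖F (((1 + 1 / l - (y + 2) / l : ℝ) : ℂ) + t * Complex.I) /
      F (((1 + 1 / l : ℝ) : ℂ) + t * Complex.I) - 1‖ ^ 2 ≤
      Real.exp (10 * Jb l * (U c l y t + 1) * Real.exp (4 + 2 * C1z Cn + y + |t| / 2)) := by
  have hl := p.l4
  have hl0 : 0 < l := by linarith
  have hy0 := p.y0
  have hll := p.ll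
  have hκ0 : 0 < 1 / l := by positivity
  have hκ : 1 / l ≤ 1 / 4 := by
    rw [div_le_div_iff₀ hl0 (by norm_num)]; linarith
  have ha0 : 0 < (y + 2) / l := by positivity
  have ha1 := p.a16
  have hlC : 0 ≤ Real.log Cn := Real.log_nonneg hCn
  have hlog2 : 0 < Real.log 2 := Real.log_pos (by norm_num)
  have hlQ : 0 ≤ Real.log Q0 := Real.log_nonneg H.one_le
  have hU0 := U_nonneg (c := c) p t
  have hC1 : 0 ≤ C1z Cn := by unfold C1z; positivity
  have hJl : 1 / l ≤ Jb l := by
    unfold Jb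
    have h1 := one_le_mul_of_one_le_of_one_le Cj_ge (one_le_pow₀ hll : 1 ≤ Real.log l ^ 2)
    exact div_le_div_of_nonneg_right h1 hl0.le
  have hJ0 : 0 < Jb l := by linarith
  have hJ00 : 0 ≤ ∫ r : ℝ, KK (1 / 2 + 1 / l) (π - π * ((y + 2) / l) / (2 * (1 / 2 + 1 / l))) r *
      (|r| * Real.exp |r|) := integral_nonneg fun r => mul_nonneg
        (KK_nonneg (by positivity) (phi_mem p) r) (by positivity)
  obtain ⟨hJi, hJ⟩ := J_boundZ p
  set J : ℝ := ∫ r : ℝ, KK (1 / 2 + 1 / l) (π - π * ((y + 2) / l) / (2 * (1 / 2 + 1 / l))) r *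
      (|r| * Real.exp |r|) with hJdef
  set u : ℝ := U c l y t with hu
  -- the choice of `q`
  set q : ℝ := √((u + 1) / Jb l) with hqdef
  have hq : 0 < q := Real.sqrt_pos.2 (by positivity)
  have hq2 : q ^ 2 = (u + 1) / Jb l := Real.sq_sqrt (by positivity)
  set Ψ : ℝ := ∫ r : ℝ, KK (1 / 2 + 1 / l) (π - π * ((y + 2) / l) / (2 * (1 / 2 + 1 / l))) r *
        V c (1 + 1 / l) q t r with hΨ
  have hΨ0 : 0 ≤ Ψ := integral_nonneg fun r => mul_nonneg
    (KK_nonneg (by positivity) (phi_mem p) r) (V_nonneg hq t r)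
  set Ψb : ℝ := 3 / 2 * (q * Jb l) with hΨb
  have hΨle : Ψ ≤ Ψb := by
    have h1 := intV_le H p hq t
    have h2 : q⁻¹ * (u + 1) = q * Jb l := by
      have : u + 1 = q ^ 2 * Jb l := by rw [hq2]; field_simp
      rw [this]; field_simp
    have h3 : q⁻¹ * u ≤ q⁻¹ * (u + 1) := mul_le_mul_of_nonneg_left (by linarith) (by positivity)
    rw [hΨb]
    linarith
  have hΨb0 : 0 ≤ Ψb := by positivity
  have hΨb2 : Ψb ^ 2 = 9 / 4 * (Jb l * (u + 1)) := by
    have : (q * Jb l) ^ 2 = Jb l * (u + 1) := by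
      rw [mul_pow, hq2]; field_simp
    rw [hΨb, mul_pow, this]; norm_num
  have hsl : 0 < √l := Real.sqrt_pos.2 hl0
  set S : ℝ := Ψb + 1 / √l with hS
  have hS0 : 0 < S := by positivity
  have hS2 : S ^ 2 ≤ 10 * Jb l * (u + 1) := by
    have h1 : (1 / √l) ^ 2 = 1 / l := by rw [div_pow, Real.sq_sqrt hl0.le, one_pow]
    have h2 : S ^ 2 ≤ 2 * Ψb ^ 2 + 2 * (1 / √l) ^ 2 := by
      have := add_sq_le (a := Ψb) (b := 1 / √l)
      rw [hS]; linarith
    rw [h1, hΨb2] at h2
    linarith [mul_nonneg hJ0.le hU0]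
  -- the exponent
  have hT : ∀ lam : ℝ, 1 / √l ≤ lam → lam ≤ 1 →
      ‖F (((1 + 1 / l - (y + 2) / l : ℝ) : ℂ) + t * Complex.I) /
        F (((1 + 1 / l : ℝ) : ℂ) + t * Complex.I) - 1‖ ≤
      Real.exp (Real.log lam + (C1z Cn - 2) + y / 2 + |t| / 4 + (1 / lam + 1) * Ψ) := by
    intro lam hlam hlam1
    have hlam0 : 0 < lam := lt_of_lt_of_le (by positivity) hlam
    have h1 := edge_allH H hd hCn hκ0 hκ ha0 (by linarith) hlam0 hlam1 hq t
    refine h1.trans (Real.exp_le_exp.2 ?_)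
    rw [← hJdef, ← hΨ]
    set b : ℝ := (y + 2) / l / (1 + 2 * (1 / l)) with hb
    have hb0 : 0 ≤ b := by positivity
    have hba : b ≤ (y + 2) / l := by
      rw [hb, div_le_iff₀ (by positivity)]
      exact le_mul_of_one_le_right ha0.le (by linarith)
    have hbk : b * (1 / 2 + 1 / l) = (y + 2) / l / 2 := by
      rw [hb]; field_simp
    have hlog := Real.log_le_log (by positivity) hlam
    have hlogs : Real.log (1 / √l) = -(1 / 2 * Real.log l) := by
      rw [one_div, Real.log_inv, Real.log_sqrt hl0.le]; ring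
    rw [hlogs] at hlog
    have h2 : (1 - b) * (Real.log lam - 1) ≤ Real.log lam := by
      have e1 : b * (1 / 2 * Real.log l) ≤ (y + 2) / l * (1 / 2 * Real.log l) :=
        mul_le_mul_of_nonneg_right hba (by linarith)
      have e2 := p.alog
      have e3 : -(b * Real.log lam) ≤ b * (1 / 2 * Real.log l) := by
        have := mul_le_mul_of_nonneg_left hlog hb0
        linarith
      have e4 : (1 - b) * (Real.log lam - 1) = Real.log lam - 1 - b * Real.log lam + b := by ring
      rw [e4]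
      linarith
    have h3 : b * (Real.log 2 + (Real.log Cn + (1 / 2 + 1 / l) *
        (Real.log Q0 + d * Real.log (1 + |t|)))) ≤ Real.log 2 + Real.log Cn + 1 + y / 2 +
          |t| / 4 := by
      have e0 : b * (Real.log 2 + (Real.log Cn + (1 / 2 + 1 / l) *
        (Real.log Q0 + d * Real.log (1 + |t|)))) = b * (Real.log 2 + Real.log Cn) +
          (b * (1 / 2 + 1 / l)) * Real.log Q0 +
          (b * (1 / 2 + 1 / l)) * (d * Real.log (1 + |t|)) := by ring
      rw [e0, hbk]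
      have e1 : b * (Real.log 2 + Real.log Cn) ≤ 1 * (Real.log 2 + Real.log Cn) :=
        mul_le_mul_of_nonneg_right (by linarith) (by positivity)
      have e2 : (y + 2) / l / 2 * Real.log Q0 ≤ (y + 2) / l / 2 * l :=
        mul_le_mul_of_nonneg_left hQl (by positivity)
      have e3 : (y + 2) / l / 2 * l = y / 2 + 1 := by field_simp
      have e4 : Real.log (1 + |t|) ≤ |t| := by
        have := Real.log_le_sub_one_of_pos (by positivity : 0 < 1 + |t|)
        linarith
      have e5 : (y + 2) / l / 2 * (d * Real.log (1 + |t|)) ≤ (y + 2) / l / 2 * (d * |t|) := by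
        gcongr
      have e6 : (y + 2) / l / 2 * (d * |t|) = ((y + 2) / l * d) * (|t| / 2) := by ring
      have e7 : ((y + 2) / l * d) * (|t| / 2) ≤ 1 / 2 * (|t| / 2) :=
        mul_le_mul_of_nonneg_right p.ad (by positivity)
      linarith
    have h4 : d * J ≤ 1 := (mul_le_mul_of_nonneg_left hJ hd).trans p.Jd
    unfold C1z
    linarith
  rcases le_or_gt S 1 with hcase | hcase
  · have h1 := hT S (by rw [hS]; linarith) hcase
    have h2 : (1 / S + 1) * Ψ ≤ 2 := by
      have e1 : Ψ ≤ S := by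
        have : 0 < 1 / √l := by positivity
        rw [hS]; linarith
      have e2 : 1 / S * Ψ ≤ 1 := by
        rw [one_div, inv_mul_le_iff₀ hS0]; linarith
      linarith
    have h3 : ‖F (((1 + 1 / l - (y + 2) / l : ℝ) : ℂ) + t * Complex.I) /
        F (((1 + 1 / l : ℝ) : ℂ) + t * Complex.I) - 1‖ ≤
        S * Real.exp (C1z Cn + y / 2 + |t| / 4) := by
      refine h1.trans ?_
      have : S * Real.exp (C1z Cn + y / 2 + |t| / 4) =
          Real.exp (Real.log S + (C1z Cn + y / 2 + |t| / 4)) := by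
        rw [Real.exp_add (Real.log S), Real.exp_log hS0]
      rw [this]
      apply Real.exp_le_exp.2
      linarith
    have h4 := pow_le_pow_left₀ (norm_nonneg _) h3 2
    have h5 : (S * Real.exp (C1z Cn + y / 2 + |t| / 4)) ^ 2 =
        S ^ 2 * Real.exp (2 * C1z Cn + y + |t| / 2) := by
      rw [mul_pow, ← Real.exp_nat_mul]
      congr 2
      push_cast
      ring
    rw [h5] at h4
    have h6 : S ^ 2 * Real.exp (2 * C1z Cn + y + |t| / 2) ≤
        10 * Jb l * (u + 1) * Real.exp (4 + 2 * C1z Cn + y + |t| / 2) := by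
      have : Real.exp (2 * C1z Cn + y + |t| / 2) ≤ Real.exp (4 + 2 * C1z Cn + y + |t| / 2) :=
        Real.exp_le_exp.2 (by linarith)
      gcongr
    have h7 := Real.add_one_le_exp
      (10 * Jb l * (u + 1) * Real.exp (4 + 2 * C1z Cn + y + |t| / 2))
    linarith
  · have h1 := hT 1 (by
      rw [div_le_one hsl, Real.one_le_sqrt]; linarith) le_rfl
    rw [Real.log_one] at h1
    set T2 : ℝ := C1z Cn + y / 2 + |t| / 4 + 2 * Ψb with hT2
    have hT20 : 0 ≤ T2 := by positivity
    have h2 : ‖F (((1 + 1 / l - (y + 2) / l : ℝ) : ℂ) + t * Complex.I) /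
        F (((1 + 1 / l : ℝ) : ℂ) + t * Complex.I) - 1‖ ≤ Real.exp T2 := by
      refine h1.trans (Real.exp_le_exp.2 ?_)
      rw [hT2]
      linarith
    have h3 := pow_le_pow_left₀ (norm_nonneg _) h2 2
    have h3' : Real.exp T2 ^ 2 = Real.exp (2 * T2) := by
      rw [← Real.exp_nat_mul]; norm_num
    rw [h3'] at h3
    have h4 : 1 + Real.exp (2 * T2) ≤ Real.exp (1 + 2 * T2) := by
      rw [Real.exp_add]
      have e1 := Real.add_one_le_exp (1:ℝ)
      have e2 : 1 ≤ Real.exp (2 * T2) := Real.one_le_exp (by positivity)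
      have e3 := mul_le_mul_of_nonneg_right e1 (Real.exp_pos (2 * T2)).le
      linarith
    have hS1 : 1 ≤ S ^ 2 := one_le_pow₀ hcase.le
    have hSΨ : Ψb ≤ S ^ 2 := by
      have : Ψb ≤ S := by
        have : 0 < 1 / √l := by positivity
        rw [hS]; linarith
      exact this.trans (le_self_pow₀ hcase.le two_ne_zero)
    have h5 : 1 + 2 * T2 ≤ (5 + 2 * C1z Cn + y + |t| / 2) * S ^ 2 := by
      rw [hT2]
      have e1 : 0 ≤ 1 + 2 * C1z Cn + y + |t| / 2 := by positivity
      have e2 := mul_le_mul_of_nonneg_left hS1 e1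
      linarith
    have h6 : 5 + 2 * C1z Cn + y + |t| / 2 ≤ Real.exp (4 + 2 * C1z Cn + y + |t| / 2) := by
      have := Real.add_one_le_exp (4 + 2 * C1z Cn + y + |t| / 2)
      linarith
    have h7 : 1 + 2 * T2 ≤ 10 * Jb l * (u + 1) * Real.exp (4 + 2 * C1z Cn + y + |t| / 2) := by
      have e1 : (5 + 2 * C1z Cn + y + |t| / 2) * S ^ 2 ≤
          Real.exp (4 + 2 * C1z Cn + y + |t| / 2) * (10 * Jb l * (u + 1)) := by
        apply mul_le_mul h6 hS2 (by positivity) (by positivity)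
      linarith
    have h8 := Real.exp_le_exp.2 h7
    linarith

end

end Pool.Agent.R402.Zed
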