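import Mathlib
import Pool.Agent.R402.Zed

/-!
# The number of zeros near the line `Re s = 1`
-/

set_option autoImplicit false

open MeasureTheory Filter Topology Set Real
open scoped ArithmeticFunction.vonMangoldt

namespace Pool.Agent.R402.Zed

open Pool.Agent.R402.Strip Pool.Agent.R402.Kern Pool.Agent.R402.Edge
open Pool.Agent.R402.MeanSq Pool.Agent.R402.Ser Pool.Agent.R402.Core Pool.Agent.R402.Fin
open Pool.Agent.R402.Bla Pool.Agent.R402.Fact Pool.Agent.R402.Lip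

/-- the weight `e^{-|t|} / 2` -/
noncomputable def k0 (t : ℝ) : ℝ := 1 / 2 * Real.exp (-|t|)

lemma exp_abs_integral : Integrable (fun t : ℝ => Real.exp (-|t|)) ∧
    ∫ t : ℝ, Real.exp (-|t|) = 2 := by
  obtain ⟨h1, h2⟩ := ft 0
  have e : (fun t : ℝ => ((Real.exp (-|t|) : ℝ) : ℂ) * Complex.exp (-((0:ℝ) * t : ℝ) * Complex.I)) =
      fun t : ℝ => ((Real.exp (-|t|) : ℝ) : ℂ) := by
    funext t
    simp
  rw [e] at h1 h2
  constructor
  · have := h1.norm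
    refine this.congr (Eventually.of_forall fun t => ?_)
    simp only
    rw [Complex.norm_real, Real.norm_of_nonneg (Real.exp_pos _).le]
  · have h3 : ((∫ t : ℝ, Real.exp (-|t|) : ℝ) : ℂ) = ((2 / (1 + 0 ^ 2) : ℝ) : ℂ) := by
      rw [← integral_complex_ofReal]
      exact h2
    have h4 := Complex.ofReal_injective h3
    rw [h4]
    norm_num

lemma k0_cont : Continuous k0 := by unfold k0; fun_prop

lemma k0_nonneg (t : ℝ) : 0 ≤ k0 t := by unfold k0; positivity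

lemma k0_le (t : ℝ) : k0 t ≤ 4 * Real.exp (-|t|) := by
  unfold k0
  have := Real.exp_pos (-|t|)
  linarith

lemma k0_mass : ∫ t, k0 t = 1 := by
  unfold k0
  rw [integral_const_mul, exp_abs_integral.2]
  norm_num

lemma k0_int : Integrable k0 := by
  unfold k0
  exact exp_abs_integral.1.const_mul _

section
variable {d Cn θ A Q0 δ Cb l y : ℝ} {c : ℕ → ℂ} {F : ℂ → ℂ}

lemma G_norm_mono (hP : ∀ σ : ℝ, 1 < σ → Summable (P c σ)) {σ σ' : ℝ} (hσ : 1 < σ) (hσ' : σ ≤ σ')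
    (t : ℝ) : ‖G c σ' t‖ ≤ 2 * ∑' n, x c σ n := by
  have hσ'1 : 1 < σ' := lt_of_lt_of_le hσ hσ'
  refine (G_norm_le hσ'1 (hP σ' hσ'1) t).trans ?_
  refine mul_le_mul_of_nonneg_left ?_ (by norm_num)
  refine (summable_x hσ'1 (hP σ' hσ'1)).tsum_le_tsum (fun n => ?_) (summable_x hσ (hP σ hσ))
  unfold x v
  rcases Nat.eq_zero_or_pos n with rfl | hn
  · simp
  · have hn1 : (1:ℝ) ≤ n := by exact_mod_cast hn
    have h1 : (n:ℝ) ^ (-σ') ≤ (n:ℝ) ^ (-σ) :=
      Real.rpow_le_rpow_of_exponent_le hn1 (by linarith)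
    have h2 : 0 ≤ Λ n := ArithmeticFunction.vonMangoldt_nonneg
    gcongr

lemma F_ne (H : Hyp d Cn θ A Q0 c F) {s : ℂ} (hs : 1 < s.re) : F s ≠ 0 := by
  have := H.exp_eq s.re s.im hs
  rw [Complex.re_add_im] at this
  rw [this]
  exact Complex.exp_ne_zero _

/-- the mean of `U` -/
lemma mean_U (H : Hyp d Cn θ A Q0 c F) (p : ParZ d θ δ Cb l y) (hQl : Real.log Q0 ≤ l) :
    Integrable (fun t => k0 t * U c l y t) ∧
      ∫ t, k0 t * U c l y t ≤ (1 / 2 + 4 * (C2 * |A|)) * (l * Jb l) := by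
  have hl := p.l4
  have hl0 : 0 < l := by linarith
  have hκ0 : 0 < 1 / l := by positivity
  have hκ : 1 / l ≤ 1 / 4 := by
    rw [div_le_div_iff₀ hl0 (by norm_num)]; linarith
  have hσ : 1 < 1 + 1 / l := by linarith
  have hP := H.summ (1 + 1 / l) hσ
  have hφ := phi_mem p
  obtain ⟨hJi, hJ⟩ := J_boundZ p
  obtain ⟨h1, h2⟩ := mean_V (c := c) hσ hP k0_cont k0_nonneg k0_le k0_mass one_pos
    (KK_continuous (by positivity) hφ) (KK_nonneg (by positivity) hφ) hJi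
  refine ⟨h1, h2.trans ?_⟩
  have hsumP : ∑' n, P c (1 + 1 / l) n ≤ |A| * (2 * l) := by
    have h1 := H.rankin (1 + 1 / l) hσ (by linarith)
    have e1 : 1 + 1 / l - 1 = 1 / l := by ring
    have e2 : 1 / (1 / l) = l := by field_simp
    rw [e1, e2] at h1
    have hlQ : 0 ≤ Real.log Q0 := Real.log_nonneg H.one_le
    calc ∑' n, P c (1 + 1 / l) n ≤ A * (l + Real.log Q0) := h1
      _ ≤ |A| * (l + Real.log Q0) := by
          apply mul_le_mul_of_nonneg_right (le_abs_self A); linarith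
      _ ≤ |A| * (2 * l) := by
          apply mul_le_mul_of_nonneg_left _ (abs_nonneg A); linarith
  have hC2 := C2_nonneg
  have h3 : (1 / 2 * 1 + 2 * (1:ℝ)⁻¹ * (C2 * ∑' n, P c (1 + 1 / l) n)) ≤
      (1 / 2 + 4 * (C2 * |A|)) * l := by
    rw [inv_one, mul_one, mul_one]
    have := mul_le_mul_of_nonneg_left hsumP hC2
    linarith
  have hJ0 : 0 ≤ ∫ r : ℝ, KK (1 / 2 + 1 / l) (π - π * ((y + 2) / l) / (2 * (1 / 2 + 1 / l))) r *
      (|r| * Real.exp |r|) := integral_nonneg fun r => mul_nonneg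
        (KK_nonneg (by positivity) (phi_mem p) r) (by positivity)
  calc _ ≤ ((1 / 2 + 4 * (C2 * |A|)) * l) * Jb l := by
        apply mul_le_mul h3 hJ hJ0
        positivity
    _ = _ := by ring

/-- the function whose zeros are counted -/
noncomputable def Tz (F : ℂ → ℂ) (a c₀ : ℝ) (z : ℂ) : ℂ :=
  F (z + ((c₀ - a : ℝ) : ℂ)) / F (z + (c₀ : ℂ)) *
    (2 - F (z + ((c₀ - a : ℝ) : ℂ)) / F (z + (c₀ : ℂ)))

lemma Tz_eq (F : ℂ → ℂ) (a c₀ : ℝ) (z : ℂ) : Tz F a c₀ z =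
    1 - (F (z + ((c₀ - a : ℝ) : ℂ)) / F (z + (c₀ : ℂ)) - 1) ^ 2 := by
  unfold Tz
  ring

lemma Tz_norm_le (F : ℂ → ℂ) (a c₀ : ℝ) (z : ℂ) : ‖Tz F a c₀ z‖ ≤
    1 + ‖F (z + ((c₀ - a : ℝ) : ℂ)) / F (z + (c₀ : ℂ)) - 1‖ ^ 2 := by
  rw [Tz_eq]
  refine (norm_sub_le _ _).trans ?_
  rw [norm_one, norm_pow]

lemma Tz_norm_ge (F : ℂ → ℂ) (a c₀ : ℝ) (z : ℂ) :
    1 - ‖F (z + ((c₀ - a : ℝ) : ℂ)) / F (z + (c₀ : ℂ)) - 1‖ ^ 2 ≤ ‖Tz F a c₀ z‖ := by
  rw [Tz_eq]
  refine le_trans ?_ (norm_sub_norm_le _ _)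
  rw [norm_one, norm_pow]

/-- linear growth -/
lemma Tz_growth (H : Hyp d Cn θ A Q0 c F) {κ a : ℝ} (hκ : 0 < κ) (hκ1 : κ ≤ 1 / 4) (ha : 0 ≤ a)
    (ha1 : a ≤ 1 / 2) : ∃ A' B' : ℝ, 0 ≤ B' ∧ ∀ z : ℂ, |z.re| ≤ 1 / 2 →
      log⁺ ‖Tz F a (3 / 2 + κ) z‖ ≤ A' + B' * |z.im| := by
  obtain ⟨A1, B1, hB1, hg⟩ := H.growth
  have hσ : 1 < 1 + κ := by linarith
  set M : ℝ := 2 * ∑' n, x c (1 + κ) n with hM
  have hG : ∀ σ' t : ℝ, 1 + κ ≤ σ' → ‖G c σ' t‖ ≤ M := fun σ' t h => G_norm_mono H.summ hσ h t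
  have hM0 : 0 ≤ M := (norm_nonneg _).trans (hG (1 + κ) 0 le_rfl)
  refine ⟨2 * Real.log 2 + 2 * (|A1| + 2 * M), 2 * B1, by positivity, fun z hz => ?_⟩
  obtain ⟨z1, z2⟩ := abs_le.1 hz
  set R : ℂ := F (z + ((3 / 2 + κ - a : ℝ) : ℂ)) / F (z + ((3 / 2 + κ : ℝ) : ℂ)) with hR
  have hlog2 : 0 < Real.log 2 := Real.log_pos (by norm_num)
  have b1 : log⁺ (‖F (z + ((3 / 2 + κ : ℝ) : ℂ))‖⁻¹) ≤ M := by
    have h1 : z + ((3 / 2 + κ : ℝ) : ℂ) = ((z.re + (3 / 2 + κ) : ℝ) : ℂ) + z.im * Complex.I := by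
      apply Complex.ext <;> simp
    rw [h1, H.exp_eq _ _ (by linarith), ← norm_inv, ← Complex.exp_neg, Complex.norm_exp,
      posLog_apply, Real.log_exp, Complex.neg_re]
    refine max_le hM0 ?_
    have h2 := hG (z.re + (3 / 2 + κ)) z.im (by linarith)
    have h3 := Complex.abs_re_le_norm (G c (z.re + (3 / 2 + κ)) z.im)
    linarith [neg_abs_le (G c (z.re + (3 / 2 + κ)) z.im).re]
  have b2 : log⁺ ‖F (z + ((3 / 2 + κ - a : ℝ) : ℂ))‖ ≤ |A1| + M + B1 * |z.im| := by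
    have hBz : 0 ≤ B1 * |z.im| := by positivity
    rcases le_or_gt (z.re + (3 / 2 + κ - a)) (5 / 4) with hcase | hcase
    · have h1 := hg (z + ((3 / 2 + κ - a : ℝ) : ℂ)) (by simp; linarith) (by simpa using hcase)
      have h2 : (z + ((3 / 2 + κ - a : ℝ) : ℂ)).im = z.im := by simp
      rw [h2] at h1
      linarith [le_abs_self A1]
    · have h1 : z + ((3 / 2 + κ - a : ℝ) : ℂ) =
          ((z.re + (3 / 2 + κ - a) : ℝ) : ℂ) + z.im * Complex.I := by
        apply Complex.ext <;> simp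
      rw [h1, H.exp_eq _ _ (by linarith), Complex.norm_exp, posLog_apply, Real.log_exp]
      refine max_le (by positivity) ?_
      have h2 := hG (z.re + (3 / 2 + κ - a)) z.im (by linarith)
      have h3 := Complex.abs_re_le_norm (G c (z.re + (3 / 2 + κ - a)) z.im)
      linarith [le_abs_self (G c (z.re + (3 / 2 + κ - a)) z.im).re, abs_nonneg A1]
  have b3 : log⁺ ‖R‖ ≤ |A1| + 2 * M + B1 * |z.im| := by
    rw [hR, norm_div, div_eq_mul_inv]
    refine posLog_mul.trans ?_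
    linarith
  have h1 : ‖Tz F a (3 / 2 + κ) z‖ ≤ ‖R‖ * (2 + ‖R‖) := by
    unfold Tz
    rw [norm_mul]
    refine mul_le_mul_of_nonneg_left ?_ (norm_nonneg _)
    refine (norm_sub_le _ _).trans ?_
    rw [Complex.norm_two]
  refine (posLog_le_posLog (norm_nonneg _) h1).trans ?_
  have h2 : log⁺ (‖R‖ * (2 + ‖R‖)) ≤ log⁺ ‖R‖ + log⁺ (2 + ‖R‖) := posLog_mul
  have h3 : log⁺ (2 + ‖R‖) ≤ Real.log 2 + log⁺ (2:ℝ) + log⁺ ‖R‖ := posLog_add
  have h4 : log⁺ (2:ℝ) = Real.log 2 := by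
    rw [posLog_apply, max_eq_right hlog2.le]
  rw [h4] at h3
  linarith

/-- the constant in the zero count -/
noncomputable def Kz (d Cn δ A : ℝ) : ℝ :=
  40 + 800 * Cj * Real.exp (4 + 2 * C1z Cn) * ((1 / 2 + 4 * (C2 * |A|)) * Cj + 1)

lemma net_gain {κ e γ : ℝ} {q : ℂ} (hκ : 0 < κ) (he : κ ≤ e) (he1 : e ≤ 1 / 16)
    (hre : q.re = e - 1 / 2) (him : q.im = γ) (hγ : |γ| ≤ 1 / 2) :
    κ / 4 ≤ gain (1 / 2) q - 1 / 2 * loss (1 / 2) q := by
  have he0 : 0 < e := by linarith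
  have hn : ‖q‖ ^ 2 = (e - 1 / 2) ^ 2 + γ ^ 2 := by
    rw [← Complex.normSq_eq_norm_sq, Complex.normSq_apply, hre, him]; ring
  have hγ2 : γ ^ 2 ≤ 1 / 4 := by
    rw [← sq_abs]
    nlinarith [abs_nonneg γ]
  have hn1 : ‖q‖ ^ 2 ≤ 1 / 2 := by rw [hn]; nlinarith
  have hn0 : 0 < ‖q‖ ^ 2 := by
    rw [hn]
    have : 0 < (e - 1 / 2) ^ 2 := by
      have : e - 1 / 2 ≠ 0 := by linarith
      positivity
    nlinarith [sq_nonneg γ]
  have h1 : 4 * e ≤ 4 * (1 / 2) * (1 / 2 + q.re) / ‖q‖ ^ 2 := by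
    rw [hre, le_div_iff₀ hn0]
    nlinarith
  have h2 : 1.6 * e ≤ gain (1 / 2) q := by
    unfold gain
    have h3 := Real.log_le_log (by positivity) (add_le_add_right h1 1)
    have h4 := Real.one_sub_inv_le_log_of_pos (by positivity : 0 < 1 + 4 * e)
    have h5 : 3.2 * e ≤ 1 - (1 + 4 * e)⁻¹ := by
      have : 1 - (1 + 4 * e)⁻¹ = 4 * e / (1 + 4 * e) := by field_simp; ring
      rw [this, le_div_iff₀ (by positivity)]
      nlinarith
    linarith
  have h3 : 1 / 2 * loss (1 / 2) q ≤ 1.2 * e := by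
    unfold loss
    rw [hre]
    have h4 : 0 < (1 / 2 - (e - 1 / 2)) ^ 2 := by
      have : (1 / 2 - (e - 1 / 2)) ≠ 0 := by linarith
      positivity
    have h5 : 4 * (1 / 2) * (1 / 2 + (e - 1 / 2)) / (1 / 2 - (e - 1 / 2)) ^ 2 ≤ 2.4 * e := by
      rw [div_le_iff₀ h4]
      have h6 : 0.875 ≤ (1 / 2 - (e - 1 / 2)) ^ 2 := by nlinarith
      have h7 := mul_le_mul_of_nonneg_left h6 he0.le
      linarith
    linarith
  linarith

theorem zero_sum (H : Hyp d Cn θ A Q0 c F) (hd : 0 ≤ d) (hCn : 1 ≤ Cn) (hδ : 0 < δ)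
    (p : ParZ d θ δ (BG d δ / δ) l y) (hQl : Real.log Q0 ≤ l) (S : Finset ℂ)
    (hS : ∀ ρ ∈ S, F ρ = 0 ∧ 1 - y / l ≤ ρ.re ∧ |ρ.im| ≤ 1 / 2) :
    ∑ ρ ∈ S, (analyticOrderNatAt F ρ : ℝ) ≤
      Kz d Cn δ A * (Real.exp y * Real.log l ^ 4) := by
  have hl := p.l4
  have hl0 : 0 < l := by linarith
  have hy0 := p.y0
  have hll := p.ll
  have ha16 := p.a16
  have haθ := p.aθ
  have hCb0 : 0 ≤ BG d δ / δ := div_nonneg (BG_nonneg hd) hδ.le
  set Cb : ℝ := BG d δ / δ with hCb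
  set κ : ℝ := 1 / l with hκdef
  set a : ℝ := (y + 2) / l with hadef
  have hκ : κ ≤ 1 / 4 := by
    rw [hκdef, div_le_div_iff₀ hl0 (by norm_num)]; linarith
  have hκ0 : 0 < κ := by positivity
  have ha0 : 0 < a := by positivity
  have haeq : a = y / l + 2 * κ := by rw [hadef, hκdef]; ring
  have hC2 := C2_nonneg
  have hC1 : 0 ≤ C1z Cn := by
    unfold C1z
    have := Real.log_nonneg hCn
    have := Real.log_pos (by norm_num : (1:ℝ) < 2)
    positivity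
  obtain ⟨g₀, hg₀, hFg⟩ := factor_all H.diff S
  obtain ⟨A', B', hB', hgr⟩ := Tz_growth H hκ0 hκ ha0.le (by linarith : a ≤ 1 / 2)
  -- far values
  set X : ℝ := a * Cb with hX
  have hX0 : 0 ≤ X := by positivity
  have hX1 : X ≤ 1 / 4 := p.aC
  have hfar : ∀ (σ t : ℝ), 3 / 2 + κ - a ≤ σ →
      ‖F ((σ : ℂ) + t * Complex.I) / F (((σ + a : ℝ) : ℂ) + t * Complex.I) - 1‖ ^ 2 ≤
        4 * X ^ 2 := by
    intro σ t hσ
    have h1 := ratio_far H hd hδ ha0.le (by linarith : 1 < σ) (by linarith : 1 + 2 * δ + θ ≤ σ)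
      (by rw [← hCb, ← hX]; linarith) t
    rw [← hCb, ← hX] at h1
    have h2 := pow_le_pow_left₀ (norm_nonneg _) h1 2
    linarith [h2, (by ring : (2 * X) ^ 2 = 4 * X ^ 2)]
  -- the majorant at the left edge
  set W : ℝ := 10 * Jb l * Real.exp (4 + 2 * C1z Cn + y) with hW
  set um : ℝ → ℝ := fun t => 10 * Jb l * (U c l y t + 1) *
    Real.exp (4 + 2 * C1z Cn + y + |t| / 2) with hum
  have hJ0 : 0 < Jb l := by
    unfold Jb
    have := Cj_ge
    positivity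
  have hU0 : ∀ t, 0 ≤ U c l y t := U_nonneg p
  obtain ⟨hUi, hUm⟩ := mean_U H p hQl
  have hKle : ∀ t, K (1 / 2) (π / 2) (-1) t ≤ Real.exp (-(π * |t|)) := by
    intro t
    have h1 := K_le_exp (h := 1 / 2) (by norm_num) half_mem (Or.inr rfl : (-1:ℝ) = 1 ∨ (-1:ℝ) = -1) t
    rw [Real.cos_pi_div_two, abs_zero] at h1
    norm_num at h1
    exact h1
  have hKum : ∀ t, K (1 / 2) (π / 2) (-1) t * um t ≤ 2 * W * (k0 t * U c l y t + k0 t) := by
    intro t
    have h1 := hKle t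
    have h2 : Real.exp (-(π * |t|)) * Real.exp (|t| / 2) ≤ Real.exp (-|t|) := by
      rw [← Real.exp_add]
      apply Real.exp_le_exp.2
      have := Real.pi_gt_three
      nlinarith [abs_nonneg t]
    have h3 : um t = W * (U c l y t + 1) * Real.exp (|t| / 2) := by
      simp only [hum, hW]
      rw [Real.exp_add (4 + 2 * C1z Cn + y) (|t| / 2)]
      ring
    have h4 : 0 ≤ W * (U c l y t + 1) := by
      have := hU0 t
      positivity
    rw [h3]
    calc K (1 / 2) (π / 2) (-1) t * (W * (U c l y t + 1) * Real.exp (|t| / 2)) ≤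
        Real.exp (-(π * |t|)) * (W * (U c l y t + 1) * Real.exp (|t| / 2)) := by
          refine mul_le_mul_of_nonneg_right h1 (by positivity)
      _ = (W * (U c l y t + 1)) * (Real.exp (-(π * |t|)) * Real.exp (|t| / 2)) := by ring
      _ ≤ (W * (U c l y t + 1)) * Real.exp (-|t|) := mul_le_mul_of_nonneg_left h2 h4
      _ = _ := by unfold k0; ring
  have hdom : Integrable (fun t => 2 * W * (k0 t * U c l y t + k0 t)) :=
    (hUi.add k0_int).const_mul _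
  have hKum0 : ∀ t, 0 ≤ K (1 / 2) (π / 2) (-1) t * um t := by
    intro t
    have h1 := K_pos (h := 1 / 2) (by norm_num) half_mem
      (Or.inr rfl : (-1:ℝ) = 1 ∨ (-1:ℝ) = -1) t
    have h2 := hU0 t
    simp only [hum]
    positivity
  have hmeas : AEStronglyMeasurable (U c l y) volume := by
    have h1 : U c l y = fun t => (k0 t)⁻¹ * (k0 t * U c l y t) := by
      funext t
      have : k0 t ≠ 0 := by unfold k0; positivity
      field_simp
    rw [h1]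
    refine AEStronglyMeasurable.mul (Continuous.aestronglyMeasurable ?_) hUi.aestronglyMeasurable
    refine k0_cont.inv₀ fun t => ?_
    unfold k0; positivity
  have humi : Integrable (fun t => K (1 / 2) (π / 2) (-1) t * um t) := by
    refine hdom.mono' ?_ (Eventually.of_forall fun t => ?_)
    · refine (K_continuous (by norm_num) half_mem (Or.inr rfl)).aestronglyMeasurable.mul ?_
      simp only [hum]
      refine AEStronglyMeasurable.mul ?_ (Continuous.aestronglyMeasurable (by fun_prop))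
      exact (hmeas.add aestronglyMeasurable_const).const_mul _
    · rw [Real.norm_of_nonneg (hKum0 t)]
      exact hKum t
  have hint : ∫ t, K (1 / 2) (π / 2) (-1) t * um t ≤
      2 * W * ((1 / 2 + 4 * (C2 * |A|)) * (l * Jb l) + 1) := by
    refine (integral_mono humi hdom hKum).trans ?_
    rw [integral_const_mul, integral_add hUi k0_int, k0_mass]
    have : 0 ≤ 2 * W := by positivity
    exact mul_le_mul_of_nonneg_left (by linarith) this
  -- the main inequality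
  set T : ℂ → ℂ := Tz F a (3 / 2 + κ) with hT
  have hT0 : 1 - 4 * X ^ 2 ≤ ‖T 0‖ := by
    refine le_trans ?_ (Tz_norm_ge F a (3 / 2 + κ) 0)
    have h1 := hfar (3 / 2 + κ - a) 0 le_rfl
    have e1 : (((3 / 2 + κ - a : ℝ) : ℂ) + (0:ℝ) * Complex.I) =
        0 + ((3 / 2 + κ - a : ℝ) : ℂ) := by simp
    have e2 : (((3 / 2 + κ - a + a : ℝ) : ℂ) + (0:ℝ) * Complex.I) =
        0 + ((3 / 2 + κ : ℝ) : ℂ) := by simp
    rw [e1, e2] at h1
    linarith
  have hXX : X ^ 2 ≤ 1 / 16 := by nlinarith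
  have hT0pos : 0 < ‖T 0‖ := by linarith
  have hlogT : -(8 * X ^ 2) ≤ Real.log ‖T 0‖ := by
    have h1 := Real.log_le_log (by linarith) hT0
    have h2 := Real.one_sub_inv_le_log_of_pos (by linarith : 0 < 1 - 4 * X ^ 2)
    have h3 : -(8 * X ^ 2) ≤ 1 - (1 - 4 * X ^ 2)⁻¹ := by
      have e1 : 1 - (1 - 4 * X ^ 2)⁻¹ = -(4 * X ^ 2 / (1 - 4 * X ^ 2)) := by
        have : 1 - 4 * X ^ 2 ≠ 0 := by linarith
        field_simp
        ring
      rw [e1]
      apply neg_le_neg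
      rw [div_le_iff₀ (by linarith)]
      nlinarith [sq_nonneg X]
    linarith
  have key := strip_zeros (T := T) (g := fun z => g₀ (z + ((3 / 2 + κ - a : ℝ) : ℂ)) /
      F (z + ((3 / 2 + κ : ℝ) : ℂ)) *
      (2 - F (z + ((3 / 2 + κ - a : ℝ) : ℂ)) / F (z + ((3 / 2 + κ : ℝ) : ℂ))))
    (h := 1 / 2) (A := A') (B := B') (S := S) (m := analyticOrderNatAt F)
    (p := fun ρ => ρ - ((3 / 2 + κ - a : ℝ) : ℂ))
    (up := fun _ => 4 * X ^ 2) (um := um) (N := 0) (by norm_num)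
    (fun z hz => by
      have h1 := abs_le.1 hz
      have h2 : F (z + ((3 / 2 + κ : ℝ) : ℂ)) ≠ 0 := by
        apply F_ne H
        simp
        linarith
      have a1 : AnalyticAt ℂ (fun z => g₀ (z + ((3 / 2 + κ - a : ℝ) : ℂ))) z :=
        AnalyticAt.comp (g := g₀) (hg₀.analyticAt _) (by fun_prop)
      have a2 : AnalyticAt ℂ (fun z => F (z + ((3 / 2 + κ : ℝ) : ℂ))) z :=
        AnalyticAt.comp (g := F) (H.diff.analyticAt _) (by fun_prop)
      have a3 : AnalyticAt ℂ (fun z => F (z + ((3 / 2 + κ - a : ℝ) : ℂ))) z :=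
        AnalyticAt.comp (g := F) (H.diff.analyticAt _) (by fun_prop)
      exact (a1.div a2 h2).mul (analyticAt_const.sub (a3.div a2 h2)))
    (fun z _ => by
      have h1 := hFg (z + ((3 / 2 + κ - a : ℝ) : ℂ))
      have h2 : (∏ ρ ∈ S, (z + ((3 / 2 + κ - a : ℝ) : ℂ) - ρ) ^ analyticOrderNatAt F ρ) =
          ∏ ρ ∈ S, (z - (ρ - ((3 / 2 + κ - a : ℝ) : ℂ))) ^ analyticOrderNatAt F ρ := by
        refine Finset.prod_congr rfl fun ρ _ => ?_
        congr 1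
        ring
      rw [h2] at h1
      simp only [hT, Tz]
      rw [show F (z + ((3 / 2 + κ - a : ℝ) : ℂ)) / F (z + ((3 / 2 + κ : ℝ) : ℂ)) *
        (2 - F (z + ((3 / 2 + κ - a : ℝ) : ℂ)) / F (z + ((3 / 2 + κ : ℝ) : ℂ))) =
        F (z + ((3 / 2 + κ - a : ℝ) : ℂ)) * ((F (z + ((3 / 2 + κ : ℝ) : ℂ)))⁻¹ *
        (2 - F (z + ((3 / 2 + κ - a : ℝ) : ℂ)) / F (z + ((3 / 2 + κ : ℝ) : ℂ)))) by
          rw [div_eq_mul_inv]; ring]
      nth_rewrite 1 [h1]
      ring)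
    (fun ρ hρ => by
      obtain ⟨h1, h2, -⟩ := hS ρ hρ
      have h3 : ρ.re ≤ 1 := by
        by_contra hcon
        exact F_ne H (not_le.1 hcon) h1
      simp only [Complex.sub_re, Complex.ofReal_re]
      rw [abs_lt]
      constructor <;> linarith)
    hB' hgr
    ((K_integrable (by norm_num) half_mem (Or.inl rfl)).mul_const _) humi
    (fun _ => by rw [neg_zero]; positivity)
    (fun t => by
      have := hU0 t
      simp only [hum]
      rw [neg_zero]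
      positivity)
    (fun t => by
      refine (Tz_norm_le F a (3 / 2 + κ) _).trans ?_
      have h1 := hfar (2 + κ - a) t (by linarith)
      have e1 : (((2 + κ - a : ℝ) : ℂ) + t * Complex.I) =
          ((1 / 2 : ℝ) : ℂ) + t * Complex.I + ((3 / 2 + κ - a : ℝ) : ℂ) := by push_cast; ring
      have e2 : (((2 + κ - a + a : ℝ) : ℂ) + t * Complex.I) =
          ((1 / 2 : ℝ) : ℂ) + t * Complex.I + ((3 / 2 + κ : ℝ) : ℂ) := by push_cast; ring
      rw [e1, e2] at h1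
      have h2 := Real.add_one_le_exp (4 * X ^ 2)
      linarith)
    (fun t => by
      refine (Tz_norm_le F a (3 / 2 + κ) _).trans ?_
      have h1 := H_bound H hd hCn p hQl t
      rw [← hκdef, ← hadef] at h1
      have e1 : (((1 + κ - a : ℝ) : ℂ) + t * Complex.I) =
          -((1 / 2 : ℝ) : ℂ) + t * Complex.I + ((3 / 2 + κ - a : ℝ) : ℂ) := by push_cast; ring
      have e2 : (((1 + κ : ℝ) : ℂ) + t * Complex.I) =
          -((1 / 2 : ℝ) : ℂ) + t * Complex.I + ((3 / 2 + κ : ℝ) : ℂ) := by push_cast; ring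
      rw [e1, e2] at h1
      exact h1)
    (norm_pos_iff.1 hT0pos)
  -- the gain
  have hgain : κ / 4 * ∑ ρ ∈ S, (analyticOrderNatAt F ρ : ℝ) ≤
      ∑ ρ ∈ S, (analyticOrderNatAt F ρ : ℝ) * gain (1 / 2) (ρ - ((3 / 2 + κ - a : ℝ) : ℂ)) -
      1 / 2 * ∑ ρ ∈ S, (analyticOrderNatAt F ρ : ℝ) *
        loss (1 / 2) (ρ - ((3 / 2 + κ - a : ℝ) : ℂ)) := by
    rw [Finset.mul_sum, Finset.mul_sum, ← Finset.sum_sub_distrib]
    refine Finset.sum_le_sum fun ρ hρ => ?_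
    obtain ⟨h1, h2, h4⟩ := hS ρ hρ
    have h3 : ρ.re ≤ 1 := by
      by_contra hcon
      exact F_ne H (not_le.1 hcon) h1
    have h5 := net_gain (κ := κ) (e := ρ.re + a - 1 - κ) (γ := ρ.im)
      (q := ρ - ((3 / 2 + κ - a : ℝ) : ℂ)) hκ0 (by linarith) (by linarith)
      (by simp only [Complex.sub_re, Complex.ofReal_re]; ring) (by simp) h4
    have h6 : (0:ℝ) ≤ analyticOrderNatAt F ρ := Nat.cast_nonneg _
    have h7 := mul_le_mul_of_nonneg_left h5 h6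
    linarith
  have hup : ∫ y : ℝ, K (1 / 2) (π / 2) 1 y * (4 * X ^ 2) = 2 * X ^ 2 := by
    rw [integral_mul_const, K_mass_one (by norm_num) half_mem]
    have := Real.pi_pos
    field_simp
    ring
  rw [hup] at key
  have hN : κ / 4 * ∑ ρ ∈ S, (analyticOrderNatAt F ρ : ℝ) ≤ 10 * X ^ 2 +
      2 * W * ((1 / 2 + 4 * (C2 * |A|)) * (l * Jb l) + 1) := by
    linarith
  -- the final bound
  have hN2 : ∑ ρ ∈ S, (analyticOrderNatAt F ρ : ℝ) ≤ 4 * l * (10 * X ^ 2 +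
      2 * W * ((1 / 2 + 4 * (C2 * |A|)) * (l * Jb l) + 1)) := by
    have h1 := mul_le_mul_of_nonneg_left hN (by positivity : 0 ≤ 4 * l)
    have h2 : 4 * l * (κ / 4 * ∑ ρ ∈ S, (analyticOrderNatAt F ρ : ℝ)) =
        ∑ ρ ∈ S, (analyticOrderNatAt F ρ : ℝ) := by
      rw [hκdef]; field_simp
    rw [h2] at h1
    exact h1
  refine hN2.trans ?_
  have hL4 : 1 ≤ Real.log l ^ 4 := one_le_pow₀ hll
  have hL2 : 1 ≤ Real.log l ^ 2 := one_le_pow₀ hll
  have hey : 1 ≤ Real.exp y := Real.one_le_exp hy0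
  have hlJ : l * Jb l = Cj * Real.log l ^ 2 := by
    unfold Jb; field_simp
  have h1 : 4 * l * (10 * X ^ 2) ≤ 40 * (Real.exp y * Real.log l ^ 4) := by
    have e1 : l * X ^ 2 ≤ 1 := p.a2
    have e2 : 1 ≤ Real.exp y * Real.log l ^ 4 := one_le_mul_of_one_le_of_one_le hey hL4
    linarith
  have h2 : 4 * l * (2 * W * ((1 / 2 + 4 * (C2 * |A|)) * (l * Jb l) + 1)) ≤
      800 * Cj * Real.exp (4 + 2 * C1z Cn) * ((1 / 2 + 4 * (C2 * |A|)) * Cj + 1) *
        (Real.exp y * Real.log l ^ 4) := by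
    have e1 : l * W = 10 * (Cj * Real.log l ^ 2) * (Real.exp (4 + 2 * C1z Cn) * Real.exp y) := by
      rw [hW, Real.exp_add, ← hlJ]; ring
    have e2 : (1 / 2 + 4 * (C2 * |A|)) * (l * Jb l) + 1 ≤
        ((1 / 2 + 4 * (C2 * |A|)) * Cj + 1) * Real.log l ^ 2 := by
      rw [hlJ]
      have := mul_nonneg (by positivity : 0 ≤ (1 / 2 + 4 * (C2 * |A|))) (zero_le_one.trans Cj_ge)
      linarith
    have hCj := Cj_ge
    calc 4 * l * (2 * W * ((1 / 2 + 4 * (C2 * |A|)) * (l * Jb l) + 1)) =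
        8 * (l * W) * ((1 / 2 + 4 * (C2 * |A|)) * (l * Jb l) + 1) := by ring
      _ ≤ 8 * (l * W) * (((1 / 2 + 4 * (C2 * |A|)) * Cj + 1) * Real.log l ^ 2) := by
          refine mul_le_mul_of_nonneg_left e2 ?_
          rw [e1]
          positivity
      _ = 80 * Cj * Real.exp (4 + 2 * C1z Cn) * ((1 / 2 + 4 * (C2 * |A|)) * Cj + 1) *
        (Real.exp y * Real.log l ^ 4) := by rw [e1]; ring
      _ ≤ _ := by
          have : 0 ≤ Cj * Real.exp (4 + 2 * C1z Cn) * ((1 / 2 + 4 * (C2 * |A|)) * Cj + 1) *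
            (Real.exp y * Real.log l ^ 4) := by positivity
          linarith
  unfold Kz
  linarith

end

end Pool.Agent.R402.Zed
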