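import Mathlib
import Pool.Agent.R402.Zed2

/-!
# The zero density estimate near the line `Re s = 1`, uniform version
-/

set_option autoImplicit false

open MeasureTheory Filter Topology Set Real

namespace Pool.Agent.R402.Zed

open Pool.Agent.R402.Core Pool.Agent.R402.MeanSq

lemma parZ_eventually {d θ δ Cb : ℝ} (hd : 0 ≤ d) (hδ : 0 < δ) (hθ : θ + 4 * δ ≤ 1 / 2)
    (hCb : 0 ≤ Cb) :
    ∃ l0 : ℝ, 4 ≤ l0 ∧ ∀ l : ℝ, l0 ≤ l → ∀ y : ℝ, 0 ≤ y → y ≤ Real.log l →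
      ParZ d θ δ Cb l y := by
  set Kc : ℝ := 32 + 1 / δ + 4 * d + 8 * Cb + 4 * Cb ^ 2 + d * Cj with hKc
  have hCj : 0 ≤ Cj := zero_le_one.trans Cj_ge
  have hK0 : 0 < Kc := by positivity
  have t1 := Real.tendsto_log_atTop
  have e2 : ∀ᶠ l : ℝ in atTop, 2 ≤ Real.log l := t1.eventually_ge_atTop 2
  have e6 : ∀ᶠ l : ℝ in atTop, ‖Real.log l ^ 2‖ ≤ 1 / Kc * ‖l‖ :=
    (Real.isLittleO_pow_log_id_atTop (n := 2)).bound (by positivity)
  obtain ⟨l0, hl0⟩ := eventually_atTop.1 (e2.and e6)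
  refine ⟨max l0 4, le_max_right _ _, fun l hl y hy0 hy1 => ?_⟩
  obtain ⟨h2, h6⟩ := hl0 l ((le_max_left _ _).trans hl)
  have h4 : 4 ≤ l := (le_max_right _ _).trans hl
  have hlp : 0 < l := by linarith
  rw [Real.norm_of_nonneg (by positivity), Real.norm_of_nonneg hlp.le] at h6
  set L := Real.log l with hL
  have hKl : Kc * L ^ 2 ≤ l := by
    have := mul_le_mul_of_nonneg_left h6 hK0.le
    rwa [← mul_assoc, mul_one_div, div_self hK0.ne', one_mul] at this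
  have hLL : L ≤ L ^ 2 := le_self_pow₀ (by linarith) two_ne_zero
  have hL0 : 0 < L := by linarith
  have hL20 : 0 ≤ L ^ 2 := by positivity
  have ha : (y + 2) / l ≤ 2 * L / l := by gcongr; linarith
  have ha0 : 0 ≤ (y + 2) / l := by positivity
  -- consequences of the single inequality
  have c1 : 32 * L ^ 2 ≤ l := by
    refine le_trans ?_ hKl
    refine mul_le_mul_of_nonneg_right ?_ hL20
    rw [hKc]
    have : 0 ≤ 1 / δ + 4 * d + 8 * Cb + 4 * Cb ^ 2 + d * Cj := by positivity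
    linarith
  have c2 : 1 / δ * L ^ 2 ≤ l := by
    refine le_trans ?_ hKl
    refine mul_le_mul_of_nonneg_right ?_ hL20
    rw [hKc]
    have : 0 ≤ 32 + 4 * d + 8 * Cb + 4 * Cb ^ 2 + d * Cj := by positivity
    linarith
  have c3 : 4 * d * L ^ 2 ≤ l := by
    refine le_trans ?_ hKl
    refine mul_le_mul_of_nonneg_right ?_ hL20
    rw [hKc]
    have : 0 ≤ 32 + 1 / δ + 8 * Cb + 4 * Cb ^ 2 + d * Cj := by positivity
    linarith
  have c4 : 8 * Cb * L ^ 2 ≤ l := by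
    refine le_trans ?_ hKl
    refine mul_le_mul_of_nonneg_right ?_ hL20
    rw [hKc]
    have : 0 ≤ 32 + 1 / δ + 4 * d + 4 * Cb ^ 2 + d * Cj := by positivity
    linarith
  have c5 : 4 * Cb ^ 2 * L ^ 2 ≤ l := by
    refine le_trans ?_ hKl
    refine mul_le_mul_of_nonneg_right ?_ hL20
    rw [hKc]
    have : 0 ≤ 32 + 1 / δ + 4 * d + 8 * Cb + d * Cj := by positivity
    linarith
  have c6 : d * Cj * L ^ 2 ≤ l := by
    refine le_trans ?_ hKl
    refine mul_le_mul_of_nonneg_right ?_ hL20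
    rw [hKc]
    have : 0 ≤ 32 + 1 / δ + 4 * d + 8 * Cb + 4 * Cb ^ 2 := by positivity
    linarith
  refine ⟨h4, hy0, by linarith, ?_, ?_, ?_, ?_, ?_, ?_, ?_, by linarith⟩
  · refine ha.trans ?_
    rw [div_le_iff₀ hlp]; linarith
  · have : 2 * L / l ≤ 2 * δ := by
      rw [div_le_iff₀ hlp]
      have h7 : 1 / δ * L ≤ l := (mul_le_mul_of_nonneg_left hLL (by positivity)).trans c2
      rw [one_div, inv_mul_le_iff₀ hδ] at h7
      linarith
    linarith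
  · have h7 : (y + 2) / l * d ≤ 2 * L / l * d := mul_le_mul_of_nonneg_right ha hd
    refine h7.trans ?_
    rw [div_mul_eq_mul_div, div_le_iff₀ hlp]
    have := mul_le_mul_of_nonneg_left hLL (by positivity : 0 ≤ 4 * d)
    linarith
  · have h7 : (y + 2) / l * L ≤ 2 * L / l * L := mul_le_mul_of_nonneg_right ha hL0.le
    refine h7.trans ?_
    rw [div_mul_eq_mul_div, div_le_iff₀ hlp]
    linarith
  · have h7 : (y + 2) / l * Cb ≤ 2 * L / l * Cb := mul_le_mul_of_nonneg_right ha hCb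
    refine h7.trans ?_
    rw [div_mul_eq_mul_div, div_le_iff₀ hlp]
    have := mul_le_mul_of_nonneg_left hLL (by positivity : 0 ≤ 8 * Cb)
    linarith
  · have h7 : ((y + 2) / l * Cb) ^ 2 ≤ (2 * L / l * Cb) ^ 2 := by
      refine pow_le_pow_left₀ (by positivity) ?_ 2
      exact mul_le_mul_of_nonneg_right ha hCb
    refine (mul_le_mul_of_nonneg_left h7 hlp.le).trans ?_
    have h8 : l * (2 * L / l * Cb) ^ 2 = 4 * Cb ^ 2 * L ^ 2 / l := by
      field_simp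
      ring
    rw [h8, div_le_one hlp]
    exact c5
  · have h8 : d * Jb l = d * Cj * L ^ 2 / l := by
      unfold Jb
      rw [← hL]
      ring
    rw [h8, div_le_one hlp]
    exact c6

theorem zero_uniform {d Cn θ : ℝ} (A : ℝ) (hd : 0 ≤ d) (hCn : 1 ≤ Cn) (hθ : θ < 1 / 2) :
    ∃ B Q1 : ℝ, 0 ≤ B ∧ 1 ≤ Q1 ∧ ∀ (Q0 : ℝ) (c : ℕ → ℂ) (F : ℂ → ℂ), Hyp d Cn θ A Q0 c F →
      Q1 ≤ Q0 → ∀ σ : ℝ, (1 - σ) * Real.log Q0 ≤ Real.log (Real.log Q0) →
      ∀ S : Finset ℂ, (∀ ρ ∈ S, F ρ = 0 ∧ σ ≤ ρ.re ∧ |ρ.im| ≤ 1 / 2) →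
      ∑ ρ ∈ S, (analyticOrderNatAt F ρ : ℝ) ≤
        B * (Real.log (Real.log Q0) ^ 4 * Q0 ^ (1 - σ)) := by
  set δ : ℝ := (1 / 2 - θ) / 4 with hδdef
  have hδ : 0 < δ := by linarith
  have hδθ : θ + 4 * δ ≤ 1 / 2 := by rw [hδdef]; linarith
  obtain ⟨l0, hl04, hl0⟩ := parZ_eventually (Cb := BG d δ / δ) hd hδ hδθ
    (div_nonneg (BG_nonneg hd) hδ.le)
  refine ⟨max (Kz d Cn δ A) 0, Real.exp l0, le_max_right _ _,
    Real.one_le_exp (by linarith), fun Q0 c F H hQ1 σ hσ S hS => ?_⟩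
  have hQ0 : 0 < Q0 := lt_of_lt_of_le (Real.exp_pos _) hQ1
  have hl : l0 ≤ Real.log Q0 := by
    rw [Real.le_log_iff_exp_le hQ0]; exact hQ1
  set l := Real.log Q0 with hldef
  have hlp : 0 < l := by linarith
  rcases le_or_gt σ 1 with hσ1 | hσ1
  · have hy0 : 0 ≤ (1 - σ) * l := mul_nonneg (by linarith) hlp.le
    have p := hl0 l hl ((1 - σ) * l) hy0 hσ
    have h1 := zero_sum H hd hCn hδ p le_rfl S (fun ρ hρ => by
      obtain ⟨a1, a2, a3⟩ := hS ρ hρ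
      refine ⟨a1, ?_, a3⟩
      have : (1 - σ) * l / l = 1 - σ := by field_simp
      rw [this]
      linarith)
    refine h1.trans ?_
    have h2 : Real.exp ((1 - σ) * l) = Q0 ^ (1 - σ) := by
      rw [Real.rpow_def_of_pos hQ0, mul_comm]
    rw [h2]
    have h3 : 0 ≤ Real.log l ^ 4 * Q0 ^ (1 - σ) := by
      have := Real.rpow_nonneg hQ0.le (1 - σ)
      positivity
    calc Kz d Cn δ A * (Q0 ^ (1 - σ) * Real.log l ^ 4) =
        Kz d Cn δ A * (Real.log l ^ 4 * Q0 ^ (1 - σ)) := by ring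
      _ ≤ _ := mul_le_mul_of_nonneg_right (le_max_left _ _) h3
  · have hSe : S = ∅ := by
      rw [Finset.eq_empty_iff_forall_notMem]
      intro ρ hρ
      obtain ⟨a1, a2, -⟩ := hS ρ hρ
      exact F_ne H (by linarith) a1
    rw [hSe, Finset.sum_empty]
    have := Real.rpow_nonneg hQ0.le (1 - σ)
    have h1 : 0 ≤ max (Kz d Cn δ A) 0 := le_max_right _ _
    positivity

end Pool.Agent.R402.Zed
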