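import Mathlib
import Pool.Agent.R402.ZedU

/-!
# The values of `F` just to the left of the line `Re s = 1`, in measure
-/

set_option autoImplicit false

open MeasureTheory Filter Topology Set Real

namespace Pool.Agent.R402.Zed

open Pool.Agent.R402.Core Pool.Agent.R402.MeanSq

variable {d Cn θ A Q0 δ Cb l y : ℝ} {c : ℕ → ℂ} {F : ℂ → ℂ}

/-- the constant -/
noncomputable def Km (Cn A : ℝ) : ℝ :=
  80 * Cj * Real.exp (5 + 2 * C1z Cn) * ((1 / 2 + 4 * (C2 * |A|)) * Cj + 1)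

lemma Km_nonneg (hCn : 1 ≤ Cn) : 0 ≤ Km Cn A := by
  unfold Km
  have := Cj_ge
  have := C2_nonneg
  positivity

/-- the function whose size is measured -/
noncomputable def dev (F : ℂ → ℂ) (l y t : ℝ) : ℝ :=
  ‖F (((1 + 1 / l - (y + 2) / l : ℝ) : ℂ) + t * Complex.I) /
      F (((1 + 1 / l : ℝ) : ℂ) + t * Complex.I) - 1‖

theorem meas_dev (H : Hyp d Cn θ A Q0 c F) (hd : 0 ≤ d) (hCn : 1 ≤ Cn)
    (p : ParZ d θ δ Cb l y) (hQl : Real.log Q0 ≤ l) {η : ℝ} (hη : 0 < η) (hη1 : η ≤ 1) :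
    volume {t : ℝ | |t| ≤ 1 / 2 ∧ η < dev F l y t} ≤
      ENNReal.ofReal (Km Cn A * (η⁻¹ ^ 2 * (Real.exp y * Real.log l ^ 4 / l))) := by
  have hl := p.l4
  have hl0 : 0 < l := by linarith
  have hll := p.ll
  have hCj := Cj_ge
  have hC2 := C2_nonneg
  have hJ0 : 0 < Jb l := by
    unfold Jb
    positivity
  have hU0 : ∀ t, 0 ≤ U c l y t := U_nonneg p
  obtain ⟨hUi, hUm⟩ := mean_U H p hQl
  set W : ℝ := 10 * Jb l * Real.exp (4 + 2 * C1z Cn + y) with hW
  have hW0 : 0 < W := by positivity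
  set f : ℝ → ℝ := fun t => 2 * W * Real.exp 1 * (k0 t * U c l y t + k0 t) with hf
  have hfi : Integrable f := (hUi.add k0_int).const_mul _
  have hf0 : ∀ t, 0 ≤ f t := by
    intro t
    have h1 := hU0 t
    have h2 := k0_nonneg t
    simp only [hf]
    positivity
  have hη2 : 0 < η ^ 2 / 2 := by positivity
  have hsub : {t : ℝ | |t| ≤ 1 / 2 ∧ η < dev F l y t} ⊆ {t : ℝ | η ^ 2 / 2 ≤ f t} := by
    rintro t ⟨ht1, ht2⟩
    have h1 := H_bound H hd hCn p hQl t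
    have h2 : η ^ 2 ≤ dev F l y t ^ 2 := pow_le_pow_left₀ hη.le ht2.le 2
    unfold dev at h2
    have h3 : 1 + η ^ 2 ≤ Real.exp (10 * Jb l * (U c l y t + 1) *
        Real.exp (4 + 2 * C1z Cn + y + |t| / 2)) := by linarith
    have h4 := Real.log_le_log (by positivity) h3
    rw [Real.log_exp] at h4
    have h5 := Real.one_sub_inv_le_log_of_pos (by positivity : 0 < 1 + η ^ 2)
    have h6 : η ^ 2 / 2 ≤ 1 - (1 + η ^ 2)⁻¹ := by
      have e1 : 1 - (1 + η ^ 2)⁻¹ = η ^ 2 / (1 + η ^ 2) := by field_simp; ring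
      rw [e1]
      apply div_le_div_of_nonneg_left (by positivity) (by positivity)
      nlinarith
    have h7 : 10 * Jb l * (U c l y t + 1) * Real.exp (4 + 2 * C1z Cn + y + |t| / 2) ≤ f t := by
      have e1 : f t = W * (U c l y t + 1) * Real.exp (1 - |t|) := by
        simp only [hf, k0]
        rw [show (1:ℝ) - |t| = 1 + -|t| by ring, Real.exp_add]
        ring
      have e2 : 10 * Jb l * (U c l y t + 1) * Real.exp (4 + 2 * C1z Cn + y + |t| / 2) =
          W * (U c l y t + 1) * Real.exp (|t| / 2) := by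
        rw [hW, Real.exp_add (4 + 2 * C1z Cn + y) (|t| / 2)]
        ring
      rw [e1, e2]
      have h8 := hU0 t
      refine mul_le_mul_of_nonneg_left ?_ (by positivity)
      apply Real.exp_le_exp.2
      linarith
    show η ^ 2 / 2 ≤ f t
    linarith
  have hmarkov := mul_meas_ge_le_integral_of_nonneg (μ := volume)
    (Eventually.of_forall hf0) hfi (η ^ 2 / 2)
  have hfint : ∫ t, f t ≤ 2 * W * Real.exp 1 * ((1 / 2 + 4 * (C2 * |A|)) * (l * Jb l) + 1) := by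
    simp only [hf]
    rw [integral_const_mul, integral_add hUi k0_int, k0_mass]
    exact mul_le_mul_of_nonneg_left (by linarith) (by positivity)
  have hfin : volume {t : ℝ | η ^ 2 / 2 ≤ f t} ≠ ⊤ := (hfi.measure_ge_lt_top hη2).ne
  refine (measure_mono hsub).trans ?_
  rw [← ENNReal.ofReal_toReal hfin]
  apply ENNReal.ofReal_le_ofReal
  have h1 : (volume {t : ℝ | η ^ 2 / 2 ≤ f t}).toReal ≤ (η ^ 2 / 2)⁻¹ * ∫ t, f t := by
    rw [← div_eq_inv_mul, le_div_iff₀ hη2, mul_comm]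
    exact hmarkov
  refine h1.trans ?_
  have hlJ : l * Jb l = Cj * Real.log l ^ 2 := by
    unfold Jb; field_simp
  have hL2 : 1 ≤ Real.log l ^ 2 := one_le_pow₀ hll
  have e2 : (1 / 2 + 4 * (C2 * |A|)) * (l * Jb l) + 1 ≤
      ((1 / 2 + 4 * (C2 * |A|)) * Cj + 1) * Real.log l ^ 2 := by
    rw [hlJ]
    linarith
  calc (η ^ 2 / 2)⁻¹ * ∫ t, f t ≤ (η ^ 2 / 2)⁻¹ * (2 * W * Real.exp 1 *
        ((1 / 2 + 4 * (C2 * |A|)) * (l * Jb l) + 1)) :=
        mul_le_mul_of_nonneg_left hfint (by positivity)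
    _ ≤ (η ^ 2 / 2)⁻¹ * (2 * W * Real.exp 1 *
        (((1 / 2 + 4 * (C2 * |A|)) * Cj + 1) * Real.log l ^ 2)) := by gcongr
    _ = 40 * Cj * Real.exp (5 + 2 * C1z Cn) * ((1 / 2 + 4 * (C2 * |A|)) * Cj + 1) *
        (η⁻¹ ^ 2 * (Real.exp y * Real.log l ^ 4 / l)) := by
        rw [hW, Real.exp_add (4 + 2 * C1z Cn) y, show 5 + 2 * C1z Cn = (4 + 2 * C1z Cn) + 1 by ring,
          Real.exp_add (4 + 2 * C1z Cn) 1]
        unfold Jb
        field_simp
        ring
    _ ≤ _ := by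
        unfold Km
        have : 0 ≤ Cj * Real.exp (5 + 2 * C1z Cn) * ((1 / 2 + 4 * (C2 * |A|)) * Cj + 1) *
          (η⁻¹ ^ 2 * (Real.exp y * Real.log l ^ 4 / l)) := by positivity
        linarith

end Pool.Agent.R402.Zed
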