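import Mathlib
import Pool.Agent.R402.Fin

/-!
# The uniform bound at the central point
-/

set_option autoImplicit false

open MeasureTheory Filter Topology Set Real

namespace Pool.Agent.R402.Fin

open Pool.Agent.R402.Core

lemma par_eventually {δ : ℝ} (hδ : 0 < δ) :
    ∀ᶠ l : ℝ in atTop, Par l (Real.log l - 4 * Real.log (Real.log l)) δ := by
  have t1 := Real.tendsto_log_atTop
  have e1 : ∀ᶠ l : ℝ in atTop, 4 ≤ l := eventually_ge_atTop 4
  have e2 : ∀ᶠ l : ℝ in atTop, 1 ≤ Real.log l := t1.eventually_ge_atTop 1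
  have e3 : ∀ᶠ L : ℝ in atTop, ‖Real.log L‖ ≤ 1 / 4 * ‖L‖ :=
    Real.isLittleO_log_id_atTop.bound (by norm_num)
  have e4 := t1.eventually e3
  have e5 : ∀ᶠ L : ℝ in atTop, ‖Real.log L‖ ≤ δ * ‖L‖ :=
    Real.isLittleO_log_id_atTop.bound hδ
  have e6 : ∀ᶠ L : ℝ in atTop, ‖Real.log L ^ 2‖ ≤ 1 / 4 * ‖L‖ :=
    (Real.isLittleO_pow_log_id_atTop (n := 2)).bound (by norm_num)
  filter_upwards [e1, e2, e3, e4, e5, e6] with l h1 h2 h3 h4 h5 h6
  have hl0 : 0 < l := by linarith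
  have hL0 : 0 < Real.log l := by linarith
  have hLL : 0 ≤ Real.log (Real.log l) := Real.log_nonneg h2
  rw [Real.norm_of_nonneg hL0.le, Real.norm_of_nonneg hl0.le] at h3
  rw [Real.norm_of_nonneg hLL, Real.norm_of_nonneg hL0.le] at h4
  rw [Real.norm_of_nonneg hL0.le, Real.norm_of_nonneg hl0.le] at h5
  rw [Real.norm_of_nonneg (by positivity), Real.norm_of_nonneg hl0.le] at h6
  set L := Real.log l with hL
  have hy1 : L - 4 * Real.log L + 1 ≤ 2 * L := by linarith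
  refine ⟨h1, by linarith, hy1, ?_, ?_, ?_, ?_, h2, by linarith, ?_⟩
  · rw [div_le_iff₀ hl0]; linarith
  · rw [div_le_iff₀ hl0]; linarith
  · rw [div_le_iff₀ hl0]; linarith
  · rw [div_mul_eq_mul_div, div_le_one hl0]
    have h7 : (L - 4 * Real.log L + 1) / 2 + 1 ≤ 2 * L := by linarith
    have h8 : 0 ≤ L - 4 * Real.log L + 1 := by linarith
    calc (L - 4 * Real.log L + 1) * ((L - 4 * Real.log L + 1) / 2 + 1) ≤ 2 * L * (2 * L) :=
          mul_le_mul hy1 h7 (by linarith) (by linarith)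
      _ = 4 * L ^ 2 := by ring
      _ ≤ l := by linarith
  · have h7 : (L - 4 * Real.log L) / 2 = L / 2 - ((2:ℕ) : ℝ) * Real.log L := by push_cast; ring
    rw [h7, Real.exp_sub, Real.exp_nat_mul, Real.exp_log hL0]
    congr 1
    rw [Real.sqrt_eq_rpow, Real.rpow_def_of_pos hl0]
    congr 1
    ring

theorem uniform {d Cn θ : ℝ} (A : ℝ) (hd : 0 ≤ d) (hCn : 1 ≤ Cn) (hθ : θ < 1 / 2) :
    ∃ B : ℝ, 0 ≤ B ∧ ∀ (Q0 : ℝ) (c : ℕ → ℂ) (F : ℂ → ℂ), Hyp d Cn θ A Q0 c F →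
      ‖F (1 / 2)‖ ≤ B * (Q0 ^ (1 / 4 : ℝ) * Real.log (Q0 + 16) ^ (-(1 / 2) : ℝ) *
        Real.log (Real.log (Q0 + 16)) ^ 2) := by
  set δ : ℝ := (1 / 2 - θ) / 2 with hδdef
  have hδ : 0 < δ := by linarith
  have hδθ : θ + 2 * δ ≤ 1 / 2 := by rw [hδdef]; linarith
  obtain ⟨l0, hl0⟩ := eventually_atTop.1 (par_eventually hδ)
  set C0 : ℝ := |l0| + Real.log 17 with hC0
  have hlog17 : 0 < Real.log 17 := Real.log_pos (by norm_num)
  have hC0p : 0 ≤ C0 := by positivity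
  refine ⟨Real.exp (K0 d Cn δ A + C0 / 2) * (Real.log (1 + C0) + 1) ^ 2, by positivity, ?_⟩
  intro Q0 c F H
  have hQ := H.one_le
  have hQ0 : 0 < Q0 := by linarith
  have hlQ : 0 ≤ Real.log Q0 := Real.log_nonneg hQ
  set l : ℝ := Real.log Q0 + C0 with hl
  have hll0 : l0 ≤ l := by
    have := le_abs_self l0
    rw [hl, hC0]; linarith
  have p := hl0 l hll0
  set y : ℝ := Real.log l - 4 * Real.log (Real.log l) with hy
  have h1 := core_bound H hd hCn hδ hδθ p (by linarith : Real.log Q0 ≤ l)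
  have hlpos : 0 < l := by linarith [p.l4]
  have hy2 := p.y2
  have hy0 := p.y0
  have hLpos : 0 < Real.log l := by linarith [p.ll]
  -- the exponent
  have h2 : K0 d Cn δ A + (1 / 2 - y / l) / 2 * Real.log Q0 ≤
      (K0 d Cn δ A + C0 / 2) + (1 / 4 * Real.log Q0 - y / 2) := by
    have e1 : Real.log Q0 = l - C0 := by rw [hl]; ring
    have e2 : y / l * l = y := by field_simp
    have e3 : y / l * Real.log Q0 = y - y / l * C0 := by rw [e1, mul_sub, e2]
    have e4 : y / l * C0 ≤ 1 * C0 := mul_le_mul_of_nonneg_right (by linarith) hC0p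
    have e5 : (1 / 2 - y / l) / 2 * Real.log Q0 = 1 / 4 * Real.log Q0 - (y / l * Real.log Q0) / 2 := by
      ring
    rw [e5, e3]
    linarith
  have h3 : Real.exp (1 / 4 * Real.log Q0 - y / 2) =
      Q0 ^ (1 / 4 : ℝ) * (l ^ (-(1 / 2) : ℝ) * Real.log l ^ 2) := by
    rw [Real.exp_sub, p.ey, Real.rpow_def_of_pos hQ0, Real.rpow_neg hlpos.le,
      ← Real.sqrt_eq_rpow, mul_comm (Real.log Q0)]
    have : √l ≠ 0 := (Real.sqrt_pos.2 hlpos).ne'
    field_simp
  have h4 : ‖F (1 / 2)‖ ≤ Real.exp (K0 d Cn δ A + C0 / 2) *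
      (Q0 ^ (1 / 4 : ℝ) * (l ^ (-(1 / 2) : ℝ) * Real.log l ^ 2)) := by
    rw [← h3, ← Real.exp_add]
    exact h1.trans (Real.exp_le_exp.2 h2)
  refine h4.trans ?_
  -- comparison of the logarithms
  set m : ℝ := Real.log (Q0 + 16) with hm
  have hm1 : Real.log 17 ≤ m := Real.log_le_log (by norm_num) (by linarith)
  have hln17 : Real.exp 1 ≤ Real.log 17 := by
    have e1 : Real.log 16 ≤ Real.log 17 := Real.log_le_log (by norm_num) (by norm_num)
    have e2 : Real.log 16 = 4 * Real.log 2 := by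
      rw [show (16:ℝ) = 2 ^ 4 by norm_num, Real.log_pow]; norm_num
    have e3 := Real.log_two_gt_d9
    have e4 := Real.exp_one_lt_d9
    linarith
  have hm0 : 0 < m := by linarith
  have hexp1 := Real.add_one_le_exp (1:ℝ)
  have hlm : 1 ≤ Real.log m := by
    rw [Real.le_log_iff_exp_le hm0]; linarith
  have hml : m ≤ l := by
    have e1 : m ≤ Real.log (Q0 * 17) := Real.log_le_log (by linarith) (by linarith)
    rw [Real.log_mul hQ0.ne' (by norm_num)] at e1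
    rw [hl, hC0]
    linarith [abs_nonneg l0]
  have hlm2 : l ≤ (1 + C0) * m := by
    have e1 : Real.log Q0 ≤ m := Real.log_le_log hQ0 (by linarith)
    have e2 : C0 ≤ C0 * m := by nlinarith
    rw [hl]; linarith
  have h5 : l ^ (-(1 / 2) : ℝ) ≤ m ^ (-(1 / 2) : ℝ) :=
    Real.rpow_le_rpow_of_nonpos hm0 hml (by norm_num)
  have hlogC : 0 ≤ Real.log (1 + C0) := Real.log_nonneg (by linarith)
  have h6 : Real.log l ≤ (Real.log (1 + C0) + 1) * Real.log m := by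
    have e1 := Real.log_le_log hlpos hlm2
    rw [Real.log_mul (by linarith) hm0.ne'] at e1
    nlinarith
  have h7 : Real.log l ^ 2 ≤ (Real.log (1 + C0) + 1) ^ 2 * Real.log m ^ 2 := by
    rw [← mul_pow]
    exact pow_le_pow_left₀ hLpos.le h6 2
  have hQr : 0 ≤ Q0 ^ (1 / 4 : ℝ) := Real.rpow_nonneg hQ0.le _
  have hmr : 0 ≤ m ^ (-(1 / 2) : ℝ) := Real.rpow_nonneg hm0.le _
  calc Real.exp (K0 d Cn δ A + C0 / 2) *
        (Q0 ^ (1 / 4 : ℝ) * (l ^ (-(1 / 2) : ℝ) * Real.log l ^ 2)) ≤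
      Real.exp (K0 d Cn δ A + C0 / 2) * (Q0 ^ (1 / 4 : ℝ) * (m ^ (-(1 / 2) : ℝ) *
        ((Real.log (1 + C0) + 1) ^ 2 * Real.log m ^ 2))) := by gcongr
    _ = _ := by ring

end Pool.Agent.R402.Fin
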