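import Mathlib
import Pool.Agent.R402.MeanSq

/-!
# The upper bound `∑ Λ(n) n^{-σ} ≤ C / (σ - 1)` for `1 < σ ≤ 2`
-/

set_option autoImplicit false

open MeasureTheory Filter Topology Set Real
open scoped ArithmeticFunction.vonMangoldt

namespace Pool.Agent.R402.MeanSq

lemma sum_v_fin {κ : ℝ} (hκ : 0 < κ) (hκ1 : κ ≤ 1) (S : Finset ℕ) (hS : ∀ n ∈ S, 0 < n) :
    ∑ n ∈ S, v (1 + κ) n ≤ 2 * (C1 * Real.exp 1) / κ := by
  classical
  set k : ℕ → ℕ := fun n => ⌊Real.log n⌋₊ with hk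
  set r : ℝ := Real.exp (-κ) with hr
  have hr0 : 0 < r := Real.exp_pos _
  have hr1 : r < 1 := by rw [hr, Real.exp_lt_one_iff]; linarith
  have h1 : ∀ n ∈ S, v (1 + κ) n ≤ Λ n * (n : ℝ)⁻¹ * r ^ k n := by
    intro n hn
    have hn0 : (0:ℝ) < n := by exact_mod_cast hS n hn
    have hlog : 0 ≤ Real.log n := Real.log_natCast_nonneg n
    unfold v
    have e1 : (n:ℝ) ^ (-(1 + κ)) = (n:ℝ)⁻¹ * (n:ℝ) ^ (-κ) := by
      rw [neg_add, Real.rpow_add hn0, Real.rpow_neg_one]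
    have e2 : (n:ℝ) ^ (-κ) ≤ r ^ k n := by
      rw [Real.rpow_def_of_pos hn0, hr, ← Real.exp_nat_mul]
      apply Real.exp_le_exp.2
      have := Nat.floor_le hlog
      simp only [hk]
      nlinarith
    rw [e1, ← mul_assoc]
    refine mul_le_mul_of_nonneg_left e2 ?_
    exact mul_nonneg ArithmeticFunction.vonMangoldt_nonneg (by positivity)
  have h2 : ∑ n ∈ S, Λ n * (n : ℝ)⁻¹ * r ^ k n =
      ∑ j ∈ S.image k, ∑ n ∈ S with k n = j, Λ n * (n : ℝ)⁻¹ * r ^ k n :=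
    (Finset.sum_fiberwise_of_maps_to (fun n hn => Finset.mem_image_of_mem k hn) _).symm
  have h3 : ∀ j ∈ S.image k, ∑ n ∈ S with k n = j, Λ n * (n : ℝ)⁻¹ * r ^ k n ≤
      (C1 * Real.exp 1) * r ^ j := by
    intro j _
    have e1 : ∑ n ∈ S with k n = j, Λ n * (n : ℝ)⁻¹ * r ^ k n =
        (∑ n ∈ S with k n = j, Λ n * (n : ℝ)⁻¹) * r ^ j := by
      rw [Finset.sum_mul]
      refine Finset.sum_congr rfl fun n hn => ?_
      rw [(Finset.mem_filter.1 hn).2]
    have e2 := block (j : ℝ) (S.filter (fun n => k n = j)) (by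
      intro n hn
      obtain ⟨h4, h5⟩ := Finset.mem_filter.1 hn
      have hlog : 0 ≤ Real.log n := Real.log_natCast_nonneg n
      have h6 := Nat.floor_le hlog
      have h7 := Nat.lt_floor_add_one (Real.log n)
      have h8 : ((⌊Real.log n⌋₊ : ℕ) : ℝ) = (j : ℝ) := by
        have : ⌊Real.log n⌋₊ = j := h5
        exact_mod_cast this
      rw [h8] at h6 h7
      exact ⟨hS n h4, by linarith, by linarith⟩)
    rw [e1]
    exact mul_le_mul_of_nonneg_right e2 (by positivity)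
  have hsum : Summable (fun j : ℕ => r ^ j) := summable_geometric_of_lt_one hr0.le hr1
  have h4 : ∑ j ∈ S.image k, r ^ j ≤ (1 - r)⁻¹ := by
    rw [← tsum_geometric_of_lt_one hr0.le hr1]
    exact hsum.sum_le_tsum _ (fun _ _ => by positivity)
  have h5 : (1 - r)⁻¹ ≤ 2 / κ := by
    have e1 : r ≤ 1 / (1 + κ) := by
      rw [hr, Real.exp_neg, ← one_div]
      apply one_div_le_one_div_of_le (by positivity)
      have := Real.add_one_le_exp κ
      linarith
    have e2 : κ / 2 ≤ 1 - r := by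
      have e3 : 1 / (1 + κ) ≤ 1 - κ / 2 := by
        rw [div_le_iff₀ (by positivity)]
        nlinarith
      linarith
    rw [inv_eq_one_div, div_le_div_iff₀ (by linarith) hκ]
    linarith
  have hC := C1_pos
  calc ∑ n ∈ S, v (1 + κ) n ≤ ∑ n ∈ S, Λ n * (n : ℝ)⁻¹ * r ^ k n := Finset.sum_le_sum h1
    _ = ∑ j ∈ S.image k, ∑ n ∈ S with k n = j, Λ n * (n : ℝ)⁻¹ * r ^ k n := h2
    _ ≤ ∑ j ∈ S.image k, (C1 * Real.exp 1) * r ^ j := Finset.sum_le_sum h3
    _ = (C1 * Real.exp 1) * ∑ j ∈ S.image k, r ^ j := (Finset.mul_sum _ _ _).symm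
    _ ≤ (C1 * Real.exp 1) * (2 / κ) := by
        refine mul_le_mul_of_nonneg_left (h4.trans h5) (by positivity)
    _ = _ := by ring

theorem sum_v_le {σ : ℝ} (hσ : 1 < σ) (hσ2 : σ ≤ 2) :
    ∑' n, v σ n ≤ 2 * (C1 * Real.exp 1) * (1 / (σ - 1)) := by
  have hκ : 0 < σ - 1 := by linarith
  refine (summable_v hσ).tsum_le_of_sum_le fun S => ?_
  have e1 : ∑ n ∈ S, v σ n = ∑ n ∈ S with 0 < n, v σ n := by
    rw [Finset.sum_filter]
    refine Finset.sum_congr rfl fun n _ => ?_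
    rcases Nat.eq_zero_or_pos n with rfl | hn
    · simp [v_zero]
    · rw [if_pos hn]
  have h1 := sum_v_fin hκ (by linarith) (S.filter (fun n => 0 < n))
    (fun n hn => (Finset.mem_filter.1 hn).2)
  rw [show 1 + (σ - 1) = σ by ring] at h1
  rw [e1]
  refine h1.trans (le_of_eq ?_)
  ring

end Pool.Agent.R402.MeanSq
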