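import Mathlib
import Pool.Agent.R402.MeanSq
import Pool.Agent.Helper923.PPS.BT

/-!
# Prime powers in short intervals, and the inner sum of the mean square over a long window
-/

set_option autoImplicit false

open MeasureTheory Filter Topology Set Real
open scoped ArithmeticFunction.vonMangoldt

namespace Pool.Agent.R402.Win

open Pool.Agent.R402.MeanSq

/-- primes and prime powers in `[x, x e^{1/T}]` -/
theorem short_psi : ∃ C : ℝ, 0 ≤ C ∧ ∀ (T x : ℝ), 2 ≤ T → T ^ 4 ≤ x → ∀ S : Finset ℕ,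
    (∀ n ∈ S, x ≤ n ∧ (n : ℝ) ≤ x * Real.exp (1 / T)) → ∑ n ∈ S, Λ n ≤ C * (x / T) := by
  obtain ⟨C, hC, hBT⟩ := Pool.Agent.Helper923.PPS.brun_titchmarsh
  refine ⟨16 * C + 100, by linarith, ?_⟩
  intro T x hT hx S hS
  have hT0 : 0 < T := by linarith
  have hx16 : 16 ≤ x := by
    have : (2:ℝ) ^ 4 ≤ T ^ 4 := pow_le_pow_left₀ (by norm_num) hT 4
    linarith
  have hx0 : 0 < x := by linarith
  have hlx : 0 < Real.log x := Real.log_pos (by linarith)
  -- the exponential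
  have hexp1 : Real.exp (1 / T) ≤ 1 + 2 / T := by
    have h1 : |1 / T| ≤ 1 := by
      rw [abs_of_pos (by positivity), div_le_one hT0]; linarith
    have h2 := Real.abs_exp_sub_one_sub_id_le h1
    have h3 := (abs_le.1 h2).2
    have h4 : (1 / T) ^ 2 ≤ 1 / T := by
      rw [sq]
      have : 1 / T ≤ 1 := by rw [div_le_one hT0]; linarith
      have h5 : 0 < 1 / T := by positivity
      nlinarith
    have h5 : 2 / T = 1 / T + 1 / T := by ring
    linarith
  have hexp2 : Real.exp (1 / T) ≤ 2 := by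
    have : 2 / T ≤ 1 := by rw [div_le_one hT0]; exact hT
    linarith
  -- `x / T ≥ x^{3/4}`
  have hTx : T ≤ x ^ (1 / 4 : ℝ) := by
    have h1 : (T ^ 4) ^ (1 / 4 : ℝ) ≤ x ^ (1 / 4 : ℝ) :=
      Real.rpow_le_rpow (by positivity) hx (by norm_num)
    have h2 : (T ^ 4) ^ (1 / 4 : ℝ) = T := by
      rw [← Real.rpow_natCast, ← Real.rpow_mul hT0.le]
      norm_num
    rwa [h2] at h1
  have hxT : x ^ (3 / 4 : ℝ) ≤ x / T := by
    rw [le_div_iff₀ hT0]
    calc x ^ (3 / 4 : ℝ) * T ≤ x ^ (3 / 4 : ℝ) * x ^ (1 / 4 : ℝ) := by gcongr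
      _ = x := by
        rw [← Real.rpow_add hx0]
        norm_num
  have hxT8 : 8 ≤ x / T := by
    have h1 : (16:ℝ) ^ (3 / 4 : ℝ) ≤ x ^ (3 / 4 : ℝ) :=
      Real.rpow_le_rpow (by norm_num) hx16 (by norm_num)
    have h2 : (16:ℝ) ^ (3 / 4 : ℝ) = 8 := by
      rw [show (16:ℝ) = 2 ^ (4:ℝ) by norm_num, ← Real.rpow_mul (by norm_num)]
      norm_num
    linarith
  rw [← Finset.sum_filter_add_sum_filter_not S Nat.Prime]
  -- primes
  have h1 : ∑ n ∈ S.filter Nat.Prime, Λ n ≤ 16 * C * (x / T) := by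
    set a : ℕ := ⌈x⌉₊ with ha
    set N : ℕ := ⌊2 * x / T⌋₊ + 1 with hN
    have hNr : (N : ℝ) ≤ 3 * (x / T) := by
      rw [hN]
      push_cast
      have := Nat.floor_le (by positivity : 0 ≤ 2 * x / T)
      have e : 2 * x / T = 2 * (x / T) := by ring
      linarith
    have hNr2 : 2 * x / T < N := by
      rw [hN]
      push_cast
      exact Nat.lt_floor_add_one _
    have hN2 : 2 ≤ N := by
      have : (2:ℝ) ≤ N := by
        have e : 2 * x / T = 2 * (x / T) := by ring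
        linarith
      exact_mod_cast this
    have hcard : ((S.filter Nat.Prime).card : ℝ) ≤ C * N / Real.log N := by
      refine le_trans ?_ (hBT a 1 N hN2 (Or.inl rfl))
      have : (S.filter Nat.Prime).card ≤
          ((Finset.range N).filter (fun k => (a + k * 1).Prime)).card := by
        apply Finset.card_le_card_of_injOn (fun p => p - a)
        · intro p hp
          rw [Finset.mem_coe, Finset.mem_filter] at hp
          obtain ⟨hp1, hp2⟩ := hp
          obtain ⟨h1, h2⟩ := hS p hp1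
          have h3 : a ≤ p := Nat.ceil_le.2 h1
          rw [Finset.mem_coe, Finset.mem_filter, Finset.mem_range, mul_one]
          refine ⟨?_, by rw [Nat.add_sub_cancel' h3]; exact hp2⟩
          have h4 : ((p - a : ℕ) : ℝ) < N := by
            rw [Nat.cast_sub h3]
            have h5 : x ≤ a := Nat.le_ceil x
            have h6 : (p:ℝ) ≤ x * (1 + 2 / T) :=
              h2.trans (mul_le_mul_of_nonneg_left hexp1 hx0.le)
            have h7 : x * (1 + 2 / T) = x + 2 * x / T := by ring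
            linarith
          exact_mod_cast h4
        · intro p hp p' hp' h
          rw [Finset.mem_coe, Finset.mem_filter] at hp hp'
          have h3 : a ≤ p := Nat.ceil_le.2 (hS p hp.1).1
          have h4 : a ≤ p' := Nat.ceil_le.2 (hS p' hp'.1).1
          simp only at h
          omega
      exact_mod_cast this
    have hlogN : 3 / 4 * Real.log x ≤ Real.log N := by
      have e1 : Real.log (x ^ (3 / 4 : ℝ)) = 3 / 4 * Real.log x := Real.log_rpow hx0 _
      rw [← e1]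
      apply Real.log_le_log (by positivity)
      have e : 2 * x / T = 2 * (x / T) := by ring
      have : 0 < x / T := by positivity
      linarith
    have hlogn : ∀ n ∈ S.filter Nat.Prime, Λ n ≤ 2 * Real.log x := by
      intro n hn
      obtain ⟨h1, h2⟩ := hS n (Finset.mem_filter.1 hn).1
      have hn0 : (0:ℝ) < n := by linarith
      refine ArithmeticFunction.vonMangoldt_le_log.trans ?_
      have h3 : (n:ℝ) ≤ x ^ 2 := by nlinarith
      have h4 := Real.log_le_log hn0 h3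
      rw [Real.log_pow] at h4
      exact_mod_cast h4
    calc ∑ n ∈ S.filter Nat.Prime, Λ n ≤ ((S.filter Nat.Prime).card : ℝ) * (2 * Real.log x) := by
          rw [← nsmul_eq_mul]
          exact Finset.sum_le_card_nsmul _ _ _ hlogn
      _ ≤ (C * N / Real.log N) * (2 * Real.log x) := by gcongr
      _ ≤ (C * (3 * (x / T)) / (3 / 4 * Real.log x)) * (2 * Real.log x) := by gcongr
      _ = 8 * C * (x / T) := by
          field_simp
          ring
      _ ≤ _ := by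
          have : 0 ≤ C * (x / T) := by positivity
          nlinarith
  have h2 : ∑ n ∈ S.filter (fun n => ¬ n.Prime), Λ n ≤ 100 * (x / T) := by
    have e1 : ∑ n ∈ S.filter (fun n => ¬ n.Prime), Λ n ≤
        ∑ n ∈ (Finset.Ioc 0 ⌊2 * x⌋₊).filter (fun n => ¬ n.Prime), Λ n := by
      apply Finset.sum_le_sum_of_subset_of_nonneg
      · intro n hn
        rw [Finset.mem_filter] at hn
        obtain ⟨h1, h2⟩ := hS n hn.1
        rw [Finset.mem_filter, Finset.mem_Ioc]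
        refine ⟨⟨?_, ?_⟩, hn.2⟩
        · have : (0:ℝ) < n := by linarith
          exact_mod_cast this
        · rw [Nat.le_floor_iff (by positivity)]
          nlinarith
      · intro n _ _
        exact ArithmeticFunction.vonMangoldt_nonneg
    rw [← Chebyshev.psi_sub_theta_eq_sum_not_prime] at e1
    have e2 := Chebyshev.psi_sub_theta_le (x := 2 * x) (by linarith)
    have e3 : Real.log (2 * x) ≤ (2 * x) ^ (1 / 4 : ℝ) / (1 / 4) :=
      Real.log_le_rpow_div (by positivity) (by norm_num)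
    have e4 : √(2 * x) = (2 * x) ^ (1 / 2 : ℝ) := Real.sqrt_eq_rpow _
    have e5 : (2 * x) ^ (1 / 2 : ℝ) * (2 * x) ^ (1 / 4 : ℝ) = 2 ^ (3 / 4 : ℝ) * x ^ (3 / 4 : ℝ) := by
      rw [← Real.rpow_add (by positivity), ← Real.mul_rpow (by norm_num) hx0.le]
      norm_num
    have e6 : (2:ℝ) ^ (3 / 4 : ℝ) ≤ 2 := by
      calc (2:ℝ) ^ (3 / 4 : ℝ) ≤ 2 ^ (1:ℝ) :=
            Real.rpow_le_rpow_of_exponent_le (by norm_num) (by norm_num)
        _ = 2 := Real.rpow_one _
    calc _ ≤ 2 * √(2 * x) * Real.log (2 * x) := e1.trans e2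
      _ ≤ 2 * (2 * x) ^ (1 / 2 : ℝ) * ((2 * x) ^ (1 / 4 : ℝ) / (1 / 4)) := by
          rw [e4]; gcongr
      _ = 8 * ((2 * x) ^ (1 / 2 : ℝ) * (2 * x) ^ (1 / 4 : ℝ)) := by ring
      _ = 8 * (2 ^ (3 / 4 : ℝ) * x ^ (3 / 4 : ℝ)) := by rw [e5]
      _ ≤ 8 * (2 * (x / T)) := by gcongr
      _ ≤ _ := by
          have : 0 ≤ x / T := by positivity
          linarith
  linarith

/-- the absolute constant of `short_psi` -/
noncomputable def C3 : ℝ := short_psi.choose

lemma C3_nonneg : 0 ≤ C3 := short_psi.choose_spec.1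

lemma short_psi' {T x : ℝ} (hT : 2 ≤ T) (hx : T ^ 4 ≤ x) (S : Finset ℕ)
    (hS : ∀ n ∈ S, x ≤ n ∧ (n : ℝ) ≤ x * Real.exp (1 / T)) : ∑ n ∈ S, Λ n ≤ C3 * (x / T) :=
  short_psi.choose_spec.2 T x hT hx S hS

/-- one block -/
lemma blockT {T : ℝ} (hT : 2 ≤ T) (u : ℝ) (S : Finset ℕ)
    (hS : ∀ n ∈ S, T ^ 4 < (n : ℝ) ∧ u ≤ Real.log n ∧ Real.log n ≤ u + 1 / T) :
    ∑ n ∈ S, Λ n * (n : ℝ)⁻¹ ≤ C3 / T := by
  have hT0 : 0 < T := by linarith
  have hT4 : 0 < T ^ 4 := by positivity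
  set x : ℝ := max (T ^ 4) (Real.exp u) with hx
  have hx0 : 0 < x := lt_of_lt_of_le hT4 (le_max_left _ _)
  have h1 := short_psi' hT (le_max_left (T ^ 4) (Real.exp u)) S (fun n hn => by
    obtain ⟨h1, h2, h3⟩ := hS n hn
    have hn0 : (0:ℝ) < n := by linarith
    refine ⟨?_, ?_⟩
    · refine max_le h1.le ?_
      rwa [Real.le_log_iff_exp_le hn0] at h2
    · rw [Real.log_le_iff_le_exp hn0, Real.exp_add] at h3
      refine h3.trans ?_
      exact mul_le_mul_of_nonneg_right (le_max_right _ _) (Real.exp_pos _).le)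
  rw [← hx] at h1
  have h2 : ∀ n ∈ S, Λ n * (n : ℝ)⁻¹ ≤ x⁻¹ * Λ n := by
    intro n hn
    obtain ⟨h1, h2, -⟩ := hS n hn
    have hn0 : (0:ℝ) < n := by linarith
    have h3 : (n:ℝ)⁻¹ ≤ x⁻¹ := by
      apply inv_anti₀ hx0
      refine max_le h1.le ?_
      rwa [Real.le_log_iff_exp_le hn0] at h2
    have h4 : 0 ≤ Λ n := ArithmeticFunction.vonMangoldt_nonneg
    nlinarith
  calc ∑ n ∈ S, Λ n * (n : ℝ)⁻¹ ≤ ∑ n ∈ S, x⁻¹ * Λ n := Finset.sum_le_sum h2
    _ = x⁻¹ * ∑ n ∈ S, Λ n := (Finset.mul_sum _ _ _).symm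
    _ ≤ x⁻¹ * (C3 * (x / T)) := mul_le_mul_of_nonneg_left h1 (by positivity)
    _ = _ := by field_simp

/-- the absolute constant of the inner sum -/
noncomputable def C4 : ℝ := 6 * C3 * ∑' k : ℤ, 1 / (1 + (k:ℝ) ^ 2)

lemma C4_nonneg : 0 ≤ C4 := by
  unfold C4
  have h1 := C3_nonneg
  have h2 : 0 ≤ ∑' k : ℤ, 1 / (1 + (k:ℝ) ^ 2) := tsum_nonneg fun k => by positivity
  positivity

lemma innerT {T : ℝ} (hT : 2 ≤ T) (u : ℝ) (S : Finset ℕ) (hS : ∀ n ∈ S, T ^ 4 < (n : ℝ)) :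
    ∑ n ∈ S, Λ n * (n : ℝ)⁻¹ * (2 * T / (1 + (T * (u - Real.log n)) ^ 2)) ≤ C4 := by
  classical
  have hT0 : 0 < T := by linarith
  set k : ℕ → ℤ := fun n => ⌊T * (Real.log n - u)⌋ with hk
  have h1 : ∀ n ∈ S, Λ n * (n : ℝ)⁻¹ * (2 * T / (1 + (T * (u - Real.log n)) ^ 2)) ≤
      Λ n * (n : ℝ)⁻¹ * (6 * T / (1 + (k n : ℝ) ^ 2)) := by
    intro n hn
    have h2 : 0 ≤ Λ n * (n : ℝ)⁻¹ :=
      mul_nonneg ArithmeticFunction.vonMangoldt_nonneg (by positivity)
    refine mul_le_mul_of_nonneg_left ?_ h2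
    have h0 : 2 / (1 + (T * (u - Real.log n)) ^ 2) ≤ 6 / (1 + (k n : ℝ) ^ 2) := by
      rw [div_le_div_iff₀ (by positivity) (by positivity)]
      have h3 := Int.floor_le (T * (Real.log n - u))
      have h4 := Int.lt_floor_add_one (T * (Real.log n - u))
      simp only [hk]
      set v := T * (Real.log n - u)
      have h5 : T * (u - Real.log n) = -v := by simp only [v]; ring
      rw [h5]
      set m : ℝ := (⌊v⌋ : ℝ)
      have h6 : 0 ≤ v - m := by linarith
      have h7 : v - m ≤ 1 := by linarith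
      nlinarith [sq_nonneg (v + (v - m)), sq_nonneg (v - m), mul_nonneg h6 (sub_nonneg.2 h7)]
    have e1 : 2 * T / (1 + (T * (u - Real.log n)) ^ 2) =
        T * (2 / (1 + (T * (u - Real.log n)) ^ 2)) := by ring
    have e2 : 6 * T / (1 + (k n : ℝ) ^ 2) = T * (6 / (1 + (k n : ℝ) ^ 2)) := by ring
    rw [e1, e2]
    exact mul_le_mul_of_nonneg_left h0 hT0.le
  have h2 : ∑ n ∈ S, Λ n * (n : ℝ)⁻¹ * (6 * T / (1 + (k n : ℝ) ^ 2)) =
      ∑ j ∈ S.image k, ∑ n ∈ S with k n = j, Λ n * (n : ℝ)⁻¹ * (6 * T / (1 + (k n : ℝ) ^ 2)) :=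
    (Finset.sum_fiberwise_of_maps_to (fun n hn => Finset.mem_image_of_mem k hn) _).symm
  have h3 : ∀ j ∈ S.image k, ∑ n ∈ S with k n = j,
      Λ n * (n : ℝ)⁻¹ * (6 * T / (1 + (k n : ℝ) ^ 2)) ≤ 6 * C3 * (1 / (1 + (j:ℝ) ^ 2)) := by
    intro j _
    have e1 : ∑ n ∈ S with k n = j, Λ n * (n : ℝ)⁻¹ * (6 * T / (1 + (k n : ℝ) ^ 2)) =
        (∑ n ∈ S with k n = j, Λ n * (n : ℝ)⁻¹) * (6 * T / (1 + (j:ℝ) ^ 2)) := by
      rw [Finset.sum_mul]
      refine Finset.sum_congr rfl fun n hn => ?_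
      rw [(Finset.mem_filter.1 hn).2]
    have e2 := blockT hT (u + j / T) (S.filter (fun n => k n = j)) (by
      intro n hn
      obtain ⟨h4, h5⟩ := Finset.mem_filter.1 hn
      have h6 := Int.floor_le (T * (Real.log n - u))
      have h7 := Int.lt_floor_add_one (T * (Real.log n - u))
      have h8 : (⌊T * (Real.log n - u)⌋ : ℝ) = (j : ℝ) := by
        have : ⌊T * (Real.log n - u)⌋ = j := h5
        exact_mod_cast this
      rw [h8] at h6 h7
      have h9 : (j:ℝ) / T ≤ Real.log n - u := by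
        rw [div_le_iff₀ hT0]; linarith
      have h10 : Real.log n - u < j / T + 1 / T := by
        rw [← add_div, lt_div_iff₀ hT0]; linarith
      exact ⟨hS n h4, by linarith, by linarith⟩)
    rw [e1]
    have h9 : 0 ≤ 6 * T / (1 + (j:ℝ) ^ 2) := by positivity
    calc (∑ n ∈ S with k n = j, Λ n * (n : ℝ)⁻¹) * (6 * T / (1 + (j:ℝ) ^ 2)) ≤
        C3 / T * (6 * T / (1 + (j:ℝ) ^ 2)) := mul_le_mul_of_nonneg_right e2 h9
      _ = _ := by field_simp
  have h4 : ∑ j ∈ S.image k, 1 / (1 + (j:ℝ) ^ 2) ≤ ∑' k : ℤ, 1 / (1 + (k:ℝ) ^ 2) :=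
    summable_int.sum_le_tsum _ (fun _ _ => by positivity)
  calc ∑ n ∈ S, Λ n * (n : ℝ)⁻¹ * (2 * T / (1 + (T * (u - Real.log n)) ^ 2)) ≤
      ∑ n ∈ S, Λ n * (n : ℝ)⁻¹ * (6 * T / (1 + (k n : ℝ) ^ 2)) := Finset.sum_le_sum h1
    _ = ∑ j ∈ S.image k, ∑ n ∈ S with k n = j,
        Λ n * (n : ℝ)⁻¹ * (6 * T / (1 + (k n : ℝ) ^ 2)) := h2
    _ ≤ ∑ j ∈ S.image k, 6 * C3 * (1 / (1 + (j:ℝ) ^ 2)) := Finset.sum_le_sum h3
    _ = 6 * C3 * ∑ j ∈ S.image k, 1 / (1 + (j:ℝ) ^ 2) := (Finset.mul_sum _ _ _).symm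
    _ ≤ C4 := by
        unfold C4
        have := C3_nonneg
        gcongr

end Pool.Agent.R402.Win
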