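import Mathlib
import Pool.Agent.R402.W1
import Pool.Agent.R402.Ser

/-!
# The mean square over a long window, for series supported on large prime powers
-/

set_option autoImplicit false

open MeasureTheory Filter Topology Set Real
open scoped ArithmeticFunction.vonMangoldt

namespace Pool.Agent.R402.Win

open Pool.Agent.R402.MeanSq Pool.Agent.R402.Ser

/-- the kernel -/
noncomputable def wT (T : ℝ) (m n : ℕ) : ℝ := 2 * T / (1 + (T * (Real.log m - Real.log n)) ^ 2)

lemma wT_nonneg {T : ℝ} (hT : 2 ≤ T) (m n : ℕ) : 0 ≤ wT T m n := by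
  unfold wT
  have : 0 < T := by linarith
  positivity

lemma wT_comm (T : ℝ) (m n : ℕ) : wT T m n = wT T n m := by
  unfold wT
  congr 2
  ring

/-- the weight cut off -/
noncomputable def vT (T σ : ℝ) (n : ℕ) : ℝ := if T ^ 4 < (n : ℝ) then v σ n else 0

lemma vT_nonneg (T σ : ℝ) (n : ℕ) : 0 ≤ vT T σ n := by
  unfold vT
  split_ifs
  · exact v_nonneg σ n
  · exact le_rfl

lemma v_innerT {T σ : ℝ} (hT : 2 ≤ T) (hσ : 1 ≤ σ) (m : ℕ) :
    Summable (fun n => vT T σ n * wT T m n) ∧ ∑' n, vT T σ n * wT T m n ≤ C4 := by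
  have h1 : ∀ S : Finset ℕ, ∑ n ∈ S, vT T σ n * wT T m n ≤ C4 := by
    intro S
    have e1 : ∑ n ∈ S, vT T σ n * wT T m n =
        ∑ n ∈ S.filter (fun n : ℕ => T ^ 4 < (n : ℝ)), v σ n * wT T m n := by
      rw [Finset.sum_filter]
      refine Finset.sum_congr rfl fun n _ => ?_
      unfold vT
      split_ifs
      · rfl
      · rw [zero_mul]
    rw [e1]
    refine le_trans (Finset.sum_le_sum fun n _ => ?_) (innerT hT (Real.log m)
      (S.filter (fun n : ℕ => T ^ 4 < (n : ℝ))) (fun n hn => (Finset.mem_filter.1 hn).2))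
    exact mul_le_mul_of_nonneg_right (v_le hσ n) (wT_nonneg hT m n)
  have h0 : ∀ n, 0 ≤ vT T σ n * wT T m n := fun n => mul_nonneg (vT_nonneg T σ n) (wT_nonneg hT m n)
  have h2 : Summable (fun n => vT T σ n * wT T m n) := summable_of_sum_le h0 h1
  exact ⟨h2, h2.tsum_le_of_sum_le h1⟩

/-- the coefficients vanish up to `T^4` -/
def Sup (T : ℝ) (c : ℕ → ℂ) : Prop := ∀ n : ℕ, (n : ℝ) ≤ T ^ 4 → c n = 0

section
variable {c : ℕ → ℂ} {σ T : ℝ}

lemma x_eq (hc : Sup T c) (n : ℕ) : x c σ n = vT T σ n * ‖c n‖ := by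
  unfold x vT
  split_ifs with h
  · rfl
  · rw [hc n (not_lt.1 h)]; simp

lemma P_eqT (hc : Sup T c) (n : ℕ) : P c σ n = vT T σ n * ‖c n‖ ^ 2 := by
  unfold P vT
  split_ifs with h
  · rfl
  · rw [hc n (not_lt.1 h)]; simp

lemma summable_prodT (hT : 2 ≤ T) (hσ : 1 < σ) (hP : Summable (P c σ)) :
    Summable (fun p : ℕ × ℕ => P c σ p.1 * (vT T σ p.2 * wT T p.1 p.2)) ∧
      ∑' p : ℕ × ℕ, P c σ p.1 * (vT T σ p.2 * wT T p.1 p.2) ≤ C4 * ∑' n, P c σ n := by
  have h0 : ∀ p : ℕ × ℕ, 0 ≤ P c σ p.1 * (vT T σ p.2 * wT T p.1 p.2) := fun p =>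
    mul_nonneg (P_nonneg c σ _) (mul_nonneg (vT_nonneg T σ _) (wT_nonneg hT _ _))
  have hrow : ∀ m : ℕ, Summable (fun n : ℕ => P c σ m * (vT T σ n * wT T m n)) := fun m =>
    (v_innerT hT hσ.le m).1.mul_left (P c σ m)
  have hcol : Summable (fun m : ℕ => ∑' n : ℕ, P c σ m * (vT T σ n * wT T m n)) := by
    refine Summable.of_nonneg_of_le (fun m => tsum_nonneg fun n => h0 (m, n)) (fun m => ?_)
      (hP.mul_right C4)
    rw [tsum_mul_left]
    exact mul_le_mul_of_nonneg_left (v_innerT hT hσ.le m).2 (P_nonneg c σ m)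
  have h1 : Summable (fun p : ℕ × ℕ => P c σ p.1 * (vT T σ p.2 * wT T p.1 p.2)) :=
    (summable_prod_of_nonneg h0).2 ⟨hrow, hcol⟩
  refine ⟨h1, ?_⟩
  rw [h1.tsum_prod]
  calc ∑' m, ∑' n, P c σ m * (vT T σ n * wT T m n) ≤ ∑' m, P c σ m * C4 := by
        refine hcol.tsum_le_tsum (fun m => ?_) (hP.mul_right C4)
        rw [tsum_mul_left]
        exact mul_le_mul_of_nonneg_left (v_innerT hT hσ.le m).2 (P_nonneg c σ m)
    _ = C4 * ∑' n, P c σ n := by rw [tsum_mul_right, mul_comm]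

lemma double_leT (hT : 2 ≤ T) (hc : Sup T c) (hσ : 1 < σ) (hP : Summable (P c σ)) :
    Summable (fun p : ℕ × ℕ => x c σ p.1 * x c σ p.2 * wT T p.1 p.2) ∧
      ∑' p : ℕ × ℕ, x c σ p.1 * x c σ p.2 * wT T p.1 p.2 ≤ C4 * ∑' n, P c σ n := by
  obtain ⟨h1, h2⟩ := summable_prodT (c := c) hT hσ hP
  have h3 : Summable (fun p : ℕ × ℕ => P c σ p.2 * (vT T σ p.1 * wT T p.2 p.1)) :=
    (Equiv.prodComm ℕ ℕ).summable_iff.2 h1
  have h4 : ∑' p : ℕ × ℕ, P c σ p.2 * (vT T σ p.1 * wT T p.2 p.1) =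
      ∑' p : ℕ × ℕ, P c σ p.1 * (vT T σ p.2 * wT T p.1 p.2) :=
    (Equiv.prodComm ℕ ℕ).tsum_eq (fun p : ℕ × ℕ => P c σ p.1 * (vT T σ p.2 * wT T p.1 p.2))
  have h5 : ∀ p : ℕ × ℕ, x c σ p.1 * x c σ p.2 * wT T p.1 p.2 ≤
      1 / 2 * (P c σ p.1 * (vT T σ p.2 * wT T p.1 p.2) +
        P c σ p.2 * (vT T σ p.1 * wT T p.2 p.1)) := by
    intro p
    rw [wT_comm T p.2 p.1, x_eq hc, x_eq hc, P_eqT hc, P_eqT hc]
    have a1 := vT_nonneg T σ p.1
    have a2 := vT_nonneg T σ p.2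
    have a3 := wT_nonneg hT p.1 p.2
    have a4 : 0 ≤ vT T σ p.1 * vT T σ p.2 * wT T p.1 p.2 := by positivity
    nlinarith [mul_nonneg a4 (sq_nonneg (‖c p.1‖ - ‖c p.2‖))]
  have h6 : ∀ p : ℕ × ℕ, 0 ≤ x c σ p.1 * x c σ p.2 * wT T p.1 p.2 := fun p =>
    mul_nonneg (mul_nonneg (x_nonneg c σ _) (x_nonneg c σ _)) (wT_nonneg hT _ _)
  have h7 : Summable (fun p : ℕ × ℕ => 1 / 2 * (P c σ p.1 * (vT T σ p.2 * wT T p.1 p.2) +
      P c σ p.2 * (vT T σ p.1 * wT T p.2 p.1))) := (h1.add h3).mul_left _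
  have h8 := Summable.of_nonneg_of_le h6 h5 h7
  refine ⟨h8, ?_⟩
  calc ∑' p : ℕ × ℕ, x c σ p.1 * x c σ p.2 * wT T p.1 p.2 ≤
      ∑' p : ℕ × ℕ, 1 / 2 * (P c σ p.1 * (vT T σ p.2 * wT T p.1 p.2) +
        P c σ p.2 * (vT T σ p.1 * wT T p.2 p.1)) := h8.tsum_le_tsum h5 h7
    _ = ∑' p : ℕ × ℕ, P c σ p.1 * (vT T σ p.2 * wT T p.1 p.2) := by
        rw [tsum_mul_left, h1.tsum_add h3, h4]; ring
    _ ≤ _ := h2

end

lemma exp_int : Integrable (fun t : ℝ => Real.exp (-|t|)) := by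
  have := (ft 0).1.norm
  refine this.congr (Eventually.of_forall fun t => ?_)
  simp only [zero_mul, Complex.ofReal_zero, neg_zero, Complex.exp_zero, mul_one]
  rw [Complex.norm_real, Real.norm_of_nonneg (Real.exp_pos _).le]

lemma expT_int {T : ℝ} (hT : 0 < T) : Integrable (fun t : ℝ => Real.exp (-|t / T|)) := by
  have := exp_int.comp_mul_left' (inv_ne_zero hT.ne')
  refine this.congr (Eventually.of_forall fun t => ?_)
  simp only
  rw [div_eq_inv_mul]

/-- the Fourier transform of `e^{-|t|/T}` -/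
lemma ftT {T : ℝ} (hT : 0 < T) (u : ℝ) : Integrable (fun t : ℝ => ((Real.exp (-|t / T|) : ℝ) : ℂ) *
      Complex.exp (-(u * t : ℝ) * Complex.I)) ∧
    ∫ t : ℝ, ((Real.exp (-|t / T|) : ℝ) : ℂ) * Complex.exp (-(u * t : ℝ) * Complex.I) =
      ((2 * T / (1 + (T * u) ^ 2) : ℝ) : ℂ) := by
  obtain ⟨h1, h2⟩ := ft (T * u)
  set f : ℝ → ℂ := fun t => ((Real.exp (-|t|) : ℝ) : ℂ) *
    Complex.exp (-(T * u * t : ℝ) * Complex.I) with hf
  have e : (fun t : ℝ => ((Real.exp (-|t / T|) : ℝ) : ℂ) * Complex.exp (-(u * t : ℝ) * Complex.I)) =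
      fun t => f (T⁻¹ * t) := by
    funext t
    simp only [hf]
    congr 3
    · rw [div_eq_inv_mul]
    · congr 2
      field_simp
  rw [e]
  refine ⟨h1.comp_mul_left' (inv_ne_zero hT.ne'), ?_⟩
  rw [Measure.integral_comp_mul_left, inv_inv, abs_of_pos hT, h2, Complex.real_smul,
    ← Complex.ofReal_mul]
  congr 1
  ring

section main
variable {c : ℕ → ℂ} {σ T : ℝ}

theorem mean_squareT (hT : 2 ≤ T) (hc : Sup T c) (hσ : 1 < σ) (hP : Summable (P c σ)) :
    Integrable (fun t : ℝ => Real.exp (-|t / T|) * ‖D c σ t‖ ^ 2) ∧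
    ∫ t : ℝ, Real.exp (-|t / T|) * ‖D c σ t‖ ^ 2 ≤ C4 * ∑' n, P c σ n := by
  have hT0 : 0 < T := by linarith
  have hexp := expT_int hT0
  have hcont : Continuous (fun t : ℝ => Real.exp (-|t / T|)) := by fun_prop
  have hint : Integrable (fun t : ℝ => Real.exp (-|t / T|) * ‖D c σ t‖ ^ 2) := by
    refine (hexp.mul_const ((∑' n, x c σ n) ^ 2)).mono'
      (hcont.mul ((D_continuous hσ hP).norm.pow 2)).aestronglyMeasurable
      (Eventually.of_forall fun t => ?_)
    rw [Real.norm_of_nonneg (by positivity)]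
    have h1 := D_norm_le hσ hP t
    gcongr
  refine ⟨hint, ?_⟩
  set F : ℕ × ℕ → ℝ → ℂ := fun p t => ((Real.exp (-|t / T|) : ℝ) : ℂ) *
    (g c σ t p.1 * (starRingEnd ℂ) (g c σ t p.2)) with hF
  have hFeq : ∀ (p : ℕ × ℕ) (t : ℝ), F p t =
      (((v σ p.1 : ℝ) : ℂ) * c p.1 * (starRingEnd ℂ) (((v σ p.2 : ℝ) : ℂ) * c p.2)) *
      (((Real.exp (-|t / T|) : ℝ) : ℂ) *
        Complex.exp (-((Real.log p.1 - Real.log p.2) * t : ℝ) * Complex.I)) := by
    intro p t
    simp only [hF, g, map_mul]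
    have h1 : (starRingEnd ℂ) (Complex.exp (-(Real.log p.2 * t : ℝ) * Complex.I)) =
        Complex.exp ((Real.log p.2 * t : ℝ) * Complex.I) := by
      rw [← Complex.exp_conj, map_mul, map_neg, Complex.conj_ofReal, Complex.conj_I]
      congr 1
      ring
    rw [h1]
    have h2 : Complex.exp (-((Real.log p.1 - Real.log p.2) * t : ℝ) * Complex.I) =
        Complex.exp (-(Real.log p.1 * t : ℝ) * Complex.I) *
          Complex.exp ((Real.log p.2 * t : ℝ) * Complex.I) := by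
      rw [← Complex.exp_add]
      congr 1
      push_cast
      ring
    rw [h2]
    ring
  have hFint : ∀ p, Integrable (F p) := by
    intro p
    have := ((ftT hT0 (Real.log p.1 - Real.log p.2)).1.const_mul
      (((v σ p.1 : ℝ) : ℂ) * c p.1 * (starRingEnd ℂ) (((v σ p.2 : ℝ) : ℂ) * c p.2)))
    exact this.congr (Eventually.of_forall fun t => (hFeq p t).symm)
  have hFnorm : ∀ p, ∫ t, ‖F p t‖ = x c σ p.1 * x c σ p.2 * ∫ t : ℝ, Real.exp (-|t / T|) := by
    intro p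
    rw [← integral_const_mul]
    refine integral_congr_ae (Eventually.of_forall fun t => ?_)
    simp only [hF]
    rw [norm_mul, norm_mul, Complex.norm_conj, norm_g, norm_g, Complex.norm_real,
      Real.norm_of_nonneg (Real.exp_pos _).le]
    ring
  have hxs := summable_x hσ hP
  have hFsum : Summable (fun p => ∫ t, ‖F p t‖) := by
    simp only [hFnorm]
    exact (hxs.mul_of_nonneg hxs (x_nonneg c σ) (x_nonneg c σ)).mul_right _
  have hhs := hasSum_integral_of_summable_integral_norm hFint hFsum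
  have hI : ∀ p, ∫ t, F p t = (((v σ p.1 : ℝ) : ℂ) * c p.1 * (starRingEnd ℂ)
      (((v σ p.2 : ℝ) : ℂ) * c p.2)) * ((wT T p.1 p.2 : ℝ) : ℂ) := by
    intro p
    have h1 := (ftT hT0 (Real.log p.1 - Real.log p.2)).2
    unfold wT
    rw [← h1, ← integral_const_mul]
    exact integral_congr_ae (Eventually.of_forall fun t => hFeq p t)
  have hleft : ∫ t, ∑' p, F p t =
      ((∫ t : ℝ, Real.exp (-|t / T|) * ‖D c σ t‖ ^ 2 : ℝ) : ℂ) := by
    rw [← integral_complex_ofReal]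
    refine integral_congr_ae (Eventually.of_forall fun t => ?_)
    simp only [hF]
    rw [tsum_mul_left, ← sq_eq hσ hP t]
    push_cast
    rfl
  rw [hleft] at hhs
  have hnn : ∀ p, ‖∫ t, F p t‖ ≤ x c σ p.1 * x c σ p.2 * wT T p.1 p.2 := by
    intro p
    rw [hI p, norm_mul, norm_mul, Complex.norm_conj, norm_mul, norm_mul, Complex.norm_real,
      Complex.norm_real, Complex.norm_real, Real.norm_of_nonneg (v_nonneg σ _),
      Real.norm_of_nonneg (v_nonneg σ _), Real.norm_of_nonneg (wT_nonneg hT _ _)]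
    unfold x
    exact le_rfl
  obtain ⟨d1, d2⟩ := double_leT hT hc hσ hP
  have h2 : ‖((∫ t : ℝ, Real.exp (-|t / T|) * ‖D c σ t‖ ^ 2 : ℝ) : ℂ)‖ ≤
      ∑' p : ℕ × ℕ, x c σ p.1 * x c σ p.2 * wT T p.1 p.2 := by
    rw [← hhs.tsum_eq]
    exact tsum_of_norm_bounded d1.hasSum hnn
  rw [Complex.norm_real] at h2
  exact (le_abs_self _).trans (h2.trans d2)

/-- the local mean square -/
noncomputable def EE (c : ℕ → ℂ) (σ τ : ℝ) : ℝ := ∫ u : ℝ, Real.exp (-|u|) * ‖D c σ (τ + u)‖ ^ 2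

lemma EE_nonneg (τ : ℝ) : 0 ≤ EE c σ τ := integral_nonneg fun u => by positivity

lemma EE_int (hσ : 1 < σ) (hP : Summable (P c σ)) (τ : ℝ) :
    Integrable (fun u : ℝ => Real.exp (-|u|) * ‖D c σ (τ + u)‖ ^ 2) := by
  have hD := D_continuous hσ hP
  refine (exp_int.mul_const ((∑' n, x c σ n) ^ 2)).mono'
    (Continuous.aestronglyMeasurable (by fun_prop)) (Eventually.of_forall fun t => ?_)
  rw [Real.norm_of_nonneg (by positivity)]
  have h1 := D_norm_le hσ hP (τ + t)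
  gcongr

lemma EE_continuous (hσ : 1 < σ) (hP : Summable (P c σ)) : Continuous (EE c σ) := by
  have hD := D_continuous hσ hP
  unfold EE
  refine continuous_of_dominated (bound := fun u => Real.exp (-|u|) * (∑' n, x c σ n) ^ 2)
    (fun τ => (EE_int hσ hP τ).aestronglyMeasurable) (fun τ => Eventually.of_forall fun u => ?_)
    (exp_int.mul_const _) (Eventually.of_forall fun u => by fun_prop)
  rw [Real.norm_of_nonneg (by positivity)]
  have h1 := D_norm_le hσ hP (τ + u)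
  gcongr

/-- the average of the local mean square over a window of length `T` -/
theorem window_EE (hT : 2 ≤ T) (hc : Sup T c) (hσ : 1 < σ) (hP : Summable (P c σ)) :
    ∫ τ in (0:ℝ)..T, EE c σ τ ≤ 4 * Real.exp 1 * (C4 * ∑' n, P c σ n) := by
  have hT0 : 0 < T := by linarith
  have hD := D_continuous hσ hP
  obtain ⟨h1, h2⟩ := mean_squareT hT hc hσ hP
  set μ : Measure ℝ := volume.restrict (Ioc (0:ℝ) T) with hμ
  set M : ℝ := ∑' n, x c σ n with hM
  have hint : Integrable (Function.uncurry fun τ u : ℝ => Real.exp (-|u|) * ‖D c σ (τ + u)‖ ^ 2)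
      (μ.prod volume) := by
    have h3 : Integrable (fun _ : ℝ => (1:ℝ)) μ := integrable_const _
    have h4 := h3.mul_prod (exp_int.mul_const (M ^ 2))
    refine h4.mono' (Continuous.aestronglyMeasurable ?_) (Eventually.of_forall fun p => ?_)
    · simp only [Function.uncurry_def]
      fun_prop
    · obtain ⟨τ, u⟩ := p
      simp only [Function.uncurry_apply_pair, one_mul]
      rw [Real.norm_of_nonneg (by positivity)]
      have := D_norm_le hσ hP (τ + u)
      gcongr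
  have e1 : ∫ τ in (0:ℝ)..T, EE c σ τ =
      ∫ u, (∫ τ, Real.exp (-|u|) * ‖D c σ (τ + u)‖ ^ 2 ∂μ) := by
    rw [intervalIntegral.integral_of_le hT0.le]
    unfold EE
    exact integral_integral_swap hint
  rw [e1]
  have h5 : ∀ u : ℝ, (∫ τ, Real.exp (-|u|) * ‖D c σ (τ + u)‖ ^ 2 ∂μ) ≤
      Real.exp 1 * (C4 * ∑' n, P c σ n) * Real.exp (-|u / 2|) := by
    intro u
    have i1 : Integrable (fun τ : ℝ => Real.exp (-|(τ + u) / T|) * ‖D c σ (τ + u)‖ ^ 2) :=
      h1.comp_add_right u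
    have i2 : Integrable (fun τ : ℝ => Real.exp (1 - |u / 2|) *
        (Real.exp (-|(τ + u) / T|) * ‖D c σ (τ + u)‖ ^ 2)) := i1.const_mul _
    have h6 : (∫ τ, Real.exp (-|u|) * ‖D c σ (τ + u)‖ ^ 2 ∂μ) ≤
        ∫ τ, Real.exp (1 - |u / 2|) * (Real.exp (-|(τ + u) / T|) * ‖D c σ (τ + u)‖ ^ 2) ∂μ := by
      rw [hμ]
      refine setIntegral_mono_on ?_ i2.integrableOn measurableSet_Ioc fun τ hτ => ?_
      · exact (Continuous.integrableOn_Icc (by fun_prop)).mono_set Ioc_subset_Icc_self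
      · rw [← mul_assoc, ← Real.exp_add]
        refine mul_le_mul_of_nonneg_right (Real.exp_le_exp.2 ?_) (by positivity)
        have h7 : |(τ + u) / T| ≤ 1 + |u / 2| := by
          rw [add_div]
          refine (abs_add_le _ _).trans ?_
          have h8 : |τ / T| ≤ 1 := by
            rw [abs_of_nonneg (div_nonneg hτ.1.le hT0.le), div_le_one hT0]
            exact hτ.2
          have h9 : |u / T| ≤ |u / 2| := by
            rw [abs_div, abs_div, abs_of_pos hT0, abs_two]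
            gcongr
          linarith
        have h10 : |u| = |u / 2| + |u / 2| := by
          rw [abs_div, abs_two]; ring
        linarith
    refine h6.trans ?_
    rw [integral_const_mul, sub_eq_add_neg, Real.exp_add]
    have h7 : ∫ τ, Real.exp (-|(τ + u) / T|) * ‖D c σ (τ + u)‖ ^ 2 ∂μ ≤
        C4 * ∑' n, P c σ n := by
      refine le_trans (setIntegral_le_integral i1 (Eventually.of_forall fun τ => ?_)) ?_
      · show 0 ≤ _
        positivity
      · rw [integral_add_right_eq_self (fun t : ℝ => Real.exp (-|t / T|) * ‖D c σ t‖ ^ 2) u]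
        exact h2
    have h8 := mul_le_mul_of_nonneg_left h7
      (by positivity : 0 ≤ Real.exp 1 * Real.exp (-|u / 2|))
    linarith
  have i3 := expT_int (T := 2) (by norm_num)
  calc ∫ u, (∫ τ, Real.exp (-|u|) * ‖D c σ (τ + u)‖ ^ 2 ∂μ) ≤
      ∫ u, Real.exp 1 * (C4 * ∑' n, P c σ n) * Real.exp (-|u / 2|) :=
        integral_mono hint.integral_prod_right (i3.const_mul _) h5
    _ = Real.exp 1 * (C4 * ∑' n, P c σ n) * ∫ u : ℝ, Real.exp (-|u / 2|) :=
        integral_const_mul _ _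
    _ = _ := by
        have h9 := (ftT (T := 2) (by norm_num) 0).2
        have h10 : ∫ u : ℝ, Real.exp (-|u / 2|) = 4 := by
          have h11 : ((∫ u : ℝ, Real.exp (-|u / 2|) : ℝ) : ℂ) = ((4 : ℝ) : ℂ) := by
            rw [← integral_complex_ofReal]
            convert h9 using 1
            · refine integral_congr_ae (Eventually.of_forall fun t => ?_)
              simp
            · norm_num
          exact_mod_cast h11
        rw [h10]
        ring

end main

end Pool.Agent.R402.Win
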