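import Mathlib
import Pool.Agent.R402.W2

/-!
# The average of the variation in terms of the local mean square
-/

set_option autoImplicit false

open MeasureTheory Filter Topology Set Real
open scoped ArithmeticFunction.vonMangoldt

namespace Pool.Agent.R402.Win

open Pool.Agent.R402.MeanSq Pool.Agent.R402.Ser

section mean
variable {c : ℕ → ℂ} {σ : ℝ} {k : ℝ → ℝ}

lemma mean_shiftE (hσ : 1 < σ) (hP : Summable (P c σ)) (hk : Continuous k) (hk0 : ∀ t, 0 ≤ k t)
    (hk1 : ∀ t, k t ≤ 4 * Real.exp (-|t|)) (ρ : ℝ) :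
    ∫ t, k t * ‖D c σ (t + ρ)‖ ^ 2 ≤ 4 * Real.exp |ρ| * EE c σ 0 := by
  have h1 := EE_int hσ hP 0
  simp only [zero_add] at h1
  have hD := D_continuous hσ hP
  have h3 : Integrable (fun t : ℝ => Real.exp (-|t + ρ|) * ‖D c σ (t + ρ)‖ ^ 2) :=
    h1.comp_add_right ρ
  have h4 : ∀ t, k t * ‖D c σ (t + ρ)‖ ^ 2 ≤
      4 * Real.exp |ρ| * (Real.exp (-|t + ρ|) * ‖D c σ (t + ρ)‖ ^ 2) := by
    intro t
    have := exp_shift t ρ
    have h5 := hk1 t
    have h6 : k t ≤ 4 * Real.exp |ρ| * Real.exp (-|t + ρ|) := by linarith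
    have h7 : 0 ≤ ‖D c σ (t + ρ)‖ ^ 2 := by positivity
    nlinarith
  have h5 := (mean_shift hσ hP hk hk0 hk1 ρ).1
  calc ∫ t, k t * ‖D c σ (t + ρ)‖ ^ 2 ≤
      ∫ t, 4 * Real.exp |ρ| * (Real.exp (-|t + ρ|) * ‖D c σ (t + ρ)‖ ^ 2) :=
        integral_mono h5 (h3.const_mul _) h4
    _ = 4 * Real.exp |ρ| * ∫ t, Real.exp (-|t + ρ|) * ‖D c σ (t + ρ)‖ ^ 2 :=
        integral_const_mul _ _
    _ = 4 * Real.exp |ρ| * ∫ t : ℝ, Real.exp (-|t|) * ‖D c σ t‖ ^ 2 := by
        rw [integral_add_right_eq_self (fun t : ℝ => Real.exp (-|t|) * ‖D c σ t‖ ^ 2) ρ]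
    _ = _ := by
        unfold EE
        simp only [zero_add]

lemma mean_YE (hσ : 1 < σ) (hP : Summable (P c σ)) (hk : Continuous k) (hk0 : ∀ t, 0 ≤ k t)
    (hk1 : ∀ t, k t ≤ 4 * Real.exp (-|t|)) (r : ℝ) :
    ∫ t, k t * Y c σ t r ≤ 4 * Real.exp |r| * EE c σ 0 := by
  have hD := D_continuous hσ hP
  have hki := k_integrable hk hk0 hk1
  have hR0 : 0 ≤ EE c σ 0 := EE_nonneg 0
  set μ : Measure ℝ := volume.restrict (Ioc (0:ℝ) 1) with hμ
  have h1 : ∀ t, k t * Y c σ t r = ∫ s, k t * ‖D c σ (t + r * s)‖ ^ 2 ∂μ := by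
    intro t
    unfold Y
    rw [intervalIntegral.integral_of_le (by norm_num), integral_const_mul]
  have hint : Integrable (Function.uncurry fun t s => k t * ‖D c σ (t + r * s)‖ ^ 2)
      (volume.prod μ) := by
    have h2 : Integrable (fun p : ℝ × ℝ => k p.1 * (∑' n, x c σ n) ^ 2) (volume.prod μ) := by
      have h3 : Integrable (fun _ : ℝ => (1:ℝ)) μ := integrable_const _
      have := (hki.mul_prod h3).mul_const ((∑' n, x c σ n) ^ 2)
      simpa using this
    refine h2.mono' (Continuous.aestronglyMeasurable ?_) (Eventually.of_forall fun p => ?_)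
    · simp only [Function.uncurry_def]
      fun_prop
    · obtain ⟨t, s⟩ := p
      simp only [Function.uncurry_apply_pair]
      have := hk0 t
      rw [Real.norm_of_nonneg (by positivity)]
      have := D_norm_le hσ hP (t + r * s)
      gcongr
  have h2 : ∫ t, k t * Y c σ t r = ∫ s, (∫ t, k t * ‖D c σ (t + r * s)‖ ^ 2) ∂μ := by
    simp only [h1]
    exact integral_integral_swap hint
  rw [h2]
  have h3 : ∫ s, (∫ t, k t * ‖D c σ (t + r * s)‖ ^ 2) ∂μ ≤
      ∫ _s, 4 * Real.exp |r| * EE c σ 0 ∂μ := by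
    refine setIntegral_mono_on ?_ (integrable_const _) measurableSet_Ioc fun s hs => ?_
    · exact hint.integral_prod_right
    · refine (mean_shiftE hσ hP hk hk0 hk1 (r * s)).trans ?_
      have h4 : |r * s| ≤ |r| := by
        rw [abs_mul, abs_of_pos hs.1]
        nlinarith [abs_nonneg r, hs.2]
      have := Real.exp_le_exp.2 h4
      gcongr
  refine h3.trans (le_of_eq ?_)
  rw [integral_const, hμ]
  simp

/-- the average of the majorant of the variation, with a scale `s` -/
theorem mean_VE (hσ : 1 < σ) (hP : Summable (P c σ)) (hk : Continuous k) (hk0 : ∀ t, 0 ≤ k t)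
    (hk1 : ∀ t, k t ≤ 4 * Real.exp (-|t|)) (hk2 : ∫ t, k t = 1) {q s : ℝ} (hq : 0 < q)
    (hs : 0 ≤ s) (hs1 : s ≤ 1) {w : ℝ → ℝ} (hw : Continuous w) (hw0 : ∀ r, 0 ≤ w r)
    (hwi : Integrable (fun r => w r * (|r| * Real.exp |r|))) :
    Integrable (fun t => k t * ∫ r, w r * V c σ q t (s * r)) ∧
    ∫ t, k t * ∫ r, w r * V c σ q t (s * r) ≤
      (1 / 2 * q + 2 * q⁻¹ * EE c σ 0) * (s * ∫ r, w r * (|r| * Real.exp |r|)) := by
  have hki := k_integrable hk hk0 hk1
  have hVc := V_continuous (c := c) hσ hP q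
  have hwr : Integrable (fun r => w r * |r|) := by
    refine hwi.mono' (Continuous.aestronglyMeasurable (by fun_prop))
      (Eventually.of_forall fun r => ?_)
    have h1 := hw0 r
    rw [Real.norm_of_nonneg (by positivity)]
    have h2 := Real.one_le_exp (abs_nonneg r)
    refine mul_le_mul_of_nonneg_left ?_ h1
    nlinarith [abs_nonneg r]
  set M : ℝ := 1 / 2 * (q + q⁻¹ * (∑' n, x c σ n) ^ 2) with hM
  have hM0 : 0 ≤ M := by positivity
  have habs : ∀ r : ℝ, |s * r| ≤ |r| := by
    intro r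
    rw [abs_mul, abs_of_nonneg hs]
    nlinarith [abs_nonneg r]
  have hint : Integrable (Function.uncurry fun t r => k t * (w r * V c σ q t (s * r)))
      (volume.prod volume) := by
    have h2 : Integrable (fun p : ℝ × ℝ => M * (k p.1 * (w p.2 * |p.2|))) (volume.prod volume) :=
      (hki.mul_prod hwr).const_mul M
    refine h2.mono' (Continuous.aestronglyMeasurable ?_) (Eventually.of_forall fun p => ?_)
    · have hc2 : Continuous (fun p : ℝ × ℝ => V c σ q p.1 (s * p.2)) :=
        hVc.comp (continuous_fst.prodMk (continuous_const.mul continuous_snd))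
      exact (hk.comp continuous_fst).mul ((hw.comp continuous_snd).mul hc2)
    · obtain ⟨t, r⟩ := p
      simp only [Function.uncurry_apply_pair]
      have a1 := hk0 t
      have a2 := hw0 r
      have a3 := V_nonneg (c := c) (σ := σ) hq t (s * r)
      have a4 := V_le hq hσ hP t (s * r)
      have a5 : M * |s * r| ≤ M * |r| := mul_le_mul_of_nonneg_left (habs r) hM0
      rw [Real.norm_of_nonneg (by positivity)]
      calc k t * (w r * V c σ q t (s * r)) ≤ k t * (w r * (M * |r|)) := by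
            have := a4.trans a5
            gcongr
        _ = _ := by ring
  have h1 : ∀ t, k t * ∫ r, w r * V c σ q t (s * r) = ∫ r, k t * (w r * V c σ q t (s * r)) :=
    fun t => (integral_const_mul _ _).symm
  have h2 : Integrable (fun t => k t * ∫ r, w r * V c σ q t (s * r)) := by
    simp only [h1]
    exact hint.integral_prod_left
  refine ⟨h2, ?_⟩
  have h3 : ∫ t, k t * ∫ r, w r * V c σ q t (s * r) =
      ∫ r, ∫ t, k t * (w r * V c σ q t (s * r)) := by
    simp only [h1]
    exact integral_integral_swap hint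
  rw [h3, ← integral_const_mul, ← integral_const_mul]
  refine integral_mono hint.integral_prod_right ((hwi.const_mul _).const_mul _) fun r => ?_
  simp only
  have hYi : Integrable (fun t => k t * Y c σ t (s * r)) :=
    kY_integrable hσ hP hk hk0 hk1 (s * r)
  have e1 : (fun t => k t * (w r * V c σ q t (s * r))) =
      fun t => w r * (1 / 2 * |s * r|) * (q * k t + q⁻¹ * (k t * Y c σ t (s * r))) := by
    funext t
    unfold V
    ring
  rw [e1, integral_const_mul, integral_add (hki.const_mul _) (hYi.const_mul _),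
    integral_const_mul, integral_const_mul, hk2]
  have h4 := mean_YE hσ hP hk hk0 hk1 (s * r)
  have h5 := hw0 r
  have h6 := abs_nonneg r
  have h7 := Real.one_le_exp h6
  have hq' : 0 < q⁻¹ := by positivity
  have hR0 : 0 ≤ EE c σ 0 := EE_nonneg 0
  have h10 : Real.exp |s * r| ≤ Real.exp |r| := Real.exp_le_exp.2 (habs r)
  have h8 : q * 1 + q⁻¹ * ∫ t, k t * Y c σ t (s * r) ≤
      (q + 4 * q⁻¹ * EE c σ 0) * Real.exp |r| := by
    have h9 := mul_le_mul_of_nonneg_left h4 hq'.le
    have h11 : 4 * Real.exp |s * r| * EE c σ 0 ≤ 4 * Real.exp |r| * EE c σ 0 := by gcongr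
    have h12 := mul_le_mul_of_nonneg_left h11 hq'.le
    have h13 : q * 1 ≤ q * Real.exp |r| := mul_le_mul_of_nonneg_left h7 hq.le
    calc q * 1 + q⁻¹ * ∫ t, k t * Y c σ t (s * r) ≤
        q * Real.exp |r| + q⁻¹ * (4 * Real.exp |r| * EE c σ 0) := by linarith
      _ = _ := by ring
  have e2 : |s * r| = s * |r| := by rw [abs_mul, abs_of_nonneg hs]
  rw [e2]
  calc w r * (1 / 2 * (s * |r|)) * (q * 1 + q⁻¹ * ∫ t, k t * Y c σ t (s * r)) ≤
      w r * (1 / 2 * (s * |r|)) * ((q + 4 * q⁻¹ * EE c σ 0) * Real.exp |r|) :=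
        mul_le_mul_of_nonneg_left h8 (by positivity)
    _ = _ := by ring

end mean

end Pool.Agent.R402.Win
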