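import Mathlib
import Pool.Agent.R402.W3
import Pool.Agent.R402.Eul
import Pool.Agent.R402.Vm

/-!
# Splitting off the small prime powers
-/

set_option autoImplicit false

open MeasureTheory Filter Topology Set Real
open scoped ArithmeticFunction.vonMangoldt

namespace Pool.Agent.R402.Win

open Pool.Agent.R402.MeanSq Pool.Agent.R402.Ser Pool.Agent.R402.Eul

/-- the coefficients above `T^4` -/
noncomputable def hi (T : ℝ) (c : ℕ → ℂ) (n : ℕ) : ℂ := if (n : ℝ) ≤ T ^ 4 then 0 else c n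

/-- the coefficients up to `T^4` -/
noncomputable def lo (T : ℝ) (c : ℕ → ℂ) (n : ℕ) : ℂ := if (n : ℝ) ≤ T ^ 4 then c n else 0

lemma hi_sup (T : ℝ) (c : ℕ → ℂ) : Sup T (hi T c) := fun n hn => by
  unfold hi; rw [if_pos hn]

lemma norm_hi (T : ℝ) (c : ℕ → ℂ) (n : ℕ) : ‖hi T c n‖ ≤ ‖c n‖ := by
  unfold hi
  split_ifs
  · simp
  · exact le_rfl

lemma norm_lo (T : ℝ) (c : ℕ → ℂ) (n : ℕ) : ‖lo T c n‖ ≤ ‖c n‖ := by
  unfold lo
  split_ifs
  · exact le_rfl
  · simp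

lemma hi_add_lo (T : ℝ) (c : ℕ → ℂ) (n : ℕ) : hi T c n + lo T c n = c n := by
  unfold hi lo
  split_ifs <;> simp

lemma hi_tw (T : ℝ) (c : ℕ → ℂ) (t : ℝ) : hi T (tw c t) = tw (hi T c) t := by
  funext n
  by_cases h : (n : ℝ) ≤ T ^ 4
  · simp only [hi, tw, if_pos h, zero_mul]
  · simp only [hi, tw, if_neg h]

section
variable {c : ℕ → ℂ} {σ T : ℝ}

lemma P_mono {c' : ℕ → ℂ} (h : ∀ n, ‖c' n‖ ≤ ‖c n‖) (σ : ℝ) (n : ℕ) : P c' σ n ≤ P c σ n := by
  unfold P
  have h1 := v_nonneg σ n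
  have h2 := h n
  gcongr

lemma P_summ {c' : ℕ → ℂ} (h : ∀ n, ‖c' n‖ ≤ ‖c n‖) (hP : Summable (P c σ)) :
    Summable (P c' σ) ∧ ∑' n, P c' σ n ≤ ∑' n, P c σ n := by
  have h1 : Summable (P c' σ) := Summable.of_nonneg_of_le (P_nonneg c' σ) (P_mono h σ) hP
  exact ⟨h1, h1.tsum_le_tsum (P_mono h σ) hP⟩

lemma G_split (hσ : 1 < σ) (hP : Summable (P c σ)) (T t : ℝ) :
    G c σ t = G (hi T c) σ t + G (lo T c) σ t := by
  have h1 := summable_gg hσ (P_summ (norm_hi T c) hP).1 t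
  have h2 := summable_gg hσ (P_summ (norm_lo T c) hP).1 t
  have h3 := h1.tsum_add h2
  unfold G
  unfold gg at h3
  rw [← h3]
  refine tsum_congr fun n => ?_
  rw [← hi_add_lo T c n]
  ring

lemma D_tw (c : ℕ → ℂ) (σ t u : ℝ) : D (tw c t) σ u = D c σ (u + t) := by
  unfold D
  refine tsum_congr fun n => ?_
  unfold tw
  have : Complex.exp (-(Real.log n * (u + t) : ℝ) * Complex.I) =
      Complex.exp (-(Real.log n * t : ℝ) * Complex.I) *
        Complex.exp (-(Real.log n * u : ℝ) * Complex.I) := by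
    rw [← Complex.exp_add]
    congr 1
    push_cast
    ring
  rw [this]
  ring

lemma EE_tw (c : ℕ → ℂ) (σ t τ : ℝ) : EE (tw c t) σ τ = EE c σ (τ + t) := by
  unfold EE
  refine integral_congr_ae (Eventually.of_forall fun u => ?_)
  simp only
  rw [D_tw]
  congr 4
  ring

/-- the low part as an entire function -/
noncomputable def glo (T : ℝ) (c : ℕ → ℂ) (z : ℂ) : ℂ :=
  ∑ n ∈ Finset.Icc 1 ⌊T ^ 4⌋₊, ((Λ n / Real.log n : ℝ) : ℂ) * c n * (n : ℂ) ^ (-z)

lemma glo_diff (T : ℝ) (c : ℕ → ℂ) : Differentiable ℂ (glo T c) := by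
  unfold glo
  refine Differentiable.fun_sum fun n hn => ?_
  refine Differentiable.const_mul ?_ _
  have hn0 : 0 < n := (Finset.mem_Icc.1 hn).1
  have hnc : (n : ℂ) ≠ 0 := by exact_mod_cast hn0.ne'
  exact (differentiable_id.neg).const_cpow (Or.inl hnc)

lemma mem_range_iff {n : ℕ} (hT : 0 < T) : n ∈ Finset.Icc 1 ⌊T ^ 4⌋₊ ↔ 0 < n ∧ (n:ℝ) ≤ T ^ 4 := by
  rw [Finset.mem_Icc, Nat.le_floor_iff (by positivity)]
  rfl

lemma glo_eq (hT : 0 < T) (c : ℕ → ℂ) (σ t : ℝ) :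
    G (lo T c) σ t = glo T c ((σ : ℂ) + t * Complex.I) := by
  unfold G glo
  rw [tsum_eq_sum (s := Finset.Icc 1 ⌊T ^ 4⌋₊)]
  · refine Finset.sum_congr rfl fun n hn => ?_
    rw [mem_range_iff hT] at hn
    rw [← natCast_cpow hn.1]
    unfold lo v
    rw [if_pos hn.2]
    push_cast
    ring
  · intro n hn
    rw [mem_range_iff hT] at hn
    rcases Nat.eq_zero_or_pos n with rfl | hn0
    · simp [v_zero]
    · have : ¬ (n:ℝ) ≤ T ^ 4 := fun h => hn ⟨hn0, h⟩
      unfold lo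
      rw [if_neg this]
      simp

/-- the sum of absolute values -/
noncomputable def absG (c : ℕ → ℂ) (σ : ℝ) : ℝ := ∑' n, v σ n / Real.log n * ‖c n‖

lemma vlog_nonneg (σ : ℝ) (n : ℕ) : 0 ≤ v σ n / Real.log n :=
  div_nonneg (v_nonneg σ n) (Real.log_natCast_nonneg n)

lemma summ_absG (hσ : 1 < σ) (hP : Summable (P c σ)) :
    Summable (fun n => v σ n / Real.log n * ‖c n‖) := by
  refine Summable.of_nonneg_of_le (fun n => mul_nonneg (vlog_nonneg σ n) (norm_nonneg _))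
    (fun n => ?_) ((summable_x hσ hP).mul_left 2)
  have := norm_gg_le (c := c) (σ := σ) 0 n
  rwa [norm_gg] at this

lemma G_le_absG (hσ : 1 < σ) (hP : Summable (P c σ)) (t : ℝ) : ‖G c σ t‖ ≤ absG c σ := by
  unfold G absG
  refine tsum_of_norm_bounded (summ_absG hσ hP).hasSum fun n => ?_
  have := norm_gg (c := c) (σ := σ) t n
  unfold gg at this
  rw [this]

lemma absG_mono {c' : ℕ → ℂ} (hσ : 1 < σ) (hP : Summable (P c σ)) (h : ∀ n, ‖c' n‖ ≤ ‖c n‖) :
    absG c' σ ≤ absG c σ := by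
  unfold absG
  refine (summ_absG hσ (P_summ h hP).1).tsum_le_tsum (fun n => ?_) (summ_absG hσ hP)
  exact mul_le_mul_of_nonneg_left (h n) (vlog_nonneg σ n)

lemma absG_nonneg (c : ℕ → ℂ) (σ : ℝ) : 0 ≤ absG c σ :=
  tsum_nonneg fun n => mul_nonneg (vlog_nonneg σ n) (norm_nonneg _)

/-- `∑ Λ(n) n^{-σ} / log² n` is bounded -/
lemma vlog2 (hσ : 1 ≤ σ) : Summable (fun n : ℕ => v σ n / Real.log n ^ 2) ∧
    ∑' n : ℕ, v σ n / Real.log n ^ 2 ≤ 2 * C2 := by
  have h0 : ∀ n : ℕ, 0 ≤ v σ n / Real.log n ^ 2 := fun n => div_nonneg (v_nonneg σ n) (by positivity)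
  have h1 : ∀ S : Finset ℕ, ∑ n ∈ S, v σ n / Real.log n ^ 2 ≤ 2 * C2 := by
    intro S
    have e1 : ∑ n ∈ S, v σ n / Real.log n ^ 2 =
        ∑ n ∈ S.filter (fun n => 0 < n), v σ n / Real.log n ^ 2 := by
      rw [Finset.sum_filter]
      refine Finset.sum_congr rfl fun n _ => ?_
      rcases Nat.eq_zero_or_pos n with rfl | hn
      · simp [v_zero]
      · rw [if_pos hn]
    rw [e1]
    have h2 := inner 0 (S.filter (fun n => 0 < n)) (fun n hn => (Finset.mem_filter.1 hn).2)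
    have h3 : ∑ n ∈ S.filter (fun n => 0 < n), v σ n / Real.log n ^ 2 ≤
        ∑ n ∈ S.filter (fun n => 0 < n),
          2 * (Λ n * (n : ℝ)⁻¹ * (2 / (1 + (0 - Real.log n) ^ 2))) := by
      refine Finset.sum_le_sum fun n _ => ?_
      have h4 : 0 ≤ Λ n * (n : ℝ)⁻¹ :=
        mul_nonneg ArithmeticFunction.vonMangoldt_nonneg (by positivity)
      rcases Nat.lt_or_ge 1 n with hn | hn
      · have h5 : (2:ℝ) ≤ n := by exact_mod_cast hn
        have h6 : Real.log 2 ≤ Real.log n := Real.log_le_log (by norm_num) h5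
        have h7 := Real.log_two_gt_d9
        have h8 : 0 < Real.log n := by linarith
        have h9 : 1 / Real.log n ^ 2 ≤ 2 * (2 / (1 + (0 - Real.log n) ^ 2)) := by
          rw [← mul_div_assoc, div_le_div_iff₀ (by positivity) (by positivity)]
          nlinarith
        calc v σ n / Real.log n ^ 2 = v σ n * (1 / Real.log n ^ 2) := by ring
          _ ≤ (Λ n * (n : ℝ)⁻¹) * (2 * (2 / (1 + (0 - Real.log n) ^ 2))) := by
              apply mul_le_mul (v_le hσ n) h9 (by positivity) h4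
          _ = _ := by ring
      · rw [v_eq_zero hn, zero_div]
        positivity
    refine h3.trans ?_
    rw [← Finset.mul_sum]
    linarith
  have h2 := summable_of_sum_le h0 h1
  exact ⟨h2, h2.tsum_le_of_sum_le h1⟩

lemma absG_le (hσ : 1 < σ) (hP : Summable (P c σ)) {q : ℝ} (hq : 0 < q) :
    absG c σ ≤ 1 / 2 * (q * (2 * C2) + q⁻¹ * ∑' n, P c σ n) := by
  obtain ⟨h1, h2⟩ := vlog2 hσ.le
  have h3 : ∀ n : ℕ, v σ n / Real.log n * ‖c n‖ ≤
      1 / 2 * (q * (v σ n / Real.log n ^ 2) + q⁻¹ * P c σ n) := by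
    intro n
    have hv := v_nonneg σ n
    have e : 1 / 2 * (q * (v σ n / Real.log n ^ 2) + q⁻¹ * P c σ n) - v σ n / Real.log n * ‖c n‖ =
        1 / 2 * (v σ n * (q⁻¹ * (q / Real.log n - ‖c n‖) ^ 2)) := by
      unfold P
      field_simp
      ring
    have h4 : 0 ≤ 1 / 2 * (v σ n * (q⁻¹ * (q / Real.log n - ‖c n‖) ^ 2)) := by positivity
    linarith
  have h4 := (((h1.mul_left q).add (hP.mul_left q⁻¹)).mul_left (1 / 2))
  unfold absG
  refine ((summ_absG hσ hP).tsum_le_tsum h3 h4).trans ?_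
  rw [tsum_mul_left, (h1.mul_left q).tsum_add (hP.mul_left q⁻¹), tsum_mul_left, tsum_mul_left]
  have := mul_le_mul_of_nonneg_left h2 hq.le
  linarith

/-- the size of the low part to the left of `Re s = σ` -/
lemma glo_norm (hT : 0 < T) (hσ : 1 < σ) (hP : Summable (P c σ)) {b : ℝ} (hb : 0 ≤ b) {z : ℂ}
    (hz : σ - b ≤ z.re) : ‖glo T c z‖ ≤ (T ^ 4) ^ b * absG c σ := by
  unfold glo absG
  have hTb : 0 ≤ (T ^ 4) ^ b := by positivity
  refine (norm_sum_le _ _).trans ?_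
  have h1 : ∀ n ∈ Finset.Icc 1 ⌊T ^ 4⌋₊,
      ‖((Λ n / Real.log n : ℝ) : ℂ) * c n * (n : ℂ) ^ (-z)‖ ≤
        (T ^ 4) ^ b * (v σ n / Real.log n * ‖c n‖) := by
    intro n hn
    rw [mem_range_iff hT] at hn
    obtain ⟨hn0, hn1⟩ := hn
    have hnr : (1:ℝ) ≤ n := by exact_mod_cast hn0
    have hnp : (0:ℝ) < n := by linarith
    have hL : 0 ≤ Λ n / Real.log n :=
      div_nonneg ArithmeticFunction.vonMangoldt_nonneg (Real.log_natCast_nonneg n)
    rw [norm_mul, norm_mul, Complex.norm_real, Real.norm_of_nonneg hL,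
      Complex.norm_natCast_cpow_of_pos hn0, Complex.neg_re]
    have h2 : (n:ℝ) ^ (-z.re) ≤ (T ^ 4) ^ b * (n:ℝ) ^ (-σ) := by
      calc (n:ℝ) ^ (-z.re) ≤ (n:ℝ) ^ (b + -σ) :=
            Real.rpow_le_rpow_of_exponent_le hnr (by linarith)
        _ = (n:ℝ) ^ b * (n:ℝ) ^ (-σ) := Real.rpow_add hnp _ _
        _ ≤ _ := by
            have : (n:ℝ) ^ b ≤ (T ^ 4) ^ b := Real.rpow_le_rpow hnp.le hn1 hb
            have h3 := Real.rpow_nonneg hnp.le (-σ)
            exact mul_le_mul_of_nonneg_right this h3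
    calc Λ n / Real.log n * ‖c n‖ * (n:ℝ) ^ (-z.re) ≤
        Λ n / Real.log n * ‖c n‖ * ((T ^ 4) ^ b * (n:ℝ) ^ (-σ)) := by
          have := norm_nonneg (c n)
          gcongr
      _ = _ := by unfold v; ring
  refine (Finset.sum_le_sum h1).trans ?_
  rw [← Finset.mul_sum]
  refine mul_le_mul_of_nonneg_left ?_ hTb
  exact (summ_absG hσ hP).sum_le_tsum _
    (fun n _ => mul_nonneg (vlog_nonneg σ n) (norm_nonneg _))

/-- the sum of `Λ(n)/n` up to `T^4` -/
lemma low_sum {T : ℝ} (hT : 2 ≤ T) (hσ : 1 ≤ σ) :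
    ∑ n ∈ Finset.Icc 1 ⌊T ^ 4⌋₊, v σ n ≤ 8 * Real.exp 1 * (C1 * Real.exp 1) * Real.log T := by
  have hT0 : 0 < T := by linarith
  have hlT : Real.log 2 ≤ Real.log T := Real.log_le_log (by norm_num) hT
  have h2 := Real.log_two_gt_d9
  have hl0 : 0 < Real.log T := by linarith
  set σ' : ℝ := 1 + 1 / (4 * Real.log T) with hσ'
  have h3 : 0 < 1 / (4 * Real.log T) := by positivity
  have h4 : 1 / (4 * Real.log T) ≤ 1 := by
    rw [div_le_one (by positivity)]; linarith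
  have h5 := sum_v_le (σ := σ') (by linarith) (by linarith)
  have h6 : ∀ n ∈ Finset.Icc 1 ⌊T ^ 4⌋₊, v σ n ≤ Real.exp 1 * v σ' n := by
    intro n hn
    rw [mem_range_iff hT0] at hn
    obtain ⟨hn0, hn1⟩ := hn
    have hnr : (1:ℝ) ≤ n := by exact_mod_cast hn0
    have hnp : (0:ℝ) < n := by linarith
    refine (v_le hσ n).trans ?_
    have e1 : (n:ℝ)⁻¹ = (n:ℝ) ^ (1 / (4 * Real.log T)) * (n:ℝ) ^ (-σ') := by
      rw [← Real.rpow_add hnp, ← Real.rpow_neg_one]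
      congr 1
      rw [hσ']; ring
    have e2 : (n:ℝ) ^ (1 / (4 * Real.log T)) ≤ Real.exp 1 := by
      calc (n:ℝ) ^ (1 / (4 * Real.log T)) ≤ (T ^ 4) ^ (1 / (4 * Real.log T)) :=
            Real.rpow_le_rpow hnp.le hn1 h3.le
        _ = Real.exp 1 := by
            rw [Real.rpow_def_of_pos (by positivity), Real.log_pow]
            congr 1
            push_cast
            field_simp
    rw [e1]
    unfold v
    have h7 : 0 ≤ Λ n := ArithmeticFunction.vonMangoldt_nonneg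
    have h8 := Real.rpow_nonneg hnp.le (-σ')
    calc Λ n * ((n:ℝ) ^ (1 / (4 * Real.log T)) * (n:ℝ) ^ (-σ')) ≤
        Λ n * (Real.exp 1 * (n:ℝ) ^ (-σ')) := by gcongr
      _ = _ := by ring
  refine (Finset.sum_le_sum h6).trans ?_
  rw [← Finset.mul_sum]
  have h7 : ∑ n ∈ Finset.Icc 1 ⌊T ^ 4⌋₊, v σ' n ≤ ∑' n, v σ' n :=
    (summable_v (by linarith)).sum_le_tsum _ (fun n _ => v_nonneg σ' n)
  have h8 : σ' - 1 = 1 / (4 * Real.log T) := by rw [hσ']; ring
  rw [h8] at h5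
  calc Real.exp 1 * ∑ n ∈ Finset.Icc 1 ⌊T ^ 4⌋₊, v σ' n ≤
      Real.exp 1 * (2 * (C1 * Real.exp 1) * (1 / (1 / (4 * Real.log T)))) := by
        have := h7.trans h5
        gcongr
    _ = _ := by
        rw [one_div_one_div]; ring

/-- moving the low part to the left -/
lemma glo_sub {T : ℝ} (hT : 2 ≤ T) (hσ : 1 < σ) (hP : Summable (P c σ)) {a q : ℝ} (ha : 0 ≤ a)
    (hq : 0 < q) (t : ℝ) :
    ‖glo T c (((σ - a : ℝ) : ℂ) + t * Complex.I) - glo T c ((σ : ℂ) + t * Complex.I)‖ ≤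
      a * (T ^ 4) ^ a * (1 / 2 * (q * (8 * Real.exp 1 * (C1 * Real.exp 1) * Real.log T) +
        q⁻¹ * ∑' n, P c σ n)) := by
  have hT0 : 0 < T := by linarith
  have hTa : 0 ≤ (T ^ 4) ^ a := by positivity
  unfold glo
  rw [← Finset.sum_sub_distrib]
  refine (norm_sum_le _ _).trans ?_
  have h1 : ∀ n ∈ Finset.Icc 1 ⌊T ^ 4⌋₊,
      ‖((Λ n / Real.log n : ℝ) : ℂ) * c n * (n : ℂ) ^ (-(((σ - a : ℝ) : ℂ) + t * Complex.I)) -
        ((Λ n / Real.log n : ℝ) : ℂ) * c n * (n : ℂ) ^ (-((σ : ℂ) + t * Complex.I))‖ ≤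
        a * (T ^ 4) ^ a * (1 / 2 * (q * v σ n + q⁻¹ * P c σ n)) := by
    intro n hn
    rw [mem_range_iff hT0] at hn
    obtain ⟨hn0, hn1⟩ := hn
    have hnr : (1:ℝ) ≤ n := by exact_mod_cast hn0
    have hnp : (0:ℝ) < n := by linarith
    have hL : 0 ≤ Λ n / Real.log n :=
      div_nonneg ArithmeticFunction.vonMangoldt_nonneg (Real.log_natCast_nonneg n)
    have hln : 0 ≤ Real.log n := Real.log_natCast_nonneg n
    rw [← mul_sub, norm_mul, norm_mul, Complex.norm_real, Real.norm_of_nonneg hL]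
    rw [← natCast_cpow hn0, ← natCast_cpow hn0, ← sub_mul, ← Complex.ofReal_sub, norm_mul]
    have e0 : Complex.exp (-(Real.log n * t : ℝ) * Complex.I) =
      Complex.exp ((-(Real.log n * t) : ℝ) * Complex.I) := by push_cast; rfl
    rw [e0, Complex.norm_exp_ofReal_mul_I, mul_one, Complex.norm_real, Real.norm_eq_abs]
    have h2 : |(n:ℝ) ^ (-(σ - a)) - (n:ℝ) ^ (-σ)| ≤ a * Real.log n * ((T ^ 4) ^ a * (n:ℝ) ^ (-σ)) := by
      have e1 : (n:ℝ) ^ (-(σ - a)) = (n:ℝ) ^ a * (n:ℝ) ^ (-σ) := by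
        rw [← Real.rpow_add hnp]; congr 1; ring
      have e2 : 1 ≤ (n:ℝ) ^ a := Real.one_le_rpow hnr ha
      have e3 : (n:ℝ) ^ a ≤ (T ^ 4) ^ a := Real.rpow_le_rpow hnp.le hn1 ha
      have h3 := Real.rpow_nonneg hnp.le (-σ)
      rw [e1, abs_of_nonneg (by nlinarith)]
      have e4 : (n:ℝ) ^ a - 1 ≤ a * Real.log n * (n:ℝ) ^ a := by
        have e5 := Real.add_one_le_exp (-(a * Real.log n))
        have e6 : (n:ℝ) ^ a = Real.exp (a * Real.log n) := by
          rw [Real.rpow_def_of_pos hnp, mul_comm]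
        rw [e6]
        have e7 := Real.exp_pos (a * Real.log n)
        have e8 : Real.exp (-(a * Real.log n)) * Real.exp (a * Real.log n) = 1 := by
          rw [← Real.exp_add]; simp
        nlinarith
      have e5 : a * Real.log n * (n:ℝ) ^ a ≤ a * Real.log n * (T ^ 4) ^ a :=
        mul_le_mul_of_nonneg_left e3 (by positivity)
      calc (n:ℝ) ^ a * (n:ℝ) ^ (-σ) - (n:ℝ) ^ (-σ) = ((n:ℝ) ^ a - 1) * (n:ℝ) ^ (-σ) := by ring
        _ ≤ (a * Real.log n * (T ^ 4) ^ a) * (n:ℝ) ^ (-σ) :=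
            mul_le_mul_of_nonneg_right (e4.trans e5) h3
        _ = _ := by ring
    have hcn := norm_nonneg (c n)
    calc Λ n / Real.log n * ‖c n‖ * |(n:ℝ) ^ (-(σ - a)) - (n:ℝ) ^ (-σ)| ≤
        Λ n / Real.log n * ‖c n‖ * (a * Real.log n * ((T ^ 4) ^ a * (n:ℝ) ^ (-σ))) := by gcongr
      _ = a * (T ^ 4) ^ a * ((Λ n / Real.log n * Real.log n) * (n:ℝ) ^ (-σ) * ‖c n‖) := by ring
      _ ≤ a * (T ^ 4) ^ a * (v σ n * ‖c n‖) := by
          refine mul_le_mul_of_nonneg_left ?_ (by positivity)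
          unfold v
          refine mul_le_mul_of_nonneg_right ?_ hcn
          refine mul_le_mul_of_nonneg_right ?_ (Real.rpow_nonneg hnp.le _)
          rcases eq_or_lt_of_le hln with h | h
          · rw [← h]; simp [ArithmeticFunction.vonMangoldt_nonneg]
          · rw [div_mul_cancel₀ _ h.ne']
      _ ≤ _ := by
          refine mul_le_mul_of_nonneg_left ?_ (by positivity)
          have hv := v_nonneg σ n
          have e : 1 / 2 * (q * v σ n + q⁻¹ * P c σ n) - v σ n * ‖c n‖ =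
              1 / 2 * (v σ n * (q⁻¹ * (q - ‖c n‖) ^ 2)) := by
            unfold P
            field_simp
            ring
          have h4 : 0 ≤ 1 / 2 * (v σ n * (q⁻¹ * (q - ‖c n‖) ^ 2)) := by positivity
          linarith
  refine (Finset.sum_le_sum h1).trans ?_
  rw [← Finset.mul_sum]
  refine mul_le_mul_of_nonneg_left ?_ (by positivity)
  rw [← Finset.mul_sum, Finset.sum_add_distrib, ← Finset.mul_sum, ← Finset.mul_sum]
  have h2 := low_sum hT hσ.le
  have h3 : ∑ n ∈ Finset.Icc 1 ⌊T ^ 4⌋₊, P c σ n ≤ ∑' n, P c σ n :=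
    hP.sum_le_tsum _ (fun n _ => P_nonneg c σ n)
  gcongr

end

end Pool.Agent.R402.Win
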