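import Mathlib
import Pool.Agent.R402.W4
import Pool.Agent.R402.Fin

/-!
# The bound near the edge, after splitting off the small prime powers
-/

set_option autoImplicit false

open MeasureTheory Filter Topology Set Real
open scoped ArithmeticFunction.vonMangoldt

namespace Pool.Agent.R402.Win

open Pool.Agent.R402.Strip Pool.Agent.R402.Kern Pool.Agent.R402.Edge
open Pool.Agent.R402.MeanSq Pool.Agent.R402.Ser Pool.Agent.R402.Core Pool.Agent.R402.Fin

section
variable {d Cn θ A Q0 : ℝ} {c : ℕ → ℂ} {F : ℂ → ℂ}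

lemma phi_mem {κ b : ℝ} (hκ : 0 < κ) (hb : 0 < b) (hb1 : b ≤ 1 / 2) :
    π - π * b / (2 * (1 / 2 + κ)) ∈ Ioo 0 π := by
  have hpi := Real.pi_pos
  have e1 : 0 < π * b / (2 * (1 / 2 + κ)) := by positivity
  have e2 : π * b / (2 * (1 / 2 + κ)) < π := by
    rw [div_lt_iff₀ (by positivity)]
    exact mul_lt_mul_of_pos_left (by linarith) hpi
  constructor <;> linarith

lemma K_log {κ b : ℝ} (hκ : 0 < κ) (hκ1 : κ ≤ 1 / 4) (hb : 0 < b) (hb1 : b ≤ 1 / 2) :
    Integrable (fun r : ℝ => K (1 / 2 + κ) (π - π * b / (2 * (1 / 2 + κ))) (-1) r *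
      Real.log (1 + |r|)) ∧
    ∫ r : ℝ, K (1 / 2 + κ) (π - π * b / (2 * (1 / 2 + κ))) (-1) r * Real.log (1 + |r|) ≤
      32000 := by
  have hφ := phi_mem hκ hb hb1
  have hh : 0 < 1 / 2 + κ := by linarith
  obtain ⟨h1, h2⟩ := KK_moment (h := 1 / 2 + κ) (a := b) (η := 1)
    (by linarith) (by linarith) hb hb1 one_pos le_rfl
  have h3 : b * b ^ (-1 : ℝ) = 1 := by
    rw [Real.rpow_neg_one]; field_simp
  rw [h3] at h2
  have h4 : ∀ r : ℝ, K (1 / 2 + κ) (π - π * b / (2 * (1 / 2 + κ))) (-1) r * Real.log (1 + |r|) ≤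
      KK (1 / 2 + κ) (π - π * b / (2 * (1 / 2 + κ))) r * (|r| * Real.exp |r|) := by
    intro r
    have a1 := (K_pos hh hφ (Or.inl rfl : (1:ℝ) = 1 ∨ (1:ℝ) = -1) r).le
    have a2 := (K_pos hh hφ (Or.inr rfl : (-1:ℝ) = 1 ∨ (-1:ℝ) = -1) r).le
    have a3 : Real.log (1 + |r|) ≤ |r| := by
      have := Real.log_le_sub_one_of_pos (by positivity : 0 < 1 + |r|)
      linarith
    have a4 := log_one_add_nonneg r
    have a5 := Real.one_le_exp (abs_nonneg r)
    have a6 : Real.log (1 + |r|) ≤ |r| * Real.exp |r| := by nlinarith [abs_nonneg r]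
    unfold KK
    apply mul_le_mul (by linarith) a6 a4 (by linarith)
  have h5 : Integrable (fun r : ℝ => K (1 / 2 + κ) (π - π * b / (2 * (1 / 2 + κ))) (-1) r *
      Real.log (1 + |r|)) := by
    refine h1.mono' ((K_continuous hh hφ (Or.inr rfl)).mul
      log_one_add_continuous).aestronglyMeasurable (Eventually.of_forall fun r => ?_)
    rw [Real.norm_of_nonneg (mul_nonneg (K_pos hh hφ (Or.inr rfl) r).le (log_one_add_nonneg r))]
    exact h4 r
  refine ⟨h5, (integral_mono h5 h1 h4).trans (h2.trans (by norm_num))⟩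

/-- convexity slightly to the left of the line `Re s = 1` -/
lemma conv_edge (H : Hyp d Cn θ A Q0 c F) (hd : 0 ≤ d) (hCn : 1 ≤ Cn) {κ b S : ℝ}
    (hκ : 0 < κ) (hκ1 : κ ≤ 1 / 4) (hb : 0 < b) (hb1 : b ≤ 1 / 2)
    (hS : ∀ t, ‖G c (1 + κ) t‖ ≤ S) (t : ℝ) :
    ‖F ((1 + κ - b : ℝ) + t * Complex.I)‖ ≤ Real.exp (S + Real.log Cn +
      b / 2 * (Real.log Q0 + d * Real.log (1 + |t|)) + 32000 * d) := by
  have hpi := Real.pi_pos
  have hS0 : 0 ≤ S := (norm_nonneg _).trans (hS 0)
  have hQ := H.one_le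
  have hlC : 0 ≤ Real.log Cn := Real.log_nonneg hCn
  have hlQ : 0 ≤ Real.log Q0 := Real.log_nonneg hQ
  have hlt := log_one_add_nonneg t
  obtain ⟨A1, B1, hB1, hg⟩ := H.growth
  have hFline : ∀ r : ℝ, F (((1 + κ : ℝ) : ℂ) + r * Complex.I) = Complex.exp (G c (1 + κ) r) :=
    fun r => H.exp_eq (1 + κ) r (by linarith)
  have hFn : ∀ r : ℝ, ‖F (((1 + κ : ℝ) : ℂ) + r * Complex.I)‖ ≤ Real.exp S := by
    intro r
    rw [hFline, Complex.norm_exp]
    exact Real.exp_le_exp.2 ((Complex.re_le_norm _).trans (hS r))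
  set h : ℝ := 1 / 2 + κ with hh
  have hh0 : 0 < h := by linarith
  have hφ : π - π * b / (2 * h) ∈ Ioo 0 π := phi_mem hκ hb hb1
  set φ : ℝ := π - π * b / (2 * h) with hφdef
  obtain ⟨k1, k2⟩ := K_log hκ hκ1 hb hb1
  rw [← hh, ← hφdef] at k1 k2
  have hφπ : φ / π = 1 - b / (2 * h) := by
    rw [hφdef]; field_simp
  set um : ℝ → ℝ := fun r => (Real.log Cn + h * (Real.log Q0 + d * Real.log (1 + |t|)) + S) +
    h * d * Real.log (1 + |r|) with hum
  have hKm := K_integrable hh0 hφ (Or.inr rfl : (-1:ℝ) = 1 ∨ (-1:ℝ) = -1)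
  have hKp := K_integrable hh0 hφ (Or.inl rfl : (1:ℝ) = 1 ∨ (1:ℝ) = -1)
  have humi : Integrable (fun r => K h φ (-1) r * um r) := by
    refine ((hKm.mul_const (Real.log Cn + h * (Real.log Q0 + d * Real.log (1 + |t|)) + S)).add
      (k1.const_mul (h * d))).congr (Eventually.of_forall fun r => ?_)
    simp only [hum, Pi.add_apply]
    ring
  have key := strip_point (F := fun z => F (z + 1 / 2 + t * Complex.I)) (A := A1 + B1 * |t|)
    (B := B1) (φ := φ) (up := fun _ => S) (um := um) (N := S) hh0 hφ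
    (fun z _ => AnalyticAt.comp (g := F) (H.diff.analyticAt _) (by fun_prop)) hB1
    (fun z hz => by
      have h1 := abs_le.1 hz
      have h2 := hg (z + 1 / 2 + t * Complex.I) (by simp; linarith) (by simp; linarith)
      have h3 : (z + 1 / 2 + t * Complex.I).im = z.im + t := by simp
      rw [h3] at h2
      have h4 := abs_add_le z.im t
      nlinarith)
    (hKp.mul_const S) humi (fun _ => by linarith)
    (fun r => by
      simp only [hum]
      have h1 := log_one_add_nonneg r
      have h2 : 0 ≤ Real.log Cn + h * (Real.log Q0 + d * Real.log (1 + |t|)) := by positivity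
      have h3 : 0 ≤ h * d * Real.log (1 + |r|) := by positivity
      linarith)
    (fun r => by
      have e1 : (h : ℂ) + r * Complex.I + 1 / 2 + t * Complex.I =
          ((1 + κ : ℝ) : ℂ) + ((t + r : ℝ) : ℂ) * Complex.I := by
        rw [hh]; push_cast; ring
      rw [e1]
      exact hFn _)
    (fun r => by
      have e1 : -(h : ℂ) + r * Complex.I + 1 / 2 + t * Complex.I =
          ((1 / 2 - h : ℝ) : ℂ) + ((t + r : ℝ) : ℂ) * Complex.I := by
        push_cast; ring
      have e2 : ((1 / 2 + h : ℝ) : ℂ) + ((t + r : ℝ) : ℂ) * Complex.I =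
          ((1 + κ : ℝ) : ℂ) + ((t + r : ℝ) : ℂ) * Complex.I := by
        rw [hh]; push_cast; ring
      rw [e1]
      have h1 := H.refl h (t + r) hh0.le (by linarith)
      rw [refl_factor hCn hQ, e2] at h1
      refine h1.trans ?_
      have h2 : Real.exp (Real.log Cn + h * (Real.log Q0 + d * Real.log (1 + |t + r|))) *
          ‖F (((1 + κ : ℝ) : ℂ) + ((t + r : ℝ) : ℂ) * Complex.I)‖ ≤
          Real.exp (Real.log Cn + h * (Real.log Q0 + d * Real.log (1 + |t + r|))) *
            Real.exp S := mul_le_mul_of_nonneg_left (hFn _) (Real.exp_pos _).le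
      refine h2.trans ?_
      rw [← Real.exp_add]
      apply Real.exp_le_exp.2
      simp only [hum]
      have h3 := log_add_le t r
      have h5 : h * (d * Real.log (1 + |t + r|)) ≤
          h * (d * (Real.log (1 + |t|) + Real.log (1 + |r|))) := by gcongr
      linarith)
  have hpt : ((2 * h * φ / π - h : ℝ) : ℂ) + 1 / 2 + t * Complex.I =
      ((1 + κ - b : ℝ) : ℂ) + t * Complex.I := by
    have : 2 * h * φ / π - h = 1 / 2 + κ - b := by
      rw [mul_div_assoc, hφπ, hh]
      field_simp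
      ring
    rw [this]; push_cast; ring
  rw [hpt] at key
  refine key.trans (Real.exp_le_exp.2 ?_)
  have i1 : ∫ r, K h φ 1 r * S = (1 - b / (2 * h)) * S := by
    rw [integral_mul_const, K_mass_one hh0 hφ, hφπ]
  have i2 : ∫ r, K h φ (-1) r * um r = b / (2 * h) *
      (Real.log Cn + h * (Real.log Q0 + d * Real.log (1 + |t|)) + S) +
      h * d * ∫ r, K h φ (-1) r * Real.log (1 + |r|) := by
    have e1 : (fun r => K h φ (-1) r * um r) = fun r =>
        K h φ (-1) r * (Real.log Cn + h * (Real.log Q0 + d * Real.log (1 + |t|)) + S) +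
        h * d * (K h φ (-1) r * Real.log (1 + |r|)) := by
      funext r
      simp only [hum]
      ring
    rw [e1, integral_add (hKm.mul_const _) (k1.const_mul _), integral_mul_const,
      integral_const_mul, K_mass_neg_one hh0 hφ, hφπ]
    ring
  rw [i1, i2]
  have hb2 : b / (2 * h) ≤ 1 := by
    rw [div_le_one (by positivity)]; linarith
  have j1 : b / (2 * h) * Real.log Cn ≤ 1 * Real.log Cn := mul_le_mul_of_nonneg_right hb2 hlC
  have j2 : b / (2 * h) * (h * (Real.log Q0 + d * Real.log (1 + |t|))) =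
      b / 2 * (Real.log Q0 + d * Real.log (1 + |t|)) := by
    field_simp
  have j3 : h * d * (∫ r, K h φ (-1) r * Real.log (1 + |r|)) ≤ 1 * d * 32000 := by
    have : 0 ≤ ∫ r, K h φ (-1) r * Real.log (1 + |r|) := integral_nonneg fun r =>
      mul_nonneg (K_pos hh0 hφ (Or.inr rfl) r).le (log_one_add_nonneg r)
    have h1 : h ≤ 1 := by linarith
    gcongr
  have j4 : b / (2 * h) * (Real.log Cn + h * (Real.log Q0 + d * Real.log (1 + |t|)) + S) =
    b / (2 * h) * Real.log Cn + b / (2 * h) * (h * (Real.log Q0 + d * Real.log (1 + |t|))) +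
      b / (2 * h) * S := by ring
  rw [j4, j2]
  linarith

/-- the near edge bound on the line `Re s = 1 + κ - a`, with the small prime powers split off -/
lemma edge_win (H : Hyp d Cn θ A Q0 c F) (hd : 0 ≤ d) (hCn : 1 ≤ Cn) {κ a b lam q T : ℝ}
    (hκ : 0 < κ) (hκ1 : κ ≤ 1 / 4) (ha : 0 < a) (hb : 0 < b) (hb1 : b ≤ 1 / 2)
    (hab : a / (b / (1 + 2 * κ)) ≤ 1 / 2) (hlam : 0 < lam)
    (hlam1 : lam ≤ 1) (hq : 0 < q) (hT : 0 < T) (t : ℝ) :
    ‖F ((1 + κ - a : ℝ) + t * Complex.I)‖ ≤ Real.exp ((G c (1 + κ) t).re + (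
      ‖glo T c (((1 + κ - a : ℝ) : ℂ) + t * Complex.I) -
        glo T c (((1 + κ : ℝ) : ℂ) + t * Complex.I)‖ + (Real.log 2 +
      max 0 ((1 - a / b) * (Real.log lam - 1) + a / b * (Real.log 2 +
        (2 * absG c (1 + κ) + (T ^ 4) ^ b * absG c (1 + κ) + Real.log Cn + 32000 * d +
          b / 2 * (Real.log Q0 + d * Real.log (1 + |t|))))) +
      d * (∫ r : ℝ, KK (1 / 2 + κ) (π - π * (a / (b / (1 + 2 * κ))) / (2 * (1 / 2 + κ))) r *
        (|r| * Real.exp |r|)) +
      (1 / lam + 1) * ∫ r : ℝ, KK (1 / 2 + κ)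
        (π - π * (a / (b / (1 + 2 * κ))) / (2 * (1 / 2 + κ))) r *
        V (hi T c) (1 + κ) q t (b / (1 + 2 * κ) * r)))) := by
  have hσ : 1 < 1 + κ := by linarith
  have hP := H.summ (1 + κ) hσ
  have hPhi := (P_summ (norm_hi T c) hP).1
  obtain ⟨A1, B1, hB1, hg⟩ := H.growth
  have hQ := H.one_le
  have hlC : 0 ≤ Real.log Cn := Real.log_nonneg hCn
  have hlQ : 0 ≤ Real.log Q0 := Real.log_nonneg hQ
  have hlt := log_one_add_nonneg t
  set S : ℝ := absG c (1 + κ) with hS
  have hS0 : 0 ≤ S := absG_nonneg c _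
  have hGS : ∀ r, ‖G c (1 + κ) r‖ ≤ S := fun r => G_le_absG hσ hP r
  have hGhS : ∀ r, ‖G (hi T c) (1 + κ) r‖ ≤ S := fun r =>
    (G_le_absG hσ hPhi r).trans (absG_mono hσ hP (norm_hi T c))
  set s : ℝ := b / (1 + 2 * κ) with hs
  have hs0 : 0 < s := by positivity
  have hs1 : s ≤ 1 := by
    rw [hs, div_le_one (by positivity)]; linarith
  have hsb : s * (1 + 2 * κ) = b := by rw [hs]; field_simp
  set a' : ℝ := a / s with ha'
  have ha'0 : 0 < a' := by positivity
  have hsa : s * a' = a := by rw [ha']; field_simp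
  have ha'b : a' / (1 + 2 * κ) = a / b := by
    rw [ha', hs]; field_simp
  set F1 : ℂ → ℂ := fun z => F z * Complex.exp (-glo T c z) with hF1
  have hF1d : Differentiable ℂ F1 := H.diff.mul ((glo_diff T c).neg.cexp)
  have hF1line : ∀ r : ℝ, F1 (((1 + κ : ℝ) : ℂ) + r * Complex.I) =
      Complex.exp (G (hi T c) (1 + κ) r) := by
    intro r
    simp only [hF1]
    rw [H.exp_eq (1 + κ) r hσ, ← Complex.exp_add, G_split hσ hP T r, glo_eq hT]
    congr 1
    ring
  have hF1n : ∀ z : ℂ, 1 + κ - b ≤ z.re → ‖F1 z‖ ≤ ‖F z‖ * Real.exp ((T ^ 4) ^ b * S) := by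
    intro z hz
    simp only [hF1]
    rw [norm_mul, Complex.norm_exp]
    refine mul_le_mul_of_nonneg_left (Real.exp_le_exp.2 ?_) (norm_nonneg _)
    have h1 := glo_norm hT hσ hP hb.le hz
    rw [Complex.neg_re]
    have h2 := Complex.abs_re_le_norm (glo T c z)
    have h3 := neg_abs_le (glo T c z).re
    linarith
  set F2 : ℂ → ℂ := fun z => F1 (((1 + κ : ℝ) : ℂ) + s * (z - ((1 + κ : ℝ) : ℂ)) + t * Complex.I)
    with hF2
  have hF2d : Differentiable ℂ F2 := hF1d.comp (by fun_prop)
  have hF2line : ∀ r : ℝ, F2 (1 + κ + r * Complex.I) =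
      Complex.exp (G (hi T c) (1 + κ) (t + s * r)) := by
    intro r
    rw [← hF1line]
    simp only [hF2]
    congr 1
    push_cast
    ring
  have hF2base : F2 (1 + κ) = Complex.exp (G (hi T c) (1 + κ) t) := by
    have := hF2line 0
    simp only [Complex.ofReal_zero, zero_mul, add_zero, mul_zero] at this
    exact this
  have key := edge_point (F := F2) (κ := κ) (a := a') (lam := lam)
    (L0 := 2 * S + (T ^ 4) ^ b * S + Real.log Cn + 32000 * d +
      b / 2 * (Real.log Q0 + d * Real.log (1 + |t|)))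
    (L1 := d) (A := A1 + B1 * |t| + (T ^ 4) ^ b * S) (B := B1)
    (M := 1 / 2 * (q + q⁻¹ * (∑' n, x (hi T c) (1 + κ) n) ^ 2))
    (V := fun r => V (hi T c) (1 + κ) q t (s * r)) hκ hκ1 ha'0 hab hlam hlam1
    hF2d hB1
    (fun z hz1 hz2 => by
      simp only [hF2]
      set w : ℂ := ((1 + κ : ℝ) : ℂ) + s * (z - ((1 + κ : ℝ) : ℂ)) + t * Complex.I with hw
      have hwre : w.re = 1 + κ + s * (z.re - (1 + κ)) := by
        rw [hw]; simp
      have hwim : w.im = s * z.im + t := by
        rw [hw]; simp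
      have h1 : 1 + κ - b ≤ w.re := by
        rw [hwre]
        have : s * (-(1 + 2 * κ)) ≤ s * (z.re - (1 + κ)) :=
          mul_le_mul_of_nonneg_left (by linarith) hs0.le
        linarith
      have h2 : w.re ≤ 1 + κ := by
        rw [hwre]
        have : s * (z.re - (1 + κ)) ≤ 0 := by nlinarith
        linarith
      have h3 := hg w (by linarith) (by linarith)
      have h4 := hF1n w h1
      refine (posLog_le_posLog (norm_nonneg _) h4).trans (posLog_mul.trans ?_)
      have h5 : log⁺ (Real.exp ((T ^ 4) ^ b * S)) = (T ^ 4) ^ b * S := by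
        rw [posLog_apply, Real.log_exp]
        exact max_eq_right (by positivity)
      rw [h5]
      rw [hwim] at h3
      have h6 : |s * z.im + t| ≤ |z.im| + |t| := by
        refine (abs_add_le _ _).trans ?_
        rw [abs_mul, abs_of_pos hs0]
        nlinarith [abs_nonneg z.im]
      nlinarith [mul_le_mul_of_nonneg_left h6 hB1])
    (by
      have h1 := V_cont_right (c := hi T c) hσ hPhi q t
      exact h1.comp (continuous_const.mul continuous_id))
    (fun r => V_nonneg hq t (s * r))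
    (fun r => by
      refine (V_le hq hσ hPhi t (s * r)).trans ?_
      refine mul_le_mul_of_nonneg_left ?_ (by positivity)
      have h1 := abs_le_sq r
      have h2 : |s * r| ≤ |r| := by
        rw [abs_mul, abs_of_pos hs0]
        nlinarith [abs_nonneg r]
      linarith)
    (by rw [hF2base]; exact Complex.exp_ne_zero _)
    (fun r => by
      refine ⟨G (hi T c) (1 + κ) (t + s * r) - G (hi T c) (1 + κ) t,
        G_sub_le hq hσ hPhi t (s * r), ?_⟩
      rw [hF2line, hF2base, ← Complex.exp_add]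
      congr 1
      ring)
    (by positivity) hd
    (fun r => by
      have e1 : F2 (-κ + r * Complex.I) =
          F1 (((1 + κ - b : ℝ) : ℂ) + ((t + s * r : ℝ) : ℂ) * Complex.I) := by
        simp only [hF2]
        congr 1
        rw [← hsb]
        push_cast
        ring
      rw [e1, hF2line]
      have h1 := hF1n (((1 + κ - b : ℝ) : ℂ) + ((t + s * r : ℝ) : ℂ) * Complex.I) (by simp)
      have h2 := conv_edge H hd hCn hκ hκ1 hb hb1 hGS (t + s * r)
      have h3 : Real.exp (-S) ≤ ‖Complex.exp (G (hi T c) (1 + κ) (t + s * r))‖ := by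
        rw [Complex.norm_exp]
        apply Real.exp_le_exp.2
        have h4 := Complex.abs_re_le_norm (G (hi T c) (1 + κ) (t + s * r))
        have h5 := neg_abs_le (G (hi T c) (1 + κ) (t + s * r)).re
        linarith [hGhS (t + s * r)]
      have h4 : Real.log (1 + |t + s * r|) ≤ Real.log (1 + |t|) + Real.log (1 + |r|) := by
        refine (log_add_le t (s * r)).trans ?_
        have : Real.log (1 + |s * r|) ≤ Real.log (1 + |r|) := by
          apply Real.log_le_log (by positivity)
          rw [abs_mul, abs_of_pos hs0]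
          nlinarith [abs_nonneg r]
        linarith
      have hlr := log_one_add_nonneg r
      calc ‖F1 (((1 + κ - b : ℝ) : ℂ) + ((t + s * r : ℝ) : ℂ) * Complex.I)‖ ≤
          ‖F (((1 + κ - b : ℝ) : ℂ) + ((t + s * r : ℝ) : ℂ) * Complex.I)‖ *
            Real.exp ((T ^ 4) ^ b * S) := h1
        _ ≤ Real.exp (S + Real.log Cn + b / 2 * (Real.log Q0 + d * Real.log (1 + |t + s * r|)) +
            32000 * d) * Real.exp ((T ^ 4) ^ b * S) :=
            mul_le_mul_of_nonneg_right h2 (Real.exp_pos _).le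
        _ = Real.exp (2 * S + (T ^ 4) ^ b * S + Real.log Cn + 32000 * d +
            b / 2 * (Real.log Q0 + d * Real.log (1 + |t + s * r|))) * Real.exp (-S) := by
            rw [← Real.exp_add, ← Real.exp_add]; congr 1; ring
        _ ≤ Real.exp (2 * S + (T ^ 4) ^ b * S + Real.log Cn + 32000 * d +
            b / 2 * (Real.log Q0 + d * Real.log (1 + |t|)) + d * Real.log (1 + |r|)) *
              ‖Complex.exp (G (hi T c) (1 + κ) (t + s * r))‖ := by
            refine mul_le_mul (Real.exp_le_exp.2 ?_) h3 (Real.exp_pos _).le (Real.exp_pos _).le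
            have h5 : b / 2 * (d * Real.log (1 + |t + s * r|)) ≤
                b / 2 * (d * (Real.log (1 + |t|) + Real.log (1 + |r|))) := by gcongr
            have h6 : b / 2 * (d * Real.log (1 + |r|)) ≤ 1 * (d * Real.log (1 + |r|)) := by
              refine mul_le_mul_of_nonneg_right (by linarith) (by positivity)
            linarith)
  have e1 : F2 (1 + κ - a') = F1 (((1 + κ - a : ℝ) : ℂ) + t * Complex.I) := by
    simp only [hF2]
    congr 1
    rw [← hsa]
    push_cast
    ring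
  rw [e1, hF2base, Complex.norm_exp, ← Real.exp_add, ha'b] at key
  have e2 : ‖F (((1 + κ - a : ℝ) : ℂ) + t * Complex.I)‖ =
      ‖F1 (((1 + κ - a : ℝ) : ℂ) + t * Complex.I)‖ *
        Real.exp ((glo T c (((1 + κ - a : ℝ) : ℂ) + t * Complex.I)).re) := by
    simp only [hF1]
    rw [norm_mul, Complex.norm_exp, mul_assoc, ← Real.exp_add, Complex.neg_re, neg_add_cancel,
      Real.exp_zero, mul_one]
  rw [e2]
  refine (mul_le_mul_of_nonneg_right key (Real.exp_pos _).le).trans ?_
  rw [← Real.exp_add]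
  apply Real.exp_le_exp.2
  have e3 : (G c (1 + κ) t).re = (G (hi T c) (1 + κ) t).re +
      (glo T c (((1 + κ : ℝ) : ℂ) + t * Complex.I)).re := by
    rw [G_split hσ hP T t, glo_eq hT, Complex.add_re]
  rw [e3]
  have h1 := Complex.re_le_norm (glo T c (((1 + κ - a : ℝ) : ℂ) + t * Complex.I) -
    glo T c (((1 + κ : ℝ) : ℂ) + t * Complex.I))
  rw [Complex.sub_re] at h1
  linarith

end

end Pool.Agent.R402.Win
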