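import Mathlib
import Pool.Agent.R402.W5

/-!
# The bound at the centre in terms of the local mean square
-/

set_option autoImplicit false

open MeasureTheory Filter Topology Set Real
open scoped ArithmeticFunction.vonMangoldt

namespace Pool.Agent.R402.Win

open Pool.Agent.R402.Strip Pool.Agent.R402.Kern Pool.Agent.R402.Edge
open Pool.Agent.R402.MeanSq Pool.Agent.R402.Ser Pool.Agent.R402.Core Pool.Agent.R402.Fin

section
variable {d Cn θ A Q0 : ℝ} {c : ℕ → ℂ} {F : ℂ → ℂ}

/-- from the edge to the centre -/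
theorem center (H : Hyp d Cn θ A Q0 c F) (hd : 0 ≤ d) (hCn : 1 ≤ Cn) {σ α δ RM : ℝ} (hσ : 1 < σ)
    (hδ : 0 < δ) (hα0 : 0 ≤ α) (hα : α ≤ 1 / 4) (hσδ : 1 + δ + θ ≤ σ + (1 / 2 - α)) {R : ℝ → ℝ}
    (hR0 : ∀ t, 0 ≤ R t) (hRi : Integrable (fun t => kc (1 / 2 - α) t * R t))
    (hRm : ∫ t, kc (1 / 2 - α) t * R t ≤ RM)
    (hedge : ∀ t : ℝ, ‖F ((1 - α : ℝ) + t * Complex.I)‖ ≤ Real.exp ((G c σ t).re + R t)) :
    ‖F (1 / 2)‖ ≤ Real.exp (3 * BG d δ + RM + 1 / 2 * Real.log Cn + 1 / 2 * (d * C6) +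
      (1 / 2 - α) / 2 * Real.log Q0) := by
  have hP := H.summ σ hσ
  have hQ := H.one_le
  have hlC : 0 ≤ Real.log Cn := Real.log_nonneg hCn
  have hlQ : 0 ≤ Real.log Q0 := Real.log_nonneg hQ
  set h : ℝ := 1 / 2 - α with hh
  have hh0 : 1 / 4 ≤ h := by linarith
  have hhp : 0 < h := by linarith
  have hh1 : h ≤ 1 / 2 := by linarith
  have hki := kc_integrable hhp
  obtain ⟨hli, hlb⟩ := kc_log hh0 hh1
  obtain ⟨hgi, hgb⟩ := mean_g H hd hδ hσ hhp hσδ
  have hKr : ∀ (σ' : ℝ), (σ' = 1 ∨ σ' = -1) → ∀ t, K h (π / 2) σ' t = 1 / 2 * kc h t := by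
    intro σ' hσ' t
    rcases hσ' with rfl | rfl
    · simp only [kc]; ring
    · rw [K_half]; simp only [kc]; ring
  set up : ℝ → ℝ := fun t => (G c σ t).re + R t with hup
  set um : ℝ → ℝ := fun t => (Real.log Cn + h * (Real.log Q0 + d * Real.log (1 + |t|))) +
    ((G c σ t).re + R t) with hum
  have hupi : Integrable (fun t => K h (π / 2) 1 t * up t) := by
    refine ((hgi.add hRi).const_mul (1 / 2)).congr (Eventually.of_forall fun t => ?_)
    simp only [hup, Pi.add_apply, hKr 1 (Or.inl rfl)]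
    ring
  have humi : Integrable (fun t => K h (π / 2) (-1) t * um t) := by
    refine ((((hki.mul_const (Real.log Cn + h * Real.log Q0)).add (hli.const_mul (h * d))).add
      (hgi.add hRi)).const_mul (1 / 2)).congr (Eventually.of_forall fun t => ?_)
    simp only [hum, Pi.add_apply, hKr (-1) (Or.inr rfl)]
    ring
  have hGb := fun t => G_norm_le hσ hP t
  set M : ℝ := 2 * ∑' n, x c σ n with hM
  have hre : ∀ t, -M ≤ (G c σ t).re := fun t => by
    have h1 := (Complex.abs_re_le_norm _).trans (hGb t)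
    have h2 := neg_abs_le (G c σ t).re
    linarith
  obtain ⟨A1, B1, hB1, hg⟩ := H.growth
  have key := strip_point (F := fun z => F (z + 1 / 2)) (A := A1) (B := B1) (φ := π / 2)
    (up := up) (um := um) (N := M) hhp half_mem
    (fun z _ => AnalyticAt.comp (g := F) (H.diff.analyticAt _) (by fun_prop)) hB1
    (fun z hz => by
      have h1 := abs_le.1 hz
      have h2 := hg (z + 1 / 2) (by simp; linarith) (by simp; linarith)
      simpa using h2)
    hupi humi
    (fun t => by
      simp only [hup]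
      linarith [hre t, hR0 t])
    (fun t => by
      simp only [hum]
      have h1 := log_one_add_nonneg t
      have h2 : 0 ≤ Real.log Cn + h * (Real.log Q0 + d * Real.log (1 + |t|)) := by positivity
      linarith [hre t, hR0 t])
    (fun t => by
      have e1 : (h : ℂ) + t * Complex.I + 1 / 2 = ((1 - α : ℝ) : ℂ) + t * Complex.I := by
        rw [hh]; push_cast; ring
      rw [e1]
      exact hedge t)
    (fun t => by
      have e1 : -(h : ℂ) + t * Complex.I + 1 / 2 = ((1 / 2 - h : ℝ) : ℂ) + t * Complex.I := by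
        push_cast; ring
      have e2 : ((1 / 2 + h : ℝ) : ℂ) + t * Complex.I = ((1 - α : ℝ) : ℂ) + t * Complex.I := by
        rw [hh]; push_cast; ring
      rw [e1]
      have h1 := H.refl h t hhp.le (by linarith)
      rw [refl_factor hCn hQ, e2] at h1
      refine h1.trans ?_
      simp only [hum]
      rw [Real.exp_add (Real.log Cn + h * (Real.log Q0 + d * Real.log (1 + |t|)))
        ((G c σ t).re + R t)]
      exact mul_le_mul_of_nonneg_left (hedge t) (Real.exp_pos _).le)
  have hpt : ((2 * h * (π / 2) / π - h : ℝ) : ℂ) + 1 / 2 = 1 / 2 := by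
    have := Real.pi_pos
    have : 2 * h * (π / 2) / π - h = 0 := by field_simp; ring
    rw [this]; simp
  rw [hpt] at key
  refine key.trans (Real.exp_le_exp.2 ?_)
  have i1 : ∫ t, K h (π / 2) 1 t * up t =
      1 / 2 * ((∫ t, kc h t * (G c σ t).re) + ∫ t, kc h t * R t) := by
    rw [← integral_add hgi hRi, ← integral_const_mul]
    refine integral_congr_ae (Eventually.of_forall fun t => ?_)
    simp only [hup, hKr 1 (Or.inl rfl)]
    ring
  have i2 : ∫ t, K h (π / 2) (-1) t * um t =
      1 / 2 * ((Real.log Cn + h * Real.log Q0) + h * d * (∫ t, kc h t * Real.log (1 + |t|)) +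
      ((∫ t, kc h t * (G c σ t).re) + ∫ t, kc h t * R t)) := by
    have e1 : (fun t => K h (π / 2) (-1) t * um t) = fun t => 1 / 2 *
        ((kc h t * (Real.log Cn + h * Real.log Q0) + (h * d) * (kc h t * Real.log (1 + |t|))) +
        (kc h t * (G c σ t).re + kc h t * R t)) := by
      funext t
      simp only [hum, hKr (-1) (Or.inr rfl)]
      ring
    have j1 : Integrable (fun t => kc h t * (Real.log Cn + h * Real.log Q0) +
      (h * d) * (kc h t * Real.log (1 + |t|))) := (hki.mul_const _).add (hli.const_mul _)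
    have j2 : Integrable (fun t => kc h t * (G c σ t).re + kc h t * R t) := hgi.add hRi
    rw [e1, integral_const_mul, integral_add j1 j2,
      integral_add (hki.mul_const _) (hli.const_mul _), integral_mul_const, integral_const_mul,
      kc_mass hhp, integral_add hgi hRi]
    ring
  rw [i1, i2]
  have hhd : h * d * (∫ t, kc h t * Real.log (1 + |t|)) ≤ 1 * d * C6 := by
    have : 0 ≤ ∫ t, kc h t * Real.log (1 + |t|) := integral_nonneg fun t =>
      mul_nonneg (kc_nonneg hhp t) (log_one_add_nonneg t)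
    gcongr
    linarith
  have hdC6 : 0 ≤ d * C6 := mul_nonneg hd C6_nonneg
  linarith

/-- the parameters -/
structure ParW (l y δ b T : ℝ) : Prop where
  l4 : 4 ≤ l
  ll : 1 ≤ Real.log l
  T2 : 2 ≤ T
  y0 : 0 ≤ y
  y2 : y / l ≤ 1 / 4
  y4 : y / l ≤ δ
  b0 : 0 < b
  b1 : b ≤ 1 / 2
  Tb : (T ^ 4) ^ b ≤ 3
  ab : (y + 1) / l ≤ b / 3
  p5 : (y + 1) / l / b * ((y + 1) / 2 + 1) ≤ 1
  p6 : (y + 1) / l / b * √l ≤ 5
  p7 : (y + 1) / l / b * Real.log l ≤ 1
  p8 : (y + 1) / l * √(l * Real.log T) ≤ 1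

/-- the constant of the bound at the edge -/
noncomputable def K1 (d Cn A : ℝ) : ℝ :=
  3 / 2 * (8 * Real.exp 1 * (C1 * Real.exp 1) + 2 * |A|) + 25 * (C2 + |A|) + 2 * Real.log 2 +
    Real.log Cn + 32000 * d + d * (48000 * Real.exp 1)

/-- the constant of the final bound -/
noncomputable def K2 (d Cn δ A : ℝ) : ℝ :=
  3 * BG d δ + K1 d Cn A + 2 * (d * C6) + 160000 * Real.exp 1 * Real.exp (1 / 2) + Real.log Cn

/-- the sum of the second moments -/
lemma sumP_le (H : Hyp d Cn θ A Q0 c F) {l : ℝ} (hl : 4 ≤ l) (hQl : Real.log Q0 ≤ l) :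
    ∑' n, P c (1 + 1 / l) n ≤ 2 * |A| * l := by
  have hl0 : 0 < l := by linarith
  have hκ0 : 0 < 1 / l := by positivity
  have hκ : 1 / l ≤ 1 := by rw [div_le_one hl0]; linarith
  have hlQ : 0 ≤ Real.log Q0 := Real.log_nonneg H.one_le
  have h1 := H.rankin (1 + 1 / l) (by linarith) (by linarith)
  have e1 : 1 / (1 + 1 / l - 1) = l := by
    have : 1 + 1 / l - 1 = 1 / l := by ring
    rw [this, one_div_one_div]
  rw [e1] at h1
  calc ∑' n, P c (1 + 1 / l) n ≤ A * (l + Real.log Q0) := h1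
    _ ≤ |A| * (l + Real.log Q0) := by
        apply mul_le_mul_of_nonneg_right (le_abs_self A); linarith
    _ ≤ |A| * (2 * l) := by
        apply mul_le_mul_of_nonneg_left _ (abs_nonneg A); linarith
    _ = _ := by ring

lemma absG_bound (H : Hyp d Cn θ A Q0 c F) {l : ℝ} (hl : 4 ≤ l) (hQl : Real.log Q0 ≤ l) :
    absG c (1 + 1 / l) ≤ √l * (C2 + |A|) := by
  have hl0 : 0 < l := by linarith
  have hκ0 : 0 < 1 / l := by positivity
  have hσ : 1 < 1 + 1 / l := by linarith
  have hsq : 0 < √l := Real.sqrt_pos.2 hl0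
  have hqq : √l * √l = l := Real.mul_self_sqrt hl0.le
  have h1 := absG_le hσ (H.summ _ hσ) hsq
  have h2 := sumP_le H hl hQl
  have h3 : (√l)⁻¹ * ∑' n, P c (1 + 1 / l) n ≤ (√l)⁻¹ * (2 * |A| * l) :=
    mul_le_mul_of_nonneg_left h2 (by positivity)
  have h4 : (√l)⁻¹ * (2 * |A| * l) = 2 * |A| * √l := by
    nth_rewrite 2 [← hqq]
    field_simp
  linarith

/-- the edge bound with parameters -/
theorem edge_par (H : Hyp d Cn θ A Q0 c F) (hd : 0 ≤ d) (hCn : 1 ≤ Cn) {l y δ b T q : ℝ}
    (p : ParW l y δ b T) (hQl : Real.log Q0 ≤ l) (hq : 0 < q) (t : ℝ) :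
    ‖F ((1 - y / l : ℝ) + t * Complex.I)‖ ≤ Real.exp ((G c (1 + 1 / l) t).re +
      (K1 d Cn A + d * Real.log (1 + |t|) + 2 * (Real.exp (1 / 2) * Real.exp (y / 2)) *
        ∫ r : ℝ, KK (1 / 2 + 1 / l)
          (π - π * ((y + 1) / l / (b / (1 + 2 * (1 / l)))) / (2 * (1 / 2 + 1 / l))) r *
          V (hi T c) (1 + 1 / l) q t (b / (1 + 2 * (1 / l)) * r))) := by
  have hl := p.l4
  have hl0 : 0 < l := by linarith
  have hy0 := p.y0
  have hll := p.ll
  have hb := p.b0
  have hb1 := p.b1
  have hT := p.T2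
  have hT0 : 0 < T := by linarith
  set κ : ℝ := 1 / l with hκdef
  set a : ℝ := (y + 1) / l with hadef
  have haκ : 1 + κ - a = 1 - y / l := by rw [hadef, hκdef]; ring
  have hκ : κ ≤ 1 / 4 := by
    rw [hκdef, div_le_div_iff₀ hl0 (by norm_num)]; linarith
  have hκ0 : 0 < κ := by positivity
  have ha0 : 0 < a := by positivity
  have hab := p.ab
  rw [← hadef] at hab
  have hσ : 1 < 1 + κ := by linarith
  have hP := H.summ (1 + κ) hσ
  have hPhi := (P_summ (norm_hi T c) hP).1
  have hQ := H.one_le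
  have hlC : 0 ≤ Real.log Cn := Real.log_nonneg hCn
  have hlQ : 0 ≤ Real.log Q0 := Real.log_nonneg hQ
  have hlt := log_one_add_nonneg t
  have hlog2 : 0 < Real.log 2 := Real.log_pos (by norm_num)
  set s : ℝ := b / (1 + 2 * κ) with hs
  have hs0 : 0 < s := by positivity
  have hs1 : s ≤ 1 := by
    rw [hs, div_le_one (by positivity)]; linarith
  have ha's : a / s = a * (1 + 2 * κ) / b := by rw [hs]; field_simp
  have ha'1 : a / s ≤ 1 / 2 := by
    rw [ha's, div_le_iff₀ hb]
    have : a * (1 + 2 * κ) ≤ b / 3 * (3 / 2) := by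
      apply mul_le_mul hab (by linarith) (by linarith) (by linarith)
    linarith
  have ha'0 : 0 < a / s := by positivity
  set lam : ℝ := Real.exp (-((y + 1) / 2)) with hlamdef
  have hlam0 : 0 < lam := Real.exp_pos _
  have hlam1 : lam ≤ 1 := by
    rw [hlamdef]; apply Real.exp_le_one_iff.2; linarith
  have hloglam : Real.log lam = -((y + 1) / 2) := by rw [hlamdef, Real.log_exp]
  have h1 := edge_win H hd hCn hκ0 hκ ha0 hb hb1 ha'1 hlam0 hlam1 hq hT0 t
  rw [haκ, ← hs] at h1
  refine h1.trans ?_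
  rw [Real.exp_le_exp, add_le_add_iff_left]
  -- the low part
  have hsumP := sumP_le H hl hQl
  rw [← hκdef] at hsumP
  have hS := absG_bound H hl hQl
  rw [← hκdef] at hS
  have hlT : 0 < Real.log T := Real.log_pos (by linarith)
  have hlow : ‖glo T c (((1 - y / l : ℝ) : ℂ) + t * Complex.I) -
        glo T c (((1 + κ : ℝ) : ℂ) + t * Complex.I)‖ ≤
      3 / 2 * (8 * Real.exp 1 * (C1 * Real.exp 1) + 2 * |A|) := by
    set q2 : ℝ := √(l / Real.log T) with hq2
    have hq2p : 0 < q2 := Real.sqrt_pos.2 (by positivity)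
    have e1 : q2 * Real.log T = √(l * Real.log T) := by
      rw [hq2, Real.sqrt_div hl0.le, Real.sqrt_mul hl0.le]
      have : √(Real.log T) * √(Real.log T) = Real.log T := Real.mul_self_sqrt hlT.le
      have h3 : √(Real.log T) ≠ 0 := (Real.sqrt_pos.2 hlT).ne'
      nth_rewrite 2 [← this]
      field_simp
    have e2 : q2⁻¹ * l = √(l * Real.log T) := by
      rw [← e1]
      have h3 : q2 * q2 = l / Real.log T := Real.mul_self_sqrt (by positivity)
      have h4 : l = q2 * q2 * Real.log T := by rw [h3]; field_simp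
      nth_rewrite 1 [h4]
      field_simp
    have h2 := glo_sub hT hσ hP ha0.le hq2p t
    rw [haκ] at h2
    refine h2.trans ?_
    have h3 : (T ^ 4) ^ a ≤ 3 := by
      refine le_trans (Real.rpow_le_rpow_of_exponent_le ?_ (by linarith)) p.Tb
      have : (1:ℝ) ≤ T := by linarith
      exact one_le_pow₀ this
    have h4 : 1 / 2 * (q2 * (8 * Real.exp 1 * (C1 * Real.exp 1) * Real.log T) +
        q2⁻¹ * ∑' n, P c (1 + κ) n) ≤
        1 / 2 * (√(l * Real.log T) * (8 * Real.exp 1 * (C1 * Real.exp 1) + 2 * |A|)) := by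
      have h5 : q2⁻¹ * ∑' n, P c (1 + κ) n ≤ q2⁻¹ * (2 * |A| * l) :=
        mul_le_mul_of_nonneg_left hsumP (by positivity)
      have h6 : q2⁻¹ * (2 * |A| * l) = √(l * Real.log T) * (2 * |A|) := by
        rw [← e2]; ring
      have h7 : q2 * (8 * Real.exp 1 * (C1 * Real.exp 1) * Real.log T) =
          √(l * Real.log T) * (8 * Real.exp 1 * (C1 * Real.exp 1)) := by
        rw [← e1]; ring
      rw [h7]
      linarith
    have hC1 := C1_pos
    have h5 : 0 ≤ 8 * Real.exp 1 * (C1 * Real.exp 1) + 2 * |A| := by positivity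
    have h6 : 0 ≤ √(l * Real.log T) := Real.sqrt_nonneg _
    have hp8 := p.p8
    rw [← hadef] at hp8
    calc a * (T ^ 4) ^ a * (1 / 2 * (q2 * (8 * Real.exp 1 * (C1 * Real.exp 1) * Real.log T) +
        q2⁻¹ * ∑' n, P c (1 + κ) n)) ≤
        a * (T ^ 4) ^ a * (1 / 2 * (√(l * Real.log T) *
          (8 * Real.exp 1 * (C1 * Real.exp 1) + 2 * |A|))) :=
          mul_le_mul_of_nonneg_left h4 (by positivity)
      _ ≤ a * 3 * (1 / 2 * (√(l * Real.log T) *
          (8 * Real.exp 1 * (C1 * Real.exp 1) + 2 * |A|))) := by gcongr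
      _ = 3 / 2 * (a * √(l * Real.log T)) *
          (8 * Real.exp 1 * (C1 * Real.exp 1) + 2 * |A|) := by ring
      _ ≤ 3 / 2 * 1 * (8 * Real.exp 1 * (C1 * Real.exp 1) + 2 * |A|) := by gcongr
      _ = _ := by ring
  -- the maximum
  have hab1 : a / b ≤ 1 := by rw [div_le_one hb]; linarith
  have hab0 : 0 ≤ a / b := by positivity
  have hmax : max 0 ((1 - a / b) * (Real.log lam - 1) + a / b * (Real.log 2 +
        (2 * absG c (1 + κ) + (T ^ 4) ^ b * absG c (1 + κ) + Real.log Cn + 32000 * d +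
          b / 2 * (Real.log Q0 + d * Real.log (1 + |t|))))) ≤
      25 * (C2 + |A|) + Real.log 2 + Real.log Cn + 32000 * d + d * Real.log (1 + |t|) := by
    have hC2 := C2_nonneg
    refine max_le (by positivity) ?_
    rw [hloglam]
    have hS0 := absG_nonneg c (1 + κ)
    have j1 : a / b * (2 * absG c (1 + κ) + (T ^ 4) ^ b * absG c (1 + κ)) ≤ 25 * (C2 + |A|) := by
      have k1 : (T ^ 4) ^ b * absG c (1 + κ) ≤ 3 * absG c (1 + κ) :=
        mul_le_mul_of_nonneg_right p.Tb hS0
      have k2 : 2 * absG c (1 + κ) + (T ^ 4) ^ b * absG c (1 + κ) ≤ 5 * (√l * (C2 + |A|)) := by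
        linarith
      have k3 := mul_le_mul_of_nonneg_left k2 hab0
      have hp6 := p.p6
      rw [← hadef] at hp6
      have k4 : a / b * (5 * (√l * (C2 + |A|))) = 5 * (a / b * √l) * (C2 + |A|) := by ring
      rw [k4] at k3
      have k5 : 5 * (a / b * √l) * (C2 + |A|) ≤ 5 * 5 * (C2 + |A|) := by gcongr
      linarith
    have j2 : a / b * (Real.log 2 + Real.log Cn + 32000 * d) ≤
        1 * (Real.log 2 + Real.log Cn + 32000 * d) :=
      mul_le_mul_of_nonneg_right hab1 (by positivity)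
    have j3 : a / b * (b / 2 * (Real.log Q0 + d * Real.log (1 + |t|))) =
        a / 2 * Real.log Q0 + a / 2 * (d * Real.log (1 + |t|)) := by
      field_simp
    have j4 : a / 2 * Real.log Q0 ≤ (y + 1) / 2 := by
      have e7 : a * l = y + 1 := by rw [hadef]; field_simp
      have e8 := mul_le_mul_of_nonneg_left hQl ha0.le
      linarith
    have j5 : a / 2 * (d * Real.log (1 + |t|)) ≤ 1 * (d * Real.log (1 + |t|)) :=
      mul_le_mul_of_nonneg_right (by linarith) (by positivity)
    have hp5 := p.p5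
    rw [← hadef] at hp5
    have j6 : (1 - a / b) * (-((y + 1) / 2) - 1) + a / b * (Real.log 2 +
        (2 * absG c (1 + κ) + (T ^ 4) ^ b * absG c (1 + κ) + Real.log Cn + 32000 * d +
          b / 2 * (Real.log Q0 + d * Real.log (1 + |t|)))) =
        -((y + 1) / 2) - 1 + a / b * ((y + 1) / 2 + 1) +
        a / b * (2 * absG c (1 + κ) + (T ^ 4) ^ b * absG c (1 + κ)) +
        a / b * (Real.log 2 + Real.log Cn + 32000 * d) +
        a / b * (b / 2 * (Real.log Q0 + d * Real.log (1 + |t|))) := by ring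
    rw [j6, j3]
    linarith
  -- the moment
  have hJ : d * (∫ r : ℝ, KK (1 / 2 + κ) (π - π * (a / s) / (2 * (1 / 2 + κ))) r *
        (|r| * Real.exp |r|)) ≤ d * (48000 * Real.exp 1) := by
    refine mul_le_mul_of_nonneg_left ?_ hd
    obtain ⟨k1, k2⟩ := KK_moment (h := 1 / 2 + κ) (a := a / s) (η := 1 / Real.log l)
      (by linarith) (by linarith) ha'0 ha'1 (by positivity)
      (by rw [div_le_one (by linarith)]; exact hll)
    refine k2.trans ?_
    have h3 : (a / s) ^ (-(1 / Real.log l)) ≤ Real.exp 1 := by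
      have h4 : l⁻¹ ≤ a / s := by
        have e1 : l⁻¹ ≤ a := by
          rw [inv_eq_one_div, hadef]
          gcongr
          linarith
        refine e1.trans ?_
        rw [le_div_iff₀ hs0]
        nlinarith
      have h5 : (a / s) ^ (-(1 / Real.log l)) ≤ (l⁻¹) ^ (-(1 / Real.log l)) := by
        apply Real.rpow_le_rpow_of_nonpos (by positivity) h4
        have : 0 < 1 / Real.log l := by positivity
        linarith
      refine h5.trans (le_of_eq ?_)
      rw [Real.inv_rpow hl0.le, Real.rpow_neg hl0.le, inv_inv, Real.rpow_def_of_pos hl0]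
      congr 1
      field_simp
    have h6 : 32000 * (a / s * (a / s) ^ (-(1 / Real.log l))) / (1 / Real.log l) =
        32000 * (a / s * Real.log l) * (a / s) ^ (-(1 / Real.log l)) := by
      field_simp
    rw [h6]
    have h7 : a / s * Real.log l ≤ 3 / 2 := by
      have hp7 := p.p7
      rw [← hadef] at hp7
      have e1 : a / s * Real.log l = (1 + 2 * κ) * (a / b * Real.log l) := by
        rw [ha's]; ring
      rw [e1]
      have e2 : (1 + 2 * κ) * (a / b * Real.log l) ≤ (3 / 2) * 1 := by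
        apply mul_le_mul (by linarith) hp7 (by positivity) (by norm_num)
      linarith
    have h8 : 0 ≤ (a / s) ^ (-(1 / Real.log l)) := Real.rpow_nonneg ha'0.le _
    calc 32000 * (a / s * Real.log l) * (a / s) ^ (-(1 / Real.log l)) ≤
        32000 * (3 / 2) * Real.exp 1 := by gcongr
      _ = _ := by ring
  -- the variation
  have hφ := phi_mem (κ := κ) hκ0 ha'0 ha'1
  have hΨ0 : 0 ≤ ∫ r : ℝ, KK (1 / 2 + κ) (π - π * (a / s) / (2 * (1 / 2 + κ))) r *
      V (hi T c) (1 + κ) q t (s * r) :=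
    integral_nonneg fun r => mul_nonneg (KK_nonneg (by linarith) hφ r) (V_nonneg hq t _)
  have hlamb : 1 / lam + 1 ≤ 2 * (Real.exp (1 / 2) * Real.exp (y / 2)) := by
    have e1 : 1 / lam = Real.exp (1 / 2) * Real.exp (y / 2) := by
      rw [hlamdef, Real.exp_neg, one_div, inv_inv, ← Real.exp_add]
      congr 1
      ring
    have : 1 ≤ 1 / lam := by rw [le_div_iff₀ hlam0]; linarith
    rw [← e1]; linarith
  have hV2 := mul_le_mul_of_nonneg_right hlamb hΨ0
  unfold K1
  linarith

/-- the bound at the centre in terms of the local mean square of the high part -/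
theorem core_win (H : Hyp d Cn θ A Q0 c F) (hd : 0 ≤ d) (hCn : 1 ≤ Cn) {l y δ b T E : ℝ}
    (hδ : 0 < δ) (hδθ : θ + 2 * δ ≤ 1 / 2) (p : ParW l y δ b T) (hQl : Real.log Q0 ≤ l)
    (hE : 0 < E) (hE1 : EE (hi T c) (1 + 1 / l) 0 ≤ E)
    (hE2 : Real.exp (y / 2) * √E * ((y + 1) * Real.log l) ≤ l) :
    ‖F (1 / 2)‖ ≤ Real.exp (K2 d Cn δ A + (1 / 2 - y / l) / 2 * Real.log Q0) := by
  have hl := p.l4
  have hl0 : 0 < l := by linarith
  have hy0 := p.y0
  have hy2 := p.y2
  have hy4 := p.y4
  have hll := p.ll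
  have hb := p.b0
  have hb1 := p.b1
  have hT := p.T2
  have hT0 : 0 < T := by linarith
  set κ : ℝ := 1 / l with hκdef
  set a : ℝ := (y + 1) / l with hadef
  set α : ℝ := y / l with hαdef
  have hα0 : 0 ≤ α := by positivity
  have hκ : κ ≤ 1 / 4 := by
    rw [hκdef, div_le_div_iff₀ hl0 (by norm_num)]; linarith
  have hκ0 : 0 < κ := by positivity
  have ha0 : 0 < a := by positivity
  have hab := p.ab
  rw [← hadef] at hab
  have hσ : 1 < 1 + κ := by linarith
  have hP := H.summ (1 + κ) hσ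
  have hPhi := (P_summ (norm_hi T c) hP).1
  have hQ := H.one_le
  have hlC : 0 ≤ Real.log Cn := Real.log_nonneg hCn
  have hlQ : 0 ≤ Real.log Q0 := Real.log_nonneg hQ
  have hlog2 : 0 < Real.log 2 := Real.log_pos (by norm_num)
  set q : ℝ := √E with hqdef
  have hq : 0 < q := Real.sqrt_pos.2 hE
  have hqq : q * q = E := Real.mul_self_sqrt hE.le
  set s : ℝ := b / (1 + 2 * κ) with hs
  have hs0 : 0 < s := by positivity
  have hs1 : s ≤ 1 := by
    rw [hs, div_le_one (by positivity)]; linarith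
  have ha's : a / s = a * (1 + 2 * κ) / b := by rw [hs]; field_simp
  have ha'1 : a / s ≤ 1 / 2 := by
    rw [ha's, div_le_iff₀ hb]
    have : a * (1 + 2 * κ) ≤ b / 3 * (3 / 2) := by
      apply mul_le_mul hab (by linarith) (by linarith) (by linarith)
    linarith
  have ha'0 : 0 < a / s := by positivity
  have hφ := phi_mem (κ := κ) hκ0 ha'0 ha'1
  set w : ℝ → ℝ := KK (1 / 2 + κ) (π - π * (a / s) / (2 * (1 / 2 + κ))) with hwdef
  have hw0 : ∀ r, 0 ≤ w r := KK_nonneg (by linarith) hφ
  have hwc : Continuous w := KK_continuous (by linarith) hφ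
  obtain ⟨hJi, hJ⟩ := KK_moment (h := 1 / 2 + κ) (a := a / s) (η := 1 / Real.log l)
      (by linarith) (by linarith) ha'0 ha'1 (by positivity)
      (by rw [div_le_one (by linarith)]; exact hll)
  rw [← hwdef] at hJi hJ
  set J : ℝ := ∫ r : ℝ, w r * (|r| * Real.exp |r|) with hJdef
  have hJ0 : 0 ≤ J := integral_nonneg fun r => mul_nonneg (hw0 r) (by positivity)
  have hsJ : s * J ≤ 32000 * Real.exp 1 * (a * Real.log l) := by
    have h3 : (a / s) ^ (-(1 / Real.log l)) ≤ Real.exp 1 := by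
      have h4 : l⁻¹ ≤ a / s := by
        have e1 : l⁻¹ ≤ a := by
          rw [inv_eq_one_div, hadef]
          gcongr
          linarith
        refine e1.trans ?_
        rw [le_div_iff₀ hs0]
        nlinarith
      have h5 : (a / s) ^ (-(1 / Real.log l)) ≤ (l⁻¹) ^ (-(1 / Real.log l)) := by
        apply Real.rpow_le_rpow_of_nonpos (by positivity) h4
        have : 0 < 1 / Real.log l := by positivity
        linarith
      refine h5.trans (le_of_eq ?_)
      rw [Real.inv_rpow hl0.le, Real.rpow_neg hl0.le, inv_inv, Real.rpow_def_of_pos hl0]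
      congr 1
      field_simp
    have h6 : 32000 * (a / s * (a / s) ^ (-(1 / Real.log l))) / (1 / Real.log l) =
        32000 * (a / s * Real.log l) * (a / s) ^ (-(1 / Real.log l)) := by
      field_simp
    rw [h6] at hJ
    have h7 : s * J ≤ s * (32000 * (a / s * Real.log l) * Real.exp 1) := by
      refine mul_le_mul_of_nonneg_left (hJ.trans ?_) hs0.le
      gcongr
    refine h7.trans (le_of_eq ?_)
    field_simp
  set h : ℝ := 1 / 2 - α with hh
  have hh0 : 1 / 4 ≤ h := by linarith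
  have hhp : 0 < h := by linarith
  have hh1 : h ≤ 1 / 2 := by linarith
  obtain ⟨hVi, hVm⟩ := mean_VE (c := hi T c) (k := kc h) hσ hPhi (kc_continuous hhp)
    (kc_nonneg hhp) (kc_le hh0 hh1) (kc_mass hhp) hq hs0.le hs1 hwc hw0 hJi
  rw [← hJdef] at hVm
  set Ψ : ℝ → ℝ := fun t => ∫ r : ℝ, w r * V (hi T c) (1 + κ) q t (s * r) with hΨdef
  have hΨ0 : ∀ t, 0 ≤ Ψ t := fun t => integral_nonneg fun r => mul_nonneg (hw0 r) (V_nonneg hq t _)
  have hmain : 2 * (Real.exp (1 / 2) * Real.exp (y / 2)) *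
      ((1 / 2 * q + 2 * q⁻¹ * EE (hi T c) (1 + κ) 0) * (s * J)) ≤
      160000 * Real.exp 1 * Real.exp (1 / 2) := by
    have e1 : 1 / 2 * q + 2 * q⁻¹ * EE (hi T c) (1 + κ) 0 ≤ 5 / 2 * q := by
      have e2 : q⁻¹ * EE (hi T c) (1 + κ) 0 ≤ q⁻¹ * E := mul_le_mul_of_nonneg_left hE1 (by positivity)
      have e3 : q⁻¹ * E = q := by rw [← hqq]; field_simp
      linarith
    have e0 : 0 ≤ 1 / 2 * q + 2 * q⁻¹ * EE (hi T c) (1 + κ) 0 := by
      have := EE_nonneg (c := hi T c) (σ := 1 + κ) 0
      positivity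
    have hsJ0 : 0 ≤ s * J := by positivity
    have e4 : (1 / 2 * q + 2 * q⁻¹ * EE (hi T c) (1 + κ) 0) * (s * J) ≤
        5 / 2 * q * (32000 * Real.exp 1 * (a * Real.log l)) :=
      mul_le_mul e1 hsJ hsJ0 (by positivity)
    have e5 := mul_le_mul_of_nonneg_left e4
      (by positivity : 0 ≤ 2 * (Real.exp (1 / 2) * Real.exp (y / 2)))
    refine e5.trans ?_
    have e6 : Real.exp (y / 2) * q * (a * Real.log l) ≤ 1 := by
      have : Real.exp (y / 2) * q * (a * Real.log l) =
          (Real.exp (y / 2) * q * ((y + 1) * Real.log l)) / l := by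
        rw [hadef]; ring
      rw [this, div_le_one hl0]
      exact hE2
    calc 2 * (Real.exp (1 / 2) * Real.exp (y / 2)) *
        (5 / 2 * q * (32000 * Real.exp 1 * (a * Real.log l))) =
        160000 * Real.exp 1 * Real.exp (1 / 2) *
          (Real.exp (y / 2) * q * (a * Real.log l)) := by ring
      _ ≤ 160000 * Real.exp 1 * Real.exp (1 / 2) * 1 := by gcongr
      _ = _ := by ring
  have hK1 : 0 ≤ K1 d Cn A := by
    unfold K1
    have := C1_pos
    have := C2_nonneg
    positivity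
  set R : ℝ → ℝ := fun t => K1 d Cn A + d * Real.log (1 + |t|) +
    2 * (Real.exp (1 / 2) * Real.exp (y / 2)) * Ψ t with hRdef
  have hR0 : ∀ t, 0 ≤ R t := by
    intro t
    have h1 := log_one_add_nonneg t
    have h2 := hΨ0 t
    simp only [hRdef]
    positivity
  have hki := kc_integrable hhp
  obtain ⟨hli, hlb⟩ := kc_log hh0 hh1
  have hRi : Integrable (fun t => kc h t * R t) := by
    have := (((hki.mul_const (K1 d Cn A)).add
      (hli.const_mul d)).add (hVi.const_mul (2 * (Real.exp (1 / 2) * Real.exp (y / 2)))))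
    refine this.congr (Eventually.of_forall fun t => ?_)
    simp only [hRdef, hΨdef, Pi.add_apply]
    ring
  have hRm : ∫ t, kc h t * R t ≤ K1 d Cn A + d * C6 +
      160000 * Real.exp 1 * Real.exp (1 / 2) := by
    have e1 : (fun t => kc h t * R t) = fun t =>
        (kc h t * K1 d Cn A + d * (kc h t * Real.log (1 + |t|))) +
        2 * (Real.exp (1 / 2) * Real.exp (y / 2)) *
          (kc h t * ∫ r, w r * V (hi T c) (1 + κ) q t (s * r)) := by
      funext t
      simp only [hRdef, hΨdef]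
      ring
    have i1 : Integrable (fun t => kc h t * K1 d Cn A +
        d * (kc h t * Real.log (1 + |t|))) := (hki.mul_const _).add (hli.const_mul d)
    rw [e1, integral_add i1 (hVi.const_mul _), integral_add (hki.mul_const _) (hli.const_mul d),
      integral_mul_const, integral_const_mul, integral_const_mul, kc_mass hhp]
    have h1 := mul_le_mul_of_nonneg_left hVm
      (by positivity : 0 ≤ 2 * (Real.exp (1 / 2) * Real.exp (y / 2)))
    have h2 := mul_le_mul_of_nonneg_left hlb hd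
    linarith
  have key := center H hd hCn hσ hδ hα0 hy2 (by linarith) hR0 hRi hRm
    (fun t => edge_par H hd hCn p hQl hq t)
  refine key.trans (Real.exp_le_exp.2 ?_)
  have hdC6 : 0 ≤ d * C6 := mul_nonneg hd C6_nonneg
  have e9 : (1 / 2 - α) / 2 * Real.log Q0 = h / 2 * Real.log Q0 := by rw [hh]
  unfold K2
  linarith

end

end Pool.Agent.R402.Win
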