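import Mathlib
import Pool.Agent.R402.W6
import Pool.Agent.R402.Zed2

/-!
# Counting zeros near the edge, abstract version
-/

set_option autoImplicit false

open MeasureTheory Filter Topology Set Real
open scoped ArithmeticFunction.vonMangoldt

namespace Pool.Agent.R402.Win

open Pool.Agent.R402.Strip Pool.Agent.R402.Kern Pool.Agent.R402.Edge
open Pool.Agent.R402.MeanSq Pool.Agent.R402.Ser Pool.Agent.R402.Core Pool.Agent.R402.Fin
open Pool.Agent.R402.Bla Pool.Agent.R402.Fact Pool.Agent.R402.Lip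
open Pool.Agent.R402.Zed (Tz Tz_norm_le Tz_norm_ge net_gain G_norm_mono k0 k0_cont k0_nonneg
  k0_le k0_mass k0_int)

/-- what is used of the function with the small primes removed -/
structure HypR (d θ : ℝ) (c : ℕ → ℂ) (F : ℂ → ℂ) : Prop where
  diff : Differentiable ℂ F
  growth : ∃ A1 B1 : ℝ, 0 ≤ B1 ∧ ∀ z : ℂ, -(1 / 4) ≤ z.re → z.re ≤ 5 / 4 →
    log⁺ ‖F z‖ ≤ A1 + B1 * |z.im|
  exp_eq : ∀ σ t : ℝ, 1 < σ → F (σ + t * Complex.I) = Complex.exp (G c σ t)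
  summ : ∀ σ : ℝ, 1 < σ → Summable (P c σ)
  coef : ∀ n : ℕ, Λ n ≠ 0 → ‖c n‖ ≤ d * (n : ℝ) ^ θ

section
variable {d θ : ℝ} {c : ℕ → ℂ} {F : ℂ → ℂ}

lemma G_lipR (H : HypR d θ c F) {σ δ a : ℝ} (hd : 0 ≤ d) (hδ : 0 < δ) (ha : 0 ≤ a)
    (hσ : 1 < σ) (hσδ : 1 + 2 * δ + θ ≤ σ) (t : ℝ) :
    ‖G c (σ + a) t - G c σ t‖ ≤ a * (BG d δ / δ) := by
  have hσa : 1 < σ + a := by linarith
  have e0 : G c (σ + a) t - G c σ t = ∑' n, (gg c (σ + a) t n - gg c σ t n) :=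
    ((summable_gg hσa (H.summ _ hσa) t).tsum_sub (summable_gg hσ (H.summ _ hσ) t)).symm
  rw [e0]
  unfold BG
  have hs : Summable (fun n : ℕ => (n : ℝ) ^ (-(1 + δ))) := by
    rw [Real.summable_nat_rpow]; linarith
  have e1 : a * (d * ∑' n : ℕ, (n : ℝ) ^ (-(1 + δ)) / δ) = ∑' n : ℕ,
      a * (d / δ) * (n : ℝ) ^ (-(1 + δ)) := by
    rw [tsum_mul_left]
    rw [tsum_div_const]
    field_simp
  have e2 : a * (d * (∑' n : ℕ, (n : ℝ) ^ (-(1 + δ))) / δ) = ∑' n : ℕ,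
      a * (d / δ) * (n : ℝ) ^ (-(1 + δ)) := by
    rw [tsum_mul_left]
    field_simp
  rw [e2]
  refine tsum_of_norm_bounded (hs.mul_left (a * (d / δ))).hasSum fun n => ?_
  have hz : gg c (σ + a) t n - gg c σ t n = (((v (σ + a) n - v σ n) / Real.log n : ℝ) : ℂ) * c n *
      Complex.exp (-(Real.log n * t : ℝ) * Complex.I) := by
    unfold gg
    push_cast
    ring
  have hnz : ‖gg c (σ + a) t n - gg c σ t n‖ = |(v (σ + a) n - v σ n) / Real.log n| * ‖c n‖ := by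
    rw [hz]
    have : Complex.exp (-(Real.log n * t : ℝ) * Complex.I) =
      Complex.exp ((-(Real.log n * t) : ℝ) * Complex.I) := by push_cast; rfl
    rw [this, norm_mul, norm_mul, Complex.norm_exp_ofReal_mul_I, mul_one, Complex.norm_real,
      Real.norm_eq_abs]
  rw [hnz]
  rcases Nat.lt_or_ge 1 n with hn | hn
  · have h2 : (1:ℝ) < n := by exact_mod_cast hn
    have h3 := Real.log_pos h2
    have hn0 : (0:ℝ) < n := by linarith
    by_cases h0 : Λ n = 0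
    · unfold v
      rw [h0, zero_mul, zero_mul, sub_zero, zero_div, abs_zero, zero_mul]
      have := Real.rpow_nonneg hn0.le (-(1 + δ))
      positivity
    · have h4 := H.coef n h0
      have hΛ : 0 ≤ Λ n := ArithmeticFunction.vonMangoldt_nonneg
      have hp := Real.rpow_pos_of_pos hn0 (-σ)
      have h5 : |(v (σ + a) n - v σ n) / Real.log n| ≤ a * (Real.log n * (n:ℝ) ^ (-σ)) := by
        have e3 : v (σ + a) n = v σ n * (n:ℝ) ^ (-a) := by
          unfold v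
          rw [show -(σ + a) = -σ + -a by ring, Real.rpow_add hn0]
          ring
        have e4 : 1 - a * Real.log n ≤ (n:ℝ) ^ (-a) := by
          rw [Real.rpow_def_of_pos hn0]
          have := Real.add_one_le_exp (Real.log n * -a)
          linarith
        have e5 : (n:ℝ) ^ (-a) ≤ 1 := Real.rpow_le_one_of_one_le_of_nonpos h2.le (by linarith)
        have e6 : v σ n ≤ Real.log n * (n:ℝ) ^ (-σ) := by
          unfold v
          exact mul_le_mul_of_nonneg_right ArithmeticFunction.vonMangoldt_le_log hp.le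
        have e7 := v_nonneg σ n
        rw [e3, abs_div, abs_of_pos h3, div_le_iff₀ h3,
          show v σ n * (n:ℝ) ^ (-a) - v σ n = -(v σ n * (1 - (n:ℝ) ^ (-a))) by ring, abs_neg,
          abs_of_nonneg (mul_nonneg e7 (by linarith))]
        calc v σ n * (1 - (n:ℝ) ^ (-a)) ≤ (Real.log n * (n:ℝ) ^ (-σ)) * (a * Real.log n) := by
              apply mul_le_mul e6 (by linarith) (by linarith) (by positivity)
          _ = _ := by ring
      have h6 : Real.log n ≤ (n:ℝ) ^ δ / δ := Real.log_le_rpow_div hn0.le hδ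
      calc |(v (σ + a) n - v σ n) / Real.log n| * ‖c n‖ ≤
          (a * (Real.log n * (n:ℝ) ^ (-σ))) * (d * (n:ℝ) ^ θ) := by
            apply mul_le_mul h5 h4 (norm_nonneg _) (by positivity)
        _ ≤ (a * ((n:ℝ) ^ δ / δ * (n:ℝ) ^ (-σ))) * (d * (n:ℝ) ^ θ) := by
            have := Real.rpow_pos_of_pos hn0 θ
            gcongr
        _ = a * (d / δ) * ((n:ℝ) ^ δ * (n:ℝ) ^ (-σ) * (n:ℝ) ^ θ) := by ring
        _ = a * (d / δ) * (n:ℝ) ^ (δ + -σ + θ) := by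
            rw [Real.rpow_add hn0, Real.rpow_add hn0]
        _ ≤ a * (d / δ) * (n:ℝ) ^ (-(1 + δ)) := by
            refine mul_le_mul_of_nonneg_left ?_ (by positivity)
            exact Real.rpow_le_rpow_of_exponent_le h2.le (by linarith)
  · rw [v_eq_zero hn, v_eq_zero hn, sub_zero, zero_div, abs_zero, zero_mul]
    have := Real.rpow_nonneg (Nat.cast_nonneg n : (0:ℝ) ≤ n) (-(1 + δ))
    positivity

/-- the quotient of two values far to the right is close to one -/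
lemma ratio_farR (H : HypR d θ c F) {σ δ a : ℝ} (hd : 0 ≤ d) (hδ : 0 < δ) (ha : 0 ≤ a)
    (hσ : 1 < σ) (hσδ : 1 + 2 * δ + θ ≤ σ) (ha1 : a * (BG d δ / δ) ≤ 1) (t : ℝ) :
    ‖F ((σ : ℂ) + t * Complex.I) / F (((σ + a : ℝ) : ℂ) + t * Complex.I) - 1‖ ≤
      2 * (a * (BG d δ / δ)) := by
  have hσa : 1 < σ + a := by linarith
  rw [H.exp_eq σ t hσ, H.exp_eq (σ + a) t hσa, ← Complex.exp_sub]
  have h1 := G_lipR H hd hδ ha hσ hσδ t
  rw [norm_sub_rev] at h1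
  refine (Complex.norm_exp_sub_one_le (h1.trans ha1)).trans ?_
  linarith


lemma F_neR (H : HypR d θ c F) {s : ℂ} (hs : 1 < s.re) : F s ≠ 0 := by
  have := H.exp_eq s.re s.im hs
  rw [Complex.re_add_im] at this
  rw [this]
  exact Complex.exp_ne_zero _

/-- linear growth -/
lemma Tz_growthR (H : HypR d θ c F) {κ a : ℝ} (hκ : 0 < κ) (hκ1 : κ ≤ 1 / 4) (ha : 0 ≤ a)
    (ha1 : a ≤ 1 / 2) : ∃ A' B' : ℝ, 0 ≤ B' ∧ ∀ z : ℂ, |z.re| ≤ 1 / 2 →
      log⁺ ‖Tz F a (3 / 2 + κ) z‖ ≤ A' + B' * |z.im| := by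
  obtain ⟨A1, B1, hB1, hg⟩ := H.growth
  have hσ : 1 < 1 + κ := by linarith
  set M : ℝ := 2 * ∑' n, x c (1 + κ) n with hM
  have hG : ∀ σ' t : ℝ, 1 + κ ≤ σ' → ‖G c σ' t‖ ≤ M := fun σ' t h => G_norm_mono H.summ hσ h t
  have hM0 : 0 ≤ M := (norm_nonneg _).trans (hG (1 + κ) 0 le_rfl)
  refine ⟨2 * Real.log 2 + 2 * (|A1| + 2 * M), 2 * B1, by positivity, fun z hz => ?_⟩
  obtain ⟨z1, z2⟩ := abs_le.1 hz
  set R : ℂ := F (z + ((3 / 2 + κ - a : ℝ) : ℂ)) / F (z + ((3 / 2 + κ : ℝ) : ℂ)) with hR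
  have hlog2 : 0 < Real.log 2 := Real.log_pos (by norm_num)
  have b1 : log⁺ (‖F (z + ((3 / 2 + κ : ℝ) : ℂ))‖⁻¹) ≤ M := by
    have h1 : z + ((3 / 2 + κ : ℝ) : ℂ) = ((z.re + (3 / 2 + κ) : ℝ) : ℂ) + z.im * Complex.I := by
      apply Complex.ext <;> simp
    rw [h1, H.exp_eq _ _ (by linarith), ← norm_inv, ← Complex.exp_neg, Complex.norm_exp,
      posLog_apply, Real.log_exp, Complex.neg_re]
    refine max_le hM0 ?_
    have h2 := hG (z.re + (3 / 2 + κ)) z.im (by linarith)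
    have h3 := Complex.abs_re_le_norm (G c (z.re + (3 / 2 + κ)) z.im)
    linarith [neg_abs_le (G c (z.re + (3 / 2 + κ)) z.im).re]
  have b2 : log⁺ ‖F (z + ((3 / 2 + κ - a : ℝ) : ℂ))‖ ≤ |A1| + M + B1 * |z.im| := by
    have hBz : 0 ≤ B1 * |z.im| := by positivity
    rcases le_or_gt (z.re + (3 / 2 + κ - a)) (5 / 4) with hcase | hcase
    · have h1 := hg (z + ((3 / 2 + κ - a : ℝ) : ℂ)) (by simp; linarith) (by simpa using hcase)
      have h2 : (z + ((3 / 2 + κ - a : ℝ) : ℂ)).im = z.im := by simp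
      rw [h2] at h1
      linarith [le_abs_self A1]
    · have h1 : z + ((3 / 2 + κ - a : ℝ) : ℂ) =
          ((z.re + (3 / 2 + κ - a) : ℝ) : ℂ) + z.im * Complex.I := by
        apply Complex.ext <;> simp
      rw [h1, H.exp_eq _ _ (by linarith), Complex.norm_exp, posLog_apply, Real.log_exp]
      refine max_le (by positivity) ?_
      have h2 := hG (z.re + (3 / 2 + κ - a)) z.im (by linarith)
      have h3 := Complex.abs_re_le_norm (G c (z.re + (3 / 2 + κ - a)) z.im)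
      linarith [le_abs_self (G c (z.re + (3 / 2 + κ - a)) z.im).re, abs_nonneg A1]
  have b3 : log⁺ ‖R‖ ≤ |A1| + 2 * M + B1 * |z.im| := by
    rw [hR, norm_div, div_eq_mul_inv]
    refine posLog_mul.trans ?_
    linarith
  have h1 : ‖Tz F a (3 / 2 + κ) z‖ ≤ ‖R‖ * (2 + ‖R‖) := by
    unfold Tz
    rw [norm_mul]
    refine mul_le_mul_of_nonneg_left ?_ (norm_nonneg _)
    refine (norm_sub_le _ _).trans ?_
    rw [Complex.norm_two]
  refine (posLog_le_posLog (norm_nonneg _) h1).trans ?_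
  have h2 : log⁺ (‖R‖ * (2 + ‖R‖)) ≤ log⁺ ‖R‖ + log⁺ (2 + ‖R‖) := posLog_mul
  have h3 : log⁺ (2 + ‖R‖) ≤ Real.log 2 + log⁺ (2:ℝ) + log⁺ ‖R‖ := posLog_add
  have h4 : log⁺ (2:ℝ) = Real.log 2 := by
    rw [posLog_apply, max_eq_right hlog2.le]
  rw [h4] at h3
  linarith

/-- the abstract zero count -/
theorem zero_abs (H : HypR d θ c F) (hd : 0 ≤ d) {δ κ a X UM : ℝ} (hδ : 0 < δ) (hκ0 : 0 < κ)
    (hκ : κ ≤ 1 / 4) (ha0 : 0 < a) (ha16 : a ≤ 1 / 16) (haθ : θ + 2 * δ + a ≤ 1 / 2)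
    (hX : X = a * (BG d δ / δ)) (hX1 : X ≤ 1 / 4) {um : ℝ → ℝ} (hum0 : ∀ t, 0 ≤ um t)
    (humi : Integrable (fun t => K (1 / 2) (π / 2) (-1) t * um t))
    (hUM : ∫ t, K (1 / 2) (π / 2) (-1) t * um t ≤ UM)
    (hleft : ∀ t : ℝ, 1 + ‖F (((1 + κ - a : ℝ) : ℂ) + t * Complex.I) /
      F (((1 + κ : ℝ) : ℂ) + t * Complex.I) - 1‖ ^ 2 ≤ Real.exp (um t))
    (S : Finset ℂ) (hS : ∀ ρ ∈ S, F ρ = 0 ∧ 1 + 2 * κ - a ≤ ρ.re ∧ |ρ.im| ≤ 1 / 2) :
    κ / 4 * ∑ ρ ∈ S, (analyticOrderNatAt F ρ : ℝ) ≤ 10 * X ^ 2 + UM := by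
  have hCb0 : 0 ≤ BG d δ / δ := div_nonneg (BG_nonneg hd) hδ.le
  obtain ⟨g₀, hg₀, hFg⟩ := factor_all H.diff S
  obtain ⟨A', B', hB', hgr⟩ := Tz_growthR H hκ0 hκ ha0.le (by linarith : a ≤ 1 / 2)
  have hX0 : 0 ≤ X := by rw [hX]; positivity
  have hfar : ∀ (σ t : ℝ), 3 / 2 + κ - a ≤ σ →
      ‖F ((σ : ℂ) + t * Complex.I) / F (((σ + a : ℝ) : ℂ) + t * Complex.I) - 1‖ ^ 2 ≤
        4 * X ^ 2 := by
    intro σ t hσ
    have h1 := ratio_farR H hd hδ ha0.le (by linarith : 1 < σ) (by linarith : 1 + 2 * δ + θ ≤ σ)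
      (by rw [← hX]; linarith) t
    rw [← hX] at h1
    have h2 := pow_le_pow_left₀ (norm_nonneg _) h1 2
    linarith [h2, (by ring : (2 * X) ^ 2 = 4 * X ^ 2)]
  -- the main inequality
  set T : ℂ → ℂ := Tz F a (3 / 2 + κ) with hT
  have hT0 : 1 - 4 * X ^ 2 ≤ ‖T 0‖ := by
    refine le_trans ?_ (Tz_norm_ge F a (3 / 2 + κ) 0)
    have h1 := hfar (3 / 2 + κ - a) 0 le_rfl
    have e1 : (((3 / 2 + κ - a : ℝ) : ℂ) + (0:ℝ) * Complex.I) =
        0 + ((3 / 2 + κ - a : ℝ) : ℂ) := by simp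
    have e2 : (((3 / 2 + κ - a + a : ℝ) : ℂ) + (0:ℝ) * Complex.I) =
        0 + ((3 / 2 + κ : ℝ) : ℂ) := by simp
    rw [e1, e2] at h1
    linarith
  have hXX : X ^ 2 ≤ 1 / 16 := by nlinarith
  have hT0pos : 0 < ‖T 0‖ := by linarith
  have hlogT : -(8 * X ^ 2) ≤ Real.log ‖T 0‖ := by
    have h1 := Real.log_le_log (by linarith) hT0
    have h2 := Real.one_sub_inv_le_log_of_pos (by linarith : 0 < 1 - 4 * X ^ 2)
    have h3 : -(8 * X ^ 2) ≤ 1 - (1 - 4 * X ^ 2)⁻¹ := by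
      have e1 : 1 - (1 - 4 * X ^ 2)⁻¹ = -(4 * X ^ 2 / (1 - 4 * X ^ 2)) := by
        have : 1 - 4 * X ^ 2 ≠ 0 := by linarith
        field_simp
        ring
      rw [e1]
      apply neg_le_neg
      rw [div_le_iff₀ (by linarith)]
      nlinarith [sq_nonneg X]
    linarith
  have key := strip_zeros (T := T) (g := fun z => g₀ (z + ((3 / 2 + κ - a : ℝ) : ℂ)) /
      F (z + ((3 / 2 + κ : ℝ) : ℂ)) *
      (2 - F (z + ((3 / 2 + κ - a : ℝ) : ℂ)) / F (z + ((3 / 2 + κ : ℝ) : ℂ))))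
    (h := 1 / 2) (A := A') (B := B') (S := S) (m := analyticOrderNatAt F)
    (p := fun ρ => ρ - ((3 / 2 + κ - a : ℝ) : ℂ))
    (up := fun _ => 4 * X ^ 2) (um := um) (N := 0) (by norm_num)
    (fun z hz => by
      have h1 := abs_le.1 hz
      have h2 : F (z + ((3 / 2 + κ : ℝ) : ℂ)) ≠ 0 := by
        apply F_neR H
        simp
        linarith
      have a1 : AnalyticAt ℂ (fun z => g₀ (z + ((3 / 2 + κ - a : ℝ) : ℂ))) z :=
        AnalyticAt.comp (g := g₀) (hg₀.analyticAt _) (by fun_prop)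
      have a2 : AnalyticAt ℂ (fun z => F (z + ((3 / 2 + κ : ℝ) : ℂ))) z :=
        AnalyticAt.comp (g := F) (H.diff.analyticAt _) (by fun_prop)
      have a3 : AnalyticAt ℂ (fun z => F (z + ((3 / 2 + κ - a : ℝ) : ℂ))) z :=
        AnalyticAt.comp (g := F) (H.diff.analyticAt _) (by fun_prop)
      exact (a1.div a2 h2).mul (analyticAt_const.sub (a3.div a2 h2)))
    (fun z _ => by
      have h1 := hFg (z + ((3 / 2 + κ - a : ℝ) : ℂ))
      have h2 : (∏ ρ ∈ S, (z + ((3 / 2 + κ - a : ℝ) : ℂ) - ρ) ^ analyticOrderNatAt F ρ) =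
          ∏ ρ ∈ S, (z - (ρ - ((3 / 2 + κ - a : ℝ) : ℂ))) ^ analyticOrderNatAt F ρ := by
        refine Finset.prod_congr rfl fun ρ _ => ?_
        congr 1
        ring
      rw [h2] at h1
      simp only [hT, Tz]
      rw [show F (z + ((3 / 2 + κ - a : ℝ) : ℂ)) / F (z + ((3 / 2 + κ : ℝ) : ℂ)) *
        (2 - F (z + ((3 / 2 + κ - a : ℝ) : ℂ)) / F (z + ((3 / 2 + κ : ℝ) : ℂ))) =
        F (z + ((3 / 2 + κ - a : ℝ) : ℂ)) * ((F (z + ((3 / 2 + κ : ℝ) : ℂ)))⁻¹ *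
        (2 - F (z + ((3 / 2 + κ - a : ℝ) : ℂ)) / F (z + ((3 / 2 + κ : ℝ) : ℂ)))) by
          rw [div_eq_mul_inv]; ring]
      nth_rewrite 1 [h1]
      ring)
    (fun ρ hρ => by
      obtain ⟨h1, h2, -⟩ := hS ρ hρ
      have h3 : ρ.re ≤ 1 := by
        by_contra hcon
        exact F_neR H (not_le.1 hcon) h1
      simp only [Complex.sub_re, Complex.ofReal_re]
      rw [abs_lt]
      constructor <;> linarith)
    hB' hgr
    ((K_integrable (by norm_num) half_mem (Or.inl rfl)).mul_const _) humi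
    (fun _ => by rw [neg_zero]; positivity)
    (fun t => by
      rw [neg_zero]
      exact hum0 t)
    (fun t => by
      refine (Tz_norm_le F a (3 / 2 + κ) _).trans ?_
      have h1 := hfar (2 + κ - a) t (by linarith)
      have e1 : (((2 + κ - a : ℝ) : ℂ) + t * Complex.I) =
          ((1 / 2 : ℝ) : ℂ) + t * Complex.I + ((3 / 2 + κ - a : ℝ) : ℂ) := by push_cast; ring
      have e2 : (((2 + κ - a + a : ℝ) : ℂ) + t * Complex.I) =
          ((1 / 2 : ℝ) : ℂ) + t * Complex.I + ((3 / 2 + κ : ℝ) : ℂ) := by push_cast; ring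
      rw [e1, e2] at h1
      have h2 := Real.add_one_le_exp (4 * X ^ 2)
      linarith)
    (fun t => by
      refine (Tz_norm_le F a (3 / 2 + κ) _).trans ?_
      have h1 := hleft t
      have e1 : (((1 + κ - a : ℝ) : ℂ) + t * Complex.I) =
          -((1 / 2 : ℝ) : ℂ) + t * Complex.I + ((3 / 2 + κ - a : ℝ) : ℂ) := by push_cast; ring
      have e2 : (((1 + κ : ℝ) : ℂ) + t * Complex.I) =
          -((1 / 2 : ℝ) : ℂ) + t * Complex.I + ((3 / 2 + κ : ℝ) : ℂ) := by push_cast; ring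
      rw [e1, e2] at h1
      exact h1)
    (norm_pos_iff.1 hT0pos)
  -- the gain
  have hgain : κ / 4 * ∑ ρ ∈ S, (analyticOrderNatAt F ρ : ℝ) ≤
      ∑ ρ ∈ S, (analyticOrderNatAt F ρ : ℝ) * gain (1 / 2) (ρ - ((3 / 2 + κ - a : ℝ) : ℂ)) -
      1 / 2 * ∑ ρ ∈ S, (analyticOrderNatAt F ρ : ℝ) *
        loss (1 / 2) (ρ - ((3 / 2 + κ - a : ℝ) : ℂ)) := by
    rw [Finset.mul_sum, Finset.mul_sum, ← Finset.sum_sub_distrib]
    refine Finset.sum_le_sum fun ρ hρ => ?_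
    obtain ⟨h1, h2, h4⟩ := hS ρ hρ
    have h3 : ρ.re ≤ 1 := by
      by_contra hcon
      exact F_neR H (not_le.1 hcon) h1
    have h5 := net_gain (κ := κ) (e := ρ.re + a - 1 - κ) (γ := ρ.im)
      (q := ρ - ((3 / 2 + κ - a : ℝ) : ℂ)) hκ0 (by linarith) (by linarith)
      (by simp only [Complex.sub_re, Complex.ofReal_re]; ring) (by simp) h4
    have h6 : (0:ℝ) ≤ analyticOrderNatAt F ρ := Nat.cast_nonneg _
    have h7 := mul_le_mul_of_nonneg_left h5 h6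
    linarith
  have hup : ∫ y : ℝ, K (1 / 2) (π / 2) 1 y * (4 * X ^ 2) = 2 * X ^ 2 := by
    rw [integral_mul_const, K_mass_one (by norm_num) half_mem]
    have := Real.pi_pos
    field_simp
    ring
  rw [hup] at key
  linarith

end

end Pool.Agent.R402.Win
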