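import Mathlib
import Pool.Agent.R402.W8

/-!
# The deviation from one after removing the small primes
-/

set_option autoImplicit false

open MeasureTheory Filter Topology Set Real
open scoped ArithmeticFunction.vonMangoldt

namespace Pool.Agent.R402.Win

open Pool.Agent.R402.Strip Pool.Agent.R402.Kern Pool.Agent.R402.Edge
open Pool.Agent.R402.MeanSq Pool.Agent.R402.Ser Pool.Agent.R402.Core Pool.Agent.R402.Fin

/-- the function with the small primes removed -/
noncomputable def FH (T : ℝ) (c : ℕ → ℂ) (F : ℂ → ℂ) (z : ℂ) : ℂ := F z * Complex.exp (-glo T c z)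

section
variable {d Cn θ A Q0 : ℝ} {c : ℕ → ℂ} {F : ℂ → ℂ}

lemma FH_diff (hF : Differentiable ℂ F) (T : ℝ) : Differentiable ℂ (FH T c F) :=
  hF.mul ((glo_diff T c).neg.cexp)

lemma FH_exp (H : Hyp d Cn θ A Q0 c F) {T : ℝ} (hT : 0 < T) {σ : ℝ} (hσ : 1 < σ) (r : ℝ) :
    FH T c F ((σ : ℂ) + r * Complex.I) = Complex.exp (G (hi T c) σ r) := by
  unfold FH
  rw [H.exp_eq σ r hσ, ← Complex.exp_add, G_split hσ (H.summ σ hσ) T r, glo_eq hT]
  congr 1
  ring

lemma FH_hyp (H : Hyp d Cn θ A Q0 c F) (hd : 0 ≤ d) {T δ : ℝ} (hT : 0 < T) (hδ : 0 ≤ δ) :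
    HypR (d * (T ^ 4) ^ (-δ)) (θ + δ) (hi T c) (FH T c F) := by
  refine ⟨FH_diff H.diff T, ?_, fun σ t hσ => FH_exp H hT hσ t,
    fun σ hσ => (P_summ (norm_hi T c) (H.summ σ hσ)).1, ?_⟩
  · obtain ⟨A1, B1, hB1, hg⟩ := H.growth
    refine ⟨A1 + (T ^ 4) ^ (9 / 4 : ℝ) * absG c 2, B1, hB1, fun z hz1 hz2 => ?_⟩
    have h1 := hg z hz1 hz2
    have h2 := glo_norm hT (by norm_num : (1:ℝ) < 2) (H.summ 2 (by norm_num))
      (by norm_num : (0:ℝ) ≤ 9 / 4) (z := z) (by linarith)
    unfold FH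
    rw [norm_mul]
    refine posLog_mul.trans ?_
    have h3 : log⁺ ‖Complex.exp (-glo T c z)‖ ≤ (T ^ 4) ^ (9 / 4 : ℝ) * absG c 2 := by
      rw [Complex.norm_exp, posLog_apply, Real.log_exp, Complex.neg_re]
      refine max_le ((norm_nonneg _).trans h2) ?_
      have h4 := Complex.abs_re_le_norm (glo T c z)
      linarith [neg_abs_le (glo T c z).re]
    linarith
  · intro n hn
    have hn0 : 0 < n := by
      rcases Nat.eq_zero_or_pos n with rfl | h
      · simp at hn
      · exact h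
    have hnr : (0:ℝ) < n := by exact_mod_cast hn0
    have h0 : 0 ≤ d * (T ^ 4) ^ (-δ) * (n:ℝ) ^ (θ + δ) := by positivity
    unfold hi
    split_ifs with h
    · rw [norm_zero]; exact h0
    · have h1 := H.coef n hn
      have h2 : T ^ 4 < n := not_le.1 h
      have h3 : (n:ℝ) ^ (-δ) ≤ (T ^ 4) ^ (-δ) :=
        Real.rpow_le_rpow_of_nonpos (by positivity) h2.le (by linarith)
      calc ‖c n‖ ≤ d * (n:ℝ) ^ θ := h1
        _ = d * ((n:ℝ) ^ (-δ) * (n:ℝ) ^ (θ + δ)) := by
            rw [← Real.rpow_add hnr]; congr 2; ring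
        _ ≤ d * ((T ^ 4) ^ (-δ) * (n:ℝ) ^ (θ + δ)) := by gcongr
        _ = _ := by ring

lemma FH_order (hF : Differentiable ℂ F) (T : ℝ) (ρ : ℂ) :
    analyticOrderNatAt (FH T c F) ρ = analyticOrderNatAt F ρ := by
  unfold analyticOrderNatAt
  congr 1
  have h1 : FH T c F = F * fun z => Complex.exp (-glo T c z) := rfl
  have h2 : AnalyticAt ℂ (fun z => Complex.exp (-glo T c z)) ρ :=
    ((glo_diff T c).neg.cexp).analyticAt ρ
  rw [h1, analyticOrderAt_mul (hF.analyticAt ρ) h2,
    h2.analyticOrderAt_eq_zero.2 (Complex.exp_ne_zero _), add_zero]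

lemma FH_zero {T : ℝ} {ρ : ℂ} (h : F ρ = 0) : FH T c F ρ = 0 := by
  unfold FH; rw [h, zero_mul]

/-- the deviation from one on the line `Re s = 1 + κ - a`, small prime powers removed -/
lemma edge_winH (H : Hyp d Cn θ A Q0 c F) (hd : 0 ≤ d) (hCn : 1 ≤ Cn) {κ a b lam q T : ℝ}
    (hκ : 0 < κ) (hκ1 : κ ≤ 1 / 4) (ha : 0 < a) (hb : 0 < b) (hb1 : b ≤ 1 / 2)
    (hab : a / (b / (1 + 2 * κ)) ≤ 1 / 2) (hlam : 0 < lam)
    (hlam1 : lam ≤ 1) (hq : 0 < q) (hT : 0 < T) (t : ℝ) :
    ‖FH T c F (((1 + κ - a : ℝ) : ℂ) + t * Complex.I) /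
        FH T c F (((1 + κ : ℝ) : ℂ) + t * Complex.I) - 1‖ ≤ Real.exp (
      ((1 - a / b) * (Real.log lam - 1) + a / b * (Real.log 2 +
        (2 * absG c (1 + κ) + (T ^ 4) ^ b * absG c (1 + κ) + Real.log Cn + 32000 * d +
          b / 2 * (Real.log Q0 + d * Real.log (1 + |t|))))) +
      d * (∫ r : ℝ, KK (1 / 2 + κ) (π - π * (a / (b / (1 + 2 * κ))) / (2 * (1 / 2 + κ))) r *
        (|r| * Real.exp |r|)) +
      (1 / lam + 1) * ∫ r : ℝ, KK (1 / 2 + κ)
        (π - π * (a / (b / (1 + 2 * κ))) / (2 * (1 / 2 + κ))) r *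
        V (hi T c) (1 + κ) q t (b / (1 + 2 * κ) * r)) := by
  have hσ : 1 < 1 + κ := by linarith
  have hP := H.summ (1 + κ) hσ
  have hPhi := (P_summ (norm_hi T c) hP).1
  obtain ⟨A1, B1, hB1, hg⟩ := H.growth
  have hQ := H.one_le
  have hlC : 0 ≤ Real.log Cn := Real.log_nonneg hCn
  have hlQ : 0 ≤ Real.log Q0 := Real.log_nonneg hQ
  have hlt := log_one_add_nonneg t
  set S : ℝ := absG c (1 + κ) with hS
  have hS0 : 0 ≤ S := absG_nonneg c _
  have hGS : ∀ r, ‖G c (1 + κ) r‖ ≤ S := fun r => G_le_absG hσ hP r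
  have hGhS : ∀ r, ‖G (hi T c) (1 + κ) r‖ ≤ S := fun r =>
    (G_le_absG hσ hPhi r).trans (absG_mono hσ hP (norm_hi T c))
  set s : ℝ := b / (1 + 2 * κ) with hs
  have hs0 : 0 < s := by positivity
  have hs1 : s ≤ 1 := by
    rw [hs, div_le_one (by positivity)]; linarith
  have hsb : s * (1 + 2 * κ) = b := by rw [hs]; field_simp
  set a' : ℝ := a / s with ha'
  have ha'0 : 0 < a' := by positivity
  have hsa : s * a' = a := by rw [ha']; field_simp
  have ha'b : a' / (1 + 2 * κ) = a / b := by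
    rw [ha', hs]; field_simp
  set F1 : ℂ → ℂ := FH T c F with hF1
  have hF1d : Differentiable ℂ F1 := FH_diff H.diff T
  have hF1line : ∀ r : ℝ, F1 (((1 + κ : ℝ) : ℂ) + r * Complex.I) =
      Complex.exp (G (hi T c) (1 + κ) r) := by
    intro r
    exact FH_exp H hT hσ r
  have hF1n : ∀ z : ℂ, 1 + κ - b ≤ z.re → ‖F1 z‖ ≤ ‖F z‖ * Real.exp ((T ^ 4) ^ b * S) := by
    intro z hz
    rw [hF1]
    unfold FH
    rw [norm_mul, Complex.norm_exp]
    refine mul_le_mul_of_nonneg_left (Real.exp_le_exp.2 ?_) (norm_nonneg _)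
    have h1 := glo_norm hT hσ hP hb.le hz
    rw [Complex.neg_re]
    have h2 := Complex.abs_re_le_norm (glo T c z)
    have h3 := neg_abs_le (glo T c z).re
    linarith
  set F2 : ℂ → ℂ := fun z => F1 (((1 + κ : ℝ) : ℂ) + s * (z - ((1 + κ : ℝ) : ℂ)) + t * Complex.I)
    with hF2
  have hF2d : Differentiable ℂ F2 := hF1d.comp (by fun_prop)
  have hF2line : ∀ r : ℝ, F2 (1 + κ + r * Complex.I) =
      Complex.exp (G (hi T c) (1 + κ) (t + s * r)) := by
    intro r
    rw [← hF1line]
    simp only [hF2]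
    congr 1
    push_cast
    ring
  have hF2base : F2 (1 + κ) = Complex.exp (G (hi T c) (1 + κ) t) := by
    have := hF2line 0
    simp only [Complex.ofReal_zero, zero_mul, add_zero, mul_zero] at this
    exact this
  have key := edge_pointH (F := F2) (κ := κ) (a := a') (lam := lam)
    (L0 := 2 * S + (T ^ 4) ^ b * S + Real.log Cn + 32000 * d +
      b / 2 * (Real.log Q0 + d * Real.log (1 + |t|)))
    (L1 := d) (A := A1 + B1 * |t| + (T ^ 4) ^ b * S) (B := B1)
    (M := 1 / 2 * (q + q⁻¹ * (∑' n, x (hi T c) (1 + κ) n) ^ 2))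
    (V := fun r => V (hi T c) (1 + κ) q t (s * r)) hκ hκ1 ha'0 hab hlam hlam1
    hF2d hB1
    (fun z hz1 hz2 => by
      simp only [hF2]
      set w : ℂ := ((1 + κ : ℝ) : ℂ) + s * (z - ((1 + κ : ℝ) : ℂ)) + t * Complex.I with hw
      have hwre : w.re = 1 + κ + s * (z.re - (1 + κ)) := by
        rw [hw]; simp
      have hwim : w.im = s * z.im + t := by
        rw [hw]; simp
      have h1 : 1 + κ - b ≤ w.re := by
        rw [hwre]
        have : s * (-(1 + 2 * κ)) ≤ s * (z.re - (1 + κ)) :=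
          mul_le_mul_of_nonneg_left (by linarith) hs0.le
        linarith
      have h2 : w.re ≤ 1 + κ := by
        rw [hwre]
        have : s * (z.re - (1 + κ)) ≤ 0 := by nlinarith
        linarith
      have h3 := hg w (by linarith) (by linarith)
      have h4 := hF1n w h1
      refine (posLog_le_posLog (norm_nonneg _) h4).trans (posLog_mul.trans ?_)
      have h5 : log⁺ (Real.exp ((T ^ 4) ^ b * S)) = (T ^ 4) ^ b * S := by
        rw [posLog_apply, Real.log_exp]
        exact max_eq_right (by positivity)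
      rw [h5]
      rw [hwim] at h3
      have h6 : |s * z.im + t| ≤ |z.im| + |t| := by
        refine (abs_add_le _ _).trans ?_
        rw [abs_mul, abs_of_pos hs0]
        nlinarith [abs_nonneg z.im]
      nlinarith [mul_le_mul_of_nonneg_left h6 hB1])
    (by
      have h1 := V_cont_right (c := hi T c) hσ hPhi q t
      exact h1.comp (continuous_const.mul continuous_id))
    (fun r => V_nonneg hq t (s * r))
    (fun r => by
      refine (V_le hq hσ hPhi t (s * r)).trans ?_
      refine mul_le_mul_of_nonneg_left ?_ (by positivity)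
      have h1 := abs_le_sq r
      have h2 : |s * r| ≤ |r| := by
        rw [abs_mul, abs_of_pos hs0]
        nlinarith [abs_nonneg r]
      linarith)
    (by rw [hF2base]; exact Complex.exp_ne_zero _)
    (fun r => by
      refine ⟨G (hi T c) (1 + κ) (t + s * r) - G (hi T c) (1 + κ) t,
        G_sub_le hq hσ hPhi t (s * r), ?_⟩
      rw [hF2line, hF2base, ← Complex.exp_add]
      congr 1
      ring)
    (by positivity) hd
    (fun r => by
      have e1 : F2 (-κ + r * Complex.I) =
          F1 (((1 + κ - b : ℝ) : ℂ) + ((t + s * r : ℝ) : ℂ) * Complex.I) := by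
        simp only [hF2]
        congr 1
        rw [← hsb]
        push_cast
        ring
      rw [e1, hF2line]
      have h1 := hF1n (((1 + κ - b : ℝ) : ℂ) + ((t + s * r : ℝ) : ℂ) * Complex.I) (by simp)
      have h2 := conv_edge H hd hCn hκ hκ1 hb hb1 hGS (t + s * r)
      have h3 : Real.exp (-S) ≤ ‖Complex.exp (G (hi T c) (1 + κ) (t + s * r))‖ := by
        rw [Complex.norm_exp]
        apply Real.exp_le_exp.2
        have h4 := Complex.abs_re_le_norm (G (hi T c) (1 + κ) (t + s * r))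
        have h5 := neg_abs_le (G (hi T c) (1 + κ) (t + s * r)).re
        linarith [hGhS (t + s * r)]
      have h4 : Real.log (1 + |t + s * r|) ≤ Real.log (1 + |t|) + Real.log (1 + |r|) := by
        refine (log_add_le t (s * r)).trans ?_
        have : Real.log (1 + |s * r|) ≤ Real.log (1 + |r|) := by
          apply Real.log_le_log (by positivity)
          rw [abs_mul, abs_of_pos hs0]
          nlinarith [abs_nonneg r]
        linarith
      have hlr := log_one_add_nonneg r
      calc ‖F1 (((1 + κ - b : ℝ) : ℂ) + ((t + s * r : ℝ) : ℂ) * Complex.I)‖ ≤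
          ‖F (((1 + κ - b : ℝ) : ℂ) + ((t + s * r : ℝ) : ℂ) * Complex.I)‖ *
            Real.exp ((T ^ 4) ^ b * S) := h1
        _ ≤ Real.exp (S + Real.log Cn + b / 2 * (Real.log Q0 + d * Real.log (1 + |t + s * r|)) +
            32000 * d) * Real.exp ((T ^ 4) ^ b * S) :=
            mul_le_mul_of_nonneg_right h2 (Real.exp_pos _).le
        _ = Real.exp (2 * S + (T ^ 4) ^ b * S + Real.log Cn + 32000 * d +
            b / 2 * (Real.log Q0 + d * Real.log (1 + |t + s * r|))) * Real.exp (-S) := by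
            rw [← Real.exp_add, ← Real.exp_add]; congr 1; ring
        _ ≤ Real.exp (2 * S + (T ^ 4) ^ b * S + Real.log Cn + 32000 * d +
            b / 2 * (Real.log Q0 + d * Real.log (1 + |t|)) + d * Real.log (1 + |r|)) *
              ‖Complex.exp (G (hi T c) (1 + κ) (t + s * r))‖ := by
            refine mul_le_mul (Real.exp_le_exp.2 ?_) h3 (Real.exp_pos _).le (Real.exp_pos _).le
            have h5 : b / 2 * (d * Real.log (1 + |t + s * r|)) ≤
                b / 2 * (d * (Real.log (1 + |t|) + Real.log (1 + |r|))) := by gcongr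
            have h6 : b / 2 * (d * Real.log (1 + |r|)) ≤ 1 * (d * Real.log (1 + |r|)) := by
              refine mul_le_mul_of_nonneg_right (by linarith) (by positivity)
            linarith)
  have e1 : F2 (1 + κ - a') = F1 (((1 + κ - a : ℝ) : ℂ) + t * Complex.I) := by
    simp only [hF2]
    congr 1
    rw [← hsa]
    push_cast
    ring
  have e2 : F2 (1 + κ) = F1 (((1 + κ : ℝ) : ℂ) + t * Complex.I) := by
    rw [hF2base, hF1line]
  rw [e1, e2, ha'b] at key
  exact key

end

end Pool.Agent.R402.Win
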