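import Mathlib
import Pool.Agent.R402.W9

/-!
# The local zero count in terms of the local mean square
-/

set_option autoImplicit false

open MeasureTheory Filter Topology Set Real
open scoped ArithmeticFunction.vonMangoldt

namespace Pool.Agent.R402.Win

open Pool.Agent.R402.Strip Pool.Agent.R402.Kern Pool.Agent.R402.Edge
open Pool.Agent.R402.MeanSq Pool.Agent.R402.Ser Pool.Agent.R402.Core Pool.Agent.R402.Fin
open Pool.Agent.R402.Zed (Tz Tz_norm_le Tz_norm_ge net_gain G_norm_mono k0 k0_cont k0_nonneg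
  k0_le k0_mass k0_int)

/-- the parameters: `T` is the cut, `R` the length of the window -/
structure ParX (d l y b T R Cb : ℝ) : Prop where
  l4 : 4 ≤ l
  ll : 1 ≤ Real.log l
  T2 : 2 ≤ T
  R1 : 1 ≤ R
  RT : R ≤ T
  y0 : 0 ≤ y
  b0 : 0 < b
  b1 : b ≤ 1 / 2
  Tb : (T ^ 4) ^ b ≤ 3
  ab : (y + 2) / l ≤ b / 3
  a16 : (y + 2) / l ≤ 1 / 16
  ad : (y + 2) / l * d ≤ 1 / 2
  alog : (y + 2) / l / b * (Real.log l + Real.log T) ≤ 1
  p6 : (y + 2) / l / b * √l ≤ 5

/-- the constant -/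
noncomputable def Cw : ℝ := 32000 * Real.exp 1

lemma Cw_ge : 1 ≤ Cw := by
  unfold Cw
  have := Real.add_one_le_exp (1:ℝ)
  linarith

/-- the bound for the moment -/
noncomputable def Jw (l y : ℝ) : ℝ := Cw * ((y + 2) * Real.log l) / l

/-- the constant in the deviation bound -/
noncomputable def C1w (d Cn A : ℝ) : ℝ :=
  25 * (C2 + |A|) + Real.log 2 + Real.log Cn + 32000 * d + 3 / 2 * Cw * d + 4

section
variable {d Cn θ A Q0 l y b T R Cb : ℝ} {c : ℕ → ℂ} {F : ℂ → ℂ}

/-- the kernel weight -/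
noncomputable def ker (l y b r : ℝ) : ℝ := KK (1 / 2 + 1 / l)
  (π - π * ((y + 2) / l / (b / (1 + 2 * (1 / l)))) / (2 * (1 / 2 + 1 / l))) r

/-- the square mean of the variation at height `t` -/
noncomputable def UW (c : ℕ → ℂ) (l y b T R t : ℝ) : ℝ :=
  √(1 / R) * ∫ r : ℝ, ker l y b r *
    V (hi T c) (1 + 1 / l) √(1 / R) t (b / (1 + 2 * (1 / l)) * r)

lemma basic (p : ParX d l y b T R Cb) : 0 < (y + 2) / l ∧ 0 < b / (1 + 2 * (1 / l)) ∧
    b / (1 + 2 * (1 / l)) ≤ 1 ∧ 0 < (y + 2) / l / (b / (1 + 2 * (1 / l))) ∧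
    (y + 2) / l / (b / (1 + 2 * (1 / l))) ≤ 1 / 2 ∧ 0 < 1 / l ∧ 1 / l ≤ 1 / 4 := by
  have hl := p.l4
  have hl0 : 0 < l := by linarith
  have hy0 := p.y0
  have hb := p.b0
  have hb1 := p.b1
  have hab := p.ab
  have hκ0 : 0 < 1 / l := by positivity
  have hκ : 1 / l ≤ 1 / 4 := by
    rw [div_le_div_iff₀ hl0 (by norm_num)]; linarith
  have ha0 : 0 < (y + 2) / l := by positivity
  have hs0 : 0 < b / (1 + 2 * (1 / l)) := by positivity
  refine ⟨ha0, hs0, ?_, by positivity, ?_, hκ0, hκ⟩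
  · rw [div_le_one (by positivity)]; linarith
  · rw [div_div_eq_mul_div, div_le_iff₀ hb]
    have : (y + 2) / l * (1 + 2 * (1 / l)) ≤ b / 3 * (3 / 2) := by
      apply mul_le_mul hab (by linarith) (by linarith) (by linarith)
    linarith

lemma ker_nonneg (p : ParX d l y b T R Cb) (r : ℝ) : 0 ≤ ker l y b r := by
  obtain ⟨h1, h2, h3, h4, h5, h6, h7⟩ := basic p
  exact KK_nonneg (by linarith) (phi_mem h6 h4 h5) r

lemma ker_cont (p : ParX d l y b T R Cb) : Continuous (ker l y b) := by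
  obtain ⟨h1, h2, h3, h4, h5, h6, h7⟩ := basic p
  exact KK_continuous (by linarith) (phi_mem h6 h4 h5)

/-- the first moment of the kernel -/
lemma ker_moment (p : ParX d l y b T R Cb) :
    Integrable (fun r : ℝ => ker l y b r * (|r| * Real.exp |r|)) ∧
    b / (1 + 2 * (1 / l)) * ∫ r : ℝ, ker l y b r * (|r| * Real.exp |r|) ≤ Jw l y ∧
    ∫ r : ℝ, ker l y b r * (|r| * Real.exp |r|) ≤ 3 / 2 * Cw := by
  obtain ⟨ha0, hs0, hs1, ha'0, ha'1, hκ0, hκ⟩ := basic p
  have hl := p.l4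
  have hl0 : 0 < l := by linarith
  have hy0 := p.y0
  have hll := p.ll
  have hb := p.b0
  set s : ℝ := b / (1 + 2 * (1 / l)) with hs
  set a : ℝ := (y + 2) / l with ha
  obtain ⟨k1, k2⟩ := KK_moment (h := 1 / 2 + 1 / l) (a := a / s) (η := 1 / Real.log l)
    (by linarith) (by linarith) ha'0 ha'1 (by positivity)
    (by rw [div_le_one (by linarith)]; exact hll)
  have h3 : (a / s) ^ (-(1 / Real.log l)) ≤ Real.exp 1 := by
    have h4 : l⁻¹ ≤ a / s := by
      have e1 : l⁻¹ ≤ a := by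
        rw [inv_eq_one_div, ha]
        gcongr
        linarith
      refine e1.trans ?_
      rw [le_div_iff₀ hs0]
      nlinarith
    have h5 : (a / s) ^ (-(1 / Real.log l)) ≤ (l⁻¹) ^ (-(1 / Real.log l)) := by
      apply Real.rpow_le_rpow_of_nonpos (by positivity) h4
      have : 0 < 1 / Real.log l := by positivity
      linarith
    refine h5.trans (le_of_eq ?_)
    rw [Real.inv_rpow hl0.le, Real.rpow_neg hl0.le, inv_inv, Real.rpow_def_of_pos hl0]
    congr 1
    field_simp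
  have h6 : 32000 * (a / s * (a / s) ^ (-(1 / Real.log l))) / (1 / Real.log l) =
      32000 * (a / s * Real.log l) * (a / s) ^ (-(1 / Real.log l)) := by
    field_simp
  rw [h6] at k2
  have h8 : 0 ≤ (a / s) ^ (-(1 / Real.log l)) := Real.rpow_nonneg ha'0.le _
  have h9 : 32000 * (a / s * Real.log l) * (a / s) ^ (-(1 / Real.log l)) ≤
      32000 * (a / s * Real.log l) * Real.exp 1 := by gcongr
  have h10 := k2.trans h9
  refine ⟨k1, ?_, ?_⟩
  · refine (mul_le_mul_of_nonneg_left h10 hs0.le).trans (le_of_eq ?_)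
    unfold Jw Cw
    rw [ha]
    field_simp
  · refine h10.trans ?_
    have h7 : a / s * Real.log l ≤ 3 / 2 := by
      have hp7 := p.alog
      rw [← ha] at hp7
      have hlT : 0 ≤ Real.log T := Real.log_nonneg (by linarith [p.T2])
      have e0 : a / b * Real.log l ≤ 1 := by
        have : a / b * Real.log l ≤ a / b * (Real.log l + Real.log T) :=
          mul_le_mul_of_nonneg_left (by linarith) (by positivity)
        linarith
      have e1 : a / s * Real.log l = (1 + 2 * (1 / l)) * (a / b * Real.log l) := by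
        rw [hs]; field_simp
      rw [e1]
      have e2 : (1 + 2 * (1 / l)) * (a / b * Real.log l) ≤ (3 / 2) * 1 := by
        apply mul_le_mul (by linarith) e0 (by positivity) (by norm_num)
      linarith
    unfold Cw
    calc 32000 * (a / s * Real.log l) * Real.exp 1 ≤ 32000 * (3 / 2) * Real.exp 1 := by gcongr
      _ = _ := by ring

lemma Jw_ge (p : ParX d l y b T R Cb) : 1 / l ≤ Jw l y := by
  have hl0 : 0 < l := by linarith [p.l4]
  unfold Jw
  refine div_le_div_of_nonneg_right ?_ hl0.le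
  have h1 : 1 ≤ (y + 2) * Real.log l := by nlinarith [p.y0, p.ll]
  exact one_le_mul_of_one_le_of_one_le Cw_ge h1

lemma UW_nonneg (p : ParX d l y b T R Cb) (t : ℝ) : 0 ≤ UW c l y b T R t := by
  have hR := p.R1
  have h1 : 0 < √(1 / R) := Real.sqrt_pos.2 (by positivity)
  exact mul_nonneg h1.le (integral_nonneg fun r => mul_nonneg (ker_nonneg p r) (V_nonneg h1 t _))

/-- the mean of `UW` -/
lemma mean_UW (H : Hyp d Cn θ A Q0 c F) (p : ParX d l y b T R Cb) :
    Integrable (fun t => k0 t * UW c l y b T R t) ∧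
      ∫ t, k0 t * UW c l y b T R t ≤ (1 / 2 * (1 / R) + 2 * EE (hi T c) (1 + 1 / l) 0) * Jw l y := by
  obtain ⟨ha0, hs0, hs1, ha'0, ha'1, hκ0, hκ⟩ := basic p
  have hR := p.R1
  have hq : 0 < √(1 / R) := Real.sqrt_pos.2 (by positivity)
  have hqq : √(1 / R) * √(1 / R) = 1 / R := Real.mul_self_sqrt (by positivity)
  have hσ : 1 < 1 + 1 / l := by linarith
  have hPhi := (P_summ (norm_hi T c) (H.summ (1 + 1 / l) hσ)).1
  obtain ⟨m1, m2, m3⟩ := ker_moment p
  obtain ⟨h1, h2⟩ := mean_VE (c := hi T c) hσ hPhi k0_cont k0_nonneg k0_le k0_mass hq hs0.le hs1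
    (ker_cont p) (ker_nonneg p) m1
  have e1 : (fun t => k0 t * UW c l y b T R t) = fun t => √(1 / R) * (k0 t * ∫ r : ℝ,
      ker l y b r * V (hi T c) (1 + 1 / l) √(1 / R) t (b / (1 + 2 * (1 / l)) * r)) := by
    funext t
    unfold UW
    ring
  rw [e1]
  refine ⟨h1.const_mul _, ?_⟩
  rw [integral_const_mul]
  have hEE := EE_nonneg (c := hi T c) (σ := 1 + 1 / l) 0
  calc √(1 / R) * ∫ t, k0 t * ∫ r : ℝ, ker l y b r *
        V (hi T c) (1 + 1 / l) √(1 / R) t (b / (1 + 2 * (1 / l)) * r) ≤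
      √(1 / R) * ((1 / 2 * √(1 / R) + 2 * (√(1 / R))⁻¹ * EE (hi T c) (1 + 1 / l) 0) *
        Jw l y) := by
        refine mul_le_mul_of_nonneg_left (h2.trans ?_) hq.le
        exact mul_le_mul_of_nonneg_left m2 (by positivity)
    _ = (1 / 2 * (√(1 / R) * √(1 / R)) + 2 * (√(1 / R) * (√(1 / R))⁻¹) *
        EE (hi T c) (1 + 1 / l) 0) * Jw l y := by ring
    _ = _ := by
        rw [hqq, mul_inv_cancel₀ hq.ne', mul_one]

/-- the majorant for general `q` -/
lemma intV_leW (H : Hyp d Cn θ A Q0 c F) (p : ParX d l y b T R Cb) {q : ℝ} (hq : 0 < q) (t : ℝ) :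
    ∫ r : ℝ, ker l y b r * V (hi T c) (1 + 1 / l) q t (b / (1 + 2 * (1 / l)) * r) ≤
      1 / 2 * q * Jw l y + q⁻¹ * UW c l y b T R t := by
  obtain ⟨ha0, hs0, hs1, ha'0, ha'1, hκ0, hκ⟩ := basic p
  have hR := p.R1
  have hq1 : 0 < √(1 / R) := Real.sqrt_pos.2 (by positivity)
  have hσ : 1 < 1 + 1 / l := by linarith
  have hPhi := (P_summ (norm_hi T c) (H.summ (1 + 1 / l) hσ)).1
  obtain ⟨m1, m2, m3⟩ := ker_moment p
  set s : ℝ := b / (1 + 2 * (1 / l)) with hs
  have hwr : Integrable (fun r => ker l y b r * |r|) := by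
    refine m1.mono' (((ker_cont p).mul continuous_abs).aestronglyMeasurable)
      (Eventually.of_forall fun r => ?_)
    have h1 := ker_nonneg p r
    rw [Real.norm_of_nonneg (by positivity)]
    have h2 := Real.one_le_exp (abs_nonneg r)
    refine mul_le_mul_of_nonneg_left ?_ h1
    nlinarith [abs_nonneg r]
  have hVi : ∀ q' : ℝ, 0 < q' →
      Integrable (fun r => ker l y b r * V (hi T c) (1 + 1 / l) q' t (s * r)) := by
    intro q' hq'
    set M : ℝ := 1 / 2 * (q' + q'⁻¹ * (∑' n, x (hi T c) (1 + 1 / l) n) ^ 2) with hM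
    have hM0 : 0 ≤ M := by positivity
    refine (hwr.const_mul M).mono' (((ker_cont p).mul ((V_cont_right hσ hPhi q' t).comp
      (continuous_const.mul continuous_id))).aestronglyMeasurable) (Eventually.of_forall fun r => ?_)
    have h1 := ker_nonneg p r
    have h2 := V_nonneg (c := hi T c) (σ := 1 + 1 / l) hq' t (s * r)
    rw [Real.norm_of_nonneg (mul_nonneg h1 h2)]
    have h3 := V_le hq' hσ hPhi t (s * r)
    have h4 : |s * r| ≤ |r| := by
      rw [abs_mul, abs_of_pos hs0]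
      nlinarith [abs_nonneg r]
    have h5 : V (hi T c) (1 + 1 / l) q' t (s * r) ≤ M * |r| :=
      h3.trans (mul_le_mul_of_nonneg_left h4 hM0)
    calc ker l y b r * V (hi T c) (1 + 1 / l) q' t (s * r) ≤ ker l y b r * (M * |r|) :=
          mul_le_mul_of_nonneg_left h5 h1
      _ = _ := by ring
  have h1 : ∫ r : ℝ, ker l y b r * V (hi T c) (1 + 1 / l) q t (s * r) ≤
      ∫ r : ℝ, (1 / 2 * q * s * (ker l y b r * (|r| * Real.exp |r|)) +
        q⁻¹ * √(1 / R) * (ker l y b r * V (hi T c) (1 + 1 / l) √(1 / R) t (s * r))) := by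
    refine integral_mono (hVi q hq) ((m1.const_mul _).add ((hVi _ hq1).const_mul _))
      fun r => ?_
    have h2 := ker_nonneg p r
    have h3 := Y_nonneg (c := hi T c) (σ := 1 + 1 / l) t (s * r)
    have h4 := Real.one_le_exp (abs_nonneg r)
    have h5 : V (hi T c) (1 + 1 / l) q t (s * r) ≤ 1 / 2 * q * s * (|r| * Real.exp |r|) +
        q⁻¹ * √(1 / R) * V (hi T c) (1 + 1 / l) √(1 / R) t (s * r) := by
      unfold V
      have hab : |s * r| = s * |r| := by rw [abs_mul, abs_of_pos hs0]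
      rw [hab]
      have e1 : 1 / 2 * (s * |r|) * (q + q⁻¹ * Y (hi T c) (1 + 1 / l) t (s * r)) =
        1 / 2 * q * s * |r| + q⁻¹ * (1 / 2 * (s * |r|) * Y (hi T c) (1 + 1 / l) t (s * r)) := by
        ring
      have e4 : q⁻¹ * √(1 / R) * (1 / 2 * (s * |r|) * (√(1 / R) +
          (√(1 / R))⁻¹ * Y (hi T c) (1 + 1 / l) t (s * r))) =
          q⁻¹ * (1 / 2 * (s * |r|) * (√(1 / R) * √(1 / R) +
            (√(1 / R) * (√(1 / R))⁻¹) * Y (hi T c) (1 + 1 / l) t (s * r))) := by ring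
      rw [e1, e4, mul_inv_cancel₀ hq1.ne', one_mul]
      have e2 : |r| ≤ |r| * Real.exp |r| := le_mul_of_one_le_right (abs_nonneg r) h4
      have e3 : 1 / 2 * (s * |r|) * Y (hi T c) (1 + 1 / l) t (s * r) ≤
          1 / 2 * (s * |r|) * (√(1 / R) * √(1 / R) + Y (hi T c) (1 + 1 / l) t (s * r)) := by
        refine mul_le_mul_of_nonneg_left ?_ (by positivity)
        have := mul_pos hq1 hq1
        linarith
      gcongr
    calc ker l y b r * V (hi T c) (1 + 1 / l) q t (s * r) ≤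
        ker l y b r * (1 / 2 * q * s * (|r| * Real.exp |r|) +
        q⁻¹ * √(1 / R) * V (hi T c) (1 + 1 / l) √(1 / R) t (s * r)) :=
          mul_le_mul_of_nonneg_left h5 h2
      _ = _ := by ring
  refine h1.trans ?_
  rw [integral_add (m1.const_mul _) ((hVi _ hq1).const_mul _), integral_const_mul,
    integral_const_mul]
  have h2 : 1 / 2 * q * s * ∫ r : ℝ, ker l y b r * (|r| * Real.exp |r|) ≤
      1 / 2 * q * Jw l y := by
    have := mul_le_mul_of_nonneg_left m2 (by positivity : 0 ≤ 1 / 2 * q)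
    calc 1 / 2 * q * s * ∫ r : ℝ, ker l y b r * (|r| * Real.exp |r|) =
        1 / 2 * q * (s * ∫ r : ℝ, ker l y b r * (|r| * Real.exp |r|)) := by ring
      _ ≤ _ := this
  have h3 : q⁻¹ * √(1 / R) * ∫ r : ℝ, ker l y b r *
      V (hi T c) (1 + 1 / l) √(1 / R) t (s * r) = q⁻¹ * UW c l y b T R t := by
    unfold UW
    ring
  rw [h3]
  linarith

/-- the deviation bound in the form used below -/
lemma H_boundW (H : Hyp d Cn θ A Q0 c F) (hd : 0 ≤ d) (hCn : 1 ≤ Cn) (p : ParX d l y b T R Cb)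
    (hQl : Real.log Q0 ≤ l) (t : ℝ) :
    1 + ‖FH T c F (((1 + 1 / l - (y + 2) / l : ℝ) : ℂ) + t * Complex.I) /
      FH T c F (((1 + 1 / l : ℝ) : ℂ) + t * Complex.I) - 1‖ ^ 2 ≤
      Real.exp (10 * Jw l y * (UW c l y b T R t + 1 / R) *
        Real.exp (4 + 2 * C1w d Cn A + y + |t| / 2)) := by
  obtain ⟨ha0, hs0, hs1, ha'0, ha'1, hκ0, hκ⟩ := basic p
  have hl := p.l4
  have hl0 : 0 < l := by linarith
  have hy0 := p.y0
  have hll := p.ll
  have hR := p.R1
  have hR0 : 0 < R := by linarith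
  have hRT := p.RT
  have hT := p.T2
  have hT0 : 0 < T := by linarith
  have hb := p.b0
  have hb1 := p.b1
  have hlR : 0 ≤ Real.log R := Real.log_nonneg hR
  have hlRT : Real.log R ≤ Real.log T := Real.log_le_log hR0 hRT
  have hlC : 0 ≤ Real.log Cn := Real.log_nonneg hCn
  have hlog2 : 0 < Real.log 2 := Real.log_pos (by norm_num)
  have hlQ : 0 ≤ Real.log Q0 := Real.log_nonneg H.one_le
  have hU0 := UW_nonneg (c := c) p t
  have hC2 := C2_nonneg
  have hCw := Cw_ge
  have hC1 : 0 ≤ C1w d Cn A := by unfold C1w; positivity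
  have hJl := Jw_ge p
  have hJ0 : 0 < Jw l y := by linarith
  obtain ⟨m1, m2, m3⟩ := ker_moment p
  set J : ℝ := ∫ r : ℝ, ker l y b r * (|r| * Real.exp |r|) with hJdef
  set u : ℝ := UW c l y b T R t with hu
  set ε : ℝ := 1 / R with hε
  have hε0 : 0 < ε := by positivity
  have hε1 : ε ≤ 1 := by rw [hε, div_le_one hR0]; exact hR
  -- the choice of `q`
  set q : ℝ := √((u + ε) / Jw l y) with hqdef
  have hq : 0 < q := Real.sqrt_pos.2 (by positivity)
  have hq2 : q ^ 2 = (u + ε) / Jw l y := Real.sq_sqrt (by positivity)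
  set Ψ : ℝ := ∫ r : ℝ, ker l y b r *
    V (hi T c) (1 + 1 / l) q t (b / (1 + 2 * (1 / l)) * r) with hΨ
  have hΨ0 : 0 ≤ Ψ := integral_nonneg fun r => mul_nonneg (ker_nonneg p r) (V_nonneg hq t _)
  set Ψb : ℝ := 3 / 2 * (q * Jw l y) with hΨb
  have hΨle : Ψ ≤ Ψb := by
    have h1 := intV_leW H p hq t
    have h2 : q⁻¹ * (u + ε) = q * Jw l y := by
      have : u + ε = q ^ 2 * Jw l y := by rw [hq2]; field_simp
      rw [this]; field_simp
    have h3 : q⁻¹ * u ≤ q⁻¹ * (u + ε) := mul_le_mul_of_nonneg_left (by linarith) (by positivity)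
    rw [hΨb]
    linarith
  have hΨb0 : 0 ≤ Ψb := by positivity
  have hΨb2 : Ψb ^ 2 = 9 / 4 * (Jw l y * (u + ε)) := by
    have : (q * Jw l y) ^ 2 = Jw l y * (u + ε) := by
      rw [mul_pow, hq2]; field_simp
    rw [hΨb, mul_pow, this]; norm_num
  have hsl : 0 < √(l * R) := Real.sqrt_pos.2 (by positivity)
  set S : ℝ := Ψb + 1 / √(l * R) with hS
  have hS0 : 0 < S := by positivity
  have hS2 : S ^ 2 ≤ 10 * Jw l y * (u + ε) := by
    have h1 : (1 / √(l * R)) ^ 2 = 1 / l * ε := by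
      rw [div_pow, Real.sq_sqrt (by positivity), one_pow, hε]; field_simp
    have h2 : S ^ 2 ≤ 2 * Ψb ^ 2 + 2 * (1 / √(l * R)) ^ 2 := by
      have := add_sq_le (a := Ψb) (b := 1 / √(l * R))
      rw [hS]; linarith
    rw [h1, hΨb2] at h2
    have h3 : 1 / l * ε ≤ Jw l y * ε := mul_le_mul_of_nonneg_right hJl hε0.le
    have h4 : 0 ≤ Jw l y * u := by positivity
    have h5 : 0 ≤ Jw l y * ε := by positivity
    calc S ^ 2 ≤ 2 * (9 / 4 * (Jw l y * (u + ε))) + 2 * (1 / l * ε) := h2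
      _ ≤ 2 * (9 / 4 * (Jw l y * (u + ε))) + 2 * (Jw l y * ε) := by linarith
      _ ≤ _ := by linarith
  -- the exponent
  have hTT : ∀ lam : ℝ, 1 / √(l * R) ≤ lam → lam ≤ 1 →
      ‖FH T c F (((1 + 1 / l - (y + 2) / l : ℝ) : ℂ) + t * Complex.I) /
        FH T c F (((1 + 1 / l : ℝ) : ℂ) + t * Complex.I) - 1‖ ≤
      Real.exp (Real.log lam + (C1w d Cn A - 2) + y / 2 + |t| / 4 + (1 / lam + 1) * Ψ) := by
    intro lam hlam hlam1
    have hlam0 : 0 < lam := lt_of_lt_of_le (by positivity) hlam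
    have h1 := edge_winH H hd hCn hκ0 hκ ha0 hb hb1 ha'1 hlam0 hlam1 hq hT0 t
    refine h1.trans (Real.exp_le_exp.2 ?_)
    have hker : ∀ r, KK (1 / 2 + 1 / l) (π - π * ((y + 2) / l / (b / (1 + 2 * (1 / l)))) /
      (2 * (1 / 2 + 1 / l))) r = ker l y b r := fun r => rfl
    simp only [hker]
    rw [← hJdef, ← hΨ]
    set β : ℝ := (y + 2) / l / b with hβ
    have hβ0 : 0 ≤ β := by positivity
    have hβ1 : β ≤ 1 := by
      rw [hβ, div_le_one hb]
      linarith [p.ab]
    have hβb : β * b = (y + 2) / l := by rw [hβ]; field_simp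
    have hlog := Real.log_le_log (by positivity) hlam
    have hlogs : Real.log (1 / √(l * R)) = -(1 / 2 * (Real.log l + Real.log R)) := by
      rw [one_div, Real.log_inv, Real.log_sqrt (by positivity), Real.log_mul hl0.ne' hR0.ne']
      ring
    rw [hlogs] at hlog
    have h2 : (1 - β) * (Real.log lam - 1) ≤ Real.log lam + 1 := by
      have e2 := p.alog
      rw [← hβ] at e2
      have e3 : -(β * Real.log lam) ≤ β * (1 / 2 * (Real.log l + Real.log R)) := by
        have := mul_le_mul_of_nonneg_left hlog hβ0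
        linarith
      have e5 : β * (1 / 2 * (Real.log l + Real.log R)) ≤
          β * (1 / 2 * (Real.log l + Real.log T)) := by gcongr
      have e4 : (1 - β) * (Real.log lam - 1) = Real.log lam - 1 - β * Real.log lam + β := by ring
      rw [e4]
      linarith
    have hS0 := absG_nonneg c (1 + 1 / l)
    have hSb := absG_bound H hl hQl
    have j1 : β * (2 * absG c (1 + 1 / l) + (T ^ 4) ^ b * absG c (1 + 1 / l)) ≤
        25 * (C2 + |A|) := by
      have k1 : (T ^ 4) ^ b * absG c (1 + 1 / l) ≤ 3 * absG c (1 + 1 / l) :=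
        mul_le_mul_of_nonneg_right p.Tb hS0
      have k2 : 2 * absG c (1 + 1 / l) + (T ^ 4) ^ b * absG c (1 + 1 / l) ≤
          5 * (√l * (C2 + |A|)) := by linarith
      have k3 := mul_le_mul_of_nonneg_left k2 hβ0
      have hp6 := p.p6
      rw [← hβ] at hp6
      have k4 : β * (5 * (√l * (C2 + |A|))) = 5 * (β * √l) * (C2 + |A|) := by ring
      rw [k4] at k3
      have k5 : 5 * (β * √l) * (C2 + |A|) ≤ 5 * 5 * (C2 + |A|) := by gcongr
      linarith
    have j2 : β * (Real.log 2 + Real.log Cn + 32000 * d) ≤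
        1 * (Real.log 2 + Real.log Cn + 32000 * d) :=
      mul_le_mul_of_nonneg_right hβ1 (by positivity)
    have h3 : β * (Real.log 2 + (2 * absG c (1 + 1 / l) + (T ^ 4) ^ b * absG c (1 + 1 / l) +
        Real.log Cn + 32000 * d + b / 2 * (Real.log Q0 + d * Real.log (1 + |t|)))) ≤
        25 * (C2 + |A|) + Real.log 2 + Real.log Cn + 32000 * d + 1 + y / 2 + |t| / 4 := by
      have e0 : β * (Real.log 2 + (2 * absG c (1 + 1 / l) + (T ^ 4) ^ b * absG c (1 + 1 / l) +
        Real.log Cn + 32000 * d + b / 2 * (Real.log Q0 + d * Real.log (1 + |t|)))) =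
          β * (2 * absG c (1 + 1 / l) + (T ^ 4) ^ b * absG c (1 + 1 / l)) +
          β * (Real.log 2 + Real.log Cn + 32000 * d) +
          (β * b) / 2 * Real.log Q0 + (β * b) / 2 * (d * Real.log (1 + |t|)) := by ring
      rw [e0, hβb]
      have e2 : (y + 2) / l / 2 * Real.log Q0 ≤ (y + 2) / l / 2 * l :=
        mul_le_mul_of_nonneg_left hQl (by positivity)
      have e3 : (y + 2) / l / 2 * l = y / 2 + 1 := by field_simp
      have e4 : Real.log (1 + |t|) ≤ |t| := by
        have := Real.log_le_sub_one_of_pos (by positivity : 0 < 1 + |t|)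
        linarith
      have e5 : (y + 2) / l / 2 * (d * Real.log (1 + |t|)) ≤ (y + 2) / l / 2 * (d * |t|) := by
        gcongr
      have e6 : (y + 2) / l / 2 * (d * |t|) = ((y + 2) / l * d) * (|t| / 2) := by ring
      have e7 : ((y + 2) / l * d) * (|t| / 2) ≤ 1 / 2 * (|t| / 2) :=
        mul_le_mul_of_nonneg_right p.ad (by positivity)
      linarith
    have h4 : d * J ≤ 3 / 2 * Cw * d := by
      have := mul_le_mul_of_nonneg_left m3 hd
      linarith
    unfold C1w
    linarith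
  rcases le_or_gt S 1 with hcase | hcase
  · have h1 := hTT S (by rw [hS]; linarith) hcase
    have h2 : (1 / S + 1) * Ψ ≤ 2 := by
      have e1 : Ψ ≤ S := by
        have : 0 < 1 / √(l * R) := by positivity
        rw [hS]; linarith
      have e2 : 1 / S * Ψ ≤ 1 := by
        rw [one_div, inv_mul_le_iff₀ hS0]; linarith
      linarith
    have h3 : ‖FH T c F (((1 + 1 / l - (y + 2) / l : ℝ) : ℂ) + t * Complex.I) /
        FH T c F (((1 + 1 / l : ℝ) : ℂ) + t * Complex.I) - 1‖ ≤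
        S * Real.exp (C1w d Cn A + y / 2 + |t| / 4) := by
      refine h1.trans ?_
      have : S * Real.exp (C1w d Cn A + y / 2 + |t| / 4) =
          Real.exp (Real.log S + (C1w d Cn A + y / 2 + |t| / 4)) := by
        rw [Real.exp_add (Real.log S), Real.exp_log hS0]
      rw [this]
      apply Real.exp_le_exp.2
      linarith
    have h4 := pow_le_pow_left₀ (norm_nonneg _) h3 2
    have h5 : (S * Real.exp (C1w d Cn A + y / 2 + |t| / 4)) ^ 2 =
        S ^ 2 * Real.exp (2 * C1w d Cn A + y + |t| / 2) := by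
      rw [mul_pow, ← Real.exp_nat_mul]
      congr 2
      push_cast
      ring
    rw [h5] at h4
    have h6 : S ^ 2 * Real.exp (2 * C1w d Cn A + y + |t| / 2) ≤
        10 * Jw l y * (u + ε) * Real.exp (4 + 2 * C1w d Cn A + y + |t| / 2) := by
      have : Real.exp (2 * C1w d Cn A + y + |t| / 2) ≤
          Real.exp (4 + 2 * C1w d Cn A + y + |t| / 2) :=
        Real.exp_le_exp.2 (by linarith)
      gcongr
    have h7 := Real.add_one_le_exp
      (10 * Jw l y * (u + ε) * Real.exp (4 + 2 * C1w d Cn A + y + |t| / 2))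
    linarith
  · have h1 := hTT 1 (by
      rw [div_le_one hsl, Real.one_le_sqrt]
      nlinarith) le_rfl
    rw [Real.log_one] at h1
    set T2 : ℝ := C1w d Cn A + y / 2 + |t| / 4 + 2 * Ψb with hT2
    have hT20 : 0 ≤ T2 := by positivity
    have h2 : ‖FH T c F (((1 + 1 / l - (y + 2) / l : ℝ) : ℂ) + t * Complex.I) /
        FH T c F (((1 + 1 / l : ℝ) : ℂ) + t * Complex.I) - 1‖ ≤ Real.exp T2 := by
      refine h1.trans (Real.exp_le_exp.2 ?_)
      rw [hT2]
      linarith
    have h3 := pow_le_pow_left₀ (norm_nonneg _) h2 2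
    have h3' : Real.exp T2 ^ 2 = Real.exp (2 * T2) := by
      rw [← Real.exp_nat_mul]; norm_num
    rw [h3'] at h3
    have h4 : 1 + Real.exp (2 * T2) ≤ Real.exp (1 + 2 * T2) := by
      rw [Real.exp_add]
      have e1 := Real.add_one_le_exp (1:ℝ)
      have e2 : 1 ≤ Real.exp (2 * T2) := Real.one_le_exp (by positivity)
      have e3 := mul_le_mul_of_nonneg_right e1 (Real.exp_pos (2 * T2)).le
      linarith
    have hS1 : 1 ≤ S ^ 2 := one_le_pow₀ hcase.le
    have hSΨ : Ψb ≤ S ^ 2 := by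
      have : Ψb ≤ S := by
        have : 0 < 1 / √(l * R) := by positivity
        rw [hS]; linarith
      exact this.trans (le_self_pow₀ hcase.le two_ne_zero)
    have h5 : 1 + 2 * T2 ≤ (5 + 2 * C1w d Cn A + y + |t| / 2) * S ^ 2 := by
      rw [hT2]
      have e1 : 0 ≤ 1 + 2 * C1w d Cn A + y + |t| / 2 := by positivity
      have e2 := mul_le_mul_of_nonneg_left hS1 e1
      linarith
    have h6 : 5 + 2 * C1w d Cn A + y + |t| / 2 ≤
        Real.exp (4 + 2 * C1w d Cn A + y + |t| / 2) := by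
      have := Real.add_one_le_exp (4 + 2 * C1w d Cn A + y + |t| / 2)
      linarith
    have h7 : 1 + 2 * T2 ≤ 10 * Jw l y * (u + ε) *
        Real.exp (4 + 2 * C1w d Cn A + y + |t| / 2) := by
      have e1 : (5 + 2 * C1w d Cn A + y + |t| / 2) * S ^ 2 ≤
          Real.exp (4 + 2 * C1w d Cn A + y + |t| / 2) * (10 * Jw l y * (u + ε)) := by
        apply mul_le_mul h6 hS2 (by positivity) (by positivity)
      linarith
    have h8 := Real.exp_le_exp.2 h7
    linarith

/-- the constant in the local zero count -/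
noncomputable def Kx (d Cn A : ℝ) : ℝ := 40 + 800 * Cw * Real.exp (4 + 2 * C1w d Cn A) * Cw

/-- the local zero count -/
theorem zero_local (H : Hyp d Cn θ A Q0 c F) (hd : 0 ≤ d) (hCn : 1 ≤ Cn) {δ : ℝ} (hδ : 0 < δ)
    (hδθ : θ + δ + 2 * δ + (y + 2) / l ≤ 1 / 2)
    (p : ParX d l y b T R Cb) (hQl : Real.log Q0 ≤ l) {X : ℝ}
    (hX : X = (y + 2) / l * (BG (d * (T ^ 4) ^ (-δ)) δ / δ)) (hX1 : X ≤ 1 / 4)
    (hX2 : l * R * X ^ 2 ≤ 1) (S : Finset ℂ)
    (hS : ∀ ρ ∈ S, F ρ = 0 ∧ 1 - y / l ≤ ρ.re ∧ |ρ.im| ≤ 1 / 2) :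
    ∑ ρ ∈ S, (analyticOrderNatAt F ρ : ℝ) ≤
      Kx d Cn A * (Real.exp y * ((y + 2) * Real.log l) ^ 2 *
        (1 / R + EE (hi T c) (1 + 1 / l) 0 / l)) := by
  obtain ⟨ha0, hs0, hs1, ha'0, ha'1, hκ0, hκ⟩ := basic p
  have hl := p.l4
  have hl0 : 0 < l := by linarith
  have hy0 := p.y0
  have hll := p.ll
  have hR := p.R1
  have hR0 : 0 < R := by linarith
  have hT := p.T2
  have hT0 : 0 < T := by linarith
  have hC2 := C2_nonneg
  have hCw := Cw_ge
  have hlC : 0 ≤ Real.log Cn := Real.log_nonneg hCn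
  have hlog2 : 0 < Real.log 2 := Real.log_pos (by norm_num)
  have hC1 : 0 ≤ C1w d Cn A := by unfold C1w; positivity
  have hJl := Jw_ge p
  have hJ0 : 0 < Jw l y := by linarith
  have hR' := FH_hyp H hd hT0 hδ.le
  have hEE := EE_nonneg (c := hi T c) (σ := 1 + 1 / l) 0
  set ε : ℝ := 1 / R with hε
  have hε0 : 0 < ε := by positivity
  set W : ℝ := 10 * Jw l y * Real.exp (4 + 2 * C1w d Cn A + y) with hW
  have hW0 : 0 < W := by positivity
  set um : ℝ → ℝ := fun t => 10 * Jw l y * (UW c l y b T R t + ε) *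
    Real.exp (4 + 2 * C1w d Cn A + y + |t| / 2) with hum
  have hU0 : ∀ t, 0 ≤ UW c l y b T R t := UW_nonneg p
  obtain ⟨hUi, hUm⟩ := mean_UW H p
  have hKle : ∀ t, K (1 / 2) (π / 2) (-1) t ≤ Real.exp (-(π * |t|)) := by
    intro t
    have h1 := K_le_exp (h := 1 / 2) (by norm_num) half_mem (Or.inr rfl : (-1:ℝ) = 1 ∨ (-1:ℝ) = -1) t
    rw [Real.cos_pi_div_two, abs_zero] at h1
    norm_num at h1
    exact h1
  have hKum : ∀ t, K (1 / 2) (π / 2) (-1) t * um t ≤
      2 * W * (k0 t * UW c l y b T R t + ε * k0 t) := by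
    intro t
    have h1 := hKle t
    have h2 : Real.exp (-(π * |t|)) * Real.exp (|t| / 2) ≤ Real.exp (-|t|) := by
      rw [← Real.exp_add]
      apply Real.exp_le_exp.2
      have := Real.pi_gt_three
      nlinarith [abs_nonneg t]
    have h3 : um t = W * (UW c l y b T R t + ε) * Real.exp (|t| / 2) := by
      simp only [hum, hW]
      rw [Real.exp_add (4 + 2 * C1w d Cn A + y) (|t| / 2)]
      ring
    have h4 : 0 ≤ W * (UW c l y b T R t + ε) := by
      have := hU0 t
      positivity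
    rw [h3]
    calc K (1 / 2) (π / 2) (-1) t * (W * (UW c l y b T R t + ε) * Real.exp (|t| / 2)) ≤
        Real.exp (-(π * |t|)) * (W * (UW c l y b T R t + ε) * Real.exp (|t| / 2)) := by
          refine mul_le_mul_of_nonneg_right h1 (by positivity)
      _ = (W * (UW c l y b T R t + ε)) * (Real.exp (-(π * |t|)) * Real.exp (|t| / 2)) := by ring
      _ ≤ (W * (UW c l y b T R t + ε)) * Real.exp (-|t|) := mul_le_mul_of_nonneg_left h2 h4
      _ = _ := by unfold k0; ring
  have hdom : Integrable (fun t => 2 * W * (k0 t * UW c l y b T R t + ε * k0 t)) :=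
    (hUi.add (k0_int.const_mul ε)).const_mul _
  have hum0 : ∀ t, 0 ≤ um t := by
    intro t
    have h2 := hU0 t
    simp only [hum]
    positivity
  have hKum0 : ∀ t, 0 ≤ K (1 / 2) (π / 2) (-1) t * um t := by
    intro t
    have h1 := K_pos (h := 1 / 2) (by norm_num) half_mem
      (Or.inr rfl : (-1:ℝ) = 1 ∨ (-1:ℝ) = -1) t
    exact mul_nonneg h1.le (hum0 t)
  have hmeas : AEStronglyMeasurable (UW c l y b T R) volume := by
    have h1 : UW c l y b T R = fun t => (k0 t)⁻¹ * (k0 t * UW c l y b T R t) := by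
      funext t
      have : k0 t ≠ 0 := by unfold k0; positivity
      field_simp
    rw [h1]
    refine AEStronglyMeasurable.mul (Continuous.aestronglyMeasurable ?_) hUi.aestronglyMeasurable
    refine k0_cont.inv₀ fun t => ?_
    unfold k0; positivity
  have humi : Integrable (fun t => K (1 / 2) (π / 2) (-1) t * um t) := by
    refine hdom.mono' ?_ (Eventually.of_forall fun t => ?_)
    · refine (K_continuous (by norm_num) half_mem (Or.inr rfl)).aestronglyMeasurable.mul ?_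
      simp only [hum]
      refine AEStronglyMeasurable.mul ?_ (Continuous.aestronglyMeasurable (by fun_prop))
      exact (hmeas.add aestronglyMeasurable_const).const_mul _
    · rw [Real.norm_of_nonneg (hKum0 t)]
      exact hKum t
  have hint : ∫ t, K (1 / 2) (π / 2) (-1) t * um t ≤
      2 * W * ((1 / 2 * ε + 2 * EE (hi T c) (1 + 1 / l) 0) * Jw l y + ε) := by
    refine (integral_mono humi hdom hKum).trans ?_
    rw [integral_const_mul, integral_add hUi (k0_int.const_mul ε), integral_const_mul, k0_mass]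
    have : 0 ≤ 2 * W := by positivity
    exact mul_le_mul_of_nonneg_left (by linarith) this
  have hdd : 0 ≤ d * (T ^ 4) ^ (-δ) := by positivity
  have key := zero_abs hR' hdd hδ hκ0 hκ ha0 p.a16 hδθ hX hX1 hum0 humi hint
    (fun t => H_boundW H hd hCn p hQl t) S (fun ρ hρ => by
      obtain ⟨a1, a2, a3⟩ := hS ρ hρ
      refine ⟨FH_zero a1, ?_, a3⟩
      have : 1 + 2 * (1 / l) - (y + 2) / l = 1 - y / l := by ring
      rw [this]
      exact a2)
  have hord : ∑ ρ ∈ S, (analyticOrderNatAt (FH T c F) ρ : ℝ) =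
      ∑ ρ ∈ S, (analyticOrderNatAt F ρ : ℝ) := by
    refine Finset.sum_congr rfl fun ρ _ => ?_
    rw [FH_order H.diff]
  rw [hord] at key
  -- the final bound
  set w : ℝ := (y + 2) * Real.log l with hw
  have hw1 : 1 ≤ w := by rw [hw]; nlinarith
  have hlJ : l * Jw l y = Cw * w := by
    unfold Jw; rw [← hw]; field_simp
  have hN2 : ∑ ρ ∈ S, (analyticOrderNatAt F ρ : ℝ) ≤ 4 * l * (10 * X ^ 2 +
      2 * W * ((1 / 2 * ε + 2 * EE (hi T c) (1 + 1 / l) 0) * Jw l y + ε)) := by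
    have h1 := mul_le_mul_of_nonneg_left key (by positivity : 0 ≤ 4 * l)
    have h2 : 4 * l * (1 / l / 4 * ∑ ρ ∈ S, (analyticOrderNatAt F ρ : ℝ)) =
        ∑ ρ ∈ S, (analyticOrderNatAt F ρ : ℝ) := by
      field_simp
    rw [h2] at h1
    exact h1
  refine hN2.trans ?_
  have hey : 1 ≤ Real.exp y := Real.one_le_exp hy0
  have hw2 : 1 ≤ w ^ 2 := one_le_pow₀ hw1
  have h1 : 4 * l * (10 * X ^ 2) ≤ 40 * (Real.exp y * w ^ 2 * (ε + EE (hi T c) (1 + 1 / l) 0 / l)) := by
    have e1 : l * X ^ 2 ≤ ε := by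
      rw [hε, le_div_iff₀ hR0]
      linarith
    have e2 : 1 ≤ Real.exp y * w ^ 2 := one_le_mul_of_one_le_of_one_le hey hw2
    have e3 : 0 ≤ EE (hi T c) (1 + 1 / l) 0 / l := by positivity
    have e4 : ε ≤ Real.exp y * w ^ 2 * (ε + EE (hi T c) (1 + 1 / l) 0 / l) := by
      have : 1 * (ε + 0) ≤ Real.exp y * w ^ 2 * (ε + EE (hi T c) (1 + 1 / l) 0 / l) := by
        apply mul_le_mul e2 (by linarith) (by linarith) (by positivity)
      linarith
    linarith
  have h2 : 4 * l * (2 * W * ((1 / 2 * ε + 2 * EE (hi T c) (1 + 1 / l) 0) * Jw l y + ε)) ≤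
      800 * Cw * Real.exp (4 + 2 * C1w d Cn A) * Cw *
        (Real.exp y * w ^ 2 * (ε + EE (hi T c) (1 + 1 / l) 0 / l)) := by
    have e1 : l * W = 10 * (Cw * w) * (Real.exp (4 + 2 * C1w d Cn A) * Real.exp y) := by
      rw [hW, Real.exp_add, ← hlJ]; ring
    have e2 : (1 / 2 * ε + 2 * EE (hi T c) (1 + 1 / l) 0) * Jw l y + ε ≤
        (Cw * w) * (2 * (ε + EE (hi T c) (1 + 1 / l) 0 / l)) := by
      have f1 : Jw l y = Cw * w / l := by rw [← hlJ]; field_simp
      have f2 : 1 ≤ Cw * w := one_le_mul_of_one_le_of_one_le hCw hw1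
      have f3 : (1 / 2 * ε + 2 * EE (hi T c) (1 + 1 / l) 0) * Jw l y =
          (Cw * w) * (1 / 2 * (ε / l) + 2 * (EE (hi T c) (1 + 1 / l) 0 / l)) := by
        rw [f1]; field_simp
      rw [f3]
      have f4 : ε / l ≤ ε := by
        rw [div_le_iff₀ hl0]; nlinarith
      have f5 : ε ≤ (Cw * w) * ε := by nlinarith
      have f6 : (Cw * w) * (1 / 2 * (ε / l) + 2 * (EE (hi T c) (1 + 1 / l) 0 / l)) ≤
          (Cw * w) * (1 / 2 * ε + 2 * (EE (hi T c) (1 + 1 / l) 0 / l)) := by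
        gcongr
      have f7 : 0 ≤ (Cw * w) * ε := by positivity
      calc (Cw * w) * (1 / 2 * (ε / l) + 2 * (EE (hi T c) (1 + 1 / l) 0 / l)) + ε ≤
          (Cw * w) * (1 / 2 * ε + 2 * (EE (hi T c) (1 + 1 / l) 0 / l)) + (Cw * w) * ε := by
            linarith
        _ = (Cw * w) * (2 * (ε + EE (hi T c) (1 + 1 / l) 0 / l)) - 1 / 2 * ((Cw * w) * ε) := by
            ring
        _ ≤ _ := by linarith
    have e3 : 0 ≤ 8 * (l * W) := by positivity
    calc 4 * l * (2 * W * ((1 / 2 * ε + 2 * EE (hi T c) (1 + 1 / l) 0) * Jw l y + ε)) =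
        8 * (l * W) * ((1 / 2 * ε + 2 * EE (hi T c) (1 + 1 / l) 0) * Jw l y + ε) := by ring
      _ ≤ 8 * (l * W) * ((Cw * w) * (2 * (ε + EE (hi T c) (1 + 1 / l) 0 / l))) :=
          mul_le_mul_of_nonneg_left e2 e3
      _ = 160 * Cw * Real.exp (4 + 2 * C1w d Cn A) * Cw *
        (Real.exp y * w ^ 2 * (ε + EE (hi T c) (1 + 1 / l) 0 / l)) := by rw [e1]; ring
      _ ≤ _ := by
          have : 0 ≤ Cw * Real.exp (4 + 2 * C1w d Cn A) * Cw *
            (Real.exp y * w ^ 2 * (ε + EE (hi T c) (1 + 1 / l) 0 / l)) := by positivity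
          linarith
  unfold Kx
  linarith

end

end Pool.Agent.R402.Win
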