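import Mathlib
import Pool.Agent.R402.W6
import Pool.Agent.R402.Unif

/-!
# The pointwise bound in terms of the local mean square, uniformly
-/

set_option autoImplicit false

open MeasureTheory Filter Topology Set Real
open scoped ArithmeticFunction.vonMangoldt

namespace Pool.Agent.R402.Win

open Pool.Agent.R402.MeanSq Pool.Agent.R402.Ser Pool.Agent.R402.Core Pool.Agent.R402.Fin

/-- the conditions on the size -/
structure Big (l δ : ℝ) : Prop where
  l4 : 4 ≤ l
  ll : 1 ≤ Real.log l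
  u1 : 1 + Real.log l ≤ l ^ (1 / 4 : ℝ) / 10
  u2 : 10 ≤ l ^ (1 / 4 : ℝ)
  u3 : 2 * l ^ (1 / 4 : ℝ) ≤ δ * l

lemma big_eventually {δ : ℝ} (hδ : 0 < δ) : ∀ᶠ l : ℝ in atTop, Big l δ := by
  have t0 : Tendsto (fun l : ℝ => l ^ (1 / 4 : ℝ)) atTop atTop := tendsto_rpow_atTop (by norm_num)
  have e1 : ∀ᶠ l : ℝ in atTop, 4 ≤ l := eventually_ge_atTop 4
  have e2 : ∀ᶠ l : ℝ in atTop, 1 ≤ Real.log l := tendsto_log_atTop.eventually_ge_atTop 1
  have e3 : ∀ᶠ l : ℝ in atTop, ‖Real.log l‖ ≤ 1 / 20 * ‖l ^ (1 / 4 : ℝ)‖ :=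
    (isLittleO_log_rpow_atTop (by norm_num : (0:ℝ) < 1 / 4)).bound (by norm_num)
  have e4 : ∀ᶠ l : ℝ in atTop, 20 ≤ l ^ (1 / 4 : ℝ) := t0.eventually_ge_atTop 20
  have e5 : ∀ᶠ l : ℝ in atTop, 2 / δ ≤ l ^ (3 / 4 : ℝ) :=
    (tendsto_rpow_atTop (by norm_num)).eventually_ge_atTop _
  filter_upwards [e1, e2, e3, e4, e5] with l h1 h2 h3 h4 h5
  have hl0 : 0 < l := by linarith
  rw [Real.norm_of_nonneg (by linarith), Real.norm_of_nonneg (by positivity)] at h3
  refine ⟨h1, h2, by linarith, by linarith, ?_⟩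
  have h6 : l ^ (1 / 4 : ℝ) * l ^ (3 / 4 : ℝ) = l := by
    rw [← Real.rpow_add hl0]; norm_num
  have h7 : 0 < l ^ (1 / 4 : ℝ) := by positivity
  rw [div_le_iff₀ hδ] at h5
  calc 2 * l ^ (1 / 4 : ℝ) ≤ (l ^ (3 / 4 : ℝ) * δ) * l ^ (1 / 4 : ℝ) :=
        mul_le_mul_of_nonneg_right h5 h7.le
    _ = δ * (l ^ (1 / 4 : ℝ) * l ^ (3 / 4 : ℝ)) := by ring
    _ = _ := by rw [h6]

/-- the width of the inner strip -/
noncomputable def bT (T : ℝ) : ℝ := 1 / (4 * (1 + Real.log T))

/-- the logarithmic factor -/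
noncomputable def WT (l T : ℝ) : ℝ := 1 + Real.log l + Real.log T

lemma parW_of {l δ T y : ℝ} (h : Big l δ) (hT : 2 ≤ T) (hTl : Real.log T ≤ l ^ (1 / 4 : ℝ))
    (hy0 : 0 ≤ y) (hy : y + 1 ≤ WT l T) : ParW l y δ (bT T) T := by
  have hl := h.l4
  have hl0 : 0 < l := by linarith
  set u : ℝ := l ^ (1 / 4 : ℝ) with hu
  have hu4 : u ^ 4 = l := by
    rw [hu, ← Real.rpow_natCast, ← Real.rpow_mul hl0.le]
    norm_num
  have hu10 := h.u2
  rw [← hu] at hu10
  have hu0 : 0 < u := by linarith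
  have hsq : √l = u ^ 2 := by
    rw [← hu4, show u ^ 4 = (u ^ 2) ^ 2 by ring, Real.sqrt_sq (by positivity)]
  have h1 := h.u1
  rw [← hu] at h1
  have hll := h.ll
  have hlT2 : Real.log 2 ≤ Real.log T := Real.log_le_log (by norm_num) hT
  have hl2 := Real.log_two_gt_d9
  have hlT : 0 < Real.log T := by linarith
  have hT0 : 0 < T := by linarith
  have hW : WT l T ≤ 11 / 10 * u := by unfold WT; linarith
  have hV : 1 + Real.log T ≤ 11 / 10 * u := by linarith
  have hyW : y + 1 ≤ 11 / 10 * u := hy.trans hW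
  have hb : bT T = 1 / (4 * (1 + Real.log T)) := rfl
  have hb0 : 0 < bT T := by rw [hb]; positivity
  have hbinv : ∀ z : ℝ, z / bT T = z * (4 * (1 + Real.log T)) := by
    intro z; rw [hb]; field_simp
  have hu2 : 100 ≤ u ^ 2 := by nlinarith
  have hu3 : 1000 ≤ u ^ 3 := by nlinarith
  refine ⟨hl, hll, hT, hy0, ?_, ?_, hb0, ?_, ?_, ?_, ?_, ?_, ?_, ?_⟩
  · rw [div_le_iff₀ hl0, ← hu4]
    nlinarith
  · rw [div_le_iff₀ hl0]
    have := h.u3
    rw [← hu] at this
    linarith
  · rw [hb, div_le_div_iff₀ (by positivity) (by norm_num)]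
    linarith
  · have e1 : (T ^ 4) ^ bT T = Real.exp (Real.log T / (1 + Real.log T)) := by
      rw [Real.rpow_def_of_pos (by positivity), Real.log_pow, hb]
      congr 1
      push_cast
      field_simp
    rw [e1]
    have e2 : Real.log T / (1 + Real.log T) ≤ 1 := by
      rw [div_le_one (by positivity)]; linarith
    have e3 := Real.exp_le_exp.2 e2
    have e4 := Real.exp_one_lt_d9
    linarith
  · rw [hb, div_div, div_le_div_iff₀ hl0 (by positivity), one_mul, ← hu4]
    have e1 : (y + 1) * (4 * (1 + Real.log T) * 3) ≤ (11 / 10 * u) * (4 * (11 / 10 * u) * 3) := by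
      gcongr
    nlinarith
  · rw [hbinv]
    have e1 : (y + 1) / l * (4 * (1 + Real.log T)) * ((y + 1) / 2 + 1) =
        ((y + 1) * (4 * (1 + Real.log T)) * ((y + 1) / 2 + 1)) / l := by ring
    rw [e1, div_le_one hl0, ← hu4]
    have e2 : (y + 1) * (4 * (1 + Real.log T)) * ((y + 1) / 2 + 1) ≤
        (11 / 10 * u) * (4 * (11 / 10 * u)) * ((11 / 10 * u) / 2 + 1) := by
      gcongr
    nlinarith
  · rw [hbinv, hsq]
    have e1 : (y + 1) / l * (4 * (1 + Real.log T)) * u ^ 2 =
        ((y + 1) * (4 * (1 + Real.log T)) * u ^ 2) / l := by ring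
    rw [e1, div_le_iff₀ hl0, ← hu4]
    have e2 : (y + 1) * (4 * (1 + Real.log T)) * u ^ 2 ≤
        (11 / 10 * u) * (4 * (11 / 10 * u)) * u ^ 2 := by
      gcongr
    nlinarith [pow_pos hu0 4]
  · rw [hbinv]
    have e1 : (y + 1) / l * (4 * (1 + Real.log T)) * Real.log l =
        ((y + 1) * (4 * (1 + Real.log T)) * Real.log l) / l := by ring
    rw [e1, div_le_one hl0]
    have e2 : (y + 1) * (4 * (1 + Real.log T)) * Real.log l ≤
        (11 / 10 * u) * (4 * (11 / 10 * u)) * (u / 10) := by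
      have : Real.log l ≤ u / 10 := by linarith
      gcongr
    have e3 : (11 / 10 * u) * (4 * (11 / 10 * u)) * (u / 10) ≤ u ^ 4 := by nlinarith
    linarith
  · have e1 : √(l * Real.log T) ≤ u ^ 2 * (u / 3) := by
      rw [Real.sqrt_mul hl0.le, hsq]
      refine mul_le_mul_of_nonneg_left ?_ (by positivity)
      have e2 : √(Real.log T) ≤ √((u / 3) ^ 2) := by
        apply Real.sqrt_le_sqrt
        nlinarith
      rwa [Real.sqrt_sq (by positivity)] at e2
    have e2 : (y + 1) / l * √(l * Real.log T) = ((y + 1) * √(l * Real.log T)) / l := by ring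
    rw [e2, div_le_one hl0, ← hu4]
    have e3 : (y + 1) * √(u ^ 4 * Real.log T) ≤ (11 / 10 * u) * (u ^ 2 * (u / 3)) := by
      rw [hu4]
      exact mul_le_mul hyW e1 (Real.sqrt_nonneg _) (by positivity)
    nlinarith [pow_pos hu0 4]

section
variable {d Cn θ : ℝ}

/-- the pointwise bound, with the local mean square of the high part -/
theorem point_win (A : ℝ) (hd : 0 ≤ d) (hCn : 1 ≤ Cn) (hθ : θ < 1 / 2) {M : ℝ} (hM : 0 ≤ M) :
    ∃ B l0 : ℝ, 0 ≤ B ∧ 4 ≤ l0 ∧ ∀ l T Q0 : ℝ, l0 ≤ l → 2 ≤ T → Real.log T ≤ l ^ (1 / 4 : ℝ) →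
      Real.log Q0 ≤ l → l ≤ Real.log Q0 + M * (1 + Real.log T) →
      ∀ (c : ℕ → ℂ) (F : ℂ → ℂ), Hyp d Cn θ A Q0 c F →
        ‖F (1 / 2)‖ ^ 2 ≤ B * (Q0 ^ (1 / 2 : ℝ) * ((WT l T * Real.log l) ^ 2 / l ^ 2 *
          (EE (hi T c) (1 + 1 / l) 0 + l / T))) := by
  set δ : ℝ := (1 / 2 - θ) / 2 with hδdef
  have hδ : 0 < δ := by linarith
  have hδθ : θ + 2 * δ ≤ 1 / 2 := by rw [hδdef]; linarith
  obtain ⟨l1, hl1⟩ := eventually_atTop.1 (big_eventually hδ)
  obtain ⟨l2, hl2⟩ := eventually_atTop.1 (par_eventually hδ)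
  refine ⟨Real.exp (2 * |K2 d Cn δ A| + 2 * |K0 d Cn δ A| + M), max 4 (max l1 l2), by positivity,
    le_max_left _ _, ?_⟩
  intro l T Q0 hl hT hTl hQl hlQ' c F H
  have hl4 : 4 ≤ l := (le_max_left _ _).trans hl
  have hbig := hl1 l (((le_max_left _ _).trans (le_max_right _ _)).trans hl)
  have hpar := hl2 l (((le_max_right _ _).trans (le_max_right _ _)).trans hl)
  have hl0 : 0 < l := by linarith
  have hT0 : 0 < T := by linarith
  have hQ := H.one_le
  have hQ0 : 0 < Q0 := by linarith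
  have hlQ : 0 ≤ Real.log Q0 := Real.log_nonneg hQ
  have hll := hbig.ll
  have hlT2 : Real.log 2 ≤ Real.log T := Real.log_le_log (by norm_num) hT
  have hl2 := Real.log_two_gt_d9
  have hlT : 0 < Real.log T := by linarith
  set W : ℝ := WT l T with hW
  have hWdef : W = 1 + Real.log l + Real.log T := rfl
  have hW1 : 1 ≤ W := by rw [hWdef]; linarith
  set E : ℝ := EE (hi T c) (1 + 1 / l) 0 + l / T with hEdef
  have hEE : 0 ≤ EE (hi T c) (1 + 1 / l) 0 := EE_nonneg 0
  have hlT0 : 0 < l / T := by positivity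
  have hE : 0 < E := by rw [hEdef]; linarith
  have hsE : 0 < √E := Real.sqrt_pos.2 hE
  have hsE2 : √E ^ 2 = E := Real.sq_sqrt hE.le
  have hQr : 0 ≤ Q0 ^ (1 / 2 : ℝ) := Real.rpow_nonneg hQ0.le _
  have hQexp : Q0 ^ (1 / 2 : ℝ) = Real.exp (1 / 2 * Real.log Q0) := by
    rw [Real.rpow_def_of_pos hQ0, mul_comm]
  set z : ℝ := √E * (W * Real.log l) with hz
  have hz0 : 0 < z := by positivity
  have hz2 : (W * Real.log l) ^ 2 / l ^ 2 * E = (z / l) ^ 2 := by
    rw [hz, div_pow, mul_pow √E, hsE2]; ring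
  rw [hz2]
  rcases le_or_gt z l with hzl | hzl
  · -- the main case
    set y : ℝ := 2 * Real.log (l / z) with hy
    have hlz : 1 ≤ l / z := by rw [le_div_iff₀ hz0]; linarith
    have hy0 : 0 ≤ y := by
      have := Real.log_nonneg hlz
      rw [hy]; linarith
    have hey : Real.exp (y / 2) = l / z := by
      rw [hy, mul_div_cancel_left₀ _ (by norm_num : (2:ℝ) ≠ 0), Real.exp_log (by positivity)]
    have hyW : y + 1 ≤ W := by
      have e1 : l / z ≤ √(l * T) := by
        have e2 : √(l / T) ≤ z := by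
          have e3 : √(l / T) ≤ √E := Real.sqrt_le_sqrt (by rw [hEdef]; linarith)
          have e4 : √E * 1 ≤ √E * (W * Real.log l) := by
            refine mul_le_mul_of_nonneg_left ?_ hsE.le
            nlinarith
          rw [hz]; linarith
        have e3 : 0 < √(l / T) := Real.sqrt_pos.2 hlT0
        calc l / z ≤ l / √(l / T) := by gcongr
          _ = √(l * T) := by
              rw [div_eq_iff e3.ne', ← Real.sqrt_mul (by positivity)]
              have : l * T * (l / T) = l ^ 2 := by field_simp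
              rw [this, Real.sqrt_sq hl0.le]
      have e2 := Real.log_le_log (by positivity) e1
      rw [Real.log_sqrt (by positivity), Real.log_mul hl0.ne' hT0.ne'] at e2
      rw [hy, hWdef]
      linarith
    have p := parW_of hbig hT hTl hy0 hyW
    have hE2 : Real.exp (y / 2) * √E * ((y + 1) * Real.log l) ≤ l := by
      rw [hey]
      have e1 : l / z * √E * ((y + 1) * Real.log l) ≤ l / z * √E * (W * Real.log l) := by
        gcongr
      refine e1.trans (le_of_eq ?_)
      have : l / z * √E * (W * Real.log l) = l / z * z := by rw [hz]; ring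
      rw [this]; field_simp
    have h1 := core_win H hd hCn hδ hδθ p hQl hE (by rw [hEdef]; linarith) hE2
    have h2 : ‖F (1 / 2)‖ ^ 2 ≤
        Real.exp (K2 d Cn δ A + (1 / 2 - y / l) / 2 * Real.log Q0) ^ 2 :=
      pow_le_pow_left₀ (norm_nonneg _) h1 2
    refine h2.trans ?_
    have h3 : (z / l) ^ 2 = Real.exp (-y) := by
      have : z / l = Real.exp (-(y / 2)) := by
        rw [Real.exp_neg, hey, inv_div]
      rw [this, ← Real.exp_nat_mul]
      congr 1
      push_cast
      ring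
    rw [h3, hQexp, ← Real.exp_nat_mul, ← Real.exp_add, ← Real.exp_add]
    apply Real.exp_le_exp.2
    -- the exponent
    have h4 : y / l * (l - Real.log Q0) ≤ M := by
      have e1 : l - Real.log Q0 ≤ M * (1 + Real.log T) := by linarith
      have e2 : y / l * (l - Real.log Q0) ≤ y / l * (M * (1 + Real.log T)) :=
        mul_le_mul_of_nonneg_left e1 (by positivity)
      have hp5 := p.p5
      have hb : bT T = 1 / (4 * (1 + Real.log T)) := rfl
      have e3 : (y + 1) / l / bT T = (y + 1) / l * (4 * (1 + Real.log T)) := by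
        rw [hb]; field_simp
      rw [e3] at hp5
      have e4 : y / l * (1 + Real.log T) ≤ 1 := by
        have e5 : 0 ≤ (y + 1) / l * (4 * (1 + Real.log T)) := by positivity
        have e6 : (y + 1) / l * (4 * (1 + Real.log T)) ≤ 1 := by nlinarith
        have e7 : y / l ≤ (y + 1) / l := by gcongr; linarith
        have e8 : y / l * (1 + Real.log T) ≤ (y + 1) / l * (1 + Real.log T) := by gcongr
        nlinarith
      calc y / l * (l - Real.log Q0) ≤ M * (y / l * (1 + Real.log T)) := by linarith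
        _ ≤ M * 1 := mul_le_mul_of_nonneg_left e4 hM
        _ = M := mul_one M
    have h5 : y / l * l = y := by field_simp
    have h6 : y / l * Real.log Q0 ≥ y - M := by
      rw [mul_sub, h5] at h4
      linarith
    push_cast
    have h7 := le_abs_self (K2 d Cn δ A)
    have h8 := abs_nonneg (K0 d Cn δ A)
    nlinarith
  · -- the degenerate case
    have h1 := core_bound H hd hCn hδ hδθ hpar hQl
    have h2 := pow_le_pow_left₀ (norm_nonneg _) h1 2
    refine h2.trans ?_
    have h3 : 1 ≤ (z / l) ^ 2 := by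
      have : 1 ≤ z / l := by rw [le_div_iff₀ hl0]; linarith
      exact one_le_pow₀ this
    rw [← Real.exp_nat_mul]
    have hp0 := hpar.y0
    have h4 : Real.exp (((2 : ℕ) : ℝ) * (K0 d Cn δ A + (1 / 2 -
        (Real.log l - 4 * Real.log (Real.log l)) / l) / 2 * Real.log Q0)) ≤
        Real.exp (2 * |K2 d Cn δ A| + 2 * |K0 d Cn δ A| + M) * Q0 ^ (1 / 2 : ℝ) := by
      rw [hQexp, ← Real.exp_add]
      apply Real.exp_le_exp.2
      have h5 := le_abs_self (K0 d Cn δ A)
      have h6 := abs_nonneg (K2 d Cn δ A)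
      have h7 : 0 ≤ (Real.log l - 4 * Real.log (Real.log l)) / l * Real.log Q0 := by positivity
      push_cast
      nlinarith
    refine h4.trans ?_
    have h5 : 0 ≤ Real.exp (2 * |K2 d Cn δ A| + 2 * |K0 d Cn δ A| + M) := (Real.exp_pos _).le
    refine mul_le_mul_of_nonneg_left ?_ h5
    exact le_mul_of_one_le_right hQr h3

end

end Pool.Agent.R402.Win
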