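import Mathlib
import Pool.Agent.R402.W7
import Pool.Agent.R402.W10

/-!
# The zero count over a window
-/

set_option autoImplicit false

open MeasureTheory Filter Topology Set Real
open scoped ArithmeticFunction.vonMangoldt

namespace Pool.Agent.R402.Win

open Pool.Agent.R402.MeanSq Pool.Agent.R402.Ser Pool.Agent.R402.Core Pool.Agent.R402.Fin
open Pool.Agent.R402.Eul

lemma Sup_mono {R T : ℝ} {c : ℕ → ℂ} (hR : 0 ≤ R) (h : R ≤ T) (hc : Sup T c) : Sup R c :=
  fun n hn => hc n (hn.trans (pow_le_pow_left₀ hR h 4))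

lemma BG_mul (d z δ : ℝ) : BG (d * z) δ = z * BG d δ := by
  unfold BG; ring

/-- the size conditions -/
structure BigZ (d δ l : ℝ) : Prop where
  l4 : 4 ≤ l
  ll : 1 ≤ Real.log l
  lu : Real.log l ≤ l ^ (1 / 4 : ℝ)
  u1 : 10 + 1 / δ + d + BG d δ / δ ≤ l ^ (1 / 4 : ℝ)

lemma bigZ_eventually {d δ : ℝ} : ∀ᶠ l : ℝ in atTop, BigZ d δ l := by
  have t0 : Tendsto (fun l : ℝ => l ^ (1 / 4 : ℝ)) atTop atTop := tendsto_rpow_atTop (by norm_num)
  have e1 : ∀ᶠ l : ℝ in atTop, 4 ≤ l := eventually_ge_atTop 4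
  have e2 : ∀ᶠ l : ℝ in atTop, 1 ≤ Real.log l := tendsto_log_atTop.eventually_ge_atTop 1
  have e3 : ∀ᶠ l : ℝ in atTop, ‖Real.log l‖ ≤ 1 * ‖l ^ (1 / 4 : ℝ)‖ :=
    (isLittleO_log_rpow_atTop (by norm_num : (0:ℝ) < 1 / 4)).bound (by norm_num)
  have e4 : ∀ᶠ l : ℝ in atTop, 10 + 1 / δ + d + BG d δ / δ ≤ l ^ (1 / 4 : ℝ) :=
    t0.eventually_ge_atTop _
  filter_upwards [e1, e2, e3, e4] with l h1 h2 h3 h4
  have hl0 : 0 < l := by linarith
  rw [Real.norm_of_nonneg (by linarith), Real.norm_of_nonneg (by positivity)] at h3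
  exact ⟨h1, h2, by linarith, h4⟩

lemma parX_of {d θ δ l y T R : ℝ} (hd : 0 ≤ d) (hδ : 0 < δ) (hθ : θ + 8 * δ ≤ 1 / 2)
    (h : BigZ d δ l) (hy0 : 0 ≤ y) (hy : y + 2 ≤ l ^ (1 / 4 : ℝ) / 4) (hR : 2 ≤ R)
    (hT : T = R ^ (1 + 1 / (8 * δ))) (hTl : 1 + Real.log T ≤ l ^ (1 / 4 : ℝ) / 4) :
    ParX d l y (bT T) T R (BG d δ / δ) ∧ θ + δ + 2 * δ + (y + 2) / l ≤ 1 / 2 ∧
      (y + 2) / l * (BG (d * (T ^ 4) ^ (-δ)) δ / δ) ≤ 1 / 4 ∧
      l * R * ((y + 2) / l * (BG (d * (T ^ 4) ^ (-δ)) δ / δ)) ^ 2 ≤ 1 := by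
  have hl := h.l4
  have hl0 : 0 < l := by linarith
  set u : ℝ := l ^ (1 / 4 : ℝ) with hu
  have hu4 : u ^ 4 = l := by
    rw [hu, ← Real.rpow_natCast, ← Real.rpow_mul hl0.le]
    norm_num
  have hBG : 0 ≤ BG d δ / δ := div_nonneg (BG_nonneg hd) hδ.le
  set Cb : ℝ := BG d δ / δ with hCb
  have hu1 := h.u1
  rw [← hu, ← hCb] at hu1
  have hδ' : 0 < 1 / δ := by positivity
  have hu10 : 10 ≤ u := by linarith
  have hud : d ≤ u := by linarith
  have huδ : 1 / δ ≤ u := by linarith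
  have huC : Cb ≤ u := by linarith
  have hu0 : 0 < u := by linarith
  have hsq : √l = u ^ 2 := by
    rw [← hu4, show u ^ 4 = (u ^ 2) ^ 2 by ring, Real.sqrt_sq (by positivity)]
  have hll := h.ll
  have hlu := h.lu
  rw [← hu] at hlu
  have hR0 : 0 < R := by linarith
  have hR1 : 1 ≤ R := by linarith
  have hk : 1 ≤ 1 + 1 / (8 * δ) := by
    have : 0 < 1 / (8 * δ) := by positivity
    linarith
  have hRT : R ≤ T := by
    rw [hT]
    calc R = R ^ (1:ℝ) := (Real.rpow_one R).symm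
      _ ≤ _ := Real.rpow_le_rpow_of_exponent_le hR1 hk
  have hT2 : 2 ≤ T := hR.trans hRT
  have hT0 : 0 < T := by linarith
  have hlT : 0 < Real.log T := Real.log_pos (by linarith)
  have hb : bT T = 1 / (4 * (1 + Real.log T)) := rfl
  have hb0 : 0 < bT T := by rw [hb]; positivity
  have hbinv : ∀ z : ℝ, z / bT T = z * (4 * (1 + Real.log T)) := by
    intro z; rw [hb]; field_simp
  have hu2 : 100 ≤ u ^ 2 := by nlinarith
  have hu3 : 1000 ≤ u ^ 3 := by nlinarith
  -- the size of `a` and of `a / b`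
  have ha : (y + 2) / l ≤ 1 / (4 * u ^ 3) := by
    rw [div_le_div_iff₀ hl0 (by positivity), ← hu4]
    nlinarith [mul_le_mul_of_nonneg_right hy (by positivity : 0 ≤ 4 * u ^ 3)]
  have ha0 : 0 < (y + 2) / l := by positivity
  have hab : (y + 2) / l / bT T ≤ 1 / (4 * u ^ 2) := by
    rw [hbinv]
    have e1 : 4 * (1 + Real.log T) ≤ u := by linarith
    calc (y + 2) / l * (4 * (1 + Real.log T)) ≤ 1 / (4 * u ^ 3) * u := by
          apply mul_le_mul ha e1 (by positivity) (by positivity)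
      _ = _ := by field_simp
  have hab0 : 0 ≤ (y + 2) / l / bT T := by positivity
  have hsmall : 1 / (4 * u ^ 3) ≤ 1 / 16 := by
    rw [div_le_div_iff₀ (by positivity) (by norm_num)]
    linarith
  refine ⟨⟨hl, hll, hT2, hR1, hRT, hy0, hb0, ?_, ?_, ?_, ?_, ?_, ?_, ?_⟩, ?_, ?_, ?_⟩
  · rw [hb, div_le_div_iff₀ (by positivity) (by norm_num)]
    linarith
  · have e1 : (T ^ 4) ^ bT T = Real.exp (Real.log T / (1 + Real.log T)) := by
      rw [Real.rpow_def_of_pos (by positivity), Real.log_pow, hb]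
      congr 1
      push_cast
      field_simp
    rw [e1]
    have e2 : Real.log T / (1 + Real.log T) ≤ 1 := by
      rw [div_le_one (by positivity)]; linarith
    have e3 := Real.exp_le_exp.2 e2
    have e4 := Real.exp_one_lt_d9
    linarith
  · have e1 : (y + 2) / l / bT T ≤ 1 / 3 := by
      refine hab.trans ?_
      rw [div_le_div_iff₀ (by positivity) (by norm_num)]
      linarith
    rw [div_le_iff₀ hb0] at e1
    linarith
  · exact ha.trans hsmall
  · have e1 : (y + 2) / l * d ≤ 1 / (4 * u ^ 3) * u := by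
      apply mul_le_mul ha hud hd (by positivity)
    refine e1.trans ?_
    have e2 : 1 / (4 * u ^ 3) * u = 1 / (4 * u ^ 2) := by field_simp
    rw [e2, div_le_div_iff₀ (by positivity) (by norm_num)]
    linarith
  · have e1 : (y + 2) / l / bT T * (Real.log l + Real.log T) ≤ 1 / (4 * u ^ 2) * (2 * u) := by
      apply mul_le_mul hab (by linarith) (by linarith) (by positivity)
    refine e1.trans ?_
    have e2 : 1 / (4 * u ^ 2) * (2 * u) = 1 / (2 * u) := by field_simp; ring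
    rw [e2, div_le_one (by positivity)]
    linarith
  · rw [hsq]
    have e1 : (y + 2) / l / bT T * u ^ 2 ≤ 1 / (4 * u ^ 2) * u ^ 2 :=
      mul_le_mul_of_nonneg_right hab (by positivity)
    refine e1.trans ?_
    have e2 : 1 / (4 * u ^ 2) * u ^ 2 = 1 / 4 := by field_simp
    rw [e2]; norm_num
  · have e1 : 1 / (4 * u ^ 3) ≤ δ := by
      have e2 : 1 ≤ δ * u := by
        rw [div_le_iff₀ hδ] at huδ
        linarith
      rw [div_le_iff₀ (by positivity)]
      nlinarith [mul_nonneg hδ.le (by positivity : 0 ≤ u)]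
    linarith
  · have hz1 : (T ^ 4) ^ (-δ) ≤ 1 := by
      apply Real.rpow_le_one_of_one_le_of_nonpos
      · exact one_le_pow₀ (by linarith)
      · linarith
    have hz0 : 0 ≤ (T ^ 4) ^ (-δ) := by positivity
    rw [BG_mul, mul_div_assoc, ← hCb]
    have e1 : (T ^ 4) ^ (-δ) * Cb ≤ 1 * u := mul_le_mul hz1 huC hBG (by norm_num)
    calc (y + 2) / l * ((T ^ 4) ^ (-δ) * Cb) ≤ 1 / (4 * u ^ 3) * (1 * u) := by
          apply mul_le_mul ha e1 (by positivity) (by positivity)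
      _ = 1 / (4 * u ^ 2) := by field_simp
      _ ≤ 1 / 4 := by
          rw [div_le_div_iff₀ (by positivity) (by norm_num)]
          linarith
  · have hz0 : 0 ≤ (T ^ 4) ^ (-δ) := by positivity
    have hz2 : R * ((T ^ 4) ^ (-δ)) ^ 2 ≤ 1 := by
      have e1 : ((T ^ 4) ^ (-δ)) ^ 2 = R ^ (-(8 * δ) - 1) := by
        rw [hT, ← Real.rpow_natCast, ← Real.rpow_natCast, ← Real.rpow_mul hR0.le,
          ← Real.rpow_mul hR0.le, ← Real.rpow_mul hR0.le]
        congr 1
        push_cast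
        field_simp
        ring
      rw [e1]
      calc R * R ^ (-(8 * δ) - 1) = R ^ (1:ℝ) * R ^ (-(8 * δ) - 1) := by rw [Real.rpow_one]
        _ = R ^ (-(8 * δ)) := by rw [← Real.rpow_add hR0]; congr 1; ring
        _ ≤ 1 := Real.rpow_le_one_of_one_le_of_nonpos hR1 (by linarith)
    rw [BG_mul, mul_div_assoc, ← hCb]
    have e1 : l * R * ((y + 2) / l * ((T ^ 4) ^ (-δ) * Cb)) ^ 2 =
        (R * ((T ^ 4) ^ (-δ)) ^ 2) * (l * ((y + 2) / l * Cb) ^ 2) := by ring
    rw [e1]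
    have e2 : (y + 2) / l * Cb ≤ 1 / (4 * u ^ 3) * u := mul_le_mul ha huC hBG (by positivity)
    have e3 : 1 / (4 * u ^ 3) * u = 1 / (4 * u ^ 2) := by field_simp
    rw [e3] at e2
    have e4 : l * ((y + 2) / l * Cb) ^ 2 ≤ 1 := by
      have e5 : ((y + 2) / l * Cb) ^ 2 ≤ (1 / (4 * u ^ 2)) ^ 2 :=
        pow_le_pow_left₀ (by positivity) e2 2
      calc l * ((y + 2) / l * Cb) ^ 2 ≤ l * (1 / (4 * u ^ 2)) ^ 2 :=
            mul_le_mul_of_nonneg_left e5 hl0.le
        _ = 1 / 16 := by rw [← hu4]; field_simp; norm_num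
        _ ≤ 1 := by norm_num
    calc (R * ((T ^ 4) ^ (-δ)) ^ 2) * (l * ((y + 2) / l * Cb) ^ 2) ≤ 1 * 1 := by
          apply mul_le_mul hz2 e4 (by positivity) (by norm_num)
      _ = 1 := by norm_num

/-- averaging the local counts -/
lemma count_average {S : Finset ℂ} {m : ℂ → ℝ} (hm : ∀ ρ, 0 ≤ m ρ) {t T : ℝ} (hT : 0 ≤ T)
    (hS : ∀ ρ ∈ S, t ≤ ρ.im ∧ ρ.im ≤ t + T) {f : ℝ → ℝ} (hf : Continuous f)
    (h : ∀ τ : ℝ, t - 1 / 2 ≤ τ → τ ≤ t + T + 1 / 2 →
      ∑ ρ ∈ S.filter (fun ρ => |ρ.im - τ| ≤ 1 / 2), m ρ ≤ f τ) :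
    ∑ ρ ∈ S, m ρ ≤ ∫ τ in (t - 1 / 2)..(t + T + 1 / 2), f τ := by
  set a : ℝ := t - 1 / 2 with ha
  set b : ℝ := t + T + 1 / 2 with hb
  have hab : a ≤ b := by rw [ha, hb]; linarith
  have h1 : ∀ ρ ∈ S, ∫ τ in a..b, (Set.Icc (ρ.im - 1 / 2) (ρ.im + 1 / 2)).indicator
      (fun _ => m ρ) τ = m ρ := by
    intro ρ hρ
    obtain ⟨h2, h3⟩ := hS ρ hρ
    rw [intervalIntegral.integral_of_le hab, ← integral_Icc_eq_integral_Ioc,
      setIntegral_indicator measurableSet_Icc]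
    have h4 : Set.Icc a b ∩ Set.Icc (ρ.im - 1 / 2) (ρ.im + 1 / 2) =
        Set.Icc (ρ.im - 1 / 2) (ρ.im + 1 / 2) := by
      apply Set.inter_eq_right.2
      apply Set.Icc_subset_Icc <;> linarith
    rw [h4, setIntegral_const]
    simp
    norm_num
  have hi : ∀ ρ : ℂ, IntervalIntegrable ((Set.Icc (ρ.im - 1 / 2) (ρ.im + 1 / 2)).indicator
      (fun _ => m ρ)) volume a b := by
    intro ρ
    rw [intervalIntegrable_iff_integrableOn_Ioc_of_le hab]
    exact (integrableOn_const (by simp)).indicator measurableSet_Icc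
  calc ∑ ρ ∈ S, m ρ = ∑ ρ ∈ S, ∫ τ in a..b,
        (Set.Icc (ρ.im - 1 / 2) (ρ.im + 1 / 2)).indicator (fun _ => m ρ) τ :=
        (Finset.sum_congr rfl h1).symm
    _ = ∫ τ in a..b, ∑ ρ ∈ S,
        (Set.Icc (ρ.im - 1 / 2) (ρ.im + 1 / 2)).indicator (fun _ => m ρ) τ :=
        (intervalIntegral.integral_finsetSum fun ρ _ => hi ρ).symm
    _ ≤ _ := by
        refine intervalIntegral.integral_mono_on hab ?_ (hf.intervalIntegrable _ _) fun τ hτ => ?_
        · have h5 := IntervalIntegrable.sum S fun ρ _ => hi ρ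
          have h6 : (∑ ρ ∈ S, (Set.Icc (ρ.im - 1 / 2) (ρ.im + 1 / 2)).indicator
              (fun _ => m ρ)) = fun τ => ∑ ρ ∈ S,
              (Set.Icc (ρ.im - 1 / 2) (ρ.im + 1 / 2)).indicator (fun _ => m ρ) τ := by
            funext τ
            rw [Finset.sum_apply]
          rw [h6] at h5
          exact h5
        · refine le_trans (le_of_eq ?_) (h τ hτ.1 hτ.2)
          rw [Finset.sum_filter]
          refine Finset.sum_congr rfl fun ρ _ => ?_
          rw [Set.indicator_apply]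
          have : τ ∈ Set.Icc (ρ.im - 1 / 2) (ρ.im + 1 / 2) ↔ |ρ.im - τ| ≤ 1 / 2 := by
            rw [Set.mem_Icc, abs_le]
            constructor
            · rintro ⟨h1, h2⟩; constructor <;> linarith
            · rintro ⟨h1, h2⟩; constructor <;> linarith
          simp only [this]

section
variable {d Cn θ A : ℝ} {c : ℕ → ℂ} {L : ℂ → ℂ} {Qf : ℝ → ℝ}

/-- the zero count over a window -/
theorem zero_win (hd : 0 ≤ d) (hCn : 1 ≤ Cn) {δ : ℝ} (hδ : 0 < δ) (hθ : θ + 8 * δ ≤ 1 / 2)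
    (H : ∀ τ : ℝ, Hyp d Cn θ A (Qf τ) (tw c τ) (fun s => L (s + τ * Complex.I)))
    {l y T R t : ℝ} (hbig : BigZ d δ l) (hy0 : 0 ≤ y) (hy : y + 2 ≤ l ^ (1 / 4 : ℝ) / 4)
    (hT : 2 ≤ T) (hR : R = 2 * T) (hTl : 1 + (1 + 1 / (8 * δ)) * Real.log R ≤ l ^ (1 / 4 : ℝ) / 4)
    (hQ : ∀ τ : ℝ, |τ - t| ≤ R → Real.log (Qf τ) ≤ l) (S : Finset ℂ)
    (hS : ∀ ρ ∈ S, L ρ = 0 ∧ 1 - y / l ≤ ρ.re ∧ t ≤ ρ.im ∧ ρ.im ≤ t + T) :
    ∑ ρ ∈ S, (analyticOrderNatAt L ρ : ℝ) ≤
      Kx d Cn A * (1 + 8 * Real.exp 1 * C4 * |A|) *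
        (Real.exp y * ((y + 2) * Real.log l) ^ 2) := by
  classical
  have hR2 : 2 ≤ R := by linarith
  have hR0 : 0 < R := by linarith
  set X : ℝ := R ^ (1 + 1 / (8 * δ)) with hX
  have hlX : Real.log X = (1 + 1 / (8 * δ)) * Real.log R := by
    rw [hX, Real.log_rpow hR0]
  obtain ⟨p, hpθ, hX1, hX2⟩ := parX_of hd hδ hθ hbig hy0 hy hR2 hX (by rw [hlX]; exact hTl)
  have hl := p.l4
  have hl0 : 0 < l := by linarith
  have hσ : 1 < 1 + 1 / l := by
    have : 0 < 1 / l := by positivity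
    linarith
  have hC4 := C4_nonneg
  have hKx : 0 ≤ Kx d Cn A := by
    unfold Kx
    have := Cw_ge
    positivity
  set w : ℝ := Real.exp y * ((y + 2) * Real.log l) ^ 2 with hw
  have hw0 : 0 ≤ w := by positivity
  -- the mean square
  have hPc : Summable (P c (1 + 1 / l)) := by
    have := (H t).summ (1 + 1 / l) hσ
    rwa [P_tw] at this
  have hPhi := (P_summ (norm_hi X c) hPc).1
  have hEc : Continuous (EE (hi X c) (1 + 1 / l)) := EE_continuous hσ hPhi
  have hQt : Real.log (Qf t) ≤ l := hQ t (by simp; linarith)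
  have hsum : ∑' n, P c (1 + 1 / l) n ≤ 2 * |A| * l := by
    have := sumP_le (H t) hl hQt
    rwa [P_tw] at this
  have hEE0 : ∀ τ, 0 ≤ EE (hi X c) (1 + 1 / l) τ := fun τ => EE_nonneg τ
  have hwin : ∫ τ in (t - 1 / 2)..(t + T + 1 / 2), EE (hi X c) (1 + 1 / l) τ ≤
      8 * Real.exp 1 * C4 * |A| * l := by
    have e0 : ∫ τ in (t - 1 / 2)..(t + T + 1 / 2), EE (hi X c) (1 + 1 / l) τ ≤
        ∫ τ in (t - 1 / 2)..(t - 1 / 2 + R), EE (hi X c) (1 + 1 / l) τ := by
      apply intervalIntegral.integral_mono_interval le_rfl (by linarith) (by linarith)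
        (Eventually.of_forall fun τ => hEE0 τ) (hEc.intervalIntegrable _ _)
    refine e0.trans ?_
    have e1 : ∫ τ in (t - 1 / 2)..(t - 1 / 2 + R), EE (hi X c) (1 + 1 / l) τ =
        ∫ τ in (0:ℝ)..R, EE (hi X (tw c (t - 1 / 2))) (1 + 1 / l) τ := by
      have e2 := intervalIntegral.integral_comp_add_right (a := 0) (b := R)
        (fun τ => EE (hi X c) (1 + 1 / l) τ) (t - 1 / 2)
      rw [zero_add, add_comm R (t - 1 / 2)] at e2
      rw [← e2]
      refine intervalIntegral.integral_congr fun τ _ => ?_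
      rw [hi_tw, EE_tw]
    rw [e1]
    have hP2 : Summable (P (hi X (tw c (t - 1 / 2))) (1 + 1 / l)) := by
      rw [hi_tw, P_tw]; exact hPhi
    refine (window_EE hR2 (Sup_mono hR0.le p.RT (hi_sup X _)) hσ hP2).trans ?_
    have e3 : ∑' n, P (hi X (tw c (t - 1 / 2))) (1 + 1 / l) n ≤ 2 * |A| * l := by
      rw [hi_tw, P_tw]
      exact (P_summ (norm_hi X c) hPc).2.trans hsum
    calc 4 * Real.exp 1 * (C4 * ∑' n, P (hi X (tw c (t - 1 / 2))) (1 + 1 / l) n) ≤
        4 * Real.exp 1 * (C4 * (2 * |A| * l)) := by gcongr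
      _ = _ := by ring
  -- the local counts
  have hloc := count_average (S := S) (m := fun ρ => (analyticOrderNatAt L ρ : ℝ))
    (fun ρ => Nat.cast_nonneg _) (t := t) (T := T) (by linarith)
    (fun ρ hρ => ⟨(hS ρ hρ).2.2.1, (hS ρ hρ).2.2.2⟩)
    (f := fun τ => Kx d Cn A * (w * (1 / R + EE (hi X c) (1 + 1 / l) τ / l)))
    (by fun_prop)
    (fun τ hτ1 hτ2 => by
      have hinj : Function.Injective (fun ρ : ℂ => ρ - τ * Complex.I) := sub_left_injective
      have hτ : |τ - t| ≤ R := by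
        rw [abs_le]; constructor <;> linarith
      have h1 := zero_local (H τ) hd hCn hδ hpθ p (hQ τ hτ) rfl hX1 hX2
        ((S.filter (fun ρ => |ρ.im - τ| ≤ 1 / 2)).map ⟨_, hinj⟩) (fun ρ hρ => by
        rw [Finset.mem_map] at hρ
        obtain ⟨ρ', hρ', rfl⟩ := hρ
        obtain ⟨b1, b2⟩ := Finset.mem_filter.1 hρ'
        obtain ⟨a1, a2, -⟩ := hS ρ' b1
        simp only [Function.Embedding.coeFn_mk]
        refine ⟨?_, ?_, ?_⟩
        · rw [sub_add_cancel]
          exact a1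
        · simpa using a2
        · simpa using b2)
      rw [Finset.sum_map] at h1
      have h2 : ∀ ρ : ℂ, analyticOrderNatAt (fun s => L (s + τ * Complex.I))
          (ρ - τ * Complex.I) = analyticOrderNatAt L ρ := by
        intro ρ
        unfold analyticOrderNatAt
        congr 1
        have h3 := analyticOrderAt_comp_of_deriv_ne_zero (f := L) (z₀ := ρ - τ * Complex.I)
          (g := fun s => s + τ * Complex.I) (by fun_prop) (by simp)
        rw [sub_add_cancel] at h3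
        exact h3
      simp only [Function.Embedding.coeFn_mk, h2] at h1
      have e1 : EE (hi X (tw c τ)) (1 + 1 / l) 0 = EE (hi X c) (1 + 1 / l) τ := by
        rw [hi_tw, EE_tw, zero_add]
      rw [e1] at h1
      exact h1)
  refine hloc.trans ?_
  rw [intervalIntegral.integral_const_mul, intervalIntegral.integral_const_mul,
    intervalIntegral.integral_add (continuous_const.intervalIntegrable _ _)
      ((hEc.div_const l).intervalIntegrable _ _), intervalIntegral.integral_const,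
    intervalIntegral.integral_div]
  have h1 : (t + T + 1 / 2 - (t - 1 / 2)) • (1 / R) ≤ 1 := by
    rw [smul_eq_mul, mul_one_div, div_le_one hR0]
    linarith
  have h2 : (∫ τ in (t - 1 / 2)..(t + T + 1 / 2), EE (hi X c) (1 + 1 / l) τ) / l ≤
      8 * Real.exp 1 * C4 * |A| := by
    rw [div_le_iff₀ hl0]
    exact hwin
  calc Kx d Cn A * (w * ((t + T + 1 / 2 - (t - 1 / 2)) • (1 / R) +
      (∫ τ in (t - 1 / 2)..(t + T + 1 / 2), EE (hi X c) (1 + 1 / l) τ) / l)) ≤
      Kx d Cn A * (w * (1 + 8 * Real.exp 1 * C4 * |A|)) := by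
        refine mul_le_mul_of_nonneg_left ?_ hKx
        exact mul_le_mul_of_nonneg_left (by linarith) hw0
    _ = _ := by ring

end

end Pool.Agent.R402.Win
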